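import Pool.Agent.Mg.Fdb8016p.Ged04e7

section

/-! Anti-concentration of the end point of a crossing with many cuts, and the starting points. -/

namespace Pool.Agent.MP_db8016_pr.BZ
open MeasureTheory ProbabilityTheory Filter
open scoped ENNReal

namespace ACAux
open Pool.Agent.MP_db8016_pr.BZ.Mod

variable (M : Mod)

/-- The law of the displacement of an irreducible piece. -/
noncomputable def q (x : M.Pt) : ℝ≥0∞ := M.sm {π | M.Irr π ∧ M.ds π = x}

lemma fiber (G : Set (List M.D)) (f : M.Pt → ℝ≥0∞) :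
    ∑' x, M.sm {π | π ∈ G ∧ M.ds π = x} * f x = ∑' π, G.indicator M.w π * f (M.ds π) := by
  unfold Mod.sm
  simp only [← ENNReal.tsum_mul_right]
  rw [ENNReal.tsum_comm]
  refine tsum_congr fun π => ?_
  rw [tsum_eq_single (M.ds π)]
  · by_cases h : π ∈ G
    · rw [Set.indicator_of_mem h, Set.indicator_of_mem (by exact ⟨h, rfl⟩)]
    · rw [Set.indicator_of_notMem h, Set.indicator_of_notMem (fun h' => h h'.1)]
  · intro x hx
    rw [Set.indicator_of_notMem (fun h' => hx h'.2.symm), zero_mul]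

lemma sum_q : ∑' x, q M x = M.sm {γ | M.Irr γ} := by
  have := fiber M {γ | M.Irr γ} (fun _ => 1)
  simp only [mul_one] at this
  exact this

lemma w_ge {π : List M.D} (h : π.length ≤ 4) : M.κ ^ 4 ≤ M.w π := by
  have := M.w_append_ge [] π
  rw [M.w_nil, mul_one, List.nil_append] at this
  exact (pow_le_pow_of_le_one zero_le M.κ_le_one h).trans this

lemma w_le_sm {G : Set (List M.D)} {π : List M.D} (h : π ∈ G) : M.w π ≤ M.sm G := by
  have := ENNReal.le_tsum (f := G.indicator M.w) π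
  rwa [Set.indicator_of_mem h] at this

lemma pf_single {d : M.D} {α : List M.D} (h : α <+: [d]) : α = [] ∨ α = [d] := by
  rcases α with _ | ⟨a, β⟩
  · exact Or.inl rfl
  · obtain ⟨e1, e2⟩ := List.cons_prefix_cons.1 h
    rw [e1, List.prefix_nil.1 e2]
    exact Or.inr rfl

lemma irr_u : M.Irr [M.u] := by
  have hl : M.lv [M.u] = 1 := by simp [M.hu]
  refine ⟨⟨fun α h => ?_, fun α h h' => ?_⟩, by simp, fun α β e _ _ => ?_⟩
  · rcases pf_single M h with rfl | rfl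
    · simp
    · rw [hl]; exact zero_le_one
  · rcases pf_single M h with rfl | rfl
    · rw [hl]; simp
    · exact absurd rfl h'
  · rcases α with _ | ⟨a, α⟩
    · exact Or.inl rfl
    · right
      have := congrArg List.length e
      simp only [List.length_cons, List.length_nil, List.length_append] at this
      exact List.length_eq_zero_iff.1 (by omega)

lemma cuts_nn : ∀ (n : ℕ) (γ : List M.D), M.Cuts n γ → M.NN γ
  | 0, _, h => h.1
  | n + 1, _, ⟨_, γ', h1, h2, e⟩ => e ▸ h1.1.1.append (cuts_nn n γ' h2)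

/-- The crossings seen from `x`. -/
def A (h : ℝ) (S : Finset M.Pt) (n : ℕ) (x : M.Pt) : Set (List M.D) :=
  {γ | M.Cross (h - M.L x) γ ∧ M.Cuts n γ ∧ x + M.ds γ ∈ S}

/-- The last part of a crossing. -/
noncomputable def Psi (h : ℝ) (S : Finset M.Pt) (x : M.Pt) : ℝ≥0∞ :=
  M.sm {ρ | M.Cross (h - M.L x) ρ ∧ x + M.ds ρ ∈ S}

lemma Psi_le (h : ℝ) (S : Finset M.Pt) (x : M.Pt) : Psi M h S x ≤ 1 :=
  sm_le_one ((M.pf_cross (h - M.L x)).mono fun _ hρ => hρ.1)

lemma step (h : ℝ) (S : Finset M.Pt) (n : ℕ) (x : M.Pt) :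
    M.sm (A M h S (n + 1) x) ≤
      ∑' π, {γ | M.Irr γ}.indicator M.w π * M.sm (A M h S n (x + M.ds π)) := by
  have h1 := sm_le_tsum (M := M) (G := A M h S (n + 1) x)
    (ι := Σ π : {γ | M.Irr γ}, A M h S n (x + M.ds π)) (fun i => i.1.1 ++ i.2.1) (by
      rintro γ ⟨hc, ⟨π, γ', i1, i2, rfl⟩, hS⟩
      refine ⟨⟨⟨π, i1⟩, ⟨γ', ⟨cuts_nn M n γ' i2, ?_, fun α a1 a2 => ?_⟩, i2, ?_⟩⟩, rfl⟩
      · have := hc.2.1
        rw [M.lv_append] at this
        rw [map_add]
        unfold Mod.lv at this ⊢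
        linarith
      · have := hc.2.2 (π ++ α) ((List.prefix_append_right_inj π).2 a1) (by simpa using a2)
        rw [M.lv_append] at this
        rw [map_add]
        unfold Mod.lv at this ⊢
        linarith
      · simpa [add_assoc] using hS)
  refine h1.trans (le_of_eq ?_)
  rw [ENNReal.tsum_sigma']
  have e : ∀ π, {γ | M.Irr γ}.indicator M.w π * M.sm (A M h S n (x + M.ds π)) =
      {γ | M.Irr γ}.indicator (fun π => M.w π * M.sm (A M h S n (x + M.ds π))) π := by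
    intro π
    by_cases hπ : π ∈ {γ | M.Irr γ}
    · rw [Set.indicator_of_mem hπ, Set.indicator_of_mem hπ]
    · rw [Set.indicator_of_notMem hπ, Set.indicator_of_notMem hπ, zero_mul]
  simp only [e]
  rw [← tsum_subtype]
  refine tsum_congr fun π => ?_
  rw [sm_eq_tsum, ← ENNReal.tsum_mul_left]
  exact tsum_congr fun γ' => w_append π.2.1.2 γ'.2.1.1

lemma iter (h : ℝ) (S : Finset M.Pt) :
    ∀ (n : ℕ) (x : M.Pt), M.sm (A M h S n x) ≤ (op (q M))^[n] (Psi M h S) x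
  | 0, _ => sm_mono fun _ hγ => ⟨hγ.1, hγ.2.2⟩
  | n + 1, x => by
    rw [Function.iterate_succ', Function.comp_apply]
    refine (step M h S n x).trans ?_
    have := fiber M {γ | M.Irr γ} (fun y => (op (q M))^[n] (Psi M h S) (x + y))
    refine le_trans ?_ (le_of_eq this.symm)
    exact ENNReal.tsum_le_tsum fun π => mul_le_mul_right (iter h S n (x + M.ds π)) _

lemma sm_union (G G' : Set (List M.D)) : M.sm (G ∪ G') ≤ M.sm G + M.sm G' := by
  unfold Mod.sm
  rw [← ENNReal.tsum_add]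
  refine ENNReal.tsum_le_tsum fun γ => ?_
  by_cases h : γ ∈ G
  · rw [Set.indicator_of_mem (Set.mem_union_left _ h), Set.indicator_of_mem h]
    exact le_self_add
  · by_cases h' : γ ∈ G'
    · rw [Set.indicator_of_mem (Set.mem_union_right _ h'), Set.indicator_of_mem h']
      exact le_add_self
    · rw [Set.indicator_of_notMem (fun h'' => h''.elim h h')]
      exact zero_le

lemma slab (hR : S_Rec) (h : ℝ) (S : Finset M.Pt) (t : ℝ) :
    ∑' x, {x | t ≤ M.L x ∧ M.L x < t + 1}.indicator (Psi M h S) x ≤ S.card * (2 * M.κ⁻¹) := by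
  classical
  have h1 : ∀ x, {x | t ≤ M.L x ∧ M.L x < t + 1}.indicator (Psi M h S) x ≤
      ∑' ρ, ∑ y ∈ S, if x = y - M.ds ρ then
        {ρ | M.Rc ρ ∧ M.L y - t - 1 ≤ M.lv ρ ∧ M.lv ρ < M.L y - t + 1}.indicator M.w ρ
        else 0 := by
    intro x
    by_cases hx : x ∈ {x | t ≤ M.L x ∧ M.L x < t + 1}
    · rw [Set.indicator_of_mem hx]
      refine ENNReal.tsum_le_tsum fun ρ => ?_
      by_cases hρ : ρ ∈ {ρ | M.Cross (h - M.L x) ρ ∧ x + M.ds ρ ∈ S}
      · rw [Set.indicator_of_mem hρ]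
        refine le_trans ?_ (Finset.single_le_sum (fun _ _ => zero_le) hρ.2)
        rw [if_pos (by simp), Set.indicator_of_mem]
        refine ⟨hρ.1.up.2, ?_, ?_⟩
        · rw [map_add]; unfold Mod.lv; linarith [hx.2]
        · rw [map_add]; unfold Mod.lv; linarith [hx.1]
      · rw [Set.indicator_of_notMem hρ]; exact zero_le
    · rw [Set.indicator_of_notMem hx]; exact zero_le
  refine (ENNReal.tsum_le_tsum h1).trans ?_
  rw [ENNReal.tsum_comm]
  have h2 : ∀ ρ, (∑' x, ∑ y ∈ S, if x = y - M.ds ρ then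
        {ρ | M.Rc ρ ∧ M.L y - t - 1 ≤ M.lv ρ ∧ M.lv ρ < M.L y - t + 1}.indicator M.w ρ
        else 0) = ∑ y ∈ S,
        {ρ | M.Rc ρ ∧ M.L y - t - 1 ≤ M.lv ρ ∧ M.lv ρ < M.L y - t + 1}.indicator M.w ρ := by
    intro ρ
    rw [Summable.tsum_finsetSum (fun _ _ => ENNReal.summable)]
    refine Finset.sum_congr rfl fun y _ => ?_
    rw [tsum_ite_eq]
  simp only [h2]
  rw [Summable.tsum_finsetSum (fun _ _ => ENNReal.summable), ← nsmul_eq_mul]
  refine Finset.sum_le_card_nsmul _ _ _ fun y _ => ?_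
  have h3 := hR M (M.L y - t - 1)
  have h4 := hR M (M.L y - t)
  rw [two_mul]
  refine le_trans ?_ ((sm_union M _ _).trans (add_le_add h3 h4))
  refine sm_mono (M := M) fun ρ hρ => ?_
  by_cases hl : M.lv ρ < M.L y - t
  · exact Or.inl ⟨hρ.1, hρ.2.1, by linarith⟩
  · exact Or.inr ⟨hρ.1, not_lt.1 hl, hρ.2.2⟩

/-- Copies of one piece. -/
def rep (π : List M.D) : ℕ → List M.D
  | 0 => []
  | n + 1 => π ++ rep π n

lemma ds_rep (π : List M.D) (n : ℕ) : M.ds (rep M π n) = n • M.ds π := by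
  induction n with
  | zero => simp [rep]
  | succ n ih => rw [rep, M.ds_append, ih, succ_nsmul']

lemma nn_rep {π : List M.D} (h : M.NN π) (n : ℕ) : M.NN (rep M π n) := by
  induction n with
  | zero => exact up_nil.1
  | succ n ih => exact h.append ih

lemma ds_replicate (d : M.D) (n : ℕ) : M.ds (List.replicate n d) = n • M.vec d := by
  induction n with
  | zero => simp
  | succ n ih => rw [List.replicate_succ, M.ds_cons, ih, succ_nsmul']

end ACAux

open ACAux Pool.Agent.MP_db8016_pr.BZ.Mod in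
theorem s_ac (hW : S_RW) (hR : S_Rec) : S_AC := by
  rintro M d ⟨h, hinj, hh, ⟨j₀, -⟩, hπ⟩ hs η hη
  have hd : 1 ≤ d := j₀.pos
  have hε : M.κ ^ 4 ≠ 0 := pow_ne_zero _ M.hκ
  obtain ⟨C, n₀, hC, H⟩ := hW M.Pt M.L d (q M) (M.κ ^ 4) (M.vec M.u) h hd hε
    ((sum_q M).le.trans hs)
    ((w_ge M (π := [M.u]) (by simp)).trans (w_le_sm M ⟨irr_u M, by simp⟩))
    (fun j => by
      obtain ⟨π, p1, p2, p3⟩ := hπ j
      exact (w_ge M p3).trans (w_le_sm M ⟨p1, p2⟩)) hinj hh η hη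
  have hk : 2 * M.κ⁻¹ ≠ ⊤ := ENNReal.mul_ne_top (by simp) (ENNReal.inv_ne_top.2 M.hκ)
  refine ⟨C * (2 * M.κ⁻¹).toReal, n₀, fun n hn t S => ?_⟩
  have h1 := iter M t S n 0
  have h2 := H n hn (Psi M t S) _ (Psi_le M t S) (slab M hR t S)
  have h3 : M.sm {γ | M.Cross t γ ∧ M.Cuts n γ ∧ M.ds γ ∈ S} ≤ M.sm (A M t S n 0) :=
    sm_mono fun γ hγ => ⟨by simpa using hγ.1, hγ.2.1, by simpa using hγ.2.2⟩
  refine (h3.trans (h1.trans h2)).trans (le_of_eq ?_)
  congr 1
  rw [mul_right_comm C, ENNReal.ofReal_mul' ENNReal.toReal_nonneg, ENNReal.ofReal_toReal hk]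
  ring

open ACAux Pool.Agent.MP_db8016_pr.BZ.Mod in
theorem s_init : S_Init := by
  classical
  rintro M d hd ⟨h, hinj, -, ⟨j₀, hj₀⟩, hπ⟩ N
  obtain ⟨j, hj⟩ : ∃ j : Fin d, j ≠ j₀ := by
    have : Nontrivial (Fin d) := Fin.nontrivial_iff_two_le.2 hd
    exact exists_ne j₀
  obtain ⟨π, p1, p2, -⟩ := hπ j
  have hl : 0 ≤ M.lv π := p1.1.1 π List.prefix_rfl
  let m : ℕ → ℕ := fun i => ⌊(i : ℝ) * M.lv π⌋₊ + 1
  let lam : ℕ → List M.D := fun i => rep M π i ++ List.replicate (m i) M.v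
  have hlv : ∀ i k : ℕ, M.lv (rep M π i ++ List.replicate k M.v) = i * M.lv π - k := by
    intro i k
    unfold Mod.lv
    rw [M.ds_append, ds_rep, ds_replicate, map_add, map_nsmul, map_nsmul, M.L_v]
    simp [sub_eq_add_neg]
  have hds : ∀ i, M.ds (lam i) = ∑ k, ((Pi.single j (i : ℤ) : Fin d → ℤ) +
      (Pi.single j₀ ((i : ℤ) - m i) : Fin d → ℤ)) k • h k := by
    intro i
    simp only [Pi.add_apply, add_smul, Finset.sum_add_distrib]
    rw [Finset.sum_eq_single j (fun k _ hk => by rw [Pi.single_eq_of_ne hk, zero_smul]) (by simp),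
      Finset.sum_eq_single j₀ (fun k _ hk => by rw [Pi.single_eq_of_ne hk, zero_smul]) (by simp),
      Pi.single_eq_same, Pi.single_eq_same, hj₀]
    simp only [lam]
    rw [M.ds_append, ds_rep, ds_replicate, p2, M.hv, sub_smul, natCast_zsmul, natCast_zsmul,
      natCast_zsmul, smul_add, smul_neg]
    abel
  have hI : Function.Injective fun i => M.ds (lam i) := by
    intro a b e
    simp only [hds] at e
    have := congrFun (hinj e) j
    simpa [Pi.single_eq_of_ne hj] using this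
  refine ⟨(Finset.range N).image fun i => M.ds (lam i), ∑ i ∈ Finset.range N, (lam i).length,
    by rw [Finset.card_image_of_injective _ hI, Finset.card_range], fun z hz => ?_⟩
  obtain ⟨i, hi, rfl⟩ := Finset.mem_image.1 hz
  have h0 : 0 ≤ (i : ℝ) * M.lv π := mul_nonneg (Nat.cast_nonneg _) hl
  have f1 := Nat.floor_le h0
  have f2 := Nat.lt_floor_add_one ((i : ℝ) * M.lv π)
  refine ⟨?_, lam i, rfl,
    Finset.single_le_sum (f := fun i => (lam i).length) (fun _ _ => Nat.zero_le _) hi,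
    fun α a1 a2 => ?_⟩
  · have := hlv i (m i)
    unfold Mod.lv at this f1 f2
    simp only [lam]
    rw [this]
    simp only [m, Mod.lv]
    push_cast
    constructor <;> linarith
  · rcases pf_append_cases a1 with ⟨b1, -⟩ | ⟨β, b1, rfl⟩
    · exact nn_rep M p1.1.1 i α b1
    · obtain ⟨c1, c2⟩ := List.prefix_replicate_iff.1 b1
      have c3 : β.length ≠ m i := fun e => a2 (by rw [c2, e])
      have c4 : β.length ≤ ⌊(i : ℝ) * M.lv π⌋₊ := by
        simp only [m] at c1 c3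
        omega
      rw [c2, hlv]
      have : (β.length : ℝ) ≤ ⌊(i : ℝ) * M.lv π⌋₊ := by exact_mod_cast c4
      linarith

end Pool.Agent.MP_db8016_pr.BZ

end

section

/-! The abelian property: the second walker can be run after the first one. -/

namespace Pool.Agent.MP_db8016_pr.BZ

namespace AbAux

section Abstract
variable {ι V : Type} [DecidableEq ι] [DecidableEq V] (src tgt : ι → V)

/-- Total increment of `g` along a finite family of arrows. -/
def Phi (E : Finset ι) (g : V → ℤ) : ℤ := ∑ p ∈ E, (g (tgt p) - g (src p))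

/-- The indicator function of a vertex. -/
def ind (v : V) (u : V) : ℤ := if u = v then 1 else 0

omit [DecidableEq ι] in
lemma Phi_ind (E : Finset ι) (v : V) : Phi src tgt E (ind v) =
    ((E.filter fun p => tgt p = v).card : ℤ) - ((E.filter fun p => src p = v).card : ℤ) := by
  simp only [Phi, ind, Finset.sum_sub_distrib, Finset.sum_boole]

lemma inter_ind_le {E₁ E₂ : Finset ι} {x X y Y v : V}
    (h₁ : ∀ g, Phi src tgt E₁ g = g X - g x) (h₂ : ∀ g, Phi src tgt E₂ g = g Y - g y)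
    (hv : ∀ p ∈ E₁, src p = v → p ∈ E₂) (hXY : X ≠ Y) (hX : ∀ p ∈ E₂, src p ≠ X) :
    Phi src tgt (E₁ ∩ E₂) (ind v) ≤ 0 := by
  have e₁ := h₁ (ind v)
  have e₂ := h₂ (ind v)
  rw [Phi_ind] at e₁ e₂ ⊢
  have a₁ : ((E₁ ∩ E₂).filter fun p => tgt p = v).card ≤ (E₁.filter fun p => tgt p = v).card :=
    Finset.card_le_card (Finset.filter_subset_filter _ Finset.inter_subset_left)
  have a₂ : ((E₁ ∩ E₂).filter fun p => tgt p = v).card ≤ (E₂.filter fun p => tgt p = v).card :=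
    Finset.card_le_card (Finset.filter_subset_filter _ Finset.inter_subset_right)
  have a₃ : (E₁.filter fun p => src p = v).card ≤ ((E₁ ∩ E₂).filter fun p => src p = v).card := by
    refine Finset.card_le_card fun p hp => ?_
    rw [Finset.mem_filter] at hp ⊢
    exact ⟨Finset.mem_inter.2 ⟨hp.1, hv p hp.1 hp.2⟩, hp.2⟩
  by_cases hvX : X = v
  · subst hvX
    have a₄ : (E₂.filter fun p => src p = X).card = 0 := by
      rw [Finset.card_eq_zero, Finset.filter_eq_empty_iff]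
      exact hX
    simp only [ind, hXY.symm, if_false] at e₂
    split_ifs at e₂ <;> omega
  · simp only [ind, hvX, if_false] at e₁
    split_ifs at e₁ <;> omega

omit [DecidableEq ι] in
lemma Phi_eq_zero {E : Finset ι} (h : ∀ v, Phi src tgt E (ind v) ≤ 0) (g : V → ℤ) :
    Phi src tgt E g = 0 := by
  set T : Finset V := E.image src ∪ E.image tgt with hT
  have key : ∀ g : V → ℤ, Phi src tgt E g = ∑ v ∈ T, g v * Phi src tgt E (ind v) := by
    intro g
    simp only [Phi, Finset.mul_sum]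
    rw [Finset.sum_comm]
    refine Finset.sum_congr rfl fun p hp => ?_
    have h1 : src p ∈ T := Finset.mem_union_left _ (Finset.mem_image_of_mem _ hp)
    have h2 : tgt p ∈ T := Finset.mem_union_right _ (Finset.mem_image_of_mem _ hp)
    simp [ind, mul_sub, Finset.sum_sub_distrib, h1, h2]
  have h0 : ∑ v ∈ T, Phi src tgt E (ind v) = 0 := by
    have := key fun _ => 1
    simp only [one_mul] at this
    rw [← this]
    simp [Phi]
  have h1 := (Finset.sum_eq_zero_iff_of_nonpos fun v _ => h v).1 h0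
  rw [key]
  exact Finset.sum_eq_zero fun v hv => by rw [h1 v hv, mul_zero]

omit [DecidableEq V] in
lemma Phi_sdiff (E₁ E₂ : Finset ι) (g : V → ℤ) :
    Phi src tgt (E₁ \ E₂) g = Phi src tgt E₁ g - Phi src tgt (E₁ ∩ E₂) g := by
  unfold Phi
  rw [← Finset.sum_inter_add_sum_sdiff E₁ E₂]
  ring

/-- Two walks that read the same stacks split into vertex disjoint flows. -/
theorem split {E₁ E₂ : Finset ι} {x X y Y : V}
    (h₁ : ∀ g, Phi src tgt E₁ g = g X - g x) (h₂ : ∀ g, Phi src tgt E₂ g = g Y - g y)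
    (nest : ∀ v, (∀ p ∈ E₁, src p = v → p ∈ E₂) ∨ (∀ p ∈ E₂, src p = v → p ∈ E₁))
    (hXY : X ≠ Y) (hX : ∀ p ∈ E₂, src p ≠ X) (hY : ∀ p ∈ E₁, src p ≠ Y) :
    ∀ g, Phi src tgt (E₂ \ E₁) g = g Y - g y := by
  have h0 : ∀ g, Phi src tgt (E₁ ∩ E₂) g = 0 := by
    refine Phi_eq_zero src tgt fun v => ?_
    rcases nest v with hv | hv
    · exact inter_ind_le src tgt h₁ h₂ hv hXY hX
    · rw [Finset.inter_comm]
      exact inter_ind_le src tgt h₂ h₁ hv hXY.symm hY
  intro g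
  rw [Phi_sdiff, Finset.inter_comm, h0, h₂, sub_zero]

end Abstract

section Walk
variable {Dir Pt : Type} [AddCommGroup Pt] [DecidableEq Pt] (vec : Dir → Pt) (a : Pt → ℕ → Dir)

/-- The arrows read by a path. -/
def arr (x : Pt) (γ : List Dir) : Finset (Σ _ : Pt, ℕ) :=
  (pts vec x γ).sigma fun z => Finset.range (exits vec x γ z).length

def src (p : Σ _ : Pt, ℕ) : Pt := p.1

def tgt (p : Σ _ : Pt, ℕ) : Pt := p.1 + vec (a p.1 p.2)

lemma mem_arr {x : Pt} {γ : List Dir} {p : Σ _ : Pt, ℕ} :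
    p ∈ arr vec x γ ↔ p.2 < (exits vec x γ p.1).length := by
  rw [arr, Finset.mem_sigma, Finset.mem_range]
  refine ⟨fun h => h.2, fun h => ⟨?_, h⟩⟩
  by_contra hc
  rw [(exits_eq_nil_iff vec).2 hc] at h
  simp at h

lemma sum_exits (g : Pt → ℤ) (T : Finset Pt) (γ : List Dir) : ∀ x : Pt, pts vec x γ ⊆ T →
    ∑ z ∈ T, ((exits vec x γ z).map fun d => g (z + vec d) - g z).sum =
      g (x + disp vec γ) - g x := by
  induction γ with
  | nil => simp
  | cons d γ ih =>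
    intro x hT
    rw [pts_cons, Finset.insert_subset_iff] at hT
    have e : ∀ z, ((exits vec x (d :: γ) z).map fun d => g (z + vec d) - g z).sum =
        (if x = z then g (z + vec d) - g z else 0) +
          ((exits vec (x + vec d) γ z).map fun d => g (z + vec d) - g z).sum := by
      intro z
      rw [exits_cons]
      split_ifs <;> simp
    simp only [e, Finset.sum_add_distrib, ih _ hT.2, Finset.sum_ite_eq, hT.1, if_true, disp_cons,
      add_assoc]
    ring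

lemma sum_pre (b : ℕ → Dir) (f : Dir → ℤ) (n : ℕ) :
    ((pre b n).map f).sum = ∑ i ∈ Finset.range n, f (b i) := by
  induction n with
  | zero => simp
  | succ n ih => simp [pre_succ, ih, Finset.sum_range_succ]

lemma Phi_arr {x : Pt} {γ : List Dir} (h : a ∈ Fol vec x γ) (g : Pt → ℤ) :
    Phi src (tgt vec a) (arr vec x γ) g = g (x + disp vec γ) - g x := by
  rw [← sum_exits vec g _ γ x subset_rfl, Phi, arr, Finset.sum_sigma]
  refine Finset.sum_congr rfl fun z _ => ?_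
  have hz : pre (a z) (exits vec x γ z).length = exits vec x γ z := h z
  conv_rhs => rw [← hz, sum_pre]
  rfl

lemma build (y Y : Pt) (n₁ : Pt → List Dir) (δ : List Dir) : ∀ (k : ℕ) (β : List Dir)
    (R : Finset (Σ _ : Pt, ℕ)), R.card = k →
    (∀ p, p ∈ R ↔ (n₁ p.1 ++ exits vec y β p.1).length ≤ p.2 ∧
      p.2 < (exits vec y δ p.1).length) →
    (∀ g, Phi src (tgt vec a) R g = g Y - g (y + disp vec β)) →
    (∀ z, a z ∈ cyl (n₁ z ++ exits vec y β z)) → pts vec y β ⊆ pts vec y δ →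
    ∃ δ', y + disp vec δ' = Y ∧ pts vec y δ' ⊆ pts vec y δ ∧
      ∀ z, a z ∈ cyl (n₁ z ++ exits vec y δ' z) := by
  intro k
  induction k using Nat.strong_induction_on with
  | _ k ih =>
  intro β R hk hR hP hc hp
  by_cases hv : y + disp vec β = Y
  · exact ⟨β, hv, hp, hc⟩
  set v := y + disp vec β with hvd
  have h1 : ∃ p ∈ R, src p = v := by
    by_contra h
    push Not at h
    have e := hP (ind v)
    rw [Phi_ind] at e
    have a₁ : (R.filter fun p => src p = v).card = 0 := by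
      rw [Finset.card_eq_zero, Finset.filter_eq_empty_iff]
      exact h
    have hv' : ¬ Y = v := fun e => hv e.symm
    simp only [ind, hv', if_false, if_true] at e
    omega
  obtain ⟨p, hpR, hpv⟩ := h1
  have hp2 := (hR p).1 hpR
  have hpv' : p.1 = v := hpv
  rw [hpv'] at hp2
  set i := (n₁ v ++ exits vec y β v).length with hi
  have hq : (⟨v, i⟩ : Σ _ : Pt, ℕ) ∈ R := (hR _).2 ⟨le_rfl, lt_of_le_of_lt hp2.1 hp2.2⟩
  have hex : ∀ z, exits vec y (β ++ [a v i]) z =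
      exits vec y β z ++ if v = z then [a v i] else [] := by
    intro z
    rw [exits_append, exits_cons, exits_nil, List.append_nil]
  refine ih (R.erase ⟨v, i⟩).card (hk ▸ Finset.card_erase_lt_of_mem hq) (β ++ [a v i])
    (R.erase ⟨v, i⟩) rfl ?_ ?_ ?_ ?_
  · rintro ⟨z, j⟩
    rw [Finset.mem_erase, hR, hex]
    by_cases hz : v = z
    · subst hz
      have : (⟨v, j⟩ : Σ _ : Pt, ℕ) ≠ ⟨v, i⟩ ↔ j ≠ i := by simp
      rw [this, if_pos rfl, ← List.append_assoc, List.length_append (bs := [a v i]), ← hi]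
      simp only [List.length_singleton]
      omega
    · have : (⟨z, j⟩ : Σ _ : Pt, ℕ) ≠ ⟨v, i⟩ := fun e => hz (congrArg Sigma.fst e).symm
      simp [this, hz]
  · intro g
    have e := hP g
    rw [Phi, ← Finset.add_sum_erase _ _ hq] at e
    have e2 : y + disp vec (β ++ [a v i]) = v + vec (a v i) := by
      simp [hvd, add_assoc]
    rw [e2, Phi]
    simp only [src, tgt] at e ⊢
    linarith
  · intro z
    rw [hex]
    by_cases hz : v = z
    · subst hz
      rw [if_pos rfl, ← List.append_assoc]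
      exact mem_cyl_snoc.2 ⟨hc v, rfl⟩
    · rw [if_neg hz, List.append_nil]
      exact hc z
  · rw [pts_append, pts_cons, pts_nil]
    refine Finset.union_subset hp fun z hz => ?_
    have hz' : z = v := by simpa using hz
    by_contra h
    rw [hz'] at h
    rw [(exits_eq_nil_iff vec).2 h] at hp2
    simp at hp2

end Walk

end AbAux

open AbAux in
theorem s_ab : S_Ab := by
  classical
  intro M a x y γ δ hγ hδ hX hY hXY
  have hA := split src (tgt M.vec a) (Phi_arr M.vec a hγ) (Phi_arr M.vec a hδ)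
    (fun v => by
      rcases le_total (exits M.vec x γ v).length (exits M.vec y δ v).length with h | h
      · refine Or.inl ?_
        rintro p hp rfl
        exact (mem_arr M.vec).2 (((mem_arr M.vec).1 hp).trans_le h)
      · refine Or.inr ?_
        rintro p hp rfl
        exact (mem_arr M.vec).2 (((mem_arr M.vec).1 hp).trans_le h))
    hXY
    (fun p hp e => hX (by
      have := (Finset.mem_sigma.1 hp).1
      rwa [show p.1 = x + M.ds γ from e] at this))
    (fun p hp e => hY (by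
      have := (Finset.mem_sigma.1 hp).1
      rwa [show p.1 = y + M.ds δ from e] at this))
  obtain ⟨δ', h1, h2, h3⟩ := build M.vec a y (y + disp M.vec δ) (exits M.vec x γ) δ _ []
    (arr M.vec y δ \ arr M.vec x γ) rfl
    (fun p => by
      rw [Finset.mem_sdiff, mem_arr, mem_arr, exits_nil, List.append_nil, not_lt, and_comm])
    (fun g => by rw [hA g]; simp)
    (fun z => by rw [exits_nil, List.append_nil]; exact hγ z)
    (by simp)
  exact ⟨δ', add_left_cancel h1, h2, h3⟩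

end Pool.Agent.MP_db8016_pr.BZ

end

section

/-! The mass of the image of a spread out weight under the kernel of a window. -/

namespace Pool.Agent.MP_db8016_pr.BZ
open MeasureTheory ProbabilityTheory Filter
open scoped ENNReal NNReal

namespace MassAux

lemma shortest {α : Type} (Q : List α → Prop) : ∀ (n : ℕ) (l : List α), l.length = n → Q l →
    ∃ δ, δ <+: l ∧ Q δ ∧ ∀ a, a <+: δ → a ≠ δ → ¬ Q a := by
  intro n
  induction n using Nat.strong_induction_on with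
  | _ n ih =>
    intro l hl hQ
    by_cases h : ∀ a, a <+: l → a ≠ l → ¬ Q a
    · exact ⟨l, ⟨[], List.append_nil _⟩, hQ, h⟩
    · push Not at h
      obtain ⟨a, h1, h2, h3⟩ := h
      have hlt : a.length < n := by
        rw [← hl]
        exact lt_of_le_of_ne h1.length_le fun e => h2 (h1.eq_of_length e)
      obtain ⟨δ, d1, d2, d3⟩ := ih _ hlt a rfl h3
      exact ⟨δ, d1.trans h1, d2, d3⟩

lemma pointwise (y : ℝ≥0) (Y : ℝ≥0∞) :
    (y : ℝ≥0∞) ^ 2 + 8 * y * Y ≤ 2 * y * Y + (4 * Y ^ 2 + 4 * y ^ 2) ∧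
      8 * (y : ℝ≥0∞) * Y ≤ 4 * Y ^ 2 + 4 * y ^ 2 := by
  induction Y using ENNReal.recTopCoe with
  | top => simp
  | coe Y =>
    constructor
    · have : y ^ 2 + 8 * y * Y ≤ 2 * y * Y + (4 * Y ^ 2 + 4 * y ^ 2) := by
        rw [← NNReal.coe_le_coe]
        push_cast
        nlinarith [sq_nonneg (4 * (Y : ℝ) - 3 * y), sq_nonneg (y : ℝ)]
      exact_mod_cast this
    · have : 8 * y * Y ≤ 4 * Y ^ 2 + 4 * y ^ 2 := by
        rw [← NNReal.coe_le_coe]
        push_cast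
        nlinarith [sq_nonneg ((Y : ℝ) - y)]
      exact_mod_cast this

lemma cheb {Ω : Type} [MeasurableSpace Ω] (P : Measure Ω) [IsProbabilityMeasure P]
    {Y : Ω → ℝ≥0∞} (hY : Measurable Y) {B : Set Ω} (hB : MeasurableSet B) {y χ p β : ℝ≥0∞}
    (h1 : ∫⁻ a, Y a ∂P = y) (h2 : ∫⁻ a, Y a ^ 2 ∂P ≤ y * (y + χ)) (hy : y ≤ 1) (hp : p ≤ y)
    (hβ : β ≤ P B) (hχ : 8 * χ ≤ p * β) : p * β / 4 ≤ ∫⁻ a in B, Y a ∂P := by
  have hb1 : P B ≤ 1 := prob_le_one
  lift y to ℝ≥0 using ne_top_of_le_ne_top ENNReal.one_ne_top hy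
  have key : (y : ℝ≥0∞) ^ 2 * P B + 8 * y * y ≤
      2 * y * (∫⁻ a in B, Y a ∂P) + (4 * (y * (y + χ)) + 4 * y ^ 2) := by
    have hpt : ∀ a, B.indicator (fun _ => (y : ℝ≥0∞) ^ 2) a + 8 * y * Y a ≤
        B.indicator (fun a => 2 * y * Y a) a + (4 * Y a ^ 2 + 4 * y ^ 2) := fun a => by
      by_cases ha : a ∈ B
      · rw [Set.indicator_of_mem ha, Set.indicator_of_mem ha]
        exact (pointwise y (Y a)).1
      · rw [Set.indicator_of_notMem ha, Set.indicator_of_notMem ha, zero_add, zero_add]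
        exact (pointwise y (Y a)).2
    have hi := lintegral_mono (μ := P) hpt
    have hm : Measurable fun a => 4 * Y a ^ 2 + 4 * (y : ℝ≥0∞) ^ 2 :=
      ((hY.pow_const 2).const_mul _).add measurable_const
    rw [lintegral_add_right _ (hY.const_mul _), lintegral_add_right _ hm,
      lintegral_add_right _ measurable_const,
      lintegral_indicator hB, lintegral_indicator hB, lintegral_const_mul _ hY,
      lintegral_const_mul _ hY, lintegral_const_mul _ (hY.pow_const 2), setLIntegral_const,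
      lintegral_const, measure_univ, mul_one, h1] at hi
    exact hi.trans (by gcongr)
  generalize ∫⁻ a in B, Y a ∂P = I at key
  generalize P B = b at key hβ hb1
  induction I using ENNReal.recTopCoe with
  | top => exact le_top
  | coe I =>
    lift b to ℝ≥0 using ne_top_of_le_ne_top ENNReal.one_ne_top hb1
    lift p to ℝ≥0 using ne_top_of_le_ne_top ENNReal.coe_ne_top hp
    lift β to ℝ≥0 using ne_top_of_le_ne_top ENNReal.coe_ne_top hβ
    have hχ' : χ ≠ ⊤ := by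
      rintro rfl
      rw [ENNReal.mul_top (by norm_num), top_le_iff] at hχ
      exact ENNReal.mul_ne_top ENNReal.coe_ne_top ENNReal.coe_ne_top hχ
    lift χ to ℝ≥0 using hχ'
    rw [ENNReal.div_le_iff (by norm_num) (by norm_num)]
    have k1 : (y : ℝ) ^ 2 * b + 8 * y * y ≤ 2 * y * I + (4 * (y * (y + χ)) + 4 * y ^ 2) := by
      exact_mod_cast key
    have k2 : (p : ℝ) ≤ y := by exact_mod_cast hp
    have k3 : (β : ℝ) ≤ b := by exact_mod_cast hβ
    have k4 : 8 * (χ : ℝ) ≤ p * β := by exact_mod_cast hχ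
    have goal : (p : ℝ) * β ≤ I * 4 := by
      have p0 := p.coe_nonneg
      have b0 := β.coe_nonneg
      have i0 := I.coe_nonneg
      rcases y.coe_nonneg.eq_or_lt with h0 | h0
      · have : (p : ℝ) = 0 := by linarith
        rw [this]
        linarith
      · have k5 : (y : ℝ) * (y * b) ≤ y * (2 * I + 4 * χ) := by nlinarith
        have k6 := le_of_mul_le_mul_left k5 h0
        have k7 : (p : ℝ) * β ≤ y * b := mul_le_mul k2 k3 b0 h0.le
        linarith
    exact_mod_cast goal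

variable (M : Mod)

lemma shift (γ : List M.D) (f : M.Pt → ℝ≥0∞) : ∑' x, f (-(x + M.ds γ)) = ∑' z, f z :=
  ((Equiv.addRight (M.ds γ)).trans (Equiv.neg M.Pt)).tsum_eq f

open Classical in
lemma meas_term (G : Set (List M.D)) (s : M.Pt → ℝ≥0∞) (T : Set M.Pt) (x : M.Pt)
    (γ : List M.D) : Measurable fun a : M.Pt → ℕ → M.D => if x ∈ T ∧ γ ∈ G then
      s (-(x + M.ds γ)) * (M.F x γ).indicator 1 a else 0 := by
  split_ifs
  · exact (measurable_one.indicator (M.measurableSet_F x γ)).const_mul _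
  · exact measurable_const

lemma meas_Yf (G : Set (List M.D)) (s : M.Pt → ℝ≥0∞) (T : Set M.Pt) : Measurable (M.Yf G s T) :=
  Measurable.tsum fun x => Measurable.tsum fun γ => meas_term M G s T x γ

open Classical in
lemma int_Yf (G : Set (List M.D)) (s : M.Pt → ℝ≥0∞) (T : Set M.Pt)
    (μ : Measure (M.Pt → ℕ → M.D)) : ∫⁻ a, M.Yf G s T a ∂μ =
      ∑' x, ∑' γ, if x ∈ T ∧ γ ∈ G then s (-(x + M.ds γ)) * μ (M.F x γ) else 0 := by
  unfold Mod.Yf
  rw [lintegral_tsum fun x => (Measurable.tsum fun γ => meas_term M G s T x γ).aemeasurable]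
  refine tsum_congr fun x => ?_
  rw [lintegral_tsum fun γ => (meas_term M G s T x γ).aemeasurable]
  refine tsum_congr fun γ => ?_
  by_cases h : x ∈ T ∧ γ ∈ G
  · simp only [h, and_self, if_true]
    rw [lintegral_const_mul _ (measurable_one.indicator (M.measurableSet_F x γ)),
      lintegral_indicator_one (M.measurableSet_F x γ)]
  · simp [h]

lemma yb_eq (G : Set (List M.D)) {s : M.Pt → ℝ≥0∞} (hs : ∑' z, s z = 1) :
    M.yb G s Set.univ = M.sm G := by
  unfold Mod.yb Mod.sm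
  rw [ENNReal.tsum_comm]
  refine tsum_congr fun γ => ?_
  by_cases h : γ ∈ G
  · simp only [Set.mem_univ, h, and_self, if_true, Set.indicator_of_mem]
    rw [ENNReal.tsum_mul_right, shift M γ s, hs, one_mul]
  · simp [h]

lemma int_yb (G : Set (List M.D)) (s : M.Pt → ℝ≥0∞) (T : Set M.Pt) :
    ∫⁻ a, M.Yf G s T a ∂M.P = M.yb G s T := by
  rw [int_Yf]
  unfold Mod.yb
  simp only [M.P_F]

lemma tot_le (G : Set (List M.D)) (z : M.Pt) : M.Tot G z ≤ ∑' z', M.Qk G z z' := by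
  unfold Mod.Tot Mod.Qk
  rw [ENNReal.tsum_comm (f := fun z' γ => ∑' δ, _)]
  refine ENNReal.tsum_le_tsum fun γ => ?_
  rw [ENNReal.tsum_comm (f := fun z' δ => _)]
  refine ENNReal.tsum_le_tsum fun δ => ?_
  refine le_trans (le_of_eq ?_) (ENNReal.le_tsum (M.ds γ + z + M.ds δ))
  by_cases h : γ ∈ G ∧ M.Dn (M.ds γ + z) δ (M.lv γ)
  · rw [if_pos h, if_pos ⟨h.1, h.2, rfl⟩]
  · rw [if_neg h, if_neg fun h' => h ⟨h'.1, h'.2.1⟩]

open Classical in
/-- The second walker leaves the band of the first one. -/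
lemma cover {w : ℝ} (hw : 1 ≤ w) {γ : List M.D} (hγ : M.Cross w γ) {x : M.Pt}
    (hx : M.L (-(x + M.ds γ)) < 0) :
    M.P (M.F x γ ∩ ⋃ δ ∈ {δ | M.neg.Cross (w + 2) δ}, M.F 0 δ) ≤
      ∑' δ, if M.Dn (-x) δ (M.lv γ) then M.P (M.F 0 γ ∩ M.F (-x) δ) else 0 := by
  have h1 := hγ.lv_lt (by linarith)
  have h2 : 0 < M.L x + M.lv γ := by
    rw [map_neg, map_add] at hx
    unfold Mod.lv
    linarith
  have hsub : (M.F x γ ∩ ⋃ δ ∈ {δ | M.neg.Cross (w + 2) δ}, M.F 0 δ) ⊆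
      ⋃ δ, if M.Dn (-x) δ (M.lv γ) then M.F x γ ∩ M.F 0 δ else ∅ := by
    rintro a ⟨ha, hb⟩
    obtain ⟨δ₀, h0, hb⟩ := Set.mem_iUnion₂.1 hb
    have h3 : w + 2 ≤ -M.lv δ₀ := h0.2.1
    obtain ⟨δ, d1, d2, d3⟩ := shortest (fun δ => M.lv δ < M.L x) _ δ₀ rfl (by linarith)
    have e : ∀ α, M.L (-x + M.ds α) = -M.L x + M.lv α := fun α => by
      rw [map_add, map_neg]
      rfl
    have hD : M.Dn (-x) δ (M.lv γ) := by
      refine ⟨fun α a1 a2 => ?_, by rw [e]; linarith⟩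
      have h4 := not_lt.1 (d3 α a1 a2)
      have h5 : 0 ≤ -M.lv α := h0.1 α (a1.trans d1)
      rw [e]
      constructor <;> linarith
    refine Set.mem_iUnion.2 ⟨δ, ?_⟩
    rw [if_pos hD]
    obtain ⟨τ, rfl⟩ := d1
    exact ⟨ha, Fol_append_subset _ _ _ _ hb⟩
  refine (measure_mono hsub).trans ((measure_iUnion_le _).trans
    (ENNReal.tsum_le_tsum fun δ => ?_))
  split_ifs
  · have := arrows_shift M.vec M.ν 0 (-x) x γ δ
    rw [zero_add, neg_add_cancel] at this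
    exact this.le
  · simp

end MassAux

open MassAux in
theorem s_mass : S_Mass := by
  classical
  intro M G s w χ p β hw hG hs hs1 hM hp hβ hχ
  have hB : MeasurableSet (⋃ δ ∈ {δ | M.neg.Cross (w + 2) δ}, M.F 0 δ) :=
    MeasurableSet.biUnion (Set.to_countable _) fun δ _ => M.measurableSet_F 0 δ
  have hPB : β ≤ M.P (⋃ δ ∈ {δ | M.neg.Cross (w + 2) δ}, M.F 0 δ) :=
    hβ.trans (Mod.P_iUnion (M := M.neg) (M.neg.pf_cross (w + 2)) 0).ge
  have h2 := hM Set.univ 2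
  rw [Finset.prod_range_succ, Finset.prod_range_one, Nat.cast_zero, zero_mul, add_zero,
    Nat.cast_one, one_mul] at h2
  have hy : M.yb G s Set.univ ≤ 1 := by
    rw [yb_eq M G hs1]
    exact Mod.sm_le_one ((M.pf_cross w).mono hG)
  refine (cheb M.P (meas_Yf M G s _) hB (int_yb M G s _) h2 hy (by rwa [yb_eq M G hs1]) hPB hχ).trans ?_
  rw [int_Yf, ENNReal.tsum_comm, ENNReal.tsum_comm (f := fun z' z => s z * M.Qk G z z')]
  have h3 : ∀ z, s z * M.Tot G z ≤ ∑' z', s z * M.Qk G z z' := fun z => by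
    rw [ENNReal.tsum_mul_left]
    exact mul_le_mul_right (tot_le M G z) (s z)
  refine le_trans ?_ (ENNReal.tsum_le_tsum h3)
  unfold Mod.Tot
  simp only [← ENNReal.tsum_mul_left]
  rw [ENNReal.tsum_comm (f := fun z γ => ∑' δ, _)]
  refine ENNReal.tsum_le_tsum fun γ => ?_
  refine le_trans (ENNReal.tsum_le_tsum fun x => ?_) (shift M γ _).le
  by_cases hγ : γ ∈ G
  · rw [if_pos ⟨Set.mem_univ _, hγ⟩, ENNReal.tsum_mul_left]
    by_cases h0 : s (-(x + M.ds γ)) = 0
    · rw [h0, zero_mul, zero_mul]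
    · have e : M.ds γ + -(x + M.ds γ) = -x := by abel
      rw [Measure.restrict_apply (M.measurableSet_F x γ), e]
      refine mul_le_mul_right ((cover M hw (hG γ hγ) (hs _ h0).2).trans (le_of_eq ?_)) _
      simp only [hγ, true_and]
  · simp [hγ]

end Pool.Agent.MP_db8016_pr.BZ

end

section

/-! Anti-concentration of a random walk with `d` independent directions. -/

namespace Pool.Agent.MP_db8016_pr.BZ
open scoped ENNReal

namespace RWAux

variable {Pt : Type} [AddCommGroup Pt]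

lemma op_mono (q : Pt → ℝ≥0∞) {F G : Pt → ℝ≥0∞} (h : ∀ y, F y ≤ G y) (x : Pt) :
    op q F x ≤ op q G x :=
  ENNReal.tsum_le_tsum fun _ => mul_le_mul_right (h _) _

lemma op_le {q : Pt → ℝ≥0∞} (hq : ∑' v, q v ≤ 1) {F : Pt → ℝ≥0∞} {K : ℝ≥0∞}
    (h : ∀ y, F y ≤ K) (x : Pt) : op q F x ≤ K := by
  refine (op_mono q h x).trans ?_
  unfold op
  rw [ENNReal.tsum_mul_right]
  exact (mul_le_mul_left hq K).trans (one_mul K).le

lemma op_add {q : Pt → ℝ≥0∞} (hq : ∑' v, q v ≤ 1) {F G : Pt → ℝ≥0∞} {c : ℝ≥0∞}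
    (h : ∀ y, F y ≤ c + G y) (x : Pt) : op q F x ≤ c + op q G x := by
  refine (op_mono q h x).trans ?_
  have h1 : op q (fun _ => c) x ≤ c := op_le hq (fun _ => le_rfl) x
  refine le_trans (le_of_eq ?_) (add_le_add_left h1 _)
  unfold op
  rw [← ENNReal.tsum_add]
  exact tsum_congr fun v => mul_add _ _ _

lemma it_le {q : Pt → ℝ≥0∞} (hq : ∑' v, q v ≤ 1) (n : ℕ) {F : Pt → ℝ≥0∞} {K : ℝ≥0∞}
    (h : ∀ y, F y ≤ K) (x : Pt) : (op q)^[n] F x ≤ K := by
  induction n generalizing x with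
  | zero => exact h x
  | succ n ih =>
    rw [Function.iterate_succ_apply']
    exact op_le hq ih x

lemma it_add {q : Pt → ℝ≥0∞} (hq : ∑' v, q v ≤ 1) (n : ℕ) {F G : Pt → ℝ≥0∞} {c : ℝ≥0∞}
    (h : ∀ y, F y ≤ c + G y) (x : Pt) : (op q)^[n] F x ≤ c + (op q)^[n] G x := by
  induction n generalizing x with
  | zero => exact h x
  | succ n ih =>
    rw [Function.iterate_succ_apply', Function.iterate_succ_apply']
    exact op_add hq ih x

/-- A sum over a box. -/
noncomputable def box {d : ℕ} (c : Fin d → ℝ≥0∞) (R : Fin d → ℕ) (h : Fin d → Pt)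
    (F : Pt → ℝ≥0∞) (y : Pt) : ℝ≥0∞ :=
  (∏ j, c j) * ∑ s ∈ Fintype.piFinset fun j => Finset.range (R j), F (y + ∑ j, s j • h j)

lemma box_mono {d : ℕ} (c : Fin d → ℝ≥0∞) (R : Fin d → ℕ) (h : Fin d → Pt)
    {F G : Pt → ℝ≥0∞} (e : ∀ y, F y ≤ G y) (y : Pt) : box c R h F y ≤ box c R h G y :=
  mul_le_mul_right (Finset.sum_le_sum fun _ _ => e _) _

lemma box_op {d : ℕ} (c : Fin d → ℝ≥0∞) (R : Fin d → ℕ) (h : Fin d → Pt)
    (ρ F : Pt → ℝ≥0∞) (y : Pt) : box c R h (op ρ F) y = op ρ (box c R h F) y := by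
  unfold box op
  rw [← Summable.tsum_finsetSum fun _ _ => ENNReal.summable, ← ENNReal.tsum_mul_left]
  refine tsum_congr fun v => ?_
  rw [mul_left_comm, ← Finset.mul_sum]
  refine congrArg _ (congrArg _ (Finset.sum_congr rfl fun s _ => ?_))
  rw [add_right_comm]

lemma box_succ {d : ℕ} (c : Fin (d + 1) → ℝ≥0∞) (R : Fin (d + 1) → ℕ) (h : Fin (d + 1) → Pt)
    (F : Pt → ℝ≥0∞) (y : Pt) :
    box (fun j => c j.succ) (fun j => R j.succ) (fun j => h j.succ) (seg (c 0) (R 0) (h 0) F) y =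
      box c R h F y := by
  unfold box seg
  rw [Fin.prod_univ_succ, ← Finset.mul_sum, ← mul_assoc, mul_comm _ (c 0),
    ← Finset.sum_product']
  refine congrArg _ ?_
  refine Finset.sum_nbij' (fun a => Fin.cons a.2 a.1) (fun s => (Fin.tail s, s 0)) ?_ ?_ ?_ ?_ ?_
  · intro a ha
    rw [Finset.mem_product, Fintype.mem_piFinset] at ha
    rw [Fintype.mem_piFinset]
    intro j
    refine Fin.cases ?_ (fun i => ?_) j
    · exact ha.2
    · exact ha.1 i
  · intro s hs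
    rw [Fintype.mem_piFinset] at hs
    rw [Finset.mem_product, Fintype.mem_piFinset]
    exact ⟨fun i => hs i.succ, hs 0⟩
  · intro a _
    rfl
  · intro s _
    exact Fin.cons_self_tail s
  · intro a _
    rw [Fin.sum_univ_succ]
    refine congrArg F ?_
    simp only [Fin.cons_zero, Fin.cons_succ]
    abel

lemma blocks {q : Pt → ℝ≥0∞} (hq : ∑' v, q v ≤ 1) (m : ℕ) (η : ℝ≥0∞) (d : ℕ) :
    ∀ (c : Fin d → ℝ≥0∞) (R : Fin d → ℕ) (h : Fin d → Pt) (ρ : Fin d → Pt → ℝ≥0∞),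
      (∀ j, ∑' v, ρ j v ≤ 1) →
      (∀ j, ∀ F : Pt → ℝ≥0∞, (∀ x, F x ≤ 1) → ∀ x,
        (op q)^[m] F x ≤ η + op (ρ j) (seg (c j) (R j) (h j) F) x) →
      ∀ (Ψ : Pt → ℝ≥0∞) (K : ℝ≥0∞), (∀ x, Ψ x ≤ 1) → (∀ y, box c R h Ψ y ≤ K) →
        ∀ x, (op q)^[d * m] Ψ x ≤ d * η + K := by
  induction d with
  | zero =>
    intro c R h ρ _ _ Ψ K _ hK x
    have := hK x
    simpa [box] using this
  | succ d ih =>
    intro c R h ρ hρ hb Ψ K hΨ hK x
    rw [Nat.succ_mul, Function.iterate_add_apply]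
    have h1 : ∀ y, (op q)^[m] Ψ y ≤ η + min 1 (op (ρ 0) (seg (c 0) (R 0) (h 0) Ψ) y) := by
      intro y
      rw [← min_add_add_left]
      exact le_min ((it_le hq m hΨ y).trans le_add_self) (hb 0 Ψ hΨ y)
    refine (it_add hq _ h1 x).trans ?_
    have h2 := ih (fun j => c j.succ) (fun j => R j.succ) (fun j => h j.succ) (fun j => ρ j.succ)
      (fun j => hρ j.succ) (fun j => hb j.succ)
      (fun y => min 1 (op (ρ 0) (seg (c 0) (R 0) (h 0) Ψ) y)) K (fun y => min_le_left _ _)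
      (fun y => by
        refine (box_mono _ _ _ (fun y => min_le_right _ _) y).trans ?_
        rw [box_op]
        refine op_le (hρ 0) (fun z => ?_) y
        rw [box_succ]
        exact hK z) x
    refine (add_le_add_right h2 _).trans (le_of_eq ?_)
    push_cast
    ring

lemma cover (L : Pt →+ ℝ) {Ψ : Pt → ℝ≥0∞} {B : ℝ≥0∞}
    (hB : ∀ t : ℝ, ∑' v, {v | t ≤ L v ∧ L v < t + 1}.indicator Ψ v ≤ B) (t : ℝ) (k : ℕ) :
    ∑' v, {v | t ≤ L v ∧ L v < t + k}.indicator Ψ v ≤ k * B := by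
  induction k with
  | zero =>
    have : ∀ v, {v | t ≤ L v ∧ L v < t + (0 : ℕ)}.indicator Ψ v = 0 := fun v =>
      Set.indicator_of_notMem (fun hv => by
        have h1 := hv.1
        have h2 := hv.2
        simp only [Nat.cast_zero, add_zero] at h2
        linarith) _
    simp only [this, tsum_zero]
    exact zero_le
  | succ k ih =>
    rw [Nat.cast_succ (R := ℝ≥0∞), add_mul, one_mul]
    refine le_trans ?_ (add_le_add ih (hB (t + k)))
    rw [← ENNReal.tsum_add]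
    refine ENNReal.tsum_le_tsum fun v => ?_
    by_cases hv : v ∈ {v | t ≤ L v ∧ L v < t + ((k + 1 : ℕ) : ℝ)}
    · rw [Set.indicator_of_mem hv]
      by_cases h1 : L v < t + k
      · have : v ∈ {v | t ≤ L v ∧ L v < t + k} := ⟨hv.1, h1⟩
        rw [Set.indicator_of_mem this]
        exact le_self_add
      · have : v ∈ {v | t + k ≤ L v ∧ L v < t + k + 1} := by
          refine ⟨not_lt.1 h1, ?_⟩
          have h2 := hv.2
          push_cast at h2
          linarith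
        rw [Set.indicator_of_mem this]
        exact le_add_self
    · rw [Set.indicator_of_notMem hv]
      exact zero_le

lemma box_le (L : Pt →+ ℝ) {d : ℕ} (c : Fin d → ℝ≥0∞) (R : Fin d → ℕ) {h : Fin d → Pt}
    (hi : Function.Injective (fun s : Fin d → ℤ => ∑ j, s j • h j)) (hL : ∀ j, |L (h j)| ≤ 1)
    {Ψ : Pt → ℝ≥0∞} {B : ℝ≥0∞}
    (hB : ∀ t : ℝ, ∑' v, {v | t ≤ L v ∧ L v < t + 1}.indicator Ψ v ≤ B) (y : Pt) :
    box c R h Ψ y ≤ (∏ j, c j) * ((2 * ∑ j, R j + 1 : ℕ) * B) := by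
  classical
  refine mul_le_mul_right (le_trans ?_ (cover L hB (L y - (∑ j, R j : ℕ)) _)) _
  have inj : Function.Injective fun s : Fin d → ℕ => y + ∑ j, s j • h j := by
    intro s s' e
    have e1 : ∑ j, s j • h j = ∑ j, s' j • h j := add_left_cancel e
    have e2 := @hi (fun j => (s j : ℤ)) (fun j => (s' j : ℤ)) (by simpa using e1)
    funext j
    exact_mod_cast congrFun e2 j
  rw [← Finset.sum_image (g := fun s : Fin d → ℕ => y + ∑ j, s j • h j) (f := Ψ)
    fun _ _ _ _ e => inj e]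
  refine le_trans (le_of_eq (Finset.sum_congr rfl fun v hv => ?_)) (ENNReal.sum_le_tsum _)
  refine (Set.indicator_of_mem ?_ _).symm
  obtain ⟨s, hs, rfl⟩ := Finset.mem_image.1 hv
  rw [Fintype.mem_piFinset] at hs
  have h1 : |L (∑ j, s j • h j)| ≤ (∑ j, R j : ℕ) := by
    rw [map_sum, Nat.cast_sum]
    refine (Finset.abs_sum_le_sum_abs _ _).trans (Finset.sum_le_sum fun j _ => ?_)
    rw [map_nsmul, nsmul_eq_mul, abs_mul, Nat.abs_cast]
    have h2 : (s j : ℝ) ≤ R j := by exact_mod_cast (Finset.mem_range.1 (hs j)).le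
    have h3 : (0 : ℝ) ≤ s j := Nat.cast_nonneg _
    nlinarith [hL j]
  have h4 := abs_le.1 h1
  simp only [Set.mem_ofPred_eq, map_add]
  rw [Nat.cast_add, Nat.cast_mul]
  constructor
  · linarith [h4.1]
  · push_cast at h4 ⊢
    linarith [h4.2]

lemma numer {d m n : ℕ} (hd : 1 ≤ d) (hm : 1 ≤ m) (hn : n ≤ 2 * d * m) (hn0 : 0 < n)
    (C : Fin d → ℝ) (hC : ∀ j, 0 < C j) (R : Fin d → ℕ) (hR : ∀ j, (R j : ℝ) ≤ C j * √m) :
    (∏ j, C j / √m) * ((2 * ∑ j, R j + 1 : ℕ) : ℝ) ≤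
      (∏ j, C j) * (2 * ∑ j, C j + 1) * (2 * d : ℝ) ^ (((d : ℝ) - 1) / 2) *
        (n : ℝ) ^ (-((d : ℝ) - 1) / 2) := by
  have hm1 : (1 : ℝ) ≤ m := by exact_mod_cast hm
  have hm0 : (0 : ℝ) < m := by linarith
  have hd1 : (1 : ℝ) ≤ d := by exact_mod_cast hd
  have hn1 : (0 : ℝ) < n := by exact_mod_cast hn0
  have hs1 : (1 : ℝ) ≤ √m := Real.one_le_sqrt.2 hm1
  have hP : 0 ≤ ∏ j, C j := Finset.prod_nonneg fun j _ => (hC j).le
  have hS : 0 ≤ ∑ j, C j := Finset.sum_nonneg fun j _ => (hC j).le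
  have h1 : ((2 * ∑ j, R j + 1 : ℕ) : ℝ) ≤ (2 * ∑ j, C j + 1) * √m := by
    have h2 : ∑ j, (R j : ℝ) ≤ (∑ j, C j) * √m := by
      rw [Finset.sum_mul]
      exact Finset.sum_le_sum fun j _ => hR j
    push_cast
    linarith
  have h3 : √(m : ℝ) / √m ^ d = (m : ℝ) ^ (-((d : ℝ) - 1) / 2) := by
    rw [Real.sqrt_eq_rpow, ← Real.rpow_natCast, ← Real.rpow_mul hm0.le, ← Real.rpow_sub hm0]
    congr 1
    ring
  have he : 0 ≤ ((d : ℝ) - 1) / 2 := by linarith
  have h4 : (m : ℝ) ^ (-((d : ℝ) - 1) / 2) ≤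
      (2 * d : ℝ) ^ (((d : ℝ) - 1) / 2) * (n : ℝ) ^ (-((d : ℝ) - 1) / 2) := by
    have h5 : (n : ℝ) ^ (((d : ℝ) - 1) / 2) ≤
        (2 * d : ℝ) ^ (((d : ℝ) - 1) / 2) * (m : ℝ) ^ (((d : ℝ) - 1) / 2) := by
      rw [← Real.mul_rpow (by linarith) hm0.le]
      exact Real.rpow_le_rpow hn1.le (by exact_mod_cast hn) he
    rw [neg_div, Real.rpow_neg hm0.le, Real.rpow_neg hn1.le, ← div_eq_mul_inv,
      le_div_iff₀ (Real.rpow_pos_of_pos hn1 _), inv_mul_le_iff₀ (Real.rpow_pos_of_pos hm0 _),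
      mul_comm]
    exact h5
  rw [Finset.prod_div_distrib, Finset.prod_const, Finset.card_univ, Fintype.card_fin]
  calc (∏ j, C j) / √m ^ d * ((2 * ∑ j, R j + 1 : ℕ) : ℝ)
      ≤ (∏ j, C j) / √m ^ d * ((2 * ∑ j, C j + 1) * √m) :=
        mul_le_mul_of_nonneg_left h1 (by positivity)
    _ = (∏ j, C j) * (2 * ∑ j, C j + 1) * (√m / √m ^ d) := by ring
    _ ≤ _ := by
        rw [h3, mul_assoc ((∏ j, C j) * (2 * ∑ j, C j + 1))]
        exact mul_le_mul_of_nonneg_left h4 (by positivity)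

end RWAux

open RWAux in
theorem s_rw (hB : S_Blk) : S_RW := by
  intro Pt _ L d q ε g h hd hε hq hg hgh hi hL η hη
  have h0 : ∀ j, h j ≠ 0 := by
    intro j e
    have e1 := @hi (Pi.single j 1) 0 (by
      simp only [Pi.zero_apply, zero_smul, Finset.sum_const_zero]
      refine Finset.sum_eq_zero fun i _ => ?_
      by_cases hij : i = j
      · rw [hij, e, smul_zero]
      · rw [Pi.single_eq_of_ne hij, zero_smul])
    have e2 := congrFun e1 j
    simp at e2
  have hη' : η / d ≠ 0 := ENNReal.div_ne_zero.2 ⟨hη, ENNReal.natCast_ne_top d⟩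
  choose C m₀ hC hm using fun j => hB Pt q ε (η / d) g (h j) hε hη' (h0 j) hq hg (hgh j)
  have hP : 0 ≤ ∏ j, C j := Finset.prod_nonneg fun j _ => (hC j).le
  have hS : 0 ≤ ∑ j, C j := Finset.sum_nonneg fun j _ => (hC j).le
  refine ⟨(∏ j, C j) * (2 * ∑ j, C j + 1) * (2 * d : ℝ) ^ (((d : ℝ) - 1) / 2),
    d * (∑ j, m₀ j + 1), by positivity, fun n hn Ψ B hΨ hΨB => ?_⟩
  have hm1 : ∑ j, m₀ j + 1 ≤ n / d := (Nat.le_div_iff_mul_le hd).2 (by rwa [mul_comm])
  have hm2 : ∀ j, m₀ j ≤ n / d := fun j =>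
    (Finset.single_le_sum (fun _ _ => Nat.zero_le _) (Finset.mem_univ j)).trans
      ((Nat.le_succ _).trans hm1)
  have hm3 : 1 ≤ n / d := le_add_self.trans hm1
  choose ρ R hρ hR hb using fun j => hm j (n / d) (hm2 j)
  have e : n = n % d + d * (n / d) := (Nat.mod_add_div n d).symm
  have hlt : n % d < d := Nat.mod_lt _ hd
  have hle : d ≤ d * (n / d) := Nat.le_mul_of_pos_right _ hm3
  have hn2 : n ≤ 2 * d * (n / d) := by
    rw [mul_assoc]
    omega
  have key := blocks hq (n / d) (η / d) d _ R h ρ hρ hb Ψ _ hΨ (box_le L _ R hi hL hΨB)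
  have h1 : (op q)^[n] Ψ 0 = (op q)^[n % d] ((op q)^[d * (n / d)] Ψ) 0 := by
    rw [← Function.iterate_add_apply, ← e]
  rw [h1]
  refine (it_le hq _ key 0).trans (add_le_add ENNReal.mul_div_le ?_)
  rw [← mul_assoc]
  refine mul_le_mul_left ?_ _
  rw [← ENNReal.ofReal_prod_of_nonneg fun j _ => div_nonneg (hC j).le (Real.sqrt_nonneg _),
    ← ENNReal.ofReal_natCast, ← ENNReal.ofReal_mul
      (Finset.prod_nonneg fun j _ => div_nonneg (hC j).le (Real.sqrt_nonneg _))]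
  exact ENNReal.ofReal_le_ofReal (numer hd hm3 hn2 (by omega) C hC R hR)

end Pool.Agent.MP_db8016_pr.BZ

end

section

/-! The window lemma. -/

namespace Pool.Agent.MP_db8016_pr.BZ
open MeasureTheory ProbabilityTheory Filter Topology
open scoped ENNReal

namespace WLAux

lemma ev_le {f : ℕ → ℝ} (hf : Tendsto f atTop (𝓝 0)) {a : ℝ≥0∞} (ha : a ≠ 0) :
    ∀ᶠ w in atTop, ENNReal.ofReal (f w) ≤ a := by
  have h := ENNReal.tendsto_ofReal hf
  rw [ENNReal.ofReal_zero] at h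
  exact h.eventually (Iic_mem_nhds (pos_iff_ne_zero.2 ha))

lemma tend_pow (C : ℝ) {s : ℝ} (hs : 0 < s) :
    Tendsto (fun w : ℕ => C * (w : ℝ) ^ (-s)) atTop (𝓝 0) := by
  have := ((tendsto_rpow_neg_atTop hs).comp tendsto_natCast_atTop_atTop).const_mul C
  simpa using this

lemma tend_exp {ρ s : ℝ} (hs : 0 < s) :
    Tendsto (fun w : ℕ => 2 * ((w : ℝ) ^ ρ * Real.exp (-Real.log 2 * (w : ℝ) ^ s))) atTop
      (𝓝 0) := by
  have h1 := (tendsto_rpow_mul_exp_neg_mul_atTop_nhds_zero (ρ / s) (Real.log 2)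
    (Real.log_pos one_lt_two)).comp
    ((tendsto_rpow_atTop hs).comp tendsto_natCast_atTop_atTop)
  have h2 := h1.const_mul 2
  rw [mul_zero] at h2
  refine h2.congr fun w => ?_
  simp only [Function.comp]
  rw [← Real.rpow_mul (Nat.cast_nonneg w), mul_div_cancel₀ _ hs.ne']

lemma ceil_le {x : ℝ} (hx : 1 ≤ x) : (⌈x⌉₊ : ℝ) ≤ 2 * x := by
  linarith [Nat.ceil_lt_add_one (zero_le_one.trans hx)]

end WLAux

open WLAux in
theorem s_wl (hT : S_Thin) (hG : S_Good) (hM : S_Mom) (hMa : S_Mass) (hR : S_Row) (hS : S_Set)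
    (hTr : S_Trim) : S_WL := by
  intro M d φ N b p β hφ hN hb hbd hcap hp0 hp hβ0 hβ hAC
  have hp1 : p ≤ 1 := (hp 0).trans (Mod.sm_le_one ((M.pf_cross 0).mono fun _ h => h.1))
  have hβ1 : β ≤ 1 := (hβ 0).trans (Mod.sm_le_one (M.neg.pf_cross 0))
  have hpt : p ≠ ⊤ := ne_top_of_le_ne_top ENNReal.one_ne_top hp1
  have hβt : β ≠ ⊤ := ne_top_of_le_ne_top ENNReal.one_ne_top hβ1
  have hκt : M.κ ≠ ⊤ := ne_top_of_le_ne_top ENNReal.one_ne_top M.κ_le_one
  obtain ⟨r, hr, rfl⟩ : ∃ r : ℝ, 0 < r ∧ p = ENNReal.ofReal r :=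
    ⟨p.toReal, ENNReal.toReal_pos hp0 hpt, (ENNReal.ofReal_toReal hpt).symm⟩
  set p := ENNReal.ofReal r with hpr
  set σ : ℝ := ((d : ℝ) - 1) / 2 with hσ
  set ρ : ℝ := (2 * b - 1 + σ) / 2 with hρ
  set s₀ : ℝ := (ρ - (2 * b - 1)) / 2 with hs₀
  have hρ0 : 0 < ρ := by rw [hρ]; linarith
  have hs0 : 0 < s₀ := by rw [hs₀, hρ]; linarith
  have hρσ : 0 < σ - ρ := by rw [hρ]; linarith
  have hσ0 : 0 < σ := by linarith
  set c : ℝ≥0∞ := p ^ 2 / 2 * β / 8 with hc
  have hc0 : c ≠ 0 := by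
    rw [hc]
    exact ENNReal.div_ne_zero.2 ⟨mul_ne_zero (ENNReal.div_ne_zero.2 ⟨pow_ne_zero _ hp0, by simp⟩)
      hβ0, by simp⟩
  have hct : c ≠ ⊤ := by
    rw [hc]
    exact ENNReal.div_ne_top (ENNReal.mul_ne_top (ENNReal.div_ne_top (ENNReal.pow_ne_top hpt)
      (by simp)) hβt) (by simp)
  set t : ℝ≥0∞ := c * M.κ / 8 with ht
  have ht0 : t ≠ 0 := ENNReal.div_ne_zero.2 ⟨mul_ne_zero hc0 M.hκ, by simp⟩
  have htt : t ≠ ⊤ := ENNReal.div_ne_top (ENNReal.mul_ne_top hct hκt) (by simp)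
  have ht8 : t / 8 ≠ 0 := ENNReal.div_ne_zero.2 ⟨ht0, by simp⟩
  have hc2 : c / 2 ≠ 0 := ENNReal.div_ne_zero.2 ⟨hc0, by simp⟩
  let nn : ℕ → ℕ := fun w => ⌊r ^ 2 * ((w : ℝ) - 1) / 2⌋₊
  let G : ℕ → Set (List M.D) := fun w =>
    {γ | M.Cross w γ ∧ M.HH φ (N + N) γ ∧ M.Cuts (nn w) γ}
  refine ⟨ρ, c, G, hρ0, hc0, fun w γ h => h.1, fun A => ?_⟩
  obtain ⟨C, n₀, hC⟩ := hAC (t / 8) ht8
  obtain ⟨C₁, hC₁⟩ := hcap (N + N)
  obtain ⟨C₂, hC₂⟩ := hcap (N + (N + N))
  have e1 := ev_le (tend_pow (|C| * (r ^ 2 / 8) ^ (-σ) * 2) hρσ) ht8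
  have e2 := ev_le (tend_pow (2 * (|C₁| * (|A| * (3 * (|C₂| + 1) / r)))) hs0)
    (a := min (t / 8) c) (by simp [hc0, ht0])
  have e3 := ev_le (tend_exp (ρ := ρ) hs0) hc2
  have e4 : ∀ᶠ w : ℕ in atTop, max (8 / r ^ 2) (8 * n₀ / r ^ 2) ≤ (w : ℝ) :=
    tendsto_natCast_atTop_atTop.eventually_ge_atTop _
  obtain ⟨w₀, hw₀⟩ := eventually_atTop.1 (e1.and (e2.and (e3.and (e4.and
    (eventually_ge_atTop 2)))))
  refine ⟨w₀, fun w hw s hs hs1 hsup => ?_⟩
  obtain ⟨f1, f2, f3, f4, f5⟩ := hw₀ w hw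
  have hw2 : (2 : ℝ) ≤ w := by exact_mod_cast f5
  have hw1 : (1 : ℝ) ≤ w := by linarith
  have hw0 : (0 : ℝ) < w := by linarith
  have hr2 : 0 < r ^ 2 := by positivity
  have hn1 : r ^ 2 / 8 * w ≤ nn w := by
    have h1 := Nat.lt_floor_add_one (r ^ 2 * ((w : ℝ) - 1) / 2)
    have h2 := (div_le_iff₀ hr2).1 ((le_max_left _ _).trans f4)
    change _ ≤ ((⌊r ^ 2 * ((w : ℝ) - 1) / 2⌋₊ : ℕ) : ℝ)
    nlinarith
  have hn0 : n₀ ≤ nn w := by
    have h2 := (div_le_iff₀ hr2).1 ((le_max_right _ _).trans f4)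
    have : (n₀ : ℝ) ≤ nn w := by nlinarith
    exact_mod_cast this
  have hcr : ∀ γ ∈ G w, M.Cross w γ := fun γ h => h.1
  -- the good family is heavy
  have hgood : p ^ 2 / 2 ≤ M.sm (G w) := by
    obtain ⟨w', rfl⟩ : ∃ w', w = w' + 1 := ⟨w - 1, by omega⟩
    have h1 := hG M φ N p w' (nn (w' + 1)) hφ hN hp (by omega) (by
      have h2 : (2 : ℝ) * (nn (w' + 1) : ℝ) ≤ r ^ 2 * w' := by
        have h3 := Nat.floor_le (a := r ^ 2 * (((w' + 1 : ℕ) : ℝ) - 1) / 2) (by
          rw [Nat.cast_succ, add_sub_cancel_right]; positivity)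
        change 2 * ((⌊r ^ 2 * (((w' + 1 : ℕ) : ℝ) - 1) / 2⌋₊ : ℕ) : ℝ) ≤ _
        push_cast at h3 ⊢
        linarith
      have h4 := ENNReal.ofReal_le_ofReal h2
      rwa [ENNReal.ofReal_mul zero_le_two, ENNReal.ofReal_mul hr2.le, ENNReal.ofReal_natCast,
        ENNReal.ofReal_natCast, ENNReal.ofReal_ofNat, ENNReal.ofReal_pow hr.le] at h4)
    simpa only [G, Nat.cast_add, Nat.cast_one] using h1
  -- thinness
  have hwb : 1 ≤ (w : ℝ) ^ b := Real.one_le_rpow hw1 (by linarith)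
  have hcapf : ∀ (N' C' : ℝ), (∀ n : ℕ, φ n - N' ≤ 2 * w + 1 → (n : ℝ) ≤ C' * (w : ℝ) ^ b) →
      ∀ n : ℕ, φ n - N' ≤ 2 * w + 1 → n ≤ ⌊|C'| * (w : ℝ) ^ b⌋₊ := fun N' C' h n hn =>
    Nat.le_floor ((h n hn).trans (mul_le_mul_of_nonneg_right (le_abs_self _) (by positivity)))
  set g : ℝ := 3 * (|C₂| + 1) / r * (w : ℝ) ^ (b - 1) with hg
  have hthin : ∀ t' : ℝ, M.sm {α | α ∈ {α | M.HH φ (N + N) α} ∧ M.lv α < w ∧ t' ≤ M.lv α ∧
      M.lv α < t' + 2} ≤ ENNReal.ofReal g := by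
    intro t'
    have h1 := hT M φ N (N + N) p w _ hφ (by linarith) hp
      (hcapf _ _ (hC₂ w (by omega))) t'
    have h2 : (3 : ℝ≥0∞) * ((⌊|C₂| * (w : ℝ) ^ b⌋₊ : ℕ) + 1) ≤ w * p * ENNReal.ofReal g := by
      have h3 : (3 : ℝ) * ((⌊|C₂| * (w : ℝ) ^ b⌋₊ : ℕ) + 1) ≤ w * r * g := by
        have h4 := Nat.floor_le (a := |C₂| * (w : ℝ) ^ b) (by positivity)
        have h5 : (w : ℝ) * r * g = 3 * (|C₂| + 1) * (w : ℝ) ^ b := by
          rw [hg, Real.rpow_sub_one hw0.ne']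
          field_simp
        rw [h5]
        nlinarith
      have h6 := ENNReal.ofReal_le_ofReal h3
      rwa [ENNReal.ofReal_mul (by norm_num), ENNReal.ofReal_add (by positivity) zero_le_one,
        ENNReal.ofReal_natCast, ENNReal.ofReal_ofNat, ENNReal.ofReal_one,
        ENNReal.ofReal_mul (by positivity), ENNReal.ofReal_mul (by positivity),
        ENNReal.ofReal_natCast] at h6
    exact (ENNReal.mul_le_mul_iff_right (mul_ne_zero (by simp; omega) hp0)
      (ENNReal.mul_ne_top (by simp) hpt)).1 (h1.trans h2)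
  set lam : ℝ := |A| * (w : ℝ) ^ (-ρ) with hlam
  have hmom := hM M (G w) {α | M.HH φ (N + N) α} s w ⌊|C₁| * (w : ℝ) ^ b⌋₊ (ENNReal.ofReal lam)
    (ENNReal.ofReal g) hw0.le (fun γ h => ⟨h.1, hcapf _ _ (hC₁ w (by omega)) _ (by
      linarith [(h.2.1 γ List.prefix_rfl).2, h.1.lv_lt hw0.le]), fun α hα => h.2.1.of_pf hα⟩)
    hthin hs fun z => (hsup z).trans (ENNReal.ofReal_le_ofReal
      (mul_le_mul_of_nonneg_right (le_abs_self _) (by positivity)))
  set χ : ℝ≥0∞ := (⌊|C₁| * (w : ℝ) ^ b⌋₊ : ℕ) * (ENNReal.ofReal lam * ENNReal.ofReal g) with hχ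
  set k : ℕ := ⌈(w : ℝ) ^ s₀⌉₊ with hk
  have hws : 1 ≤ (w : ℝ) ^ s₀ := Real.one_le_rpow hw1 hs0.le
  have hwρ : 1 ≤ (w : ℝ) ^ ρ := Real.one_le_rpow hw1 hρ0.le
  have hkχ : k * χ ≤ min (t / 8) c := by
    refine le_trans ?_ f2
    have h0 : 0 ≤ g := by positivity
    rw [hχ, ← ENNReal.ofReal_natCast, ← ENNReal.ofReal_natCast,
      ← ENNReal.ofReal_mul (by positivity), ← ENNReal.ofReal_mul (by positivity),
      ← ENNReal.ofReal_mul (by positivity)]
    refine ENNReal.ofReal_le_ofReal ?_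
    have h4 := Nat.floor_le (a := |C₁| * (w : ℝ) ^ b) (by positivity)
    calc (k : ℝ) * ((⌊|C₁| * (w : ℝ) ^ b⌋₊ : ℕ) * (lam * g))
        ≤ 2 * (w : ℝ) ^ s₀ * (|C₁| * (w : ℝ) ^ b * (lam * g)) := by
          gcongr
          exact ceil_le hws
      _ = 2 * (|C₁| * (|A| * (3 * (|C₂| + 1) / r))) *
          ((w : ℝ) ^ s₀ * (w : ℝ) ^ b * (w : ℝ) ^ (-ρ) * (w : ℝ) ^ (b - 1)) := by
          rw [hlam, hg]; ring
      _ = _ := by
          rw [← Real.rpow_add hw0, ← Real.rpow_add hw0, ← Real.rpow_add hw0]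
          congr 2
          rw [hs₀]; ring
  have hk1 : (1 : ℝ≥0∞) ≤ k := by
    exact_mod_cast Nat.one_le_ceil_iff.2 (zero_lt_one.trans_le hws)
  have hc8 : 8 * c = p ^ 2 / 2 * β := ENNReal.mul_div_cancel (by simp) (by simp)
  have hmass := hMa M (G w) s w χ (p ^ 2 / 2) β hw1 hcr hs hs1 hmom hgood (hβ _) (by
    rw [← hc8]
    gcongr
    exact (le_mul_of_one_le_left zero_le hk1).trans (hkχ.trans (min_le_right _ _)))
  obtain ⟨hrow, hsupp⟩ := hR M (G w) w hw1 hcr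
  have htot : ∑' z', ∑' z, s z * M.Qk (G w) z z' ≤ 1 := by
    rw [ENNReal.tsum_comm, ← hs1]
    refine ENNReal.tsum_le_tsum fun z => ?_
    rw [ENNReal.tsum_mul_left]
    exact mul_le_of_le_one_right' (hrow z)
  set NS : ℕ := ⌈(w : ℝ) ^ ρ⌉₊ with hNS
  have hNS1 : 1 ≤ NS := Nat.one_le_ceil_iff.2 (zero_lt_one.trans_le hwρ)
  have hset : ∀ S : Finset M.Pt, S.card ≤ NS →
      ∑ z' ∈ S, ∑' z, s z * M.Qk (G w) z z' ≤ c := by
    intro S hSc
    have h1 := hS M (G w) s w χ (t / 8 + t / 8) t S k hw1 hcr hs hs1 hmom (fun S' hS' => by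
      refine le_trans (Mod.sm_mono fun γ h => ?_) ((hC _ hn0 w S').trans ?_)
      · exact ⟨h.1.1, h.1.2.2, h.2⟩
      refine add_le_add le_rfl (le_trans ?_ f1)
      rw [← ENNReal.ofReal_natCast, ← ENNReal.ofReal_mul' (Nat.cast_nonneg _)]
      refine ENNReal.ofReal_le_ofReal ?_
      have h2 : ((S'.card : ℕ) : ℝ) ≤ 2 * (w : ℝ) ^ ρ :=
        le_trans (by exact_mod_cast hS'.trans hSc) (ceil_le hwρ)
      have h3 : (nn w : ℝ) ^ (-((d : ℝ) - 1) / 2) ≤ (r ^ 2 / 8 * w) ^ (-σ) := by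
        rw [neg_div]
        exact Real.rpow_le_rpow_of_nonpos (by positivity) hn1 (by linarith)
      calc C * (nn w : ℝ) ^ (-((d : ℝ) - 1) / 2) * (S'.card : ℝ)
          ≤ |C| * (r ^ 2 / 8 * w) ^ (-σ) * (2 * (w : ℝ) ^ ρ) := by
            gcongr
            exact le_abs_self _
        _ = |C| * (r ^ 2 / 8) ^ (-σ) * 2 * ((w : ℝ) ^ (-σ) * (w : ℝ) ^ ρ) := by
            rw [Real.mul_rpow (by positivity) hw0.le]; ring
        _ = _ := by
            rw [← Real.rpow_add hw0]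
            congr 2
            ring) ht0 htt (by
      have h2 : 8 * (t / 8) = t := ENNReal.mul_div_cancel (by simp) (by simp)
      calc 2 * (t / 8 + t / 8 + k * χ) ≤ 2 * (t / 8 + t / 8 + t / 8) := by
            gcongr
            exact hkχ.trans (min_le_left _ _)
        _ = 6 * (t / 8) := by ring
        _ ≤ 8 * (t / 8) := by gcongr; norm_num
        _ = t := h2)
    refine h1.trans (le_trans (add_le_add ?_ (le_trans ?_ f3)) (ENNReal.add_halves c).le)
    · rw [ht, div_eq_mul_inv, div_eq_mul_inv]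
      have h2 : (4 : ℝ≥0∞) * 8⁻¹ = 2⁻¹ := by
        rw [show (8 : ℝ≥0∞) = 4 * 2 by norm_num, ENNReal.mul_inv (by simp) (by simp), ← mul_assoc,
          ENNReal.mul_inv_cancel (by simp) (by simp), one_mul]
      calc 4 * M.κ⁻¹ * (c * M.κ * 8⁻¹) = c * (4 * 8⁻¹) * (M.κ⁻¹ * M.κ) := by ring
        _ ≤ c * 2⁻¹ := by rw [h2, ENNReal.inv_mul_cancel M.hκ hκt, mul_one]
    · have h2 : (2⁻¹ : ℝ≥0∞) = ENNReal.ofReal 2⁻¹ := by
        rw [ENNReal.ofReal_inv_of_pos two_pos, ENNReal.ofReal_ofNat]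
      rw [h2, ← ENNReal.ofReal_pow (by norm_num), ← ENNReal.ofReal_natCast,
        ← ENNReal.ofReal_mul (Nat.cast_nonneg _)]
      refine ENNReal.ofReal_le_ofReal ?_
      have h3 : ((S.card : ℕ) : ℝ) ≤ 2 * (w : ℝ) ^ ρ :=
        le_trans (by exact_mod_cast hSc) (ceil_le hwρ)
      have h4 : (2⁻¹ : ℝ) ^ k ≤ Real.exp (-Real.log 2 * (w : ℝ) ^ s₀) := by
        rw [← Real.exp_log (x := 2⁻¹) (by norm_num), ← Real.exp_nat_mul, Real.log_inv]
        refine Real.exp_le_exp.2 ?_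
        nlinarith [Nat.le_ceil ((w : ℝ) ^ s₀), Real.log_pos one_lt_two]
      rw [← mul_assoc]
      gcongr
  obtain ⟨s', a1, a2, a3⟩ := hTr M.Pt _ c c NS hNS1 htot (le_trans (by
    rw [← hc8, ← two_mul, show (8 : ℝ≥0∞) = 4 * 2 by norm_num, mul_assoc, mul_comm (4 : ℝ≥0∞),
      ENNReal.mul_div_cancel_right (by simp) (by simp)]) hmass) hset
  refine ⟨s', a1, fun z' hz' => ?_, a2, (ENNReal.tsum_le_tsum a1).trans htot,
    fun z => (a3 z).trans ?_⟩
  · have h1 : ∑' z, s z * M.Qk (G w) z z' ≠ 0 := fun h => hz' (le_antisymm (h ▸ a1 z') zero_le)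
    obtain ⟨z, hz⟩ : ∃ z, s z * M.Qk (G w) z z' ≠ 0 := by
      by_contra h
      push Not at h
      exact h1 (by simp [h])
    exact hsupp z z' (hs z (left_ne_zero_of_mul hz)).1 (right_ne_zero_of_mul hz)
  · rw [Real.rpow_neg hw0.le, ENNReal.ofReal_inv_of_pos (by positivity), ENNReal.inv_le_inv,
      ← ENNReal.ofReal_natCast]
    exact ENNReal.ofReal_le_ofReal (Nat.le_ceil _)

end Pool.Agent.MP_db8016_pr.BZ

end
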