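import Pool.Agent.Mg.Fdb8016p.Ged04e7

/-! A block of steps of a random walk is spread over a segment. -/

namespace Pool.Agent.MP_db8016_pr.BZ
open Finset Filter
open scoped ENNReal

namespace BlkAux

lemma cb (k : ℕ) : k.centralBinom ^ 2 * (2 * k + 1) ≤ 16 ^ k := by
  induction k with
  | zero => simp
  | succ k ih =>
    have h1 := Nat.succ_mul_centralBinom_succ k
    refine Nat.le_of_mul_le_mul_left ?_ (pow_pos (Nat.succ_pos k) 2)
    calc (k + 1) ^ 2 * ((k + 1).centralBinom ^ 2 * (2 * (k + 1) + 1))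
        = ((k + 1) * (k + 1).centralBinom) ^ 2 * (2 * k + 3) := by ring
      _ = 4 * ((2 * k + 1) * (2 * k + 3)) * (k.centralBinom ^ 2 * (2 * k + 1)) := by
        rw [h1]; ring
      _ ≤ 4 * (4 * (k + 1) ^ 2) * 16 ^ k := by
        exact Nat.mul_le_mul (Nat.mul_le_mul_left 4 (by nlinarith)) ih
      _ = (k + 1) ^ 2 * 16 ^ (k + 1) := by ring

lemma ch (i s : ℕ) : i.choose s ^ 2 * i ≤ 4 ^ i := by
  obtain ⟨k, rfl | rfl⟩ := Nat.even_or_odd' i
  · calc (2 * k).choose s ^ 2 * (2 * k) ≤ k.centralBinom ^ 2 * (2 * k + 1) := by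
          gcongr
          · exact Nat.choose_le_centralBinom s k
          · omega
      _ ≤ 16 ^ k := cb k
      _ = 4 ^ (2 * k) := by rw [pow_mul]; norm_num
  · have h1 : (2 * k + 1).choose s ≤ 2 * k.centralBinom := by
      rcases s with _ | s
      · have := Nat.centralBinom_pos k
        rw [Nat.choose_zero_right]
        omega
      · have := Nat.choose_le_centralBinom s k
        have := Nat.choose_le_centralBinom (s + 1) k
        rw [Nat.choose_succ_succ']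
        omega
    calc (2 * k + 1).choose s ^ 2 * (2 * k + 1) ≤ (2 * k.centralBinom) ^ 2 * (2 * k + 1) := by
          gcongr
      _ = 4 * (k.centralBinom ^ 2 * (2 * k + 1)) := by ring
      _ ≤ 4 * 16 ^ k := by gcongr; exact cb k
      _ = 4 ^ (2 * k + 1) := by rw [pow_succ, pow_mul, mul_comm]; norm_num

lemma mom (i : ℕ) : ∑ s ∈ range (i + 1), (i.choose s : ℤ) * (2 * s - i) ^ 2 = (i : ℤ) * 2 ^ i := by
  induction i with
  | zero => simp
  | succ i ih =>
    have h1 : ∑ s ∈ range (i + 1), (i.choose s : ℤ) = 2 ^ i := by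
      exact_mod_cast Nat.sum_range_choose i
    rw [sum_choose_succ_mul (fun s _ => (2 * (s : ℤ) - (i + 1 : ℕ)) ^ 2) i, ← sum_add_distrib]
    rw [sum_congr rfl (g := fun s => 2 * ((i.choose s : ℤ) * (2 * s - i) ^ 2) + 2 * i.choose s)
      fun s _ => by push_cast; ring, sum_add_distrib, ← mul_sum, ← mul_sum, ih, h1]
    push_cast
    ring

lemma tail {i L K m : ℕ} (hi : i ≤ m) (hm : 0 < m) (hL : K * m ≤ L ^ 2) :
    K * ∑ s ∈ range (i + 1) \ Ico ((i - L) / 2) ((i - L) / 2 + (L + 1)), i.choose s ≤ 2 ^ i := by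
  set T := range (i + 1) \ Ico ((i - L) / 2) ((i - L) / 2 + (L + 1)) with hT
  have h1 : ((L ^ 2 * ∑ s ∈ T, i.choose s : ℕ) : ℤ) ≤ i * 2 ^ i := by
    rw [← mom]
    push_cast
    rw [mul_sum]
    refine le_trans (sum_le_sum fun s hs => ?_)
      (sum_le_sum_of_subset_of_nonneg sdiff_subset fun s _ _ => by positivity)
    rw [mul_comm]
    refine mul_le_mul_of_nonneg_left ?_ (by positivity)
    rw [hT, Finset.mem_sdiff, mem_range, Finset.mem_Ico] at hs
    refine sq_le_sq.2 ?_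
    rw [Nat.abs_cast, le_abs]
    omega
  have h2 : L ^ 2 * ∑ s ∈ T, i.choose s ≤ i * 2 ^ i := by exact_mod_cast h1
  refine Nat.le_of_mul_le_mul_left ?_ hm
  calc m * (K * ∑ s ∈ T, i.choose s) = K * m * ∑ s ∈ T, i.choose s := by ring
    _ ≤ L ^ 2 * ∑ s ∈ T, i.choose s := by gcongr
    _ ≤ i * 2 ^ i := h2
    _ ≤ m * 2 ^ i := by gcongr

lemma win {i a R : ℕ} {G : ℕ → ℝ≥0∞} {t η c : ℝ≥0∞} (hG : ∀ s, G s ≤ t)
    (h1 : ∑ s ∈ range (i + 1) \ Ico a (a + R), (i.choose s : ℝ≥0∞) ≤ 2 ^ i * η)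
    (h2 : ∀ s, (i.choose s : ℝ≥0∞) ≤ 2 ^ i * c) :
    ∑ s ∈ range (i + 1), (i.choose s : ℝ≥0∞) * G s ≤
      2 ^ i * (η * t) + 2 ^ i * (c * ∑ s ∈ range R, G (a + s)) := by
  refine le_trans (sum_le_sum_of_subset (t := range (i + 1) \ Ico a (a + R) ∪ Ico a (a + R))
    fun s hs => by rw [mem_union, Finset.mem_sdiff]; tauto) ?_
  rw [sum_union sdiff_disjoint]
  refine add_le_add ?_ ?_
  · refine le_trans (sum_le_sum fun s _ => mul_le_mul_right (hG s) _) ?_
    rw [← sum_mul, ← mul_assoc]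
    exact mul_le_mul_left h1 t
  · rw [sum_Ico_eq_sum_range, Nat.add_sub_cancel_left, ← mul_assoc, mul_sum]
    exact sum_le_sum fun s _ => mul_le_mul_left (h2 _) _

variable {Pt : Type} [AddCommGroup Pt]

/-- Linear operators on functions. -/
abbrev En (Pt : Type) : Type := Module.End ℝ≥0∞ (Pt → ℝ≥0∞)

/-- The averaging operator as a linear map. -/
noncomputable def opL (ρ : Pt → ℝ≥0∞) : En Pt where
  toFun := op ρ
  map_add' F G := funext fun x => by simp [op, mul_add, ENNReal.tsum_add]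
  map_smul' c F := funext fun x => by
    simp only [op, Pi.smul_apply, smul_eq_mul, RingHom.id_apply, ← ENNReal.tsum_mul_left]
    exact tsum_congr fun v => by ring

/-- The shift. -/
def sh (v : Pt) : En Pt where
  toFun F x := F (x + v)
  map_add' _ _ := rfl
  map_smul' _ _ := rfl

lemma sh_apply (v : Pt) (F : Pt → ℝ≥0∞) (x : Pt) : sh v F x = F (x + v) := rfl

lemma sh_pow (v : Pt) (n : ℕ) : sh v ^ n = sh (n • v) := by
  induction n with
  | zero => ext F x; simp [sh_apply]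
  | succ n ih =>
    rw [pow_succ, ih]
    ext F x
    simp only [Module.End.mul_apply, sh_apply, succ_nsmul, add_assoc]

/-- The operator is an average with total weight at most `t`. -/
def Rep (Φ : En Pt) (t : ℝ≥0∞) : Prop := ∃ ρ : Pt → ℝ≥0∞, ∑' v, ρ v ≤ t ∧ Φ = opL ρ

lemma Rep.comm {Φ : En Pt} {t : ℝ≥0∞} (h : Rep Φ t) (v : Pt) : Commute Φ (sh v) := by
  obtain ⟨ρ, -, rfl⟩ := h
  ext F x
  change ∑' u, ρ u * F (x + u + v) = ∑' u, ρ u * F (x + v + u)
  simp only [add_right_comm x v]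

lemma Rep.le {Φ : En Pt} {t : ℝ≥0∞} (h : Rep Φ t) {F : Pt → ℝ≥0∞} (hF : ∀ x, F x ≤ 1) (x : Pt) :
    Φ F x ≤ t := by
  obtain ⟨ρ, h, rfl⟩ := h
  exact (ENNReal.tsum_le_tsum fun v => mul_le_of_le_one_right' (hF _)).trans h

lemma rep_sh (v : Pt) : Rep (sh v) 1 := by
  classical
  refine ⟨fun u => if u = v then 1 else 0, by simp, ?_⟩
  ext F x
  change F (x + v) = ∑' u, (if u = v then 1 else 0) * F (x + u)
  rw [tsum_eq_single v fun u hu => by simp [hu]]
  simp

lemma Rep.mul {Φ Ψ : En Pt} {t t' : ℝ≥0∞} (h : Rep Φ t) (h' : Rep Ψ t') : Rep (Φ * Ψ) (t * t') := by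
  obtain ⟨ρ, h, rfl⟩ := h
  obtain ⟨σ, h', rfl⟩ := h'
  refine ⟨fun v => ∑' u, ρ u * σ (v - u), ?_, ?_⟩
  · rw [ENNReal.tsum_comm]
    simp only [ENNReal.tsum_mul_left, (Equiv.subRight _).tsum_eq σ, ← Equiv.subRight_apply]
    rw [ENNReal.tsum_mul_right]
    exact mul_le_mul' h h'
  · ext F x
    change ∑' u, ρ u * ∑' w, σ w * F (x + u + w) = ∑' v, (∑' u, ρ u * σ (v - u)) * F (x + v)
    simp only [← ENNReal.tsum_mul_right]
    rw [ENNReal.tsum_comm]
    refine tsum_congr fun u => ?_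
    rw [← ENNReal.tsum_mul_left, ← (Equiv.subRight u).tsum_eq]
    refine tsum_congr fun v => ?_
    rw [Equiv.subRight_apply, mul_assoc, add_add_sub_cancel, add_comm x v]

lemma Rep.pow {Φ : En Pt} {t : ℝ≥0∞} (h : Rep Φ t) (n : ℕ) : Rep (Φ ^ n) (t ^ n) := by
  induction n with
  | zero =>
    have := rep_sh (0 • (0 : Pt))
    rw [← sh_pow] at this
    simpa only [pow_zero] using this
  | succ n ih => rw [pow_succ, pow_succ]; exact ih.mul h

lemma rep_sum (s : Finset ℕ) (c t : ℕ → ℝ≥0∞) (Φ : ℕ → En Pt) (h : ∀ i, Rep (Φ i) (t i)) :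
    Rep (∑ i ∈ s, c i • Φ i) (∑ i ∈ s, c i * t i) := by
  choose ρ h1 h2 using h
  refine ⟨fun v => ∑ i ∈ s, c i * ρ i v, ?_, ?_⟩
  · rw [Summable.tsum_finsetSum fun _ _ => ENNReal.summable]
    refine sum_le_sum fun i _ => ?_
    rw [ENNReal.tsum_mul_left]
    exact mul_le_mul_right (h1 i) _
  · ext F x
    change _ = ∑' v, (∑ i ∈ s, c i * ρ i v) * F (x + v)
    simp only [sum_mul]
    rw [Summable.tsum_finsetSum fun _ _ => ENNReal.summable, LinearMap.sum_apply, Finset.sum_apply]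
    refine sum_congr rfl fun i _ => ?_
    simp only [mul_assoc, ENNReal.tsum_mul_left, h2]
    rfl

lemma Rep.seg {Φ : En Pt} {t : ℝ≥0∞} (hΦ : Rep Φ t) (c : ℝ≥0∞) (R : ℕ) (h : Pt) (F : Pt → ℝ≥0∞)
    (y : Pt) : Φ (seg c R h F) y = c * ∑ s ∈ range R, Φ F (y + s • h) := by
  have e : BZ.seg c R h F = c • ∑ s ∈ range R, sh (s • h) F := by
    funext x
    simp [BZ.seg, sh_apply]
  rw [e, map_smul, map_sum, Pi.smul_apply, Finset.sum_apply, smul_eq_mul]
  congr 1
  exact sum_congr rfl fun s _ => congrFun (LinearMap.congr_fun (hΦ.comm (s • h)).eq F) y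

lemma expand {A : En Pt} {a : ℝ≥0∞} (hA : Rep A a) (ε : ℝ≥0∞) (g h : Pt) (m : ℕ)
    (F : Pt → ℝ≥0∞) (x : Pt) : ((ε • (sh g * (sh h + 1)) + A) ^ m) F x =
      ∑ i ∈ range (m + 1), (m.choose i : ℝ≥0∞) * ε ^ i * ∑ s ∈ range (i + 1),
        (i.choose s : ℝ≥0∞) * (A ^ (m - i)) F (x + i • g + s • h) := by
  have c1 : Commute (sh g) (sh h + 1) := ((rep_sh g).comm h).add_right (Commute.one_right _)
  have c2 : Commute (ε • (sh g * (sh h + 1))) A :=
    (((hA.comm g).mul_right ((hA.comm h).add_right (Commute.one_right _))).smul_right ε).symm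
  rw [c2.add_pow, LinearMap.sum_apply, Finset.sum_apply]
  refine sum_congr rfl fun i _ => ?_
  rw [smul_pow, c1.mul_pow, (Commute.one_right (sh h)).add_pow, sh_pow]
  simp only [Module.End.mul_apply, Module.End.natCast_apply, map_nsmul, LinearMap.smul_apply,
    Pi.smul_apply, sh_apply, LinearMap.sum_apply, Finset.sum_apply, one_pow, mul_one, sh_pow]
  simp only [smul_eq_mul, nsmul_eq_mul, mul_assoc]

lemma split {q : Pt → ℝ≥0∞} {ε : ℝ≥0∞} {g h : Pt} (hh : h ≠ 0) (hq : ∑' v, q v ≤ 1)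
    (h1 : ε ≤ q g) (h2 : ε ≤ q (g + h)) : ∃ (A : En Pt) (a : ℝ≥0∞), Rep A a ∧ ε + ε + a ≤ 1 ∧
      opL q = ε • (sh g * (sh h + 1)) + A := by
  classical
  have hne : g ≠ g + h := fun e => hh (by simpa using e)
  let δ : Pt → ℝ≥0∞ := fun v => (if v = g + h then ε else 0) + if v = g then ε else 0
  have hδ : ∀ v, q v = δ v + (q v - δ v) := fun v => by
    refine (add_tsub_cancel_of_le ?_).symm
    by_cases e : v = g
    · simpa [δ, e, hh] using h1
    by_cases e' : v = g + h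
    · simpa [δ, e', hh] using h2
    simp [δ, e, e']
  have key : ∀ G : Pt → ℝ≥0∞, ∑' v, q v * G v =
      ε * G (g + h) + ε * G g + ∑' v, (q v - δ v) * G v := fun G => by
    rw [tsum_congr fun v => by rw [hδ v, add_mul], ENNReal.tsum_add]
    congr 1
    simp only [δ, add_mul, ENNReal.tsum_add]
    rw [tsum_eq_single (g + h) fun u hu => by simp [hu], tsum_eq_single g fun u hu => by simp [hu]]
    simp
  refine ⟨opL fun v => q v - δ v, _, ⟨_, le_rfl, rfl⟩, ?_, ?_⟩
  · simpa only [mul_one] using (key fun _ => 1).symm.le.trans (by simpa only [mul_one] using hq)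
  · ext F x
    refine (key fun v => F (x + v)).trans ?_
    change _ = ε * (F (x + g + h) + F (x + g)) + _
    rw [mul_add, add_assoc x]
    rfl

end BlkAux

open BlkAux in
theorem s_blk : S_Blk := by
  intro Pt _ q ε η g h hε hη hh hq h1 h2
  obtain ⟨A, a, hA, ha, hQ⟩ := split hh hq h1 h2
  have hb : ε + a < 1 := by
    rw [add_assoc, add_comm] at ha
    exact (ENNReal.lt_add_right (ne_top_of_le_ne_top ENNReal.one_ne_top (le_self_add.trans ha))
      hε).trans_le ha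
  have hη2 : η / 2 ≠ 0 := ENNReal.div_ne_zero.2 ⟨hη, ENNReal.ofNat_ne_top⟩
  obtain ⟨N, hN, hN1⟩ := (((ENNReal.tendsto_pow_atTop_nhds_zero_of_lt_one hb).eventually_le_const
    (by norm_num : (0 : ℝ≥0∞) < 2⁻¹ * 2⁻¹)).and (eventually_ge_atTop 1)).exists
  obtain ⟨j, hj⟩ := ENNReal.exists_inv_two_pow_lt hη2
  obtain ⟨K, hK⟩ := ENNReal.exists_inv_nat_lt hη2
  have hNR : (1 : ℝ) ≤ N := by exact_mod_cast hN1
  have hKR : (0 : ℝ) ≤ K := Nat.cast_nonneg K
  refine ⟨2 * K + 1 + 2 * N, N * (j + 1), by positivity, fun m hm => ?_⟩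
  have hi0 : j + 1 ≤ m / N := (Nat.le_div_iff_mul_le hN1).2 (by rwa [mul_comm])
  have hm0 : 0 < m := lt_of_lt_of_le (by positivity) hm
  have hs : 1 ≤ √(m : ℝ) := Real.one_le_sqrt.2 (by exact_mod_cast hm0)
  set L := K * (m.sqrt + 1) with hL
  set c := ENNReal.ofReal ((2 * K + 1 + 2 * N) / √(m : ℝ)) with hc
  obtain ⟨ρ, hρ, hΦ⟩ := rep_sum (range (m + 1)) (fun i => (m.choose i : ℝ≥0∞) * (ε + ε) ^ i)
    (fun i => 1 * a ^ (m - i)) (fun i => sh (i • g + ((i - L) / 2) • h) * A ^ (m - i))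
    fun i => (rep_sh _).mul (hA.pow _)
  have hsum : ∀ u : ℝ≥0∞, ∑ i ∈ range (m + 1), (m.choose i : ℝ≥0∞) * u ^ i * a ^ (m - i) =
      (u + a) ^ m := fun u => by
    rw [add_pow]
    exact sum_congr rfl fun i _ => by ring
  have hone : (ε + ε + a) ^ m ≤ 1 := pow_le_one' ha m
  refine ⟨ρ, L + 1, ?_, ?_, fun F hF x => ?_⟩
  · simp only [one_mul, hsum] at hρ
    exact hρ.trans hone
  · have e1 : (m.sqrt : ℝ) ≤ √(m : ℝ) := Real.nat_sqrt_le_real_sqrt
    rw [hL]
    push_cast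
    nlinarith [mul_le_mul_of_nonneg_left e1 hKR, mul_le_mul_of_nonneg_left hs hKR]
  have e0 : (op q)^[m] F x = (opL q ^ m) F x := by
    rw [Module.End.pow_apply]
    rfl
  have e1 : op ρ (seg c (L + 1) h F) x = ∑ i ∈ range (m + 1), (m.choose i : ℝ≥0∞) * (ε + ε) ^ i *
      (c * ∑ s ∈ range (L + 1), (A ^ (m - i)) F (x + i • g + ((i - L) / 2 + s) • h)) := by
    change opL ρ _ x = _
    rw [← hΦ, LinearMap.sum_apply, Finset.sum_apply]
    refine sum_congr rfl fun i _ => ?_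
    rw [LinearMap.smul_apply, Pi.smul_apply, Module.End.mul_apply, sh_apply, (hA.pow _).seg]
    simp only [smul_eq_mul, add_nsmul, add_assoc]
  have e2 : 2 ^ (m / N) * (ε + a) ^ m ≤ η / 2 :=
    calc 2 ^ (m / N) * (ε + a) ^ m ≤ 2 ^ (m / N) * ((ε + a) ^ N) ^ (m / N) := by
          rw [← pow_mul]
          exact mul_le_mul_right (pow_le_pow_right_of_le_one' hb.le (Nat.mul_div_le m N)) _
      _ ≤ 2 ^ (m / N) * (2⁻¹ * 2⁻¹) ^ (m / N) := by gcongr
      _ = 2⁻¹ ^ (m / N) := by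
          rw [← mul_pow, ← mul_assoc, ENNReal.mul_inv_cancel two_ne_zero ENNReal.ofNat_ne_top,
            one_mul]
      _ ≤ 2⁻¹ ^ j := pow_le_pow_right_of_le_one' (by norm_num) (by omega)
      _ ≤ η / 2 := hj.le
  have e3 : ∀ i ∈ range (m + 1), (m.choose i : ℝ≥0∞) * ε ^ i * ∑ s ∈ range (i + 1),
      (i.choose s : ℝ≥0∞) * (A ^ (m - i)) F (x + i • g + s • h) ≤
      2 ^ (m / N) * ((m.choose i : ℝ≥0∞) * ε ^ i * a ^ (m - i)) +
        η / 2 * ((m.choose i : ℝ≥0∞) * (ε + ε) ^ i * a ^ (m - i)) +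
        (m.choose i : ℝ≥0∞) * (ε + ε) ^ i *
          (c * ∑ s ∈ range (L + 1), (A ^ (m - i)) F (x + i • g + ((i - L) / 2 + s) • h)) := by
    intro i hi
    have hG : ∀ s : ℕ, (A ^ (m - i)) F (x + i • g + s • h) ≤ a ^ (m - i) :=
      fun s => (hA.pow _).le hF _
    rcases lt_or_ge i (m / N) with hlt | hge
    · refine le_trans ?_ (le_self_add.trans le_self_add)
      rw [mul_left_comm]
      refine mul_le_mul_right (le_trans (sum_le_sum fun s _ => mul_le_mul_right (hG s) _) ?_) _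
      rw [← sum_mul, ← Nat.cast_sum, Nat.sum_range_choose]
      push_cast
      exact mul_le_mul_left (pow_le_pow_right₀ one_le_two hlt.le) _
    · rw [add_assoc]
      refine le_trans ?_ le_add_self
      refine (mul_le_mul_right (win (a := (i - L) / 2) (R := L + 1) (η := η / 2) (c := c) hG ?_
        fun s => ?_) _).trans (le_of_eq (by rw [← two_mul, mul_pow]; ring))
      · have hK0 : (K : ℝ≥0∞) ≠ 0 := by
          rintro e
          rw [e, ENNReal.inv_zero] at hK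
          exact not_top_lt hK
        have f1 : K * m ≤ L ^ 2 := by
          have f2 : K ≤ K ^ 2 := Nat.le_self_pow two_ne_zero K
          rw [hL, mul_pow]
          exact Nat.mul_le_mul f2 (Nat.lt_succ_sqrt' m).le
        have f3 : (K : ℝ≥0∞) * ∑ s ∈ range (i + 1) \ Ico ((i - L) / 2) ((i - L) / 2 + (L + 1)),
            (i.choose s : ℝ≥0∞) ≤ 2 ^ i := by
          exact_mod_cast tail (Nat.lt_succ_iff.1 (mem_range.1 hi)) hm0 f1
        refine le_trans ?_ (mul_le_mul_right hK.le _)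
        rw [← div_eq_mul_inv, ENNReal.le_div_iff_mul_le (Or.inl hK0)
          (Or.inl (ENNReal.natCast_ne_top K)), mul_comm]
        exact f3
      · have f1 : m ≤ 2 * N * i := by
          have := Nat.lt_mul_div_succ m hN1
          nlinarith
        have f2 : ((i.choose s : ℝ)) ^ 2 * i ≤ 4 ^ i := by exact_mod_cast ch i s
        have f3 : (m : ℝ) ≤ 2 * N * i := by exact_mod_cast f1
        have f4 : (i.choose s : ℝ) * √(m : ℝ) ≤ 2 ^ i * (2 * K + 1 + 2 * N) := by
          refine abs_le_of_sq_le_sq' ?_ (by positivity) |>.2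
          rw [mul_pow, mul_pow, Real.sq_sqrt (Nat.cast_nonneg m), ← pow_mul, mul_comm i 2, pow_mul]
          have f5 : (i.choose s : ℝ) ^ 2 * m ≤ (i.choose s : ℝ) ^ 2 * (2 * N * i) := by gcongr
          have f6 : 2 * (N : ℝ) * ((i.choose s : ℝ) ^ 2 * i) ≤ 2 * N * 4 ^ i := by gcongr
          have f7 : 2 * (N : ℝ) * 4 ^ i ≤ (2 * K + 1 + 2 * N) ^ 2 * 4 ^ i := by
            gcongr
            nlinarith
          norm_num
          linarith
        rw [hc, ← ENNReal.ofReal_natCast, ← ENNReal.ofReal_ofNat 2, ← ENNReal.ofReal_pow zero_le_two,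
          ← ENNReal.ofReal_mul (by positivity), ← mul_div_assoc]
        exact ENNReal.ofReal_le_ofReal ((le_div_iff₀ (by linarith)).2 f4)
  rw [e0, hQ, expand hA, e1]
  refine (sum_le_sum e3).trans ?_
  rw [sum_add_distrib, sum_add_distrib, ← mul_sum, ← mul_sum, hsum, hsum]
  refine add_le_add_left ?_ _
  exact (add_le_add e2 (mul_le_of_le_one_right' hone)).trans (ENNReal.add_halves η).le

end Pool.Agent.MP_db8016_pr.BZ
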