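import Pool.Agent.Mg.Fdb8016p.Ga21f0b
import Pool.Agent.Mg.Fdb8016p.Gb00190

section

/-! The statements that are passed between the files. -/

namespace Pool.Agent.MP_db8016_pr.BZ
open MeasureTheory ProbabilityTheory Filter Topology
open scoped ENNReal Classical

/-- The family contains the initial parts of its members. -/
def PC {α : Type} (H : Set (List α)) : Prop := ∀ γ ∈ H, ∀ β, β <+: γ → β ∈ H

/-- The data of a window: weights on the slab and a finite set in the slab. -/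
def Ctx (M : Mod) (s : M.Pt → ℝ≥0∞) (S : Finset M.Pt) : Prop :=
  M.Slab s ∧ ∑' z, s z ≤ 1 ∧ M.InU (-1) S

/-- Conditional moments. -/
def T_GM : Prop := ∀ (M : Mod) (Low : Set M.Pt) (a : M.Fld) (c : M.Pt → List M.D → ℝ≥0∞)
  (H : Set (List M.D)) (X : Set M.Pt) (lam b : ℝ≥0∞), (∀ x γ, c x γ ≤ lam) →
  (∀ x, PF {γ | c x γ ≠ 0}) →
  (∀ x γ, c x γ ≠ 0 → x ∈ X ∧ (∀ α, α <+: γ → α ≠ γ → x + M.ds α ∈ Low → α ∈ H) ∧
    M.Tch Low H X (M.low Low x γ) a ≤ b) → ∀ k : ℕ,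
  ∫⁻ a', M.Yc c (M.mix Low a' a) ^ k ∂M.P ≤
    ∏ i ∈ Finset.range k, (M.cE Low (M.Yc c) a + i * (lam * b))

/-- The mean of the conditional weight of the first visits. -/
def T_BM : Prop := ∀ (M : Mod) (Low : Set M.Pt) (H : Set (List M.D)) (X : Set M.Pt) (x : M.Pt)
  (γ : List M.D), PC H → ∫⁻ a in M.F x γ, M.Tch Low H X (M.low Low x γ) a ∂M.P ≤
    M.w γ * M.FT H X (pts M.vec x γ)

def T_Stage : Prop := ∀ (M : Mod) (Low Low' U : Set M.Pt) (Y Y' : M.Pt → M.Fld → ℝ≥0∞)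
  (R : M.Fld → ℝ≥0∞) (χ ε t t' B : ℝ≥0∞) (k : ℕ), Low ⊆ Low' →
  (∀ u, Measurable (Y u)) → (∀ u, Measurable (Y' u)) → Measurable R →
  (∀ u ∈ U, ∀ a, Y u a ≤ Y' u a + R a ∧ Y' u a ≤ Y u a ∧ Y u a ≤ B) → B ≠ ⊤ → χ ≠ 0 → χ ≠ ⊤ →
  ε ≠ ⊤ → 1 ≤ k →
  (∀ u ∈ U, ∀ a, ∫⁻ a', Y' u (M.mix Low' a' a) ^ (k + 1) ∂M.P ≤
    ∏ i ∈ Finset.range (k + 1), (M.cE Low' (Y' u) a + i * χ)) →
  (1 + ε) * (t' + k * χ) ≤ t →
  ∫⁻ a, (⨆ u ∈ U, M.cE Low (Y u) a) - t ∂M.P ≤ ∫⁻ a, R a ∂M.P +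
    (1 + ε) * ∫⁻ a, (⨆ u ∈ U, M.cE Low' (Y u) a) - t' ∂M.P +
    ((1 + ε) ^ k)⁻¹ * ∑' u, U.indicator (fun u => ∫⁻ a, Y u a ∂M.P) u

def T_StageC : Prop := ∀ (M : Mod) (s : M.Pt → ℝ≥0∞) (S : Finset M.Pt) (b τ τ' : ℝ)
  (H : Set (List M.D)) (U : Set M.Pt) (lam r₁ r₂ bb ε t t' : ℝ≥0∞) (k : ℕ), τ ≤ τ' →
  U ⊆ M.Win b 3 → M.InU (-1) S → (∀ z, s z ≤ lam) → lam ≠ 0 → lam ≠ ⊤ → PC H →
  ∑' x, ∑' γ, M.cf s (M.Win b 4) x γ * (M.w γ *
    if ∃ α, α <+: γ ∧ α ≠ γ ∧ M.L x + M.lv α < τ' ∧ α ∉ H then 1 else 0) ≤ r₁ →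
  ∑' x, ∑' γ, M.cf s (M.Win b 4) x γ * (M.w γ * M.FT H (M.Win b 4) (pts M.vec x γ)) ≤ r₂ →
  bb ≠ 0 → bb ≠ ⊤ → ε ≠ ⊤ → 1 ≤ k → (1 + ε) * (t' + k * (lam * bb)) ≤ t →
  M.Top s S τ U t ≤ r₁ + r₂ / bb + (1 + ε) * M.Top s S τ' U t' +
    ((1 + ε) ^ k)⁻¹ * ∑' u, U.indicator (fun u => M.yc (M.cf s (M.TS S u))) u

/-- From sums over starts to sums over paths. -/
def T_Slab : Prop := ∀ (M : Mod) (s : M.Pt → ℝ≥0∞) (b : ℝ) (f : List M.D → ℝ≥0∞) (B : ℝ≥0∞),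
  M.Slab s → ∑' z, s z ≤ 1 → (∀ t : ℝ, -b - 4 < t → t ≤ -b → M.UW t f ≤ B) →
  ∑' x, ∑' γ, M.cf s (M.Win b 4) x γ * (M.w γ * f γ) ≤ 4 * B

def T_Sum : Prop := ∀ (M : Mod) (s : M.Pt → ℝ≥0∞) (S : Finset M.Pt) (b : ℝ), Ctx M s S →
  ∑' u, (M.Win b 3).indicator (fun u => M.yc (M.cf s (M.TS S u))) u ≤ S.card * (4 * M.κ⁻¹)

def T_Y : Prop := ∀ (M : Mod) (s : M.Pt → ℝ≥0∞) (S : Finset M.Pt) (w : ℝ) (y : ℝ≥0∞),
  Ctx M s S → (∀ (S' : Finset M.Pt) (t : ℝ), w - 2 ≤ t → M.InU t S' → S'.card ≤ S.card →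
    ∑ x ∈ S', M.gg x ≤ y) → ∀ u ∈ M.Win (-w - 2) 3, M.yc (M.cf s (M.TS S u)) ≤ y

def T_Tr : Prop := ∀ (M : Mod) (H : Set (List M.D)) (X : Set M.Pt) (x : M.Pt) (γ : List M.D),
  (∀ x' ∈ X, |M.L x' - M.L x| < 4) → M.FT H X (pts M.vec x γ) ≤ M.FT H M.Near (pts M.vec 0 γ)

/-- The two extreme thresholds, and the trivial bound. -/
def T_End : Prop := ∀ (M : Mod) (s : M.Pt → ℝ≥0∞) (S : Finset M.Pt) (b : ℝ) (u : M.Pt)
  (a : M.Fld), M.InU (-1) S → u ∈ M.Win b 3 →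
  M.cE (M.Lo b) (M.Yc (M.cf s (M.TS S u))) a = M.Yc (M.cf s (M.TS S u)) a ∧
  M.cE (M.Lo 1) (M.Yc (M.cf s (M.TS S u))) a = M.yc (M.cf s (M.TS S u)) ∧
  ∀ lam : ℝ≥0∞, (∀ z, s z ≤ lam) → M.Yc (M.cf s (M.TS S u)) a ≤ lam * S.card

/-- Expected number of visits to a unit window of levels. -/
def T_Vis : Prop := ∀ (M : Mod) (t t' : ℝ),
  M.UW t (fun γ => ∑' α, if α <+: γ ∧ α ≠ γ ∧ t' ≤ M.lv α ∧ M.lv α < t' + 1 then 1 else 0) ≤
    M.m1 * M.κ⁻¹ ^ 2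

def T_Time : Prop := ∀ (M : Mod) (t h : ℝ) (T : ℕ), 0 ≤ h →
  T * M.UW t (fun γ => if ∃ α, α <+: γ ∧ α ≠ γ ∧ M.lv α < h ∧ T < α.length then 1 else 0) ≤
    ENNReal.ofReal (h + 1) * (M.m1 * M.κ⁻¹ ^ 2)

def T_Bad : Prop := ∀ (M : Mod) (n : ℕ) (y t : ℝ), M.sm {γ | M.Irr γ} ≤ 1 → 0 ≤ y →
  ENNReal.ofReal y * M.UW t (fun γ => if M.Bad n y γ then 1 else 0) ≤ n * (M.m1 * M.κ⁻¹)

def T_Dec : Prop := ∀ (M : Mod) (n : ℕ) (y t : ℝ) (S : Finset M.Pt), y < t → M.InU t S →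
  ∑ x ∈ S, M.gg x ≤ M.UW t (fun γ => if M.Bad n y γ then 1 else 0) +
    ∑' α, if M.Pc n α ∧ M.lv α ≤ y then M.w α * ∑ x ∈ S, M.gg (x - M.ds α) else 0

def T_PcOp : Prop := ∀ (M : Mod) (n : ℕ) (F : M.Pt → ℝ≥0∞) (x : M.Pt),
  ∑' α, (if M.Pc n α then M.w α * F (x + M.ds α) else 0) ≤ (op M.qq)^[n] F x

def T_HP : Prop := ∀ (M : Mod) (p η : ℝ≥0∞) (t h : ℝ), (∀ h : ℝ, p ≤ M.sm {γ | M.Cross h γ}) →
  t + 1 ≤ h → M.κ * p * M.UW t (fun γ => if γ ∈ M.HP η h then 0 else 1) ≤ η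

def T_FT2 : Prop := ∀ (M : Mod) (η : ℝ≥0∞) (h : ℝ) (γ : List M.D), M.Up γ → M.lv γ + 4 ≤ h →
  η * M.FT (M.HP η h) M.Near (pts M.vec 0 γ) ≤ M.Bas h γ

def T_FT1 : Prop := ∀ (M : Mod) (η : ℝ≥0∞) (h t : ℝ) (T : ℕ), 0 ≤ h → t + 5 ≤ h →
  η * M.UW t (fun γ => M.FT (M.HP η h ∩ {α | α.length ≤ T}) M.Near (pts M.vec 0 γ)) ≤
    8 * (T + 4) * (M.m1 * M.κ⁻¹ ^ 2) ^ 2

def T_Bas1 : Prop := ∀ (M : Mod) (w : ℝ), 0 ≤ w →
  M.Th w ≤ ENNReal.ofReal (8 * (w + 4)) * (M.m1 * M.κ⁻¹ ^ 2) ^ 2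

def T_LG1 : Prop := ∀ (M : Mod) (t h : ℝ), 0 ≤ h →
  M.UW t (M.Bas h) ≤ M.κ⁻¹ ^ 2 * M.MW t fun _ _ _ => True

def T_LG2 : Prop := ∀ (M : Mod) (t : ℝ) (r : ℕ), 0 ≤ t + 1 →
  M.MW t (fun y α α' => ¬ M.Sml r y α α') ≤
    ENNReal.ofReal (16 * (t + 2)) * M.κ⁻¹ ^ 2 * (M.m1 * M.mt r)

def T_LG3 : Prop := ∀ (M : Mod) (t v : ℝ) (r : ℕ), 0 ≤ t + 1 → 0 ≤ v →
  M.κ ^ (8 * r + 2) * M.GG v * M.MW t (M.Sml r) ≤
    ENNReal.ofReal (8 * (t + v + 4 * r + 3)) * M.κ⁻¹ ^ 2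

def T_LG : Prop := ∀ M : Mod, M.m1 ≠ ⊤ → ∑' x, M.gg x ^ 2 = ⊤ →
  Tendsto (fun w : ℕ => ENNReal.ofReal (w : ℝ)⁻¹ * M.Th w) atTop (𝓝 0)

def T_ACR : Prop := ∀ M : Mod, M.Pcs 3 → M.sm {γ | M.Irr γ} ≤ 1 → M.m1 ≠ ⊤ →
  ∀ η : ℝ≥0∞, η ≠ 0 → ∃ C : ℝ, 0 < C ∧ M.AC3 η fun w => C / w

def T_ACT : Prop := ∀ M : Mod, M.sm {γ | M.Irr γ} ≤ 1 → M.m1 ≠ ⊤ → ∑' x, M.gg x ^ 2 ≠ ⊤ →
  ∀ η : ℝ≥0∞, η ≠ 0 → ∃ f : ℕ → ℝ, Tendsto f atTop (𝓝 0) ∧ M.AC3 η fun w => f w / w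

def T_Rate : Prop := ∀ M : Mod, M.Pcs 3 → M.sm {γ | M.Irr γ} ≤ 1 → M.m1 ≠ ⊤ →
  ∀ η : ℝ≥0∞, η ≠ 0 → ∃ r : ℕ → ℝ, (∀ w, 0 < r w) ∧
    (∀ K : ℕ, ∃ A : ℝ, ∀ w w', 1 ≤ w → 1 ≤ w' → w' ≤ K * w → r w ≤ A * r w') ∧
    Tendsto r atTop (𝓝 0) ∧ Tendsto (fun w : ℕ => ENNReal.ofReal (r w) * M.Th w) atTop (𝓝 0) ∧
    M.AC3 η r

def T_M1 : Prop := ∀ (M : Mod) (c N : ℝ) (p : ℝ≥0∞), 0 < c → 0 ≤ N → p ≠ 0 →
  (∀ h : ℝ, p ≤ M.sm {γ | M.Cross h γ ∧ M.HH (fun n => n / c) N γ}) →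
  M.sm {γ | M.Irr γ} ≤ 1 → M.m1 ≠ ⊤

/-- A block of steps is nearly invariant under small shifts in one direction. -/
def T_LR1 : Prop := ∀ (Pt : Type) [AddCommGroup Pt] (q : Pt → ℝ≥0∞) (ε₀ : ℝ≥0∞) (g h : Pt),
  ε₀ ≠ 0 → h ≠ 0 → ∑' v, q v ≤ 1 → ε₀ ≤ q g → ε₀ ≤ q (g + h) → ∃ c : ℝ, 0 < c ∧
    ∀ (ε : ℝ) (m ρ : ℕ), 0 < ε → ε ≤ 1 → 1 ≤ ρ → (ρ : ℝ) ≤ c * ε ^ 2 * √m →
      ∃ A D : Pt → ℝ≥0∞, ∑' v, D v ≤ ENNReal.ofReal ε ∧ ∀ (F : Pt → ℝ≥0∞) (x : Pt),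
        (op q)^[m] F x = op A F x + op D F x ∧
        ∀ s : ℤ, |s| ≤ ρ → op A F x ≤ ENNReal.ofReal (1 + ε) * (op q)^[m] F (x + s • h)

def T_LR3 : Prop := ∀ (Pt : Type) [AddCommGroup Pt] (q : Pt → ℝ≥0∞) (ε₀ : ℝ≥0∞) (g : Pt)
  (h : Fin 3 → Pt), ε₀ ≠ 0 → (∀ j, h j ≠ 0) → ∑' v, q v ≤ 1 → ε₀ ≤ q g →
  (∀ j, ε₀ ≤ q (g + h j)) → ∃ c : ℝ, 0 < c ∧
    ∀ (ε : ℝ) (m ρ : ℕ), 0 < ε → ε ≤ 1 → 1 ≤ ρ → (ρ : ℝ) ≤ c * ε ^ 2 * √m →
      ∃ D : Pt → ℝ≥0∞, ∑' v, D v ≤ 3 * ENNReal.ofReal ε ∧ ∀ (F : Pt → ℝ≥0∞) (x : Pt)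
        (s : Fin 3 → ℤ), (∀ j, |s j| ≤ ρ) → (op q)^[3 * m] F x ≤
          ENNReal.ofReal (1 + ε) ^ 3 * (op q)^[3 * m] F (x + ∑ j, s j • h j) + op D F x

def T_Grid : Prop := ∀ (M : Mod) (h : Fin 3 → M.Pt),
  Function.Injective (fun s : Fin 3 → ℤ => ∑ j, s j • h j) → (∀ j, |M.L (h j)| ≤ 1) →
  (∃ j, h j = M.vec M.u) → ∀ (b : ℝ) (ρ : ℕ) (f : M.Pt → ℝ≥0∞), 1 ≤ ρ →
  ∃ U, U ⊆ M.Win b 3 ∧ ρ ^ 2 * ∑' u, U.indicator f u ≤ ∑' u, (M.Win b 3).indicator f u ∧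
    ∀ u ∈ M.Win b 3, ∃ s : Fin 3 → ℤ, (∀ j, |s j| ≤ 2 * ((ρ : ℤ) - 1)) ∧ u + ∑ j, s j • h j ∈ U

/-- The conditional weight of a start in terms of its first pieces. -/
def T_Zn : Prop := ∀ (M : Mod) (s : M.Pt → ℝ≥0∞) (τ y : ℝ) (n : ℕ) (a : M.Fld) (x : M.Pt),
  τ ≤ 0 → ∀ Ψ : M.Pt → ℝ≥0∞,
  (Ψ = fun v => ∑' β, M.cf s {v | M.L v ≤ τ} v β * M.Pm (M.Lo τ) v β a) →
  (op M.qq)^[n] Ψ x ≤ ∑' γ, M.cf s Set.univ x γ * M.Pm (M.Lo τ) x γ a ∧
  (M.L x + y ≤ τ → ∑' γ, M.cf s Set.univ x γ * M.Pm (M.Lo τ) x γ a ≤ (op M.qq)^[n] Ψ x +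
    ∑' γ, M.cf s Set.univ x γ * (M.Pm (M.Lo τ) x γ a * if M.Bad n y γ then 1 else 0))

def T_Sm : Prop := ∀ M : Mod, M.Pcs 3 → M.sm {γ | M.Irr γ} ≤ 1 → ∃ c : ℝ, 0 < c ∧
  ∀ (s : M.Pt → ℝ≥0∞) (S : Finset M.Pt) (b h ε : ℝ) (m ρ : ℕ) (f : M.Pt → ℝ≥0∞) (t t' : ℝ≥0∞),
  Ctx M s S → 0 < ε → ε ≤ 1 → 2 ≤ ρ → 2 * ((ρ : ℝ) - 1) ≤ c * ε ^ 2 * √m → 4 < h → b + h ≤ 0 →
  ENNReal.ofReal (1 + ε) ^ 3 * t' ≤ t →
  ∃ U, U ⊆ M.Win b 3 ∧ ρ ^ 2 * ∑' u, U.indicator f u ≤ ∑' u, (M.Win b 3).indicator f u ∧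
    M.Top s S (b + h) (M.Win b 3) t ≤ ENNReal.ofReal (1 + ε) ^ 3 * M.Top s S (b + h) U t' +
      12 * m * (M.m1 * M.κ⁻¹) / ENNReal.ofReal (h - 4) + 12 * ENNReal.ofReal ε * M.κ⁻¹

def T_Red : Prop := ∀ M : Mod, M.Pcs 3 → M.sm {γ | M.Irr γ} ≤ 1 → M.m1 ≠ ⊤ → ∃ C : ℝ, 0 < C ∧
  ∀ (s : M.Pt → ℝ≥0∞) (S : Finset M.Pt) (b h ε : ℝ) (t t' : ℝ≥0∞),
  Ctx M s S → 0 < ε → ε ≤ 1 → 0 ≤ h → b + h ≤ 0 → ENNReal.ofReal (1 + ε) ^ 3 * t' ≤ t →
  ∃ U, U ⊆ M.Win b 3 ∧ ∑' u, U.indicator (fun u => M.yc (M.cf s (M.TS S u))) u ≤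
      ENNReal.ofReal (C * S.card / (ε ^ 5 * max h 1)) ∧
    M.Top s S (b + h) (M.Win b 3) t ≤ ENNReal.ofReal (1 + ε) ^ 3 * M.Top s S (b + h) U t' +
      ENNReal.ofReal (C * ε)

def T_One : Prop := ∀ (M : Mod) (p : ℝ≥0∞), M.Pcs 3 → M.Bal p → ∃ C : ℝ, 0 < C ∧
  ∀ (s : M.Pt → ℝ≥0∞) (S : Finset M.Pt) (w lam A ε h h' : ℝ) (t t' : ℝ≥0∞),
  Ctx M s S → (∀ z, s z ≤ ENNReal.ofReal lam) → 0 < lam → lam * S.card ≤ A → 1 ≤ A →
  0 < ε → ε ≤ 1 / 4 → 0 ≤ h → h ≤ h' → 1 ≤ h' → h' ≤ 256 * max h 1 → h' ≤ w → lam * h' = ε ^ 8 →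
  ENNReal.ofReal (1 + ε) ^ 4 * (t' + ENNReal.ofReal (2 * ε ^ 2)) ≤ t →
  M.Top s S (-w - 2 + h) (M.Win (-w - 2) 3) t ≤
    ENNReal.ofReal (1 + ε) ^ 4 * M.Top s S (-w - 2 + h') (M.Win (-w - 2) 3) t' +
      ENNReal.ofReal (C * A * ε)

def T_TopS : Prop := ∀ (M : Mod) (p : ℝ≥0∞), M.Pcs 3 → M.Bal p → ∃ C : ℝ, 0 < C ∧
  ∀ (s : M.Pt → ℝ≥0∞) (S : Finset M.Pt) (w lam A ε h : ℝ) (t y : ℝ≥0∞),
  Ctx M s S → (∀ z, s z ≤ ENNReal.ofReal lam) → 0 < lam → lam * S.card ≤ A → 1 ≤ A →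
  0 < ε → ε ≤ 1 / 4 → 1 ≤ h → h ≤ w → lam * h = ε ^ 8 →
  ENNReal.ofReal lam * M.Th w ≤ ENNReal.ofReal (ε ^ 7) →
  (∀ u ∈ M.Win (-w - 2) 3, M.yc (M.cf s (M.TS S u)) ≤ y) →
  ENNReal.ofReal (1 + ε) ^ 4 * (y + ENNReal.ofReal (2 * ε ^ 2)) ≤ t →
  M.Top s S (-w - 2 + h) (M.Win (-w - 2) 3) t ≤ ENNReal.ofReal (C * A * ε)

def T_Chain : Prop := ∀ (M : Mod) (p : ℝ≥0∞), M.Pcs 3 → M.Bal p → ∃ C : ℝ, 0 < C ∧
  ∀ (s : M.Pt → ℝ≥0∞) (S : Finset M.Pt) (w lam A ε h : ℝ) (y : ℝ≥0∞),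
  Ctx M s S → (∀ z, s z ≤ ENNReal.ofReal lam) → 0 < lam → lam * S.card ≤ A → 1 ≤ A →
  0 < ε → ε ≤ 1 / 40 → 1 ≤ h → h ≤ w → lam * h = ε ^ 8 →
  ENNReal.ofReal lam * M.Th w ≤ ENNReal.ofReal (ε ^ 7) →
  (∀ u ∈ M.Win (-w - 2) 3, M.yc (M.cf s (M.TS S u)) ≤ y) →
  ∫⁻ a, (⨆ u ∈ M.Win (-w - 2) 3, M.Yc (M.cf s (M.TS S u)) a) - 2 * (y + ENNReal.ofReal ε) ∂M.P ≤
    ENNReal.ofReal (C * A * ε)

def T_Set3 : Prop := ∀ (M : Mod) (G : Set (List M.D)) (s : M.Pt → ℝ≥0∞) (S : Finset M.Pt) (w : ℝ)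
  (t B e : ℝ≥0∞) (J : ℕ), 1 ≤ w →
  (∀ γ ∈ G, M.Cross w γ ∧ ∃ γ', M.Up γ' ∧ γ = γ' ++ [M.u]) → M.Slab s →
  (∀ u ∈ M.Win (-w - 2) 3, ∀ a, M.Yc (M.cf s (M.TS S u)) a ≤ B) →
  ∫⁻ a, (⨆ u ∈ M.Win (-w - 2) 3, M.Yc (M.cf s (M.TS S u)) a) - t ∂M.P ≤ e → 1 ≤ J →
  ∑ z' ∈ S, ∑' z, s z * M.Qk G z z' ≤ 3 * M.κ⁻¹ * t + J * e + 18 * M.κ⁻¹ ^ 2 * B / J

def T_G3 : Prop := ∀ (M : Mod) (p : ℝ≥0∞), M.Bal p → ∃ C : ℝ≥0∞, C ≠ ⊤ ∧ ∀ w : ℕ, 1 ≤ w →
  ∃ G : Set (List M.D), (∀ γ ∈ G, M.Cross w γ ∧ ∃ γ', M.Up γ' ∧ γ = γ' ++ [M.u]) ∧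
    M.κ * p / 2 ≤ M.sm G ∧ ∀ (s : M.Pt → ℝ≥0∞) (lam : ℝ≥0∞), M.Slab s → (∀ z, s z ≤ lam) →
      M.Mom G s (lam * (C * (M.Th w + 1)))

def T_WL3 : Prop := ∀ (M : Mod) (p β : ℝ≥0∞), M.Pcs 3 → M.Bal p → β ≠ 0 →
  (∀ h : ℝ, β ≤ M.neg.sm {δ | M.neg.Cross h δ}) → M.WLr

def T_Core3 : Prop := ∀ M : Mod, M.WLr → M.Init → False

end Pool.Agent.MP_db8016_pr.BZ

end

section

/-! From sums over starts to sums over paths. -/

namespace Pool.Agent.MP_db8016_pr.BZ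
open MeasureTheory ProbabilityTheory Filter Topology
open scoped ENNReal Classical

namespace Easy1Aux3

lemma key (M : Mod) (s : M.Pt → ℝ≥0∞) (T : Set M.Pt) (f : List M.D → ℝ≥0∞) (B : ℝ≥0∞)
    (h1 : ∑' z, s z ≤ 1) (h : ∀ z, s z ≠ 0 →
      ∑' γ, (if M.Up γ ∧ -(z + M.ds γ) ∈ T then M.w γ * f γ else 0) ≤ B) :
    ∑' x, ∑' γ, M.cf s T x γ * (M.w γ * f γ) ≤ B := by
  rw [ENNReal.tsum_comm]
  calc _ ≤ ∑' γ, ∑' z, s z * if M.Up γ ∧ -(z + M.ds γ) ∈ T then M.w γ * f γ else 0 := by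
        refine ENNReal.tsum_le_tsum fun γ => ?_
        rw [← ((Equiv.addRight (M.ds γ)).trans (Equiv.neg _)).tsum_eq]
        refine ENNReal.tsum_le_tsum fun z => ?_
        change M.cf s T (-(z + M.ds γ)) γ * _ ≤ _
        have e : -(-(z + M.ds γ) + M.ds γ) = z := by abel
        unfold Mod.cf
        by_cases c : -(z + M.ds γ) ∈ T ∧ M.FP (-(z + M.ds γ)) γ
        · rw [if_pos c, if_pos ⟨c.2.1, c.1⟩, e]
        · rw [if_neg c, zero_mul]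
          exact zero_le
    _ ≤ ∑' z, s z * B := by
        rw [ENNReal.tsum_comm]
        refine ENNReal.tsum_le_tsum fun z => ?_
        rw [ENNReal.tsum_mul_left]
        by_cases c : s z = 0
        · rw [c, zero_mul, zero_mul]
        · exact mul_le_mul_right (h z c) _
    _ ≤ B := by
        rw [ENNReal.tsum_mul_right]
        exact (mul_le_mul_left h1 B).trans_eq (one_mul B)

end Easy1Aux3

theorem t_slab : T_Slab := by
  intro M s b f B hs h1 hB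
  refine Easy1Aux3.key M s _ f _ h1 fun z hz => ?_
  obtain ⟨z1, z2⟩ := hs z hz
  calc _ ≤ ∑ i ∈ Finset.range 4, M.UW (-M.L z - b - 4 + i) f := by
        unfold Mod.UW
        rw [← Summable.tsum_finsetSum fun _ _ => ENNReal.summable]
        refine ENNReal.tsum_le_tsum fun γ => ?_
        by_cases c : M.Up γ ∧ -(z + M.ds γ) ∈ M.Win b 4
        · obtain ⟨c1, c2, c3⟩ := c
          have c' : M.Up γ ∧ -(z + M.ds γ) ∈ M.Win b 4 := ⟨c1, c2, c3⟩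
          rw [map_neg, map_add] at c2 c3
          change _ < -(M.L z + M.lv γ) at c2
          change -(M.L z + M.lv γ) ≤ _ at c3
          have h0 : 0 ≤ M.lv γ - (-M.L z - b - 4) := by linarith
          have hi : ⌊M.lv γ - (-M.L z - b - 4)⌋₊ ∈ Finset.range 4 :=
            Finset.mem_range.2 ((Nat.floor_lt h0).2 (by push_cast; linarith))
          refine le_trans ?_ (Finset.single_le_sum (fun _ _ => zero_le) hi)
          rw [if_pos c', if_pos ⟨c1, by linarith [Nat.floor_le h0],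
            by linarith [Nat.lt_floor_add_one (M.lv γ - (-M.L z - b - 4))]⟩]
        · rw [if_neg c]
          exact zero_le
    _ ≤ ∑ i ∈ Finset.range 4, B := by
        refine Finset.sum_le_sum fun i hi => ?_
        have i3 : (i : ℝ) ≤ 3 := by exact_mod_cast Nat.lt_succ_iff.1 (Finset.mem_range.1 hi)
        have i0 : (0 : ℝ) ≤ i := Nat.cast_nonneg i
        exact hB _ (by linarith) (by linarith)
    _ = 4 * B := by simp

theorem t_sum : T_Sum := by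
  rintro M s S b ⟨hs, h1, hS⟩
  have hc : ∀ x : M.Pt, ∑' u, (if u - x ∈ S then 1 else 0 : ℝ≥0∞) = S.card := fun x => by
    rw [show ∑' u, (if u - x ∈ S then 1 else 0 : ℝ≥0∞) = ∑' v, if v ∈ S then 1 else 0 from
      (Equiv.subRight x).tsum_eq fun v => if v ∈ S then (1 : ℝ≥0∞) else 0,
      tsum_eq_sum (s := S) fun v hv => if_neg hv, Finset.sum_congr rfl fun v hv => if_pos hv]
    simp
  calc _ ≤ ∑' u, ∑' x, (if u - x ∈ S then 1 else 0 : ℝ≥0∞) *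
        ∑' γ, M.cf s (M.Win b 4) x γ * (M.w γ * 1) := by
        refine ENNReal.tsum_le_tsum fun u => ?_
        by_cases hu : u ∈ M.Win b 3
        · rw [Set.indicator_of_mem hu]
          refine ENNReal.tsum_le_tsum fun x => ?_
          rw [← ENNReal.tsum_mul_left]
          refine ENNReal.tsum_le_tsum fun γ => ?_
          unfold Mod.cf
          by_cases c : x ∈ M.TS S u ∧ M.FP x γ
          · have c1 : u - x ∈ S := c.1
            obtain ⟨e1, e2⟩ := hS _ c1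
            rw [map_sub] at e1 e2
            have c2 : x ∈ M.Win b 4 := ⟨by linarith [hu.1], by linarith [hu.2]⟩
            rw [if_pos c, if_pos c1, if_pos ⟨c2, c.2⟩, one_mul, mul_one]
          · rw [if_neg c, zero_mul]
            exact zero_le
        · rw [Set.indicator_of_notMem hu]
          exact zero_le
    _ = S.card * ∑' x, ∑' γ, M.cf s (M.Win b 4) x γ * (M.w γ * 1) := by
        rw [ENNReal.tsum_comm, ← ENNReal.tsum_mul_left]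
        refine tsum_congr fun x => ?_
        rw [ENNReal.tsum_mul_right, hc]
    _ ≤ _ := mul_le_mul_right (t_slab M s b (fun _ => 1) _ hs h1 fun t _ _ => Mod.UW_one t) _

theorem t_y : T_Y := by
  rintro M s S w y ⟨hs, h1, hS⟩ hy u hu
  have e : M.yc (M.cf s (M.TS S u)) = ∑' x, ∑' γ, M.cf s (M.TS S u) x γ * (M.w γ * 1) := by
    simp only [Mod.yc, mul_one]
  rw [e]
  refine Easy1Aux3.key M s _ (fun _ => 1) _ h1 fun z hz => le_trans ?_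
    (hy (S.image fun z' => z' - u - z) (-1 - M.L u - M.L z) (by linarith [hu.2, (hs z hz).2])
      (fun x hx => ?_) Finset.card_image_le)
  · unfold Mod.gg Mod.sm
    rw [← Summable.tsum_finsetSum fun _ _ => ENNReal.summable]
    refine ENNReal.tsum_le_tsum fun γ => ?_
    by_cases c : M.Up γ ∧ -(z + M.ds γ) ∈ M.TS S u
    · have hi : M.ds γ ∈ S.image fun z' => z' - u - z :=
        Finset.mem_image.2 ⟨_, c.2, by abel⟩
      refine le_trans ?_ (Finset.single_le_sum (fun _ _ => zero_le) hi)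
      rw [if_pos c, mul_one, Set.indicator_of_mem (by exact ⟨c.1, rfl⟩)]
    · rw [if_neg c]
      exact zero_le
  · obtain ⟨z', h', rfl⟩ := Finset.mem_image.1 hx
    obtain ⟨e1, e2⟩ := hS _ h'
    rw [map_sub, map_sub]
    constructor <;> linarith

end Pool.Agent.MP_db8016_pr.BZ

end

section

/-! Translation of first visits and the extreme thresholds. -/

namespace Pool.Agent.MP_db8016_pr.BZ
open MeasureTheory ProbabilityTheory Filter Topology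
open scoped ENNReal Classical

theorem t_tr : T_Tr := by
  intro M H X x γ hX
  unfold Mod.FT
  rw [← (Equiv.addLeft x).tsum_eq]
  refine ENNReal.tsum_le_tsum fun y => ENNReal.tsum_le_tsum fun α => ?_
  simp only [Equiv.coe_addLeft]
  split_ifs with h1 h2
  · exact le_rfl
  · refine absurd ⟨?_, h1.2.1, ?_, Finset.disjoint_left.2 fun z a1 a2 => ?_⟩ h2
    · have := hX _ h1.1
      rwa [map_add, add_sub_cancel_left] at this
    · have := (mem_pts_shift M.vec).1 h1.2.2.1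
      rwa [add_assoc, add_sub_cancel_left] at this
    · refine Finset.disjoint_left.1 h1.2.2.2 (show x + z ∈ _ from (mem_pts_shift M.vec).2 ?_)
        ((mem_pts_shift M.vec).2 ?_)
      · rwa [add_sub_cancel_left]
      · rw [add_sub_add_left_eq_sub]
        exact (mem_pts_shift M.vec).1 a2
  · exact zero_le
  · exact le_rfl

theorem t_end : T_End := by
  intro M s S b u a hS hu
  refine ⟨?_, ?_, fun lam hl => ?_⟩
  · rw [M.cE_Yc]
    refine tsum_congr fun x => tsum_congr fun γ => ?_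
    unfold Mod.cf
    split_ifs with h
    · rw [M.Pm_high fun z hz h1 => ?_]
      obtain ⟨α, a1, -, rfl⟩ := M.mem_pts.1 hz
      have h2 := h.2.1.1 α a1
      have h3 := (hS _ h.1).2
      have h4 := hu.1
      have h5 : M.L (x + M.ds α) < b := h1
      rw [map_sub] at h3
      rw [map_add] at h5
      unfold Mod.lv at h2
      linarith
    · rw [zero_mul, zero_mul]
  · rw [M.cE_Yc]
    refine tsum_congr fun x => tsum_congr fun γ => ?_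
    unfold Mod.cf
    split_ifs with h
    · rw [M.Pm_low fun z hz => ?_]
      obtain ⟨α, a1, a2, rfl⟩ := M.mem_pts.1 hz
      have h2 := h.2.2.1 α a1 a2
      change M.L (x + M.ds α) < 1
      rw [map_add]
      unfold Mod.lv at h2
      linarith
    · rw [zero_mul, zero_mul]
  · have h1 : ∀ x, ∑' γ, M.cf s (M.TS S u) x γ * (M.F x γ).indicator 1 a ≤
        if u - x ∈ S then lam else 0 := fun x => by
      by_cases h : ∃ γ, (x ∈ M.TS S u ∧ M.FP x γ) ∧ a ∈ M.F x γ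
      · obtain ⟨γ, h2, h3⟩ := h
        rw [tsum_eq_single γ fun γ' hγ => ?_, if_pos (show u - x ∈ S from h2.1), Mod.cf, if_pos h2,
          Set.indicator_of_mem h3, Pi.one_apply, mul_one]
        · exact hl _
        · unfold Mod.cf
          split_ifs with h4
          · rw [Set.indicator_of_notMem fun h5 =>
              hγ (Mod.eq_of_mem_F (M.pf_FP x) h4.2 h2.2 h5 h3), mul_zero]
          · exact zero_mul _
      · refine le_trans (le_of_eq (ENNReal.tsum_eq_zero.2 fun γ => ?_)) zero_le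
        unfold Mod.cf
        split_ifs with h4
        · rw [Set.indicator_of_notMem fun h5 => h ⟨γ, h4, h5⟩, mul_zero]
        · exact zero_mul _
    refine (ENNReal.tsum_le_tsum h1).trans (le_of_eq ?_)
    rw [show (∑' x, if u - x ∈ S then lam else 0) = ∑' z, if z ∈ S then lam else 0 from
      (Equiv.subLeft u).tsum_eq fun z => if z ∈ S then lam else 0,
      tsum_eq_sum (s := S) fun z hz => if_neg hz, Finset.sum_congr rfl fun z hz => if_pos hz,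
      Finset.sum_const, nsmul_eq_mul, mul_comm]

end Pool.Agent.MP_db8016_pr.BZ

end

section

/-! The good paths of a window and their moments. -/

namespace Pool.Agent.MP_db8016_pr.BZ
open MeasureTheory
open scoped ENNReal Classical

namespace G3Aux3

variable {M : Mod}

lemma cross {w : ℝ} (hw : 1 ≤ w) {γ : List M.D} (h : M.Cross (w - 1) γ) :
    M.Cross w (γ ++ [M.u]) := by
  have e : M.lv (γ ++ [M.u]) = M.lv γ + 1 := by simp [M.hu]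
  have k : ∀ α, α <+: γ ++ [M.u] → α ≠ γ ++ [M.u] → α <+: γ := fun α h1 h2 =>
    (List.prefix_concat_iff.1 h1).resolve_left h2
  refine ⟨fun α h1 => ?_, by linarith [h.2.1], fun α h1 h2 => ?_⟩
  · by_cases h2 : α = γ ++ [M.u]
    · rw [h2, e]
      linarith [h.2.1]
    · exact h.1 α (k α h1 h2)
  · by_cases h3 : α = γ
    · rw [h3]
      linarith [h.lv_lt (by linarith)]
    · linarith [h.2.2 α (k α h1 h2) h3]

lemma mass (h : ℝ) :
    M.κ * M.sm {γ | M.Cross h γ} ≤ M.sm {γ | ∃ γ', M.Cross h γ' ∧ γ = γ' ++ [M.u]} := by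
  refine le_trans ?_ (Mod.tsum_le_sm (fun γ : {γ | M.Cross h γ} => γ.1 ++ [M.u])
    (fun a b e => Subtype.ext (List.append_cancel_right e)) fun γ => ⟨γ.1, γ.2, rfl⟩)
  rw [Mod.sm_eq_tsum, ← ENNReal.tsum_mul_left]
  exact ENNReal.tsum_le_tsum fun γ => by simpa using M.w_append_ge γ.1 [M.u]

lemma lose {w : ℝ} (hw : 0 ≤ w) {G : Set (List M.D)} (hG : ∀ γ ∈ G, M.Cross w γ)
    (A B : List M.D → Prop) [DecidablePred A] [DecidablePred B] : M.sm G ≤ M.sm {γ | γ ∈ G ∧ A γ ∧ B γ} +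
      (M.UW w (fun γ => if A γ then 0 else 1) + M.UW w fun γ => if B γ then 0 else 1) := by
  rw [← Mod.UW_add, Mod.sm, Mod.sm, Mod.UW, ← ENNReal.tsum_add]
  refine ENNReal.tsum_le_tsum fun γ => ?_
  by_cases h : γ ∈ G
  · rw [Set.indicator_of_mem h, if_pos ⟨(hG γ h).up, (hG γ h).2.1, (hG γ h).lv_lt hw⟩]
    by_cases a : A γ
    · by_cases b : B γ
      · rw [Set.indicator_of_mem (by exact ⟨h, a, b⟩)]
        exact le_self_add
      · rw [if_pos a, if_neg b, zero_add, mul_one]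
        exact le_add_self
    · rw [if_neg a, mul_add, mul_one]
      exact le_add_left le_self_add
  · rw [Set.indicator_of_notMem h]
    exact zero_le

lemma mom (hG : T_GM) (hT : T_Tr) {w : ℝ} (hw : 0 ≤ w) {G H : Set (List M.D)} {b : ℝ≥0∞}
    (hH : PC H) (h : ∀ γ ∈ G, M.Cross w γ ∧ γ ∈ H ∧ M.FT H M.Near (pts M.vec 0 γ) ≤ b)
    {s : M.Pt → ℝ≥0∞} {lam : ℝ≥0∞} (hs : M.Slab s) (hl : ∀ z, s z ≤ lam) :
    M.Mom G s (lam * b) := by
  intro T k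
  obtain ⟨a⟩ : Nonempty M.Fld := M.P.nonempty_of_neZero
  set c : M.Pt → List M.D → ℝ≥0∞ := fun x γ => if x ∈ T ∧ γ ∈ G then s (-(x + M.ds γ)) else 0
    with hc
  have c0 : ∀ x γ, c x γ ≠ 0 → γ ∈ G ∧ s (-(x + M.ds γ)) ≠ 0 := fun x γ e => by
    by_cases h1 : x ∈ T ∧ γ ∈ G
    · exact ⟨h1.2, by simpa only [hc, if_pos h1] using e⟩
    · exact absurd (if_neg h1) e
  have e1 : M.Yc c = M.Yf G s T := by
    funext a
    simp only [Mod.Yc, Mod.Yf, hc, ite_mul, zero_mul]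
  have e2 : M.cE Set.univ (M.Yc c) a = M.yb G s T := by
    simp only [Mod.cE, Mod.mix_univ, Mod.lintegral_Yc, Mod.yc, Mod.yb, hc, ite_mul, zero_mul]
  have key := hG M Set.univ a c H (M.Win (-w - 1) 2) lam b (fun x γ => ?_)
    (fun x => (M.pf_cross w).mono fun γ e => (h γ (c0 x γ e).1).1) (fun x γ e => ?_) k
  · rw [e2, e1] at key
    simpa only [Mod.mix_univ] using key
  · simp only [hc]
    split_ifs
    exacts [hl _, zero_le]
  · obtain ⟨g1, g2⟩ := c0 x γ e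
    obtain ⟨h1, h2, h3⟩ := h γ g1
    have h4 := hs _ g2
    have h5 := h1.lv_lt hw
    have h6 := h1.2.1
    rw [map_neg, map_add] at h4
    unfold Mod.lv at h5 h6
    have hx : x ∈ M.Win (-w - 1) 2 := ⟨by linarith [h4.2], by linarith [h4.1]⟩
    refine ⟨hx, fun α a1 _ _ => hH γ h2 α a1, le_trans (le_of_eq ?_)
      ((hT M H (M.Win (-w - 1) 2) x γ fun x' hx' => ?_).trans h3)⟩
    · have e3 : M.low Set.univ x γ = pts M.vec x γ := by
        ext z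
        simp [Mod.low]
      simp only [Mod.Tch, Mod.FT, e3, M.Pm_low fun _ _ => Set.mem_univ _]
    · rw [abs_lt]
      constructor <;> linarith [hx.1, hx.2, hx'.1, hx'.2]

end G3Aux3

open G3Aux3 in
theorem t_g3 (hG : T_GM) (hH : T_HP) (hF : T_FT2) (hT : T_Tr) : T_G3 := by
  intro M p hp
  set q := M.κ * p with hq
  have q0 : q ≠ 0 := mul_ne_zero M.hκ hp.1
  have q1 : q ≠ ⊤ := ne_top_of_le_ne_top ENNReal.one_ne_top
    (mul_le_one' M.κ_le_one ((hp.2.1 0).trans (Mod.sm_le_one (M.pf_cross 0))))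
  set r := q / 2 / 2 with hr
  have r0 : r ≠ 0 := ENNReal.div_ne_zero.2
    ⟨ENNReal.div_ne_zero.2 ⟨q0, ENNReal.ofNat_ne_top⟩, ENNReal.ofNat_ne_top⟩
  have r1 : r ≠ ⊤ := ENNReal.div_ne_top (ENNReal.div_ne_top q1 two_ne_zero) two_ne_zero
  have e0 : q * r * r ≠ 0 := mul_ne_zero (mul_ne_zero q0 r0) r0
  have e1 : q * r * r ≠ ⊤ := ENNReal.mul_ne_top (ENNReal.mul_ne_top q1 r1) r1
  refine ⟨(q * r * r)⁻¹, ENNReal.inv_ne_top.2 e0, fun w hw => ?_⟩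
  have w1 : (1 : ℝ) ≤ w := by exact_mod_cast hw
  set b := (q * r * r)⁻¹ * (M.Th w + 1) with hb
  set H := M.HP (q * r) (w + 7) with hH'
  have hc : ∀ γ ∈ {γ | ∃ γ', M.Cross ((w : ℝ) - 1) γ' ∧ γ = γ' ++ [M.u]}, M.Cross w γ := by
    rintro _ ⟨γ', h, rfl⟩
    exact cross w1 h
  refine ⟨{γ | γ ∈ {γ | ∃ γ', M.Cross ((w : ℝ) - 1) γ' ∧ γ = γ' ++ [M.u]} ∧ γ ∈ H ∧
    M.FT H M.Near (pts M.vec 0 γ) ≤ b}, fun γ h => ⟨hc γ h.1, h.1.imp fun γ' c => ⟨c.1.up, c.2⟩⟩,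
    ?_, fun s lam hs hl => mom hG hT (w := w) (H := H) (by linarith)
      (fun γ h β h1 α h2 => h α (h2.trans h1)) (fun γ h => ⟨hc γ h.1, h.2⟩) hs hl⟩
  have l1 : M.UW w (fun γ => if γ ∈ H then 0 else 1) ≤ r :=
    (ENNReal.mul_le_mul_iff_right q0 q1).1 (hH M p (q * r) w (w + 7) hp.2.1 (by linarith))
  have l2 : M.UW w (fun γ => if M.FT H M.Near (pts M.vec 0 γ) ≤ b then 0 else 1) ≤ r := by
    by_cases ht : M.Th w = ⊤
    · have : b = ⊤ := by rw [hb, ht, top_add, ENNReal.mul_top (ENNReal.inv_ne_zero.2 e1)]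
      simp [this, Mod.UW]
    have t0 : M.Th w + 1 ≠ 0 := by simp
    have t1 : M.Th w + 1 ≠ ⊤ := ENNReal.add_ne_top.2 ⟨ht, ENNReal.one_ne_top⟩
    have eb : M.Th w + 1 = r * (q * r * b) := by
      rw [hb, ← mul_assoc, ← mul_assoc, mul_comm r, ENNReal.mul_inv_cancel e0 e1, one_mul]
    refine (ENNReal.mul_le_mul_iff_right t0 t1).1 ?_
    rw [← Mod.UW_mul]
    calc _ ≤ M.UW w fun γ => r * M.Bas (w + 7) γ := by
          refine Mod.UW_mono _ fun γ g1 _ g3 => ?_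
          split_ifs with g
          · simp
          · rw [mul_one, eb]
            exact mul_le_mul_right ((mul_le_mul_right (not_le.1 g).le _).trans
              (hF M _ _ γ g1 (by linarith))) _
      _ ≤ r * M.Th w := by
          rw [Mod.UW_mul]
          exact mul_le_mul_right (le_iSup₂_of_le (f := fun (t : ℝ) (_ : t ≤ (w : ℝ) + 2) =>
            M.UW t (M.Bas (w + 7))) w (by linarith) le_rfl) _
      _ ≤ _ := by
          rw [mul_comm]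
          exact mul_le_mul_left le_self_add _
  have l3 := ((mul_le_mul_right (hp.2.1 _) M.κ).trans (mass ((w : ℝ) - 1))).trans
    ((lose (by linarith) hc (fun γ => γ ∈ H) fun γ => M.FT H M.Near (pts M.vec 0 γ) ≤ b).trans
      (add_le_add_right (add_le_add l1 l2) _))
  rw [hr, ENNReal.add_halves, ← hq] at l3
  refine (ENNReal.add_le_add_iff_right (ENNReal.div_ne_top q1 two_ne_zero)).1 ?_
  rwa [ENNReal.add_halves]

end Pool.Agent.MP_db8016_pr.BZ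

end

section

/-! A sparse family of lines that meets every box. -/

namespace Pool.Agent.MP_db8016_pr.BZ
open MeasureTheory ProbabilityTheory Filter Topology
open scoped ENNReal Classical

namespace GridAux3

theorem coord {A G : Type} [AddCommGroup A] [AddCommGroup G] (φ : A →+ G)
    (hφ : Function.Injective φ) : ∃ c : G → A, ∀ u s, c (u + φ s) = c u + s := by
  have h1 : ∀ u : G, ∃ s, φ s = u - (QuotientAddGroup.mk u : G ⧸ φ.range).out := fun u => by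
    obtain ⟨⟨_, s, rfl⟩, h⟩ := QuotientAddGroup.mk_out_eq_add φ.range u
    exact ⟨-s, by rw [h, map_neg]; abel⟩
  choose c hc using h1
  refine ⟨c, fun u s => hφ ?_⟩
  rw [map_add, hc, hc, QuotientAddGroup.mk_add_of_mem u (AddMonoidHom.mem_range.2 ⟨s, rfl⟩)]
  abel

theorem round (b x de : ℝ) (N : ℤ) (h1 : b < x) (h2 : x ≤ b + 3) (h3 : |de| ≤ N) :
    ∃ k : ℤ, |k| ≤ N ∧ b < x + (k + de) ∧ x + (k + de) ≤ b + 3 := by
  obtain ⟨h4, h5⟩ := abs_le.1 h3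
  by_cases h : x ≤ b + 2
  · refine ⟨-⌊de⌋, ?_, ?_, ?_⟩
    · rw [abs_neg, abs_le, Int.le_floor, Int.floor_le_iff]
      push_cast
      constructor <;> linarith
    · push_cast
      linarith [Int.floor_le de]
    · push_cast
      linarith [Int.lt_floor_add_one de]
  · refine ⟨-⌈de⌉, ?_, ?_, ?_⟩
    · rw [abs_neg, abs_le, Int.le_ceil_iff, Int.ceil_le]
      push_cast
      constructor <;> linarith
    · push_cast
      linarith [Int.ceil_lt_add_one de]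
    · push_cast
      linarith [Int.le_ceil de]

end GridAux3

theorem t_grid : T_Grid := by
  rintro M h hinj hL ⟨j, hj⟩ b ρ f hρ
  have : NeZero ρ := ⟨by omega⟩
  obtain ⟨c, hc⟩ := GridAux3.coord (AddMonoidHom.mk' (fun s : Fin 3 → ℤ => ∑ j, s j • h j)
    fun s t => by simp only [Pi.add_apply, add_smul, Finset.sum_add_distrib]) hinj
  let U : (Fin 2 → ZMod ρ) → Set M.Pt := fun o =>
    {u | u ∈ M.Win b 3 ∧ (fun i => (c u (j.succAbove i) : ZMod ρ)) = o}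
  obtain ⟨o, -, ho⟩ := Finset.exists_min_image Finset.univ
    (fun o => ∑' u, (U o).indicator f u) Finset.univ_nonempty
  refine ⟨U o, fun u hu => hu.1, ?_, fun u hu => ?_⟩
  · have h1 := Finset.card_nsmul_le_sum Finset.univ _ _ ho
    rw [← Summable.tsum_finsetSum fun _ _ => ENNReal.summable] at h1
    simp only [Finset.card_univ, Fintype.card_fun, ZMod.card, Fintype.card_fin, nsmul_eq_mul,
      Nat.cast_pow] at h1
    refine h1.trans (le_of_eq (tsum_congr fun u => ?_))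
    by_cases hu : u ∈ M.Win b 3
    · simp [U, Set.indicator_apply, hu]
    · simp [U, hu]
  · let r : Fin 2 → ℤ := fun i => ((o i - c u (j.succAbove i)).val : ℤ)
    have hr : ∀ i, |r i| ≤ (ρ : ℤ) - 1 := fun i => by
      have := ZMod.val_lt (o i - (c u (j.succAbove i) : ZMod ρ))
      simp only [r, Nat.abs_cast]
      omega
    have hr' : ∀ i, |(r i : ℝ) * M.L (h (j.succAbove i))| ≤ (ρ : ℝ) - 1 := fun i => by
      rw [abs_mul]
      refine (mul_le_of_le_one_right (abs_nonneg _) (hL _)).trans ?_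
      exact_mod_cast hr i
    obtain ⟨k, h1, h2⟩ := GridAux3.round b (M.L u) (∑ i, (r i : ℝ) * M.L (h (j.succAbove i)))
      (2 * ((ρ : ℤ) - 1)) hu.1 hu.2 (by
        rw [Fin.sum_univ_two]
        push_cast
        linarith [abs_add_le ((r 0 : ℝ) * M.L (h (j.succAbove 0)))
          ((r 1 : ℝ) * M.L (h (j.succAbove 1))), hr' 0, hr' 1])
    refine ⟨j.insertNth k r, fun i => ?_, ?_, funext fun i => ?_⟩
    · induction i using j.succAboveCases with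
      | x => rwa [Fin.insertNth_apply_same]
      | p i =>
        rw [Fin.insertNth_apply_succAbove]
        have := hr i
        omega
    · change b < _ ∧ _
      rw [Fin.sum_univ_succAbove _ j]
      simpa only [Fin.insertNth_apply_same, Fin.insertNth_apply_succAbove, map_add, map_sum,
        map_zsmul, hj, M.hu, zsmul_eq_mul, mul_one] using h2
    · have := congrFun (hc u (j.insertNth k r)) (j.succAbove i)
      rw [AddMonoidHom.mk'_apply] at this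
      rw [this, Pi.add_apply, Fin.insertNth_apply_succAbove]
      simp [r]

end Pool.Agent.MP_db8016_pr.BZ

end

section

/-! Paths along which the chance to cross a height stays bounded below. -/

namespace Pool.Agent.MP_db8016_pr.BZ
open MeasureTheory ProbabilityTheory Filter Topology
open scoped ENNReal Classical

namespace HPAux3

variable {M : Mod}

lemma up_u : M.Up [M.u] := by
  have h : ∀ α, α <+: [M.u] → α = [] ∨ α = [M.u] := fun α hα => by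
    rcases List.prefix_cons_iff.1 hα with rfl | ⟨τ, rfl, h3⟩
    · exact Or.inl rfl
    · rw [List.prefix_nil.1 h3]
      exact Or.inr rfl
  refine ⟨fun α hα => ?_, fun α hα hne => ?_⟩
  · rcases h α hα with rfl | rfl <;> simp [M.hu]
  · rcases h α hα with rfl | rfl
    · simp [M.hu]
    · exact absurd rfl hne

lemma cross_ext {γ ζ : List M.D} {h : ℝ} (hγ : M.Up γ) (hl : M.lv γ < h)
    (hζ : M.Cross (h - M.lv γ - 1) ζ) : M.Cross h (γ ++ [M.u] ++ ζ) := by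
  rw [List.append_assoc]
  refine RecAux.cross_append hγ hl ⟨up_u.1.append hζ.1, ?_, fun α hα hne => ?_⟩
  · have := hζ.2.1
    simp only [Mod.lv_append, Mod.lv_cons, Mod.lv_nil, M.hu]
    linarith
  · rcases List.prefix_cons_iff.1 hα with rfl | ⟨τ, rfl, h3⟩
    · rw [Mod.lv_nil]
      linarith
    · have := hζ.2.2 τ h3 fun e => hne (by rw [e]; rfl)
      rw [Mod.lv_cons, M.hu]
      linarith

lemma fixed {p : ℝ≥0∞} {t h : ℝ} (hp : ∀ h : ℝ, p ≤ M.sm {γ | M.Cross h γ}) (ht : t + 1 ≤ h)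
    (α : List M.D) :
    M.κ * p * M.sm {γ | (M.Up γ ∧ t ≤ M.lv γ ∧ M.lv γ < t + 1) ∧ α <+: γ} ≤
      M.sm {ζ | M.Cross h ζ ∧ α <+: ζ} := by
  have key := Mod.tsum_le_sm (G := {ζ | M.Cross h ζ ∧ α <+: ζ})
    (fun x : (Σ γ : ↥{γ | (M.Up γ ∧ t ≤ M.lv γ ∧ M.lv γ < t + 1) ∧ α <+: γ},
      ↥{ζ | M.Cross (h - M.lv γ - 1) ζ}) => (x.1 : List M.D) ++ [M.u] ++ (x.2 : List M.D))
    (by
      rintro ⟨⟨γ, hγ⟩, ⟨ρ, hρ⟩⟩ ⟨⟨γ', hγ'⟩, ⟨ρ', hρ'⟩⟩ e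
      have e' : γ ++ [M.u] ++ ρ = γ' ++ [M.u] ++ ρ' := e
      have e1 : γ ++ [M.u] = γ' ++ [M.u] := by
        rcases List.prefix_or_prefix_of_prefix (List.prefix_append _ ρ)
          (e' ▸ List.prefix_append _ ρ') with c | c
        · exact RecAux.pf_rec M t _ ⟨γ, ⟨hγ.1.1.2, hγ.1.2⟩, rfl⟩ _ ⟨γ', ⟨hγ'.1.1.2, hγ'.1.2⟩, rfl⟩ c
        · exact (RecAux.pf_rec M t _ ⟨γ', ⟨hγ'.1.1.2, hγ'.1.2⟩, rfl⟩ _
            ⟨γ, ⟨hγ.1.1.2, hγ.1.2⟩, rfl⟩ c).symm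
      obtain rfl : γ = γ' := List.append_cancel_right e1
      obtain rfl : ρ = ρ' := List.append_cancel_left e'
      rfl)
    (fun x => ⟨cross_ext x.1.2.1.1 (x.1.2.1.2.2.trans_le ht) x.2.2,
      (x.1.2.2.trans (List.prefix_append _ _)).trans (List.prefix_append _ _)⟩)
  refine le_trans ?_ key
  rw [ENNReal.tsum_sigma', Mod.sm_eq_tsum, ← ENNReal.tsum_mul_left]
  refine ENNReal.tsum_le_tsum fun γ => ?_
  have h1 := M.w_append_ge γ [M.u]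
  rw [List.length_singleton, pow_one] at h1
  rw [mul_right_comm]
  refine (mul_le_mul' h1 (hp (h - M.lv γ - 1))).trans (le_of_eq ?_)
  rw [Mod.sm_eq_tsum, ← ENNReal.tsum_mul_left]
  exact tsum_congr fun ρ => (Mod.w_append (γ.2.1.1.append up_u).2 ρ.2.1).symm

lemma ex_min {D : Type} (Q : List D → Prop) (γ : List D) (h : ¬ ∀ α, α <+: γ → Q α) :
    ∃ α, α <+: γ ∧ ¬ Q α ∧ ∀ α', α' <+: α → α' ≠ α → Q α' := by
  induction γ using List.reverseRecOn with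
  | nil =>
    refine ⟨[], List.prefix_rfl, fun c => h fun α hα => ?_, fun α hα hne => ?_⟩
    · rwa [List.prefix_nil.1 hα]
    · exact absurd (List.prefix_nil.1 hα) hne
  | append_singleton γ d ih =>
    by_cases h1 : ∀ α, α <+: γ → Q α
    · refine ⟨γ ++ [d], List.prefix_rfl, fun c => h fun α hα => ?_, fun α hα hne => ?_⟩
      · rcases List.prefix_concat_iff.1 hα with rfl | h2
        exacts [c, h1 α h2]
      · exact h1 α ((List.prefix_concat_iff.1 hα).resolve_left hne)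
    · obtain ⟨α, a1, a2⟩ := ih h1
      exact ⟨α, a1.trans (List.prefix_append _ _), a2⟩

end HPAux3

open HPAux3

theorem t_hp : T_HP := by
  intro M p η t h hp ht
  obtain ⟨Q, hQ⟩ : ∃ Q : List M.D → Prop,
    Q = fun α => η * M.w α ≤ M.sm {ζ | M.Cross h ζ ∧ α <+: ζ} := ⟨_, rfl⟩
  have hA : PF {α | ¬ Q α ∧ ∀ α', α' <+: α → α' ≠ α → Q α'} := fun α h1 α' h2 h3 =>
    by_contra fun e => h1.1 (h2.2 α h3 e)
  have h1 : M.UW t (fun γ => if γ ∈ M.HP η h then 0 else 1) ≤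
      ∑' α : ↥{α | ¬ Q α ∧ ∀ α', α' <+: α → α' ≠ α → Q α'},
        M.sm {γ | (M.Up γ ∧ t ≤ M.lv γ ∧ M.lv γ < t + 1) ∧ α.1 <+: γ} := by
    unfold Mod.UW Mod.sm
    rw [ENNReal.tsum_comm]
    refine ENNReal.tsum_le_tsum fun γ => ?_
    beta_reduce
    split_ifs with c1 c2
    · rw [mul_zero]
      exact zero_le
    · obtain ⟨α, a1, a2⟩ := ex_min Q γ (by rw [hQ]; exact c2)
      refine le_trans (le_of_eq ?_) (ENNReal.le_tsum ⟨α, a2⟩)
      rw [mul_one, Set.indicator_of_mem (by exact ⟨c1, a1⟩)]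
    · exact zero_le
  refine (mul_le_mul_right h1 _).trans ?_
  refine le_trans ?_ ((mul_le_mul_right (Mod.sm_le_one hA) η).trans (mul_one η).le)
  rw [Mod.sm_eq_tsum, ← ENNReal.tsum_mul_left, ← ENNReal.tsum_mul_left]
  refine ENNReal.tsum_le_tsum fun α => (fixed hp ht α).trans ?_
  exact (not_le.1 fun c => α.2.1 ((congrFun hQ α.1).symm ▸ c)).le

theorem t_ft2 : T_FT2 := by
  intro M η h γ hγ hl
  unfold Mod.FT Mod.Bas
  rw [← ENNReal.tsum_mul_left]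
  refine ENNReal.tsum_le_tsum fun y => ?_
  by_cases hy : y ∈ M.Near
  swap
  · simp [hy]
  have key := Mod.tsum_le_sm (G := {ζ | M.Cross h ζ ∧ M.Tp y γ ζ})
    (fun x : (Σ α : ↥(M.FTs (M.HP η h) (pts M.vec 0 γ) y),
      ↥{ζ | M.Cross h ζ ∧ α.1 <+: ζ}) => (x.2 : List M.D))
    (by
      rintro ⟨⟨α, hα⟩, ⟨ρ, hρ⟩⟩ ⟨⟨α', hα'⟩, ⟨ρ', hρ'⟩⟩ e
      obtain rfl : ρ = ρ' := e
      obtain rfl : α = α' := by
        rcases List.prefix_or_prefix_of_prefix hρ.2 hρ'.2 with c | c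
        · exact M.pf_FTs _ _ _ _ hα _ hα' c
        · exact (M.pf_FTs _ _ _ _ hα' _ hα c).symm
      rfl)
    (by
      rintro ⟨⟨α, hα⟩, ⟨ρ, hρ⟩⟩
      refine ⟨hρ.1, fun c => Finset.disjoint_left.1 c hα.2.1
        (M.mem_pts.2 ⟨α, hρ.2, ?_, rfl⟩)⟩
      rintro rfl
      obtain ⟨β, b1, b2, e⟩ := M.mem_pts.1 hα.2.1
      have h1 := hγ.2 β b1 b2
      have h2 := hρ.1.2.1
      have h3 := (abs_lt.1 (show |M.L y| < 4 from hy)).1
      have h4 := congrArg M.L e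
      simp only [map_add, map_zero] at h4
      unfold Mod.lv at h1 h2 hl
      linarith)
  rw [if_pos hy]
  refine le_trans ?_ key
  have e : ∑' α, (if y ∈ M.Near ∧ α ∈ M.FTs (M.HP η h) (pts M.vec 0 γ) y then M.w α else 0) =
      M.sm (M.FTs (M.HP η h) (pts M.vec 0 γ) y) :=
    tsum_congr fun α => by simp [hy, Set.indicator_apply]
  rw [e, ENNReal.tsum_sigma', Mod.sm_eq_tsum, ← ENNReal.tsum_mul_left]
  refine ENNReal.tsum_le_tsum fun α => (α.2.1 α List.prefix_rfl).trans (le_of_eq ?_)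
  exact Mod.sm_eq_tsum _

end Pool.Agent.MP_db8016_pr.BZ

end

section

namespace Pool.Agent.MP_db8016_pr.BZ
open MeasureTheory ProbabilityTheory Filter Topology
open scoped ENNReal Classical

namespace LG1Aux3

lemma cover {I J : Type} (φ : J → I) (f : I → ℝ≥0∞) (g : J → ℝ≥0∞)
    (h : ∀ i, f i ≠ 0 → ∃ j, φ j = i ∧ f i ≤ g j) : ∑' i, f i ≤ ∑' j, g j := by
  choose s h1 h2 using h
  rw [← tsum_subtype_eq_of_support_subset (s := Function.support f) subset_rfl]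
  refine (ENNReal.tsum_le_tsum fun i : Function.support f => h2 i.1 i.2).trans
    (ENNReal.tsum_comp_le_tsum_of_injective (f := fun i : Function.support f => s i.1 i.2)
      (fun a b e => Subtype.ext ?_) g)
  rw [← h1 a.1 a.2, ← h1 b.1 b.2]
  exact congrArg φ e

variable {M : Mod}

lemma cp_trans {α β γ : List M.D} (h : M.Cp α β) (h' : M.Cp β γ) : M.Cp α γ := by
  obtain ⟨δ, rfl, h1, h2⟩ := h
  obtain ⟨δ', rfl, -, h3⟩ := h'
  exact ⟨δ ++ δ', List.append_assoc _ _ _, h1, h2.append h3⟩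

lemma cp_len {α γ : List M.D} (h : M.Cp α γ) :
    α.length ≤ γ.length ∧ (α.length = γ.length → α = γ) := by
  obtain ⟨δ, rfl, -, -⟩ := h
  exact ⟨(List.prefix_append _ _).length_le, (List.prefix_append _ _).eq_of_length⟩

lemma ex_mn (y : M.Pt) {γ ζ : List M.D} (h1 : M.Up γ) (h2 : M.Up ζ) (h3 : M.Tp y γ ζ) :
    ∃ α α', M.Cp α γ ∧ M.Cp α' ζ ∧ M.Mn y α α' := by
  induction hn : γ.length + ζ.length using Nat.strong_induction_on generalizing γ ζ with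
  | _ n ih =>
  by_cases h : ∀ α₁ α₁', M.Cp α₁ γ → M.Cp α₁' ζ → M.Tp y α₁ α₁' → α₁ = γ ∧ α₁' = ζ
  · exact ⟨γ, ζ, ⟨[], by simp, h1, Mod.up_nil⟩, ⟨[], by simp, h2, Mod.up_nil⟩, h1, h2, h3, h⟩
  · simp only [not_forall] at h
    obtain ⟨α, α', c1, c2, c3, c4⟩ := h
    have l1 := cp_len c1
    have l2 := cp_len c2
    obtain ⟨β, β', d1, d2, d3⟩ := ih (α.length + α'.length) (by
      by_contra e
      exact c4 ⟨l1.2 (by omega), l2.2 (by omega)⟩) c1.choose_spec.2.1 c2.choose_spec.2.1 c3 rfl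
    exact ⟨β, β', cp_trans d1 c1, cp_trans d2 c2, d3⟩

end LG1Aux3

theorem t_lg1 : T_LG1 := by
  intro M t h h0
  have key := LG1Aux3.cover
    (fun j : M.Pt × List M.D × List M.D × List M.D × List M.D =>
      (j.2.1 ++ j.2.2.2.1, j.1, j.2.2.1 ++ j.2.2.2.2))
    (fun i => if (M.Up i.1 ∧ t ≤ M.lv i.1 ∧ M.lv i.1 < t + 1) ∧ i.2.1 ∈ M.Near ∧
      M.Cross h i.2.2 ∧ M.Tp i.2.1 i.1 i.2.2 then M.w i.1 * M.w i.2.2 else 0)
    (fun j => (if j.1 ∈ M.Near ∧ M.Mn j.1 j.2.1 j.2.2.1 ∧ M.lv j.2.1 < t + 1 ∧ True then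
      M.w j.2.1 * M.w j.2.2.1 else 0) *
      ({δ | M.Rc δ ∧ t - M.lv j.2.1 ≤ M.lv δ ∧ M.lv δ < t - M.lv j.2.1 + 1}.indicator M.w
        j.2.2.2.1 *
      {δ | M.Rc δ ∧ h - M.lv j.2.2.1 ≤ M.lv δ ∧ M.lv δ < h - M.lv j.2.2.1 + 1}.indicator M.w
        j.2.2.2.2)) (by
      rintro ⟨γ, y, ζ⟩ hne
      obtain ⟨⟨a1, a2, a3⟩, a4, a5, a6⟩ : (M.Up γ ∧ t ≤ M.lv γ ∧ M.lv γ < t + 1) ∧ y ∈ M.Near ∧
          M.Cross h ζ ∧ M.Tp y γ ζ := by
        by_contra e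
        exact hne (if_neg e)
      obtain ⟨α, α', ⟨β, rfl, b1, b2⟩, ⟨β', rfl, b3, b4⟩, b5⟩ := LG1Aux3.ex_mn y a1 a5.up a6
      have c1 := a5.2.1
      have c2 := a5.lv_lt h0
      have c3 := b2.1 β List.prefix_rfl
      refine ⟨(y, α, α', β, β'), rfl, ?_⟩
      dsimp only
      rw [if_pos ⟨⟨a1, a2, a3⟩, a4, a5, a6⟩]
      rw [Mod.lv_append] at a2 a3 c1 c2
      rw [if_pos ⟨a4, b5, by linarith, trivial⟩,
        Set.indicator_of_mem (by exact ⟨b2.2, by linarith, by linarith⟩),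
        Set.indicator_of_mem (by exact ⟨b4.2, by linarith, by linarith⟩),
        Mod.w_append b1.2 b2.1, Mod.w_append b3.2 b4.1, mul_mul_mul_comm])
  simp only [ENNReal.tsum_prod'] at key
  refine le_trans (ENNReal.tsum_le_tsum fun γ => ?_) (key.trans ?_)
  · split_ifs with h1
    · rw [Mod.Bas, ← ENNReal.tsum_mul_left]
      refine ENNReal.tsum_le_tsum fun y => ?_
      split_ifs with h2
      · rw [Mod.sm, ← ENNReal.tsum_mul_left]
        refine ENNReal.tsum_le_tsum fun ζ => ?_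
        by_cases h3 : M.Cross h ζ ∧ M.Tp y γ ζ
        · rw [if_pos ⟨h1, h2, h3⟩, Set.indicator_of_mem (by exact h3)]
        · rw [Set.indicator_of_notMem (by exact h3), mul_zero]
          exact zero_le
      · rw [mul_zero]
        exact zero_le
    · exact zero_le
  · rw [Mod.MW, ← ENNReal.tsum_mul_left]
    refine ENNReal.tsum_le_tsum fun y => ?_
    rw [← ENNReal.tsum_mul_left]
    refine ENNReal.tsum_le_tsum fun α => ?_
    rw [← ENNReal.tsum_mul_left]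
    refine ENNReal.tsum_le_tsum fun α' => ?_
    simp only [ENNReal.tsum_mul_left, ENNReal.tsum_mul_right]
    rw [mul_comm, sq]
    refine mul_le_mul' (mul_le_mul' (s_rec M (t - M.lv α)) (s_rec M (h - M.lv α'))) ?_
    split_ifs <;> exact le_rfl

end Pool.Agent.MP_db8016_pr.BZ

end

section

/-! Three blocks of steps can be shifted in three directions. -/

namespace Pool.Agent.MP_db8016_pr.BZ
open scoped ENNReal Classical
open BlkAux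

namespace LR3Aux3

variable {Pt : Type} [AddCommGroup Pt]

lemma rep_add {Φ Ψ : En Pt} {t t' : ℝ≥0∞} (h : Rep Φ t) (h' : Rep Ψ t') : Rep (Φ + Ψ) (t + t') := by
  obtain ⟨ρ, h, rfl⟩ := h
  obtain ⟨σ, h', rfl⟩ := h'
  refine ⟨fun v => ρ v + σ v, ?_, ?_⟩
  · rw [ENNReal.tsum_add]
    exact add_le_add h h'
  · ext F x
    change ∑' u, ρ u * F (x + u) + ∑' u, σ u * F (x + u) = ∑' u, (ρ u + σ u) * F (x + u)
    simp only [add_mul, ENNReal.tsum_add]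

lemma rep_step {Φ : En Pt} {t κ : ℝ≥0∞} (h : Rep Φ t) {F G : Pt → ℝ≥0∞} {v : Pt}
    (hF : ∀ y, F y ≤ κ * G (y + v)) (x : Pt) : Φ F x ≤ κ * Φ G (x + v) := by
  obtain ⟨ρ, -, rfl⟩ := h
  change ∑' u, ρ u * F (x + u) ≤ κ * ∑' u, ρ u * G (x + v + u)
  rw [← ENNReal.tsum_mul_left]
  refine ENNReal.tsum_le_tsum fun u => ?_
  rw [mul_left_comm, add_right_comm]
  exact mul_le_mul_right (hF _) _

end LR3Aux3

open LR3Aux3 in
theorem t_lr3 (h1 : T_LR1) : T_LR3 := by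
  intro Pt _ q ε₀ g h hε hh hq hg hgh
  choose c hc H using fun j => h1 Pt q ε₀ g (h j) hε (hh j) hq hg (hgh j)
  refine ⟨min (c 0) (min (c 1) (c 2)), lt_min (hc 0) (lt_min (hc 1) (hc 2)),
    fun ε m ρ e0 e1 r1 hρ => ?_⟩
  have hm : ∀ j, min (c 0) (min (c 1) (c 2)) ≤ c j := fun j => by
    fin_cases j
    exacts [min_le_left _ _, (min_le_right _ _).trans (min_le_left _ _),
      (min_le_right _ _).trans (min_le_right _ _)]
  choose A D hD H using fun j => H j ε m ρ e0 e1 r1 (hρ.trans (by gcongr; exact hm j))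
  have it : ∀ (n : ℕ) (F : Pt → ℝ≥0∞), (op q)^[n] F = (opL q ^ n) F := fun n F => by
    rw [Module.End.pow_apply]
    rfl
  set Φ := opL q ^ m with hΦ
  have rΦ : Rep Φ 1 := by simpa only [one_pow] using Rep.pow ⟨q, hq, rfl⟩ m
  have sp : ∀ j, Φ = opL (A j) + opL (D j) := fun j => by
    ext F x
    exact (congrFun (it m F) x).symm.trans (H j F x).1
  have rD : ∀ j, Rep (opL (D j)) (ENNReal.ofReal ε) := fun j => ⟨_, hD j, rfl⟩
  have rA : ∀ j, Rep (opL (A j)) 1 := fun j => by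
    refine ⟨_, le_trans ?_ (rΦ.le (F := fun _ => 1) (fun _ => le_rfl) 0), rfl⟩
    rw [sp j]
    refine le_trans (le_of_eq ?_) le_self_add
    exact tsum_congr fun v => (mul_one _).symm
  obtain ⟨E, hE, eE⟩ := rep_add (rep_add (((rA 0).mul (rA 1)).mul (rD 2))
    (((rA 0).mul (rD 1)).mul rΦ)) (((rD 0).mul rΦ).mul rΦ)
  refine ⟨E, hE.trans (le_of_eq (by ring)), fun F x s hs => ?_⟩
  have e3 : opL q ^ (3 * m) = Φ * Φ * Φ := by rw [mul_comm, pow_mul, pow_three']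
  have e4 : Φ * Φ * Φ = opL (A 0) * opL (A 1) * opL (A 2) + opL E := by
    have a0 : Φ * Φ * Φ = opL (A 0) * Φ * Φ + opL (D 0) * Φ * Φ := by
      rw [← add_mul, ← add_mul, ← sp]
    have a1 : opL (A 0) * Φ * Φ = opL (A 0) * opL (A 1) * Φ + opL (A 0) * opL (D 1) * Φ := by
      rw [← add_mul, ← mul_add, ← sp]
    have a2 : opL (A 0) * opL (A 1) * Φ =
        opL (A 0) * opL (A 1) * opL (A 2) + opL (A 0) * opL (A 1) * opL (D 2) := by
      rw [← mul_add, ← sp]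
    rw [← eE, a0, a1, a2, add_assoc, add_assoc, add_assoc]
  have b : ∀ j G y, opL (A j) G y ≤ ENNReal.ofReal (1 + ε) * Φ G (y + s j • h j) := fun j G y => by
    rw [← it]
    exact (H j G y).2 _ (hs j)
  rw [it, e3]
  refine le_trans (le_of_eq (by rw [e4]; rfl)) (add_le_add_left (?_ :
    opL (A 0) (opL (A 1) (opL (A 2) F)) x ≤ _) _)
  refine (b 0 _ x).trans ?_
  rw [pow_three, mul_assoc, mul_assoc, Fin.sum_univ_three, ← add_assoc, ← add_assoc]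
  refine mul_le_mul_right ((rep_step rΦ (b 1 _) _).trans (mul_le_mul_right ?_ _)) _
  exact rep_step (rΦ.mul rΦ) (b 2 F) _

end Pool.Agent.MP_db8016_pr.BZ

end

section

/-! From the cookie environment to the model, in dimension three. -/

namespace Pool.Agent.MP_db8016_pr.BZ
open MeasureTheory ProbabilityTheory Filter Topology
open scoped ENNReal

theorem core3_all (hW : S_W) (hM : T_M1) (hWL : T_WL3) (hI : S_Init) (hC : T_Core3) (hF : S_Fast)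
    (hB : S_Back) (M : Mod) (hP : M.Pcs 3) (S : Measure (ℕ → M.D))
    [IsProbabilityMeasure S] (hS : ∀ γ, S (cyl γ) = M.w γ) (c : ℝ) (hc : 0 < c)
    (h : S {e | ∀ᶠ n : ℕ in atTop, (n : ℝ) / c ≤ M.lv (pre e n)} ≠ 0) :
    S {e | Tendsto (fun n => M.lv (pre e n)) atTop atTop} = 1 := by
  by_contra hne
  have hφ : ∀ m n : ℕ, ((m + n : ℕ) : ℝ) / c ≤ (m : ℝ) / c + (n : ℝ) / c := by
    intro m n
    rw [← add_div, Nat.cast_add]
  have hT : Tendsto (fun n : ℕ => (n : ℝ) / c) atTop atTop :=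
    tendsto_natCast_atTop_atTop.atTop_div_const hc
  obtain ⟨N, p, hN, hp0, hp⟩ := hF M S _ hS hφ hT h
  obtain ⟨β, hβ0, hβ⟩ := hB M S hS
    (fun h0 => h (measure_mono_null (fun e he => tendsto_atTop_mono' atTop he hT) h0)) hne
  have h1 : ∀ h : ℝ, p ≤ M.sm {γ | M.Cross h γ} := fun h =>
    (hp h).trans (Mod.sm_mono fun _ h => h.1)
  have h2 := hW M p hp0 h1
  exact hC M (hWL M p β hP ⟨hp0, h1, h2, hM M c N p hc hN hp0 hp h2⟩ hβ0 hβ)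
    (hI M 3 (by omega) hP)

theorem main3_all (hW : S_W) (hM : T_M1) (hWL : T_WL3) (hI : S_Init) (hC : T_Core3) (hF : S_Fast)
    (hB : S_Back) (hNu : S_Nu) (hL : S_Law) (hPc : S_Pcs)
    (μ : Measure ((Fin 3 → ℤ) → Fin 3 × Bool → ℕ → ℝ)) [IsProbabilityMeasure μ]
    (hind : iIndepFun (fun (z : Fin 3 → ℤ) (ω : (Fin 3 → ℤ) → Fin 3 × Bool → ℕ → ℝ) => ω z) μ)
    (hid : ∀ z : Fin 3 → ℤ,
      IdentDistrib (fun ω : (Fin 3 → ℤ) → Fin 3 × Bool → ℕ → ℝ => ω z) (fun ω => ω 0) μ μ)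
    (hsum : ∀ᵐ ω ∂μ, ∀ z i, ∑ e, ω z e i = 1)
    (κ : ℝ) (hκ : 0 < κ) (hell : ∀ᵐ ω ∂μ, ∀ z e i, κ ≤ ω z e i)
    (P₀ : Measure (ℕ → Fin 3 → ℤ)) [IsProbabilityMeasure P₀]
    (hP₀ : ∀ (e : ℕ → Fin 3 × Bool) (n : ℕ), P₀ {X | ∀ i ≤ n, X i = HD.pos e i} =
      ∫⁻ ω, ENNReal.ofReal (∏ i ∈ Finset.range n, ω (HD.pos e i) (e i) (HD.visits e i)) ∂μ)
    (l : Fin 3 → ℝ) (hl : l ≠ 0)
    (hfast : P₀ {X | ∀ᶠ n : ℕ in atTop, (n : ℝ) ≤ ∑ j, (X n j : ℝ) * l j} ≠ 0) :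
    P₀ {X | Tendsto (fun n => ∑ j, (X n j : ℝ) * l j) atTop atTop} = 1 := by
  obtain ⟨ν, hν, uel, hwt⟩ := hNu 3 μ (by omega) hind hid hsum κ hκ hell
  obtain ⟨S, hS1, hS, hA⟩ := hL 3 ν P₀ (by omega) fun e n => by rw [hP₀, hwt]
  obtain ⟨c, L, hL1, u, hu, v, hv, hc, hz, hP⟩ :=
    hPc 3 ν _ (ENNReal.ofReal_pos.2 hκ).ne' uel l hl
  have hm : ∀ n, Measurable fun X : ℕ → Fin 3 → ℤ => ∑ j, (X n j : ℝ) * l j := fun n =>
    (Measurable.of_discrete (f := fun z : Fin 3 → ℤ => ∑ j, (z j : ℝ) * l j)).comp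
      (measurable_pi_apply n)
  rw [hA _ (measurableSet_tendsto atTop hm)]
  rw [hA _ (by
    simp only [eventually_atTop]
    exact measurableSet_setOfPred.2 (Measurable.exists fun N => Measurable.forall fun n =>
      measurable_const.imp (measurableSet_setOfPred.1
        (measurableSet_le measurable_const (hm n)))))] at hfast
  have key := core3_all hW hM hWL hI hC hF hB _ hP S hS c hc
    (fun h0 => hfast (measure_mono_null (fun e he => ?_) h0))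
  · rw [← key]
    congr 1
    ext e
    simp only [Set.mem_ofPred_eq, hz]
    exact tendsto_const_mul_atTop_of_pos hc
  · simp only [Set.mem_ofPred_eq, hz] at he ⊢
    filter_upwards [he] with n h1
    rw [div_le_iff₀' hc]
    exact h1

end Pool.Agent.MP_db8016_pr.BZ

end

section

/-! The expected number of visits to a window of levels. -/

namespace Pool.Agent.MP_db8016_pr.BZ
open MeasureTheory ProbabilityTheory Filter Topology
open scoped ENNReal Classical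

namespace VisAux3

lemma cover {ι κ : Type} (F : ι → ℝ≥0∞) (G : κ → ℝ≥0∞) (φ : κ → ι)
    (h : ∀ p, F p ≠ 0 → ∃ x, φ x = p ∧ F p ≤ G x) : ∑' p, F p ≤ ∑' x, G x := by
  rw [← tsum_subtype_support F]
  choose g h1 h2 using h
  refine (ENNReal.tsum_le_tsum fun p : Function.support F => h2 p p.2).trans (ENNReal.tsum_comp_le_tsum_of_injective
    (f := fun p : Function.support F => g p p.2) (fun a b e => Subtype.ext ?_) G)
  rw [← h1 a a.2, ← h1 b b.2]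
  exact congrArg φ e

lemma count {D : Type} (π : List D) :
    ∑' α, (if α <+: π ∧ α ≠ π then (1 : ℝ≥0∞) else 0) = π.length := by
  induction π using List.reverseRecOn with
  | nil => simp
  | append_singleton π d ih =>
    have e1 : ∑' α, (if α = π then (1 : ℝ≥0∞) else 0) = 1 := tsum_ite_eq π _
    rw [List.length_append, List.length_singleton, Nat.cast_succ, ← ih]
    refine Eq.trans ?_ (congrArg _ e1)
    rw [← ENNReal.tsum_add]
    refine tsum_congr fun α => ?_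
    by_cases h : α = π
    · simp [h]
    · by_cases h' : α <+: π
      · have : α ≠ π ++ [d] := fun e => by
          have := h'.length_le
          simp [e] at this
        simp [h, h', this, List.prefix_concat_iff]
      · simp [h, h', List.prefix_concat_iff]

variable {M : Mod}

lemma gen (t : ℝ) (Q R : List M.D → List M.D → Prop) (B : ℝ≥0∞)
    (hB : ∀ π₁, M.sm {α₀ | M.Up α₀ ∧ Q α₀ π₁} ≤ B)
    (hR : ∀ α₀ π π₁ β, M.NN (π ++ β) → R (α₀ ++ π ++ β) (α₀ ++ π₁) → Q α₀ π₁) :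
    M.UW t (fun γ => ∑' α, if α <+: γ ∧ α ≠ γ ∧ R γ α then 1 else 0) ≤ B * (M.m1 * M.κ⁻¹) := by
  have h1 := cover (fun p : List M.D × List M.D =>
      if M.Up p.1 ∧ t ≤ M.lv p.1 ∧ M.lv p.1 < t + 1 then
        M.w p.1 * if p.2 <+: p.1 ∧ p.2 ≠ p.1 ∧ R p.1 p.2 then 1 else 0 else 0)
    (fun x : List M.D × List M.D × List M.D × List M.D =>
      ((if M.Irr x.1 then M.w x.1 else 0) * if x.2.1 <+: x.1 ∧ x.2.1 ≠ x.1 then 1 else 0) *
        ({α₀ | M.Up α₀ ∧ Q α₀ x.2.1}.indicator M.w x.2.2.1 *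
          if M.Up x.2.2.2 ∧ t - M.lv (x.2.2.1 ++ x.1) ≤ M.lv x.2.2.2 ∧
            M.lv x.2.2.2 < t - M.lv (x.2.2.1 ++ x.1) + 1 then M.w x.2.2.2 * 1 else 0))
    (fun x => (x.2.2.1 ++ x.1 ++ x.2.2.2, x.2.2.1 ++ x.2.1)) (by
      rintro ⟨γ, α⟩ h
      have h2 : M.Up γ ∧ t ≤ M.lv γ ∧ M.lv γ < t + 1 := by
        by_contra h2
        exact h (if_neg h2)
      have h3 : α <+: γ ∧ α ≠ γ ∧ R γ α := by
        by_contra h3
        exact h (by simp only [if_neg h3, mul_zero, ite_self])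
      obtain ⟨α₀, π, π₁, β, c1, c2, c3, c4, c5, rfl, rfl⟩ := Mod.locate h2.1 h3.1 h3.2.1
      refine ⟨(π, π₁, α₀, β), rfl, le_of_eq ?_⟩
      have e := M.lv_append (α₀ ++ π) β
      simp only
      rw [if_pos h2, if_pos h3, if_pos c2, if_pos ⟨c4, c5⟩,
        if_pos ⟨c3, by linarith [h2.2.1], by linarith [h2.2.2]⟩,
        Set.indicator_of_mem (by exact ⟨c1, hR _ _ _ _ (c2.1.1.append c3.1) h3.2.2⟩),
        Mod.w_append (c1.append c2.1).2 c3.1, Mod.w_append c1.2 c2.1.1]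
      ring)
  refine le_trans (le_of_eq ?_) (h1.trans ?_)
  · rw [ENNReal.tsum_prod', Mod.UW]
    refine tsum_congr fun γ => ?_
    simp only
    split_ifs
    · rw [ENNReal.tsum_mul_left]
    · exact tsum_zero.symm
  · rw [mul_left_comm, Mod.m1, ← ENNReal.tsum_mul_right, ENNReal.tsum_prod']
    refine ENNReal.tsum_le_tsum fun π => ?_
    have e : (if M.Irr π then M.w π * π.length else 0) =
        (if M.Irr π then M.w π else 0) * π.length := by rw [ite_mul, zero_mul]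
    rw [e, ← count, ← ENNReal.tsum_mul_left, ← ENNReal.tsum_mul_right, ENNReal.tsum_prod']
    refine ENNReal.tsum_le_tsum fun π₁ => ?_
    dsimp +instances only
    rw [ENNReal.tsum_mul_left, ENNReal.tsum_prod']
    refine mul_le_mul_right (le_trans ?_ (mul_le_mul_left (hB π₁) _)) _
    rw [Mod.sm, ← ENNReal.tsum_mul_right]
    refine ENNReal.tsum_le_tsum fun α₀ => ?_
    dsimp +instances only
    rw [ENNReal.tsum_mul_left]
    exact mul_le_mul_right (Mod.UW_one _) _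

end VisAux3

theorem t_vis : T_Vis := by
  intro M t t'
  refine le_trans (le_of_eq ?_) ((VisAux3.gen t
    (fun α₀ π₁ => t' - M.lv π₁ ≤ M.lv α₀ ∧ M.lv α₀ < t' - M.lv π₁ + 1)
    (fun _ α => t' ≤ M.lv α ∧ M.lv α < t' + 1) M.κ⁻¹
    (fun π₁ => (Mod.sm_mono fun α h => ?_).trans (s_rec M (t' - M.lv π₁)))
    fun α₀ π π₁ β _ h => ?_).trans (le_of_eq ?_))
  · congr!
  · exact ⟨h.1.2, h.2⟩
  · rw [Mod.lv_append] at h
    exact ⟨by linarith [h.1], by linarith [h.2]⟩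
  · ring

theorem t_time : T_Time := by
  intro M t h T h0
  rw [← Mod.UW_mul]
  refine le_trans (Mod.UW_mono t fun γ _ _ _ => ?_) ((VisAux3.gen t (fun α₀ _ => M.lv α₀ < h)
    (fun γ α' => ∃ α, α' <+: α ∧ α <+: γ ∧ M.lv α < h) _ (fun _ => Mod.up_lt h0) ?_).trans
    (le_of_eq ?_))
  · split_ifs with h1
    · obtain ⟨α, a1, a2, a3, a4⟩ := h1
      rw [mul_one]
      refine (Nat.cast_le.2 a4.le).trans ?_
      rw [← VisAux3.count]
      refine ENNReal.tsum_le_tsum fun α' => ?_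
      by_cases h2 : α' <+: α ∧ α' ≠ α
      · rw [if_pos h2, if_pos ⟨h2.1.trans a1, fun e => a2 (a1.eq_of_length_le
          (e ▸ h2.1.length_le)), α, h2.1, a1, a3⟩]
      · rw [if_neg h2]
        exact zero_le
    · rw [mul_zero]
      exact zero_le
  · rintro α₀ π π₁ β hn ⟨_, ⟨ρ, rfl⟩, a1, a2⟩
    rw [List.append_assoc, List.append_assoc, List.prefix_append_right_inj] at a1
    rw [List.append_assoc, Mod.lv_append] at a2
    linarith [hn _ a1]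
  · ring

end Pool.Agent.MP_db8016_pr.BZ

end
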