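import Pool.Agent.Mg.Fdb8016p.Ged04e7
import Pool.Agent.Mg.Fdb8016p.G4304b5
import Pool.Agent.Mg.Fdb8016p.G2a09e5

section

/-! The weight that the kernel of a window gives to a finite set. -/

namespace Pool.Agent.MP_db8016_pr.BZ
open MeasureTheory ProbabilityTheory Filter
open scoped ENNReal Classical

namespace SetBAux

lemma reidx (M : Mod) (g : M.Pt) (f : M.Pt → ℝ≥0∞) : ∑' x, f (-(x + g)) = ∑' z, f z :=
  ((Equiv.addRight g).trans (Equiv.neg _)).tsum_eq f

/-- Low records whose level lies in a window of length three. -/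
def R (M : Mod) (w : ℝ) : Set (List M.D) :=
  {δ | M.neg.Rc δ ∧ w - 1 ≤ M.neg.lv δ ∧ M.neg.lv δ < w + 2}

/-- The starts that are seen from the end `u`. -/
def T (M : Mod) (S : Finset M.Pt) (u : M.Pt) : Set M.Pt := {x | u - x ∈ S}

lemma sm_union (M : Mod) (A B : Set (List M.D)) : M.sm (A ∪ B) ≤ M.sm A + M.sm B := by
  unfold Mod.sm
  rw [← ENNReal.tsum_add]
  refine ENNReal.tsum_le_tsum fun γ => ?_
  by_cases h : γ ∈ A
  · rw [Set.indicator_of_mem (Set.mem_union_left B h), Set.indicator_of_mem h]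
    exact le_self_add
  · by_cases h' : γ ∈ B
    · rw [Set.indicator_of_mem (Set.mem_union_right A h'), Set.indicator_of_mem h']
      exact le_add_self
    · rw [Set.indicator_of_notMem (fun e => e.elim h h')]
      exact zero_le

lemma sm_R (hR : S_Rec) (M : Mod) (w : ℝ) : M.sm (R M w) ≤ 3 * M.κ⁻¹ := by
  have h1 : M.sm _ ≤ M.κ⁻¹ := hR M.neg (w - 1)
  have h2 : M.sm _ ≤ M.κ⁻¹ := hR M.neg w
  have h3 : M.sm _ ≤ M.κ⁻¹ := hR M.neg (w + 1)
  have e : 3 * M.κ⁻¹ = M.κ⁻¹ + (M.κ⁻¹ + M.κ⁻¹) := by ring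
  rw [e]
  refine le_trans (Mod.sm_mono ?_) ((sm_union M _ _).trans
    (add_le_add h1 ((sm_union M _ _).trans (add_le_add h2 h3))))
  rintro δ ⟨a, b, c⟩
  rcases lt_or_ge (M.neg.lv δ) w with h | h
  · exact Or.inl ⟨a, b, by linarith⟩
  rcases lt_or_ge (M.neg.lv δ) (w + 1) with h' | h'
  · exact Or.inr (Or.inl ⟨a, h, h'⟩)
  · exact Or.inr (Or.inr ⟨a, h', by linarith⟩)

lemma mem_R {M : Mod} {w h : ℝ} (hw : 1 ≤ w) {y : M.Pt} {δ : List M.D} (h1 : w - 1 ≤ M.L y)
    (h2 : M.L y < w + 1) (hd : M.Dn y δ h) : δ ∈ R M w := by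
  have h3 := hd.2
  rw [map_add] at h3
  refine ⟨fun α a b => ?_, ?_, ?_⟩
  · have h4 := (hd.1 α a b).1
    rw [map_add] at h4
    change -M.L (M.ds α) < -M.L (M.ds δ)
    linarith
  · change w - 1 ≤ -M.L (M.ds δ)
    linarith
  · change -M.L (M.ds δ) < w + 2
    rcases List.eq_nil_or_concat δ with rfl | ⟨δ', d, rfl⟩
    · simp only [Mod.ds_nil, map_zero]
      linarith
    · rw [List.concat_eq_append] at hd ⊢
      have h4 := (hd.1 δ' (List.prefix_append _ _) (by simp)).1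
      have h5 := (abs_le.1 (M.hL d)).1
      simp only [Mod.ds_append, Mod.ds_cons, Mod.ds_nil, map_add, map_zero] at h4 ⊢
      linarith

lemma pf_R (M : Mod) (w : ℝ) (u : M.Pt) : PF {δ | δ ∈ R M w ∧ M.ds δ = u} := by
  rintro δ ⟨-, h1⟩ δ' ⟨h2, h3⟩ h
  by_contra e
  have h4 : -M.L (M.ds δ) < -M.L (M.ds δ') := h2.1 δ h e
  rw [h1, h3] at h4
  exact lt_irrefl _ h4

lemma int_Y (M : Mod) (G : Set (List M.D)) (s : M.Pt → ℝ≥0∞) (T : Set M.Pt)
    (E : Set (M.Pt → ℕ → M.D)) : ∫⁻ a in E, M.Yf G s T a ∂M.P =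
      ∑' x, ∑' γ, if x ∈ T ∧ γ ∈ G then s (-(x + M.ds γ)) * M.P (M.F x γ ∩ E) else 0 := by
  have hm : ∀ x γ, Measurable fun a : M.Pt → ℕ → M.D =>
      if x ∈ T ∧ γ ∈ G then s (-(x + M.ds γ)) * (M.F x γ).indicator 1 a else 0 := by
    intro x γ
    split_ifs
    · exact (measurable_one.indicator (M.measurableSet_F x γ)).const_mul _
    · exact measurable_const
  unfold Mod.Yf
  rw [lintegral_tsum fun x => (Measurable.tsum (hm x)).aemeasurable]
  refine tsum_congr fun x => ?_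
  rw [lintegral_tsum fun γ => (hm x γ).aemeasurable]
  refine tsum_congr fun γ => ?_
  split_ifs
  · rw [lintegral_const_mul _ (measurable_one.indicator (M.measurableSet_F x γ)),
      lintegral_indicator_one (M.measurableSet_F x γ),
      Measure.restrict_apply (M.measurableSet_F x γ)]
  · simp

lemma lhs_le {M : Mod} {G : Set (List M.D)} {s : M.Pt → ℝ≥0∞} {w : ℝ} (S : Finset M.Pt)
    (hw : 1 ≤ w) (hG : ∀ γ ∈ G, M.Cross w γ) (hs : M.Slab s) :
    ∑ z' ∈ S, ∑' z, s z * M.Qk G z z' ≤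
      ∑' δ, if δ ∈ R M w then ∫⁻ a in M.F 0 δ, M.Yf G s (T M S (M.ds δ)) a ∂M.P else 0 := by
  let B : List M.D → M.Pt → List M.D → ℝ≥0∞ := fun δ x γ =>
    if δ ∈ R M w then (if x ∈ T M S (M.ds δ) ∧ γ ∈ G then
      s (-(x + M.ds γ)) * M.P (M.F x γ ∩ M.F 0 δ) else 0) else 0
  have e1 : (∑' δ, if δ ∈ R M w then ∫⁻ a in M.F 0 δ, M.Yf G s (T M S (M.ds δ)) a ∂M.P else 0) =
      ∑' z, ∑' γ, ∑' δ, B δ (-(z + M.ds γ)) γ := by
    rw [ENNReal.tsum_comm (f := fun z γ => ∑' δ, B δ (-(z + M.ds γ)) γ)]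
    simp only [fun γ => reidx M (M.ds γ) fun x => ∑' δ, B δ x γ]
    rw [ENNReal.tsum_comm (f := fun γ x => ∑' δ, B δ x γ)]
    simp only [fun x => ENNReal.tsum_comm (f := fun γ δ => B δ x γ)]
    rw [ENNReal.tsum_comm (f := fun x δ => ∑' γ, B δ x γ)]
    refine tsum_congr fun δ => ?_
    by_cases h : δ ∈ R M w
    · simp only [B, h, if_true, int_Y]
    · simp only [B, h, if_false, tsum_zero]
  rw [e1, ← Summable.tsum_finsetSum fun _ _ => ENNReal.summable]
  refine ENNReal.tsum_le_tsum fun z => ?_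
  unfold Mod.Qk
  simp only [← ENNReal.tsum_mul_left]
  rw [← Summable.tsum_finsetSum fun _ _ => ENNReal.summable]
  refine ENNReal.tsum_le_tsum fun γ => ?_
  rw [← Summable.tsum_finsetSum fun _ _ => ENNReal.summable]
  refine ENNReal.tsum_le_tsum fun δ => ?_
  by_cases h0 : s z = 0
  · simp [h0]
  by_cases h : γ ∈ G ∧ M.Dn (M.ds γ + z) δ (M.lv γ) ∧ M.ds γ + z + M.ds δ ∈ S
  · obtain ⟨h1, h2, h3⟩ := h
    have hz := hs z h0
    have hc := hG γ h1
    have h4 := hc.lv_lt (by linarith)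
    have h5 := hc.2.1
    have h6 : M.L (M.ds γ + z) = M.lv γ + M.L z := map_add _ _ _
    have h7 : δ ∈ R M w := mem_R hw (by linarith [hz.1]) (by linarith [hz.2]) h2
    have h8 : -(z + M.ds γ) ∈ T M S (M.ds δ) := by
      change M.ds δ - -(z + M.ds γ) ∈ S
      rwa [show M.ds δ - -(z + M.ds γ) = M.ds γ + z + M.ds δ by abel]
    have h9 : -(-(z + M.ds γ) + M.ds γ) = z := by abel
    have h10 := arrows_shift M.vec M.ν 0 (M.ds γ + z) (-(z + M.ds γ)) γ δ
    rw [zero_add, show M.ds γ + z + -(z + M.ds γ) = 0 by abel] at h10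
    rw [Finset.sum_eq_single (M.ds γ + z + M.ds δ)
      (fun b _ hb => by rw [if_neg fun e => hb e.2.2.symm, mul_zero]) fun e => absurd h3 e,
      if_pos ⟨h1, h2, rfl⟩]
    simp only [B, h7, h8, h1, and_self, if_true, h9]
    exact le_of_eq (congrArg _ h10.symm)
  · refine le_of_eq_of_le (Finset.sum_eq_zero fun b hb => ?_) zero_le
    rw [if_neg, mul_zero]
    rintro ⟨e1, e2, e3⟩
    exact h ⟨e1, e2, by rw [e3]; exact hb⟩

lemma ptw {t : ℝ≥0∞} (h0 : t ≠ 0) (h1 : t ≠ ⊤) (k : ℕ) (Y : ℝ≥0∞) :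
    Y ≤ t + Y ^ (k + 1) * (t ^ k)⁻¹ := by
  rcases le_total Y t with h | h
  · exact h.trans le_self_add
  · refine le_trans ?_ le_add_self
    calc Y = Y * t ^ k * (t ^ k)⁻¹ := by
          rw [mul_assoc, ENNReal.mul_inv_cancel (pow_ne_zero _ h0) (ENNReal.pow_ne_top h1),
            mul_one]
      _ ≤ Y * Y ^ k * (t ^ k)⁻¹ := by gcongr
      _ = _ := by rw [pow_succ']

lemma yb_eq (M : Mod) (G : Set (List M.D)) (s : M.Pt → ℝ≥0∞) (T : Set M.Pt) : M.yb G s T =
    ∑' z, s z * M.sm {γ | γ ∈ G ∧ -(z + M.ds γ) ∈ T} := by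
  unfold Mod.yb Mod.sm
  simp only [← ENNReal.tsum_mul_left]
  rw [ENNReal.tsum_comm, ENNReal.tsum_comm
    (f := fun z γ => s z * {γ | γ ∈ G ∧ -(z + M.ds γ) ∈ T}.indicator M.w γ)]
  refine tsum_congr fun γ => ?_
  rw [← reidx M (M.ds γ) fun z => s z * {γ | γ ∈ G ∧ -(z + M.ds γ) ∈ T}.indicator M.w γ]
  refine tsum_congr fun x => ?_
  have e : -(-(x + M.ds γ) + M.ds γ) = x := by abel
  split_ifs with h
  · rw [Set.indicator_of_mem]
    exact ⟨h.2, by rw [e]; exact h.1⟩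
  · rw [Set.indicator_of_notMem, mul_zero]
    exact fun h' => h ⟨by rw [← e]; exact h'.2, h'.1⟩

lemma yb_le {M : Mod} {G : Set (List M.D)} {s : M.Pt → ℝ≥0∞} {y : ℝ≥0∞} {S : Finset M.Pt}
    (h1 : ∑' z, s z = 1)
    (hy : ∀ S' : Finset M.Pt, S'.card ≤ S.card → M.sm {γ | γ ∈ G ∧ M.ds γ ∈ S'} ≤ y)
    (u : M.Pt) : M.yb G s (T M S u) ≤ y := by
  rw [yb_eq]
  calc _ ≤ ∑' z, s z * y := by
        refine ENNReal.tsum_le_tsum fun z => mul_le_mul' le_rfl ?_
        refine le_trans (Mod.sm_mono ?_) (hy (S.image fun b => b - (u + z)) Finset.card_image_le)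
        rintro γ ⟨a, b⟩
        exact ⟨a, Finset.mem_image.2 ⟨_, b, by abel⟩⟩
    _ = y := by rw [ENNReal.tsum_mul_right, h1, one_mul]

lemma sum_yb {M : Mod} {G : Set (List M.D)} {s : M.Pt → ℝ≥0∞} (S : Finset M.Pt) (hG : PF G)
    (h1 : ∑' z, s z = 1) : ∑' u, M.yb G s (T M S u) ≤ S.card := by
  have h2 : M.yb G s Set.univ ≤ 1 := by
    rw [yb_eq, ← h1]
    refine ENNReal.tsum_le_tsum fun z => ?_
    exact mul_le_of_le_one_right' (Mod.sm_le_one (hG.mono fun γ h => h.1))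
  refine le_trans (le_of_eq ?_) (mul_le_of_le_one_right' h2)
  unfold Mod.yb
  rw [ENNReal.tsum_comm, ← ENNReal.tsum_mul_left]
  refine tsum_congr fun x => ?_
  rw [ENNReal.tsum_comm, ← ENNReal.tsum_mul_left]
  refine tsum_congr fun γ => ?_
  by_cases h : γ ∈ G
  · simp only [h, and_true, Set.mem_univ, if_true]
    rw [← (Equiv.addRight x).tsum_eq, tsum_eq_sum (s := S)]
    · rw [Finset.sum_congr rfl (g := fun _ => s (-(x + M.ds γ)) * M.w γ), Finset.sum_const,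
        nsmul_eq_mul]
      intro b hb
      exact if_pos (by simpa [T] using hb)
    · intro b hb
      exact if_neg (by simpa [T] using hb)
  · simp [h]

lemma fibre (M : Mod) (w : ℝ) (f : M.Pt → (M.Pt → ℕ → M.D) → ℝ≥0∞) :
    (∑' δ, if δ ∈ R M w then ∫⁻ a in M.F 0 δ, f (M.ds δ) a ∂M.P else 0) ≤
      ∑' u, ∫⁻ a, f u a ∂M.P := by
  calc _ ≤ ∑' δ, ∑' u, {δ | δ ∈ R M w ∧ M.ds δ = u}.indicator
        (fun δ => ∫⁻ a in M.F 0 δ, f u a ∂M.P) δ := by
        refine ENNReal.tsum_le_tsum fun δ => ?_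
        split_ifs with h
        · refine le_trans (le_of_eq ?_) (ENNReal.le_tsum (M.ds δ))
          rw [Set.indicator_of_mem (s := {δ' | δ' ∈ R M w ∧ M.ds δ' = M.ds δ}) ⟨h, rfl⟩]
        · exact zero_le
    _ ≤ _ := by
        rw [ENNReal.tsum_comm]
        refine ENNReal.tsum_le_tsum fun u => ?_
        rw [← tsum_subtype, ← lintegral_iUnion (fun δ => M.measurableSet_F 0 _)]
        · exact setLIntegral_le_lintegral _ _
        · intro i j hij
          exact Set.disjoint_left.2 fun a ha hb =>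
            hij (Subtype.ext (Mod.eq_of_mem_F (pf_R M w u) i.2 j.2 ha hb))

end SetBAux

open SetBAux in
theorem s_set (hR : S_Rec) : S_Set := by
  intro M G s w χ y t S k hw hG hs h1 hM hy t0 t1 ht
  have hk : (t ^ k)⁻¹ ≠ ⊤ := ENNReal.inv_ne_top.2 (pow_ne_zero _ t0)
  have a1 : ∀ δ, (if δ ∈ R M w then ∫⁻ a in M.F 0 δ, M.Yf G s (T M S (M.ds δ)) a ∂M.P else 0) ≤
      t * (R M w).indicator M.w δ + if δ ∈ R M w then
        ∫⁻ a in M.F 0 δ, M.Yf G s (T M S (M.ds δ)) a ^ (k + 1) * (t ^ k)⁻¹ ∂M.P else 0 := by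
    intro δ
    split_ifs with h
    · refine (lintegral_mono fun a => ptw t0 t1 k _).trans (le_of_eq ?_)
      rw [lintegral_add_left measurable_const, setLIntegral_const, M.P_F,
        Set.indicator_of_mem h]
    · exact zero_le
  have a2 : (y + k * χ) ^ k * (t ^ k)⁻¹ ≤ 2⁻¹ ^ k := by
    have b1 : y + k * χ ≤ 2⁻¹ * t := by
      calc _ = 2⁻¹ * (2 * (y + k * χ)) := by
            rw [← mul_assoc, ENNReal.inv_mul_cancel (by norm_num) (by norm_num), one_mul]
        _ ≤ _ := by gcongr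
    calc _ ≤ (2⁻¹ * t) ^ k * (t ^ k)⁻¹ := by gcongr
      _ = _ := by
          rw [mul_pow, mul_assoc,
            ENNReal.mul_inv_cancel (pow_ne_zero _ t0) (ENNReal.pow_ne_top t1), mul_one]
  have a3 : ∀ u, ∫⁻ a, M.Yf G s (T M S u) a ^ (k + 1) * (t ^ k)⁻¹ ∂M.P ≤
      M.yb G s (T M S u) * 2⁻¹ ^ k := by
    intro u
    rw [lintegral_mul_const' _ _ hk]
    have b1 := hM (T M S u) (k + 1)
    rw [Finset.prod_range_succ', Nat.cast_zero, zero_mul, add_zero] at b1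
    have b2 : ∏ i ∈ Finset.range k, (M.yb G s (T M S u) + ((i + 1 : ℕ) : ℝ≥0∞) * χ) ≤
        (y + k * χ) ^ k := by
      refine (Finset.prod_le_pow_card _ _ _ fun i hi => ?_).trans
        (le_of_eq (by rw [Finset.card_range]))
      have b3 : ((i + 1 : ℕ) : ℝ≥0∞) ≤ k := Nat.cast_le.2 (Finset.mem_range.1 hi)
      exact add_le_add (yb_le h1 hy u) (mul_le_mul' b3 le_rfl)
    calc _ ≤ (y + k * χ) ^ k * M.yb G s (T M S u) * (t ^ k)⁻¹ :=
          mul_le_mul' (b1.trans (mul_le_mul' b2 le_rfl)) le_rfl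
      _ = M.yb G s (T M S u) * ((y + k * χ) ^ k * (t ^ k)⁻¹) := by ring
      _ ≤ _ := mul_le_mul' le_rfl a2
  refine (lhs_le S hw hG hs).trans ((ENNReal.tsum_le_tsum a1).trans ?_)
  rw [ENNReal.tsum_add, ENNReal.tsum_mul_left]
  refine add_le_add ?_ ?_
  · calc _ ≤ t * (3 * M.κ⁻¹) := mul_le_mul' le_rfl (sm_R hR M w)
      _ = 3 * M.κ⁻¹ * t := by ring
      _ ≤ _ := by gcongr; norm_num
  · refine (fibre M w fun u a => M.Yf G s (T M S u) a ^ (k + 1) * (t ^ k)⁻¹).trans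
      ((ENNReal.tsum_le_tsum a3).trans ?_)
    rw [ENNReal.tsum_mul_right]
    exact mul_le_mul' (sum_yb S ((M.pf_cross w).mono hG) h1) le_rfl

end Pool.Agent.MP_db8016_pr.BZ

end

section

/-! Anti-concentration of the renewal function at the rate `C / w`. -/

namespace Pool.Agent.MP_db8016_pr.BZ
open MeasureTheory ProbabilityTheory Filter Topology
open scoped ENNReal Classical

namespace ACRAux3
open Pool.Agent.MP_db8016_pr.BZ.Mod

variable (M : Mod)

lemma gg_le (A : Set M.Pt) (t : ℝ) (n : ℕ) (hA : ∀ x ∈ A, t ≤ M.L x ∧ M.L x < t + n) :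
    ∑' x, A.indicator M.gg x ≤ n * M.κ⁻¹ := by
  have h := ACAux.fiber M {γ | M.Up γ} (A.indicator 1)
  have e : ∀ x, A.indicator M.gg x =
      M.sm {π | π ∈ {γ | M.Up γ} ∧ M.ds π = x} * A.indicator 1 x := by
    intro x
    by_cases hx : x ∈ A
    · rw [Set.indicator_of_mem hx, Set.indicator_of_mem hx, Pi.one_apply, mul_one]
      rfl
    · rw [Set.indicator_of_notMem hx, Set.indicator_of_notMem hx, mul_zero]
  simp only [e]
  rw [h]
  refine le_trans (ENNReal.tsum_le_tsum fun π => ?_) (rec_n t n)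
  by_cases h1 : π ∈ {γ | M.Up γ}
  · by_cases h2 : M.ds π ∈ A
    · rw [Set.indicator_of_mem h1, Set.indicator_of_mem h2, Pi.one_apply, mul_one,
        Set.indicator_of_mem (by exact ⟨h1.2, hA _ h2⟩)]
    · rw [Set.indicator_of_notMem h2, mul_zero]
      exact zero_le
  · rw [Set.indicator_of_notMem h1, zero_mul]
    exact zero_le

lemma cancel : M.κ * M.κ⁻¹ = 1 :=
  ENNReal.mul_inv_cancel M.hκ (ne_top_of_le_ne_top ENNReal.one_ne_top M.κ_le_one)

/-- The normalised renewal mass of `S` seen from `v`. -/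
noncomputable def Psi (S : Finset M.Pt) (v : M.Pt) : ℝ≥0∞ := M.κ * ∑ x ∈ S, M.gg (x - v)

lemma Psi_le {t : ℝ} {S : Finset M.Pt} (hS : M.InU t S) (v : M.Pt) : Psi M S v ≤ 1 := by
  have h := gg_le M (S.image fun x => x - v) (t - M.L v) 1 (by
    intro y hy
    obtain ⟨x, hx, rfl⟩ := Finset.mem_image.1 (Finset.mem_coe.1 hy)
    rw [map_sub, Nat.cast_one]
    constructor <;> linarith [(hS x hx).1, (hS x hx).2])
  rw [← sum_eq_tsum_indicator, Finset.sum_image (fun a _ b _ e => sub_left_injective e),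
    Nat.cast_one, one_mul] at h
  exact (mul_le_mul_right h _).trans (cancel M).le

lemma slab (S : Finset M.Pt) (t : ℝ) :
    ∑' v, {v | t ≤ M.L v ∧ M.L v < t + 1}.indicator (Psi M S) v ≤ 2 * S.card := by
  have e : ∀ v, {v | t ≤ M.L v ∧ M.L v < t + 1}.indicator (Psi M S) v = M.κ * ∑ x ∈ S,
      {y | t ≤ M.L (x - y) ∧ M.L (x - y) < t + 1}.indicator M.gg (x - v) := by
    intro v
    by_cases hv : v ∈ {v | t ≤ M.L v ∧ M.L v < t + 1}
    · rw [Set.indicator_of_mem hv, Psi]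
      congr 1
      refine Finset.sum_congr rfl fun x _ => ?_
      rw [Set.indicator_of_mem]
      simpa using hv
    · rw [Set.indicator_of_notMem hv, Finset.sum_eq_zero, mul_zero]
      intro x _
      rw [Set.indicator_of_notMem]
      simpa using hv
  simp only [e]
  rw [ENNReal.tsum_mul_left, Summable.tsum_finsetSum (fun _ _ => ENNReal.summable)]
  have h : ∑ x ∈ S, ∑' v, {y | t ≤ M.L (x - y) ∧ M.L (x - y) < t + 1}.indicator M.gg (x - v) ≤
      S.card • ((2 : ℕ) * M.κ⁻¹) := by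
    refine Finset.sum_le_card_nsmul _ _ _ fun x _ => ?_
    refine le_trans (le_of_eq ((Equiv.subLeft x).tsum_eq
      ({y | t ≤ M.L (x - y) ∧ M.L (x - y) < t + 1}.indicator M.gg))) ?_
    refine gg_le M _ (M.L x - t - 1) 2 fun y hy => ?_
    obtain ⟨h1, h2⟩ := hy
    rw [map_sub] at h1 h2
    push_cast
    constructor <;> linarith
  refine (mul_le_mul_right h _).trans (le_of_eq ?_)
  rw [nsmul_eq_mul, Nat.cast_ofNat]
  calc M.κ * (S.card * (2 * M.κ⁻¹)) = 2 * S.card * (M.κ * M.κ⁻¹) := by ring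
    _ = 2 * S.card := by rw [cancel, mul_one]

lemma main (hP : T_PcOp) (n : ℕ) (y : ℝ) (S : Finset M.Pt) :
    M.κ * ∑' α, (if M.Pc n α ∧ M.lv α ≤ y then M.w α * ∑ x ∈ S, M.gg (x - M.ds α) else 0) ≤
      (op M.qq)^[n] (Psi M S) 0 := by
  refine le_trans ?_ (hP M n (Psi M S) 0)
  rw [← ENNReal.tsum_mul_left]
  refine ENNReal.tsum_le_tsum fun α => ?_
  by_cases h : M.Pc n α ∧ M.lv α ≤ y
  · rw [if_pos h, if_pos h.1, zero_add, Psi, mul_left_comm]
  · rw [if_neg h, mul_zero]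
    exact zero_le

end ACRAux3

open ACRAux3 Pool.Agent.MP_db8016_pr.BZ.Mod in
theorem t_acr (hW : S_RW) (hB : T_Bad) (hD : T_Dec) (hP : T_PcOp) : T_ACR := by
  rintro M ⟨h, hinj, hh, -, hπ⟩ hs hm η hη
  obtain ⟨e, he, heη⟩ : ∃ e : ℝ, 0 < e ∧ ENNReal.ofReal e ≤ η := by
    refine ⟨(min η 1).toReal, ENNReal.toReal_pos (lt_min (pos_iff_ne_zero.2 hη) one_pos).ne'
      (ne_top_of_le_ne_top ENNReal.one_ne_top (min_le_right _ _)), ?_⟩
    exact ENNReal.ofReal_toReal_le.trans (min_le_left _ _)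
  have hκt : M.κ ≠ ⊤ := ne_top_of_le_ne_top ENNReal.one_ne_top M.κ_le_one
  obtain ⟨k, hk, hkκ⟩ : ∃ k : ℝ, 0 < k ∧ ENNReal.ofReal k = M.κ :=
    ⟨M.κ.toReal, ENNReal.toReal_pos M.hκ hκt, ENNReal.ofReal_toReal hκt⟩
  obtain ⟨m, hm0, hmm⟩ : ∃ m : ℝ, 0 ≤ m ∧ ENNReal.ofReal m = M.m1 * M.κ⁻¹ :=
    ⟨_, ENNReal.toReal_nonneg,
      ENNReal.ofReal_toReal (ENNReal.mul_ne_top hm (ENNReal.inv_ne_top.2 M.hκ))⟩
  obtain ⟨C, n₀, hC, H⟩ := hW M.Pt M.L 3 M.qq (M.κ ^ 4) (M.vec M.u) h (by decide)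
    (pow_ne_zero _ M.hκ) (tsum_qq.le.trans hs)
    ((ACAux.w_ge M (π := [M.u]) (by simp)).trans (ACAux.w_le_sm M ⟨ACAux.irr_u M, by simp⟩))
    (fun j => by
      obtain ⟨π, p1, p2, p3⟩ := hπ j
      exact (ACAux.w_ge M p3).trans (ACAux.w_le_sm M ⟨p1, p2⟩)) hinj hh
    (ENNReal.ofReal (k * e / 3)) (by
      rw [Ne, ENNReal.ofReal_eq_zero, not_le]
      positivity)
  obtain ⟨δ, hδ, hδm⟩ : ∃ δ : ℝ, 0 < δ ∧ 6 * δ * m ≤ e := by
    refine ⟨e / (6 * (m + 1)), by positivity, ?_⟩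
    rw [show 6 * (e / (6 * (m + 1))) * m = e * (m / (m + 1)) by field_simp]
    exact mul_le_of_le_one_right he.le ((div_le_one (by positivity)).2 (by linarith))
  obtain ⟨A, hA, hAC⟩ : ∃ A : ℝ, 0 < A ∧ 24 * C ≤ δ * k * e * A := by
    refine ⟨24 * C / (δ * k * e) + 1, by positivity, ?_⟩
    rw [mul_add, mul_div_cancel₀ _ (by positivity), mul_one]
    have : 0 < δ * k * e := by positivity
    linarith
  refine ⟨A, hA, ⌈(n₀ + 2) / δ⌉₊ + 6, fun w hw S t ht hS hc => ?_⟩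
  have hw6 : (6 : ℝ) ≤ w := by exact_mod_cast le_trans (Nat.le_add_left _ _) hw
  have hwδ : (n₀ : ℝ) + 2 ≤ δ * w := by
    have h1 : ((n₀ : ℝ) + 2) / δ ≤ w :=
      (Nat.le_ceil _).trans (by exact_mod_cast le_trans (Nat.le_add_right _ _) hw)
    rwa [div_le_iff₀ hδ, mul_comm] at h1
  obtain ⟨n, hn1, hn2⟩ : ∃ n : ℕ, (n : ℝ) ≤ δ * w ∧ δ * w < n + 1 :=
    ⟨⌊δ * w⌋₊, Nat.floor_le (by positivity), Nat.lt_floor_add_one _⟩
  have hn0 : (0 : ℝ) ≤ n₀ := Nat.cast_nonneg _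
  have hn : n₀ ≤ n := by
    have : (n₀ : ℝ) ≤ n := by linarith
    exact_mod_cast this
  have hnp : (0 : ℝ) < n := by linarith
  have hy : (0 : ℝ) < w - 3 := by linarith
  have h1 : M.UW t (fun γ => if M.Bad n ((w : ℝ) - 3) γ then 1 else 0) ≤
      ENNReal.ofReal (e / 3) := by
    have h2 := hB M n (w - 3) t hs hy.le
    refine (ENNReal.mul_le_mul_iff_right (a := ENNReal.ofReal ((w : ℝ) - 3))
      (by rwa [Ne, ENNReal.ofReal_eq_zero, not_le]) ENNReal.ofReal_ne_top).1 (h2.trans ?_)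
    rw [← hmm, ← ENNReal.ofReal_natCast, ← ENNReal.ofReal_mul hnp.le,
      ← ENNReal.ofReal_mul hy.le]
    refine ENNReal.ofReal_le_ofReal ?_
    have h3 : (n : ℝ) * m ≤ δ * w * m := mul_le_mul_of_nonneg_right hn1 hm0
    have h4 : 6 * δ * m * w ≤ e * w := mul_le_mul_of_nonneg_right hδm (by linarith)
    have h5 : e * 6 ≤ e * w := mul_le_mul_of_nonneg_left hw6 he.le
    linarith
  have h2 := (main M hP n (w - 3) S).trans (H n hn (Psi M S) _ (Psi_le M hS) (slab M S))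
  have h3 : ENNReal.ofReal (C * (n : ℝ) ^ (-(((3 : ℕ) : ℝ) - 1) / 2)) * (2 * S.card) ≤
      ENNReal.ofReal (k * e / 3) := by
    rw [show -(((3 : ℕ) : ℝ) - 1) / 2 = -1 by norm_num, Real.rpow_neg_one,
      ← ENNReal.ofReal_natCast, ← ENNReal.ofReal_ofNat, ← ENNReal.ofReal_mul (by norm_num),
      ← ENNReal.ofReal_mul (by positivity)]
    refine ENNReal.ofReal_le_ofReal ?_
    have hw0 : (0 : ℝ) < w := by linarith
    have h4 : S.card * A ≤ 2 * w := by
      rw [← mul_div_assoc, div_le_iff₀ hw0] at hc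
      exact hc
    have hs0 : (0 : ℝ) ≤ S.card := Nat.cast_nonneg _
    rw [← div_eq_mul_inv, div_mul_eq_mul_div, div_le_iff₀ hnp]
    have h5 : δ * w ≤ 2 * n := by linarith
    have h6 : 24 * C * S.card ≤ δ * k * e * A * S.card := mul_le_mul_of_nonneg_right hAC hs0
    have h7 : δ * k * e * (S.card * A) ≤ δ * k * e * (2 * w) :=
      mul_le_mul_of_nonneg_left h4 (by positivity)
    have h8 : k * e * (δ * w) ≤ k * e * (2 * n) := mul_le_mul_of_nonneg_left h5 (by positivity)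
    linarith
  have h4 : ∑' α, (if M.Pc n α ∧ M.lv α ≤ (w : ℝ) - 3 then
      M.w α * ∑ x ∈ S, M.gg (x - M.ds α) else 0) ≤ ENNReal.ofReal (2 * e / 3) := by
    refine (ENNReal.mul_le_mul_iff_right M.hκ hκt).1 (h2.trans ((add_le_add_right h3 _).trans ?_))
    rw [← hkκ, ← ENNReal.ofReal_add (by positivity) (by positivity), ← ENNReal.ofReal_mul hk.le]
    exact ENNReal.ofReal_le_ofReal (by linarith)
  refine (hD M n (w - 3) t S (by linarith) hS).trans ((add_le_add h1 h4).trans ?_)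
  rw [← ENNReal.ofReal_add (by positivity) (by positivity)]
  exact (ENNReal.ofReal_le_ofReal (by linarith)).trans heη

end Pool.Agent.MP_db8016_pr.BZ

end

section

/-! Anti-concentration when the expected number of common renewals is finite. -/

namespace Pool.Agent.MP_db8016_pr.BZ
open MeasureTheory ProbabilityTheory Filter Topology
open scoped ENNReal Classical

namespace ACTAux3

lemma tail_zero {ι : Type} (g : ι → ℝ≥0∞) (hg : ∑' x, g x ≠ ⊤) (L : ι → ℝ) :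
    Tendsto (fun v : ℝ => ∑' x, if v ≤ L x then g x else 0) atTop (𝓝 0) := by
  rw [ENNReal.tendsto_nhds_zero]
  intro ε hε
  obtain ⟨s, hs⟩ := (ENNReal.tendsto_nhds_zero.1 (ENNReal.tendsto_tsum_compl_atTop_zero hg)
    ε hε).exists
  obtain ⟨B, hB⟩ := (s.finite_toSet.image L).bddAbove
  filter_upwards [eventually_gt_atTop B] with v hv
  refine le_trans ?_ (le_trans (le_of_eq (tsum_subtype {x | x ∉ s} g).symm) hs)
  refine ENNReal.tsum_le_tsum fun x => ?_
  split_ifs with h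
  · rw [Set.indicator_of_mem]
    exact fun hx => by linarith [hB ⟨x, hx, rfl⟩]
  · exact zero_le

lemma le_sq {μ : ℝ≥0∞} (h0 : μ ≠ 0) (h1 : μ ≠ ⊤) (g : ℝ≥0∞) : g ≤ μ + μ⁻¹ * g ^ 2 := by
  rcases le_total g μ with h | h
  · exact h.trans le_self_add
  · refine le_trans ?_ le_add_self
    calc g = μ⁻¹ * (μ * g) := by rw [← mul_assoc, ENNReal.inv_mul_cancel h0 h1, one_mul]
      _ ≤ _ := by rw [sq]; gcongr

variable (M : Mod)

/-- The tail of the sum of squares. -/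
noncomputable def tl (v : ℝ) : ℝ≥0∞ := ∑' x, if v ≤ M.L x then M.gg x ^ 2 else 0

lemma sq_le {y t : ℝ} {S : Finset M.Pt} (hS : M.InU t S) :
    ∑' α, (if M.Up α ∧ M.lv α ≤ y then M.w α * ∑ x ∈ S, M.gg (x - M.ds α) ^ 2 else 0) ≤
      M.κ⁻¹ * tl M (t - y - 1 + 1) := by
  let Q : M.Pt → Set (List M.D) := fun v =>
    {δ | M.Rc δ ∧ t - M.L v ≤ M.lv δ ∧ M.lv δ < t - M.L v + 1}
  calc _ ≤ ∑' α, ∑' v, (Q v).indicator M.w α *
        (if t - y - 1 + 1 ≤ M.L v then M.gg v ^ 2 else 0) := by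
        refine ENNReal.tsum_le_tsum fun α => ?_
        split_ifs with h
        · refine le_trans ?_ (ENNReal.tsum_comp_le_tsum_of_injective
            (sub_left_injective (b := M.ds α)) _)
          refine le_trans (le_of_eq ?_) (ENNReal.sum_le_tsum S)
          rw [Finset.mul_sum]
          refine Finset.sum_congr rfl fun x hx => ?_
          obtain ⟨h1, h2⟩ := hS x hx
          have e : M.L (x - M.ds α) = M.L x - M.lv α := map_sub _ _ _
          rw [Set.indicator_of_mem (by exact ⟨h.1.2, by linarith, by linarith⟩),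
            if_pos (by linarith [h.2])]
        · exact zero_le
    _ ≤ _ := by
        rw [ENNReal.tsum_comm, tl, ← ENNReal.tsum_mul_left]
        refine ENNReal.tsum_le_tsum fun v => ?_
        rw [ENNReal.tsum_mul_right]
        exact mul_le_mul_left (s_rec M _) _

lemma key (hB : T_Bad) (hD : T_Dec) (hI : M.sm {γ | M.Irr γ} ≤ 1) (n : ℕ) {y t : ℝ} (hy : 0 < y)
    (ht : y < t) {S : Finset M.Pt} (hS : M.InU t S) {μ : ℝ≥0∞} (h0 : μ ≠ 0) (h1 : μ ≠ ⊤) :
    n * ∑ x ∈ S, M.gg x ≤ n * (n * (M.m1 * M.κ⁻¹) / ENNReal.ofReal y) +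
      (μ * S.card * (ENNReal.ofReal (y + 1 + 1) * M.κ⁻¹) +
        μ⁻¹ * (M.κ⁻¹ * tl M (t - y - 1 + 1))) := by
  have a1 := Finset.sum_le_sum (s := Finset.range n) fun i _ => hD M i y t S ht hS
  rw [Finset.sum_const, Finset.card_range, nsmul_eq_mul, Finset.sum_add_distrib] at a1
  refine a1.trans (add_le_add ?_ ?_)
  · refine (Finset.sum_le_card_nsmul _ _ _ fun i hi => ?_).trans
      (by rw [Finset.card_range, nsmul_eq_mul])
    rw [ENNReal.le_div_iff_mul_le (Or.inl (by simpa using hy)) (Or.inl ENNReal.ofReal_ne_top),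
      mul_comm]
    refine (hB M i y t hI hy.le).trans (mul_le_mul_left ?_ _)
    exact_mod_cast (Finset.mem_range.1 hi).le
  rw [← Summable.tsum_finsetSum fun _ _ => ENNReal.summable]
  calc _ ≤ ∑' α, (μ * S.card * {γ | M.Up γ ∧ M.lv γ < y + 1}.indicator M.w α +
        μ⁻¹ * if M.Up α ∧ M.lv α ≤ y then M.w α * ∑ x ∈ S, M.gg (x - M.ds α) ^ 2 else 0) := by
        refine ENNReal.tsum_le_tsum fun α => ?_
        by_cases h : ∃ i, M.Pc i α ∧ M.lv α ≤ y
        · obtain ⟨i, hi, hl⟩ := h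
          refine le_trans (Finset.sum_le_sum (g := fun j => if j = i then
            M.w α * ∑ x ∈ S, M.gg (x - M.ds α) else 0) fun j _ => ?_) ?_
          · split_ifs with c d
            · exact le_rfl
            · exact absurd (c.1.unique hi) d
            · exact zero_le
            · exact le_rfl
          rw [Finset.sum_ite_eq', Set.indicator_of_mem (by exact ⟨hi.up, by linarith⟩),
            if_pos (And.intro hi.up hl)]
          refine le_trans (b := M.w α * ∑ x ∈ S, M.gg (x - M.ds α)) (by split_ifs <;> simp) ?_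
          refine (mul_le_mul_right (Finset.sum_le_sum fun x _ => le_sq h0 h1 _) _).trans
            (le_of_eq ?_)
          rw [Finset.sum_add_distrib, Finset.sum_const, nsmul_eq_mul, ← Finset.mul_sum]
          ring
        · rw [Finset.sum_eq_zero fun i _ => if_neg fun c => h ⟨i, c⟩]
          exact zero_le
    _ ≤ _ := by
        rw [ENNReal.tsum_add, ENNReal.tsum_mul_left, ENNReal.tsum_mul_left]
        exact add_le_add (mul_le_mul_right (Mod.up_lt (by linarith)) _)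
          (mul_le_mul_right (sq_le M hS) _)

lemma num {e a k T w n s : ℝ} (he : 0 < e) (ha : 0 ≤ a) (hk : 0 ≤ k) (hT : 0 ≤ T) (hw : 4 ≤ w)
    {δ c f : ℝ} (hδ : δ = e / (6 * (a + 1))) (hc : c = e * δ / (12 * (k + 1)))
    (hf : f = 6 * k / (c * e * δ) * T + 1 / w) (h1 : n ≤ δ * w) (h2 : δ * w ≤ 2 * n)
    (hs : s * (f / w) ≤ 2) :
    n * (n * a / (w / 2)) + (c * (f / w) * s * ((w / 2 + 1 + 1) * k) +
      (c * (f / w))⁻¹ * (k * T)) ≤ n * e := by
  have hδ0 : 0 < δ := by rw [hδ]; positivity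
  have hc0 : 0 < c := by rw [hc]; positivity
  have hw0 : 0 < w := by linarith
  have hf0 : 0 < f := by rw [hf]; positivity
  have hn : 0 ≤ n := by nlinarith
  have e1 : δ * (6 * (a + 1)) = e := by rw [hδ]; field_simp
  have e2 : c * (12 * (k + 1)) = e * δ := by rw [hc]; field_simp
  have b1 : n * a / (w / 2) ≤ e / 3 := by
    rw [div_le_iff₀ (by positivity)]
    nlinarith [mul_le_mul_of_nonneg_right h1 ha, mul_pos hδ0 hw0]
  have b2 : c * (f / w) * s * ((w / 2 + 1 + 1) * k) ≤ e * δ * w / 6 := by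
    calc _ = c * (s * (f / w)) * ((w / 2 + 1 + 1) * k) := by ring
      _ ≤ c * 2 * (w * (k + 1)) := by gcongr <;> linarith
      _ = _ := by rw [← e2]; ring
  have b3 : (c * (f / w))⁻¹ * (k * T) ≤ e * δ * w / 6 := by
    rw [inv_mul_le_iff₀ (by positivity)]
    calc k * T = c * e * δ / 6 * (6 * k / (c * e * δ) * T) := by field_simp
      _ ≤ c * e * δ / 6 * f := by
          gcongr
          rw [hf]
          exact le_add_of_nonneg_right (by positivity)
      _ = _ := by field_simp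
  nlinarith [mul_le_mul_of_nonneg_left b1 hn, mul_le_mul_of_nonneg_left h2 he.le]

end ACTAux3

open ACTAux3 in
theorem t_act (hB : T_Bad) (hD : T_Dec) : T_ACT := by
  intro M hI hm hG η hη
  have hK : M.κ⁻¹ ≠ ⊤ := ENNReal.inv_ne_top.2 M.hκ
  have hl : ∀ v, tl M v ≠ ⊤ := fun v => ne_top_of_le_ne_top hG
    (ENNReal.tsum_le_tsum fun x => by split_ifs <;> simp)
  have hη1 : min η 1 ≠ ⊤ := ne_top_of_le_ne_top ENNReal.one_ne_top (min_le_right _ _)
  set e := (min η 1).toReal with he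
  have he0 : 0 < e := ENNReal.toReal_pos (lt_min (pos_iff_ne_zero.2 hη) one_pos).ne' hη1
  set a := (M.m1 * M.κ⁻¹).toReal with ha
  set k := M.κ⁻¹.toReal with hk
  have ha0 : 0 ≤ a := ENNReal.toReal_nonneg
  have hk0 : 0 ≤ k := ENNReal.toReal_nonneg
  obtain ⟨δ, hδ⟩ : ∃ δ, δ = e / (6 * (a + 1)) := ⟨_, rfl⟩
  obtain ⟨c, hc⟩ : ∃ c, c = e * δ / (12 * (k + 1)) := ⟨_, rfl⟩
  have hδ0 : 0 < δ := by rw [hδ]; positivity
  have hc0 : 0 < c := by rw [hc]; positivity
  have hT : Tendsto (fun w : ℕ => (tl M ((w : ℝ) / 2 - 2)).toReal) atTop (𝓝 0) :=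
    (ENNReal.tendsto_toReal ENNReal.zero_ne_top).comp ((tail_zero _ hG M.L).comp
      (tendsto_atTop_add_const_right _ (-2)
        (tendsto_natCast_atTop_atTop.atTop_div_const two_pos)))
  refine ⟨fun w => 6 * k / (c * e * δ) * (tl M ((w : ℝ) / 2 - 2)).toReal + 1 / w, ?_,
    max 5 ⌈δ⁻¹⌉₊, fun w hw S t ht hS hc' => ?_⟩
  · simpa only [mul_zero, add_zero] using
      (hT.const_mul _).add (tendsto_one_div_atTop_nhds_zero_nat (𝕜 := ℝ))
  have hw5 : (5 : ℝ) ≤ w := by exact_mod_cast (le_max_left _ _).trans hw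
  have hw1 : 1 ≤ δ * w := by
    rw [← inv_le_iff_one_le_mul₀' hδ0]
    exact (Nat.le_ceil _).trans (by exact_mod_cast (le_max_right _ _).trans hw)
  set f := 6 * k / (c * e * δ) * (tl M ((w : ℝ) / 2 - 2)).toReal + 1 / w with hf
  have hf0 : 0 < c * (f / w) := by positivity
  set n := ⌊δ * w⌋₊ with hn
  have hn1 : 1 ≤ n := Nat.le_floor (by simpa using hw1)
  have hn2 : δ * w ≤ 2 * n := by
    have : (1 : ℝ) ≤ n := by exact_mod_cast hn1
    linarith [Nat.lt_floor_add_one (δ * w)]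
  have h0 : ENNReal.ofReal (c * (f / w)) ≠ 0 := by simpa using hf0
  have hy : ENNReal.ofReal ((w : ℝ) / 2) ≠ 0 := by
    rw [Ne, ENNReal.ofReal_eq_zero]
    linarith
  have h1 := key M hB hD hI n (y := w / 2) (by linarith) (by linarith) hS h0 ENNReal.ofReal_ne_top
  have h2 : tl M (t - w / 2 - 1 + 1) ≤ tl M ((w : ℝ) / 2 - 2) :=
    ENNReal.tsum_le_tsum fun x => by
      split_ifs with p q
      · exact le_rfl
      · exact absurd (by linarith) q
      · exact zero_le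
      · exact le_rfl
  have h3 := hl ((w : ℝ) / 2 - 2)
  refine le_trans ?_ (min_le_left η 1)
  rw [← ENNReal.mul_le_mul_iff_right (a := n) (by simpa using by omega) (by simp)]
  refine (h1.trans (add_le_add_right (add_le_add_right
    (mul_le_mul_right (mul_le_mul_right h2 _) _) _) _)).trans ?_
  rw [← ENNReal.toReal_le_toReal (by finiteness) (by finiteness),
    ENNReal.toReal_add (by finiteness) (by finiteness),
    ENNReal.toReal_add (by finiteness) (by finiteness)]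
  simp only [ENNReal.toReal_mul (a := (n : ℝ≥0∞)), ENNReal.toReal_div, ENNReal.toReal_natCast]
  rw [← ha, ← he]
  simp only [ENNReal.toReal_mul, ENNReal.toReal_natCast, ← hk]
  rw [ENNReal.toReal_inv, ENNReal.toReal_ofReal hf0.le, ENNReal.toReal_ofReal (by positivity),
    ENNReal.toReal_ofReal (by positivity)]
  exact num he0 ha0 hk0 ENNReal.toReal_nonneg (by linarith) hδ hc hf
    (Nat.floor_le (by positivity)) hn2 hc'

end Pool.Agent.MP_db8016_pr.BZ

end

section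

/-! The weight of a finite set in terms of the largest density. -/

namespace Pool.Agent.MP_db8016_pr.BZ
open MeasureTheory ProbabilityTheory Filter
open scoped ENNReal Classical

namespace Set3Aux3
open SetBAux

lemma rec_ext (M : Mod) (t : ℝ) (δ : List M.D) :
    M.sm {ζ | (M.Rc ζ ∧ t ≤ M.lv ζ ∧ M.lv ζ < t + 1) ∧ δ <+: ζ} ≤ M.κ⁻¹ * M.w δ := by
  have k0 : M.κ ≠ ⊤ := ne_top_of_le_ne_top ENNReal.one_ne_top M.κ_le_one
  rw [mul_comm, ← div_eq_mul_inv, ENNReal.le_div_iff_mul_le (Or.inl M.hκ) (Or.inl k0)]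
  set A := {ζ | (M.Rc ζ ∧ t ≤ M.lv ζ ∧ M.lv ζ < t + 1) ∧ δ <+: ζ}
  have hp : PF {ζ | ∃ ρ ∈ A, ζ = ρ ++ [M.u]} :=
    (RecAux.pf_rec M t).mono fun _ ⟨ρ, h, e⟩ => ⟨ρ, h.1, e⟩
  have key := Mod.tsum_le_sm (G := {ζ | ∃ ρ ∈ A, ζ = ρ ++ [M.u]})
    (fun ρ : A => (ρ : List M.D) ++ [M.u])
    (fun a b e => Subtype.ext (List.append_cancel_right e)) (fun ρ => ⟨ρ, ρ.2, rfl⟩)
  rw [← Mod.P_iUnion hp 0] at key
  refine le_trans ?_ (key.trans ?_)
  · rw [Mod.sm_eq_tsum, ← ENNReal.tsum_mul_right]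
    refine ENNReal.tsum_le_tsum fun ρ => ?_
    have := M.w_append_ge ρ [M.u]
    rwa [List.length_singleton, pow_one, mul_comm] at this
  · rw [← M.P_F 0]
    refine measure_mono (Set.iUnion₂_subset ?_)
    rintro _ ⟨_, ⟨-, τ, rfl⟩, rfl⟩
    rw [List.append_assoc]
    exact Fol_append_subset _ _ _ _

lemma R_ext (M : Mod) (w : ℝ) (δ : List M.D) :
    M.sm {ζ | ζ ∈ R M w ∧ δ <+: ζ} ≤ 3 * M.κ⁻¹ * M.w δ := by
  have h1 : M.sm _ ≤ M.κ⁻¹ * M.w δ := rec_ext M.neg (w - 1) δ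
  have h2 : M.sm _ ≤ M.κ⁻¹ * M.w δ := rec_ext M.neg w δ
  have h3 : M.sm _ ≤ M.κ⁻¹ * M.w δ := rec_ext M.neg (w + 1) δ
  have e : 3 * M.κ⁻¹ * M.w δ = M.κ⁻¹ * M.w δ + (M.κ⁻¹ * M.w δ + M.κ⁻¹ * M.w δ) := by ring
  rw [e]
  refine le_trans (Mod.sm_mono ?_) ((sm_union M _ _).trans
    (add_le_add h1 ((sm_union M _ _).trans (add_le_add h2 h3))))
  rintro ζ ⟨⟨a, b, c⟩, d⟩
  rcases lt_or_ge (M.neg.lv ζ) w with h | h
  · exact Or.inl ⟨⟨a, b, by linarith⟩, d⟩
  rcases lt_or_ge (M.neg.lv ζ) (w + 1) with h' | h'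
  · exact Or.inr (Or.inl ⟨⟨a, h, h'⟩, d⟩)
  · exact Or.inr (Or.inr ⟨⟨a, h', by linarith⟩, d⟩)

lemma Yf_le {M : Mod} {G : Set (List M.D)} {s : M.Pt → ℝ≥0∞} {w : ℝ}
    (hG : ∀ γ ∈ G, M.Cross w γ ∧ ∃ γ', M.Up γ' ∧ γ = γ' ++ [M.u]) (hs : M.Slab s) (T : Set M.Pt)
    (a : M.Fld) : M.Yf G s T a ≤ M.Yc (M.cf s T) a := by
  refine ENNReal.tsum_le_tsum fun x => ENNReal.tsum_le_tsum fun γ => ?_
  split_ifs with h
  · by_cases h0 : s (-(x + M.ds γ)) = 0
    · rw [h0, zero_mul]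
      exact zero_le
    obtain ⟨h1, h2⟩ := hs _ h0
    obtain ⟨hc, γ', hu, rfl⟩ := hG γ h.2
    rw [map_neg, map_add] at h1 h2
    have e : M.L (M.ds (γ' ++ [M.u])) = M.lv γ' + 1 := by
      change M.lv _ = _
      simp [M.hu]
    refine mul_le_mul_left (le_of_eq (if_pos ⟨h.1, hc.up, fun α a1 a2 => ?_, ?_⟩).symm) _
    swap
    · unfold Mod.lv
      linarith
    rcases Mod.pf_append_cases a1 with ⟨b1, b2⟩ | ⟨β, b1, rfl⟩
    · linarith [hu.2 α b1 b2]
    · rcases List.prefix_cons_iff.1 b1 with rfl | ⟨τ, rfl, b2⟩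
      · rw [List.append_nil]
        linarith
      · rw [List.prefix_nil.1 b2] at a2
        exact absurd rfl a2
  · exact zero_le

/-- The walker from the origin follows the low record `δ`. -/
noncomputable def I (M : Mod) (w : ℝ) (δ : List M.D) (a : M.Fld) : ℝ≥0∞ :=
  if δ ∈ R M w then (M.F 0 δ).indicator 1 a else 0

/-- The walker follows two low records. -/
noncomputable def Q (M : Mod) (w : ℝ) (δ ζ : List M.D) (a : M.Fld) : ℝ≥0∞ :=
  if δ ∈ R M w ∧ ζ ∈ R M w ∧ δ <+: ζ then (M.F 0 ζ).indicator 1 a else 0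

lemma measurable_Q (M : Mod) (w : ℝ) (δ ζ : List M.D) : Measurable (Q M w δ ζ) := by
  unfold Q
  split_ifs
  · exact measurable_one.indicator (M.measurableSet_F 0 ζ)
  · exact measurable_const

lemma sq_le (M : Mod) (w : ℝ) (a : M.Fld) :
    (∑' δ, I M w δ a) * ∑' δ, I M w δ a ≤ 2 * ∑' δ, ∑' ζ, Q M w δ ζ a := by
  rw [two_mul, ← ENNReal.tsum_mul_right]
  nth_rewrite 2 [ENNReal.tsum_comm (f := fun δ ζ => Q M w δ ζ a)]
  rw [← ENNReal.tsum_add]
  refine ENNReal.tsum_le_tsum fun δ => ?_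
  rw [← ENNReal.tsum_add, ← ENNReal.tsum_mul_left]
  refine ENNReal.tsum_le_tsum fun ζ => ?_
  unfold I Q
  by_cases h1 : δ ∈ R M w
  swap
  · simp [h1]
  by_cases h2 : ζ ∈ R M w
  swap
  · simp [h2]
  by_cases h3 : a ∈ M.F 0 δ
  swap
  · simp [h3]
  by_cases h4 : a ∈ M.F 0 ζ
  swap
  · simp [h4]
  rcases pf_or_pf_of_mem_Fol M.vec h3 h4 with h | h <;> simp [h1, h2, h3, h4, h]

lemma int_Q (M : Mod) (w : ℝ) : ∫⁻ a, ∑' δ, ∑' ζ, Q M w δ ζ a ∂M.P ≤ 9 * M.κ⁻¹ ^ 2 := by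
  rw [lintegral_tsum fun δ => (Measurable.tsum (measurable_Q M w δ)).aemeasurable]
  calc _ ≤ ∑' δ, 3 * M.κ⁻¹ * (R M w).indicator M.w δ := by
        refine ENNReal.tsum_le_tsum fun δ => ?_
        rw [lintegral_tsum fun ζ => (measurable_Q M w δ ζ).aemeasurable]
        by_cases h : δ ∈ R M w
        · rw [Set.indicator_of_mem h]
          refine le_trans (ENNReal.tsum_le_tsum fun ζ => ?_) (R_ext M w δ)
          unfold Q
          split_ifs with h'
          · rw [lintegral_indicator_one (M.measurableSet_F 0 ζ), M.P_F,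
              Set.indicator_of_mem (by exact h'.2)]
          · simp
        · simp [Q, h]
    _ ≤ 3 * M.κ⁻¹ * (3 * M.κ⁻¹) := by
        rw [ENNReal.tsum_mul_left]
        exact mul_le_mul_right (sm_R s_rec M w) _
    _ = _ := by ring

lemma ptw3 {N Z B J : ℝ≥0∞} (h : Z ≤ B) (h0 : J ≠ 0) (h1 : J ≠ ⊤) :
    N * Z ≤ J * Z + N * N * (B / J) := by
  rcases le_total N J with c | c
  · exact (mul_le_mul_left c _).trans le_self_add
  · refine le_trans ?_ le_add_self
    calc N * Z ≤ N * (J * (B / J)) := by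
          rw [ENNReal.mul_div_cancel h0 h1]
          exact mul_le_mul_right h _
      _ ≤ N * (N * (B / J)) := by gcongr
      _ = _ := (mul_assoc _ _ _).symm

end Set3Aux3

open SetBAux Set3Aux3 in
theorem t_set3 : T_Set3 := by
  intro M G s S w t B e J hw hG hs hB he hJ
  set Z : M.Fld → ℝ≥0∞ := fun a => (⨆ u ∈ M.Win (-w - 2) 3, M.Yc (M.cf s (M.TS S u)) a) - t with hZ
  have mZ : Measurable Z :=
    (Measurable.biSup _ (Set.to_countable _) fun u _ => M.measurable_Yc _).sub measurable_const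
  have bZ : ∀ a, Z a ≤ B := fun a => tsub_le_self.trans (iSup₂_le fun u hu => hB u hu a)
  have mI : ∀ δ, Measurable fun a => I M w δ a * Z a := fun δ => by
    refine Measurable.mul ?_ mZ
    unfold I
    split_ifs
    · exact measurable_one.indicator (M.measurableSet_F 0 δ)
    · exact measurable_const
  have a1 : ∀ δ, (if δ ∈ R M w then ∫⁻ a in M.F 0 δ, M.Yf G s (T M S (M.ds δ)) a ∂M.P else 0) ≤
      t * (R M w).indicator M.w δ + ∫⁻ a, I M w δ a * Z a ∂M.P := by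
    intro δ
    split_ifs with h
    · have hu : M.ds δ ∈ M.Win (-w - 2) 3 := by
        obtain ⟨-, h1, h2⟩ := h
        change w - 1 ≤ -M.L (M.ds δ) at h1
        change -M.L (M.ds δ) < w + 2 at h2
        exact ⟨by linarith, by linarith⟩
      refine (lintegral_mono (g := fun a => t + Z a) fun a => ?_).trans (le_of_eq ?_)
      · exact (Yf_le hG hs _ a).trans ((le_iSup₂ (f := fun u (_ : u ∈ M.Win (-w - 2) 3) =>
          M.Yc (M.cf s (M.TS S u)) a) _ hu).trans le_add_tsub)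
      · rw [lintegral_add_left measurable_const, setLIntegral_const, M.P_F,
          Set.indicator_of_mem h, ← lintegral_indicator (M.measurableSet_F 0 δ)]
        refine congrArg _ (lintegral_congr fun a => ?_)
        by_cases c : a ∈ M.F 0 δ <;> simp [I, h, c]
    · exact zero_le
  have J0 : (J : ℝ≥0∞) ≠ 0 := Nat.cast_ne_zero.2 (by omega)
  refine (lhs_le S hw (fun γ h => (hG γ h).1) hs).trans ((ENNReal.tsum_le_tsum a1).trans ?_)
  rw [ENNReal.tsum_add, ENNReal.tsum_mul_left, add_assoc,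
    ← lintegral_tsum fun δ => (mI δ).aemeasurable]
  refine add_le_add ((mul_le_mul_right (sm_R s_rec M w) _).trans (mul_comm _ _).le) ?_
  calc _ ≤ ∫⁻ a, J * Z a + (2 * (B / J)) * ∑' δ, ∑' ζ, Q M w δ ζ a ∂M.P := by
        refine lintegral_mono fun a => ?_
        simp only [ENNReal.tsum_mul_right]
        refine (ptw3 (bZ a) J0 (ENNReal.natCast_ne_top J)).trans (add_le_add le_rfl ?_)
        exact (mul_le_mul_left (sq_le M w a) _).trans (le_of_eq (by ring))
    _ ≤ J * e + (2 * (B / J)) * (9 * M.κ⁻¹ ^ 2) := by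
        rw [lintegral_add_left (mZ.const_mul _), lintegral_const_mul _ mZ, lintegral_const_mul _
          (Measurable.tsum fun δ => Measurable.tsum (measurable_Q M w δ))]
        exact add_le_add (mul_le_mul_right he _) (mul_le_mul_right (int_Q M w) _)
    _ = _ := by
        rw [mul_div_assoc]
        ring

end Pool.Agent.MP_db8016_pr.BZ

end
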