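import Pool.Agent.Mg.Fdb8016p.G4304b5
import Pool.Agent.Mg.Fdb8016p.Gb00190

section

/-! Paths that do not begin with many low pieces, and sums over concatenations of pieces. -/

namespace Pool.Agent.MP_db8016_pr.BZ
open MeasureTheory ProbabilityTheory Filter Topology
open scoped ENNReal Classical

namespace BadAux3

lemma cover {ι κ : Type} (f : ι → ℝ≥0∞) (g : κ → ℝ≥0∞) (φ : κ → ι)
    (h : ∀ i, f i ≠ 0 → ∃ k, φ k = i ∧ f i ≤ g k) : ∑' i, f i ≤ ∑' k, g k := by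
  rw [← ENNReal.tsum_fiberwise g φ]
  refine ENNReal.tsum_le_tsum fun i => ?_
  by_cases h0 : f i = 0
  · rw [h0]
    exact zero_le
  · obtain ⟨k, h1, h2⟩ := h i h0
    exact h2.trans (ENNReal.le_tsum (f := fun b : φ ⁻¹' {i} => g b) ⟨k, h1⟩)

variable {M : Mod}

lemma gsum (S : Finset M.Pt) (c : M.Pt) :
    ∑ x ∈ S, M.gg (x - c) = ∑' γ, if M.Up γ ∧ c + M.ds γ ∈ S then M.w γ else 0 := by
  unfold Mod.gg Mod.sm
  rw [← Summable.tsum_finsetSum fun _ _ => ENNReal.summable]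
  refine tsum_congr fun γ => ?_
  by_cases h : M.Up γ ∧ c + M.ds γ ∈ S
  · rw [if_pos h, Finset.sum_eq_single_of_mem _ h.2 fun x _ hx =>
      Set.indicator_of_notMem (fun h' => hx (by rw [h'.2, add_sub_cancel])) _]
    exact Set.indicator_of_mem (by exact ⟨h.1, (add_sub_cancel_left _ _).symm⟩) _
  · rw [if_neg h]
    exact Finset.sum_eq_zero fun x hx =>
      Set.indicator_of_notMem (fun h' => h ⟨h'.1, by rwa [h'.2, add_sub_cancel]⟩) _

lemma len_le (π : List M.D) {y : ℝ} (h : y ≤ M.lv π) : ENNReal.ofReal y ≤ π.length := by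
  rw [← ENNReal.ofReal_natCast]
  exact ENNReal.ofReal_le_ofReal (h.trans ((le_abs_self _).trans (M.abs_lv_le π)))

lemma uw_le (t : ℝ) (Q : List M.D → Prop) : M.UW t (fun γ => if Q γ then 1 else 0) ≤ M.κ⁻¹ :=
  (Mod.UW_mono t fun γ _ _ _ => by split_ifs <;> simp).trans (Mod.UW_one t)

lemma first (t y : ℝ) (hy : 0 ≤ y) (Q : List M.D → Prop) (hQ : ∀ γ, Q γ → y < M.lv γ) :
    M.UW t (fun γ => if Q γ then 1 else 0) ≤ ∑' π, if M.Irr π then
      M.w π * M.UW (t - M.lv π) (fun β => if Q (π ++ β) then 1 else 0) else 0 := by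
  have h := Mod.tsum_first (M := M) fun γ =>
    if t ≤ M.lv γ ∧ M.lv γ < t + 1 then M.w γ * (if Q γ then 1 else 0) else 0
  refine le_trans (ENNReal.tsum_le_tsum fun γ => ?_) (h.trans_le (ENNReal.tsum_le_tsum fun π => ?_))
  · by_cases h1 : M.Up γ ∧ t ≤ M.lv γ ∧ M.lv γ < t + 1
    · by_cases h2 : Q γ
      · rw [if_pos h1, if_pos (c := M.Up γ ∧ γ ≠ []) ⟨h1.1, ?_⟩, if_pos h1.2]
        rintro rfl
        have := hQ _ h2
        rw [Mod.lv_nil] at this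
        linarith
      · simp [h2]
    · rw [if_neg h1]
      exact zero_le
  · by_cases h1 : M.Irr π
    · rw [if_pos h1, Mod.UW, ← ENNReal.tsum_mul_left]
      refine ENNReal.tsum_le_tsum fun β => ?_
      by_cases h2 : M.Up β
      · rw [if_pos ⟨h1, h2⟩]
        by_cases h3 : t ≤ M.lv (π ++ β) ∧ M.lv (π ++ β) < t + 1
        · rw [if_pos h3, Mod.w_append h1.1.2 h2.1, mul_assoc, if_pos (c := M.Up β ∧ _)]
          rw [Mod.lv_append] at h3
          exact ⟨h2, by linarith [h3.1], by linarith [h3.2]⟩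
        · rw [if_neg h3]
          exact zero_le
      · rw [if_neg fun h => h2 h.2]
        exact zero_le
    · simp [h1]

end BadAux3

open BadAux3

theorem t_bad : T_Bad := by
  intro M n y t hI hy
  induction n generalizing y t with
  | zero =>
    have h : M.UW t (fun γ => if M.Bad 0 y γ then 1 else 0) ≤ M.UW t fun _ => 0 :=
      Mod.UW_mono t fun γ h _ _ => by
        rw [if_neg fun h' => h'.2 ⟨[], γ, rfl, rfl, h, by simpa using hy⟩]
    have h0 : M.UW t (fun _ => 0) = 0 := by simp [Mod.UW]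
    rw [le_zero_iff.1 (h.trans h0.le), mul_zero]
    exact zero_le
  | succ n ih =>
    refine (mul_le_mul_right (first t y hy _ fun γ h => h.1) _).trans ?_
    rw [← ENNReal.tsum_mul_left]
    have key : ∀ π, M.Irr π → ENNReal.ofReal y *
        M.UW (t - M.lv π) (fun β => if M.Bad (n + 1) y (π ++ β) then 1 else 0) ≤
          π.length * M.κ⁻¹ + n * (M.m1 * M.κ⁻¹) := fun π h => by
      rcases le_total y (M.lv π) with h1 | h1
      · exact (mul_le_mul' (len_le π h1) (uw_le _ _)).trans le_self_add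
      · have h2 : M.UW (t - M.lv π) (fun β => if M.Bad (n + 1) y (π ++ β) then 1 else 0) ≤
            M.UW (t - M.lv π) fun β => if M.Bad n (y - M.lv π) β then 1 else 0 := by
          refine Mod.UW_mono _ fun β _ _ _ => ?_
          by_cases h3 : M.Bad (n + 1) y (π ++ β)
          · rw [if_pos h3, if_pos]
            refine ⟨by linarith [h3.1, M.lv_append π β], ?_⟩
            rintro ⟨α, β', rfl, a1, a2, a3⟩
            exact h3.2 ⟨π ++ α, β', (List.append_assoc _ _ _).symm, ⟨π, α, h, a1, rfl⟩, a2, by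
              rw [Mod.lv_append]
              linarith⟩
          · rw [if_neg h3]
            exact zero_le
        have e : ENNReal.ofReal y = ENNReal.ofReal (M.lv π) + ENNReal.ofReal (y - M.lv π) := by
          rw [← ENNReal.ofReal_add (h.1.1 π ⟨[], List.append_nil π⟩) (sub_nonneg.2 h1), add_sub_cancel]
        rw [e, add_mul]
        exact add_le_add (mul_le_mul' (len_le π le_rfl) (uw_le _ _))
          ((mul_le_mul_right h2 _).trans (ih _ _ (sub_nonneg.2 h1)))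
    calc _ ≤ ∑' π, ((if M.Irr π then M.w π * π.length else 0) * M.κ⁻¹ +
          {γ | M.Irr γ}.indicator M.w π * (n * (M.m1 * M.κ⁻¹))) := by
          refine ENNReal.tsum_le_tsum fun π => ?_
          by_cases h : M.Irr π
          · rw [if_pos h, if_pos h, Set.indicator_of_mem (by exact h), mul_left_comm, mul_assoc,
              ← mul_add]
            exact mul_le_mul_right (key π h) _
          · simp [h]
      _ = M.m1 * M.κ⁻¹ + M.sm {γ | M.Irr γ} * (n * (M.m1 * M.κ⁻¹)) := by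
          rw [ENNReal.tsum_add, ENNReal.tsum_mul_right, ENNReal.tsum_mul_right]
          rfl
      _ ≤ M.m1 * M.κ⁻¹ + 1 * (n * (M.m1 * M.κ⁻¹)) := by gcongr
      _ = _ := by
          push_cast
          ring

theorem t_dec : T_Dec := by
  intro M n y t S hy hS
  have h := gsum S (0 : M.Pt)
  simp only [sub_zero, zero_add] at h
  have h2 : ∑' γ, (if M.Up γ ∧ M.ds γ ∈ S ∧ ¬ M.Bad n y γ then M.w γ else 0) ≤
      ∑' α, if M.Pc n α ∧ M.lv α ≤ y then M.w α * ∑ x ∈ S, M.gg (x - M.ds α) else 0 := by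
    refine (cover _ (fun p : List M.D × List M.D => if M.Pc n p.1 ∧ M.lv p.1 ≤ y then
      M.w p.1 * (if M.Up p.2 ∧ M.ds p.1 + M.ds p.2 ∈ S then M.w p.2 else 0) else 0)
      (fun p => p.1 ++ p.2) fun γ h0 => ?_).trans (le_of_eq ?_)
    · have h1 : M.Up γ ∧ M.ds γ ∈ S ∧ ¬ M.Bad n y γ := by
        by_contra h1
        exact h0 (if_neg h1)
      obtain ⟨α, β, rfl, a1, a2, a3⟩ : ∃ α β, γ = α ++ β ∧ M.Pc n α ∧ M.Up β ∧ M.lv α ≤ y := by
        by_contra h3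
        exact h1.2.2 ⟨hy.trans_le (hS _ h1.2.1).1, h3⟩
      refine ⟨(α, β), rfl, ?_⟩
      rw [if_pos h1, if_pos ⟨a1, a3⟩, if_pos ⟨a2, M.ds_append α β ▸ h1.2.1⟩,
        Mod.w_append a1.up.2 a2.1]
    · rw [ENNReal.tsum_prod']
      refine tsum_congr fun α => ?_
      by_cases h1 : M.Pc n α ∧ M.lv α ≤ y
      · simp only [if_pos h1]
        rw [ENNReal.tsum_mul_left, gsum]
      · simp only [if_neg h1, tsum_zero]
  refine le_trans ?_ (add_le_add_right h2 _)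
  rw [h, Mod.UW, ← ENNReal.tsum_add]
  refine ENNReal.tsum_le_tsum fun γ => ?_
  by_cases h1 : M.Up γ ∧ M.ds γ ∈ S
  · rw [if_pos h1, if_pos (c := M.Up γ ∧ t ≤ M.lv γ ∧ M.lv γ < t + 1) ⟨h1.1, hS _ h1.2⟩]
    by_cases h3 : M.Bad n y γ
    · rw [if_pos h3, mul_one]
      exact le_self_add
    · rw [if_pos (c := M.Up γ ∧ _) ⟨h1.1, h1.2, h3⟩]
      exact le_add_self
  · rw [if_neg h1]
    exact zero_le

theorem t_pcop : T_PcOp := by
  intro M n F x
  induction n generalizing x with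
  | zero =>
    rw [tsum_eq_single [] fun α h => if_neg (c := M.Pc 0 α) h, if_pos (c := M.Pc 0 []) rfl]
    simp
  | succ n ih =>
    rw [Function.iterate_succ_apply', Mod.op_qq]
    refine (cover _ (fun p : List M.D × List M.D => if M.Irr p.1 then
      M.w p.1 * (if M.Pc n p.2 then M.w p.2 * F (x + M.ds p.1 + M.ds p.2) else 0) else 0)
      (fun p => p.1 ++ p.2) fun γ h0 => ?_).trans ?_
    · have h1 : M.Pc (n + 1) γ := by
        by_contra h1
        exact h0 (if_neg h1)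
      rw [if_pos h1]
      obtain ⟨π, α, a1, a2, rfl⟩ := h1
      refine ⟨(π, α), rfl, ?_⟩
      rw [if_pos a1, if_pos a2, Mod.w_append a1.1.2 a2.up.1, Mod.ds_append, mul_assoc, add_assoc]
    · rw [ENNReal.tsum_prod']
      refine ENNReal.tsum_le_tsum fun π => ?_
      by_cases h1 : M.Irr π
      · simp only [if_pos h1]
        rw [ENNReal.tsum_mul_left]
        exact mul_le_mul_right (ih _) _
      · simp only [if_neg h1, tsum_zero, le_refl]

end Pool.Agent.MP_db8016_pr.BZ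

end

section

/-! Minimal pairs whose ends are close can be joined to a pair of paths with a common end. -/

namespace Pool.Agent.MP_db8016_pr.BZ
open scoped ENNReal Classical

namespace LG3Aux3

variable {M : Mod}

lemma tsum_le_of_inj {ι κ : Type} (f : ι → ℝ≥0∞) (g : κ → ℝ≥0∞) (P : ι → Prop)
    [DecidablePred P] (φ : ι → κ)
    (hφ : ∀ i j, P i → P j → φ i = φ j → i = j) (h : ∀ i, P i → f i ≤ g (φ i)) :
    ∑' i, (if P i then f i else 0) ≤ ∑' k, g k := by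
  have e : ∑' i, (if P i then f i else 0) = ∑' i : {i | P i}, f i := by
    rw [tsum_subtype {i | P i} f]
    exact tsum_congr fun i => by simp [Set.indicator_apply]
  rw [e]
  refine le_trans (ENNReal.tsum_le_tsum fun i => h i i.2) ?_
  exact ENNReal.tsum_comp_le_tsum_of_injective (f := fun i : {i | P i} => φ i)
    (fun i j e => Subtype.ext (hφ _ _ i.2 j.2 e)) g

/-- The path `τ` with straight pieces on both sides. -/
def lift (M : Mod) (r : ℕ) (τ : List M.D) : List M.D :=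
  List.replicate r M.u ++ (τ ++ List.replicate (2 * r + 1) M.u)

lemma ds_rep (n : ℕ) : M.ds (List.replicate n M.u) = n • M.vec M.u := by
  induction n with
  | zero => simp
  | succ n ih => rw [List.replicate_succ, Mod.ds_cons, ih, succ_nsmul']

lemma lv_rep (n : ℕ) : M.lv (List.replicate n M.u) = n := by
  rw [Mod.lv, ds_rep, map_nsmul, M.hu]
  simp

lemma pf_rep {n : ℕ} {α : List M.D} (h : α <+: List.replicate n M.u) :
    M.lv α = α.length ∧ α.length ≤ n := by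
  have h1 := h.length_le
  rw [List.length_replicate] at h1
  have h2 : α = List.replicate α.length M.u :=
    List.eq_replicate_of_mem fun b hb => List.eq_of_mem_replicate (h.subset hb)
  exact ⟨by rw [h2, lv_rep, List.length_replicate], h1⟩

lemma ds_lift (r : ℕ) (τ : List M.D) :
    M.ds (lift M r τ) = M.ds τ + (r • M.vec M.u + (2 * r + 1) • M.vec M.u) := by
  simp only [lift, Mod.ds_append, ds_rep]
  abel

lemma length_lift {r : ℕ} {τ : List M.D} (h : τ.length ≤ r) : (lift M r τ).length ≤ 4 * r + 1 := by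
  simp only [lift, List.length_append, List.length_replicate]
  omega

lemma up_lift {r : ℕ} {τ : List M.D} (h : τ.length ≤ r) : M.Up (lift M r τ) := by
  have hr : (τ.length : ℝ) ≤ r := by exact_mod_cast h
  have h0 : (0 : ℝ) ≤ r := Nat.cast_nonneg r
  have ht := abs_le.1 (M.abs_lv_le τ)
  have e : M.lv (lift M r τ) = r + (M.lv τ + (2 * r + 1)) := by
    simp only [lift, Mod.lv_append, lv_rep]
    push_cast
    ring
  have key : ∀ α, α <+: lift M r τ → 0 ≤ M.lv α ∧ (α ≠ lift M r τ → M.lv α < M.lv (lift M r τ)) := by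
    intro α hα
    rw [e]
    rcases Mod.pf_append_cases hα with ⟨h1, -⟩ | ⟨β, h1, rfl⟩
    · obtain ⟨a1, a2⟩ := pf_rep h1
      have a3 : (α.length : ℝ) ≤ r := by exact_mod_cast a2
      have a4 : (0 : ℝ) ≤ α.length := Nat.cast_nonneg _
      exact ⟨by linarith, fun _ => by linarith [ht.1]⟩
    · rcases Mod.pf_append_cases h1 with ⟨h2, -⟩ | ⟨γ, h2, rfl⟩
      · have a1 := abs_le.1 (M.abs_lv_le β)
        have a2 : (β.length : ℝ) ≤ τ.length := by exact_mod_cast h2.length_le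
        rw [Mod.lv_append, lv_rep]
        exact ⟨by linarith [a1.1], fun _ => by linarith [a1.2, ht.1]⟩
      · obtain ⟨a1, a2⟩ := pf_rep h2
        have a4 : (0 : ℝ) ≤ γ.length := Nat.cast_nonneg _
        rw [Mod.lv_append, Mod.lv_append, lv_rep]
        refine ⟨by linarith [ht.1], fun hne => ?_⟩
        have a5 : γ.length ≠ 2 * r + 1 := fun e' => hne (by
          rw [h2.eq_of_length (by rw [List.length_replicate, e'])]
          rfl)
        have a6 : (γ.length : ℝ) < 2 * r + 1 := by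
          exact_mod_cast lt_of_le_of_ne a2 a5
        linarith
  exact ⟨fun α hα => (key α hα).1, fun α hα => (key α hα).2⟩

lemma w_join {r : ℕ} {α τ σ : List M.D} (hα : M.Up α) (h : τ.length ≤ r) (hσ : M.Up σ) :
    M.κ ^ (4 * r + 1) * (M.w α * M.w σ) ≤ M.w (α ++ lift M r τ ++ σ) := by
  rw [Mod.w_append (hα.append (up_lift h)).2 hσ.1, ← mul_assoc]
  refine mul_le_mul_left (le_trans (mul_le_mul_left ?_ _) (M.w_append_ge _ _)) _
  exact pow_le_pow_right_of_le_one' M.κ_le_one (length_lift h)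

lemma cp_of_pf {α β ζ : List M.D} (h1 : M.Cp α ζ) (h2 : M.Cp β ζ) (h : α <+: β) : M.Cp α β := by
  obtain ⟨ρ, rfl⟩ := h
  obtain ⟨γ, e1, a1, a2⟩ := h1
  obtain ⟨γ', e2, b1, -⟩ := h2
  rw [e1, List.append_assoc] at e2
  exact ⟨ρ, rfl, a1, a2.1.of_pf ⟨γ', (List.append_cancel_left e2).symm⟩, b1.2.of_append⟩

lemma cp_self {α : List M.D} (h : M.Up α) : M.Cp α α := ⟨[], by simp, h, Mod.up_nil⟩

lemma L_lt {x z : M.Pt} {α : List M.D} (h : M.Rc α) (hz : z ∈ pts M.vec x α) :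
    M.L z < M.L x + M.lv α := by
  obtain ⟨β, b1, b2, rfl⟩ := M.mem_pts.1 hz
  have := h β b1 b2
  rw [map_add]
  exact add_lt_add_right this _

lemma le_L {x z : M.Pt} {α : List M.D} (h : M.NN α) (hz : z ∈ pts M.vec x α) :
    M.L x ≤ M.L z := by
  obtain ⟨β, b1, -, rfl⟩ := M.mem_pts.1 hz
  have := h β b1
  rw [map_add]
  exact le_add_of_nonneg_right this

lemma cross_case {y : M.Pt} {α α' β β' : List M.D} (h : M.Mn y α α') (h' : M.Mn y β β')
    (c : M.Cp α β) (c' : M.Cp β' α') : α = β ∧ α' = β' := by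
  by_cases ht : M.Tp y α β'
  · exact ⟨(h'.2.2.2 α β' c (cp_self h'.2.1) ht).1, (h.2.2.2 α β' (cp_self h.1) c' ht).2.symm⟩
  · exfalso
    have hd : Disjoint (pts M.vec 0 α) (pts M.vec y β') := not_not.1 ht
    obtain ⟨ρ, rfl, -, r1⟩ := c
    obtain ⟨ρ', rfl, -, r2⟩ := c'
    obtain ⟨z, z1, z2⟩ := Finset.not_disjoint_iff.1 h.2.2.1
    obtain ⟨x, x1, x2⟩ := Finset.not_disjoint_iff.1 h'.2.2.1
    rw [pts_append, Finset.mem_union] at z2 x1
    have z3 := z2.resolve_left (Finset.disjoint_left.1 hd z1)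
    have x3 := x1.resolve_left (Finset.disjoint_right.1 hd x2)
    have a1 := L_lt h.1.2 z1
    have a2 := le_L r2.1 z3
    have a3 := L_lt h'.2.1.2 x2
    have a4 := le_L r1.1 x3
    simp only [map_add, map_zero] at a1 a2 a4
    change M.L y + M.lv β' ≤ _ at a2
    change 0 + M.lv α ≤ _ at a4
    linarith

lemma mn_unique {y : M.Pt} {α α' β β' ζ ζ' : List M.D} (h : M.Mn y α α') (h' : M.Mn y β β')
    (a : M.Cp α ζ) (a' : M.Cp α' ζ') (b : M.Cp β ζ) (b' : M.Cp β' ζ') : α = β ∧ α' = β' := by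
  have pf : ∀ {γ δ : List M.D}, M.Cp γ δ → γ <+: δ := fun ⟨ρ, e, _⟩ => ⟨ρ, e.symm⟩
  rcases List.prefix_or_prefix_of_prefix (pf a) (pf b) with h1 | h1 <;>
    rcases List.prefix_or_prefix_of_prefix (pf a') (pf b') with h2 | h2
  · exact h'.2.2.2 α α' (cp_of_pf a b h1) (cp_of_pf a' b' h2) h.2.2.1
  · exact cross_case h h' (cp_of_pf a b h1) (cp_of_pf b' a' h2)
  · have := cross_case h' h (cp_of_pf b a h1) (cp_of_pf a' b' h2)
    exact ⟨this.1.symm, this.2.symm⟩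
  · have := h.2.2.2 β β' (cp_of_pf b a h1) (cp_of_pf b' a' h2) h'.2.2.1
    exact ⟨this.1.symm, this.2.symm⟩

/-- A site and two paths. -/
abbrev Tr (M : Mod) : Type := M.Pt × List M.D × List M.D

/-- Two paths with the same end at a level at most `v`. -/
def PA (M : Mod) (v : ℝ) (a : Tr M) : Prop :=
  M.L a.1 ≤ v ∧ (M.Up a.2.1 ∧ M.ds a.2.1 = a.1) ∧ M.Up a.2.2 ∧ M.ds a.2.2 = a.1

/-- Minimal pairs with close ends. -/
def PB (M : Mod) (t : ℝ) (r : ℕ) (b : Tr M) : Prop :=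
  b.1 ∈ M.Near ∧ M.Mn b.1 b.2.1 b.2.2 ∧ M.lv b.2.1 < t + 1 ∧ M.Sml r b.1 b.2.1 b.2.2

lemma GG_eq (v : ℝ) :
    M.GG v = ∑' a : Tr M, if PA M v a then M.w a.2.1 * M.w a.2.2 else 0 := by
  rw [ENNReal.tsum_prod', Mod.GG]
  refine tsum_congr fun x => ?_
  rw [ENNReal.tsum_prod']
  by_cases hx : M.L x ≤ v
  · rw [if_pos hx, sq, Mod.gg, Mod.sm, ← ENNReal.tsum_mul_right]
    refine tsum_congr fun σ => ?_
    rw [← ENNReal.tsum_mul_left]
    refine tsum_congr fun σ' => ?_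
    simp only [PA, Set.indicator_apply, Set.mem_ofPred_eq, hx, true_and]
    by_cases h1 : M.Up σ ∧ M.ds σ = x <;> by_cases h2 : M.Up σ' ∧ M.ds σ' = x <;>
      simp only [h1, h2, and_self, and_true, and_false, if_true, if_false, mul_zero,
        zero_mul]
  · simp [PA, hx]

lemma MW_eq (t : ℝ) (r : ℕ) :
    M.MW t (M.Sml r) = ∑' b : Tr M, if PB M t r b then M.w b.2.1 * M.w b.2.2 else 0 := by
  rw [ENNReal.tsum_prod', Mod.MW]
  refine tsum_congr fun x => ?_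
  rw [ENNReal.tsum_prod']
  exact tsum_congr fun α => tsum_congr fun α' => if_congr Iff.rfl rfl rfl

lemma total {T : ℝ} (hT : 0 ≤ T) :
    ∑' p : List M.D × List M.D, (if (M.Up p.1 ∧ M.lv p.1 < T) ∧ M.Rc p.2 ∧
      M.lv p.1 - 4 ≤ M.lv p.2 ∧ M.lv p.2 < M.lv p.1 - 4 + (8 : ℕ) then M.w p.1 * M.w p.2 else 0) ≤
      ENNReal.ofReal (8 * (T + 1)) * M.κ⁻¹ ^ 2 := by
  have e : ENNReal.ofReal (8 * (T + 1)) * M.κ⁻¹ ^ 2 =
      ENNReal.ofReal (T + 1) * M.κ⁻¹ * ((8 : ℕ) * M.κ⁻¹) := by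
    rw [ENNReal.ofReal_mul (by norm_num), ENNReal.ofReal_ofNat]
    push_cast
    ring
  rw [e, ENNReal.tsum_prod']
  refine le_trans ?_ (mul_le_mul_left (Mod.up_lt hT) _)
  rw [Mod.sm, ← ENNReal.tsum_mul_right]
  refine ENNReal.tsum_le_tsum fun ζ => ?_
  refine le_trans ?_ (mul_le_mul_right (Mod.rec_n (M.lv ζ - 4) 8) _)
  rw [Mod.sm, ← ENNReal.tsum_mul_left]
  refine ENNReal.tsum_le_tsum fun ζ' => ?_
  split_ifs with h
  · rw [Set.indicator_of_mem (by exact h.1), Set.indicator_of_mem (by exact h.2)]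
  · exact zero_le

end LG3Aux3

open LG3Aux3 in
theorem t_lg3 : T_LG3 := by
  intro M t v r ht hv
  have hc : ∀ b : Tr M, ∃ τ τ' : List M.D, M.Sml r b.1 b.2.1 b.2.2 → τ.length ≤ r ∧
      τ'.length ≤ r ∧ M.ds b.2.1 + M.ds τ' = b.1 + M.ds b.2.2 + M.ds τ := by
    intro b
    by_cases h : M.Sml r b.1 b.2.1 b.2.2
    · obtain ⟨τ, τ', h1⟩ := h
      exact ⟨τ, τ', fun _ => h1⟩
    · exact ⟨[], [], fun h' => absurd h' h⟩
  choose τ τ' hτ using hc
  have h0 : (0 : ℝ) ≤ r := Nat.cast_nonneg r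
  have e : M.κ ^ (8 * r + 2) * M.GG v * M.MW t (M.Sml r) =
      ∑' p : Tr M × Tr M, if PA M v p.1 ∧ PB M t r p.2 then
        M.κ ^ (4 * r + 1) * (M.w p.2.2.1 * M.w p.1.2.1) *
          (M.κ ^ (4 * r + 1) * (M.w p.2.2.2 * M.w p.1.2.2)) else 0 := by
    rw [ENNReal.tsum_prod', GG_eq, ← ENNReal.tsum_mul_left, ← ENNReal.tsum_mul_right, MW_eq]
    refine tsum_congr fun a => ?_
    rw [← ENNReal.tsum_mul_left]
    refine tsum_congr fun b => ?_
    by_cases h1 : PA M v a <;> by_cases h2 : PB M t r b <;>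
      simp only [h1, h2, and_self, and_true, and_false, if_true, if_false, mul_zero, zero_mul]
    ring
  have hds : ∀ p : Tr M × Tr M, PA M v p.1 ∧ PB M t r p.2 →
      M.ds (p.2.2.1 ++ lift M r (τ' p.2) ++ p.1.2.1) =
        p.2.1 + M.ds (p.2.2.2 ++ lift M r (τ p.2) ++ p.1.2.2) := by
    rintro ⟨a, b⟩ ⟨h1, h2⟩
    have h3 := (hτ b h2.2.2.2).2.2
    simp only [Mod.ds_append, ds_lift, h1.2.1.2, h1.2.2.2]
    rw [← add_assoc (M.ds b.2.1), h3]
    abel
  have hcp : ∀ {α ρ σ : List M.D}, M.Up α → ρ.length ≤ r → M.Up σ →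
      M.Cp α (α ++ lift M r ρ ++ σ) := fun h1 h2 h3 =>
    ⟨_, List.append_assoc _ _ _, h1, (up_lift h2).append h3⟩
  rw [e, show 8 * (t + v + 4 * r + 3) = 8 * (t + v + 4 * r + 2 + 1) by ring]
  refine le_trans ?_ (total (M := M) (T := t + v + 4 * r + 2) (by linarith))
  refine tsum_le_of_inj _ _ _ (fun p : Tr M × Tr M =>
    (p.2.2.1 ++ lift M r (τ' p.2) ++ p.1.2.1, p.2.2.2 ++ lift M r (τ p.2) ++ p.1.2.2)) ?_ ?_
  · intro p q hp hq hpq
    have d1 := hds p hp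
    have d2 := hds q hq
    obtain ⟨e1, e2⟩ := Prod.mk.inj hpq
    rw [e1, e2, d2] at d1
    have hy : q.2.1 = p.2.1 := add_right_cancel d1
    obtain ⟨⟨x, σ, σ'⟩, ⟨y, α, α'⟩⟩ := p
    obtain ⟨⟨x₁, σ₁, σ₁'⟩, ⟨y₁, β, β'⟩⟩ := q
    obtain rfl : y₁ = y := hy
    have t1 := hτ _ hp.2.2.2.2
    have t2 := hτ _ hq.2.2.2.2
    have c1 := hcp hp.2.2.1.1 t1.2.1 hp.1.2.1.1
    have c2 := hcp hp.2.2.1.2.1 t1.1 hp.1.2.2.1
    have c3 := hcp hq.2.2.1.1 t2.2.1 hq.1.2.1.1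
    have c4 := hcp hq.2.2.1.2.1 t2.1 hq.1.2.2.1
    rw [← e1] at c3
    rw [← e2] at c4
    obtain ⟨rfl, rfl⟩ : α = β ∧ α' = β' := mn_unique hp.2.2.1 hq.2.2.1 c1 c2 c3 c4
    obtain rfl : σ = σ₁ := List.append_cancel_left e1
    obtain rfl : σ' = σ₁' := List.append_cancel_left e2
    obtain rfl : x = x₁ := hp.1.2.1.2.symm.trans hq.1.2.1.2
    rfl
  · intro p hp
    have d1 := congrArg M.L (hds p hp)
    have t1 := hτ _ hp.2.2.2.2
    have u1 := (hp.2.2.1.1.append (up_lift t1.2.1)).append hp.1.2.1.1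
    have u2 := (hp.2.2.1.2.1.append (up_lift t1.1)).append hp.1.2.2.1
    have hn := abs_lt.1 (show |M.L p.2.1| < 4 from hp.2.1)
    rw [map_add] at d1
    change M.lv _ = _ + M.lv _ at d1
    have l1 : M.lv (p.2.2.1 ++ lift M r (τ' p.2) ++ p.1.2.1) < t + v + 4 * r + 2 := by
      have a1 := (abs_le.1 (M.abs_lv_le (lift M r (τ' p.2)))).2
      have a2 : ((lift M r (τ' p.2)).length : ℝ) ≤ 4 * r + 1 := by
        exact_mod_cast length_lift t1.2.1
      have a3 : M.lv p.1.2.1 ≤ v := by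
        rw [Mod.lv, hp.1.2.1.2]
        exact hp.1.1
      rw [Mod.lv_append, Mod.lv_append]
      linarith [hp.2.2.2.1]
    rw [if_pos ⟨⟨u1, l1⟩, u2.2, by linarith [hn.2], by push_cast; linarith [hn.1]⟩]
    exact mul_le_mul' (w_join hp.2.2.1.1 t1.2.1 hp.1.2.1.1) (w_join hp.2.2.1.2.1 t1.1 hp.1.2.2.1)

end Pool.Agent.MP_db8016_pr.BZ

end

section

/-! A block of steps is nearly invariant under small shifts. -/

namespace Pool.Agent.MP_db8016_pr.BZ
open Finset Filter BlkAux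
open scoped Classical ENNReal

namespace LR1Aux3

lemma step {i j : ℕ} {T δ : ℝ} (hT : 2 * T ≤ i) (hδ : 4 * (T + 1) ≤ δ * i)
    (h : |2 * (j : ℝ) - i| ≤ T) :
    (i.choose j : ℝ) ≤ (1 + δ) * i.choose (j + 1) ∧ (i.choose (j + 1) : ℝ) ≤ (1 + δ) * i.choose j := by
  obtain ⟨h1, h2⟩ := abs_le.1 h
  have hi : (0 : ℝ) ≤ i := Nat.cast_nonneg i
  have hj : (0 : ℝ) ≤ j := Nat.cast_nonneg j
  have hT0 : 0 ≤ T := (abs_nonneg _).trans h
  have hi0 : (0 : ℝ) < i := hi.lt_of_ne fun e => by rw [← e] at hδ; linarith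
  have hd : 0 ≤ δ := by
    by_contra e
    nlinarith
  have hji : j ≤ i := by
    have : (j : ℝ) ≤ i := by linarith
    exact_mod_cast this
  have e : (i.choose (j + 1) : ℝ) * (j + 1) = i.choose j * (i - j) := by
    have := congrArg (Nat.cast : ℕ → ℝ) (Nat.choose_succ_right_eq i j)
    rwa [Nat.cast_mul, Nat.cast_mul, Nat.cast_sub hji, Nat.cast_succ] at this
  have c0 : (0 : ℝ) ≤ i.choose j := Nat.cast_nonneg _
  have c1 : (0 : ℝ) ≤ i.choose (j + 1) := Nat.cast_nonneg _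
  have a1 : (j : ℝ) + 1 ≤ (1 + δ) * (i - j) := by
    nlinarith [mul_le_mul_of_nonneg_left (show (i : ℝ) ≤ 4 * (i - j) by linarith) hd]
  have a2 : (i : ℝ) - j ≤ (1 + δ) * (j + 1) := by
    nlinarith [mul_le_mul_of_nonneg_left (show (i : ℝ) ≤ 4 * (j + 1) by linarith) hd]
  constructor
  · refine le_of_mul_le_mul_right ?_ (show (0 : ℝ) < i - j by linarith)
    rw [← e]
    nlinarith [mul_le_mul_of_nonneg_left a1 c1]
  · refine le_of_mul_le_mul_right ?_ (show (0 : ℝ) < j + 1 by linarith)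
    rw [e]
    nlinarith [mul_le_mul_of_nonneg_left a2 c0]

lemma steps {i j : ℕ} {T δ : ℝ} (hT : 2 * T ≤ i) (hδ : 4 * (T + 1) ≤ δ * i) (hd : 0 ≤ δ)
    (h : |2 * (j : ℝ) - i| ≤ T) (k : ℕ) (hk : |2 * ((j + k : ℕ) : ℝ) - i| ≤ T) (h1 : 2 * δ * k ≤ 1) :
    (i.choose j : ℝ) ≤ (1 + 2 * δ * k) * i.choose (j + k) ∧
      (i.choose (j + k) : ℝ) ≤ (1 + 2 * δ * k) * i.choose j := by
  induction k with
  | zero => simp
  | succ k ih =>
    have k0 : (0 : ℝ) ≤ k := Nat.cast_nonneg k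
    have hk' : |2 * ((j + k : ℕ) : ℝ) - i| ≤ T := by
      rw [abs_le] at *
      push_cast at *
      constructor <;> linarith [h.1, hk.2]
    push_cast at h1
    have h2 : 2 * δ * k ≤ 1 := by linarith
    obtain ⟨a1, a2⟩ := ih hk' h2
    obtain ⟨b1, b2⟩ := step hT hδ hk'
    have e : (1 + 2 * δ * k) * (1 + δ) ≤ 1 + 2 * δ * (k + 1 : ℕ) := by
      push_cast
      nlinarith [mul_le_mul_of_nonneg_left h2 hd]
    have p : 0 ≤ 1 + 2 * δ * k := by positivity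
    constructor
    · refine a1.trans ((mul_le_mul_of_nonneg_left b1 p).trans ?_)
      rw [← mul_assoc]
      exact mul_le_mul_of_nonneg_right e (Nat.cast_nonneg _)
    · refine b2.trans ((mul_le_mul_of_nonneg_left a2 (by positivity)).trans ?_)
      rw [← mul_assoc, mul_comm (1 + δ)]
      exact mul_le_mul_of_nonneg_right e (Nat.cast_nonneg _)

/-- the coefficient changes little under small shifts -/
def Gd (ε : ℝ) (ρ i j : ℕ) : Prop :=
  ∀ s : ℤ, |s| ≤ ρ → ∃ k ≤ i, (k : ℤ) + s = j ∧ (i.choose j : ℝ) ≤ (1 + ε) * i.choose k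

lemma gd_of {ε : ℝ} {ρ i j : ℕ} (h0 : 0 < ε) (h1 : ε ≤ 1) (hρ : 1 ≤ ρ)
    (hi : 400 * (ρ : ℝ) ^ 2 ≤ ε ^ 4 * i) (hj : ε * (2 * (j : ℝ) - i) ^ 2 ≤ 2 * i) : Gd ε ρ i j := by
  intro s hs
  have r1 : (1 : ℝ) ≤ ρ := by exact_mod_cast hρ
  have i0 : (0 : ℝ) ≤ i := Nat.cast_nonneg i
  have i1 : (0 : ℝ) < i := i0.lt_of_ne fun e => by rw [← e] at hi; nlinarith
  obtain ⟨u, hu⟩ : ∃ u, u = |2 * (j : ℝ) - i| := ⟨_, rfl⟩
  have u0 : 0 ≤ u := hu ▸ abs_nonneg _
  rw [← sq_abs, ← hu] at hj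
  have key : 8 * (u + 3 * ρ) * ρ ≤ ε * i := by
    refine le_of_mul_le_mul_left ?_ (pow_pos h0 2)
    have a1 := sq_nonneg (ε ^ 2 * u - 16 * ρ)
    have a2 := mul_le_mul_of_nonneg_left hj (pow_pos h0 3).le
    have a3 : ε ^ 2 * (ρ : ℝ) ^ 2 ≤ 1 * ρ ^ 2 :=
      mul_le_mul_of_nonneg_right (pow_le_one₀ h0.le h1) (sq_nonneg _)
    have a4 : ε ^ 4 * (i : ℝ) ≤ ε ^ 3 * i :=
      mul_le_mul_of_nonneg_right (pow_le_pow_of_le_one h0.le h1 (by norm_num)) i0
    have a5 : 0 ≤ ε ^ 3 * (i : ℝ) := by positivity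
    nlinarith
  have a6 : ε * i ≤ i := mul_le_of_le_one_left i0 h1
  have hT : 8 * (u + 3 * ρ) ≤ i := by nlinarith
  have hs' : |(s : ℝ)| ≤ ρ := by exact_mod_cast hs
  obtain ⟨s1, s2⟩ := abs_le.1 hs'
  obtain ⟨u1, u2⟩ := abs_le.1 hu.ge
  obtain ⟨k, hk⟩ : ∃ k : ℕ, (k : ℤ) + s = j := by
    have : s ≤ j := by
      have : (s : ℝ) ≤ j := by linarith
      exact_mod_cast this
    exact ⟨(j - s).toNat, by omega⟩
  have hk' : (k : ℝ) + s = j := by exact_mod_cast hk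
  have w1 : |2 * (j : ℝ) - i| ≤ u + 2 * ρ := by linarith
  have w2 : |2 * (k : ℝ) - i| ≤ u + 2 * ρ := abs_le.2 ⟨by linarith, by linarith⟩
  obtain ⟨δ, hδ⟩ : ∃ δ : ℝ, δ * i = 4 * (u + 3 * ρ) := ⟨_, div_mul_cancel₀ _ i1.ne'⟩
  have d0 : 0 ≤ δ := by
    by_contra e
    nlinarith
  have d1 : 2 * δ * ρ ≤ ε := le_of_mul_le_mul_right (by nlinarith) i1
  have d2 : ∀ t : ℕ, (t : ℝ) ≤ ρ → 2 * δ * t ≤ ε := fun t ht =>
    (mul_le_mul_of_nonneg_left ht (by positivity)).trans d1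
  refine ⟨k, by exact_mod_cast (show (k : ℝ) ≤ i by linarith), hk, ?_⟩
  rcases le_total j k with e | e
  · obtain ⟨t, rfl⟩ := Nat.exists_eq_add_of_le e
    have t1 := d2 t (by push_cast at hk'; linarith)
    exact (steps (by linarith) (by linarith) d0 w1 t w2 (t1.trans h1)).1.trans
      (mul_le_mul_of_nonneg_right (by linarith) (Nat.cast_nonneg _))
  · obtain ⟨t, rfl⟩ := Nat.exists_eq_add_of_le e
    have t1 := d2 t (by push_cast at hk'; linarith)
    exact (steps (by linarith) (by linarith) d0 w2 t w1 (t1.trans h1)).2.trans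
      (mul_le_mul_of_nonneg_right (by linarith) (Nat.cast_nonneg _))

lemma bad {ε : ℝ} {ρ i : ℕ} (h0 : 0 < ε) (h1 : ε ≤ 1) (hρ : 1 ≤ ρ)
    (hi : 400 * (ρ : ℝ) ^ 2 ≤ ε ^ 4 * i) :
    ∑ j ∈ (range (i + 1)).filter fun j => ¬ Gd ε ρ i j, (i.choose j : ℝ≥0∞) ≤
      ENNReal.ofReal (ε / 2) * 2 ^ i := by
  have r1 : (1 : ℝ) ≤ ρ := by exact_mod_cast hρ
  have i1 : (0 : ℝ) < i := (Nat.cast_nonneg i).lt_of_ne fun e => by rw [← e] at hi; nlinarith
  have m1 : ∑ s ∈ range (i + 1), (i.choose s : ℝ) * (2 * s - i) ^ 2 = (i : ℝ) * 2 ^ i := by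
    exact_mod_cast mom i
  have m2 : (∑ j ∈ (range (i + 1)).filter fun j => ¬ Gd ε ρ i j, (i.choose j : ℝ)) * (2 * i) ≤
      ε * (i * 2 ^ i) := by
    rw [← m1, sum_mul, mul_sum]
    refine le_trans (sum_le_sum fun j hj => ?_)
      (sum_le_sum_of_subset_of_nonneg (filter_subset _ _) fun s _ _ => by positivity)
    rw [mul_left_comm ε]
    exact mul_le_mul_of_nonneg_left (not_le.1 fun e => (mem_filter.1 hj).2
      (gd_of h0 h1 hρ hi e)).le (Nat.cast_nonneg _)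
  rw [← Nat.cast_sum, ← ENNReal.ofReal_natCast, ← ENNReal.ofReal_ofNat 2,
    ← ENNReal.ofReal_pow zero_le_two, ← ENNReal.ofReal_mul (by positivity), Nat.cast_sum]
  exact ENNReal.ofReal_le_ofReal (le_of_mul_le_mul_right (by linarith) (mul_pos two_pos i1))

lemma shift {ε : ℝ} (h0 : 0 < ε) {ρ i : ℕ} {s : ℤ} (hs : |s| ≤ ρ) (G : ℤ → ℝ≥0∞) :
    ∑ j ∈ (range (i + 1)).filter fun j => Gd ε ρ i j, (i.choose j : ℝ≥0∞) * G j ≤
      ENNReal.ofReal (1 + ε) * ∑ k ∈ range (i + 1), (i.choose k : ℝ≥0∞) * G (k + s) := by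
  rw [mul_sum]
  have h : ∀ j ∈ (range (i + 1)).filter fun j => Gd ε ρ i j, ((j : ℤ) - s).toNat ≤ i ∧
      (((j : ℤ) - s).toNat : ℤ) + s = j ∧
      (i.choose j : ℝ) ≤ (1 + ε) * i.choose ((j : ℤ) - s).toNat := fun j hj => by
    obtain ⟨k, k1, k2, k3⟩ := (mem_filter.1 hj).2 s hs
    rw [show ((j : ℤ) - s).toNat = k by omega]
    exact ⟨k1, k2, k3⟩
  refine le_trans ?_ (sum_le_sum_of_subset (s := ((range (i + 1)).filter fun j => Gd ε ρ i j).image
    fun j : ℕ => ((j : ℤ) - s).toNat) fun k hk => ?_)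
  rotate_left
  · obtain ⟨j, hj, rfl⟩ := mem_image.1 hk
    exact mem_range.2 (Nat.lt_succ_of_le (h j hj).1)
  rw [sum_image fun j hj j' hj' e => ?_]
  rotate_left
  · have a1 := (h j hj).2.1
    have a2 := (h j' hj').2.1
    omega
  refine sum_le_sum fun j hj => ?_
  rw [(h j hj).2.1, ← mul_assoc]
  refine mul_le_mul_left ?_ _
  rw [← ENNReal.ofReal_natCast, ← ENNReal.ofReal_natCast, ← ENNReal.ofReal_mul (by positivity)]
  exact ENNReal.ofReal_le_ofReal (h j hj).2.2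

variable {Pt : Type} [AddCommGroup Pt]

lemma piece {A : En Pt} {a : ℝ≥0∞} (hA : Rep A a) (ε : ℝ≥0∞) (g h : Pt) (m : ℕ)
    (S : ℕ → Finset ℕ) : ∃ B : Pt → ℝ≥0∞, ∑' v, B v ≤ ∑ i ∈ range (m + 1),
      (m.choose i : ℝ≥0∞) * ε ^ i * ∑ j ∈ S i, (i.choose j : ℝ≥0∞) * (1 * a ^ (m - i)) ∧
      ∀ F x, op B F x = ∑ i ∈ range (m + 1), (m.choose i : ℝ≥0∞) * ε ^ i * ∑ j ∈ S i,
        (i.choose j : ℝ≥0∞) * (A ^ (m - i)) F (x + i • g + j • h) := by
  obtain ⟨B, h1, h2⟩ := rep_sum (range (m + 1)) (fun i => (m.choose i : ℝ≥0∞) * ε ^ i) _ _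
    fun i => rep_sum (S i) (fun j => (i.choose j : ℝ≥0∞)) (fun _ => 1 * a ^ (m - i))
      (fun j => sh (i • g + j • h) * A ^ (m - i)) fun j => (rep_sh _).mul (hA.pow _)
  refine ⟨B, h1, fun F x => ?_⟩
  change opL B F x = _
  rw [← h2]
  simp only [LinearMap.sum_apply, Finset.sum_apply, LinearMap.smul_apply, Pi.smul_apply,
    Module.End.mul_apply, sh_apply, smul_eq_mul, add_assoc]

end LR1Aux3

open LR1Aux3 in
theorem t_lr1 : T_LR1 := by
  intro Pt _ q ε₀ g h hε hh hq h1 h2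
  obtain ⟨A, a, hA, ha, hQ⟩ := split hh hq h1 h2
  have hb : ε₀ + a < 1 := by
    rw [add_assoc, add_comm] at ha
    exact (ENNReal.lt_add_right (ne_top_of_le_ne_top ENNReal.one_ne_top (le_self_add.trans ha))
      hε).trans_le ha
  obtain ⟨N, hN, hN1⟩ := (((ENNReal.tendsto_pow_atTop_nhds_zero_of_lt_one hb).eventually_le_const
    (by norm_num : (0 : ℝ≥0∞) < 2⁻¹ * 2⁻¹)).and (eventually_ge_atTop 1)).exists
  have hNR : (1 : ℝ) ≤ N := by exact_mod_cast hN1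
  refine ⟨(40 * N)⁻¹, by positivity, fun ε m ρ e0 e1 hρ hc => ?_⟩
  have r1 : (1 : ℝ) ≤ ρ := by exact_mod_cast hρ
  have c1 : 1600 * (N : ℝ) ^ 2 * ρ ^ 2 ≤ ε ^ 4 * m := by
    rw [mul_assoc, le_inv_mul_iff₀ (by positivity)] at hc
    have := pow_le_pow_left₀ (by positivity) hc 2
    rw [mul_pow _ √(m : ℝ), Real.sq_sqrt (Nat.cast_nonneg m)] at this
    linarith
  have c2 : (m : ℝ) ≤ N * ((m / N : ℕ) + 1) := by exact_mod_cast (Nat.lt_mul_div_succ m hN1).le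
  have c3 : 1600 ≤ ε * ((m / N : ℕ) + 1 : ℝ) := by
    refine le_of_mul_le_mul_left ?_ (show (0 : ℝ) < N by linarith)
    have a1 : ε ^ 4 * m ≤ ε ^ 1 * (N * ((m / N : ℕ) + 1)) :=
      mul_le_mul (pow_le_pow_of_le_one e0.le e1 (by norm_num)) c2 (Nat.cast_nonneg _) (by positivity)
    have a2 : (N : ℝ) * 1 ≤ N ^ 2 * ρ ^ 2 :=
      mul_le_mul (le_self_pow₀ hNR two_ne_zero) (one_le_pow₀ r1) zero_le_one (by positivity)
    linarith
  have c4 : 1 ≤ ((m / N : ℕ) : ℝ) := by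
    nlinarith [mul_le_of_le_one_left (show 0 ≤ ((m / N : ℕ) + 1 : ℝ) by positivity) e1]
  have hsum : ∀ u : ℝ≥0∞, ∑ i ∈ range (m + 1), (m.choose i : ℝ≥0∞) * u ^ i * a ^ (m - i) =
      (u + a) ^ m := fun u => by
    rw [add_pow]
    exact sum_congr rfl fun i _ => by ring
  have e2 : 2 ^ (m / N) * (ε₀ + a) ^ m ≤ ENNReal.ofReal (ε / 2) :=
    calc 2 ^ (m / N) * (ε₀ + a) ^ m ≤ 2 ^ (m / N) * ((ε₀ + a) ^ N) ^ (m / N) := by
          rw [← pow_mul]
          exact mul_le_mul_right (pow_le_pow_right_of_le_one' hb.le (Nat.mul_div_le m N)) _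
      _ ≤ 2 ^ (m / N) * (2⁻¹ * 2⁻¹) ^ (m / N) := by gcongr
      _ = 2⁻¹ ^ (m / N) := by
          rw [← mul_pow, ← mul_assoc, ENNReal.mul_inv_cancel two_ne_zero ENNReal.ofNat_ne_top,
            one_mul]
      _ ≤ ENNReal.ofReal (ε / 2) := by
          rw [← ENNReal.ofReal_ofNat 2, ← ENNReal.ofReal_inv_of_pos two_pos,
            ← ENNReal.ofReal_pow (by positivity), inv_pow]
          refine ENNReal.ofReal_le_ofReal ?_
          rw [inv_le_iff_one_le_mul₀ (by positivity)]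
          have : ((m / N : ℕ) + 1 : ℝ) ≤ 2 ^ (m / N) := by
            exact_mod_cast Nat.succ_le_of_lt Nat.lt_two_pow_self
          nlinarith [mul_le_mul_of_nonneg_left this e0.le]
  obtain ⟨B, -, hB⟩ := piece hA ε₀ g h m fun i => (range (i + 1)).filter fun j => Gd ε ρ i j
  obtain ⟨D, hD, hD'⟩ := piece hA ε₀ g h m fun i => (range (i + 1)).filter fun j => ¬ Gd ε ρ i j
  have e3 : ∀ F x, (op q)^[m] F x = ∑ i ∈ range (m + 1), (m.choose i : ℝ≥0∞) * ε₀ ^ i *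
      ∑ s ∈ range (i + 1), (i.choose s : ℝ≥0∞) * (A ^ (m - i)) F (x + i • g + s • h) := fun F x => by
    rw [← expand hA, ← hQ, Module.End.pow_apply]
    rfl
  refine ⟨B, D, hD.trans ?_, fun F x => ⟨?_, fun s hs => ?_⟩⟩
  · refine (sum_le_sum (g := fun i => 2 ^ (m / N) * ((m.choose i : ℝ≥0∞) * ε₀ ^ i * a ^ (m - i)) +
      ENNReal.ofReal (ε / 2) * ((m.choose i : ℝ≥0∞) * (ε₀ + ε₀) ^ i * a ^ (m - i)))
      fun i _ => ?_).trans ?_
    · rw [← sum_mul, one_mul]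
      rcases lt_or_ge i (m / N) with hlt | hge
      · refine le_trans ?_ le_self_add
        rw [mul_left_comm]
        refine mul_le_mul_left ((sum_le_sum_of_subset (filter_subset _ _)).trans ?_) _
        rw [← Nat.cast_sum, Nat.sum_range_choose]
        push_cast
        exact pow_le_pow_right₀ one_le_two hlt.le
      · refine le_trans ?_ le_add_self
        refine (mul_le_mul_right (mul_le_mul_left (bad e0 e1 hρ ?_) _) _).trans
          (le_of_eq (by rw [← two_mul, mul_pow]; ring))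
        have f1 : ((m / N : ℕ) : ℝ) ≤ i := by exact_mod_cast hge
        have f2 : (m : ℝ) ≤ N * (2 * i) := c2.trans (mul_le_mul_of_nonneg_left (by linarith) (by linarith))
        have f3 := mul_le_mul_of_nonneg_left f2 (pow_pos e0 4).le
        have f4 : (N : ℝ) * ρ ^ 2 ≤ N ^ 2 * ρ ^ 2 :=
          mul_le_mul_of_nonneg_right (le_self_pow₀ hNR two_ne_zero) (sq_nonneg _)
        have f5 : 0 ≤ (N : ℝ) * ρ ^ 2 := by positivity
        refine le_of_mul_le_mul_left ?_ (show (0 : ℝ) < N by linarith)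
        linarith
    · rw [sum_add_distrib, ← mul_sum, ← mul_sum, hsum, hsum]
      refine (add_le_add e2 (mul_le_of_le_one_right' (pow_le_one' ha m))).trans ?_
      rw [← ENNReal.ofReal_add (by positivity) (by positivity), add_halves]
  · rw [e3, hB, hD', ← sum_add_distrib]
    exact sum_congr rfl fun i _ => by rw [← mul_add, sum_filter_add_sum_filter_not]
  · rw [e3, hB, mul_sum]
    refine sum_le_sum fun i _ => ?_
    rw [mul_left_comm]
    refine mul_le_mul_right ?_ _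
    have := shift e0 (i := i) hs fun t => (A ^ (m - i)) F (x + i • g + t • h)
    simp only [natCast_zsmul, add_zsmul] at this
    refine this.trans (le_of_eq ?_)
    congr 1
    exact sum_congr rfl fun k _ => by rw [add_right_comm x (s • h), add_right_comm _ (s • h), add_assoc _ (k • h)]

end Pool.Agent.MP_db8016_pr.BZ

end

section

/-! One step of the chain. -/

namespace Pool.Agent.MP_db8016_pr.BZ
open MeasureTheory ProbabilityTheory Filter Topology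
open scoped ENNReal Classical

namespace OneAux3

lemma dv {a y z : ℝ} {x : ℝ≥0∞} (ha : 0 < a) (h : ENNReal.ofReal a * x ≤ ENNReal.ofReal y)
    (hz : y ≤ z * a) : x ≤ ENNReal.ofReal z := by
  have h0 : ENNReal.ofReal a ≠ 0 := (ENNReal.ofReal_pos.2 ha).ne'
  rw [← ENNReal.mul_le_mul_iff_right h0 ENNReal.ofReal_ne_top, ← ENNReal.ofReal_mul ha.le]
  exact h.trans (ENNReal.ofReal_le_ofReal (by linarith))

lemma big {ε : ℝ} (h0 : 0 < ε) (h1 : ε ≤ 1 / 4) {k : ℕ} (hk : 1 ≤ k * ε ^ 3) :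
    1 ≤ 14 ^ 7 * ε ^ 14 * (1 + ε) ^ k := by
  have e3 : ε ^ 3 ≤ 1 / 64 := (pow_le_pow_left₀ h0.le h1 3).trans (by norm_num)
  have k0 : (0 : ℝ) ≤ k := Nat.cast_nonneg k
  have k1 : (64 : ℝ) ≤ k := by nlinarith
  have k2 : 64 ≤ k := by exact_mod_cast k1
  have j1 : (k : ℝ) ≤ 14 * (k / 7 : ℕ) := by exact_mod_cast (by omega : k ≤ 14 * (k / 7))
  have j2 : 1 + (k / 7 : ℕ) * ε ≤ (1 + ε) ^ (k / 7) := one_add_mul_le_pow (by linarith) _
  have j3 : ((1 + ε) ^ (k / 7)) ^ 7 ≤ (1 + ε) ^ k := by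
    rw [← pow_mul]
    exact pow_le_pow_right₀ (by linarith) (by omega)
  have j4 : 1 ≤ 14 * ε ^ 2 * (1 + ε) ^ (k / 7) := by
    have : (k : ℝ) * ε ^ 3 ≤ 14 * (k / 7 : ℕ) * ε ^ 3 := by gcongr
    have : 14 * ε ^ 2 * (1 + (k / 7 : ℕ) * ε) ≤ 14 * ε ^ 2 * (1 + ε) ^ (k / 7) := by gcongr
    nlinarith [sq_nonneg ε]
  calc (1 : ℝ) ≤ (14 * ε ^ 2 * (1 + ε) ^ (k / 7)) ^ 7 := one_le_pow₀ j4
    _ = 14 ^ 7 * ε ^ 14 * ((1 + ε) ^ (k / 7)) ^ 7 := by ring
    _ ≤ _ := by gcongr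

lemma cf_le (M : Mod) (s : M.Pt → ℝ≥0∞) (X : Set M.Pt) (f : M.Pt → List M.D → ℝ≥0∞)
    (g : List M.D → ℝ≥0∞) (h : ∀ x ∈ X, ∀ γ, f x γ ≤ g γ) :
    ∑' x, ∑' γ, M.cf s X x γ * (M.w γ * f x γ) ≤ ∑' x, ∑' γ, M.cf s X x γ * (M.w γ * g γ) := by
  refine ENNReal.tsum_le_tsum fun x => ENNReal.tsum_le_tsum fun γ => ?_
  by_cases hx : x ∈ X
  · gcongr
    exact h x hx γ
  · simp [Mod.cf, hx]

end OneAux3

open OneAux3 in
theorem t_one (hR : T_Red) (hC : T_StageC) (hS : T_Slab) (hT : T_Tr) (hH : T_HP) (hI : T_Time)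
    (hF : T_FT1) : T_One := by
  intro M p hP ⟨p0, hcr, hirr, hm1⟩
  obtain ⟨C, C0, hRed⟩ := hR M hP hirr hm1
  have p1 : p ≤ 1 := (hcr 0).trans (M.sm_le_one (M.pf_cross 0))
  have kp1 : M.κ * p ≠ ⊤ :=
    ENNReal.mul_ne_top (ne_top_of_le_ne_top ENNReal.one_ne_top M.κ_le_one)
      (ne_top_of_le_ne_top ENNReal.one_ne_top p1)
  obtain ⟨r, r0, hr⟩ : ∃ r : ℝ, 0 < r ∧ M.κ * p = ENNReal.ofReal r :=
    ⟨_, ENNReal.toReal_pos (mul_ne_zero M.hκ p0) kp1, (ENNReal.ofReal_toReal kp1).symm⟩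
  obtain ⟨Q, Q0, hQ⟩ : ∃ Q : ℝ, 0 ≤ Q ∧ M.m1 * M.κ⁻¹ ^ 2 = ENNReal.ofReal Q :=
    ⟨_, ENNReal.toReal_nonneg, (ENNReal.ofReal_toReal (ENNReal.mul_ne_top hm1
      (ENNReal.pow_ne_top (ENNReal.inv_ne_top.2 M.hκ)))).symm⟩
  refine ⟨2 * (4 * (r⁻¹ + 2 * Q) + 192 * Q ^ 2 + 256 * 14 ^ 7 * C) + C, by positivity, ?_⟩
  intro s S w lam A ε h h' t t' hc hs l0 lA A1 e0 e1 h0 hh h1 h2 hw hl ht
  have hE : 1 + ENNReal.ofReal ε = ENNReal.ofReal (1 + ε) := by
    rw [ENNReal.ofReal_add zero_le_one e0.le, ENNReal.ofReal_one]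
  obtain ⟨U, u1, u2, u3⟩ := hRed s S (-w - 2) h ε t
    (ENNReal.ofReal (1 + ε) * (t' + ENNReal.ofReal (2 * ε ^ 2))) hc e0 (by linarith) h0
    (by linarith) (by rwa [← mul_assoc, ← pow_succ])
  obtain ⟨T, T1, T2⟩ : ∃ T : ℕ, h' ≤ T * ε ∧ (T + 4) * ε ≤ 6 * h' := by
    refine ⟨⌈h' / ε⌉₊, (div_le_iff₀ e0).1 (Nat.le_ceil _), ?_⟩
    have := Nat.ceil_lt_add_one (show 0 ≤ h' / ε by positivity)
    have : (⌈h' / ε⌉₊ : ℝ) * ε ≤ (h' / ε + 1) * ε := by gcongr
    rw [add_mul, div_mul_cancel₀ _ e0.ne'] at this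
    nlinarith
  obtain ⟨k, k1, k2⟩ : ∃ k : ℕ, 1 ≤ k * ε ^ 3 ∧ k * ε ^ 3 ≤ 2 := by
    refine ⟨⌈1 / ε ^ 3⌉₊, (div_le_iff₀ (by positivity)).1 (Nat.le_ceil _), ?_⟩
    have := Nat.ceil_lt_add_one (show 0 ≤ 1 / ε ^ 3 by positivity)
    have : (⌈1 / ε ^ 3⌉₊ : ℝ) * ε ^ 3 ≤ (1 / ε ^ 3 + 1) * ε ^ 3 := by gcongr
    rw [add_mul, div_mul_cancel₀ _ (by positivity)] at this
    nlinarith [pow_le_one₀ (n := 3) e0.le (show ε ≤ 1 by linarith)]
  have T0 : (0 : ℝ) < T := by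
    by_contra c
    nlinarith [not_lt.1 c]
  have pcH : PC (M.HP (ENNReal.ofReal ε) (w + 7)) := fun γ hγ β hβ α hα => hγ α (hα.trans hβ)
  have hb : 0 < h' / ε ^ 3 := by positivity
  have key := hC M s S (-w - 2) (-w - 2 + h) (-w - 2 + h')
    (M.HP (ENNReal.ofReal ε) (w + 7) ∩ {α | α.length ≤ T}) U (ENNReal.ofReal lam)
    (4 * (ENNReal.ofReal (r⁻¹ * ε) + ENNReal.ofReal (2 * Q * ε)))
    (4 * ENNReal.ofReal (48 * Q ^ 2 * ε * (h' / ε ^ 3))) (ENNReal.ofReal (h' / ε ^ 3))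
    (ENNReal.ofReal ε) (ENNReal.ofReal (1 + ε) * (t' + ENNReal.ofReal (2 * ε ^ 2))) t' k
    (by linarith) u1 hc.2.2 hs (ENNReal.ofReal_pos.2 l0).ne' ENNReal.ofReal_ne_top
    (fun γ hγ β hβ => ⟨pcH γ hγ.1 β hβ, hβ.length_le.trans hγ.2⟩) ?_ ?_
    (ENNReal.ofReal_pos.2 hb).ne' ENNReal.ofReal_ne_top ENNReal.ofReal_ne_top
    (Nat.pos_of_ne_zero (by rintro rfl; norm_num at k1)) ?_
  · have a1 : 4 * (ENNReal.ofReal (r⁻¹ * ε) + ENNReal.ofReal (2 * Q * ε)) =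
        ENNReal.ofReal (4 * (r⁻¹ + 2 * Q) * ε) := by
      rw [← ENNReal.ofReal_add (by positivity) (by positivity), ← ENNReal.ofReal_ofNat 4,
        ← ENNReal.ofReal_mul (by norm_num)]
      congr 1
      ring
    have a2 : 4 * ENNReal.ofReal (48 * Q ^ 2 * ε * (h' / ε ^ 3)) / ENNReal.ofReal (h' / ε ^ 3) =
        ENNReal.ofReal (192 * Q ^ 2 * ε) := by
      rw [← ENNReal.ofReal_ofNat 4, ← ENNReal.ofReal_mul (by norm_num),
        ← ENNReal.ofReal_div_of_pos hb]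
      congr 1
      field_simp
      ring
    have a3 : ((1 + ENNReal.ofReal ε) ^ k)⁻¹ *
        ∑' u, U.indicator (fun u => M.yc (M.cf s (M.TS S u))) u ≤
        ENNReal.ofReal (256 * 14 ^ 7 * C * A * ε) := by
      have m0 : 0 < max h 1 := lt_max_of_lt_right one_pos
      have q0 : 0 < (1 + ε) ^ k := by positivity
      refine dv q0 ?_ (z := 256 * 14 ^ 7 * C * A * ε) (y := C * S.card / (ε ^ 5 * max h 1)) ?_
      · rw [hE, ENNReal.ofReal_pow (by linarith), ← mul_assoc, ENNReal.mul_inv_cancel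
          (pow_ne_zero _ (ENNReal.ofReal_pos.2 (by linarith)).ne')
          (ENNReal.pow_ne_top ENNReal.ofReal_ne_top), one_mul]
        exact u2
      · have b1 := big e0 e1 k1
        have b2 : ε ^ 8 * S.card ≤ A * (256 * max h 1) := by
          calc ε ^ 8 * S.card = lam * S.card * h' := by rw [← hl]; ring
            _ ≤ A * (256 * max h 1) := by gcongr
        rw [div_le_iff₀ (by positivity)]
        calc C * S.card ≤ C * S.card * (14 ^ 7 * ε ^ 14 * (1 + ε) ^ k) :=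
              le_mul_of_one_le_right (by positivity) b1
          _ = C * 14 ^ 7 * ε ^ 6 * (1 + ε) ^ k * (ε ^ 8 * S.card) := by ring
          _ ≤ C * 14 ^ 7 * ε ^ 6 * (1 + ε) ^ k * (A * (256 * max h 1)) := by gcongr
          _ = _ := by ring
    have a4 : ENNReal.ofReal (1 + ε) ^ 3 ≤ ENNReal.ofReal 2 := by
      rw [← ENNReal.ofReal_pow (by linarith)]
      exact ENNReal.ofReal_le_ofReal
        ((pow_le_pow_left₀ (by linarith) (show 1 + ε ≤ 5 / 4 by linarith) 3).trans (by norm_num))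
    have a5 := M.top_mono s S (-w - 2 + h') u1 (le_refl t')
    rw [a1, a2, hE] at key
    rw [hE] at a3
    calc _ ≤ _ := u3
      _ ≤ ENNReal.ofReal (1 + ε) ^ 3 * (ENNReal.ofReal (4 * (r⁻¹ + 2 * Q) * ε) +
          ENNReal.ofReal (192 * Q ^ 2 * ε) + ENNReal.ofReal (1 + ε) *
          M.Top s S (-w - 2 + h') (M.Win (-w - 2) 3) t' +
          ENNReal.ofReal (256 * 14 ^ 7 * C * A * ε)) + ENNReal.ofReal (C * ε) := by
        gcongr
        exact key.trans (by gcongr)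
      _ = ENNReal.ofReal (1 + ε) ^ 4 * M.Top s S (-w - 2 + h') (M.Win (-w - 2) 3) t' +
          (ENNReal.ofReal (1 + ε) ^ 3 * (ENNReal.ofReal (4 * (r⁻¹ + 2 * Q) * ε) +
          ENNReal.ofReal (192 * Q ^ 2 * ε) + ENNReal.ofReal (256 * 14 ^ 7 * C * A * ε)) +
          ENNReal.ofReal (C * ε)) := by ring
      _ ≤ ENNReal.ofReal (1 + ε) ^ 4 * M.Top s S (-w - 2 + h') (M.Win (-w - 2) 3) t' +
          (ENNReal.ofReal 2 * (ENNReal.ofReal (4 * (r⁻¹ + 2 * Q) * ε) +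
          ENNReal.ofReal (192 * Q ^ 2 * ε) + ENNReal.ofReal (256 * 14 ^ 7 * C * A * ε)) +
          ENNReal.ofReal (C * ε)) := by gcongr
      _ ≤ _ := by
        gcongr
        rw [← ENNReal.ofReal_add (by positivity) (by positivity),
          ← ENNReal.ofReal_add (by positivity) (by positivity), ← ENNReal.ofReal_mul (by norm_num),
          ← ENNReal.ofReal_add (by positivity) (by positivity)]
        refine ENNReal.ofReal_le_ofReal ?_
        have : (2 * (4 * (r⁻¹ + 2 * Q) + 192 * Q ^ 2) + C) * ε * 1 ≤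
          (2 * (4 * (r⁻¹ + 2 * Q) + 192 * Q ^ 2) + C) * ε * A := by gcongr
        linarith
  · refine (cf_le M s _ _ (fun γ => (if γ ∈ M.HP (ENNReal.ofReal ε) (w + 7) then 0 else 1) +
      if ∃ α, α <+: γ ∧ α ≠ γ ∧ M.lv α < h' ∧ T < α.length then 1 else 0) fun x hx γ => ?_).trans
      (hS M s _ _ _ hc.1 hc.2.1 fun τ τ1 τ2 => ?_)
    · by_cases c : ∃ α, α <+: γ ∧ α ≠ γ ∧ M.L x + M.lv α < -w - 2 + h' ∧
          α ∉ M.HP (ENNReal.ofReal ε) (w + 7) ∩ {α | α.length ≤ T}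
      · rw [if_pos c]
        obtain ⟨α, c1, c2, c3, c4⟩ := c
        by_cases d : γ ∈ M.HP (ENNReal.ofReal ε) (w + 7)
        · rw [if_pos d, zero_add, if_pos]
          exact ⟨α, c1, c2, by linarith [hx.1], not_le.1 fun e => c4 ⟨pcH γ d α c1, e⟩⟩
        · rw [if_neg d]
          exact le_self_add
      · rw [if_neg c]
        exact zero_le
    · rw [Mod.UW_add]
      refine add_le_add (dv r0 (hr ▸ hH M p _ τ (w + 7) hcr (by linarith)) (by field_simp; rfl))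
        (dv T0 (y := (h' + 1) * Q) ?_ (by nlinarith))
      rw [ENNReal.ofReal_natCast, ENNReal.ofReal_mul (by linarith), ← hQ]
      exact hI M τ h' T (by linarith)
  · refine (cf_le M s _ _ (fun γ => M.FT (M.HP (ENNReal.ofReal ε) (w + 7) ∩ {α | α.length ≤ T})
      M.Near (pts M.vec 0 γ)) fun x hx γ => hT M _ _ x γ fun x' hx' => ?_).trans
      (hS M s _ _ _ hc.1 hc.2.1 fun τ τ1 τ2 => ?_)
    · rw [abs_lt]
      constructor <;> linarith [hx.1, hx.2, hx'.1, hx'.2]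
    · refine dv e0 (y := 8 * (T + 4) * Q ^ 2) ((hF M _ (w + 7) τ T (by linarith)
        (by linarith)).trans_eq ?_) ?_
      · rw [hQ, ENNReal.ofReal_mul (by positivity), ENNReal.ofReal_mul (by norm_num),
          ENNReal.ofReal_pow Q0, ENNReal.ofReal_add T0.le (by norm_num), ENNReal.ofReal_natCast]
        norm_num
      · have : 48 * Q ^ 2 * ε * (h' / ε ^ 3) * ε = 8 * (6 * h' / ε) * Q ^ 2 := by
          field_simp
          ring
        rw [this]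
        gcongr
        exact (le_div_iff₀ e0).2 T2
  · rw [hE, ← ENNReal.ofReal_mul l0.le, ← ENNReal.ofReal_natCast,
      ← ENNReal.ofReal_mul (Nat.cast_nonneg k)]
    refine mul_le_mul' le_rfl (add_le_add le_rfl (ENNReal.ofReal_le_ofReal ?_))
    have : lam * (h' / ε ^ 3) = ε ^ 3 * ε ^ 2 := by
      rw [← mul_div_assoc, hl]
      field_simp
    rw [this, ← mul_assoc]
    gcongr

end Pool.Agent.MP_db8016_pr.BZ

end

section

/-! Reduction of the number of starts. -/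

namespace Pool.Agent.MP_db8016_pr.BZ
open MeasureTheory ProbabilityTheory Filter Topology
open scoped ENNReal Classical

namespace RedAux3

lemma pick {c ε h : ℝ} (hc : 0 < c) (h0 : 0 < ε) (h1 : ε ≤ 1)
    (hb : 16 + 16 / c ^ 2 < ε ^ 5 * max h 1) : ∃ m ρ : ℕ, 2 ≤ ρ ∧
      2 * ((ρ : ℝ) - 1) ≤ c * ε ^ 2 * √m ∧ 4 < h ∧ (m : ℝ) ≤ 2 * ε * (h - 4) ∧
      ε ^ 5 * max h 1 ≤ (16 + 16 / c ^ 2) * ρ ^ 2 := by
  have a0 : 0 < 16 / c ^ 2 := by positivity
  have a1 : ε ^ 5 ≤ ε := by simpa using pow_le_pow_of_le_one h0.le h1 (show 1 ≤ 5 by norm_num)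
  have a2 : ε ^ 5 * max h 1 ≤ ε * max h 1 := mul_le_mul_of_nonneg_right a1 (by positivity)
  have a3 : ε * max h 1 ≤ max h 1 := mul_le_of_le_one_left (by positivity) h1
  have a4 : 16 < h := by
    rcases le_total h 1 with l | l
    · rw [max_eq_right l] at a2 a3 hb
      linarith
    · rw [max_eq_left l] at a2 a3 hb
      linarith
  rw [max_eq_left (show 1 ≤ h by linarith)] at a2 hb ⊢
  obtain ⟨m, m1, m2⟩ : ∃ m : ℕ, (m : ℝ) ≤ ε * h ∧ ε * h < m + 1 :=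
    ⟨_, Nat.floor_le (by positivity), Nat.lt_floor_add_one _⟩
  obtain ⟨x, hx⟩ : ∃ x, x = c * ε ^ 2 * √m / 2 := ⟨_, rfl⟩
  have x0 : 0 ≤ x := by rw [hx]; positivity
  have x1 : x ^ 2 = c ^ 2 * ε ^ 4 * m / 4 := by
    rw [hx, div_pow, mul_pow, Real.sq_sqrt (Nat.cast_nonneg m)]
    ring
  have x2 : ε ^ 5 * h ≤ 8 / c ^ 2 * x ^ 2 := by
    have e : 8 / c ^ 2 * x ^ 2 = ε ^ 4 * (2 * m) := by
      rw [x1]
      field_simp
      ring
    rw [e, pow_succ, mul_assoc]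
    exact mul_le_mul_of_nonneg_left (by linarith) (by positivity)
  have a5 : 16 / c ^ 2 = 2 * (8 / c ^ 2) := by ring
  have x3 : 1 ≤ x := by
    by_contra l
    have : x ^ 2 ≤ 1 := pow_le_one₀ x0 (not_le.1 l).le
    nlinarith
  have x4 : x ^ 2 ≤ ((⌊x⌋₊ + 1 : ℕ) : ℝ) ^ 2 :=
    pow_le_pow_left₀ x0 (by exact_mod_cast (Nat.lt_floor_add_one x).le) 2
  refine ⟨m, ⌊x⌋₊ + 1, Nat.succ_le_succ (Nat.le_floor (by exact_mod_cast x3)), ?_, by linarith,
    by nlinarith, x2.trans (mul_le_mul (by linarith) x4 (by positivity) (by positivity))⟩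
  have := Nat.floor_le x0
  push_cast
  linarith

lemma bound {X : ℝ≥0∞} {ρ n : ℕ} {K E B C : ℝ} (hE : 0 < E) (hB : 0 ≤ B) (h1 : E ≤ B * ρ ^ 2)
    (h2 : B * (4 * K) ≤ C) (h : (ρ : ℝ≥0∞) ^ 2 * X ≤ n * (4 * ENNReal.ofReal K)) :
    X ≤ ENNReal.ofReal (C * n / E) := by
  rw [ENNReal.ofReal_div_of_pos hE,
    ENNReal.le_div_iff_mul_le (Or.inl (by simpa using hE)) (Or.inl ENNReal.ofReal_ne_top)]
  calc X * ENNReal.ofReal E ≤ X * ENNReal.ofReal (B * ρ ^ 2) :=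
        mul_le_mul_right (ENNReal.ofReal_le_ofReal h1) _
    _ = ENNReal.ofReal B * ((ρ : ℝ≥0∞) ^ 2 * X) := by
        rw [ENNReal.ofReal_mul hB, ENNReal.ofReal_pow (Nat.cast_nonneg _), ENNReal.ofReal_natCast]
        ring
    _ ≤ ENNReal.ofReal B * (n * (4 * ENNReal.ofReal K)) := mul_le_mul_right h _
    _ = ENNReal.ofReal (n * (B * (4 * K))) := by
        rw [ENNReal.ofReal_mul (Nat.cast_nonneg _), ENNReal.ofReal_mul hB,
          ENNReal.ofReal_mul (by norm_num), ENNReal.ofReal_natCast, ENNReal.ofReal_ofNat]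
        ring
    _ ≤ _ := ENNReal.ofReal_le_ofReal (by
        rw [mul_comm C]
        exact mul_le_mul_of_nonneg_left h2 (Nat.cast_nonneg _))

lemma err {m : ℕ} {μ K ε g C : ℝ} (hμ : 0 ≤ μ) (hK : 0 ≤ K) (h0 : 0 < ε) (hm : (m : ℝ) ≤ 2 * ε * g)
    (hC : 24 * μ + 12 * K ≤ C) : 12 * m * ENNReal.ofReal μ / ENNReal.ofReal g +
      12 * ENNReal.ofReal ε * ENNReal.ofReal K ≤ ENNReal.ofReal (C * ε) := by
  have e1 : 12 * m * ENNReal.ofReal μ / ENNReal.ofReal g ≤ ENNReal.ofReal (24 * μ * ε) := by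
    refine ENNReal.div_le_of_le_mul ?_
    rw [← ENNReal.ofReal_mul (by positivity), ← ENNReal.ofReal_natCast, ← ENNReal.ofReal_ofNat,
      ← ENNReal.ofReal_mul (by norm_num), ← ENNReal.ofReal_mul (by positivity)]
    exact ENNReal.ofReal_le_ofReal (by nlinarith [mul_le_mul_of_nonneg_left hm hμ])
  have e2 : 12 * ENNReal.ofReal ε * ENNReal.ofReal K = ENNReal.ofReal (12 * ε * K) := by
    rw [ENNReal.ofReal_mul (by positivity), ENNReal.ofReal_mul (by norm_num), ENNReal.ofReal_ofNat]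
  refine (add_le_add e1 e2.le).trans ?_
  rw [← ENNReal.ofReal_add (by positivity) (by positivity)]
  exact ENNReal.ofReal_le_ofReal (by nlinarith [mul_le_mul_of_nonneg_right hC h0.le])

end RedAux3

theorem t_red (hS : T_Sm) (hU : T_Sum) : T_Red := by
  intro M hP hI hm
  obtain ⟨c, hc, H⟩ := hS M hP hI
  have k0 : M.κ⁻¹ ≠ ⊤ := ENNReal.inv_ne_top.2 M.hκ
  obtain ⟨K, hK, eK⟩ : ∃ K : ℝ, 0 ≤ K ∧ M.κ⁻¹ = ENNReal.ofReal K :=
    ⟨_, ENNReal.toReal_nonneg, (ENNReal.ofReal_toReal k0).symm⟩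
  obtain ⟨μ, hμ, eμ⟩ : ∃ μ : ℝ, 0 ≤ μ ∧ M.m1 * M.κ⁻¹ = ENNReal.ofReal μ :=
    ⟨_, ENNReal.toReal_nonneg, (ENNReal.ofReal_toReal (ENNReal.mul_ne_top hm k0)).symm⟩
  have hB : 0 ≤ 16 + 16 / c ^ 2 := by positivity
  have hB' : 0 ≤ (16 + 16 / c ^ 2) * (4 * K) := by positivity
  refine ⟨(16 + 16 / c ^ 2) * (4 * K) + (24 * μ + 12 * K) + 1, by positivity,
    fun s S b h ε t t' hx h0 h1 hh hb ht => ?_⟩
  have hE : 0 < ε ^ 5 * max h 1 := by positivity
  have hW := hU M s S b hx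
  rw [eK] at hW
  rcases le_or_gt (ε ^ 5 * max h 1) (16 + 16 / c ^ 2) with l | l
  · have e : 1 ≤ ENNReal.ofReal (1 + ε) ^ 3 :=
      one_le_pow₀ (ENNReal.one_le_ofReal.2 (by linarith))
    refine ⟨_, subset_rfl, RedAux3.bound (ρ := 1) (K := K) hE hB (by simpa using l)
      (by linarith) (by simpa using hW), le_add_right ?_⟩
    exact (M.top_mono s S _ subset_rfl ((le_mul_of_one_le_left' e).trans ht)).trans
      (le_mul_of_one_le_left' e)
  · obtain ⟨m, ρ, r1, r2, r3, r4, r5⟩ := RedAux3.pick hc h0 h1 l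
    obtain ⟨U, u1, u2, u3⟩ := H s S b h ε m ρ _ t t' hx h0 h1 r1 r2 r3 hb ht
    refine ⟨U, u1, RedAux3.bound hE hB r5 (by linarith) (u2.trans hW), u3.trans ?_⟩
    rw [add_assoc, eμ, eK]
    exact add_le_add_right (RedAux3.err hμ hK h0 r4 (by linarith)) _

end Pool.Agent.MP_db8016_pr.BZ

end
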