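import Pool.Agent.Mg.Fdb8016p.Ged04e7
import Pool.Agent.Mg.Fdb8016p.G4304b5

section

/-! The iteration of windows and the final count. -/

namespace Pool.Agent.MP_db8016_pr.BZ
open MeasureTheory ProbabilityTheory Filter
open scoped ENNReal

namespace CoreAux
open _root_.Pool.Agent.MP_db8016_pr.BZ.Mod

/-- Concatenations of `n` windows of heights `f 0`, `f 1`, and so on, the first one on top. -/
def Fam (M : Mod) (G : ℕ → Set (List M.D)) : ℕ → (ℕ → ℕ) → Set (List M.D)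
  | 0, _ => {[]}
  | n + 1, f => M.Cat (Fam M G n fun i => f (i + 1)) (G (f 0))

lemma pf_cat {M : Mod} {A G : Set (List M.D)} (hA : PF A) (hG : PF G) : PF (M.Cat A G) := by
  rintro _ ⟨a, ha, g, hg, rfl⟩ _ ⟨a', ha', g', hg', rfl⟩ h
  have e : a = a' := by
    rcases List.prefix_or_prefix_of_prefix ((List.prefix_append a g).trans h)
      (List.prefix_append a' g') with h1 | h1
    · exact hA _ ha _ ha' h1
    · exact (hA _ ha' _ ha h1).symm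
  subst e
  rw [hG _ hg _ hg' ((List.prefix_append_right_inj a).1 h)]

lemma fam_spec {M : Mod} {G : ℕ → Set (List M.D)} (hG : ∀ (w : ℕ) γ, γ ∈ G w → M.Cross w γ)
    (n : ℕ) : ∀ f : ℕ → ℕ, PF (Fam M G n f) ∧ ∀ γ ∈ Fam M G n f, M.Up γ ∧
      ((∑ i ∈ Finset.range n, f i : ℕ) : ℝ) ≤ M.lv γ ∧
      M.lv γ ≤ ((∑ i ∈ Finset.range n, f i : ℕ) : ℝ) + n := by
  induction n with
  | zero =>
    intro f
    refine ⟨?_, ?_⟩
    · intro γ h γ' h' _
      rw [Fam, Set.mem_singleton_iff] at h h'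
      rw [h, h']
    · intro γ h
      rw [Fam, Set.mem_singleton_iff] at h
      subst h
      exact ⟨up_nil, by simp, by simp⟩
  | succ n ih =>
    intro f
    obtain ⟨h1, h2⟩ := ih fun i => f (i + 1)
    refine ⟨pf_cat h1 ((M.pf_cross (f 0)).mono fun γ h => hG _ γ h), ?_⟩
    rintro _ ⟨a, ha, g, hg, rfl⟩
    obtain ⟨a1, a2, a3⟩ := h2 a ha
    have g1 := hG _ g hg
    have g2 := g1.2.1
    have g3 := g1.lv_lt (Nat.cast_nonneg _)
    rw [Finset.sum_range_succ', lv_append]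
    push_cast at a2 a3 ⊢
    exact ⟨a1.append g1.up, by linarith, by linarith⟩

lemma F_nil (M : Mod) (x : M.Pt) : M.F x [] = Set.univ := by
  ext a
  simp [Mod.F, Fol]

lemma one_le_tot (M : Mod) {z : M.Pt} (hz : M.L z < 0) : 1 ≤ M.Tot {[]} z := by
  unfold Mod.Tot
  refine le_trans ?_ (ENNReal.le_tsum [])
  refine le_trans ?_ (ENNReal.le_tsum [])
  rw [if_pos]
  · simp [F_nil]
  · refine ⟨rfl, fun α h h' => absurd (List.prefix_nil.1 h) h', ?_⟩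
    simpa using hz

/-- One window. -/
lemma step (hC : S_Comp) {M : Mod} {A G : Set (List M.D)} (hA : PF A) (hA' : ∀ γ ∈ A, M.Up γ)
    (hG : ∀ γ ∈ G, M.Up γ) {s s' : M.Pt → ℝ≥0∞}
    (h : ∀ z', s' z' ≤ ∑' z, s z * M.Qk G z z') :
    ∑' z, s' z * M.Tot A z ≤ ∑' z, s z * M.Tot (M.Cat A G) z := by
  calc ∑' z', s' z' * M.Tot A z' ≤ ∑' z', (∑' z, s z * M.Qk G z z') * M.Tot A z' :=
        ENNReal.tsum_le_tsum fun z' => by gcongr; exact h z'
    _ = ∑' z, s z * ∑' z', M.Qk G z z' * M.Tot A z' := by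
        simp only [← ENNReal.tsum_mul_right, ← ENNReal.tsum_mul_left, mul_assoc]
        exact ENNReal.tsum_comm
    _ ≤ _ := ENNReal.tsum_le_tsum fun z => by gcongr; exact hC M A G z hA hA' hG

/-- The bound after normalisation. -/
lemma norm_bound {ρ : ℝ} (hρ : 0 < ρ) {c m x : ℝ≥0∞} (hc : c ≠ 0) (hc1 : c ≤ 1) (hm : c ≤ m)
    {K w w' : ℕ} (hw : 1 ≤ w) (hw' : 1 ≤ w') (h : w' ≤ 2 * K * w)
    (hx : x ≤ ENNReal.ofReal ((w : ℝ) ^ (-ρ))) :
    m⁻¹ * x ≤ ENNReal.ofReal ((2 * K : ℝ) ^ ρ / c.toReal * (w' : ℝ) ^ (-ρ)) := by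
  have hct : c ≠ ⊤ := ne_top_of_le_ne_top ENNReal.one_ne_top hc1
  have hcp : 0 < c.toReal := ENNReal.toReal_pos hc hct
  have hwp : (0 : ℝ) < w := by exact_mod_cast hw
  have hwp' : (0 : ℝ) < w' := by exact_mod_cast hw'
  have hK : (0 : ℝ) < 2 * K := by
    have : 0 < K := by
      rcases Nat.eq_zero_or_pos K with rfl | h0
      · omega
      · exact h0
    have : (0 : ℝ) < K := by exact_mod_cast this
    linarith
  have h1 : (w : ℝ) ^ (-ρ) ≤ (2 * K : ℝ) ^ ρ * (w' : ℝ) ^ (-ρ) := by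
    have h2 : (2 * K * w : ℝ) ^ (-ρ) ≤ (w' : ℝ) ^ (-ρ) :=
      Real.rpow_le_rpow_of_nonpos hwp' (by exact_mod_cast h) (by linarith)
    rw [Real.mul_rpow hK.le hwp.le] at h2
    have h3 : (2 * K : ℝ) ^ ρ * (2 * K : ℝ) ^ (-ρ) = 1 := by
      rw [← Real.rpow_add hK]; simp
    calc (w : ℝ) ^ (-ρ) = (2 * K : ℝ) ^ ρ * ((2 * K : ℝ) ^ (-ρ) * (w : ℝ) ^ (-ρ)) := by
          rw [← mul_assoc, h3, one_mul]
      _ ≤ _ := mul_le_mul_of_nonneg_left h2 (Real.rpow_nonneg hK.le _)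
  calc m⁻¹ * x ≤ c⁻¹ * ENNReal.ofReal ((2 * K : ℝ) ^ ρ * (w' : ℝ) ^ (-ρ)) := by
        gcongr
        exact hx.trans (ENNReal.ofReal_le_ofReal h1)
    _ = _ := by
        rw [div_mul_eq_mul_div, div_eq_inv_mul, ENNReal.ofReal_mul (inv_nonneg.2 hcp.le),
          ENNReal.ofReal_inv_of_pos hcp, ENNReal.ofReal_toReal hct]

/-- The iteration. -/
lemma iter (hC : S_Comp) {M : Mod} {ρ : ℝ} {c : ℝ≥0∞} {G : ℕ → Set (List M.D)} (hρ : 0 < ρ)
    (hc : c ≠ 0) (hc1 : c ≤ 1) (hG : ∀ (w : ℕ) γ, γ ∈ G w → M.Cross w γ) {K w₁ : ℕ}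
    (hw₁ : 1 ≤ w₁)
    (hW : ∀ w, w₁ ≤ w → ∀ s : M.Pt → ℝ≥0∞, M.Slab s → ∑' z, s z = 1 →
      (∀ z, s z ≤ ENNReal.ofReal ((2 * K : ℝ) ^ ρ / c.toReal * (w : ℝ) ^ (-ρ))) →
      ∃ s' : M.Pt → ℝ≥0∞, (∀ z', s' z' ≤ ∑' z, s z * M.Qk (G w) z z') ∧ M.Slab s' ∧
        c ≤ ∑' z, s' z ∧ ∑' z, s' z ≤ 1 ∧ ∀ z, s' z ≤ ENNReal.ofReal ((w : ℝ) ^ (-ρ)))
    (n : ℕ) : ∀ f : ℕ → ℕ, (∀ i, w₁ ≤ f i) → (∀ i, f (i + 1) ≤ 2 * K * f i) →
      ∀ s : M.Pt → ℝ≥0∞, M.Slab s → ∑' z, s z = 1 →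
      (∀ z, s z ≤ ENNReal.ofReal ((2 * K : ℝ) ^ ρ / c.toReal * (f 0 : ℝ) ^ (-ρ))) →
      c ^ n ≤ ∑' z, s z * M.Tot (Fam M G n f) z := by
  induction n with
  | zero =>
    intro f _ _ s h1 h2 _
    rw [pow_zero, ← h2]
    refine ENNReal.tsum_le_tsum fun z => ?_
    by_cases hz : s z = 0
    · simp [hz]
    · exact le_mul_of_one_le_right' (one_le_tot M (h1 z hz).2)
  | succ n ih =>
    intro f f1 f2 s h1 h2 h3
    obtain ⟨s', a1, a2, a3, a4, a5⟩ := hW (f 0) (f1 0) s h1 h2 h3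
    obtain ⟨b1, b2⟩ := fam_spec hG n fun i => f (i + 1)
    refine le_trans ?_ (step hC b1 (fun γ h => (b2 γ h).1) (fun γ h => (hG _ γ h).up) a1)
    set m := ∑' z, s' z with hm
    have hm0 : m ≠ 0 := fun e => hc (le_zero_iff.1 (e ▸ a3))
    have hmt : m ≠ ⊤ := ne_top_of_le_ne_top ENNReal.one_ne_top a4
    have key := ih (fun i => f (i + 1)) (fun i => f1 _) (fun i => f2 _) (fun z => m⁻¹ * s' z)
      (fun z hz => a2 z fun e => hz (by simp [e]))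
      (by rw [ENNReal.tsum_mul_left, ← hm, ENNReal.inv_mul_cancel hm0 hmt])
      (fun z => norm_bound hρ hc hc1 a3 (hw₁.trans (f1 0)) (hw₁.trans (f1 1)) (f2 0) (a5 z))
    simp only [mul_assoc, ENNReal.tsum_mul_left] at key
    calc c ^ (n + 1) = c * c ^ n := pow_succ' _ _
      _ ≤ m * (m⁻¹ * ∑' z, s' z * M.Tot (Fam M G n fun i => f (i + 1)) z) := by gcongr
      _ = _ := by rw [← mul_assoc, ENNReal.mul_inv_cancel hm0 hmt, one_mul]

lemma turn_mono (M : Mod) (k : ℝ) {k' k'' : ℝ} (h : k' ≤ k'') : M.Turn k k' ⊆ M.Turn k k'' := by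
  rintro a ⟨Γ, h1, h2, h3, h4, h5⟩
  exact ⟨Γ, h1, h2, h3, h4, fun α hα => (h5 α hα).trans_le h⟩

/-- The start. -/
lemma start (M : Mod) (hI : M.Init) {B : ℝ} (hB : 0 < B) : ∃ (s : M.Pt → ℝ≥0∞) (R : ℕ),
    M.Slab s ∧ ∑' z, s z = 1 ∧ (∀ z, s z ≤ ENNReal.ofReal B) ∧ ∀ z, s z ≠ 0 →
      M.L z < 0 ∧ ∃ lam, M.ds lam = z ∧ lam.length ≤ R ∧
        ∀ α, α <+: lam → α ≠ lam → 0 ≤ M.lv α := by
  obtain ⟨N, hN⟩ := exists_nat_gt B⁻¹
  obtain ⟨Z, R, h1, h2⟩ := hI N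
  have hN0 : 0 < N := by
    have : (0 : ℝ) < N := (inv_pos.2 hB).trans hN
    exact_mod_cast this
  have hZ : (Z.card : ℝ≥0∞) ≠ 0 := by
    have : Z.card ≠ 0 := by omega
    exact_mod_cast this
  have hmem : ∀ z, (if z ∈ Z then (Z.card : ℝ≥0∞)⁻¹ else 0) ≠ 0 → z ∈ Z := fun z hz => by
    by_contra e
    exact hz (if_neg e)
  refine ⟨fun z => if z ∈ Z then (Z.card : ℝ≥0∞)⁻¹ else 0, R, fun z hz => (h2 z (hmem z hz)).1,
    ?_, fun z => ?_, fun z hz => ⟨(h2 z (hmem z hz)).1.2, (h2 z (hmem z hz)).2⟩⟩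
  · rw [tsum_eq_sum (s := Z) fun z hz => if_neg hz, Finset.sum_congr rfl fun z hz => if_pos hz,
      Finset.sum_const, nsmul_eq_mul, ENNReal.mul_inv_cancel hZ (ENNReal.natCast_ne_top _)]
  · dsimp only
    split_ifs
    · have h3 : B⁻¹ ≤ (Z.card : ℝ) := hN.le.trans (by exact_mod_cast h1)
      have h4 : ((Z.card : ℝ))⁻¹ ≤ B := inv_le_of_inv_le₀ hB h3
      refine le_trans (le_of_eq ?_) (ENNReal.ofReal_le_ofReal h4)
      rw [ENNReal.ofReal_inv_of_pos ((inv_pos.2 hB).trans_le h3), ENNReal.ofReal_natCast]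
    · exact zero_le

/-- Disjoint events. -/
lemma count (hT : S_Turn) (M : Mod) (S D : ℝ) (hD : 0 ≤ D) (J : ℕ) (ε : ℝ≥0∞)
    (h : ∀ j < J, ε ≤ M.P (M.Turn (S + j * D) (S + j * D + D))) : J * ε ≤ 1 := by
  obtain ⟨h1, h2⟩ := hT M
  have h3 : ∀ i j : ℕ, i < j → Disjoint (M.Turn (S + i * D) (S + i * D + D))
      (M.Turn (S + j * D) (S + j * D + D)) := fun i j hij => by
    refine h2 _ _ _ _ ?_
    have : (i : ℝ) + 1 ≤ j := by exact_mod_cast hij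
    nlinarith
  calc (J : ℝ≥0∞) * ε = ∑ _j ∈ Finset.range J, ε := by simp
    _ ≤ ∑ j ∈ Finset.range J, M.P (M.Turn (S + j * D) (S + j * D + D)) :=
        Finset.sum_le_sum fun j hj => h j (Finset.mem_range.1 hj)
    _ = M.P (⋃ j ∈ Finset.range J, M.Turn (S + j * D) (S + j * D + D)) := by
        rw [measure_biUnion_finset _ fun j _ => h1 _ _]
        intro i _ j _ hij
        rcases lt_or_gt_of_ne hij with e | e
        · exact h3 i j e
        · exact (h3 j i e).symm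
    _ ≤ 1 := prob_le_one

lemma final {ε : ℝ≥0∞} (hε : ε ≠ 0) (R : ℕ)
    (h : ∀ I : ℕ, 1 ≤ I → 2 ^ I * ε ≤ (I + 2 + R : ℕ)) : False := by
  have hεt : ε ≠ ⊤ := by
    intro e
    have := h 1 le_rfl
    rw [e, ENNReal.mul_top (by simp)] at this
    exact ENNReal.natCast_ne_top _ (top_le_iff.1 this)
  have hp : 0 < ε.toReal := ENNReal.toReal_pos hε hεt
  obtain ⟨n, hn⟩ := exists_nat_gt ((2 + R : ℝ) / ε.toReal)
  have h1 := ENNReal.toReal_mono (ENNReal.natCast_ne_top _) (h (2 * (n + 1)) (by omega))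
  rw [ENNReal.toReal_mul, ENNReal.toReal_pow, ENNReal.toReal_natCast, ENNReal.toReal_ofNat,
    pow_mul'] at h1
  have h2 : ((n : ℝ) + 2) ≤ 2 ^ (n + 1) := by
    have : n + 1 < 2 ^ (n + 1) := Nat.lt_two_pow_self
    exact_mod_cast this
  have h3 : ((n : ℝ) + 2) ^ 2 ≤ (2 ^ (n + 1)) ^ 2 := by gcongr
  rw [div_lt_iff₀ hp] at hn
  push_cast at h1
  have h4 : (0 : ℝ) ≤ n := Nat.cast_nonneg _
  have h5 : (0 : ℝ) ≤ R := Nat.cast_nonneg _
  have h6 : ((n : ℝ) + 2) ^ 2 * ε.toReal ≤ 2 * (n + 1) + 2 + R :=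
    (mul_le_mul_of_nonneg_right h3 hp.le).trans h1
  have h7 : (n + 2) * (2 + R : ℝ) < (n + 2) * ((n + 2) * ε.toReal) :=
    mul_lt_mul_of_pos_left (by nlinarith) (by linarith)
  nlinarith

end CoreAux

open CoreAux

theorem s_core (hC : S_Comp) (hF : S_Fin) (hT : S_Turn) : S_Core := by
  rintro M ⟨ρ, c₀, G, hρ, hc₀, hG, hW⟩ hI
  obtain ⟨c, hc, hc1, hcc⟩ : ∃ c : ℝ≥0∞, c ≠ 0 ∧ c ≤ 1 ∧ c ≤ c₀ :=
    ⟨min c₀ 1, by simp [hc₀], min_le_right _ _, min_le_left _ _⟩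
  have hct : c ≠ ⊤ := ne_top_of_le_ne_top ENNReal.one_ne_top hc1
  have hcp : 0 < c.toReal := ENNReal.toReal_pos hc hct
  obtain ⟨K, hK⟩ : ∃ K : ℕ, 2 ≤ K * c := by
    obtain ⟨K, hK⟩ := ENNReal.exists_nat_gt (r := 2 * c⁻¹)
      (ENNReal.mul_ne_top (by simp) (ENNReal.inv_ne_top.2 hc))
    refine ⟨K, ?_⟩
    calc (2 : ℝ≥0∞) = 2 * c⁻¹ * c := by rw [mul_assoc, ENNReal.inv_mul_cancel hc hct, mul_one]
      _ ≤ K * c := by gcongr
  have hK1 : 1 ≤ K := by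
    rcases Nat.eq_zero_or_pos K with rfl | h0
    · simp at hK
    · exact h0
  obtain ⟨w₀, hw₀⟩ := hW ((2 * K : ℝ) ^ ρ / c.toReal)
  obtain ⟨w₁, hw₁, hw₂⟩ : ∃ w₁, 1 ≤ w₁ ∧ w₀ ≤ w₁ := ⟨w₀ + 1, by omega, by omega⟩
  have hit := iter hC hρ hc hc1 hG (K := K) hw₁ fun w hw s h1 h2 h3 => by
    obtain ⟨s', a1, a2, a3, a4, a5⟩ := hw₀ w (hw₂.trans hw) s h1 h2 h3
    exact ⟨s', a1, a2, hcc.trans a3, a4, a5⟩
  have hB : 0 < (2 * K : ℝ) ^ ρ / c.toReal * (w₁ : ℝ) ^ (-ρ) := by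
    have : (0 : ℝ) < K := by exact_mod_cast hK1
    have : (0 : ℝ) < w₁ := by exact_mod_cast hw₁
    positivity
  obtain ⟨s, R, s1, s2, s3, s4⟩ := start M hI hB
  have main : ∀ I x : ℕ, 1 ≤ I → x ≤ K ^ I * w₁ → M.κ ^ R * c ^ (I + 1) ≤
      M.P (M.Turn (((∑ i ∈ Finset.range (I + 1), K ^ i * w₁ : ℕ) : ℝ) + x)
        (((∑ i ∈ Finset.range (I + 1), K ^ i * w₁ : ℕ) : ℝ) + x + (I + 2 + R : ℕ))) := by
    intro I x hI1 hx
    obtain ⟨f, hf⟩ : ∃ f : ℕ → ℕ, f = fun i => K ^ i * w₁ + if i = I then x else 0 := ⟨_, rfl⟩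
    have f0 : f 0 = w₁ := by rw [hf]; simp; omega
    have f1 : ∀ i, K ^ i * w₁ ≤ f i := fun i => by rw [hf]; exact Nat.le_add_right _ _
    have f2 : ∀ i, f i ≤ 2 * (K ^ i * w₁) := fun i => by
      rw [hf]
      dsimp only
      split_ifs with e
      · rw [e]; omega
      · omega
    have f3 : ∑ i ∈ Finset.range (I + 1), f i = ∑ i ∈ Finset.range (I + 1), K ^ i * w₁ + x := by
      rw [hf, Finset.sum_add_distrib, Finset.sum_ite_eq']
      simp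
    have h1 := hit (I + 1) f
      (fun i => le_trans (Nat.le_mul_of_pos_left _ (Nat.pow_pos hK1)) (f1 i))
      (fun i => (f2 _).trans (by
        have := Nat.mul_le_mul_left (2 * K) (f1 i)
        calc 2 * (K ^ (i + 1) * w₁) = 2 * K * (K ^ i * w₁) := by ring
          _ ≤ _ := this)) s s1 s2 (by rw [f0]; exact s3)
    obtain ⟨b1, b2⟩ := fam_spec hG (I + 1) f
    rw [f3] at b2
    set k : ℝ := ((∑ i ∈ Finset.range (I + 1), K ^ i * w₁ : ℕ) : ℝ) + x with hk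
    have hk' : ((∑ i ∈ Finset.range (I + 1), K ^ i * w₁ + x : ℕ) : ℝ) = k := by
      rw [hk, Nat.cast_add]
    rw [hk'] at b2
    calc M.κ ^ R * c ^ (I + 1) ≤ M.κ ^ R * ∑' z, s z * M.Tot (Fam M G (I + 1) f) z := by gcongr
      _ = ∑' z, s z * (M.κ ^ R * M.Tot (Fam M G (I + 1) f) z) := by
          rw [← ENNReal.tsum_mul_left]
          exact tsum_congr fun z => mul_left_comm _ _ _
      _ ≤ ∑' z, s z * M.P (M.Turn k (k + (I + 2 + R : ℕ))) := by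
          refine ENNReal.tsum_le_tsum fun z => ?_
          by_cases hz : s z = 0
          · simp [hz]
          obtain ⟨z1, lam, rfl, z2, z3⟩ := s4 z hz
          have h2 := hF M _ k (k + (I + 2)) lam b1 (fun γ hγ => ⟨(b2 γ hγ).1, (b2 γ hγ).2.1,
            (b2 γ hγ).2.2.trans_lt (by push_cast; linarith)⟩) z1 z3
          refine mul_le_mul_right (le_trans ?_ (h2.trans (measure_mono (turn_mono M k ?_)))) _
          · exact mul_le_mul_left (pow_le_pow_right_of_le_one' M.κ_le_one z2) _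
          · have : (lam.length : ℝ) ≤ R := by exact_mod_cast z2
            push_cast
            linarith
      _ = _ := by rw [ENNReal.tsum_mul_right, s2, one_mul]
  refine final (ε := M.κ ^ R * c) (mul_ne_zero (pow_ne_zero _ M.hκ) hc) R fun I hI1 => ?_
  have hD : 0 < I + 2 + R := by omega
  have h1 := count hT M ((∑ i ∈ Finset.range (I + 1), K ^ i * w₁ : ℕ) : ℝ) ((I + 2 + R : ℕ) : ℝ)
    (Nat.cast_nonneg _) (K ^ I * w₁ / (I + 2 + R) + 1) (M.κ ^ R * c ^ (I + 1)) fun j hj => by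
      have := main I (j * (I + 2 + R)) hI1
        ((Nat.le_div_iff_mul_le hD).1 (Nat.lt_succ_iff.1 hj))
      rwa [Nat.cast_mul j] at this
  have h2 : K ^ I ≤ (I + 2 + R) * (K ^ I * w₁ / (I + 2 + R) + 1) :=
    (Nat.le_mul_of_pos_right _ hw₁).trans (Nat.lt_mul_div_succ _ hD).le
  have h3 : ((K : ℝ≥0∞)) ^ I ≤ ((I + 2 + R : ℕ) : ℝ≥0∞) *
      ((K ^ I * w₁ / (I + 2 + R) + 1 : ℕ) : ℝ≥0∞) := by exact_mod_cast h2
  calc 2 ^ I * (M.κ ^ R * c) ≤ (K * c) ^ I * (M.κ ^ R * c) := by gcongr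
    _ = (K : ℝ≥0∞) ^ I * (M.κ ^ R * c ^ (I + 1)) := by ring
    _ ≤ ((I + 2 + R : ℕ) : ℝ≥0∞) * ((K ^ I * w₁ / (I + 2 + R) + 1 : ℕ) : ℝ≥0∞) *
        (M.κ ^ R * c ^ (I + 1)) := by gcongr
    _ ≤ ((I + 2 + R : ℕ) : ℝ≥0∞) * 1 := by rw [mul_assoc]; gcongr
    _ = _ := mul_one _

end Pool.Agent.MP_db8016_pr.BZ

end

section

/-! The iteration of windows with a general rate. -/

namespace Pool.Agent.MP_db8016_pr.BZ
open MeasureTheory ProbabilityTheory Filter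
open scoped ENNReal Classical

namespace Core3Aux3
open _root_.Pool.Agent.MP_db8016_pr.BZ.Mod CoreAux

/-- The bound after normalisation. -/
lemma nb {c m x : ℝ≥0∞} (hc : c ≠ 0) (hc1 : c ≤ 1) (hm : c ≤ m) {a b A : ℝ} (h : a ≤ A * b)
    (hx : x ≤ ENNReal.ofReal a) : m⁻¹ * x ≤ ENNReal.ofReal (A / c.toReal * b) := by
  have hct : c ≠ ⊤ := ne_top_of_le_ne_top ENNReal.one_ne_top hc1
  have hcp : 0 < c.toReal := ENNReal.toReal_pos hc hct
  calc m⁻¹ * x ≤ c⁻¹ * ENNReal.ofReal (A * b) := by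
        gcongr
        exact hx.trans (ENNReal.ofReal_le_ofReal h)
    _ = _ := by
        rw [div_mul_eq_mul_div, div_eq_inv_mul, ENNReal.ofReal_mul (inv_nonneg.2 hcp.le),
          ENNReal.ofReal_inv_of_pos hcp, ENNReal.ofReal_toReal hct]

/-- The iteration. -/
lemma iter3 (hC : S_Comp) {M : Mod} {r : ℕ → ℝ} {A : ℝ} {c : ℝ≥0∞} {G : ℕ → Set (List M.D)}
    (hc : c ≠ 0) (hc1 : c ≤ 1) (hG : ∀ (w : ℕ) γ, γ ∈ G w → M.Cross w γ) {K w₁ : ℕ}
    (hw₁ : 1 ≤ w₁) (hr : ∀ w w', 1 ≤ w → 1 ≤ w' → w' ≤ 2 * K * w → r w ≤ A * r w')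
    (hW : ∀ w, w₁ ≤ w → ∀ s : M.Pt → ℝ≥0∞, M.Slab s → ∑' z, s z = 1 →
      (∀ z, s z ≤ ENNReal.ofReal (A / c.toReal * r w)) →
      ∃ s' : M.Pt → ℝ≥0∞, (∀ z', s' z' ≤ ∑' z, s z * M.Qk (G w) z z') ∧ M.Slab s' ∧
        c ≤ ∑' z, s' z ∧ ∑' z, s' z ≤ 1 ∧ ∀ z, s' z ≤ ENNReal.ofReal (r w))
    (n : ℕ) : ∀ f : ℕ → ℕ, (∀ i, w₁ ≤ f i) → (∀ i, f (i + 1) ≤ 2 * K * f i) →
      ∀ s : M.Pt → ℝ≥0∞, M.Slab s → ∑' z, s z = 1 →
      (∀ z, s z ≤ ENNReal.ofReal (A / c.toReal * r (f 0))) →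
      c ^ n ≤ ∑' z, s z * M.Tot (Fam M G n f) z := by
  induction n with
  | zero =>
    intro f _ _ s h1 h2 _
    rw [pow_zero, ← h2]
    refine ENNReal.tsum_le_tsum fun z => ?_
    by_cases hz : s z = 0
    · simp [hz]
    · exact le_mul_of_one_le_right' (one_le_tot M (h1 z hz).2)
  | succ n ih =>
    intro f f1 f2 s h1 h2 h3
    obtain ⟨s', a1, a2, a3, a4, a5⟩ := hW (f 0) (f1 0) s h1 h2 h3
    obtain ⟨b1, b2⟩ := fam_spec hG n fun i => f (i + 1)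
    refine le_trans ?_ (step hC b1 (fun γ h => (b2 γ h).1) (fun γ h => (hG _ γ h).up) a1)
    set m := ∑' z, s' z with hm
    have hm0 : m ≠ 0 := fun e => hc (le_zero_iff.1 (e ▸ a3))
    have hmt : m ≠ ⊤ := ne_top_of_le_ne_top ENNReal.one_ne_top a4
    have key := ih (fun i => f (i + 1)) (fun i => f1 _) (fun i => f2 _) (fun z => m⁻¹ * s' z)
      (fun z hz => a2 z fun e => hz (by simp [e]))
      (by rw [ENNReal.tsum_mul_left, ← hm, ENNReal.inv_mul_cancel hm0 hmt])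
      (fun z => nb hc hc1 a3 (hr _ _ (hw₁.trans (f1 0)) (hw₁.trans (f1 1)) (f2 0)) (a5 z))
    simp only [mul_assoc, ENNReal.tsum_mul_left] at key
    calc c ^ (n + 1) = c * c ^ n := pow_succ' _ _
      _ ≤ m * (m⁻¹ * ∑' z, s' z * M.Tot (Fam M G n fun i => f (i + 1)) z) := by gcongr
      _ = _ := by rw [← mul_assoc, ENNReal.mul_inv_cancel hm0 hmt, one_mul]

end Core3Aux3

open CoreAux Core3Aux3

theorem t_core3 (hC : S_Comp) (hF : S_Fin) (hT : S_Turn) : T_Core3 := by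
  rintro M ⟨r, c₀, G, hr0, hr, hc₀, hG, hW⟩ hI
  obtain ⟨c, hc, hc1, hcc⟩ : ∃ c : ℝ≥0∞, c ≠ 0 ∧ c ≤ 1 ∧ c ≤ c₀ :=
    ⟨min c₀ 1, by simp [hc₀], min_le_right _ _, min_le_left _ _⟩
  have hct : c ≠ ⊤ := ne_top_of_le_ne_top ENNReal.one_ne_top hc1
  have hcp : 0 < c.toReal := ENNReal.toReal_pos hc hct
  obtain ⟨K, hK⟩ : ∃ K : ℕ, 2 ≤ K * c := by
    obtain ⟨K, hK⟩ := ENNReal.exists_nat_gt (r := 2 * c⁻¹)
      (ENNReal.mul_ne_top (by simp) (ENNReal.inv_ne_top.2 hc))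
    refine ⟨K, ?_⟩
    calc (2 : ℝ≥0∞) = 2 * c⁻¹ * c := by rw [mul_assoc, ENNReal.inv_mul_cancel hc hct, mul_one]
      _ ≤ K * c := by gcongr
  have hK1 : 1 ≤ K := by
    rcases Nat.eq_zero_or_pos K with rfl | h0
    · simp at hK
    · exact h0
  obtain ⟨A, hA⟩ := hr (2 * K)
  have hA0 : 0 < A := (mul_pos_iff_of_pos_right (hr0 1)).1
    ((hr0 1).trans_le (hA 1 1 le_rfl le_rfl (by omega)))
  obtain ⟨w₀, hw₀⟩ := hW (A / c.toReal)
  obtain ⟨w₁, hw₁, hw₂⟩ : ∃ w₁, 1 ≤ w₁ ∧ w₀ ≤ w₁ := ⟨w₀ + 1, by omega, by omega⟩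
  have hit := iter3 hC hc hc1 hG (K := K) hw₁ hA fun w hw s h1 h2 h3 => by
    obtain ⟨s', a1, a2, a3, a4, a5⟩ := hw₀ w (hw₂.trans hw) s h1 h2 h3
    exact ⟨s', a1, a2, hcc.trans a3, a4, a5⟩
  have hB : 0 < A / c.toReal * r w₁ := mul_pos (div_pos hA0 hcp) (hr0 _)
  obtain ⟨s, R, s1, s2, s3, s4⟩ := start M hI hB
  have main : ∀ I x : ℕ, 1 ≤ I → x ≤ K ^ I * w₁ → M.κ ^ R * c ^ (I + 1) ≤
      M.P (M.Turn (((∑ i ∈ Finset.range (I + 1), K ^ i * w₁ : ℕ) : ℝ) + x)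
        (((∑ i ∈ Finset.range (I + 1), K ^ i * w₁ : ℕ) : ℝ) + x + (I + 2 + R : ℕ))) := by
    intro I x hI1 hx
    obtain ⟨f, hf⟩ : ∃ f : ℕ → ℕ, f = fun i => K ^ i * w₁ + if i = I then x else 0 := ⟨_, rfl⟩
    have f0 : f 0 = w₁ := by rw [hf]; simp; omega
    have f1 : ∀ i, K ^ i * w₁ ≤ f i := fun i => by rw [hf]; exact Nat.le_add_right _ _
    have f2 : ∀ i, f i ≤ 2 * (K ^ i * w₁) := fun i => by
      rw [hf]
      dsimp only
      split_ifs with e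
      · rw [e]; omega
      · omega
    have f3 : ∑ i ∈ Finset.range (I + 1), f i = ∑ i ∈ Finset.range (I + 1), K ^ i * w₁ + x := by
      rw [hf, Finset.sum_add_distrib, Finset.sum_ite_eq']
      simp
    have h1 := hit (I + 1) f
      (fun i => le_trans (Nat.le_mul_of_pos_left _ (Nat.pow_pos hK1)) (f1 i))
      (fun i => (f2 _).trans (by
        have := Nat.mul_le_mul_left (2 * K) (f1 i)
        calc 2 * (K ^ (i + 1) * w₁) = 2 * K * (K ^ i * w₁) := by ring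
          _ ≤ _ := this)) s s1 s2 (by rw [f0]; exact s3)
    obtain ⟨b1, b2⟩ := fam_spec hG (I + 1) f
    rw [f3] at b2
    set k : ℝ := ((∑ i ∈ Finset.range (I + 1), K ^ i * w₁ : ℕ) : ℝ) + x with hk
    have hk' : ((∑ i ∈ Finset.range (I + 1), K ^ i * w₁ + x : ℕ) : ℝ) = k := by
      rw [hk, Nat.cast_add]
    rw [hk'] at b2
    calc M.κ ^ R * c ^ (I + 1) ≤ M.κ ^ R * ∑' z, s z * M.Tot (Fam M G (I + 1) f) z := by gcongr
      _ = ∑' z, s z * (M.κ ^ R * M.Tot (Fam M G (I + 1) f) z) := by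
          rw [← ENNReal.tsum_mul_left]
          exact tsum_congr fun z => mul_left_comm _ _ _
      _ ≤ ∑' z, s z * M.P (M.Turn k (k + (I + 2 + R : ℕ))) := by
          refine ENNReal.tsum_le_tsum fun z => ?_
          by_cases hz : s z = 0
          · simp [hz]
          obtain ⟨z1, lam, rfl, z2, z3⟩ := s4 z hz
          have h2 := hF M _ k (k + (I + 2)) lam b1 (fun γ hγ => ⟨(b2 γ hγ).1, (b2 γ hγ).2.1,
            (b2 γ hγ).2.2.trans_lt (by push_cast; linarith)⟩) z1 z3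
          refine mul_le_mul_right (le_trans ?_ (h2.trans (measure_mono (turn_mono M k ?_)))) _
          · exact mul_le_mul_left (pow_le_pow_right_of_le_one' M.κ_le_one z2) _
          · have : (lam.length : ℝ) ≤ R := by exact_mod_cast z2
            push_cast
            linarith
      _ = _ := by rw [ENNReal.tsum_mul_right, s2, one_mul]
  refine final (ε := M.κ ^ R * c) (mul_ne_zero (pow_ne_zero _ M.hκ) hc) R fun I hI1 => ?_
  have hD : 0 < I + 2 + R := by omega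
  have h1 := count hT M ((∑ i ∈ Finset.range (I + 1), K ^ i * w₁ : ℕ) : ℝ) ((I + 2 + R : ℕ) : ℝ)
    (Nat.cast_nonneg _) (K ^ I * w₁ / (I + 2 + R) + 1) (M.κ ^ R * c ^ (I + 1)) fun j hj => by
      have := main I (j * (I + 2 + R)) hI1
        ((Nat.le_div_iff_mul_le hD).1 (Nat.lt_succ_iff.1 hj))
      rwa [Nat.cast_mul j] at this
  have h2 : K ^ I ≤ (I + 2 + R) * (K ^ I * w₁ / (I + 2 + R) + 1) :=
    (Nat.le_mul_of_pos_right _ hw₁).trans (Nat.lt_mul_div_succ _ hD).le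
  have h3 : ((K : ℝ≥0∞)) ^ I ≤ ((I + 2 + R : ℕ) : ℝ≥0∞) *
      ((K ^ I * w₁ / (I + 2 + R) + 1 : ℕ) : ℝ≥0∞) := by exact_mod_cast h2
  calc 2 ^ I * (M.κ ^ R * c) ≤ (K * c) ^ I * (M.κ ^ R * c) := by gcongr
    _ = (K : ℝ≥0∞) ^ I * (M.κ ^ R * c ^ (I + 1)) := by ring
    _ ≤ ((I + 2 + R : ℕ) : ℝ≥0∞) * ((K ^ I * w₁ / (I + 2 + R) + 1 : ℕ) : ℝ≥0∞) *
        (M.κ ^ R * c ^ (I + 1)) := by gcongr
    _ ≤ ((I + 2 + R : ℕ) : ℝ≥0∞) * 1 := by rw [mul_assoc]; gcongr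
    _ = _ := mul_one _

end Pool.Agent.MP_db8016_pr.BZ

end

section

/-! The choice of the rate. -/

namespace Pool.Agent.MP_db8016_pr.BZ
open MeasureTheory ProbabilityTheory Filter Topology
open scoped ENNReal Classical

namespace RateAux3

lemma mt_zero (M : Mod) (h : M.m1 ≠ ⊤) : Tendsto M.mt atTop (𝓝 0) := by
  refine ENNReal.tendsto_nhds_zero.2 fun ε hε => ?_
  obtain ⟨s, hs⟩ := (ENNReal.tendsto_nhds_zero.1
    (ENNReal.tendsto_tsum_compl_atTop_zero h) ε hε).exists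
  filter_upwards [(eventually_all_finset s).2 fun π _ => eventually_ge_atTop π.length] with r hr
  refine le_trans ?_ hs
  refine le_trans (ENNReal.tsum_le_tsum fun π => ?_) (tsum_subtype {x | x ∉ s}
    fun π => if M.Irr π then M.w π * π.length else 0).ge
  split_ifs with c
  · rw [Set.indicator_of_mem (show π ∈ {x | x ∉ s} from fun d => (hr π d).not_gt c.2), if_pos c.1]
  · exact zero_le

lemma GG_top (M : Mod) (h : ∑' x, M.gg x ^ 2 = ⊤) :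
    Tendsto (fun v : ℕ => M.GG v) atTop (𝓝 ⊤) := by
  refine ENNReal.tendsto_nhds_top fun n => ?_
  have h1 : (n : ℝ≥0∞) < ∑' x, M.gg x ^ 2 := h ▸ ENNReal.natCast_lt_top n
  rw [ENNReal.tsum_eq_iSup_sum, lt_iSup_iff] at h1
  obtain ⟨s, hs⟩ := h1
  filter_upwards [(eventually_all_finset s).2 fun x _ =>
    (tendsto_natCast_atTop_atTop (R := ℝ)).eventually_ge_atTop (M.L x)] with v hv
  refine hs.trans_le (le_trans (Finset.sum_congr rfl fun x hx => ?_).le (ENNReal.sum_le_tsum s))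
  rw [if_pos (hv x hx)]

lemma Th_le (h1 : T_LG1) (M : Mod) {w : ℝ} (hw : 0 ≤ w) (r : ℕ) : M.Th w ≤ M.κ⁻¹ ^ 2 *
    (M.MW (w + 2) (M.Sml r) + M.MW (w + 2) fun y α α' => ¬ M.Sml r y α α') := by
  refine iSup₂_le fun t ht => (h1 M t _ (by linarith)).trans (mul_le_mul_right ?_ _)
  simp only [Mod.MW, ← ENNReal.tsum_add]
  refine ENNReal.tsum_le_tsum fun y => ENNReal.tsum_le_tsum fun α =>
    ENNReal.tsum_le_tsum fun α' => ?_
  by_cases c : y ∈ M.Near ∧ M.Mn y α α' ∧ M.lv α < t + 1 ∧ True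
  · have c' : M.lv α < w + 2 + 1 := by linarith [c.2.2.1]
    rw [if_pos c]
    by_cases d : M.Sml r y α α'
    · rw [if_pos ⟨c.1, c.2.1, c', d⟩]
      exact le_self_add
    · rw [if_pos (show _ ∧ _ ∧ _ ∧ ¬ _ from ⟨c.1, c.2.1, c', d⟩)]
      exact le_add_self
  · rw [if_neg c]
    exact zero_le

lemma scale {w a c : ℝ} (hw : 0 < w) (h : a ≤ c * w) :
    ENNReal.ofReal w⁻¹ * ENNReal.ofReal a ≤ ENNReal.ofReal c := by
  rw [← ENNReal.ofReal_mul (inv_pos.2 hw).le]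
  exact ENNReal.ofReal_le_ofReal ((inv_mul_le_iff₀ hw).2 (by linarith))

lemma fin (M : Mod) (η : ℝ≥0∞) (E f : ℕ → ℝ) (B : ℝ) (h0 : ∀ w, 0 < E w) (hB : ∀ w, E w ≤ B)
    (hd : ∀ K w w' : ℕ, 1 ≤ K → w' ≤ K * w → E w ≤ K * E w') (hf : ∀ w, 2 * |f w| ≤ E w)
    (hA : M.AC3 η fun w => f w / w)
    (hT : Tendsto (fun w : ℕ => ENNReal.ofReal (E w / (w + 1)) * M.Th w) atTop (𝓝 0)) :
    ∃ r : ℕ → ℝ, (∀ w, 0 < r w) ∧
    (∀ K : ℕ, ∃ A : ℝ, ∀ w w', 1 ≤ w → 1 ≤ w' → w' ≤ K * w → r w ≤ A * r w') ∧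
    Tendsto r atTop (𝓝 0) ∧ Tendsto (fun w : ℕ => ENNReal.ofReal (r w) * M.Th w) atTop (𝓝 0) ∧
    M.AC3 η r := by
  have p : ∀ w : ℕ, (0 : ℝ) < w + 1 := fun w => by positivity
  refine ⟨fun w => E w / (w + 1), fun w => div_pos (h0 w) (p w),
    fun K => ⟨K * K, fun w w' _ h1 h2 => ?_⟩, ?_, hT, ?_⟩
  · have k : 1 ≤ K := Nat.pos_of_ne_zero fun e => by
      rw [e] at h2
      omega
    have k1 : (1 : ℝ) ≤ K := by exact_mod_cast k
    have k2 : (w' : ℝ) ≤ K * w := by exact_mod_cast h2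
    rw [← mul_div_assoc, div_le_div_iff₀ (p w) (p w')]
    calc E w * (w' + 1) ≤ (K * E w') * (K * (w + 1)) :=
          mul_le_mul (hd K w w' k h2) (by linarith) (p _).le (mul_nonneg (by linarith) (h0 _).le)
      _ = _ := by ring
  · refine squeeze_zero (fun w => (div_pos (h0 w) (p w)).le)
      (fun w => div_le_div_of_nonneg_right (hB w) (p w).le) ?_
    exact tendsto_const_nhds.div_atTop
      (tendsto_atTop_add_const_right _ _ tendsto_natCast_atTop_atTop)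
  · obtain ⟨w₀, h⟩ := hA
    refine ⟨max w₀ 1, fun w hw S t a b c => h w (le_of_max_le_left hw) S t a b
      (le_trans (mul_le_mul_of_nonneg_left ?_ (Nat.cast_nonneg _)) c)⟩
    have k : (1 : ℝ) ≤ w := by exact_mod_cast le_of_max_le_right hw
    rw [div_le_div_iff₀ (by linarith) (p w)]
    nlinarith [hf w, le_abs_self (f w), abs_nonneg (f w)]

lemma env {g : ℕ → ℝ} (h0 : ∀ v, 0 < g v) (hg : Tendsto g atTop (𝓝 0)) :
    ∃ (E : ℕ → ℝ) (B : ℝ), (∀ w, E w ≤ B) ∧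
      (∀ K w w' : ℕ, 1 ≤ K → w' ≤ K * w → E w ≤ K * E w') ∧ (∀ w, g w / 2 ≤ E w) ∧
      Tendsto E atTop (𝓝 0) := by
  obtain ⟨B, hB⟩ := hg.bddAbove_range
  have hB' : ∀ v, g v ≤ B := fun v => hB ⟨v, rfl⟩
  have p : ∀ v w : ℕ, (0 : ℝ) < v + w + 2 := fun v w => by positivity
  have t1 : ∀ v w : ℕ, g v * ((v + 1) / (v + w + 2)) ≤ g v := fun v w =>
    mul_le_of_le_one_right (h0 v).le ((div_le_one (p v w)).2 (by linarith [w.cast_nonneg (α := ℝ)]))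
  have le : ∀ v w : ℕ, g v * ((v + 1) / (v + w + 2)) ≤ ⨆ v : ℕ, g v * ((v + 1) / (v + w + 2)) :=
    fun v w => le_ciSup (f := fun v : ℕ => g v * ((v + 1) / (v + w + 2)))
      ⟨B, by rintro _ ⟨v, rfl⟩; exact (t1 v w).trans (hB' v)⟩ v
  have hw : ∀ w, g w / 2 ≤ ⨆ v : ℕ, g v * ((v + 1) / (v + w + 2)) := fun w =>
    le_trans (le_of_eq (by field_simp; ring)) (le w w)
  refine ⟨fun w => ⨆ v : ℕ, g v * ((v + 1) / (v + w + 2)), B,
    fun w => ciSup_le fun v => (t1 v w).trans (hB' v), fun K w w' h1 h2 => ciSup_le fun v => ?_,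
    hw, ?_⟩
  · have k1 : (1 : ℝ) ≤ K := by exact_mod_cast h1
    have k2 : (w' : ℝ) ≤ K * w := by exact_mod_cast h2
    refine le_trans ?_ (mul_le_mul_of_nonneg_left (le v w') (by linarith))
    rw [mul_left_comm, ← mul_div_assoc (K : ℝ)]
    refine mul_le_mul_of_nonneg_left ?_ (h0 v).le
    rw [div_le_div_iff₀ (p _ _) (p _ _), mul_comm (K : ℝ), mul_assoc]
    refine mul_le_mul_of_nonneg_left ?_ (by positivity)
    nlinarith [v.cast_nonneg (α := ℝ)]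
  · refine tendsto_order.2 ⟨fun a ha => .of_forall fun w =>
      ha.trans ((half_pos (h0 w)).trans_le (hw w)), fun a ha => ?_⟩
    obtain ⟨N, hN⟩ := eventually_atTop.1 (hg.eventually_le_const (half_pos ha))
    have h1 : Tendsto (fun w : ℕ => B * N / (w + 1)) atTop (𝓝 0) := tendsto_const_nhds.div_atTop
      (tendsto_atTop_add_const_right _ _ tendsto_natCast_atTop_atTop)
    filter_upwards [h1.eventually_le_const (half_pos ha)] with w h2
    refine lt_of_le_of_lt (ciSup_le fun v => ?_) (half_lt_self ha)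
    rcases lt_or_ge v N with c | c
    · have c1 : (v : ℝ) + 1 ≤ N := by exact_mod_cast c
      refine le_trans ?_ h2
      rw [mul_div_assoc]
      refine mul_le_mul (hB' v) ?_ (by positivity) ((h0 v).le.trans (hB' v))
      exact div_le_div₀ (by positivity) c1 (by positivity) (by linarith [v.cast_nonneg (α := ℝ)])
    · exact (t1 v w).trans (hN v c)

end RateAux3

open RateAux3

theorem t_lg (h1 : T_LG1) (h2 : T_LG2) (h3 : T_LG3) : T_LG := by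
  intro M hm hg
  have hK : M.κ⁻¹ ^ 2 ≠ ⊤ := ENNReal.pow_ne_top (ENNReal.inv_ne_top.2 M.hκ)
  refine ENNReal.tendsto_nhds_zero.2 fun ε hε => ?_
  have hε' : 0 < ε / 2 := ENNReal.half_pos hε.ne'
  have lim : ∀ {c : ℝ≥0∞} {u : ℕ → ℝ≥0∞}, c ≠ ⊤ → Tendsto u atTop (𝓝 0) →
      ∃ n, c * u n ≤ ε / 2 ∧ u n ≤ 1 := fun {c u} hc hu => by
    have := ENNReal.Tendsto.const_mul hu (Or.inr hc)
    rw [mul_zero] at this
    exact ((ENNReal.tendsto_nhds_zero.1 this _ hε').and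
      (ENNReal.tendsto_nhds_zero.1 hu _ one_pos)).exists
  obtain ⟨r, hr, -⟩ := lim (c := M.κ⁻¹ ^ 2 * (ENNReal.ofReal 32 * M.κ⁻¹ ^ 2 * M.m1))
    (by finiteness) (mt_zero M hm)
  have l1 : Tendsto (fun v : ℕ => (M.κ ^ (8 * r + 2) * M.GG v)⁻¹) atTop (𝓝 0) := by
    have := ENNReal.Tendsto.const_mul (a := M.κ ^ (8 * r + 2)) (GG_top M hg)
      (Or.inl ENNReal.top_ne_zero)
    rw [ENNReal.mul_top (pow_ne_zero _ M.hκ)] at this
    exact ENNReal.inv_top ▸ (continuous_inv.tendsto ⊤).comp this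
  obtain ⟨v, hv, hv1⟩ := lim (c := M.κ⁻¹ ^ 2 * (ENNReal.ofReal 16 * M.κ⁻¹ ^ 2))
    (by finiteness) l1
  filter_upwards [eventually_ge_atTop (v + 4 * r + 5)] with w hw
  have a1 : (v : ℝ) + 4 * r + 5 ≤ w := by exact_mod_cast hw
  have a2 : (0 : ℝ) ≤ v := v.cast_nonneg
  have a3 : (0 : ℝ) ≤ r := r.cast_nonneg
  have b1 := h2 M (w + 2) r (by linarith)
  have b2 := h3 M (w + 2) v r (by linarith) a2
  rw [mul_comm, ← ENNReal.le_div_iff_mul_le (Or.inl fun e => by simp [e] at hv1)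
    (Or.inr (by finiteness)), div_eq_mul_inv] at b2
  have s1 := scale (w := w) (a := 16 * (w + 2 + 2)) (c := 32) (by linarith) (by linarith)
  have s2 := scale (w := w) (a := 8 * (w + 2 + v + 4 * r + 3)) (c := 16) (by linarith)
    (by linarith)
  calc _ ≤ ENNReal.ofReal (w : ℝ)⁻¹ * (M.κ⁻¹ ^ 2 * (_ + _)) :=
        mul_le_mul_right ((Th_le h1 M w.cast_nonneg r).trans
          (mul_le_mul_right (add_le_add b2 b1) _)) _
    _ = M.κ⁻¹ ^ 2 * (ENNReal.ofReal (w : ℝ)⁻¹ * ENNReal.ofReal (8 * (w + 2 + v + 4 * r + 3)) *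
          M.κ⁻¹ ^ 2) * (M.κ ^ (8 * r + 2) * M.GG v)⁻¹ +
        M.κ⁻¹ ^ 2 * (ENNReal.ofReal (w : ℝ)⁻¹ * ENNReal.ofReal (16 * (w + 2 + 2)) *
          M.κ⁻¹ ^ 2 * M.m1) * M.mt r := by ring
    _ ≤ ε / 2 + ε / 2 := add_le_add (le_trans (by gcongr) hv) (le_trans (by gcongr) hr)
    _ = ε := ENNReal.add_halves ε

theorem t_rate (hL : T_LG) (hR : T_ACR) (hT : T_ACT) (hB : T_Bas1) : T_Rate := by
  intro M hP hI hm η hη
  have p : ∀ w : ℕ, (0 : ℝ) < w + 1 := fun w => by positivity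
  by_cases hg : ∑' x, M.gg x ^ 2 = ⊤
  · obtain ⟨C, hC, hA⟩ := hR M hP hI hm η hη
    refine fin M η (fun _ => 2 * C) (fun _ => C) _ (fun _ => by positivity) (fun _ => le_rfl)
      (fun K _ _ h _ => le_mul_of_one_le_left (by positivity) (by exact_mod_cast h))
      (fun _ => by rw [abs_of_pos hC]) hA ?_
    have := ENNReal.Tendsto.const_mul (a := ENNReal.ofReal (2 * C)) (hL M hm hg)
      (Or.inr ENNReal.ofReal_ne_top)
    rw [mul_zero] at this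
    refine tendsto_of_tendsto_of_tendsto_of_le_of_le' tendsto_const_nhds this
      (.of_forall fun _ => zero_le) ?_
    filter_upwards [eventually_gt_atTop 0] with w hw
    have : (0 : ℝ) < w := by exact_mod_cast hw
    rw [← mul_assoc, ← ENNReal.ofReal_mul (by positivity), ← div_eq_mul_inv]
    gcongr
    linarith
  · obtain ⟨f, hf, hA⟩ := hT M hI hm hg η hη
    have l : Tendsto (fun v : ℕ => 4 * |f v| + 1 / ((v : ℝ) + 1)) atTop (𝓝 0) := by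
      simpa using (hf.abs.const_mul 4).add (tendsto_one_div_add_atTop_nhds_zero_nat (𝕜 := ℝ))
    obtain ⟨E, B, e1, e2, e3, e4⟩ := env (fun v => by positivity) l
    have q : ∀ w : ℕ, (0 : ℝ) < 1 / ((w : ℝ) + 1) := fun w => by positivity
    have e0 : ∀ w, 0 < E w := fun w => by linarith [e3 w, q w, abs_nonneg (f w)]
    refine fin M η E f B e0 e1 e2 (fun w => by linarith [e3 w, q w]) hA ?_
    have hc : (M.m1 * M.κ⁻¹ ^ 2) ^ 2 ≠ ⊤ := ENNReal.pow_ne_top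
      (ENNReal.mul_ne_top hm (ENNReal.pow_ne_top (ENNReal.inv_ne_top.2 M.hκ)))
    have := ENNReal.Tendsto.mul_const (ENNReal.tendsto_ofReal (e4.mul_const 32)) (Or.inr hc)
    rw [zero_mul, ENNReal.ofReal_zero, zero_mul] at this
    refine tendsto_of_tendsto_of_tendsto_of_le_of_le tendsto_const_nhds this
      (fun _ => zero_le) fun w => (mul_le_mul_right (hB M w w.cast_nonneg) _).trans ?_
    rw [← mul_assoc, ← ENNReal.ofReal_mul (div_pos (e0 w) (p w)).le, div_mul_eq_mul_div,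
      mul_div_assoc]
    have := (e0 w).le
    gcongr
    rw [div_le_iff₀ (p w)]
    linarith [w.cast_nonneg (α := ℝ)]

end Pool.Agent.MP_db8016_pr.BZ

end

section

/-! The window lemma in dimension three. -/

namespace Pool.Agent.MP_db8016_pr.BZ
open MeasureTheory ProbabilityTheory Filter Topology
open scoped ENNReal Classical

namespace WL3Aux

lemma small {a : ℝ≥0∞} (ha : a ≠ 0) (C : ℝ) :
    ∀ᶠ ε : ℝ in 𝓝[>] 0, ENNReal.ofReal (C * ε) ≤ a := by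
  have h1 : Tendsto (fun ε : ℝ => C * ε) (𝓝[>] 0) (𝓝 0) := by
    have : Tendsto (fun ε : ℝ => C * ε) (𝓝 0) (𝓝 (C * 0)) := tendsto_id.const_mul C
    rw [mul_zero] at this
    exact this.mono_left nhdsWithin_le_nhds
  have h := ENNReal.tendsto_ofReal h1
  rw [ENNReal.ofReal_zero] at h
  exact h.eventually (Iic_mem_nhds (pos_iff_ne_zero.2 ha))

lemma scale {lam w e m : ℝ} {Θ : ℝ≥0∞} (hl : 0 < lam) (hw : 4 ≤ w) (he : 0 < e) (hm : 0 ≤ m)
    (h1 : lam ≤ e ^ 8) (h2 : ENNReal.ofReal lam * Θ ≤ ENNReal.ofReal (e ^ 7))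
    (h3 : Θ ≤ ENNReal.ofReal (8 * (w + 4)) * ENNReal.ofReal m) (h4 : 16 * m * e ≤ 1) :
    ∃ ε h : ℝ, 0 < ε ∧ ε ≤ e ∧ 1 ≤ h ∧ h ≤ w ∧ lam * h = ε ^ 8 ∧
      ENNReal.ofReal lam * Θ ≤ ENNReal.ofReal (ε ^ 7) := by
  rcases le_total (lam * w) (e ^ 8) with h | h
  · have h0 : 0 < lam * w := by positivity
    have h5 : ((lam * w) ^ ((8 : ℕ) : ℝ)⁻¹) ^ 8 = lam * w :=
      Real.rpow_inv_natCast_pow h0.le (by norm_num)
    have h6 : 0 < (lam * w) ^ ((8 : ℕ) : ℝ)⁻¹ := Real.rpow_pos_of_pos h0 _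
    generalize (lam * w) ^ ((8 : ℕ) : ℝ)⁻¹ = ε at h5 h6
    have h7 : ε ≤ e := by
      by_contra h8
      have := pow_lt_pow_left₀ (not_le.1 h8) he.le (n := 8) (by norm_num)
      linarith
    refine ⟨ε, w, h6, h7, by linarith, le_rfl, h5.symm, (mul_le_mul_right h3 _).trans ?_⟩
    rw [← ENNReal.ofReal_mul (by positivity), ← ENNReal.ofReal_mul hl.le]
    refine ENNReal.ofReal_le_ofReal ?_
    calc lam * (8 * (w + 4) * m) ≤ lam * (16 * w * m) :=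
          mul_le_mul_of_nonneg_left (mul_le_mul_of_nonneg_right (by linarith) hm) hl.le
      _ = 16 * m * ε * ε ^ 7 := by rw [show lam * (16 * w * m) = 16 * m * (lam * w) by ring, ← h5]; ring
      _ ≤ 1 * ε ^ 7 := by
          gcongr
          exact le_trans (by gcongr) h4
      _ = _ := one_mul _
  · exact ⟨e, e ^ 8 / lam, he, le_rfl, (one_le_div hl).2 h1, (div_le_iff₀' hl).2 h,
      mul_div_cancel₀ _ hl.ne', h2⟩

end WL3Aux

open WL3Aux in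
theorem t_wl3 (hRt : T_Rate) (hG : T_G3) (hMa : S_Mass) (hR : S_Row) (hTr : S_Trim)
    (hS : T_Set3) (hC : T_Chain) (hY : T_Y) (hE : T_End) (hB : T_Bas1) : T_WL3 := by
  intro M p β hP hBal hβ0 hβ
  have hp1 : p ≤ 1 := (hBal.2.1 0).trans (Mod.sm_le_one (M.pf_cross 0))
  have hβ1 : β ≤ 1 := (hβ 0).trans (Mod.sm_le_one (M.neg.pf_cross 0))
  have hpt : p ≠ ⊤ := ne_top_of_le_ne_top ENNReal.one_ne_top hp1
  have hβt : β ≠ ⊤ := ne_top_of_le_ne_top ENNReal.one_ne_top hβ1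
  have hκt : M.κ ≠ ⊤ := ne_top_of_le_ne_top ENNReal.one_ne_top M.κ_le_one
  have hK : M.κ⁻¹ ≠ ⊤ := ENNReal.inv_ne_top.2 M.hκ
  set c : ℝ≥0∞ := M.κ * p / 2 * β / 8 with hc
  have hc0 : c ≠ 0 := ENNReal.div_ne_zero.2 ⟨mul_ne_zero
    (ENNReal.div_ne_zero.2 ⟨mul_ne_zero M.hκ hBal.1, by simp⟩) hβ0, by simp⟩
  have hct : c ≠ ⊤ := ENNReal.div_ne_top (ENNReal.mul_ne_top
    (ENNReal.div_ne_top (ENNReal.mul_ne_top hκt hpt) (by simp)) hβt) (by simp)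
  set η : ℝ≥0∞ := c * M.κ / 24 with hη
  have hη0 : η ≠ 0 := ENNReal.div_ne_zero.2 ⟨mul_ne_zero hc0 M.hκ, by simp⟩
  have hc4 : c / 4 ≠ 0 := ENNReal.div_ne_zero.2 ⟨hc0, by simp⟩
  obtain ⟨r, hr0, hrd, hr1, hr2, w₁, hAC⟩ := hRt M hP hBal.2.2.1 hBal.2.2.2 η hη0
  obtain ⟨CG, hCG, hG'⟩ := hG M p hBal
  choose G₀ hG1 hG2 hG3 using hG'
  obtain ⟨C, hC0, hCh⟩ := hC M p hP hBal
  let G : ℕ → Set (List M.D) := fun w => if h : 1 ≤ w then G₀ w h else ∅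
  refine ⟨r, c, G, hr0, hrd, hc0, fun w γ h => ?_, fun A => ?_⟩
  · by_cases h1 : 1 ≤ w
    · simp only [G, dif_pos h1] at h
      exact (hG1 w h1 γ h).1
    · simp only [G, dif_neg h1] at h
      exact h.elim
  set A₁ : ℝ := max A 1 with hA₁
  have hA1 : 1 ≤ A₁ := le_max_right _ _
  obtain ⟨J, hJ1, hJ⟩ : ∃ J : ℕ, 1 ≤ J ∧
      18 * M.κ⁻¹ ^ 2 * ENNReal.ofReal (2 * A₁) / J ≤ c / 4 := by
    have h1 : 18 * M.κ⁻¹ ^ 2 * ENNReal.ofReal (2 * A₁) ≠ ⊤ :=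
      ENNReal.mul_ne_top (ENNReal.mul_ne_top (by simp) (ENNReal.pow_ne_top hK))
        ENNReal.ofReal_ne_top
    have h2 := ENNReal.Tendsto.const_mul ENNReal.tendsto_inv_nat_nhds_zero (Or.inr h1)
    rw [mul_zero] at h2
    obtain ⟨J, h3, h4⟩ := ((eventually_ge_atTop 1).and
      (h2.eventually (Iic_mem_nhds (pos_iff_ne_zero.2 hc4)))).exists
    exact ⟨J, h3, h4⟩
  have hm : (M.m1 * M.κ⁻¹ ^ 2) ^ 2 ≠ ⊤ :=
    ENNReal.pow_ne_top (ENNReal.mul_ne_top hBal.2.2.2 (ENNReal.pow_ne_top hK))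
  set m : ℝ := ((M.m1 * M.κ⁻¹ ^ 2) ^ 2).toReal with hmd
  obtain ⟨e, ⟨⟨⟨e1, e2⟩, e3⟩, e4⟩, e0⟩ := (((((small hη0 1).and (small hc4 (J * (C * (2 * A₁))))).and
    (small one_ne_zero (16 * m))).and (small one_ne_zero 40)).and self_mem_nhdsWithin).exists
  have e0' : 0 < e := e0
  rw [one_mul] at e1
  rw [ENNReal.ofReal_le_one] at e3 e4
  have f1 : ∀ᶠ w : ℕ in atTop, r w ≤ 1 := hr1.eventually (Iic_mem_nhds one_pos)
  have t1 : Tendsto (fun w => A₁ * r w) atTop (𝓝 0) := by simpa using hr1.const_mul A₁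
  have f2 : ∀ᶠ w : ℕ in atTop, A₁ * r w ≤ e ^ 8 := t1.eventually (Iic_mem_nhds (by positivity))
  have t2 : Tendsto (fun w : ℕ => ENNReal.ofReal (A₁ * r w) * M.Th w) atTop (𝓝 0) := by
    have h1 := ENNReal.Tendsto.const_mul (a := ENNReal.ofReal A₁) hr2 (Or.inr ENNReal.ofReal_ne_top)
    rw [mul_zero] at h1
    refine h1.congr fun w => ?_
    rw [ENNReal.ofReal_mul (by linarith), mul_assoc]
  have f3 : ∀ᶠ w : ℕ in atTop, ENNReal.ofReal (A₁ * r w) * M.Th w ≤ ENNReal.ofReal (e ^ 7) :=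
    t2.eventually (Iic_mem_nhds (ENNReal.ofReal_pos.2 (by positivity)))
  have f4 : ∀ᶠ w : ℕ in atTop, ENNReal.ofReal (A₁ * r w) * (CG * (M.Th w + 1)) ≤ c := by
    have h1 := ENNReal.tendsto_ofReal t1
    rw [ENNReal.ofReal_zero] at h1
    have h2 := ENNReal.Tendsto.const_mul (a := CG) (t2.add h1) (Or.inr hCG)
    rw [add_zero, mul_zero] at h2
    refine (h2.eventually (Iic_mem_nhds (pos_iff_ne_zero.2 hc0))).mono fun w h => ?_
    refine le_trans (le_of_eq ?_) h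
    ring
  obtain ⟨w₀, hw₀⟩ := eventually_atTop.1 (f1.and (f2.and (f3.and (f4.and
    ((eventually_ge_atTop 4).and (eventually_ge_atTop w₁))))))
  refine ⟨w₀, fun w hw s hs hs1 hsup => ?_⟩
  obtain ⟨g1, g2, g3, g4, g5, g6⟩ := hw₀ w hw
  have hw4 : (4 : ℝ) ≤ w := by exact_mod_cast g5
  have hw1 : (1 : ℝ) ≤ w := by linarith
  have hw1' : 1 ≤ w := by omega
  have hGw : G w = G₀ w hw1' := dif_pos hw1'
  rw [hGw]
  have hr := hr0 w
  set lam : ℝ := A₁ * r w with hlam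
  have hl0 : 0 < lam := by positivity
  have hsl : ∀ z, s z ≤ ENNReal.ofReal lam := fun z => (hsup z).trans
    (ENNReal.ofReal_le_ofReal (mul_le_mul_of_nonneg_right (le_max_left _ _) hr.le))
  have hcr : ∀ γ ∈ G₀ w hw1', M.Cross w γ := fun γ h => (hG1 w hw1' γ h).1
  have hc8 : 8 * c = M.κ * p / 2 * β := ENNReal.mul_div_cancel (by simp) (by simp)
  have hmass := hMa M _ s w _ (M.κ * p / 2) β hw1 hcr hs hs1 (hG3 w hw1' s _ hs hsl)
    (hG2 w hw1') (hβ _) (by rw [← hc8]; gcongr)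
  obtain ⟨hrow, hsupp⟩ := hR M _ w hw1 hcr
  have htot : ∑' z', ∑' z, s z * M.Qk (G₀ w hw1') z z' ≤ 1 := by
    rw [ENNReal.tsum_comm, ← hs1]
    refine ENNReal.tsum_le_tsum fun z => ?_
    rw [ENNReal.tsum_mul_left]
    exact mul_le_of_le_one_right' (hrow z)
  have hslab : ∀ z', ∑' z, s z * M.Qk (G₀ w hw1') z z' ≠ 0 → -1 ≤ M.L z' ∧ M.L z' < 0 := by
    intro z' h1
    obtain ⟨z, hz⟩ : ∃ z, s z * M.Qk (G₀ w hw1') z z' ≠ 0 := by
      by_contra h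
      push Not at h
      exact h1 (by simp [h])
    exact hsupp z z' (hs z (left_ne_zero_of_mul hz)).1 (right_ne_zero_of_mul hz)
  set NS : ℕ := ⌈(r w)⁻¹⌉₊ with hNS
  have hNS1 : 1 ≤ NS := Nat.one_le_ceil_iff.2 (inv_pos.2 hr)
  have hNr : (NS : ℝ) * r w ≤ 2 := by
    have h1 := (Nat.ceil_lt_add_one (inv_pos.2 hr).le).le
    have h2 := mul_le_mul_of_nonneg_right h1 hr.le
    rw [add_mul, inv_mul_cancel₀ hr.ne', one_mul] at h2
    linarith
  obtain ⟨ε, h, a1, a2, a3, a4, a5, a6⟩ := scale hl0 hw4 e0' ENNReal.toReal_nonneg g2 g3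
    (by rw [ENNReal.ofReal_toReal hm]; exact hB M w (by linarith)) e3
  have hset : ∀ S : Finset M.Pt, S.card ≤ NS →
      ∑ z' ∈ S, ∑' z, s z * M.Qk (G₀ w hw1') z z' ≤ c := by
    intro S₀ hS₀
    set S := S₀.filter fun z' => -1 ≤ M.L z' ∧ M.L z' < 0 with hSd
    rw [← Finset.sum_filter_of_ne (p := fun z' => -1 ≤ M.L z' ∧ M.L z' < 0)
      fun z' _ h => hslab z' h, ← hSd]
    have hSc : (S.card : ℝ) ≤ NS := by exact_mod_cast (Finset.card_filter_le _ _).trans hS₀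
    have hIn : M.InU (-1) S := fun z hz => by
      have := (Finset.mem_filter.1 hz).2
      exact ⟨this.1, by linarith [this.2]⟩
    have hctx : Ctx M s S := ⟨hs, hs1.le, hIn⟩
    have hlS : lam * S.card ≤ 2 * A₁ := by
      calc lam * S.card ≤ A₁ * r w * NS := by rw [hlam]; gcongr
        _ = A₁ * (NS * r w) := by ring
        _ ≤ A₁ * 2 := by gcongr
        _ = _ := mul_comm _ _
    have h1 := hCh s S w lam (2 * A₁) ε h η hctx hsl hl0 hlS (by linarith) a1 (by linarith) a3 a4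
      a5 a6 (hY M s S w η hctx fun S' t h1 h2 h3 => hAC w g6 S' t h1 h2 (le_trans (by
        have : (S'.card : ℝ) ≤ S.card := by exact_mod_cast h3
        exact mul_le_mul_of_nonneg_right (this.trans hSc) hr.le) hNr))
    have h2 := hS M _ s S w _ (ENNReal.ofReal (2 * A₁)) _ J hw1 (hG1 w hw1') hs
      (fun u hu a => ((hE M s S _ u a hIn hu).2.2 _ hsl).trans (by
        rw [← ENNReal.ofReal_natCast, ← ENNReal.ofReal_mul hl0.le]
        exact ENNReal.ofReal_le_ofReal hlS)) h1 hJ1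
    have h3 : 3 * M.κ⁻¹ * (2 * (η + ENNReal.ofReal ε)) ≤ c / 4 + c / 4 := by
      have h4 : ENNReal.ofReal ε ≤ η := (ENNReal.ofReal_le_ofReal a2).trans e1
      have h5 : (24 : ℝ≥0∞) * η = c * M.κ := ENNReal.mul_div_cancel (by simp) (by simp)
      have h6 : (4 : ℝ≥0∞) * (c / 4) = c := ENNReal.mul_div_cancel (by simp) (by simp)
      refine (ENNReal.mul_le_mul_iff_right (a := 2) (by simp) (by simp)).1 ?_
      calc 2 * (3 * M.κ⁻¹ * (2 * (η + ENNReal.ofReal ε))) ≤ 2 * (3 * M.κ⁻¹ * (2 * (η + η))) := by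
            gcongr
        _ = M.κ⁻¹ * (24 * η) := by ring
        _ = c * (M.κ⁻¹ * M.κ) := by rw [h5]; ring
        _ = 4 * (c / 4) := by rw [ENNReal.inv_mul_cancel M.hκ hκt, mul_one, h6]
        _ ≤ _ := le_of_eq (by ring)
    have h4 : (J : ℝ≥0∞) * ENNReal.ofReal (C * (2 * A₁) * ε) ≤ c / 4 := by
      refine le_trans ?_ e2
      rw [← ENNReal.ofReal_natCast, ← ENNReal.ofReal_mul (Nat.cast_nonneg _)]
      refine ENNReal.ofReal_le_ofReal ?_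
      rw [← mul_assoc]
      gcongr
    refine h2.trans ((add_le_add (add_le_add h3 h4) hJ).trans (le_of_eq ?_))
    have h6 : (4 : ℝ≥0∞) * (c / 4) = c := ENNReal.mul_div_cancel (by simp) (by simp)
    calc c / 4 + c / 4 + c / 4 + c / 4 = 4 * (c / 4) := by ring
      _ = c := h6
  obtain ⟨s', b1, b2, b3⟩ := hTr M.Pt _ c c NS hNS1 htot (le_trans (by
    rw [← hc8, ← two_mul, show (8 : ℝ≥0∞) = 4 * 2 by norm_num, mul_assoc, mul_comm (4 : ℝ≥0∞),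
      ENNReal.mul_div_cancel_right (by simp) (by simp)]) hmass) hset
  refine ⟨s', b1, fun z' hz' => hslab z' fun h => hz' (le_antisymm (h ▸ b1 z') zero_le), b2,
    (ENNReal.tsum_le_tsum b1).trans htot, fun z => (b3 z).trans ?_⟩
  rw [← inv_inv (r w), ENNReal.ofReal_inv_of_pos (inv_pos.2 hr), ENNReal.inv_le_inv,
    ← ENNReal.ofReal_natCast]
  exact ENNReal.ofReal_le_ofReal (Nat.le_ceil _)

end Pool.Agent.MP_db8016_pr.BZ

end
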