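import Pool.Agent.Mg.Fdb8016p.Ged04e7

section

/-! Records in a unit window of levels, and the total weight of the irreducible pieces. -/

namespace Pool.Agent.MP_db8016_pr.BZ
open MeasureTheory ProbabilityTheory Filter
open scoped ENNReal

namespace RecAux

variable {M : Mod}

lemma pf_rec (M : Mod) (t : ℝ) :
    PF {ζ | ∃ δ, (M.Rc δ ∧ t ≤ M.lv δ ∧ M.lv δ < t + 1) ∧ ζ = δ ++ [M.u]} := by
  rintro _ ⟨δ, h, rfl⟩ _ ⟨δ', h', rfl⟩ hp
  have e : M.lv (δ ++ [M.u]) = M.lv δ + 1 := by simp [M.hu]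
  rcases Mod.pf_append_cases hp with ⟨h1, h2⟩ | ⟨β, h1, h2⟩
  · have := h'.1 _ h1 h2
    linarith [h.2.1, h'.2.2]
  · rcases List.prefix_cons_iff.1 h1 with rfl | ⟨τ, rfl, h3⟩
    · rw [List.append_nil] at h2
      rw [h2] at e
      linarith [h.2.1, h'.2.2]
    · rw [List.prefix_nil.1 h3] at h2
      exact h2

lemma irr_half {π π' τ τ' a : List M.D} (h : M.Irr π) (h' : M.Irr π') (hτ : M.NN τ)
    (e1 : π' = π ++ a) (e2 : τ = a ++ τ') : π = π' := by
  have ha : M.Up a := by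
    refine ⟨hτ.of_pf ⟨τ', e2.symm⟩, ?_⟩
    have := h'.1.2
    rw [e1] at this
    exact this.of_append
  rcases h'.2.2 π a e1 h.1 ha with h1 | h1
  · exact absurd h1 h.2.1
  · rw [e1, h1, List.append_nil]

lemma irr_unique {π π' τ τ' : List M.D} (h : M.Irr π) (h' : M.Irr π') (hτ : M.NN τ)
    (hτ' : M.NN τ') (e : π ++ τ = π' ++ τ') : π = π' := by
  rcases List.append_eq_append_iff.1 e with ⟨a, e1, e2⟩ | ⟨a, e1, e2⟩
  · exact irr_half h h' hτ e1 e2
  · exact (irr_half h' h hτ' e1 e2).symm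

lemma cross_append {π ρ : List M.D} {h : ℝ} (hπ : M.Up π) (hl : M.lv π < h)
    (hρ : M.Cross (h - M.lv π) ρ) : M.Cross h (π ++ ρ) := by
  refine ⟨hπ.1.append hρ.1, ?_, fun α hα hne => ?_⟩
  · rw [Mod.lv_append]
    linarith [hρ.2.1]
  · rcases Mod.pf_append_cases hα with ⟨h1, h2⟩ | ⟨β, h1, rfl⟩
    · exact (hπ.2 α h1 h2).trans hl
    · rw [Mod.lv_append]
      linarith [hρ.2.2 β h1 fun e => hne (by rw [e])]

lemma step (J : Finset (List M.D)) (hJ : ∀ π ∈ J, M.Irr π) (h : ℝ) (hl : ∀ π ∈ J, M.lv π < h) :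
    ∑ π ∈ J, M.w π * M.sm {ρ | M.Cross (h - M.lv π) ρ} ≤ M.sm {γ | M.Cross h γ} := by
  have key := Mod.tsum_le_sm (G := {γ | M.Cross h γ})
    (fun x : (Σ π : J, ↥{ρ | M.Cross (h - M.lv π) ρ}) => (x.1 : List M.D) ++ (x.2 : List M.D))
    (by
      rintro ⟨⟨π, hπ⟩, ⟨ρ, hρ⟩⟩ ⟨⟨π', hπ'⟩, ⟨ρ', hρ'⟩⟩ e
      have e' : π ++ ρ = π' ++ ρ' := e
      obtain rfl : π = π' := irr_unique (hJ π hπ) (hJ π' hπ') hρ.1 hρ'.1 e'
      obtain rfl : ρ = ρ' := List.append_cancel_left e'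
      rfl)
    (fun x => cross_append (hJ _ x.1.2).1 (hl _ x.1.2) x.2.2)
  refine le_trans (le_of_eq ?_) key
  rw [ENNReal.tsum_sigma', tsum_fintype, ← Finset.sum_coe_sort J]
  refine Finset.sum_congr rfl fun π _ => ?_
  rw [Mod.sm_eq_tsum, ← ENNReal.tsum_mul_left]
  exact tsum_congr fun ρ => (Mod.w_append (hJ _ π.2).1.2 ρ.2.1).symm

lemma pow_le (J : Finset (List M.D)) (hJ : ∀ π ∈ J, M.Irr π) {r : ℝ} (hr : 0 ≤ r)
    (hl : ∀ π ∈ J, M.lv π ≤ r) {p : ℝ≥0∞} (hp : ∀ h : ℝ, p ≤ M.sm {γ | M.Cross h γ}) (j : ℕ) :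
    ∀ h : ℝ, j * r < h → (∑ π ∈ J, M.w π) ^ j * p ≤ M.sm {γ | M.Cross h γ} := by
  induction j with
  | zero => intro h _; simpa using hp h
  | succ j ih =>
    intro h hh
    rw [Nat.cast_succ, add_mul, one_mul] at hh
    have h0 : 0 ≤ (j : ℝ) * r := mul_nonneg (Nat.cast_nonneg j) hr
    refine le_trans ?_ (step J hJ h fun π hπ => by linarith [hl π hπ])
    rw [pow_succ', mul_assoc, Finset.sum_mul]
    refine Finset.sum_le_sum fun π hπ => ?_
    exact mul_le_mul_right (ih _ (by linarith [hl π hπ])) _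

lemma sum_le_one (J : Finset (List M.D)) (hJ : ∀ π ∈ J, M.Irr π) {p : ℝ≥0∞} (h0 : p ≠ 0)
    (hp : ∀ h : ℝ, p ≤ M.sm {γ | M.Cross h γ}) : ∑ π ∈ J, M.w π ≤ 1 := by
  have hn : ∀ π ∈ J, 0 ≤ M.lv π := fun π hπ => (hJ π hπ).1.1 π List.prefix_rfl
  have hb : ∀ j : ℕ, (∑ π ∈ J, M.w π) ^ j ≤ p⁻¹ := by
    intro j
    rw [ENNReal.le_inv_iff_mul_le]
    exact (pow_le J hJ (Finset.sum_nonneg hn) (fun π hπ => Finset.single_le_sum hn hπ) hp j _
      (lt_add_one _)).trans (Mod.sm_le_one (M.pf_cross _))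
  by_contra hc
  have ht := ENNReal.tendsto_pow_atTop_nhds_top_iff.2 (not_le.1 hc)
  exact absurd (le_of_tendsto' ht hb) (not_le.2 (ENNReal.inv_lt_top.2 (pos_iff_ne_zero.2 h0)))

end RecAux

theorem s_rec : S_Rec := by
  intro M t
  rw [ENNReal.le_inv_iff_mul_le]
  refine le_trans ?_ (Mod.sm_le_one (RecAux.pf_rec M t))
  have key := Mod.tsum_le_sm
    (G := {ζ | ∃ δ, (M.Rc δ ∧ t ≤ M.lv δ ∧ M.lv δ < t + 1) ∧ ζ = δ ++ [M.u]})
    (fun δ : ↥{δ | M.Rc δ ∧ t ≤ M.lv δ ∧ M.lv δ < t + 1} => (δ : List M.D) ++ [M.u])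
    (fun a b e => Subtype.ext (List.append_cancel_right e)) (fun δ => ⟨δ, δ.2, rfl⟩)
  refine le_trans ?_ key
  rw [Mod.sm_eq_tsum, ← ENNReal.tsum_mul_right]
  refine ENNReal.tsum_le_tsum fun δ => ?_
  have := M.w_append_ge δ [M.u]
  rwa [List.length_singleton, pow_one, mul_comm] at this

theorem s_w : S_W := by
  classical
  intro M p h0 hp
  unfold Mod.sm
  rw [ENNReal.tsum_eq_iSup_sum]
  refine iSup_le fun s => ?_
  refine le_trans (le_of_eq ?_)
    (RecAux.sum_le_one (s.filter M.Irr) (fun π hπ => (Finset.mem_filter.1 hπ).2) h0 hp)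
  rw [Finset.sum_filter]
  refine Finset.sum_congr rfl fun π _ => ?_
  by_cases h : M.Irr π
  · rw [if_pos h]
    exact Set.indicator_of_mem (s := {γ | M.Irr γ}) h _
  · rw [if_neg h]
    exact Set.indicator_of_notMem (s := {γ | M.Irr γ}) h _

end Pool.Agent.MP_db8016_pr.BZ

end

section

/-! Definitions and statements for the ballistic case in dimension three. -/

namespace Pool.Agent.MP_db8016_pr.BZ
open MeasureTheory ProbabilityTheory Filter Topology
open scoped ENNReal Classical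

namespace Mod
variable (M : Mod)

/-- Configurations of arrows. -/
abbrev Fld : Type := M.Pt → ℕ → M.D

/-- The arrows of `a'` on `Low` and those of `a` elsewhere. -/
noncomputable def mix (Low : Set M.Pt) (a' a : M.Fld) : M.Fld :=
  fun z => if z ∈ Low then a' z else a z

/-- The sites below the level `τ`. -/
def Lo (τ : ℝ) : Set M.Pt := {z | M.L z < τ}

/-- The average over the arrows on `Low`. -/
noncomputable def cE (Low : Set M.Pt) (Y : M.Fld → ℝ≥0∞) (a : M.Fld) : ℝ≥0∞ :=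
  ∫⁻ a', Y (M.mix Low a' a) ∂M.P

/-- The probability of a path given the arrows outside `Low`. -/
noncomputable def Pm (Low : Set M.Pt) (x : M.Pt) (γ : List M.D) (a : M.Fld) : ℝ≥0∞ :=
  M.P {a' | M.mix Low a' a ∈ M.F x γ}

/-- A weighted number of paths that are followed. -/
noncomputable def Yc (c : M.Pt → List M.D → ℝ≥0∞) (a : M.Fld) : ℝ≥0∞ :=
  ∑' x, ∑' γ, c x γ * (M.F x γ).indicator 1 a

/-- Its mean. -/
noncomputable def yc (c : M.Pt → List M.D → ℝ≥0∞) : ℝ≥0∞ := ∑' x, ∑' γ, c x γ * M.w γ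

/-- The path from `x` is stopped when its level is positive for the first time. -/
def FP (x : M.Pt) (γ : List M.D) : Prop :=
  M.Up γ ∧ (∀ α, α <+: γ → α ≠ γ → M.L x + M.lv α ≤ 0) ∧ 0 < M.L x + M.lv γ

/-- The weight of the path `γ` from `x`. -/
noncomputable def cf (s : M.Pt → ℝ≥0∞) (T : Set M.Pt) (x : M.Pt) (γ : List M.D) : ℝ≥0∞ :=
  if x ∈ T ∧ M.FP x γ then s (-(x + M.ds γ)) else 0

/-- The sites with level in `(b, b + len]`. -/
def Win (b len : ℝ) : Set M.Pt := {x | b < M.L x ∧ M.L x ≤ b + len}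

/-- The starts that are seen from `u`. -/
def TS (S : Finset M.Pt) (u : M.Pt) : Set M.Pt := {x | u - x ∈ S}

/-- A finite set in the levels `[t, t + 1)`. -/
def InU (t : ℝ) (S : Finset M.Pt) : Prop := ∀ z ∈ S, t ≤ M.L z ∧ M.L z < t + 1

/-- The excess over `t` of the largest conditional mean. -/
noncomputable def Top (s : M.Pt → ℝ≥0∞) (S : Finset M.Pt) (τ : ℝ) (U : Set M.Pt) (t : ℝ≥0∞) :
    ℝ≥0∞ :=
  ∫⁻ a, (⨆ u ∈ U, M.cE (M.Lo τ) (M.Yc (M.cf s (M.TS S u))) a) - t ∂M.P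

/-- Paths in `H` from `x` up to their first visit to `V`. -/
def FTs (H : Set (List M.D)) (V : Finset M.Pt) (x : M.Pt) : Set (List M.D) :=
  {α | α ∈ H ∧ x + M.ds α ∈ V ∧ Disjoint V (pts M.vec x α)}

/-- Conditional weight of the first visits. -/
noncomputable def Tch (Low : Set M.Pt) (H : Set (List M.D)) (X : Set M.Pt) (V : Finset M.Pt)
    (a : M.Fld) : ℝ≥0∞ :=
  ∑' x, ∑' α, if x ∈ X ∧ α ∈ M.FTs H V x then M.Pm Low x α a else 0

/-- Weight of the first visits. -/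
noncomputable def FT (H : Set (List M.D)) (X : Set M.Pt) (V : Finset M.Pt) : ℝ≥0∞ :=
  ∑' x, ∑' α, if x ∈ X ∧ α ∈ M.FTs H V x then M.w α else 0

/-- The sites of the path that lie in `Low`. -/
noncomputable def low (Low : Set M.Pt) (x : M.Pt) (γ : List M.D) : Finset M.Pt :=
  (pts M.vec x γ).filter fun z => z ∈ Low

/-- A sum over the paths that end at a record in the levels `[t, t + 1)`. -/
noncomputable def UW (t : ℝ) (f : List M.D → ℝ≥0∞) : ℝ≥0∞ :=
  ∑' γ, if M.Up γ ∧ t ≤ M.lv γ ∧ M.lv γ < t + 1 then M.w γ * f γ else 0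

/-- The mean length of a piece. -/
noncomputable def m1 : ℝ≥0∞ := ∑' π, if M.Irr π then M.w π * π.length else 0

/-- The part of the mean length that comes from long pieces. -/
noncomputable def mt (r : ℕ) : ℝ≥0∞ :=
  ∑' π, if M.Irr π ∧ r < π.length then M.w π * π.length else 0

/-- A concatenation of `n` pieces. -/
def Pc : ℕ → List M.D → Prop
  | 0, α => α = []
  | n + 1, α => ∃ π α', M.Irr π ∧ Pc n α' ∧ α = π ++ α'

/-- The law of the displacement of a piece. -/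
noncomputable def qq (x : M.Pt) : ℝ≥0∞ := M.sm {π | M.Irr π ∧ M.ds π = x}

/-- The renewal function. -/
noncomputable def gg (x : M.Pt) : ℝ≥0∞ := M.sm {γ | M.Up γ ∧ M.ds γ = x}

/-- The expected number of common renewals up to the level `v`. -/
noncomputable def GG (v : ℝ) : ℝ≥0∞ := ∑' x, if M.L x ≤ v then M.gg x ^ 2 else 0

/-- Paths along which the chance to cross the height `h` stays at least `η`. -/
def HP (η : ℝ≥0∞) (h : ℝ) : Set (List M.D) :=
  {α | ∀ α', α' <+: α → η * M.w α' ≤ M.sm {ζ | M.Cross h ζ ∧ α' <+: ζ}}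

/-- The sites with level in `(-4, 4)`. -/
def Near : Set M.Pt := {y | |M.L y| < 4}

/-- The paths `α` from `0` and `α'` from `y` have a common site. -/
def Tp (y : M.Pt) (α α' : List M.D) : Prop := ¬ Disjoint (pts M.vec 0 α) (pts M.vec y α')

/-- The expected number of starts whose crossing meets `γ`. -/
noncomputable def Bas (h : ℝ) (γ : List M.D) : ℝ≥0∞ :=
  ∑' y, if y ∈ M.Near then M.sm {ζ | M.Cross h ζ ∧ M.Tp y γ ζ} else 0

/-- The largest mean of `Bas` in a window of height `w`. -/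
noncomputable def Th (w : ℝ) : ℝ≥0∞ := ⨆ (t : ℝ) (_ : t ≤ w + 2), M.UW t (M.Bas (w + 7))

/-- `α` is an initial part of `ζ` that ends at a cut. -/
def Cp (α ζ : List M.D) : Prop := ∃ β, ζ = α ++ β ∧ M.Up α ∧ M.Up β

/-- A minimal pair of paths that meet. -/
def Mn (y : M.Pt) (α α' : List M.D) : Prop := M.Up α ∧ M.Up α' ∧ M.Tp y α α' ∧
  ∀ α₁ α₁', M.Cp α₁ α → M.Cp α₁' α' → M.Tp y α₁ α₁' → α₁ = α ∧ α₁' = α'

/-- The two ends are reached from a common site in at most `r` steps. -/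
def Sml (r : ℕ) (y : M.Pt) (α α' : List M.D) : Prop := ∃ τ τ' : List M.D,
  τ.length ≤ r ∧ τ'.length ≤ r ∧ M.ds α + M.ds τ' = y + M.ds α' + M.ds τ

/-- The weight of the minimal pairs with the property `Q`. -/
noncomputable def MW (t : ℝ) (Q : M.Pt → List M.D → List M.D → Prop) : ℝ≥0∞ :=
  ∑' y, ∑' α, ∑' α', if y ∈ M.Near ∧ M.Mn y α α' ∧ M.lv α < t + 1 ∧ Q y α α' then
    M.w α * M.w α' else 0

/-- The path does not begin with `n` pieces below the level `y`. -/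
def Bad (n : ℕ) (y : ℝ) (γ : List M.D) : Prop :=
  y < M.lv γ ∧ ¬ ∃ α β, γ = α ++ β ∧ M.Pc n α ∧ M.Up β ∧ M.lv α ≤ y

/-- The standing assumptions on the ballistic walker. -/
def Bal (p : ℝ≥0∞) : Prop := p ≠ 0 ∧ (∀ h : ℝ, p ≤ M.sm {γ | M.Cross h γ}) ∧
  M.sm {γ | M.Irr γ} ≤ 1 ∧ M.m1 ≠ ⊤

/-- Anti-concentration for sets of size at most `2 / r w`. -/
def AC3 (η : ℝ≥0∞) (r : ℕ → ℝ) : Prop := ∃ w₀ : ℕ, ∀ w, w₀ ≤ w → ∀ (S : Finset M.Pt) (t : ℝ),
  (w : ℝ) - 2 ≤ t → M.InU t S → S.card * r w ≤ 2 → ∑ x ∈ S, M.gg x ≤ η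

/-- The conclusion of the window lemma with a general rate. -/
def WLr : Prop := ∃ (r : ℕ → ℝ) (c : ℝ≥0∞) (G : ℕ → Set (List M.D)), (∀ w, 0 < r w) ∧
  (∀ K : ℕ, ∃ A : ℝ, ∀ w w', 1 ≤ w → 1 ≤ w' → w' ≤ K * w → r w ≤ A * r w') ∧ c ≠ 0 ∧
  (∀ (w : ℕ) γ, γ ∈ G w → M.Cross w γ) ∧ ∀ A : ℝ, ∃ w₀ : ℕ, ∀ w, w₀ ≤ w →
    ∀ s : M.Pt → ℝ≥0∞, M.Slab s → ∑' z, s z = 1 → (∀ z, s z ≤ ENNReal.ofReal (A * r w)) →
      ∃ s' : M.Pt → ℝ≥0∞, (∀ z', s' z' ≤ ∑' z, s z * M.Qk (G w) z z') ∧ M.Slab s' ∧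
        c ≤ ∑' z, s' z ∧ ∑' z, s' z ≤ 1 ∧ ∀ z, s' z ≤ ENNReal.ofReal (r w)

/-! ### Mixing two configurations -/

lemma measurable_mix (Low : Set M.Pt) :
    Measurable fun p : M.Fld × M.Fld => M.mix Low p.1 p.2 := by
  refine measurable_pi_lambda _ fun z => ?_
  unfold mix
  split_ifs
  · exact (measurable_pi_apply z).comp measurable_fst
  · exact (measurable_pi_apply z).comp measurable_snd

lemma measurable_mix_left (Low : Set M.Pt) (a : M.Fld) : Measurable fun a' => M.mix Low a' a :=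
  (M.measurable_mix Low).comp measurable_prodMk_right

lemma measurable_mix_right (Low : Set M.Pt) (a' : M.Fld) : Measurable fun a => M.mix Low a' a :=
  (M.measurable_mix Low).comp measurable_prodMk_left

lemma map_mix (Low : Set M.Pt) : (M.P.prod M.P).map (fun p => M.mix Low p.1 p.2) = M.P := by
  refine Measure.eq_infinitePi _ fun s t ht => ?_
  rw [Measure.map_apply (M.measurable_mix Low)
    (MeasurableSet.pi (Finset.countable_toSet _) fun i _ => ht i)]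
  have e : (fun p : M.Fld × M.Fld => M.mix Low p.1 p.2) ⁻¹' Set.pi (s : Set M.Pt) t =
      Set.pi (s.filter fun z => z ∈ Low : Finset M.Pt) t ×ˢ
        Set.pi (s.filter fun z => ¬ z ∈ Low : Finset M.Pt) t := by
    ext p
    simp only [Set.mem_preimage, Set.mem_pi, Finset.mem_coe, Set.mem_prod, Finset.mem_filter, mix]
    constructor
    · intro h
      exact ⟨fun i hi => by simpa [hi.2] using h i hi.1, fun i hi => by simpa [hi.2] using h i hi.1⟩
    · rintro ⟨h1, h2⟩ i hi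
      split_ifs with h
      · exact h1 i ⟨hi, h⟩
      · exact h2 i ⟨hi, h⟩
  rw [e, Measure.prod_prod, P, arrows, Measure.infinitePi_pi _ (fun i _ => ht i),
    Measure.infinitePi_pi _ (fun i _ => ht i), Finset.prod_filter_mul_prod_filter_not]

lemma lintegral_mix (Low : Set M.Pt) {f : M.Fld → ℝ≥0∞} (hf : Measurable f) :
    ∫⁻ a', ∫⁻ a, f (M.mix Low a' a) ∂M.P ∂M.P = ∫⁻ a, f a ∂M.P := by
  conv_rhs => rw [← M.map_mix Low]
  rw [lintegral_map hf (M.measurable_mix Low)]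
  exact (lintegral_prod _ (hf.comp (M.measurable_mix Low)).aemeasurable).symm

lemma lintegral_cE (Low : Set M.Pt) {f : M.Fld → ℝ≥0∞} (hf : Measurable f) :
    ∫⁻ a, M.cE Low f a ∂M.P = ∫⁻ a, f a ∂M.P := by
  rw [← M.lintegral_mix Low hf]
  exact lintegral_lintegral_swap
    (hf.comp ((M.measurable_mix Low).comp measurable_swap)).aemeasurable

lemma measurable_cE (Low : Set M.Pt) {f : M.Fld → ℝ≥0∞} (hf : Measurable f) :
    Measurable (M.cE Low f) :=
  (hf.comp (M.measurable_mix Low)).lintegral_prod_left'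

lemma cE_mono (Low : Set M.Pt) {f g : M.Fld → ℝ≥0∞} (h : ∀ a, f a ≤ g a) (a : M.Fld) :
    M.cE Low f a ≤ M.cE Low g a := lintegral_mono fun _ => h _

lemma mix_mix {Low Low' : Set M.Pt} (h : Low ⊆ Low') (a'' a' a : M.Fld) :
    M.mix Low a'' (M.mix Low' a' a) = M.mix Low' (M.mix Low a'' a') a := by
  funext z
  unfold mix
  by_cases h1 : z ∈ Low
  · simp [h1, h h1]
  · simp [h1]

lemma mix_mix_self (Low : Set M.Pt) (a'' a' a : M.Fld) :
    M.mix Low a'' (M.mix Low a' a) = M.mix Low a'' a := by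
  funext z
  unfold mix
  split_ifs <;> rfl

@[simp] lemma mix_univ (a' a : M.Fld) : M.mix Set.univ a' a = a' := by
  funext z
  simp [mix]

/-- The tower property. -/
lemma cE_cE {Low Low' : Set M.Pt} (h : Low ⊆ Low') {f : M.Fld → ℝ≥0∞} (hf : Measurable f)
    (a : M.Fld) : M.cE Low' (M.cE Low f) a = M.cE Low' f a := by
  have h1 := M.lintegral_cE Low (hf.comp (M.measurable_mix_left Low' a))
  unfold cE at h1 ⊢
  simp only [M.mix_mix h]
  exact h1

lemma measurableSet_mixF (Low : Set M.Pt) (x : M.Pt) (γ : List M.D) (a : M.Fld) :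
    MeasurableSet {a' | M.mix Low a' a ∈ M.F x γ} :=
  M.measurable_mix_left Low a (M.measurableSet_F x γ)

lemma Pm_eq (Low : Set M.Pt) (x : M.Pt) (γ : List M.D) :
    M.Pm Low x γ = M.cE Low ((M.F x γ).indicator 1) := by
  funext a
  rw [Pm, ← lintegral_indicator_one (M.measurableSet_mixF Low x γ a)]
  rfl

lemma measurable_Pm (Low : Set M.Pt) (x : M.Pt) (γ : List M.D) : Measurable (M.Pm Low x γ) := by
  rw [Pm_eq]
  exact M.measurable_cE _ (measurable_one.indicator (M.measurableSet_F x γ))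

lemma lintegral_Pm (Low : Set M.Pt) (x : M.Pt) (γ : List M.D) :
    ∫⁻ a, M.Pm Low x γ a ∂M.P = M.w γ := by
  rw [Pm_eq, M.lintegral_cE _ (measurable_one.indicator (M.measurableSet_F x γ)),
    lintegral_indicator_one (M.measurableSet_F x γ), P_F]

lemma Pm_mix (Low : Set M.Pt) (x : M.Pt) (γ : List M.D) (a' a : M.Fld) :
    M.Pm Low x γ (M.mix Low a' a) = M.Pm Low x γ a := by
  simp only [Pm, mix_mix_self]

lemma Tch_mix (Low : Set M.Pt) (H : Set (List M.D)) (X : Set M.Pt) (V : Finset M.Pt)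
    (a' a : M.Fld) : M.Tch Low H X V (M.mix Low a' a) = M.Tch Low H X V a := by
  simp only [Tch, Pm_mix]

lemma measurable_Tch (Low : Set M.Pt) (H : Set (List M.D)) (X : Set M.Pt) (V : Finset M.Pt) :
    Measurable (M.Tch Low H X V) := by
  refine Measurable.tsum fun x => Measurable.tsum fun α => ?_
  split_ifs
  · exact M.measurable_Pm _ _ _
  · exact measurable_const

lemma mem_F_congr {x : M.Pt} {γ : List M.D} {a a' : M.Fld}
    (h : ∀ z ∈ pts M.vec x γ, a' z = a z) : a' ∈ M.F x γ ↔ a ∈ M.F x γ :=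
  ⟨detOn_Fol M.vec x γ a' a fun z hz => (h z hz).symm, detOn_Fol M.vec x γ a a' h⟩

lemma detOn_mixF (Low : Set M.Pt) (x : M.Pt) (γ : List M.D) (a : M.Fld) :
    DetOn (M.low Low x γ) {a' | M.mix Low a' a ∈ M.F x γ} := by
  intro b b' h hb
  refine (M.mem_F_congr fun z hz => ?_).2 hb
  unfold mix
  split_ifs with h1
  · exact h z (Finset.mem_filter.2 ⟨hz, h1⟩)
  · rfl

lemma Pm_low {Low : Set M.Pt} {x : M.Pt} {γ : List M.D} (h : ∀ z ∈ pts M.vec x γ, z ∈ Low)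
    (a : M.Fld) : M.Pm Low x γ a = M.w γ := by
  rw [← M.P_F x, Pm]
  congr 1
  ext a'
  exact M.mem_F_congr fun z hz => if_pos (h z hz)

lemma Pm_high {Low : Set M.Pt} {x : M.Pt} {γ : List M.D} (h : ∀ z ∈ pts M.vec x γ, z ∉ Low)
    (a : M.Fld) : M.Pm Low x γ a = (M.F x γ).indicator 1 a := by
  have e : ∀ a', M.mix Low a' a ∈ M.F x γ ↔ a ∈ M.F x γ := fun a' =>
    M.mem_F_congr fun z hz => if_neg (h z hz)
  by_cases ha : a ∈ M.F x γ <;> simp [Pm, e, ha]

/-- An initial part on low sites factors out. -/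
lemma Pm_append {Low : Set M.Pt} {x : M.Pt} {α β : List M.D} (h1 : M.Rc α) (h2 : M.NN β)
    (h : ∀ z ∈ pts M.vec x α, z ∈ Low) (a : M.Fld) :
    M.Pm Low x (α ++ β) a = M.w α * M.Pm Low (x + M.ds α) β a := by
  have hd := disjoint_pts h1 h2 x
  have e : {a' | M.mix Low a' a ∈ M.F x (α ++ β)} =
      {a' | M.mix Low a' a ∈ M.F (x + M.ds α) β} ∩ M.F x α := by
    ext a'
    have e1 : M.F x (α ++ β) = M.F x α ∩ M.F (x + M.ds α) β := Fol_append_of_disjoint M.vec hd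
    have e2 : M.mix Low a' a ∈ M.F x α ↔ a' ∈ M.F x α :=
      M.mem_F_congr fun z hz => if_pos (h z hz)
    simp only [e1, Set.mem_ofPred_eq, Set.mem_inter_iff, e2, and_comm]
  rw [Pm, e, mul_comm]
  exact arrows_inter_Fol M.vec M.ν (M.measurableSet_mixF Low _ β a) (M.detOn_mixF Low _ β a)
    (hd.symm.mono_left (Finset.filter_subset _ _))

lemma measurable_Yc (c : M.Pt → List M.D → ℝ≥0∞) : Measurable (M.Yc c) :=
  Measurable.tsum fun x => Measurable.tsum fun γ =>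
    (measurable_one.indicator (M.measurableSet_F x γ)).const_mul _

lemma cE_Yc (Low : Set M.Pt) (c : M.Pt → List M.D → ℝ≥0∞) (a : M.Fld) :
    M.cE Low (M.Yc c) a = ∑' x, ∑' γ, c x γ * M.Pm Low x γ a := by
  have hm : ∀ x γ, Measurable fun a' => (M.F x γ).indicator (1 : M.Fld → ℝ≥0∞) (M.mix Low a' a) :=
    fun x γ => (measurable_one.indicator (M.measurableSet_F x γ)).comp (M.measurable_mix_left _ _)
  unfold cE Yc
  rw [lintegral_tsum fun x => (Measurable.tsum fun γ => (hm x γ).const_mul _).aemeasurable]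
  refine tsum_congr fun x => ?_
  rw [lintegral_tsum fun γ => ((hm x γ).const_mul _).aemeasurable]
  refine tsum_congr fun γ => ?_
  rw [lintegral_const_mul _ (hm x γ), Pm_eq]
  rfl

lemma lintegral_Yc (c : M.Pt → List M.D → ℝ≥0∞) : ∫⁻ a, M.Yc c a ∂M.P = M.yc c := by
  obtain ⟨a₀⟩ : Nonempty M.Fld := M.P.nonempty_of_neZero
  have h := M.cE_Yc Set.univ c a₀
  simp only [cE, mix_univ, M.Pm_low fun _ _ => Set.mem_univ _] at h
  exact h

lemma pf_FP (x : M.Pt) : PF {γ | M.FP x γ} := by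
  intro γ h1 γ' h2 h3
  by_contra e
  exact absurd (h2.2.1 γ h3 e) (not_le.2 h1.2.2)

lemma pf_FTs (H : Set (List M.D)) (V : Finset M.Pt) (x : M.Pt) : PF (M.FTs H V x) := by
  intro γ h1 γ' h2 h3
  by_contra e
  exact Finset.disjoint_left.1 h2.2.2 h1.2.1 (M.mem_pts.2 ⟨γ, h3, e, rfl⟩)

lemma top_mono (s : M.Pt → ℝ≥0∞) (S : Finset M.Pt) (τ : ℝ) {U U' : Set M.Pt} (h : U ⊆ U')
    {t t' : ℝ≥0∞} (ht : t' ≤ t) : M.Top s S τ U t ≤ M.Top s S τ U' t' :=
  lintegral_mono fun _ => tsub_le_tsub (biSup_mono h) ht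

/-! ### Pieces -/

variable {M}

lemma first_piece {γ : List M.D} (h : M.Up γ) (hne : γ ≠ []) :
    ∃ π β, M.Irr π ∧ M.Up β ∧ γ = π ++ β := GoodAux.split _ γ rfl h hne

lemma locate {γ α : List M.D} (h : M.Up γ) (h1 : α <+: γ) (h2 : α ≠ γ) :
    ∃ α₀ π π₁ β, M.Up α₀ ∧ M.Irr π ∧ M.Up β ∧ π₁ <+: π ∧ π₁ ≠ π ∧ γ = α₀ ++ π ++ β ∧
      α = α₀ ++ π₁ := by
  induction hn : γ.length using Nat.strong_induction_on generalizing γ α with
  | _ n ih =>
  obtain ⟨π, β, p1, b1, rfl⟩ := first_piece h (by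
    rintro rfl
    exact h2 (List.prefix_nil.1 h1))
  rcases pf_append_cases h1 with ⟨a1, a2⟩ | ⟨β', a1, rfl⟩
  · exact ⟨[], π, α, β, up_nil, p1, b1, a1, a2, by simp, by simp⟩
  · obtain ⟨α₀, π', π₁, β₁, c1, c2, c3, c4, c5, rfl, rfl⟩ := ih _ (by
      rw [← hn, List.length_append]
      exact Nat.lt_add_of_pos_left (List.length_pos_iff.2 p1.2.1)) b1 a1
      (fun e => h2 (by rw [e])) rfl
    exact ⟨π ++ α₀, π', π₁, β₁, p1.1.append c1, c2, c3, c4, c5, by simp, by simp⟩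

lemma last_piece {γ : List M.D} (h : M.Up γ) (hne : γ ≠ []) :
    ∃ α π, M.Up α ∧ M.Irr π ∧ γ = α ++ π := by
  obtain ⟨γ', d, rfl⟩ := List.eq_nil_or_concat γ |>.resolve_left hne
  rw [List.concat_eq_append] at h ⊢
  obtain ⟨α₀, π, π₁, β, c1, c2, -, c4, c5, c6, rfl⟩ :=
    locate h (List.prefix_append γ' [d]) (by simp)
  refine ⟨α₀, π, c1, c2, ?_⟩
  have h1 := congrArg List.length c6
  have h2 := c4.length_le
  have h3 : π₁.length ≠ π.length := fun e => c5 (c4.eq_of_length e)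
  simp only [List.length_append, List.length_singleton] at h1
  rw [c6, List.length_eq_zero_iff.1 (show β.length = 0 by omega), List.append_nil]

lemma Pc.up : ∀ {n : ℕ} {α : List M.D}, M.Pc n α → M.Up α
  | 0, _, h => h ▸ up_nil
  | _ + 1, _, ⟨_, _, h1, h2, e⟩ => e ▸ h1.1.append h2.up

lemma Pc.unique : ∀ {i j : ℕ} {α : List M.D}, M.Pc i α → M.Pc j α → i = j
  | 0, 0, _, _, _ => rfl
  | 0, _ + 1, _, h, ⟨π, _, h1, _, e⟩ => by
    rw [h] at e
    exact absurd (List.append_eq_nil_iff.1 e.symm).1 h1.2.1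
  | _ + 1, 0, _, ⟨π, _, h1, _, e⟩, h => by
    rw [h] at e
    exact absurd (List.append_eq_nil_iff.1 e.symm).1 h1.2.1
  | _ + 1, _ + 1, _, ⟨π, α, h1, h2, e⟩, ⟨π', α', h3, h4, e'⟩ => by
    obtain rfl := RecAux.irr_unique h1 h3 h2.up.1 h4.up.1 (e.symm.trans e')
    obtain rfl := List.append_cancel_left (e.symm.trans e')
    rw [h2.unique h4]

/-- Summation according to the first piece. -/
lemma tsum_first (f : List M.D → ℝ≥0∞) :
    ∑' γ, (if M.Up γ ∧ γ ≠ [] then f γ else 0) =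
      ∑' π, ∑' β, if M.Irr π ∧ M.Up β then f (π ++ β) else 0 := by
  rw [← ENNReal.tsum_prod (f := fun π β => if M.Irr π ∧ M.Up β then f (π ++ β) else 0)]
  refine tsum_eq_tsum_of_ne_zero_bij (fun p => p.1.1 ++ p.1.2) (fun p p' e => ?_)
    (fun γ hγ => ?_) fun p => ?_
  · have h : M.Irr p.1.1 ∧ M.Up p.1.2 := by
      by_contra h
      exact p.2 (if_neg h)
    have h' : M.Irr p'.1.1 ∧ M.Up p'.1.2 := by
      by_contra h
      exact p'.2 (if_neg h)
    have e1 := RecAux.irr_unique h.1 h'.1 h.2.1 h'.2.1 e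
    refine Subtype.ext (Prod.ext e1 ?_)
    simp only [e1] at e
    exact List.append_cancel_left e
  · have h : M.Up γ ∧ γ ≠ [] := by
      by_contra h
      exact hγ (if_neg h)
    obtain ⟨π, β, c1, c2, rfl⟩ := first_piece h.1 h.2
    refine ⟨⟨(π, β), ?_⟩, rfl⟩
    simpa only [Function.mem_support, if_pos h, if_pos (And.intro c1 c2)] using hγ
  · have h : M.Irr p.1.1 ∧ M.Up p.1.2 := by
      by_contra h
      exact p.2 (if_neg h)
    rw [if_pos h, if_pos ⟨h.1.1.append h.2, by simp [h.1.2.1]⟩]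

lemma op_qq (F : M.Pt → ℝ≥0∞) (x : M.Pt) :
    op M.qq F x = ∑' π, if M.Irr π then M.w π * F (x + M.ds π) else 0 := by
  unfold op qq sm
  simp only [← ENNReal.tsum_mul_right]
  rw [ENNReal.tsum_comm]
  refine tsum_congr fun π => ?_
  rw [tsum_eq_single (M.ds π) fun v hv => by
    rw [Set.indicator_of_notMem (fun h' => hv h'.2.symm), zero_mul]]
  split_ifs with h
  · rw [Set.indicator_of_mem (by exact ⟨h, rfl⟩)]
  · rw [Set.indicator_of_notMem (fun h' => h h'.1), zero_mul]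

lemma tsum_qq : ∑' x, M.qq x = M.sm {π | M.Irr π} := by
  have h := op_qq (M := M) (fun _ => 1) 0
  simp only [op, mul_one] at h
  rw [h]
  exact tsum_congr fun π => by simp [Set.indicator_apply]

lemma sm_union (A B : Set (List M.D)) : M.sm (A ∪ B) ≤ M.sm A + M.sm B := by
  unfold sm
  rw [← ENNReal.tsum_add]
  refine ENNReal.tsum_le_tsum fun γ => ?_
  simp only [Set.indicator_apply, Set.mem_union]
  by_cases h : γ ∈ A <;> by_cases h' : γ ∈ B <;> simp [h, h']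

/-- Records in `n` consecutive unit windows. -/
lemma rec_n (t : ℝ) (n : ℕ) :
    M.sm {δ | M.Rc δ ∧ t ≤ M.lv δ ∧ M.lv δ < t + n} ≤ n * M.κ⁻¹ := by
  induction n with
  | zero =>
    rw [show {δ | M.Rc δ ∧ t ≤ M.lv δ ∧ M.lv δ < t + (0 : ℕ)} = ∅ from
      Set.eq_empty_of_forall_notMem fun δ h => by
        have := h.2
        simp only [Nat.cast_zero, add_zero] at this
        linarith [this.1, this.2]]
    simp [sm]
  | succ n ih =>
    rw [Nat.cast_succ, Nat.cast_succ, add_mul, one_mul]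
    refine le_trans (sm_mono fun δ h => ?_)
      ((sm_union _ _).trans (add_le_add ih (s_rec M (t + n))))
    rcases lt_or_ge (M.lv δ) (t + n) with h1 | h1
    · exact Or.inl ⟨h.1, h.2.1, h1⟩
    · exact Or.inr ⟨h.1, h1, by linarith [h.2.2]⟩

lemma up_lt {t : ℝ} (ht : 0 ≤ t) :
    M.sm {γ | M.Up γ ∧ M.lv γ < t} ≤ ENNReal.ofReal (t + 1) * M.κ⁻¹ := by
  refine le_trans (sm_mono fun γ h => ?_) ((rec_n 0 ⌈t⌉₊).trans (mul_le_mul_left ?_ _))
  · exact ⟨h.1.2, h.1.1 γ List.prefix_rfl, by linarith [h.2, Nat.le_ceil t]⟩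
  · rw [← ENNReal.ofReal_natCast]
    exact ENNReal.ofReal_le_ofReal (Nat.ceil_lt_add_one ht).le

lemma UW_mono (t : ℝ) {f g : List M.D → ℝ≥0∞}
    (h : ∀ γ, M.Up γ → t ≤ M.lv γ → M.lv γ < t + 1 → f γ ≤ g γ) : M.UW t f ≤ M.UW t g := by
  refine ENNReal.tsum_le_tsum fun γ => ?_
  split_ifs with h1
  · exact mul_le_mul_right (h γ h1.1 h1.2.1 h1.2.2) _
  · exact le_rfl

lemma UW_add (t : ℝ) (f g : List M.D → ℝ≥0∞) :
    M.UW t (fun γ => f γ + g γ) = M.UW t f + M.UW t g := by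
  unfold UW
  rw [← ENNReal.tsum_add]
  refine tsum_congr fun γ => ?_
  split_ifs
  · exact mul_add _ _ _
  · simp

lemma UW_mul (t : ℝ) (c : ℝ≥0∞) (f : List M.D → ℝ≥0∞) :
    M.UW t (fun γ => c * f γ) = c * M.UW t f := by
  unfold UW
  rw [← ENNReal.tsum_mul_left]
  refine tsum_congr fun γ => ?_
  split_ifs
  · exact mul_left_comm _ _ _
  · simp

lemma UW_one (t : ℝ) : M.UW t (fun _ => 1) ≤ M.κ⁻¹ := by
  refine le_trans (ENNReal.tsum_le_tsum fun γ => ?_) (s_rec M t)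
  split_ifs with h
  · rw [mul_one, Set.indicator_of_mem (by exact ⟨h.1.2, h.2⟩)]
  · exact zero_le

end Mod

end Pool.Agent.MP_db8016_pr.BZ

end
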