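import Mathlib
import Pool.Agent.MP_db8016_pr.HD.Defs

section

/-! Paths, stacks of arrows and their weights. -/

namespace Pool.Agent.MP_db8016_pr.BZ
open MeasureTheory ProbabilityTheory
open scoped ENNReal
set_option linter.unusedSectionVars false

variable {Dir Pt : Type}

/-- The first `n` entries of a sequence. -/
def pre (a : ℕ → Dir) (n : ℕ) : List Dir := (List.range n).map a

/-- Sequences that begin with the list `l`. -/
def cyl (l : List Dir) : Set (ℕ → Dir) := {a | pre a l.length = l}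

@[simp] lemma pre_length (a : ℕ → Dir) (n : ℕ) : (pre a n).length = n := by simp [pre]

@[simp] lemma pre_zero (a : ℕ → Dir) : pre a 0 = [] := by simp [pre]

lemma pre_succ (a : ℕ → Dir) (n : ℕ) : pre a (n + 1) = pre a n ++ [a n] := by
  simp [pre, List.range_succ]

lemma mem_cyl_pre (a : ℕ → Dir) (n : ℕ) : a ∈ cyl (pre a n) := by simp [cyl]

@[simp] lemma cyl_nil : cyl ([] : List Dir) = Set.univ := by ext a; simp [cyl]

lemma mem_cyl_snoc {a : ℕ → Dir} {l : List Dir} {d : Dir} :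
    a ∈ cyl (l ++ [d]) ↔ a ∈ cyl l ∧ a l.length = d := by
  simp only [cyl, Set.mem_ofPred_eq, List.length_append, List.length_singleton, pre_succ]
  constructor
  · intro h
    have := List.append_inj h (by simp)
    exact ⟨this.1, by simpa using this.2⟩
  · rintro ⟨h1, h2⟩
    rw [h1, h2]

lemma cyl_append_subset (l l' : List Dir) : cyl (l ++ l') ⊆ cyl l := by
  induction l' using List.reverseRecOn with
  | nil => simp
  | append_singleton l' d ih =>
    intro a ha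
    rw [← List.append_assoc] at ha
    exact ih (mem_cyl_snoc.1 ha).1

lemma apply_of_mem_cyl {a : ℕ → Dir} {l l' : List Dir} {d : Dir}
    (h : a ∈ cyl (l ++ d :: l')) : a l.length = d := by
  have : a ∈ cyl ((l ++ [d]) ++ l') := by simpa using h
  exact (mem_cyl_snoc.1 (cyl_append_subset _ _ this)).2

lemma measurableSet_cyl [MeasurableSpace Dir] [DiscreteMeasurableSpace Dir] (l : List Dir) : MeasurableSet (cyl l) := by
  induction l using List.reverseRecOn with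
  | nil => simp
  | append_singleton l d ih =>
    have : cyl (l ++ [d]) = cyl l ∩ (fun a : ℕ → Dir => a l.length) ⁻¹' {d} := by
      ext a; simp [mem_cyl_snoc]
    rw [this]
    exact ih.inter (measurable_pi_apply _ (measurableSet_singleton _))

lemma pre_add (a : ℕ → Dir) (n k : ℕ) : ∃ τ, pre a (n + k) = pre a n ++ τ ∧ τ.length = k := by
  induction k with
  | zero => exact ⟨[], by simp, rfl⟩
  | succ k ih =>
    obtain ⟨τ, h, hl⟩ := ih
    exact ⟨τ ++ [a (n + k)], by rw [← add_assoc, pre_succ, h, List.append_assoc], by simp [hl]⟩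

lemma list_trichotomy (γ γ' : List Dir) : (∃ τ, γ' = γ ++ τ) ∨ (∃ τ, γ = γ' ++ τ) ∨
    ∃ π d d' τ τ', d ≠ d' ∧ γ = π ++ d :: τ ∧ γ' = π ++ d' :: τ' := by
  induction γ generalizing γ' with
  | nil => exact Or.inl ⟨γ', by simp⟩
  | cons d γ ih =>
    cases γ' with
    | nil => exact Or.inr (Or.inl ⟨d :: γ, by simp⟩)
    | cons d' γ' =>
      by_cases h : d = d'
      · subst h
        rcases ih γ' with ⟨τ, h⟩ | ⟨τ, h⟩ | ⟨π, e, e', τ, τ', h1, h2, h3⟩
        · exact Or.inl ⟨τ, by simp [h]⟩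
        · exact Or.inr (Or.inl ⟨τ, by simp [h]⟩)
        · exact Or.inr (Or.inr ⟨d :: π, e, e', τ, τ', h1, by simp [h2], by simp [h3]⟩)
      · exact Or.inr (Or.inr ⟨[], d, d', γ, γ', h, by simp, by simp⟩)

lemma comparable_of_mem_cyl {a : ℕ → Dir} {γ γ' : List Dir} (h : a ∈ cyl γ) (h' : a ∈ cyl γ') :
    (∃ τ, γ' = γ ++ τ) ∨ (∃ τ, γ = γ' ++ τ) := by
  rcases list_trichotomy γ γ' with h1 | h1 | ⟨π, d, d', τ, τ', h1, rfl, rfl⟩
  · exact Or.inl h1
  · exact Or.inr h1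
  · exact absurd ((apply_of_mem_cyl h).symm.trans (apply_of_mem_cyl h')) h1

section Paths
variable [AddCommGroup Pt] [DecidableEq Pt] (vec : Dir → Pt)

/-- Total displacement of a list of steps. -/
def disp (γ : List Dir) : Pt := (γ.map vec).sum

/-- The steps made at site `z` by the path with start `x` and steps `γ`, in order. -/
def exits : Pt → List Dir → Pt → List Dir
  | _, [], _ => []
  | x, d :: γ, z => (if x = z then [d] else []) ++ exits (x + vec d) γ z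

/-- The sites from which the path makes a step. -/
def pts : Pt → List Dir → Finset Pt
  | _, [] => ∅
  | x, d :: γ => insert x (pts (x + vec d) γ)

/-- The configurations of arrows that make a walker started at `x` follow `γ`. -/
def Fol (x : Pt) (γ : List Dir) : Set (Pt → ℕ → Dir) := {a | ∀ z, a z ∈ cyl (exits vec x γ z)}

/-- The averaged probability of a path. -/
noncomputable def wt [MeasurableSpace Dir] (ν : Measure (ℕ → Dir)) (x : Pt) (γ : List Dir) : ℝ≥0∞ :=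
  ∏ z ∈ pts vec x γ, ν (cyl (exits vec x γ z))

@[simp] lemma disp_nil : disp vec [] = 0 := by simp [disp]
@[simp] lemma disp_cons (d : Dir) (γ : List Dir) : disp vec (d :: γ) = vec d + disp vec γ := by
  simp [disp]
@[simp] lemma disp_append (γ δ : List Dir) : disp vec (γ ++ δ) = disp vec γ + disp vec δ := by
  simp [disp]
@[simp] lemma exits_nil (x z : Pt) : exits vec x [] z = [] := rfl
lemma exits_cons (x z : Pt) (d : Dir) (γ : List Dir) :
    exits vec x (d :: γ) z = (if x = z then [d] else []) ++ exits vec (x + vec d) γ z := rfl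
@[simp] lemma pts_nil (x : Pt) : pts vec x [] = ∅ := rfl
lemma pts_cons (x : Pt) (d : Dir) (γ : List Dir) :
    pts vec x (d :: γ) = insert x (pts vec (x + vec d) γ) := rfl

lemma exits_append (x z : Pt) (γ δ : List Dir) :
    exits vec x (γ ++ δ) z = exits vec x γ z ++ exits vec (x + disp vec γ) δ z := by
  induction γ generalizing x with
  | nil => simp
  | cons d γ ih => simp [exits_cons, ih, add_assoc]

lemma pts_append (x : Pt) (γ δ : List Dir) :
    pts vec x (γ ++ δ) = pts vec x γ ∪ pts vec (x + disp vec γ) δ := by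
  induction γ generalizing x with
  | nil => simp
  | cons d γ ih => simp [pts_cons, ih, add_assoc]

lemma exits_eq_nil_iff {x z : Pt} {γ : List Dir} : exits vec x γ z = [] ↔ z ∉ pts vec x γ := by
  induction γ generalizing x with
  | nil => simp
  | cons d γ ih =>
    rw [exits_cons, pts_cons, List.append_eq_nil_iff, ih, Finset.mem_insert]
    by_cases h : x = z
    · simp [h]
    · simp [h, Ne.symm h]

lemma mem_pts_iff {x u : Pt} {γ : List Dir} :
    u ∈ pts vec x γ ↔ ∃ α d β, γ = α ++ d :: β ∧ u = x + disp vec α := by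
  induction γ generalizing x with
  | nil => simp
  | cons d γ ih =>
    rw [pts_cons, Finset.mem_insert, ih]
    constructor
    · rintro (rfl | ⟨α, e, β, rfl, rfl⟩)
      · exact ⟨[], d, γ, by simp, by simp⟩
      · exact ⟨d :: α, e, β, by simp, by simp [add_assoc]⟩
    · rintro ⟨α, e, β, h, rfl⟩
      cases α with
      | nil => left; simp
      | cons d' α =>
        simp only [List.cons_append, List.cons.injEq] at h
        obtain ⟨rfl, rfl⟩ := h
        right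
        exact ⟨α, e, β, rfl, by simp [add_assoc]⟩

lemma mem_pts_shift {x u : Pt} {γ : List Dir} : u ∈ pts vec x γ ↔ u - x ∈ pts vec 0 γ := by
  simp only [mem_pts_iff, zero_add, sub_eq_iff_eq_add']

lemma exits_map (g : Pt → Pt) (vec' : Dir → Pt) (hg : Function.Injective g)
    (h : ∀ x d, g (x + vec d) = g x + vec' d) (x z : Pt) (γ : List Dir) :
    exits vec' (g x) γ (g z) = exits vec x γ z := by
  induction γ generalizing x with
  | nil => simp
  | cons d γ ih => rw [exits_cons, exits_cons, ← h, ih]; simp [hg.eq_iff]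

lemma pts_map (g : Pt → Pt) (vec' : Dir → Pt)
    (h : ∀ x d, g (x + vec d) = g x + vec' d) (x : Pt) (γ : List Dir) :
    pts vec' (g x) γ = (pts vec x γ).image g := by
  induction γ generalizing x with
  | nil => simp
  | cons d γ ih => rw [pts_cons, pts_cons, ← h, ih]; simp

variable [MeasurableSpace Dir]

lemma wt_map (ν : Measure (ℕ → Dir)) (g : Pt → Pt) (vec' : Dir → Pt) (hg : Function.Injective g)
    (h : ∀ x d, g (x + vec d) = g x + vec' d) (x : Pt) (γ : List Dir) :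
    wt vec' ν (g x) γ = wt vec ν x γ := by
  unfold wt
  rw [pts_map vec g vec' h, Finset.prod_image (fun a _ b _ hab => hg hab)]
  simp only [exits_map vec g vec' hg h]

lemma wt_shift (ν : Measure (ℕ → Dir)) (x : Pt) (γ : List Dir) :
    wt vec ν x γ = wt vec ν 0 γ := by
  have := wt_map vec ν (fun z => z + x) vec (add_left_injective x) (fun z d => by abel) 0 γ
  simpa using this

variable [DiscreteMeasurableSpace Dir] (ν : Measure (ℕ → Dir)) [IsProbabilityMeasure ν]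

lemma wt_eq_prod {x : Pt} {γ : List Dir} {T : Finset Pt} (hT : pts vec x γ ⊆ T) :
    wt vec ν x γ = ∏ z ∈ T, ν (cyl (exits vec x γ z)) := by
  unfold wt
  refine Finset.prod_subset hT fun z _ hz => ?_
  rw [(exits_eq_nil_iff vec).2 hz]; simp

omit [IsProbabilityMeasure ν] in
@[simp] lemma wt_nil (x : Pt) : wt vec ν x [] = 1 := by simp [wt]

lemma Fol_eq_pi (x : Pt) (γ : List Dir) :
    Fol vec x γ = Set.pi (pts vec x γ : Set Pt) (fun z => cyl (exits vec x γ z)) := by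
  ext a
  simp only [Fol, Set.mem_ofPred_eq, Set.mem_pi, Finset.mem_coe]
  refine ⟨fun h z _ => h z, fun h z => ?_⟩
  by_cases hz : z ∈ pts vec x γ
  · exact h z hz
  · rw [(exits_eq_nil_iff vec).2 hz]; simp

lemma measurableSet_Fol (x : Pt) (γ : List Dir) : MeasurableSet (Fol vec x γ) := by
  rw [Fol_eq_pi]
  exact MeasurableSet.pi (Finset.countable_toSet _) fun z _ => measurableSet_cyl _

/-- The product law of the arrows. -/
noncomputable def arrows (Pt : Type) : Measure (Pt → ℕ → Dir) := Measure.infinitePi fun _ : Pt => ν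

instance : IsProbabilityMeasure (arrows ν Pt) := by unfold arrows; infer_instance

lemma arrows_Fol (x : Pt) (γ : List Dir) : arrows ν Pt (Fol vec x γ) = wt vec ν x γ := by
  rw [Fol_eq_pi, arrows, Measure.infinitePi_pi _ (fun z _ => measurableSet_cyl _)]
  rfl

lemma wt_append_of_disjoint {x : Pt} {γ δ : List Dir}
    (h : Disjoint (pts vec x γ) (pts vec (x + disp vec γ) δ)) :
    wt vec ν x (γ ++ δ) = wt vec ν x γ * wt vec ν (x + disp vec γ) δ := by
  unfold wt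
  rw [pts_append, Finset.prod_union h]
  congr 1
  · refine Finset.prod_congr rfl fun z hz => ?_
    rw [exits_append, (exits_eq_nil_iff vec).2 (Finset.disjoint_left.1 h hz)]; simp
  · refine Finset.prod_congr rfl fun z hz => ?_
    rw [exits_append, (exits_eq_nil_iff vec).2 (Finset.disjoint_right.1 h hz)]; simp

lemma wt_snoc_ge {κ : ℝ≥0∞} (hκ : ∀ l d, κ * ν (cyl l) ≤ ν (cyl (l ++ [d])))
    (x : Pt) (γ : List Dir) (d : Dir) : κ * wt vec ν x γ ≤ wt vec ν x (γ ++ [d]) := by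
  have h1 : pts vec x γ ⊆ pts vec x (γ ++ [d]) := by rw [pts_append]; exact Finset.subset_union_left
  have h2 : x + disp vec γ ∈ pts vec x (γ ++ [d]) := by rw [pts_append]; simp [pts_cons]
  rw [wt_eq_prod vec ν h1]
  unfold wt
  rw [← Finset.mul_prod_erase _ _ h2, ← Finset.mul_prod_erase _ _ h2, ← mul_assoc]
  refine mul_le_mul' ?_ (le_of_eq (Finset.prod_congr rfl fun z hz => ?_))
  · rw [exits_append]; simpa [exits_cons] using hκ _ d
  · rw [exits_append]; simp [exits_cons, (Finset.ne_of_mem_erase hz).symm]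

lemma wt_append_ge {κ : ℝ≥0∞} (hκ : ∀ l d, κ * ν (cyl l) ≤ ν (cyl (l ++ [d])))
    (x : Pt) (γ δ : List Dir) : κ ^ δ.length * wt vec ν x γ ≤ wt vec ν x (γ ++ δ) := by
  induction δ using List.reverseRecOn with
  | nil => simp
  | append_singleton δ d ih =>
    rw [← List.append_assoc]
    refine le_trans ?_ (wt_snoc_ge vec ν hκ x _ d)
    simp only [List.length_append, List.length_singleton, pow_succ', mul_assoc]
    gcongr

omit [IsProbabilityMeasure ν] in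
lemma cyl_ge {κ : ℝ≥0∞} (hκ : ∀ l d, κ * ν (cyl l) ≤ ν (cyl (l ++ [d])))
    (l l' : List Dir) : κ ^ l'.length * ν (cyl l) ≤ ν (cyl (l ++ l')) := by
  induction l' using List.reverseRecOn with
  | nil => simp
  | append_singleton δ d ih =>
    rw [← List.append_assoc]
    refine le_trans ?_ (hκ _ d)
    simp only [List.length_append, List.length_singleton, pow_succ', mul_assoc]
    gcongr

lemma Fol_append_subset (x : Pt) (γ δ : List Dir) : Fol vec x (γ ++ δ) ⊆ Fol vec x γ := by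
  intro a ha z
  have := ha z
  rw [exits_append] at this
  exact cyl_append_subset _ _ this

lemma comparable_of_mem_Fol {a : Pt → ℕ → Dir} {x : Pt} {γ γ' : List Dir}
    (h : a ∈ Fol vec x γ) (h' : a ∈ Fol vec x γ') :
    (∃ τ, γ' = γ ++ τ) ∨ (∃ τ, γ = γ' ++ τ) := by
  rcases list_trichotomy γ γ' with h1 | h1 | ⟨π, d, d', τ, τ', h1, rfl, rfl⟩
  · exact Or.inl h1
  · exact Or.inr h1
  · exfalso
    have e1 := h (x + disp vec π)
    have e2 := h' (x + disp vec π)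
    rw [exits_append, exits_cons] at e1 e2
    simp only [if_true, List.singleton_append] at e1 e2
    exact h1 ((apply_of_mem_cyl e1).symm.trans (apply_of_mem_cyl e2))

/-- The weight of a family of paths none of which extends another. -/
lemma arrows_iUnion {ι : Type} [Countable ι] (x : Pt) (γ : ι → List Dir)
    (h : ∀ i j τ, γ j = γ i ++ τ → i = j) :
    arrows ν Pt (⋃ i, Fol vec x (γ i)) = ∑' i, wt vec ν 0 (γ i) := by
  rw [measure_iUnion _ (fun i => measurableSet_Fol vec x _)]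
  · simp only [arrows_Fol, wt_shift vec ν x]
  · intro i j hij
    refine Set.disjoint_left.2 fun a ha hb => hij ?_
    rcases comparable_of_mem_Fol vec ha hb with ⟨τ, e⟩ | ⟨τ, e⟩
    · exact h _ _ _ e
    · exact (h _ _ _ e).symm

lemma tsum_wt_le_one {ι : Type} [Countable ι] (γ : ι → List Dir)
    (h : ∀ i j τ, γ j = γ i ++ τ → i = j) : ∑' i, wt vec ν 0 (γ i) ≤ 1 := by
  rw [← arrows_iUnion vec ν 0 γ h]; exact prob_le_one

/-- `E` depends only on the stacks at the sites of `V`. -/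
def DetOn (V : Finset Pt) (E : Set (Pt → ℕ → Dir)) : Prop :=
  ∀ a a', (∀ z ∈ V, a' z = a z) → a ∈ E → a' ∈ E

omit [IsProbabilityMeasure ν] in
lemma detOn_Fol (x : Pt) (γ : List Dir) : DetOn (pts vec x γ) (Fol vec x γ) := by
  intro a a' h ha
  rw [Fol_eq_pi] at ha ⊢
  intro z hz
  rw [h z hz]
  exact ha z hz

lemma DetOn.mono {V V' : Finset Pt} {E : Set (Pt → ℕ → Dir)} (h : DetOn V E) (hV : V ⊆ V') :
    DetOn V' E := fun a a' h1 h2 => h a a' (fun z hz => h1 z (hV hz)) h2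

lemma DetOn.inter {V V' : Finset Pt} {E E' : Set (Pt → ℕ → Dir)} (h : DetOn V E)
    (h' : DetOn V' E') : DetOn (V ∪ V') (E ∩ E') := fun a a' h1 h2 =>
  ⟨h a a' (fun z hz => h1 z (Finset.mem_union_left _ hz)) h2.1,
    h' a a' (fun z hz => h1 z (Finset.mem_union_right _ hz)) h2.2⟩

lemma detOn_univ (V : Finset Pt) : DetOn V (Set.univ : Set (Pt → ℕ → Dir)) :=
  fun _ _ _ _ => trivial

/-- Events that depend on disjoint finite sets of sites are independent. -/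
lemma arrows_inter {V V' : Finset Pt} {E E' : Set (Pt → ℕ → Dir)} (hV : Disjoint V V')
    (hE : MeasurableSet E) (hE' : MeasurableSet E') (h : DetOn V E) (h' : DetOn V' E') :
    arrows ν Pt (E ∩ E') = arrows ν Pt E * arrows ν Pt E' := by
  obtain ⟨a₀⟩ : Nonempty (Pt → ℕ → Dir) := (arrows ν Pt).nonempty_of_neZero
  have hi : iIndepFun (fun (z : Pt) (a : Pt → ℕ → Dir) => a z) (arrows ν Pt) :=
    iIndepFun_infinitePi (X := fun _ x => x) fun _ => measurable_id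
  have h1 := hi.indepFun_finset V V' hV fun z => measurable_pi_apply z
  have key : ∀ (T : Finset Pt) (A : Set (Pt → ℕ → Dir)), MeasurableSet A → DetOn T A →
      ∃ B : Set (T → ℕ → Dir), MeasurableSet B ∧
        A = (fun (a : Pt → ℕ → Dir) (i : T) => a i) ⁻¹' B := by
    intro T A hA hT
    let g : (T → ℕ → Dir) → Pt → ℕ → Dir := fun b z => if hz : z ∈ T then b ⟨z, hz⟩ else a₀ z
    have hg : Measurable g := by
      refine measurable_pi_lambda _ fun z => ?_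
      by_cases hz : z ∈ T
      · simp only [g, hz, dite_true]; exact measurable_pi_apply _
      · simp only [g, hz, dite_false]; exact measurable_const
    refine ⟨g ⁻¹' A, hg hA, ?_⟩
    ext a
    simp only [Set.mem_preimage]
    exact ⟨hT _ _ fun z hz => by simp [g, hz], hT _ _ fun z hz => by simp [g, hz]⟩
  obtain ⟨B, hB, rfl⟩ := key V E hE h
  obtain ⟨B', hB', rfl⟩ := key V' E' hE' h'
  exact h1.measure_inter_preimage_eq_mul B B' hB hB'

lemma arrows_inter_Fol {V : Finset Pt} {E : Set (Pt → ℕ → Dir)} (hE : MeasurableSet E)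
    (h : DetOn V E) {x : Pt} {γ : List Dir} (hV : Disjoint V (pts vec x γ)) :
    arrows ν Pt (E ∩ Fol vec x γ) = arrows ν Pt E * wt vec ν 0 γ := by
  rw [arrows_inter ν hV hE (measurableSet_Fol vec x γ) h (detOn_Fol vec x γ), arrows_Fol,
    wt_shift]

omit [IsProbabilityMeasure ν] in
lemma exits_shift (x t z : Pt) (γ : List Dir) :
    exits vec (x + t) γ (z + t) = exits vec x γ z :=
  exits_map vec (fun z => z + t) vec (add_left_injective t) (fun z d => by abel) x z γ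

lemma arrows_Fol_inter (x y : Pt) (γ δ : List Dir) {T : Finset Pt} (h1 : pts vec x γ ⊆ T)
    (h2 : pts vec y δ ⊆ T) : arrows ν Pt (Fol vec x γ ∩ Fol vec y δ) =
      ∏ z ∈ T, ν (cyl (exits vec x γ z) ∩ cyl (exits vec y δ z)) := by
  have : Fol vec x γ ∩ Fol vec y δ =
      Set.pi (T : Set Pt) fun z => cyl (exits vec x γ z) ∩ cyl (exits vec y δ z) := by
    ext a
    simp only [Fol, Set.mem_inter_iff, Set.mem_ofPred_eq, Set.mem_pi, Finset.mem_coe]
    refine ⟨fun h z _ => ⟨h.1 z, h.2 z⟩, fun h => ⟨fun z => ?_, fun z => ?_⟩⟩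
    · by_cases hz : z ∈ T
      · exact (h z hz).1
      · rw [(exits_eq_nil_iff vec).2 fun h' => hz (h1 h')]; simp
    · by_cases hz : z ∈ T
      · exact (h z hz).2
      · rw [(exits_eq_nil_iff vec).2 fun h' => hz (h2 h')]; simp
  rw [this, arrows, Measure.infinitePi_pi _
    (fun z _ => (measurableSet_cyl _).inter (measurableSet_cyl _))]

/-- Translation invariance for two walkers. -/
lemma arrows_shift (x y t : Pt) (γ δ : List Dir) :
    arrows ν Pt (Fol vec (x + t) γ ∩ Fol vec (y + t) δ) =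
      arrows ν Pt (Fol vec x γ ∩ Fol vec y δ) := by
  have hp : ∀ x γ, pts vec (x + t) γ = (pts vec x γ).image fun z => z + t := fun x γ =>
    pts_map vec (fun z => z + t) vec (fun z d => by abel) x γ
  rw [arrows_Fol_inter vec ν x y γ δ Finset.subset_union_left Finset.subset_union_right,
    arrows_Fol_inter vec ν (x + t) (y + t) γ δ
      (T := (pts vec x γ ∪ pts vec y δ).image fun z => z + t)
      (by rw [hp]; exact Finset.image_subset_image Finset.subset_union_left)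
      (by rw [hp]; exact Finset.image_subset_image Finset.subset_union_right),
    Finset.prod_image fun a _ b _ hab => add_left_injective t hab]
  simp only [exits_shift]

omit [IsProbabilityMeasure ν] in
/-- A path in two pieces that use different sites. -/
lemma Fol_append_of_disjoint {x : Pt} {γ δ : List Dir}
    (h : Disjoint (pts vec x γ) (pts vec (x + disp vec γ) δ)) :
    Fol vec x (γ ++ δ) = Fol vec x γ ∩ Fol vec (x + disp vec γ) δ := by
  ext a
  simp only [Fol, Set.mem_inter_iff, Set.mem_ofPred_eq, exits_append]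
  constructor
  · intro ha
    refine ⟨fun z => cyl_append_subset _ _ (ha z), fun z => ?_⟩
    by_cases hz : z ∈ pts vec x γ
    · rw [(exits_eq_nil_iff vec).2 (Finset.disjoint_left.1 h hz)]; simp
    · have := ha z
      rwa [(exits_eq_nil_iff vec).2 hz, List.nil_append] at this
  · rintro ⟨h1, h2⟩ z
    by_cases hz : z ∈ pts vec x γ
    · rw [(exits_eq_nil_iff vec).2 (Finset.disjoint_left.1 h hz), List.append_nil]; exact h1 z
    · rw [(exits_eq_nil_iff vec).2 hz, List.nil_append]; exact h2 z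

omit [IsProbabilityMeasure ν] in
lemma mem_pts_iff_pf {x u : Pt} {γ : List Dir} :
    u ∈ pts vec x γ ↔ ∃ α, α <+: γ ∧ α ≠ γ ∧ u = x + disp vec α := by
  rw [mem_pts_iff]
  constructor
  · rintro ⟨α, d, β, rfl, rfl⟩
    exact ⟨α, ⟨_, rfl⟩, by simp, rfl⟩
  · rintro ⟨α, ⟨τ, rfl⟩, h, rfl⟩
    cases τ with
    | nil => simp at h
    | cons d β => exact ⟨α, d, β, rfl, rfl⟩

omit [IsProbabilityMeasure ν] in
lemma card_pts_le (x : Pt) (γ : List Dir) : (pts vec x γ).card ≤ γ.length := by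
  induction γ generalizing x with
  | nil => simp
  | cons d γ ih =>
    rw [pts_cons, List.length_cons]
    exact (Finset.card_insert_le _ _).trans (Nat.succ_le_succ (ih _))

omit [IsProbabilityMeasure ν] in
lemma pf_or_pf_of_mem_Fol {a : Pt → ℕ → Dir} {x : Pt} {γ γ' : List Dir}
    (h : a ∈ Fol vec x γ) (h' : a ∈ Fol vec x γ') : γ <+: γ' ∨ γ' <+: γ := by
  rcases comparable_of_mem_Fol vec h h' with ⟨τ, e⟩ | ⟨τ, e⟩
  · exact Or.inl ⟨τ, e.symm⟩
  · exact Or.inr ⟨τ, e.symm⟩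

end Paths

end Pool.Agent.MP_db8016_pr.BZ

end

section

/-! The model, the families of paths and the statements that are passed between the files. -/

namespace Pool.Agent.MP_db8016_pr.BZ
open MeasureTheory ProbabilityTheory Filter
open scoped ENNReal

/-- Steps, the law of a stack of arrows and a level function. -/
structure Mod where
  D : Type
  Pt : Type
  [fin : Fintype D]
  [ms : MeasurableSpace D]
  [dm : DiscreteMeasurableSpace D]
  [grp : AddCommGroup Pt]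
  [dec : DecidableEq Pt]
  [cnt : Countable Pt]
  vec : D → Pt
  ν : Measure (ℕ → D)
  [prob : IsProbabilityMeasure ν]
  κ : ℝ≥0∞
  hκ : κ ≠ 0
  uel : ∀ l d, κ * ν (cyl l) ≤ ν (cyl (l ++ [d]))
  L : Pt →+ ℝ
  hL : ∀ d, |L (vec d)| ≤ 1
  u : D
  hu : L (vec u) = 1
  v : D
  hv : vec v = -vec u

attribute [instance] Mod.fin Mod.ms Mod.dm Mod.grp Mod.dec Mod.cnt Mod.prob

/-- No member of the family extends another one. -/
def PF {α : Type} (G : Set (List α)) : Prop := ∀ γ ∈ G, ∀ γ' ∈ G, γ <+: γ' → γ = γ'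

/-- The averaging operator of the weights `q`. -/
noncomputable def op {Pt : Type} [AddCommGroup Pt] (q F : Pt → ℝ≥0∞) (x : Pt) : ℝ≥0∞ :=
  ∑' v, q v * F (x + v)

/-- A sum over `R` points in the direction `h`. -/
noncomputable def seg {Pt : Type} [AddCommGroup Pt] (c : ℝ≥0∞) (R : ℕ) (h : Pt)
    (F : Pt → ℝ≥0∞) (x : Pt) : ℝ≥0∞ :=
  c * ∑ s ∈ Finset.range R, F (x + s • h)

namespace Mod
variable (M : Mod)

/-- The same model with the opposite level. -/
def neg : Mod :=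
  { M with
    L := -M.L
    hL := fun d => by simpa using M.hL d
    u := M.v
    hu := by simp [M.hv, M.hu]
    v := M.u
    hv := by simp [M.hv] }

/-- Displacement. -/
def ds (γ : List M.D) : M.Pt := disp M.vec γ
/-- Level of the end point. -/
def lv (γ : List M.D) : ℝ := M.L (M.ds γ)
/-- Probability of a path. -/
noncomputable def w (γ : List M.D) : ℝ≥0∞ := wt M.vec M.ν 0 γ
/-- The law of the arrows. -/
noncomputable def P : Measure (M.Pt → ℕ → M.D) := arrows M.ν M.Pt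
/-- The walker from `x` follows `γ`. -/
def F (x : M.Pt) (γ : List M.D) : Set (M.Pt → ℕ → M.D) := Fol M.vec x γ
/-- Total probability of a family of paths. -/
noncomputable def sm (G : Set (List M.D)) : ℝ≥0∞ := ∑' γ, G.indicator M.w γ

instance : IsProbabilityMeasure M.P := by unfold P; infer_instance

/-- The path never goes below its start. -/
def NN (γ : List M.D) : Prop := ∀ α, α <+: γ → 0 ≤ M.lv α
/-- The path ends at a strict record. -/
def Rc (γ : List M.D) : Prop := ∀ α, α <+: γ → α ≠ γ → M.lv α < M.lv γ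
/-- From a lowest point to a strict record. -/
def Up (γ : List M.D) : Prop := M.NN γ ∧ M.Rc γ
/-- An irreducible piece. -/
def Irr (γ : List M.D) : Prop :=
  M.Up γ ∧ γ ≠ [] ∧ ∀ α β, γ = α ++ β → M.Up α → M.Up β → α = [] ∨ β = []
/-- First passage of the height `h` without going below the start. -/
def Cross (h : ℝ) (γ : List M.D) : Prop :=
  M.NN γ ∧ h ≤ M.lv γ ∧ ∀ α, α <+: γ → α ≠ γ → M.lv α < h
/-- The path stays above `0` and above `φ - N`. -/
def HH (φ : ℕ → ℝ) (N : ℝ) (γ : List M.D) : Prop :=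
  ∀ α, α <+: γ → 0 ≤ M.lv α ∧ φ α.length - N ≤ M.lv α
/-- The path begins with `n` irreducible pieces. -/
def Cuts : ℕ → List M.D → Prop
  | 0, γ => M.Up γ
  | n + 1, γ => ∃ π γ', M.Irr π ∧ Cuts n γ' ∧ γ = π ++ γ'
/-- The path from `y` stays in the levels `[0, h)` and ends below `0`. -/
def Dn (y : M.Pt) (δ : List M.D) (h : ℝ) : Prop :=
  (∀ α, α <+: δ → α ≠ δ → 0 ≤ M.L (y + M.ds α) ∧ M.L (y + M.ds α) < h) ∧ M.L (y + M.ds δ) < 0

open Classical in
/-- The kernel of a window. -/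
noncomputable def Qk (G : Set (List M.D)) (z z' : M.Pt) : ℝ≥0∞ :=
  ∑' γ, ∑' δ, if γ ∈ G ∧ M.Dn (M.ds γ + z) δ (M.lv γ) ∧ M.ds γ + z + M.ds δ = z' then
    M.P (M.F 0 γ ∩ M.F (M.ds γ + z) δ) else 0

open Classical in
/-- The total weight of a window. -/
noncomputable def Tot (G : Set (List M.D)) (z : M.Pt) : ℝ≥0∞ :=
  ∑' γ, ∑' δ, if γ ∈ G ∧ M.Dn (M.ds γ + z) δ (M.lv γ) then
    M.P (M.F 0 γ ∩ M.F (M.ds γ + z) δ) else 0

/-- Concatenations. -/
def Cat (A G : Set (List M.D)) : Set (List M.D) := {ζ | ∃ γ' ∈ A, ∃ γ ∈ G, ζ = γ' ++ γ}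

/-- Weights that live on the levels `[-1, 0)`. -/
def Slab (s : M.Pt → ℝ≥0∞) : Prop := ∀ z, s z ≠ 0 → -1 ≤ M.L z ∧ M.L z < 0

open Classical in
/-- The density seen from the start of the second walker. -/
noncomputable def Yf (G : Set (List M.D)) (s : M.Pt → ℝ≥0∞) (T : Set M.Pt)
    (a : M.Pt → ℕ → M.D) : ℝ≥0∞ :=
  ∑' x, ∑' γ, if x ∈ T ∧ γ ∈ G then s (-(x + M.ds γ)) * (M.F x γ).indicator 1 a else 0

open Classical in
/-- The mean of `Yf`. -/
noncomputable def yb (G : Set (List M.D)) (s : M.Pt → ℝ≥0∞) (T : Set M.Pt) : ℝ≥0∞ :=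
  ∑' x, ∑' γ, if x ∈ T ∧ γ ∈ G then s (-(x + M.ds γ)) * M.w γ else 0

/-- The walker from the origin reaches a level in `[k, k')` and no higher one before it goes
below `0`. -/
def Turn (k k' : ℝ) : Set (M.Pt → ℕ → M.D) :=
  {a | ∃ Γ, a ∈ M.F 0 Γ ∧ (∀ α, α <+: Γ → α ≠ Γ → 0 ≤ M.lv α) ∧ M.lv Γ < 0 ∧
    (∃ α, α <+: Γ ∧ k ≤ M.lv α) ∧ ∀ α, α <+: Γ → M.lv α < k'}

/-- Short irreducible pieces in `d` independent directions. -/
def Pcs (d : ℕ) : Prop := ∃ h : Fin d → M.Pt,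
  Function.Injective (fun s : Fin d → ℤ => ∑ j, s j • h j) ∧ (∀ j, |M.L (h j)| ≤ 1) ∧
  (∃ j, h j = M.vec M.u) ∧ ∀ j, ∃ π, M.Irr π ∧ M.ds π = M.vec M.u + h j ∧ π.length ≤ 4

/-- The moment bound of a window. -/
def Mom (G : Set (List M.D)) (s : M.Pt → ℝ≥0∞) (χ : ℝ≥0∞) : Prop :=
  ∀ (T : Set M.Pt) (k : ℕ),
    ∫⁻ a, M.Yf G s T a ^ k ∂M.P ≤ ∏ i ∈ Finset.range k, (M.yb G s T + i * χ)

/-- The conclusion of the window lemma. -/
def WL : Prop := ∃ (ρ : ℝ) (c : ℝ≥0∞) (G : ℕ → Set (List M.D)), 0 < ρ ∧ c ≠ 0 ∧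
  (∀ (w : ℕ) γ, γ ∈ G w → M.Cross w γ) ∧ ∀ A : ℝ, ∃ w₀ : ℕ, ∀ w, w₀ ≤ w →
    ∀ s : M.Pt → ℝ≥0∞, M.Slab s → ∑' z, s z = 1 →
      (∀ z, s z ≤ ENNReal.ofReal (A * (w : ℝ) ^ (-ρ))) →
      ∃ s' : M.Pt → ℝ≥0∞, (∀ z', s' z' ≤ ∑' z, s z * M.Qk (G w) z z') ∧ M.Slab s' ∧
        c ≤ ∑' z, s' z ∧ ∑' z, s' z ≤ 1 ∧ ∀ z, s' z ≤ ENNReal.ofReal ((w : ℝ) ^ (-ρ))

/-- Many points of the slab are reached by short paths that stay above `0`. -/
def Init : Prop := ∀ N : ℕ, ∃ (Z : Finset M.Pt) (R : ℕ), N ≤ Z.card ∧ ∀ z ∈ Z,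
  (-1 ≤ M.L z ∧ M.L z < 0) ∧ ∃ lam, M.ds lam = z ∧ lam.length ≤ R ∧
    ∀ α, α <+: lam → α ≠ lam → 0 ≤ M.lv α

/-- The anti-concentration bound. -/
def AC (d : ℕ) : Prop := ∀ η : ℝ≥0∞, η ≠ 0 → ∃ (C : ℝ) (n₀ : ℕ), ∀ n, n₀ ≤ n →
  ∀ (h : ℝ) (S : Finset M.Pt), M.sm {γ | M.Cross h γ ∧ M.Cuts n γ ∧ M.ds γ ∈ S} ≤
    η + ENNReal.ofReal (C * (n : ℝ) ^ (-((d : ℝ) - 1) / 2)) * S.card

/-! ### Basic facts -/

@[simp] lemma ds_nil : M.ds [] = 0 := disp_nil _
@[simp] lemma ds_append (γ δ : List M.D) : M.ds (γ ++ δ) = M.ds γ + M.ds δ := disp_append _ _ _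
@[simp] lemma ds_cons (d : M.D) (γ : List M.D) : M.ds (d :: γ) = M.vec d + M.ds γ :=
  disp_cons _ _ _
@[simp] lemma lv_nil : M.lv [] = 0 := by simp [lv]
@[simp] lemma lv_append (γ δ : List M.D) : M.lv (γ ++ δ) = M.lv γ + M.lv δ := by simp [lv]
@[simp] lemma lv_cons (d : M.D) (γ : List M.D) : M.lv (d :: γ) = M.L (M.vec d) + M.lv γ := by
  simp [lv]
@[simp] lemma w_nil : M.w [] = 1 := wt_nil _ _ _
lemma neg_ds : M.neg.ds = M.ds := rfl
lemma neg_w : M.neg.w = M.w := rfl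
lemma neg_sm : M.neg.sm = M.sm := rfl
lemma neg_lv (γ : List M.D) : M.neg.lv γ = -M.lv γ := rfl
lemma L_v : M.L (M.vec M.v) = -1 := by simp [M.hv, M.hu]

lemma abs_lv_le (γ : List M.D) : |M.lv γ| ≤ γ.length := by
  induction γ with
  | nil => simp
  | cons d γ ih =>
    rw [lv_cons, List.length_cons, Nat.cast_succ]
    linarith [abs_add_le (M.L (M.vec d)) (M.lv γ), M.hL d]

lemma κ_le_one : M.κ ≤ 1 := by
  have := M.uel [] M.u
  rw [cyl_nil, measure_univ, mul_one] at this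
  exact this.trans prob_le_one

lemma P_F (x : M.Pt) (γ : List M.D) : M.P (M.F x γ) = M.w γ := by
  rw [P, F, arrows_Fol, wt_shift]; rfl

lemma measurableSet_F (x : M.Pt) (γ : List M.D) : MeasurableSet (M.F x γ) :=
  measurableSet_Fol _ _ _

lemma w_le_one (γ : List M.D) : M.w γ ≤ 1 := by rw [← M.P_F 0]; exact prob_le_one

lemma w_append_ge (γ δ : List M.D) : M.κ ^ δ.length * M.w γ ≤ M.w (γ ++ δ) :=
  wt_append_ge _ _ M.uel _ _ _

lemma w_append_le (γ δ : List M.D) : M.w (γ ++ δ) ≤ M.w γ := by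
  rw [← M.P_F 0, ← M.P_F 0]
  exact measure_mono (Fol_append_subset _ _ _ _)

lemma mem_pts {x z : M.Pt} {γ : List M.D} :
    z ∈ pts M.vec x γ ↔ ∃ α, α <+: γ ∧ α ≠ γ ∧ z = x + M.ds α := mem_pts_iff_pf _

variable {M}

lemma disjoint_pts {γ δ : List M.D} (h : M.Rc γ) (h' : M.NN δ) (x : M.Pt) :
    Disjoint (pts M.vec x γ) (pts M.vec (x + M.ds γ) δ) := by
  refine Finset.disjoint_left.2 fun z h1 h2 => ?_
  obtain ⟨α, a1, a2, rfl⟩ := M.mem_pts.1 h1
  obtain ⟨β, b1, -, e⟩ := M.mem_pts.1 h2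
  have h3 := h α a1 a2
  have h4 := h' β b1
  have h5 := congrArg M.L e
  simp only [map_add] at h5
  unfold lv at h3 h4
  linarith

lemma w_append {γ δ : List M.D} (h : M.Rc γ) (h' : M.NN δ) : M.w (γ ++ δ) = M.w γ * M.w δ := by
  unfold w
  rw [wt_append_of_disjoint _ _ (disjoint_pts h h' 0), wt_shift _ _ (0 + _)]

lemma pf_append_cases {α : Type} {a γ δ : List α} (h : a <+: γ ++ δ) :
    (a <+: γ ∧ a ≠ γ) ∨ ∃ β, β <+: δ ∧ a = γ ++ β := by
  rcases List.prefix_or_prefix_of_prefix h (List.prefix_append γ δ) with h1 | ⟨β, rfl⟩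
  · by_cases e : a = γ
    · exact Or.inr ⟨[], List.nil_prefix, by simp [e]⟩
    · exact Or.inl ⟨h1, e⟩
  · exact Or.inr ⟨β, (List.prefix_append_right_inj γ).1 h, rfl⟩

lemma up_nil : M.Up [] :=
  ⟨fun α h => by rw [List.prefix_nil.1 h]; simp, fun α h h' => absurd (List.prefix_nil.1 h) h'⟩

lemma NN.append {γ δ : List M.D} (h : M.NN γ) (h' : M.NN δ) : M.NN (γ ++ δ) := by
  intro α hα
  rcases pf_append_cases hα with ⟨h1, -⟩ | ⟨β, h1, rfl⟩
  · exact h α h1
  · rw [lv_append]; exact add_nonneg (h γ List.prefix_rfl) (h' β h1)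

lemma Up.append {γ δ : List M.D} (h : M.Up γ) (h' : M.Up δ) : M.Up (γ ++ δ) := by
  refine ⟨h.1.append h'.1, fun α hα hne => ?_⟩
  rw [lv_append]
  rcases pf_append_cases hα with ⟨h1, h2⟩ | ⟨β, h1, rfl⟩
  · linarith [h.2 α h1 h2, h'.1 δ List.prefix_rfl]
  · rw [lv_append]
    linarith [h'.2 β h1 fun e => hne (by rw [e])]

lemma NN.of_pf {γ α : List M.D} (h : M.NN γ) (hα : α <+: γ) : M.NN α :=
  fun β hβ => h β (hβ.trans hα)

lemma Rc.of_append {γ δ : List M.D} (h : M.Rc (γ ++ δ)) : M.Rc δ := by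
  intro β hβ hne
  have := h (γ ++ β) ((List.prefix_append_right_inj γ).2 hβ) (by simpa using hne)
  simpa using this

lemma Cross.up {h : ℝ} {γ : List M.D} (hγ : M.Cross h γ) : M.Up γ :=
  ⟨hγ.1, fun α h1 h2 => (hγ.2.2 α h1 h2).trans_le hγ.2.1⟩

lemma Cross.lv_lt {h : ℝ} {γ : List M.D} (hγ : M.Cross h γ) (h0 : 0 ≤ h) : M.lv γ < h + 1 := by
  induction γ using List.reverseRecOn with
  | nil => simp; linarith
  | append_singleton γ d _ =>
    have h1 := hγ.2.2 γ (List.prefix_append _ _) (by simp)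
    have h2 := (abs_le.1 (M.hL d)).2
    simp only [lv_append, lv_cons, lv_nil]
    linarith

lemma pf_cross (M : Mod) (h : ℝ) : PF {γ | M.Cross h γ} := by
  intro γ h1 γ' h2 h3
  by_contra e
  exact absurd (h2.2.2 γ h3 e) (not_lt.2 h1.2.1)

lemma _root_.Pool.Agent.MP_db8016_pr.BZ.PF.mono {α : Type} {G G' : Set (List α)} (h : PF G')
    (hG : G ⊆ G') : PF G := fun γ h1 γ' h2 => h γ (hG h1) γ' (hG h2)

lemma HH.of_pf {φ : ℕ → ℝ} {N : ℝ} {γ α : List M.D} (h : M.HH φ N γ) (hα : α <+: γ) :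
    M.HH φ N α := fun β hβ => h β (hβ.trans hα)

lemma HH.nn {φ : ℕ → ℝ} {N : ℝ} {γ : List M.D} (h : M.HH φ N γ) : M.NN γ :=
  fun α hα => (h α hα).1

lemma HH.mono {φ : ℕ → ℝ} {N N' : ℝ} {γ : List M.D} (h : M.HH φ N γ) (hN : N ≤ N') :
    M.HH φ N' γ := fun α hα => ⟨(h α hα).1, by linarith [(h α hα).2]⟩

lemma HH.append {φ : ℕ → ℝ} (hφ : ∀ m n, φ (m + n) ≤ φ m + φ n) {N N' : ℝ} (hN : 0 ≤ N')
    {γ δ : List M.D} (h : M.HH φ N γ) (h' : M.HH φ N' δ) : M.HH φ (N + N') (γ ++ δ) := by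
  intro α hα
  refine ⟨h.nn.append h'.nn α hα, ?_⟩
  rcases pf_append_cases hα with ⟨h1, -⟩ | ⟨β, h1, rfl⟩
  · linarith [(h α h1).2]
  · rw [lv_append, List.length_append]
    linarith [(h γ List.prefix_rfl).2, (h' β h1).2, hφ γ.length β.length]

lemma sm_mono {G G' : Set (List M.D)} (h : G ⊆ G') : M.sm G ≤ M.sm G' :=
  ENNReal.tsum_le_tsum fun γ => Set.indicator_le_indicator_of_subset h (fun _ => zero_le) γ

lemma sm_eq_tsum (G : Set (List M.D)) : M.sm G = ∑' γ : G, M.w γ := (tsum_subtype G M.w).symm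

/-- The probability that the walker follows a member of the family. -/
lemma P_iUnion {G : Set (List M.D)} (h : PF G) (x : M.Pt) :
    M.P (⋃ γ ∈ G, M.F x γ) = M.sm G := by
  rw [sm_eq_tsum, Set.biUnion_eq_iUnion]
  exact arrows_iUnion M.vec M.ν x (fun γ : G => (γ : List M.D)) fun i j τ e =>
    Subtype.ext (h _ i.2 _ j.2 ⟨τ, e.symm⟩)

lemma sm_le_one {G : Set (List M.D)} (h : PF G) : M.sm G ≤ 1 := by
  rw [← P_iUnion h 0]; exact prob_le_one

/-- An injective family of paths in `G` weighs at most `sm G`. -/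
lemma tsum_le_sm {ι : Type} {G : Set (List M.D)} (f : ι → List M.D) (hf : Function.Injective f)
    (hG : ∀ i, f i ∈ G) : ∑' i, M.w (f i) ≤ M.sm G := by
  refine le_trans (le_of_eq ?_) (ENNReal.tsum_comp_le_tsum_of_injective hf (G.indicator M.w))
  exact tsum_congr fun i => (Set.indicator_of_mem (hG i) _).symm

/-- A family that covers `G` weighs at least `sm G`. -/
lemma sm_le_tsum {ι : Type} {G : Set (List M.D)} (f : ι → List M.D)
    (hG : ∀ γ ∈ G, ∃ i, f i = γ) : M.sm G ≤ ∑' i, M.w (f i) := by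
  rw [sm_eq_tsum]
  choose g hg using hG
  refine le_trans (le_of_eq ?_) (ENNReal.tsum_comp_le_tsum_of_injective
    (f := fun γ : G => g γ γ.2) (fun a b e => Subtype.ext ?_) fun i => M.w (f i))
  · exact tsum_congr fun γ => by rw [hg]
  · rw [← hg a a.2, ← hg b b.2]
    exact congrArg f e

lemma eq_of_mem_F {G : Set (List M.D)} (h : PF G) {a : M.Pt → ℕ → M.D} {x : M.Pt}
    {γ γ' : List M.D} (h1 : γ ∈ G) (h2 : γ' ∈ G) (ha : a ∈ M.F x γ) (ha' : a ∈ M.F x γ') :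
    γ = γ' := by
  rcases pf_or_pf_of_mem_Fol _ ha ha' with e | e
  · exact h _ h1 _ h2 e
  · exact (h _ h2 _ h1 e).symm

lemma pf_dn (M : Mod) (y : M.Pt) : PF {δ | ∃ h, M.Dn y δ h} := by
  rintro δ ⟨h, h1⟩ δ' ⟨h', h2⟩ h3
  by_contra e
  exact absurd (h2.1 δ h3 e).1 (not_le.2 h1.2)

end Mod

/-! ### The statements -/

def S_Rec : Prop := ∀ (M : Mod) (t : ℝ),
  M.sm {δ | M.Rc δ ∧ t ≤ M.lv δ ∧ M.lv δ < t + 1} ≤ M.κ⁻¹

def S_W : Prop := ∀ (M : Mod) (p : ℝ≥0∞), p ≠ 0 → (∀ h : ℝ, p ≤ M.sm {γ | M.Cross h γ}) →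
  M.sm {γ | M.Irr γ} ≤ 1

def S_Thin : Prop := ∀ (M : Mod) (φ : ℕ → ℝ) (N N' : ℝ) (p : ℝ≥0∞) (w cap : ℕ),
  (∀ m n, φ (m + n) ≤ φ m + φ n) → 0 ≤ N' →
  (∀ h : ℝ, p ≤ M.sm {γ | M.Cross h γ ∧ M.HH φ N γ}) →
  (∀ n : ℕ, φ n - (N + N') ≤ 2 * w + 1 → n ≤ cap) → ∀ t : ℝ,
  w * p * M.sm {α | M.HH φ N' α ∧ M.lv α < w ∧ t ≤ M.lv α ∧ M.lv α < t + 2} ≤ 3 * (cap + 1)

def S_Good : Prop := ∀ (M : Mod) (φ : ℕ → ℝ) (N : ℝ) (p : ℝ≥0∞) (w n : ℕ),
  (∀ m n, φ (m + n) ≤ φ m + φ n) → 0 ≤ N →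
  (∀ h : ℝ, p ≤ M.sm {γ | M.Cross h γ ∧ M.HH φ N γ}) → 1 ≤ w → 2 * n ≤ p ^ 2 * w →
  p ^ 2 / 2 ≤ M.sm {γ | M.Cross ((w : ℝ) + 1) γ ∧ M.HH φ (N + N) γ ∧ M.Cuts n γ}

def S_Blk : Prop := ∀ (Pt : Type) [AddCommGroup Pt] (q : Pt → ℝ≥0∞) (ε η : ℝ≥0∞) (g h : Pt),
  ε ≠ 0 → η ≠ 0 → h ≠ 0 → ∑' v, q v ≤ 1 → ε ≤ q g → ε ≤ q (g + h) →
  ∃ (C : ℝ) (m₀ : ℕ), 0 < C ∧ ∀ m, m₀ ≤ m → ∃ (ρ : Pt → ℝ≥0∞) (R : ℕ),
    ∑' v, ρ v ≤ 1 ∧ (R : ℝ) ≤ C * √m ∧ ∀ F : Pt → ℝ≥0∞, (∀ x, F x ≤ 1) → ∀ x,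
      (op q)^[m] F x ≤ η + op ρ (seg (ENNReal.ofReal (C / √m)) R h F) x

def S_RW : Prop := ∀ (Pt : Type) [AddCommGroup Pt] (L : Pt →+ ℝ) (d : ℕ) (q : Pt → ℝ≥0∞)
  (ε : ℝ≥0∞) (g : Pt) (h : Fin d → Pt), 1 ≤ d → ε ≠ 0 → ∑' v, q v ≤ 1 → ε ≤ q g →
  (∀ j, ε ≤ q (g + h j)) → Function.Injective (fun s : Fin d → ℤ => ∑ j, s j • h j) →
  (∀ j, |L (h j)| ≤ 1) → ∀ η : ℝ≥0∞, η ≠ 0 → ∃ (C : ℝ) (n₀ : ℕ), 0 ≤ C ∧ ∀ n, n₀ ≤ n →
    ∀ (Ψ : Pt → ℝ≥0∞) (B : ℝ≥0∞), (∀ v, Ψ v ≤ 1) →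
      (∀ t : ℝ, ∑' v, {v | t ≤ L v ∧ L v < t + 1}.indicator Ψ v ≤ B) →
      (op q)^[n] Ψ 0 ≤ η + ENNReal.ofReal (C * (n : ℝ) ^ (-((d : ℝ) - 1) / 2)) * B

def S_AC : Prop := ∀ (M : Mod) (d : ℕ), M.Pcs d → M.sm {γ | M.Irr γ} ≤ 1 → M.AC d

def S_Mom : Prop := ∀ (M : Mod) (G H : Set (List M.D)) (s : M.Pt → ℝ≥0∞) (w : ℝ) (cap : ℕ)
  (lam g : ℝ≥0∞), 0 ≤ w →
  (∀ γ ∈ G, M.Cross w γ ∧ γ.length ≤ cap ∧ ∀ α, α <+: γ → α ∈ H) →
  (∀ t : ℝ, M.sm {α | α ∈ H ∧ M.lv α < w ∧ t ≤ M.lv α ∧ M.lv α < t + 2} ≤ g) →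
  M.Slab s → (∀ z, s z ≤ lam) → M.Mom G s (cap * (lam * g))

def S_Mass : Prop := ∀ (M : Mod) (G : Set (List M.D)) (s : M.Pt → ℝ≥0∞) (w : ℝ)
  (χ p β : ℝ≥0∞), 1 ≤ w → (∀ γ ∈ G, M.Cross w γ) → M.Slab s → ∑' z, s z = 1 → M.Mom G s χ →
  p ≤ M.sm G → β ≤ M.neg.sm {δ | M.neg.Cross (w + 2) δ} → 8 * χ ≤ p * β →
  p * β / 4 ≤ ∑' z', ∑' z, s z * M.Qk G z z'

/-- Row sums and support of the kernel. -/
def S_Row : Prop := ∀ (M : Mod) (G : Set (List M.D)) (w : ℝ), 1 ≤ w → (∀ γ ∈ G, M.Cross w γ) →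
  (∀ z, ∑' z', M.Qk G z z' ≤ 1) ∧
  ∀ z z', -1 ≤ M.L z → M.Qk G z z' ≠ 0 → -1 ≤ M.L z' ∧ M.L z' < 0

def S_Set : Prop := ∀ (M : Mod) (G : Set (List M.D)) (s : M.Pt → ℝ≥0∞) (w : ℝ)
  (χ y t : ℝ≥0∞) (S : Finset M.Pt) (k : ℕ), 1 ≤ w → (∀ γ ∈ G, M.Cross w γ) → M.Slab s →
  ∑' z, s z = 1 → M.Mom G s χ →
  (∀ S' : Finset M.Pt, S'.card ≤ S.card → M.sm {γ | γ ∈ G ∧ M.ds γ ∈ S'} ≤ y) →
  t ≠ 0 → t ≠ ⊤ → 2 * (y + k * χ) ≤ t →
  ∑ z' ∈ S, ∑' z, s z * M.Qk G z z' ≤ 4 * M.κ⁻¹ * t + S.card * 2⁻¹ ^ k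

def S_Trim : Prop := ∀ (Pt : Type) (s : Pt → ℝ≥0∞) (m c : ℝ≥0∞) (N : ℕ), 1 ≤ N →
  ∑' z, s z ≤ 1 → c + m ≤ ∑' z, s z → (∀ S : Finset Pt, S.card ≤ N → ∑ z ∈ S, s z ≤ m) →
  ∃ s' : Pt → ℝ≥0∞, (∀ z, s' z ≤ s z) ∧ c ≤ ∑' z, s' z ∧ ∀ z, s' z ≤ (N : ℝ≥0∞)⁻¹

def S_Comp : Prop := ∀ (M : Mod) (A G : Set (List M.D)) (z : M.Pt), PF A → (∀ γ ∈ A, M.Up γ) →
  (∀ γ ∈ G, M.Up γ) → ∑' z', M.Qk G z z' * M.Tot A z' ≤ M.Tot (M.Cat A G) z

/-- The abelian property of two walkers. -/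
def S_Ab : Prop := ∀ (M : Mod) (a : M.Pt → ℕ → M.D) (x y : M.Pt) (γ δ : List M.D),
  a ∈ M.F x γ → a ∈ M.F y δ → x + M.ds γ ∉ pts M.vec y δ → y + M.ds δ ∉ pts M.vec x γ →
  x + M.ds γ ≠ y + M.ds δ → ∃ δ', M.ds δ' = M.ds δ ∧ pts M.vec y δ' ⊆ pts M.vec y δ ∧
    ∀ z, a z ∈ cyl (exits M.vec x γ z ++ exits M.vec y δ' z)

def S_Fin : Prop := ∀ (M : Mod) (A : Set (List M.D)) (k k' : ℝ) (lam : List M.D), PF A →
  (∀ γ ∈ A, M.Up γ ∧ k ≤ M.lv γ ∧ M.lv γ < k') → M.lv lam < 0 →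
  (∀ α, α <+: lam → α ≠ lam → 0 ≤ M.lv α) →
  M.κ ^ lam.length * M.Tot A (M.ds lam) ≤ M.P (M.Turn k (k' + lam.length))

def S_Turn : Prop := ∀ (M : Mod), (∀ k k', MeasurableSet (M.Turn k k')) ∧
  ∀ k₁ k₂ k₃ k₄ : ℝ, k₂ ≤ k₃ → Disjoint (M.Turn k₁ k₂) (M.Turn k₃ k₄)

def S_WL : Prop := ∀ (M : Mod) (d : ℕ) (φ : ℕ → ℝ) (N b : ℝ) (p β : ℝ≥0∞),
  (∀ m n, φ (m + n) ≤ φ m + φ n) → 0 ≤ N → 1 ≤ b → 2 * b - 1 < ((d : ℝ) - 1) / 2 →
  (∀ N' : ℝ, ∃ C : ℝ, ∀ w : ℕ, 1 ≤ w → ∀ n : ℕ, φ n - N' ≤ 2 * w + 1 → (n : ℝ) ≤ C * (w : ℝ) ^ b) →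
  p ≠ 0 → (∀ h : ℝ, p ≤ M.sm {γ | M.Cross h γ ∧ M.HH φ N γ}) →
  β ≠ 0 → (∀ h : ℝ, β ≤ M.neg.sm {δ | M.neg.Cross h δ}) → M.AC d → M.WL

def S_Init : Prop := ∀ (M : Mod) (d : ℕ), 2 ≤ d → M.Pcs d → M.Init

def S_Core : Prop := ∀ M : Mod, M.WL → M.Init → False

def S_Fast : Prop := ∀ (M : Mod) (S : Measure (ℕ → M.D)) [IsProbabilityMeasure S] (φ : ℕ → ℝ),
  (∀ γ, S (cyl γ) = M.w γ) → (∀ m n, φ (m + n) ≤ φ m + φ n) → Tendsto φ atTop atTop →
  S {e | ∀ᶠ n in atTop, φ n ≤ M.lv (pre e n)} ≠ 0 →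
  ∃ (N : ℝ) (p : ℝ≥0∞), 0 ≤ N ∧ p ≠ 0 ∧ ∀ h : ℝ, p ≤ M.sm {γ | M.Cross h γ ∧ M.HH φ N γ}

def S_Back : Prop := ∀ (M : Mod) (S : Measure (ℕ → M.D)) [IsProbabilityMeasure S],
  (∀ γ, S (cyl γ) = M.w γ) → S {e | Tendsto (fun n => M.lv (pre e n)) atTop atTop} ≠ 0 →
  S {e | Tendsto (fun n => M.lv (pre e n)) atTop atTop} ≠ 1 →
  ∃ β : ℝ≥0∞, β ≠ 0 ∧ ∀ h : ℝ, β ≤ M.neg.sm {δ | M.neg.Cross h δ}

/-- The law of a stack of arrows. -/
def S_Nu : Prop := ∀ (d : ℕ) (μ : Measure ((Fin d → ℤ) → Fin d × Bool → ℕ → ℝ))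
  [IsProbabilityMeasure μ], 0 < d →
  iIndepFun (fun (z : Fin d → ℤ) (ω : (Fin d → ℤ) → Fin d × Bool → ℕ → ℝ) => ω z) μ →
  (∀ z, IdentDistrib (fun ω : (Fin d → ℤ) → Fin d × Bool → ℕ → ℝ => ω z) (fun ω => ω 0) μ μ) →
  (∀ᵐ ω ∂μ, ∀ z i, ∑ e, ω z e i = 1) → ∀ κ : ℝ, 0 < κ → (∀ᵐ ω ∂μ, ∀ z e i, κ ≤ ω z e i) →
  ∃ ν : Measure (ℕ → Fin d × Bool), IsProbabilityMeasure ν ∧
    (∀ l e, ENNReal.ofReal κ * ν (cyl l) ≤ ν (cyl (l ++ [e]))) ∧
    ∀ e n, wt HD.step ν 0 (pre e n) =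
      ∫⁻ ω, ENNReal.ofReal (∏ i ∈ Finset.range n, ω (HD.pos e i) (e i) (HD.visits e i)) ∂μ

/-- The law of the step sequence. -/
def S_Law : Prop := ∀ (d : ℕ) (ν : Measure (ℕ → Fin d × Bool)) [IsProbabilityMeasure ν]
  (P₀ : Measure (ℕ → Fin d → ℤ)) [IsProbabilityMeasure P₀], 0 < d →
  (∀ e n, P₀ {X | ∀ i ≤ n, X i = HD.pos e i} = wt HD.step ν 0 (pre e n)) →
  ∃ S : Measure (ℕ → Fin d × Bool), IsProbabilityMeasure S ∧
    (∀ γ, S (cyl γ) = wt HD.step ν 0 γ) ∧ ∀ A : Set (ℕ → Fin d → ℤ), MeasurableSet A →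
      P₀ A = S {e | (fun n => disp HD.step (pre e n)) ∈ A}

/-- Levels and short pieces in the lattice. -/
def S_Pcs : Prop := ∀ (d : ℕ) (ν : Measure (ℕ → Fin d × Bool)) [IsProbabilityMeasure ν]
  (κ : ℝ≥0∞) (hκ : κ ≠ 0) (uel : ∀ l e, κ * ν (cyl l) ≤ ν (cyl (l ++ [e])))
  (l : Fin d → ℝ), l ≠ 0 → ∃ (c : ℝ) (L : (Fin d → ℤ) →+ ℝ) (hL : ∀ e, |L (HD.step e)| ≤ 1)
    (u : Fin d × Bool) (hu : L (HD.step u) = 1) (v : Fin d × Bool)
    (hv : HD.step v = -HD.step u), 0 < c ∧ (∀ z, ∑ j, (z j : ℝ) * l j = c * L z) ∧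
    Mod.Pcs ⟨Fin d × Bool, Fin d → ℤ, HD.step, ν, κ, hκ, uel, L, hL, u, hu, v, hv⟩ d

end Pool.Agent.MP_db8016_pr.BZ

end

section

/-! Crossing paths with many irreducible pieces have a large weight. -/

namespace Pool.Agent.MP_db8016_pr.BZ
open scoped ENNReal

namespace GoodAux
variable {M : Mod}

lemma split : ∀ (k : ℕ) (γ : List M.D), γ.length = k → M.Up γ → γ ≠ [] →
    ∃ π γ', M.Irr π ∧ M.Up γ' ∧ γ = π ++ γ' := by
  intro k
  induction k using Nat.strong_induction_on with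
  | _ k ih =>
  intro γ hk h hne
  by_cases hi : M.Irr γ
  · exact ⟨γ, [], hi, Mod.up_nil, by simp⟩
  have h1 : ¬ ∀ α β, γ = α ++ β → M.Up α → M.Up β → α = [] ∨ β = [] := fun h1 => hi ⟨h, hne, h1⟩
  push Not at h1
  obtain ⟨α, β, rfl, a1, b1, a2, b2⟩ := h1
  obtain ⟨π, r, p1, r1, rfl⟩ := ih _ (by
    rw [← hk, List.length_append]
    exact Nat.lt_add_of_pos_right (List.length_pos_iff.2 b2)) α rfl a1 a2
  exact ⟨π, r ++ β, p1, r1.append b1, List.append_assoc _ _ _⟩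

lemma cuts_snoc {β : List M.D} (hβ : M.Up β) (hne : β ≠ []) :
    ∀ (n : ℕ) (α : List M.D), M.Cuts n α → M.Cuts (n + 1) (α ++ β)
  | 0, α, h => split _ _ rfl (Mod.Up.append h hβ) (by simp [hne])
  | n + 1, _, ⟨π, α, h1, h2, rfl⟩ =>
    ⟨π, α ++ β, h1, cuts_snoc hβ hne n α h2, List.append_assoc _ _ _⟩

/-- The first passage of the height `y` is a cut. -/
def Ct (M : Mod) (y : ℕ) (γ : List M.D) : Prop :=
  ∃ α β, γ = α ++ β ∧ M.Cross y α ∧ M.NN β

lemma cuts_of (Y : Finset ℕ) : ∀ γ : List M.D, M.Up γ →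
    (∀ y ∈ Y, (y : ℝ) + 1 ≤ M.lv γ ∧ Ct M y γ) → M.Cuts Y.card γ := by
  induction Y using Finset.induction_on_max with
  | empty => exact fun γ h _ => h
  | insert a s ha ih =>
    intro γ h hY
    obtain ⟨h1, α, β, rfl, h2, h3⟩ := hY a (Finset.mem_insert_self _ _)
    rw [Finset.card_insert_of_notMem fun h => lt_irrefl _ (ha a h)]
    refine cuts_snoc ⟨h3, h.2.of_append⟩ ?_ _ _ (ih α h2.up fun y hy => ?_)
    · rintro rfl
      rw [List.append_nil] at h1
      exact absurd (h2.lv_lt (Nat.cast_nonneg a)) (not_lt.2 h1)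
    have h4 : (y : ℝ) + 1 ≤ a := by exact_mod_cast ha y hy
    refine ⟨h4.trans h2.2.1, ?_⟩
    obtain ⟨-, α', β', e, h5, h6⟩ := hY y (Finset.mem_insert_of_mem hy)
    have h7 : α' <+: α := by
      rcases List.prefix_or_prefix_of_prefix (List.prefix_append α β) ⟨β', e.symm⟩ with h8 | h8
      · by_cases h9 : α = α'
        · exact h9 ▸ List.prefix_rfl
        · linarith [h5.2.2 α h8 h9, h2.2.1]
      · exact h8
    obtain ⟨τ, rfl⟩ := h7
    rw [List.append_assoc, List.append_cancel_left_eq] at e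
    exact ⟨α', τ, rfl, h5, h6.of_pf ⟨β, e⟩⟩

lemma one_level {φ : ℕ → ℝ} {N : ℝ} {p : ℝ≥0∞} (hφ : ∀ m n, φ (m + n) ≤ φ m + φ n) (hN : 0 ≤ N)
    (hp : ∀ h : ℝ, p ≤ M.sm {γ | M.Cross h γ ∧ M.HH φ N γ}) {y : ℕ} {h : ℝ} (hy : y ≤ h) :
    p ^ 2 ≤ M.sm {γ | (M.Cross h γ ∧ M.HH φ (N + N) γ) ∧ Ct M y γ} := by
  refine le_trans ?_ (Mod.tsum_le_sm (ι := Σ α : {γ | M.Cross y γ ∧ M.HH φ N γ},
    {γ | M.Cross (h - M.lv α) γ ∧ M.HH φ N γ}) (fun q => q.1.1 ++ q.2.1) ?_ ?_)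
  · rw [ENNReal.tsum_sigma', sq]
    refine le_trans (mul_le_mul_left (hp y) p) ?_
    rw [Mod.sm_eq_tsum, ← ENNReal.tsum_mul_right]
    refine ENNReal.tsum_le_tsum fun α => le_trans (mul_le_mul_right (hp (h - M.lv α)) _) ?_
    rw [Mod.sm_eq_tsum, ← ENNReal.tsum_mul_left]
    exact ENNReal.tsum_le_tsum fun β => (Mod.w_append α.2.1.up.2 β.2.1.1).ge
  · rintro ⟨⟨α, a⟩, β, b⟩ ⟨⟨α', a'⟩, β', b'⟩ e
    obtain rfl : α = α' := by
      rcases List.prefix_or_prefix_of_prefix (List.prefix_append α β) ⟨β', e.symm⟩ with h1 | h1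
      · exact M.pf_cross y _ a.1 _ a'.1 h1
      · exact (M.pf_cross y _ a'.1 _ a.1 h1).symm
    obtain rfl : β = β' := List.append_cancel_left e
    rfl
  · rintro ⟨⟨α, a⟩, β, b⟩
    refine ⟨⟨⟨a.1.1.append b.1.1, ?_, fun δ h1 h2 => ?_⟩, a.2.append hφ hN b.2⟩, α, β, rfl, a.1,
      b.1.1⟩
    · rw [Mod.lv_append]
      linarith [b.1.2.1]
    · rcases Mod.pf_append_cases h1 with ⟨h3, h4⟩ | ⟨τ, h3, rfl⟩
      · exact (a.1.2.2 δ h3 h4).trans_le hy
      · rw [Mod.lv_append]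
        linarith [b.1.2.2 τ h3 fun e => h2 (by rw [e])]

end GoodAux

open GoodAux in
theorem s_good : S_Good := by
  classical
  intro M φ N p w n hφ hN hp hw hn
  set G := {γ | M.Cross ((w : ℝ) + 1) γ ∧ M.HH φ (N + N) γ ∧ M.Cuts n γ}
  let G₀ := {γ | M.Cross ((w : ℝ) + 1) γ ∧ M.HH φ (N + N) γ}
  have hpt : ∀ γ, ∑ y ∈ Finset.range w, {γ | γ ∈ G₀ ∧ Ct M y γ}.indicator M.w γ ≤
      w * G.indicator M.w γ + n * G₀.indicator M.w γ := by
    intro γ
    by_cases h0 : γ ∈ G₀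
    · simp only [Set.indicator_apply, Set.mem_ofPred_eq, h0, true_and, if_true]
      rw [← Finset.sum_filter, Finset.sum_const, nsmul_eq_mul]
      split_ifs with h1
      · refine le_add_right (mul_le_mul_left (Nat.cast_le.2 ?_) _)
        exact (Finset.card_filter_le _ _).trans_eq (Finset.card_range w)
      · refine le_add_left (mul_le_mul_left (Nat.cast_le.2 (not_lt.1 fun h2 => h1 ?_)) _)
        obtain ⟨Y, h3, rfl⟩ := Finset.exists_subset_card_eq h2.le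
        refine ⟨h0.1, h0.2, cuts_of Y γ h0.1.up fun y hy => ?_⟩
        obtain ⟨h4, h5⟩ := Finset.mem_filter.1 (h3 hy)
        have h6 : (y : ℝ) ≤ w := Nat.cast_le.2 (Finset.mem_range.1 h4).le
        exact ⟨by linarith [h0.1.2.1], h5⟩
    · simp [Set.indicator_apply, h0]
  have h1 : w * p ^ 2 ≤ w * M.sm G + n := by
    calc w * p ^ 2 = ∑ _y ∈ Finset.range w, p ^ 2 := by simp
      _ ≤ ∑ y ∈ Finset.range w, M.sm {γ | γ ∈ G₀ ∧ Ct M y γ} :=
        Finset.sum_le_sum fun y hy => one_level hφ hN hp (by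
          have : (y : ℝ) ≤ w := Nat.cast_le.2 (Finset.mem_range.1 hy).le
          linarith)
      _ ≤ w * M.sm G + n * M.sm G₀ := by
        simp only [Mod.sm]
        rw [← Summable.tsum_finsetSum fun _ _ => ENNReal.summable, ← ENNReal.tsum_mul_left,
          ← ENNReal.tsum_mul_left, ← ENNReal.tsum_add]
        exact ENNReal.tsum_le_tsum hpt
      _ ≤ w * M.sm G + n := by
        gcongr
        exact mul_le_of_le_one_right' (Mod.sm_le_one ((M.pf_cross _).mono fun _ h => h.1))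
  have h2 : p ≤ 1 := (hp 0).trans (Mod.sm_le_one ((M.pf_cross _).mono fun _ h => h.1))
  have h3 : w * p ^ 2 ≠ ⊤ :=
    ENNReal.mul_ne_top (by simp) (ENNReal.pow_ne_top (ne_top_of_le_ne_top (by simp) h2))
  have h4 : w * p ^ 2 + w * p ^ 2 ≤ w * (M.sm G * 2) + w * p ^ 2 := by
    calc w * p ^ 2 + w * p ^ 2 ≤ (w * M.sm G + n) + (w * M.sm G + n) := add_le_add h1 h1
      _ = w * (M.sm G * 2) + 2 * n := by ring
      _ ≤ _ := by rw [mul_comm _ (p ^ 2)]; gcongr
  rw [ENNReal.add_le_add_iff_right h3,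
    ENNReal.mul_le_mul_iff_right (by simpa using Nat.one_le_iff_ne_zero.1 hw) (by simp)] at h4
  exact ENNReal.div_le_of_le_mul h4

end Pool.Agent.MP_db8016_pr.BZ

end

section

/-! The law of a stack of arrows. -/

namespace Pool.Agent.MP_db8016_pr.BZ
open MeasureTheory ProbabilityTheory Filter
open scoped ENNReal

namespace NuAux

section
variable {D : Type} [Inhabited D]

/-- The weight of a list of exits for a stack of cookies. -/
noncomputable def cw (b : D → ℕ → ℝ) (l : List D) : ℝ≥0∞ :=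
  ∏ i ∈ Finset.range l.length, ENNReal.ofReal (b (l.getD i default) i)

@[simp] lemma cw_nil (b : D → ℕ → ℝ) : cw b [] = 1 := by simp [cw]

lemma cw_snoc (b : D → ℕ → ℝ) (l : List D) (d : D) :
    cw b (l ++ [d]) = cw b l * ENNReal.ofReal (b d l.length) := by
  unfold cw
  rw [List.length_append, List.length_singleton, Finset.prod_range_succ]
  congr 1
  · refine Finset.prod_congr rfl fun i hi => ?_
    rw [List.getD_append _ _ _ _ (Finset.mem_range.1 hi)]
  · simp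

lemma measurable_cw (l : List D) : Measurable fun b => cw b l := by
  unfold cw
  refine Finset.measurable_prod _ fun i _ => ENNReal.measurable_ofReal.comp ?_
  exact (measurable_pi_apply i).comp (measurable_pi_apply _)

/-- The direction chosen by a uniform variable. -/
noncomputable def pick : List D → (D → ℝ) → ℝ → D
  | [], _, _ => default
  | e :: l, a, u => if u < a e then e else pick l a (u - a e)

lemma pick_iff {a : D → ℝ} (h0 : ∀ d, 0 ≤ a d) (l : List D) (hl : l.Nodup) (d : D) : ∃ x, ∀ u,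
    (pick l a u = d ∧ 0 ≤ u ∧ u < (l.map a).sum) ↔ (d ∈ l ∧ x ≤ u ∧ u < x + a d) := by
  induction l with
  | nil => exact ⟨0, fun u => ⟨fun h => absurd h.2.2 (not_lt.2 h.2.1), fun h => by simp at h⟩⟩
  | cons e l ih =>
    obtain ⟨h1, h2⟩ := List.nodup_cons.1 hl
    obtain ⟨x, hx⟩ := ih h2
    have h3 : 0 ≤ (l.map a).sum := List.sum_nonneg fun y hy => by
      obtain ⟨z, -, rfl⟩ := List.mem_map.1 hy
      exact h0 z
    have h4 := h0 e
    simp only [pick, List.map_cons, List.sum_cons, List.mem_cons]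
    by_cases h : d = e
    · subst h
      refine ⟨0, fun u => ⟨fun ⟨h5, h6, h7⟩ => ⟨Or.inl rfl, h6, ?_⟩,
        fun ⟨_, h6, h7⟩ => ⟨if_pos (by linarith), h6, by linarith⟩⟩⟩
      by_contra h8
      rw [if_neg (by linarith)] at h5
      exact h1 ((hx _).1 ⟨h5, by linarith, by linarith⟩).1
    · refine ⟨x + a e, fun u => ⟨fun ⟨h5, h6, h7⟩ => ?_, fun ⟨h5, h6, h7⟩ => ?_⟩⟩
      · split_ifs at h5 with h8
        · exact absurd h5.symm h
        · obtain ⟨h9, h10, h11⟩ := (hx _).1 ⟨h5, by linarith, by linarith⟩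
          exact ⟨Or.inr h9, by linarith, by linarith⟩
      · obtain ⟨h9, h10, h11⟩ := (hx (u - a e)).2 ⟨h5.resolve_left h, by linarith, by linarith⟩
        exact ⟨(if_neg (by linarith)).trans h9, by linarith, by linarith⟩

lemma mem_cyl_iff {a : ℕ → D} {l : List D} :
    a ∈ cyl l ↔ ∀ i < l.length, a i = l.getD i default := by
  induction l using List.reverseRecOn with
  | nil => simp
  | append_singleton l d ih =>
    rw [mem_cyl_snoc, ih, List.length_append, List.length_singleton]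
    constructor
    · rintro ⟨h1, h2⟩ i hi
      rcases Nat.lt_succ_iff_lt_or_eq.1 hi with h | rfl
      · rw [List.getD_append _ _ _ _ h]; exact h1 i h
      · simpa using h2
    · intro h
      refine ⟨fun i hi => ?_, by simpa using h l.length (by omega)⟩
      rw [h i (by omega), List.getD_append _ _ _ _ hi]

variable [MeasurableSpace D] [DiscreteMeasurableSpace D]

omit [DiscreteMeasurableSpace D] in
lemma measurable_pick (l : List D) : Measurable fun x : (D → ℝ) × ℝ => pick l x.1 x.2 := by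
  induction l with
  | nil => exact measurable_const
  | cons e l ih =>
    exact Measurable.ite (measurableSet_lt (by fun_prop) (by fun_prop)) measurable_const
      (ih.comp (f := fun x : (D → ℝ) × ℝ => (x.1, x.2 - x.1 e)) (by fun_prop))

/-- The uniform law. -/
noncomputable def lam : Measure ℝ := volume.restrict (Set.Ico 0 1)

instance : IsProbabilityMeasure lam := ⟨by simp [lam]⟩

lemma measurableSet_pick (l : List D) (a : D → ℝ) (d : D) : MeasurableSet {u | pick l a u = d} :=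
  ((measurable_pick l).comp (measurable_const.prodMk measurable_id)) (measurableSet_singleton d)

variable [Fintype D]

lemma lam_pick {a : D → ℝ} (h0 : ∀ d, 0 ≤ a d) (h1 : ∑ d, a d = 1) (d : D) :
    lam {u | pick Finset.univ.toList a u = d} = ENNReal.ofReal (a d) := by
  rw [lam, Measure.restrict_apply (measurableSet_pick _ a d)]
  obtain ⟨x, hx⟩ := pick_iff h0 _ (Finset.nodup_toList Finset.univ) d
  rw [Finset.sum_map_toList, h1] at hx
  rw [← add_sub_cancel_left x (a d), ← Real.volume_Ico]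
  congr 1
  ext u
  exact (hx u).trans (and_iff_right (by simp))

lemma exists_nu {Ω : Type} [MeasurableSpace Ω] (μ : Measure Ω) [IsProbabilityMeasure μ]
    (b : Ω → D → ℕ → ℝ) (hb : Measurable b)
    (hsum : ∀ᵐ ω ∂μ, ∀ i, ∑ e, b ω e i = 1) (h0 : ∀ᵐ ω ∂μ, ∀ e i, 0 ≤ b ω e i) :
    ∃ ν : Measure (ℕ → D), IsProbabilityMeasure ν ∧
      ∀ l, ν (cyl l) = ∫⁻ ω, cw (b ω) l ∂μ := by
  let F : Ω × (ℕ → ℝ) → ℕ → D :=
    fun x i => pick Finset.univ.toList (fun e => b x.1 e i) (x.2 i)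
  have hF : Measurable F := by
    refine measurable_pi_lambda _ fun i => ?_
    refine (measurable_pick _).comp
      (f := fun x : Ω × (ℕ → ℝ) => ((fun e => b x.1 e i), x.2 i)) ?_
    fun_prop
  refine ⟨(μ.prod (Measure.infinitePi fun _ : ℕ => lam)).map F,
    Measure.isProbabilityMeasure_map hF.aemeasurable, fun l => ?_⟩
  rw [Measure.map_apply hF (measurableSet_cyl l), Measure.prod_apply (hF (measurableSet_cyl l))]
  refine lintegral_congr_ae ?_
  filter_upwards [hsum, h0] with ω h1 h2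
  have : Prod.mk ω ⁻¹' (F ⁻¹' cyl l) = Set.pi (Finset.range l.length : Set ℕ)
      fun i => {u | pick Finset.univ.toList (fun e => b ω e i) u = l.getD i default} := by
    ext u
    simp only [Set.mem_preimage, mem_cyl_iff, Set.mem_pi, Finset.coe_range, Set.mem_Iio,
      Set.mem_ofPred_eq, F]
  rw [this, Measure.infinitePi_pi _ fun i _ => measurableSet_pick _ _ _]
  exact Finset.prod_congr rfl fun i _ => lam_pick (fun d => h2 d i) (h1 i) _

end

open HD

variable {d : ℕ}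

lemma disp_pre (e : ℕ → Fin d × Bool) (n : ℕ) : disp step (pre e n) = pos e n := by
  induction n with
  | zero => simp [pos]
  | succ n ih => rw [pre_succ, disp_append, ih]; simp [pos, Finset.sum_range_succ]

lemma exits_pre_succ (e : ℕ → Fin d × Bool) (n : ℕ) (z : Fin d → ℤ) :
    exits step 0 (pre e (n + 1)) z =
      exits step 0 (pre e n) z ++ if pos e n = z then [e n] else [] := by
  rw [pre_succ, exits_append, disp_pre, zero_add, exits_cons]
  simp

lemma length_exits (e : ℕ → Fin d × Bool) (n : ℕ) (z : Fin d → ℤ) :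
    (exits step 0 (pre e n) z).length = ((Finset.range n).filter fun i => pos e i = z).card := by
  induction n with
  | zero => simp
  | succ n ih =>
    rw [exits_pre_succ, List.length_append, ih, Finset.range_add_one, Finset.filter_insert]
    split_ifs with h
    · rw [Finset.card_insert_of_notMem (by simp)]; simp
    · simp

lemma prod_eq [Inhabited (Fin d × Bool)] (ω : (Fin d → ℤ) → Fin d × Bool → ℕ → ℝ)
    (e : ℕ → Fin d × Bool) (n : ℕ) : ∀ T : Finset (Fin d → ℤ), pts step 0 (pre e n) ⊆ T →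
      ∏ i ∈ Finset.range n, ENNReal.ofReal (ω (pos e i) (e i) (visits e i)) =
        ∏ z ∈ T, cw (ω z) (exits step 0 (pre e n) z) := by
  induction n with
  | zero => intro T _; simp
  | succ n ih =>
    intro T hT
    rw [pre_succ, pts_append, disp_pre, zero_add] at hT
    have h1 : pos e n ∈ T := hT (Finset.mem_union_right _ (by simp [pts_cons]))
    rw [Finset.prod_range_succ, ih T (Finset.subset_union_left.trans hT),
      ← Finset.prod_erase_mul _ _ h1, ← Finset.prod_erase_mul _ _ h1, mul_assoc]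
    congr 1
    · refine Finset.prod_congr rfl fun z hz => ?_
      rw [exits_pre_succ, if_neg (Finset.ne_of_mem_erase hz).symm, List.append_nil]
    · rw [exits_pre_succ, if_pos rfl, cw_snoc, length_exits]
      rfl

end NuAux

open NuAux HD in
theorem s_nu : S_Nu := by
  intro d μ _ hd hind hid hsum κ hκ hell
  let _ : Inhabited (Fin d × Bool) := ⟨(⟨0, hd⟩, true)⟩
  have h0 : ∀ᵐ ω ∂μ, ∀ z e i, 0 ≤ ω z e i := hell.mono fun ω h z e i => hκ.le.trans (h z e i)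
  obtain ⟨ν, hν, hcyl⟩ := exists_nu μ (fun ω => ω 0) (measurable_pi_apply 0)
    (hsum.mono fun ω h => h 0) (h0.mono fun ω h => h 0)
  refine ⟨ν, hν, fun γ e => ?_, fun e n => ?_⟩
  · rw [hcyl, hcyl, ← lintegral_const_mul' _ _ ENNReal.ofReal_ne_top]
    refine lintegral_mono_ae ?_
    filter_upwards [hell] with ω h
    rw [cw_snoc, mul_comm]
    gcongr
    exact h _ _ _
  · have h1 : ∫⁻ ω, ENNReal.ofReal (∏ i ∈ Finset.range n, ω (pos e i) (e i) (visits e i)) ∂μ =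
        ∫⁻ ω, ∏ z ∈ pts step 0 (pre e n), cw (ω z) (exits step 0 (pre e n) z) ∂μ := by
      refine lintegral_congr_ae ?_
      filter_upwards [h0] with ω h
      rw [ENNReal.ofReal_prod_of_nonneg fun i _ => h _ _ _, prod_eq ω e n _ subset_rfl]
    rw [h1, lintegral_prod_eq_prod_lintegral_of_indepFun _
      (fun (z : Fin d → ℤ) (ω : (Fin d → ℤ) → Fin d × Bool → ℕ → ℝ) =>
        cw (ω z) (exits step 0 (pre e n) z))
      (hind.comp (fun z b => cw b (exits step 0 (pre e n) z)) fun z => measurable_cw _)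
      fun z => (measurable_cw _).comp (measurable_pi_apply z)]
    refine Finset.prod_congr rfl fun z _ => ?_
    rw [hcyl]
    exact ((hid z).comp (measurable_cw _)).lintegral_eq.symm

end Pool.Agent.MP_db8016_pr.BZ

end
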