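import Mathlib
import Pool.Agent.MP_db8016_pr.HD.Defs
import Pool.Agent.Mg.Fdb8016p.Ged04e7

section

/-! Sequences, cylinders, the planar walk and the abstract model of the self-interacting walk. -/

namespace Pool.Agent.MP_db8016_pr.HD
open MeasureTheory ProbabilityTheory Filter Finset

section Seq
variable {α : Type}

/-- The sequences that agree with `e` before time `n`. -/
def Cy (e : ℕ → α) (n : ℕ) : Set (ℕ → α) := {a | ∀ i < n, a i = e i}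

/-- The sequence after time `n`. -/
def sh (n : ℕ) (a : ℕ → α) : ℕ → α := fun i => a (n + i)

/-- The sequence before time `s`, read backwards. -/
def rev (s : ℕ) (a : ℕ → α) : ℕ → α := fun k => a (s - 1 - k)

/-- `A` depends only on the coordinates before `n`. -/
def Det (n : ℕ) (A : Set (ℕ → α)) : Prop := ∀ a a', (∀ i < n, a' i = a i) → a ∈ A → a' ∈ A

/-- A set of pairs that depends only on the coordinates before `n` and `n'`. -/
def Det2 {γ : Type} (n n' : ℕ) (A : Set ((ℕ → α) × (ℕ → γ))) : Prop :=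
  ∀ x y : (ℕ → α) × (ℕ → γ), (∀ i < n, y.1 i = x.1 i) → (∀ i < n', y.2 i = x.2 i) → x ∈ A → y ∈ A

/-- `Q a n` depends only on the coordinates of `a` before `n`. -/
def Adapt (Q : (ℕ → α) → ℕ → Prop) : Prop :=
  ∀ a a' n, (∀ i < n, a' i = a i) → Q a n → Q a' n

/-- `n` is the first time at which `Q` holds. -/
def First (Q : (ℕ → α) → ℕ → Prop) (a : ℕ → α) (n : ℕ) : Prop := Q a n ∧ ∀ k < n, ¬ Q a k

/-- Sums of the first terms. -/
def ps {G : Type} [AddCommMonoid G] (f : α → G) (a : ℕ → α) (n : ℕ) : G :=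
  ∑ i ∈ range n, f (a i)

lemma mem_Cy_self (e : ℕ → α) (n : ℕ) : e ∈ Cy e n := fun _ _ => rfl

@[simp] lemma Cy_zero (e : ℕ → α) : Cy e 0 = Set.univ := by ext a; simp [Cy]

@[simp] lemma sh_zero (a : ℕ → α) : sh 0 a = a := by ext i; simp [sh]

lemma sh_sh (m n : ℕ) (a : ℕ → α) : sh m (sh n a) = sh (n + m) a := by
  ext i; simp [sh, add_assoc]

lemma exists_first {Q : (ℕ → α) → ℕ → Prop} {a : ℕ → α} {n : ℕ} (h : Q a n) :
    ∃ k ≤ n, First Q a k := by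
  classical
  have h' : ∃ k, Q a k := ⟨n, h⟩
  exact ⟨Nat.find h', Nat.find_min' h' h, Nat.find_spec h', fun k hk => Nat.find_min h' hk⟩

lemma First.unique {Q : (ℕ → α) → ℕ → Prop} {a : ℕ → α} {n k : ℕ} (h : First Q a n)
    (h' : First Q a k) : n = k := by
  rcases lt_trichotomy n k with h1 | h1 | h1
  · exact absurd h.1 (h'.2 _ h1)
  · exact h1
  · exact absurd h'.1 (h.2 _ h1)

variable {G : Type} [AddCommMonoid G] (f : α → G)

@[simp] lemma ps_zero (a : ℕ → α) : ps f a 0 = 0 := by simp [ps]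

lemma ps_succ (a : ℕ → α) (n : ℕ) : ps f a (n + 1) = ps f a n + f (a n) := by
  simp [ps, sum_range_succ]

lemma ps_add (a : ℕ → α) (n k : ℕ) : ps f a (n + k) = ps f a n + ps f (sh n a) k := by
  simp [ps, sum_range_add, sh]

lemma ps_congr {a a' : ℕ → α} {n k : ℕ} (h : ∀ i < n, a' i = a i) (hk : k ≤ n) :
    ps f a' k = ps f a k :=
  sum_congr rfl fun i hi => by rw [h i (lt_of_lt_of_le (mem_range.1 hi) hk)]

variable [MeasurableSpace α]

lemma measurable_sh (n : ℕ) : Measurable (sh n : (ℕ → α) → ℕ → α) :=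
  measurable_pi_lambda _ fun i => measurable_pi_apply (n + i)

lemma measurable_rev (s : ℕ) : Measurable (rev s : (ℕ → α) → ℕ → α) :=
  measurable_pi_lambda _ fun k => measurable_pi_apply (s - 1 - k)

lemma measurableSet_Cy [MeasurableSingletonClass α] (e : ℕ → α) (n : ℕ) :
    MeasurableSet (Cy e n) := by
  have : Cy e n = ⋂ i ∈ Set.Iio n, (fun a : ℕ → α => a i) ⁻¹' {e i} := by ext a; simp [Cy]
  rw [this]
  exact MeasurableSet.biInter (Set.to_countable _) fun i _ =>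
    measurable_pi_apply i (measurableSet_singleton _)

lemma Det2.measurableSet {γ : Type} [MeasurableSpace γ] [Countable α] [Countable γ]
    [DiscreteMeasurableSpace α] [DiscreteMeasurableSpace γ] {n n' : ℕ}
    {A : Set ((ℕ → α) × (ℕ → γ))} (h : Det2 n n' A) : MeasurableSet A := by
  let g : (ℕ → α) × (ℕ → γ) → (Fin n → α) × (Fin n' → γ) :=
    fun x => (fun i => x.1 i, fun i => x.2 i)
  have hg : Measurable g := by
    refine Measurable.prodMk (measurable_pi_lambda _ fun i => ?_)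
      (measurable_pi_lambda _ fun i => ?_)
    · exact (measurable_pi_apply (i : ℕ)).comp measurable_fst
    · exact (measurable_pi_apply (i : ℕ)).comp measurable_snd
  have : A = g ⁻¹' (g '' A) := by
    refine Set.Subset.antisymm (Set.subset_preimage_image _ _) ?_
    rintro y ⟨x, hx, hxy⟩
    refine h x y (fun i hi => ?_) (fun i hi => ?_) hx
    · exact (congrFun (congrArg Prod.fst hxy) ⟨i, hi⟩).symm
    · exact (congrFun (congrArg Prod.snd hxy) ⟨i, hi⟩).symm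
  rw [this]
  exact hg (Set.to_countable _).measurableSet

lemma Det.measurableSet [Countable α] [DiscreteMeasurableSpace α] {n : ℕ}
    {A : Set (ℕ → α)} (h : Det n A) : MeasurableSet A := by
  let g : (ℕ → α) → (Fin n → α) := fun x i => x i
  have hg : Measurable g := measurable_pi_lambda _ fun i => measurable_pi_apply (i : ℕ)
  have : A = g ⁻¹' (g '' A) := by
    refine Set.Subset.antisymm (Set.subset_preimage_image _ _) ?_
    rintro y ⟨x, hx, hxy⟩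
    exact h x y (fun i hi => (congrFun hxy ⟨i, hi⟩).symm) hx
  rw [this]
  exact hg (Set.to_countable _).measurableSet

lemma Adapt.measurableSet [Countable α] [DiscreteMeasurableSpace α]
    {Q : (ℕ → α) → ℕ → Prop} (h : Adapt Q) (n : ℕ) : MeasurableSet {a | Q a n} :=
  Det.measurableSet (n := n) fun a a' h1 h2 => h a a' n h1 h2

lemma measurableSet_of_stable {γ : Type} [MeasurableSpace γ] [Countable α] [Countable γ]
    [DiscreteMeasurableSpace α] [DiscreteMeasurableSpace γ] {s : ℕ}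
    {J : Set ((ℕ → α) × (ℕ → γ))}
    (h : ∀ x ∈ J, ∃ k, ∀ y : (ℕ → α) × (ℕ → γ), (∀ i < k, y.1 i = x.1 i) →
      (∀ i < s, y.2 i = x.2 i) → y ∈ J) : MeasurableSet J := by
  have : J = ⋃ k, {x | ∀ y : (ℕ → α) × (ℕ → γ), (∀ i < k, y.1 i = x.1 i) →
      (∀ i < s, y.2 i = x.2 i) → y ∈ J} := by
    ext x
    simp only [Set.mem_iUnion, Set.mem_ofPred_eq]
    exact ⟨h x, fun ⟨_, hk⟩ => hk x (fun _ _ => rfl) fun _ _ => rfl⟩
  rw [this]
  refine MeasurableSet.iUnion fun k => Det2.measurableSet (n := k) (n' := s) ?_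
  intro x x' h1 h2 hx y h3 h4
  exact hx y (fun i hi => (h3 i hi).trans (h1 i hi)) fun i hi => (h4 i hi).trans (h2 i hi)

end Seq

/-! ### The planar walk -/

/-- The lateral symbols. -/
abbrev T := Fin 5

/-- The law of an i.i.d. sequence of symbols. -/
noncomputable def IID (m : Measure T) : Measure (ℕ → T) := Measure.infinitePi fun _ : ℕ => m

instance (m : Measure T) [IsProbabilityMeasure m] : IsProbabilityMeasure (IID m) := by
  unfold IID; infer_instance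

/-- The law of two independent i.i.d. sequences. -/
noncomputable def IID2 (m : Measure T) : Measure ((ℕ → T) × (ℕ → T)) := (IID m).prod (IID m)

instance (m : Measure T) [IsProbabilityMeasure m] : IsProbabilityMeasure (IID2 m) := by
  unfold IID2; infer_instance

/-- A lazy symmetric nearest-neighbour step with coordinates `u`, `v` in `ℤ²`, read from a symbol of law `m`. -/
structure Lat (m : Measure T) where
  u : T → ℤ
  v : T → ℤ
  p : ℝ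
  q : ℝ
  hp : 0 < p
  hq : 0 < q
  hst : ∀ t, (u t, v t) = (1, 0) ∨ (u t, v t) = (-1, 0) ∨ (u t, v t) = (0, 1) ∨
    (u t, v t) = (0, -1) ∨ (u t, v t) = (0, 0)
  hE : ∀ g : ℤ → ℤ → ℝ, ∑ t, m.real {t} * g (u t) (v t) =
    p * (g 1 0 + g (-1) 0) + q * (g 0 1 + g 0 (-1)) + (1 - 2 * p - 2 * q) * g 0 0

namespace Lat
variable {m : Measure T} (l : Lat m)

/-- Exchange of the coordinates. -/
def swap : Lat m where
  u := l.v
  v := l.u
  p := l.q
  q := l.p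
  hp := l.hq
  hq := l.hp
  hst t := by have := l.hst t; simp only [Prod.mk.injEq] at this ⊢; tauto
  hE g := by rw [l.hE fun a b => g b a]; ring

/-- Reflection of the first coordinate. -/
def neg : Lat m where
  u := fun t => -l.u t
  v := l.v
  p := l.p
  q := l.q
  hp := l.hp
  hq := l.hq
  hst t := by have := l.hst t; simp only [Prod.mk.injEq] at this ⊢; omega
  hE g := by rw [l.hE fun a b => g (-a) b]; simp only [neg_neg, neg_zero]; ring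

/-- The step of a symbol. -/
def st (t : T) : ℤ × ℤ := (l.u t, l.v t)

/-- First coordinate of the walk. -/
def U (a : ℕ → T) (n : ℕ) : ℤ := ps l.u a n

/-- Second coordinate of the walk. -/
def V (a : ℕ → T) (n : ℕ) : ℤ := ps l.v a n

/-- The walk. -/
def Y (a : ℕ → T) (n : ℕ) : ℤ × ℤ := (l.U a n, l.V a n)

lemma Y_eq (a : ℕ → T) (n : ℕ) : l.Y a n = ps l.st a n := by
  simp [Y, U, V, ps, st, Prod.ext_iff, Prod.fst_sum, Prod.snd_sum]

@[simp] lemma swap_U : l.swap.U = l.V := rfl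
@[simp] lemma swap_V : l.swap.V = l.U := rfl
@[simp] lemma neg_V : l.neg.V = l.V := rfl
@[simp] lemma neg_U (a : ℕ → T) (n : ℕ) : l.neg.U a n = -l.U a n := by simp [U, ps, neg]

/-- One step of the averaging operator of the walk. -/
def av (f : ℤ × ℤ → ℝ) (z : ℤ × ℤ) : ℝ :=
  l.p * (f (z + (1, 0)) + f (z + (-1, 0))) + l.q * (f (z + (0, 1)) + f (z + (0, -1))) +
    (1 - 2 * l.p - 2 * l.q) * f z

open Classical in
/-- The first time before `t` at which the walk from `x` is outside `Dm`, else `t`. -/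
noncomputable def stop (Dm : Set (ℤ × ℤ)) (x : ℤ × ℤ) (t : ℕ) (a : ℕ → T) : ℕ :=
  Nat.find (⟨t, Or.inl rfl⟩ : ∃ k, k = t ∨ x + l.Y a k ∉ Dm)

lemma stop_le (Dm : Set (ℤ × ℤ)) (x : ℤ × ℤ) (t : ℕ) (a : ℕ → T) : l.stop Dm x t a ≤ t := by
  classical
  exact Nat.find_min' _ (Or.inl rfl)

lemma mem_of_lt_stop {Dm : Set (ℤ × ℤ)} {x : ℤ × ℤ} {t k : ℕ} {a : ℕ → T}
    (h : k < l.stop Dm x t a) : x + l.Y a k ∈ Dm := by
  classical
  by_contra h'
  exact Nat.find_min _ h (Or.inr h')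

lemma stop_spec (Dm : Set (ℤ × ℤ)) (x : ℤ × ℤ) (t : ℕ) (a : ℕ → T) :
    l.stop Dm x t a = t ∨ x + l.Y a (l.stop Dm x t a) ∉ Dm := by
  classical
  exact Nat.find_spec (⟨t, Or.inl rfl⟩ : ∃ k, k = t ∨ x + l.Y a k ∉ Dm)

@[simp] lemma U_zero (a : ℕ → T) : l.U a 0 = 0 := by simp [U]
@[simp] lemma V_zero (a : ℕ → T) : l.V a 0 = 0 := by simp [V]
@[simp] lemma Y_zero (a : ℕ → T) : l.Y a 0 = 0 := by simp [Y]
lemma U_add (a : ℕ → T) (n k : ℕ) : l.U a (n + k) = l.U a n + l.U (sh n a) k := ps_add _ _ _ _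
lemma V_add (a : ℕ → T) (n k : ℕ) : l.V a (n + k) = l.V a n + l.V (sh n a) k := ps_add _ _ _ _
lemma Y_add (a : ℕ → T) (n k : ℕ) : l.Y a (n + k) = l.Y a n + l.Y (sh n a) k := by
  simp [Y, U_add, V_add]
lemma U_succ (a : ℕ → T) (n : ℕ) : l.U a (n + 1) = l.U a n + l.u (a n) := ps_succ _ _ _
lemma V_succ (a : ℕ → T) (n : ℕ) : l.V a (n + 1) = l.V a n + l.v (a n) := ps_succ _ _ _
lemma Y_succ (a : ℕ → T) (n : ℕ) : l.Y a (n + 1) = l.Y a n + l.st (a n) := by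
  simp [Y, st, U_succ, V_succ]
lemma U_congr {a a' : ℕ → T} {n k : ℕ} (h : ∀ i < n, a' i = a i) (hk : k ≤ n) :
    l.U a' k = l.U a k := ps_congr _ h hk
lemma V_congr {a a' : ℕ → T} {n k : ℕ} (h : ∀ i < n, a' i = a i) (hk : k ≤ n) :
    l.V a' k = l.V a k := ps_congr _ h hk
lemma Y_congr {a a' : ℕ → T} {n k : ℕ} (h : ∀ i < n, a' i = a i) (hk : k ≤ n) :
    l.Y a' k = l.Y a k := by simp only [Y, l.U_congr h hk, l.V_congr h hk]
lemma abs_u_le (t : T) : |l.u t| ≤ 1 := by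
  have := l.hst t; simp only [Prod.mk.injEq] at this; rw [abs_le]; omega
lemma abs_v_le (t : T) : |l.v t| ≤ 1 := by
  have := l.hst t; simp only [Prod.mk.injEq] at this; rw [abs_le]; omega

lemma rest_nonneg : 0 ≤ 1 - 2 * l.p - 2 * l.q := by
  have h := l.hE fun a b => if a = 0 ∧ b = 0 then 1 else 0
  simp only [one_ne_zero, false_and, and_false, if_false, and_self, if_true, neg_eq_zero,
    add_zero, mul_zero, zero_add, mul_one] at h
  rw [← h]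
  exact sum_nonneg fun t _ => mul_nonneg measureReal_nonneg (by split_ifs <;> norm_num)

/-- The walk stays in a box up to time `n`, when its first coordinate is `M₁`. -/
def Ph (h₁ M₁ h₂ M₂ : ℤ) (a : ℕ → T) (n : ℕ) : Prop :=
  (∀ k ≤ n, -h₁ < l.U a k ∧ l.U a k ≤ M₁ ∧ -h₂ < l.V a k ∧ l.V a k ≤ M₂) ∧ l.U a n = M₁

end Lat

/-- The maximum norm. -/
def nn (z : ℤ × ℤ) : ℤ := max |z.1| |z.2|

namespace Lat
variable {m : Measure T} (l : Lat m)

/-- Up to time `t` the walk keeps `U > -h` and stays in the box of radius `K h`. -/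
def WaitEv (h K : ℤ) (t : ℕ) : Set (ℕ → T) :=
  {a | ∀ k ≤ t, -h < l.U a k ∧ nn (l.Y a k) ≤ K * h}

/-- At each time up to `n` the walk has `U > -r` or is outside the box of radius `K r`. -/
def ExtEv (r K : ℤ) (n : ℕ) : Set (ℕ → T) :=
  {a | ∀ k ≤ n, -r < l.U a k ∨ K * r < nn (l.Y a k)}

/-- The points of the walk from `x` up to time `n`. -/
def trace (x : ℤ × ℤ) (a : ℕ → T) (n : ℕ) : Set (ℤ × ℤ) := {z | ∃ k ≤ n, z = x + l.Y a k}

end Lat

/-- Standard position of two walkers at `x` and `y` with pasts `P` and `Q`. -/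
structure Std (ρ g K : ℤ) (P : Set (ℤ × ℤ)) (x : ℤ × ℤ) (Q : Set (ℤ × ℤ)) (y : ℤ × ℤ) : Prop where
  hx : x ∈ P
  hy : y ∈ Q
  h1 : ∀ z ∈ Q, ρ + g ≤ x.1 + z.1
  h2 : ∀ z ∈ P, ρ + g ≤ z.1 + y.1
  h3 : 2 * ρ + g ≤ x.1 + y.1
  h4 : ∀ z ∈ P, nn z ≤ K * ρ
  h5 : ∀ z ∈ Q, nn z ≤ K * ρ

namespace Lat
variable {m : Measure T} (l : Lat m)

/-- `n` steps of `a` and `n'` steps of `b` lead from one standard position to another, and all
new points keep the distance `g` from the reflected points of the other walker. -/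
def Lead (ρ g K ρ' g' K' : ℤ) (a : ℕ → T) (n : ℕ) (b : ℕ → T) (n' : ℕ) : Prop :=
  ∀ P x Q y, Std ρ g K P x Q y →
    Std ρ' g' K' (P ∪ l.trace x a n) (x + l.Y a n) (Q ∪ l.trace y b n') (y + l.Y b n') ∧
    (∀ z ∈ l.trace x a n, ∀ z' ∈ Q ∪ l.trace y b n', g ≤ nn (z + z')) ∧
    (∀ z ∈ P ∪ l.trace x a n, ∀ z' ∈ l.trace y b n', g ≤ nn (z + z'))

/-- The second way through a stage: climb, change of coordinate, drop below the old barrier,
climb in the other coordinate, change back. -/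
def Way2 (ρ h H K₀ a₁ X₁ a₂ X₂ a₃ X₃ : ℤ) (a : ℕ → T) (n : ℕ) : Prop :=
  ∃ n₁ n₂ n₃ n₄ n₅, n = n₁ + n₂ + n₃ + n₄ + n₅ ∧
    l.Ph ρ (h - ρ) (K₀ * h) (K₀ * h) a n₁ ∧
    l.swap.Ph h (a₁ * h) h (X₁ * h) (sh n₁ a) n₂ ∧
    l.neg.Ph h (a₂ * h) h (X₂ * h) (sh (n₁ + n₂) a) n₃ ∧
    l.swap.Ph h (H - h) (K₀ * H) (K₀ * H) (sh (n₁ + n₂ + n₃) a) n₄ ∧
    l.Ph H (a₃ * H) H (X₃ * H) (sh (n₁ + n₂ + n₃ + n₄) a) n₅

end Lat

/-- The pairs whose increments in the first `I` blocks lie in the sets `G i`. -/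
def CC (t : ℕ → ℕ) (G : ℕ → Set ((ℕ → T) × (ℕ → T))) (I : ℕ) : Set ((ℕ → T) × (ℕ → T)) :=
  {x | ∀ i < I, (sh (t i) x.1, sh (t i) x.2) ∈ G i}

/-- A system of cut events in product form. -/
structure Cut {m : Measure T} (l : Lat m) where
  A : ℕ
  μ : ℕ
  K : ℕ
  t : ℕ → ℕ
  r : ℕ → ℕ
  G : ℕ → Set ((ℕ → T) × (ℕ → T))
  π₀ : ℝ
  hA : 1 ≤ A
  hK : 1 ≤ K
  hμ : 3 * K ≤ μ
  t_zero : t 0 = 0
  r_one : r 1 = 1
  r_succ : ∀ i, 1 ≤ i → r (i + 1) = μ * r i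
  t_eq : ∀ i, 1 ≤ i → t i = A * r i ^ 2
  det : ∀ i, Det2 (t (i + 1) - t i) (t (i + 1) - t i) (G i)
  π₀_pos : 0 < π₀
  π₀_le : ∀ i, π₀ ≤ (IID2 m).real (G i)
  two_le : ∀ i, 1 ≤ i → 2 ≤ (μ : ℝ) ^ 2 * (IID2 m).real (G i)
  g1 : ∀ I, ∀ x ∈ CC t G I, ∀ s ≤ t I, ∀ s' ≤ t I, 1 ≤ s' → l.Y x.1 s + l.Y x.2 s' ≠ 0
  g2 : ∀ I, ∀ x ∈ CC t G I, ∀ i, 1 ≤ i → ∀ s ≤ t I, t i ≤ s → ∀ s' ≤ t I,
    (r i : ℤ) ≤ nn (l.Y x.1 s + l.Y x.2 s')
  g3 : ∀ I, 1 ≤ I → ∀ x ∈ CC t G I, ∀ s ≤ t I,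
    nn (l.Y x.1 s) ≤ K * r I ∧ nn (l.Y x.2 s) ≤ K * r I
  g4 : ∀ I, 1 ≤ I → ∀ x ∈ CC t G I, ∀ s ≤ t I,
    2 * (r I : ℤ) ≤ l.U x.1 (t I) + l.U x.2 s ∧ 2 * (r I : ℤ) ≤ l.U x.1 s + l.U x.2 (t I)
  g5 : ∀ I, 1 ≤ I → ∀ x ∈ CC t G I, 3 * (r I : ℤ) ≤ l.U x.1 (t I) + l.U x.2 (t I)

namespace Cut
variable {m : Measure T} {l : Lat m} (c : Cut l)

/-- The cut event of depth `I` (first entry: future, second entry: past read backwards). -/
def C (I : ℕ) : Set ((ℕ → T) × (ℕ → T)) := CC c.t c.G I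

/-- Its probability. -/
noncomputable def q (I : ℕ) : ℝ := (IID2 m).real (c.C I)

lemma one_le_r {i : ℕ} (hi : 1 ≤ i) : 1 ≤ c.r i := by
  induction i, hi using Nat.le_induction with
  | base => rw [c.r_one]
  | succ i hi ih =>
    rw [c.r_succ i hi]
    have := c.hμ; have := c.hK
    exact Nat.mul_pos (by omega) ih

lemma t_succ {i : ℕ} (hi : 1 ≤ i) : c.t (i + 1) = c.μ ^ 2 * c.t i := by
  rw [c.t_eq _ hi, c.t_eq _ (by omega), c.r_succ _ hi]; ring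

lemma one_le_t {i : ℕ} (hi : 1 ≤ i) : 1 ≤ c.t i := by
  rw [c.t_eq _ hi]
  exact Nat.mul_pos c.hA (pow_pos (c.one_le_r hi) _)

lemma r_le_t {i : ℕ} (hi : 1 ≤ i) : c.r i ≤ c.t i := by
  rw [c.t_eq _ hi]
  have := c.one_le_r hi; have := c.hA
  nlinarith

lemma nine_t_le (i : ℕ) : 9 * c.t i ≤ c.t (i + 1) := by
  rcases Nat.eq_zero_or_pos i with rfl | hi
  · simp [c.t_zero]
  · rw [c.t_succ hi]
    have := c.hμ; have := c.hK
    exact Nat.mul_le_mul_right _ (by nlinarith)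

lemma t_mono : Monotone c.t :=
  monotone_nat_of_le_succ fun i => le_trans (by omega) (c.nine_t_le i)

lemma r_mono {i j : ℕ} (hi : 1 ≤ i) (hij : i ≤ j) : c.r i ≤ c.r j := by
  induction j, hij using Nat.le_induction with
  | base => exact le_rfl
  | succ j hj ih =>
    rw [c.r_succ j (by omega)]
    have := c.hμ; have := c.hK
    nlinarith

lemma C_anti {I J : ℕ} (h : I ≤ J) : c.C J ⊆ c.C I := fun _ hx i hi => hx i (by omega)

lemma C_succ (I : ℕ) :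
    c.C (I + 1) = c.C I ∩ {x | (sh (c.t I) x.1, sh (c.t I) x.2) ∈ c.G I} := by
  ext x
  simp only [C, CC, Set.mem_ofPred_eq, Set.mem_inter_iff, Nat.lt_succ_iff_lt_or_eq]
  exact ⟨fun h => ⟨fun i hi => h i (Or.inl hi), h I (Or.inr rfl)⟩,
    fun h i hi => hi.elim (h.1 i) fun e => e ▸ h.2⟩

lemma C_det (I : ℕ) : Det2 (c.t I) (c.t I) (c.C I) := by
  intro x y h1 h2 hx i hi
  have h3 := c.t_mono (show i + 1 ≤ I from hi)
  have h4 := c.t_mono (Nat.le_succ i)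
  exact c.det i (sh (c.t i) x.1, sh (c.t i) x.2) (sh (c.t i) y.1, sh (c.t i) y.2)
    (fun k hk => h1 (c.t i + k) (by omega)) (fun k hk => h2 (c.t i + k) (by omega)) (hx i hi)

/-- The cut event read at time `s` of one sequence. -/
def At (I s : ℕ) : Set (ℕ → T) := {a | (sh s a, rev s a) ∈ c.C I}

end Cut

/-! ### The self-interacting walk -/

/-- The law of the steps of a walk with fresh sites and an autonomous planar part. -/
structure Model where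
  D : Type
  Pt : Type
  [fin : Fintype D]
  [ms : MeasurableSpace D]
  [dm : DiscreteMeasurableSpace D]
  [grp : AddCommGroup Pt]
  S : Measure (ℕ → D)
  [prob : IsProbabilityMeasure S]
  vec : D → Pt
  m : Measure T
  [probm : IsProbabilityMeasure m]
  l : Lat m
  lam : D → T
  Y : Pt →+ ℤ × ℤ
  hY : ∀ d, Y (vec d) = l.st (lam d)
  fresh : ∀ e n k, (∀ i < n, ∀ j < k, ps vec e i ≠ ps vec e (n + j)) →
    S.real (Cy e (n + k)) = S.real (Cy e n) * S.real (Cy (sh n e) k)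
  auto : ∀ e n t, S.real (Cy e n ∩ {e' | lam (e' n) = t}) = m.real {t} * S.real (Cy e n)
  κ : ℝ
  hκ : 0 < κ
  uel : ∀ e n d, κ * S.real (Cy e n) ≤ S.real (Cy e n ∩ {e' | e' n = d})

attribute [instance] Model.fin Model.ms Model.dm Model.grp Model.prob Model.probm

namespace Model
variable (W : Model)

/-- Position at time `n`. -/
def X (e : ℕ → W.D) (n : ℕ) : W.Pt := ps W.vec e n

/-- The lateral symbols of a step sequence. -/
def la (e : ℕ → W.D) : ℕ → T := fun i => W.lam (e i)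

/-- Probability of following `e` up to time `n` and of `A` for the later steps. -/
noncomputable def cS (e : ℕ → W.D) (n : ℕ) (A : Set (ℕ → W.D)) : ℝ :=
  W.S.real (Cy e n ∩ sh n ⁻¹' A)

/-- A fresh walk and an independent lateral sequence. -/
noncomputable def M : Measure ((ℕ → W.D) × (ℕ → T)) := W.S.prod (IID W.m)

instance : IsProbabilityMeasure W.M := by unfold M; infer_instance

lemma measurable_la : Measurable W.la :=
  measurable_pi_lambda _ fun i => (Measurable.of_discrete (f := W.lam)).comp (measurable_pi_apply i)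

lemma la_sh (n : ℕ) (e : ℕ → W.D) : W.la (sh n e) = sh n (W.la e) := rfl

lemma X_add (e : ℕ → W.D) (n k : ℕ) : W.X e (n + k) = W.X e n + W.X (sh n e) k := ps_add _ _ _ _

lemma Y_X (e : ℕ → W.D) (n : ℕ) : W.Y (W.X e n) = W.l.Y (W.la e) n := by
  rw [Lat.Y_eq]; simp [X, ps, map_sum, W.hY, la]

/-- The sequence that follows `e` up to time `n` and then `e'`. -/
def cat {α : Type} (e : ℕ → α) (n : ℕ) (e' : ℕ → α) : ℕ → α :=
  fun i => if i < n then e i else e' (i - n)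

lemma cat_mem {α : Type} (e : ℕ → α) (n : ℕ) (e' : ℕ → α) : cat e n e' ∈ Cy e n :=
  fun i hi => by simp [cat, hi]

@[simp] lemma sh_cat {α : Type} (e : ℕ → α) (n : ℕ) (e' : ℕ → α) : sh n (cat e n e') = e' := by
  ext i; simp [sh, cat]

lemma Cy_add {α : Type} (e : ℕ → α) (n k : ℕ) :
    Cy e (n + k) = Cy e n ∩ sh n ⁻¹' Cy (sh n e) k := by
  ext a
  simp only [Cy, Set.mem_ofPred_eq, Set.mem_inter_iff, Set.mem_preimage, sh]
  refine ⟨fun h => ⟨fun i hi => h i (by omega), fun i hi => h _ (by omega)⟩, fun h i hi => ?_⟩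
  rcases lt_or_ge i n with h1 | h1
  · exact h.1 i h1
  · obtain ⟨j, rfl⟩ := Nat.exists_eq_add_of_le h1
    exact h.2 j (by omega)

lemma Cy_congr {α : Type} {e e' : ℕ → α} {n : ℕ} (h : e' ∈ Cy e n) : Cy e' n = Cy e n := by
  ext a
  exact ⟨fun h1 i hi => (h1 i hi).trans (h i hi), fun h1 i hi => (h1 i hi).trans (h i hi).symm⟩

lemma Cy_cat {α : Type} (e : ℕ → α) (n k : ℕ) (e' : ℕ → α) :
    Cy (cat e n e') (n + k) = Cy e n ∩ sh n ⁻¹' Cy e' k := by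
  rw [Cy_add, sh_cat, Cy_congr (cat_mem e n e')]

/-- The pairs whose lateral parts lie in `E`. -/
def lift (E : Set ((ℕ → T) × (ℕ → T))) : Set ((ℕ → W.D) × (ℕ → T)) := {x | (W.la x.1, x.2) ∈ E}

/-- The event `J` read at time `s`: future steps and reversed lateral past. -/
def At (J : Set ((ℕ → W.D) × (ℕ → T))) (s : ℕ) : Set (ℕ → W.D) :=
  {e | (sh s e, rev s (W.la e)) ∈ J}

end Model

/-- A level function that is escaped on both sides with positive probability. -/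
structure Lev (W : Model) where
  L : W.Pt →+ ℝ
  hL : ∀ d, |L (W.vec d)| ≤ 1
  hd : ∃ d, |L (W.vec d)| = 1
  β : ℝ
  hβ : 0 < β
  up : β ≤ W.S.real {e | ∀ n, 0 ≤ L (W.X e n)}
  down : β ≤ W.S.real {e | ∀ n, L (W.X e n) ≤ 0}

namespace Lev
variable {W : Model} (ℓ : Lev W)

/-- The opposite level function. -/
def neg : Lev W where
  L := -ℓ.L
  hL d := by simpa using ℓ.hL d
  hd := by simpa using ℓ.hd
  β := ℓ.β
  hβ := ℓ.hβ
  up := by simpa using ℓ.down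
  down := by simpa using ℓ.up

/-- The level at time `n`. -/
def lv (e : ℕ → W.D) (n : ℕ) : ℝ := ℓ.L (W.X e n)

@[simp] lemma neg_lv (e : ℕ → W.D) (n : ℕ) : ℓ.neg.lv e n = -ℓ.lv e n := rfl
@[simp] lemma neg_β : ℓ.neg.β = ℓ.β := rfl
@[simp] lemma lv_zero (e : ℕ → W.D) : ℓ.lv e 0 = 0 := by simp [lv, Model.X]

lemma lv_add (e : ℕ → W.D) (n k : ℕ) : ℓ.lv e (n + k) = ℓ.lv e n + ℓ.lv (sh n e) k := by
  simp [lv, Model.X_add]

lemma lv_succ (e : ℕ → W.D) (n : ℕ) : |ℓ.lv e (n + 1) - ℓ.lv e n| ≤ 1 := by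
  simpa [lv, Model.X, ps_succ] using ℓ.hL (e n)

lemma lv_congr {e e' : ℕ → W.D} {n k : ℕ} (h : ∀ i < n, e' i = e i) (hk : k ≤ n) :
    ℓ.lv e' k = ℓ.lv e k := by
  simp only [lv, Model.X, ps_congr W.vec h hk]

/-- Level `w` is reached within `t` steps, without a negative level before. -/
def Up (w : ℝ) (t : ℕ) : Set (ℕ → W.D) :=
  {e | ∃ n ≤ t, w ≤ ℓ.lv e n ∧ ∀ k ≤ n, 0 ≤ ℓ.lv e k}

/-- The level stays in `[0, z)` up to time `t`. -/
def Slow (z : ℝ) (t : ℕ) : Set (ℕ → W.D) := {e | ∀ k ≤ t, 0 ≤ ℓ.lv e k ∧ ℓ.lv e k < z}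

/-- Level `w` is reached within `t` steps. -/
def Reach (w : ℝ) (t : ℕ) : Set (ℕ → W.D) := {e | ∃ n ≤ t, w ≤ ℓ.lv e n}

/-- The level is not negative up to time `t`. -/
def Pos (t : ℕ) : Set (ℕ → W.D) := {e | ∀ k ≤ t, 0 ≤ ℓ.lv e k}

/-- Time `n` is a strict record of the level. -/
def Rec (e : ℕ → W.D) (n : ℕ) : Prop := ∀ i < n, ℓ.lv e i < ℓ.lv e n

/-- The levels up to time `n` have range at least `w`. -/
def Rng (w : ℝ) (e : ℕ → W.D) (n : ℕ) : Prop := ∃ i ≤ n, ∃ j ≤ n, w ≤ ℓ.lv e j - ℓ.lv e i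

/-- A rise of at least `x` within `t` steps. -/
def Rise (x : ℝ) (t : ℕ) : Set (ℕ → W.D) :=
  {e | ∃ i j, i ≤ j ∧ j ≤ t ∧ x ≤ ℓ.lv e j - ℓ.lv e i}

/-- Level `x` is reached and a negative level follows. -/
def Back (x : ℝ) : Set (ℕ → W.D) := {e | ∃ i j, i ≤ j ∧ x ≤ ℓ.lv e i ∧ ℓ.lv e j < 0}

/-- Level `z` is reached within `t` steps with no negative level and lateral moves below `ρ`. -/
def Run (z : ℝ) (t : ℕ) (ρ : ℤ) : Set (ℕ → W.D) :=
  {e | ∃ n ≤ t, z ≤ ℓ.lv e n ∧ ∀ k ≤ n, 0 ≤ ℓ.lv e k ∧ nn (W.l.Y (W.la e) k) < ρ}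

/-- Range `w` is reached within `t` steps, before `U` has risen by `R`. -/
def Succ (w : ℝ) (t : ℕ) (R : ℤ) : Set (ℕ → W.D) :=
  {e | ∃ n ≤ t, ℓ.Rng w e n ∧ ∀ k ≤ n, W.l.U (W.la e) k < R}

/-- After every record of `U`, success has conditional probability at least `c`. -/
def Exit (w : ℝ) (t : ℕ) (R : ℤ) (c : ℝ) : Prop :=
  ∀ e n, (∀ i ≤ n, W.l.U (W.la e) i ≤ W.l.U (W.la e) n) →
    c * W.S.real (Cy e n) ≤ W.cS e n (ℓ.Succ w t R)

lemma neg_Rng (w : ℝ) (e : ℕ → W.D) (n : ℕ) : ℓ.neg.Rng w e n ↔ ℓ.Rng w e n := by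
  constructor <;> rintro ⟨i, hi, j, hj, h⟩ <;> refine ⟨j, hj, i, hi, ?_⟩ <;>
    simp only [neg_lv] at h ⊢ <;> linarith

lemma neg_Exit {w : ℝ} {t : ℕ} {R : ℤ} {c : ℝ} (h : ℓ.Exit w t R c) : ℓ.neg.Exit w t R c := by
  have : ℓ.neg.Succ w t R = ℓ.Succ w t R := by ext e; simp only [Succ, neg_Rng]
  intro e n hn
  rw [this]
  exact h e n hn

lemma Rng.mono {w : ℝ} {e : ℕ → W.D} {n n' : ℕ} (h : ℓ.Rng w e n) (hn : n ≤ n') :
    ℓ.Rng w e n' := by
  obtain ⟨i, hi, j, hj, h⟩ := h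
  exact ⟨i, hi.trans hn, j, hj.trans hn, h⟩

lemma adapt_Rng (w : ℝ) : Adapt (ℓ.Rng w) := by
  rintro e e' n h ⟨i, hi, j, hj, h'⟩
  exact ⟨i, hi, j, hj, by rwa [ℓ.lv_congr h hi, ℓ.lv_congr h hj]⟩

lemma Rng.of_sh {w : ℝ} {e : ℕ → W.D} {n k : ℕ} (h : ℓ.Rng w (sh n e) k) :
    ℓ.Rng w e (n + k) := by
  obtain ⟨i, hi, j, hj, h⟩ := h
  exact ⟨n + i, by omega, n + j, by omega, by rw [lv_add, lv_add]; linarith⟩

lemma abs_lv_le (e : ℕ → W.D) (n : ℕ) : |ℓ.lv e n| ≤ n := by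
  induction n with
  | zero => simp
  | succ n ih =>
    have := ℓ.lv_succ e n
    rw [abs_le] at *
    push_cast
    constructor <;> linarith [this.1, this.2, ih.1, ih.2]

lemma Rng.le {w : ℝ} {e : ℕ → W.D} {n : ℕ} (h : ℓ.Rng w e n) : w ≤ n := by
  obtain ⟨i, hi, j, hj, h⟩ := h
  rcases le_total i j with h1 | h1
  · obtain ⟨k, rfl⟩ := Nat.exists_eq_add_of_le h1
    rw [lv_add] at h
    have h2 := (abs_le.1 (ℓ.abs_lv_le (sh i e) k)).2
    have h3 : (k : ℝ) ≤ n := by exact_mod_cast (show k ≤ n by omega)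
    linarith
  · obtain ⟨k, rfl⟩ := Nat.exists_eq_add_of_le h1
    rw [lv_add] at h
    have h2 := (abs_le.1 (ℓ.abs_lv_le (sh j e) k)).1
    have h3 : (k : ℝ) ≤ n := by exact_mod_cast (show k ≤ n by omega)
    linarith

@[simp] lemma neg_neg_lv : ℓ.neg.neg.lv = ℓ.lv := by ext e n; simp
lemma neg_neg_Up : ℓ.neg.neg.Up = ℓ.Up := by ext w t e; simp only [Up, neg_neg_lv]
lemma neg_neg_Rise : ℓ.neg.neg.Rise = ℓ.Rise := by ext w t e; simp only [Rise, neg_neg_lv]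

lemma Up_mono {w w' : ℝ} {t t' : ℕ} (hw : w' ≤ w) (ht : t ≤ t') : ℓ.Up w t ⊆ ℓ.Up w' t' :=
  fun _ ⟨n, h1, h2, h3⟩ => ⟨n, h1.trans ht, hw.trans h2, h3⟩

lemma β_le_one : ℓ.β ≤ 1 := ℓ.up.trans measureReal_le_one

/-- Range `w` within `t` steps, as an event of pairs. -/
def Th (w : ℝ) (t : ℕ) : Set ((ℕ → W.D) × (ℕ → T)) := {x | ℓ.Rng w x.1 t}

end Lev

end Pool.Agent.MP_db8016_pr.HD

end

section

/-! The statements that are passed between the files. -/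

namespace Pool.Agent.MP_db8016_pr.HD
open MeasureTheory ProbabilityTheory Filter Finset

/-! ### General facts -/

def StopStmt : Prop := ∀ (α : Type) [MeasurableSpace α] [Countable α] [DiscreteMeasurableSpace α]
  (S S' : Measure (ℕ → α)) [IsFiniteMeasure S] [IsFiniteMeasure S']
  (Q : (ℕ → α) → ℕ → Prop), Adapt Q → ∀ (B B' : Set (ℕ → α)), MeasurableSet B → MeasurableSet B' →
  ∀ c c' : ℝ, (∀ e n, First Q e n → c' * S'.real (Cy e n ∩ B') ≤ c * S.real (Cy e n ∩ B)) →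
  c' * S'.real ({e | ∃ n, Q e n} ∩ B') ≤ c * S.real ({e | ∃ n, Q e n} ∩ B)

def FubStmt : Prop := ∀ (Ω Ω' : Type) [MeasurableSpace Ω] [MeasurableSpace Ω'] (S : Measure Ω)
  (S' : Measure Ω') [IsProbabilityMeasure S] [IsProbabilityMeasure S'] (B B' : Set (Ω × Ω')),
  MeasurableSet B → MeasurableSet B' → ∀ c c' : ℝ,
  (∀ b, c' * S.real {e | (e, b) ∈ B'} ≤ c * S.real {e | (e, b) ∈ B}) →
  c' * (S.prod S').real B' ≤ c * (S.prod S').real B

def CSStmt : Prop := ∀ (Ω ι : Type) [MeasurableSpace Ω] (ρ : Measure Ω) [IsFiniteMeasure ρ]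
  (s : Finset ι) (Z : ι → Set Ω) (A : Set Ω), (∀ i, MeasurableSet (Z i)) → MeasurableSet A →
  (∑ i ∈ s, ρ.real (Z i ∩ A)) ^ 2 ≤ (∑ i ∈ s, ∑ j ∈ s, ρ.real (Z i ∩ Z j)) * ρ.real A

/-! ### The planar walk -/

def IidStmt : Prop := ∀ (m : Measure T) [IsProbabilityMeasure m] (e : ℕ → T) (n : ℕ),
  (IID m).real (Cy e n) = ∏ i ∈ range n, m.real {e i} ∧
  ∀ B, MeasurableSet B →
    (IID m).real (Cy e n ∩ sh n ⁻¹' B) = (IID m).real (Cy e n) * (IID m).real B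

def SM1Stmt : Prop := ∀ (m : Measure T) [IsProbabilityMeasure m] (Q : (ℕ → T) → ℕ → Prop),
  Adapt Q → ∀ (E : (ℕ → T) → ℕ → Set (ℕ → T)) (c : ℝ), (∀ a n, MeasurableSet (E a n)) →
  (∀ a a' n, (∀ i < n, a' i = a i) → E a' n = E a n) →
  (∀ a n, First Q a n → c ≤ (IID m).real (E a n)) →
  c * (IID m).real {a | ∃ n, Q a n} ≤ (IID m).real {a | ∃ n, First Q a n ∧ sh n a ∈ E a n}

def SM2Stmt : Prop := ∀ (m : Measure T) [IsProbabilityMeasure m] (Q Q' : (ℕ → T) → ℕ → Prop),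
  Adapt Q → Adapt Q' → ∀ (E : ℕ → ℕ → Set ((ℕ → T) × (ℕ → T))) (c : ℝ), 0 ≤ c →
  (∀ n n', MeasurableSet (E n n')) →
  (∀ a n b n', First Q a n → First Q' b n' → c ≤ (IID2 m).real (E n n')) →
  c * (IID m).real {a | ∃ n, Q a n} * (IID m).real {b | ∃ n', Q' b n'} ≤
    (IID2 m).real {x | ∃ n n', First Q x.1 n ∧ First Q' x.2 n' ∧ (sh n x.1, sh n' x.2) ∈ E n n'}

def RevStmt : Prop := ∀ (m : Measure T) [IsProbabilityMeasure m] (s n : ℕ)
  (E : Set ((ℕ → T) × (ℕ → T))), Det2 n s E →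
  (IID m).real {a | (sh s a, rev s a) ∈ E} = (IID2 m).real E

/-- Events that depend on disjoint finite sets of coordinates are independent. -/
def CoordStmt : Prop := ∀ (m : Measure T) [IsProbabilityMeasure m] (F F' : Finset ℕ)
  (A B : Set (ℕ → T)), Disjoint F F' → (∀ a a', (∀ i ∈ F, a' i = a i) → a ∈ A → a' ∈ A) →
  (∀ a a', (∀ i ∈ F', a' i = a i) → a ∈ B → a' ∈ B) →
  (IID m).real (A ∩ B) = (IID m).real A * (IID m).real B

def OptStmt : Prop := ∀ (m : Measure T) [IsProbabilityMeasure m] (l : Lat m) (Dm : Set (ℤ × ℤ))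
  (x : ℤ × ℤ) (t : ℕ) (f : ℕ → ℤ × ℤ → ℝ) (E : Set (ℕ → T)) (c₀ c : ℝ), MeasurableSet E →
  (∀ k < t, ∀ z ∈ Dm, f k z ≤ l.av (f (k + 1)) z) →
  (∀ a, f (l.stop Dm x t a) (x + l.Y a (l.stop Dm x t a)) ≤ c₀ + c * E.indicator 1 a) →
  f 0 x ≤ c₀ + c * (IID m).real E

def ClimbStmt : Prop := ∀ (m : Measure T) [IsProbabilityMeasure m] (l : Lat m) (h H M : ℤ) (t : ℕ),
  0 < h → h ≤ H → 0 < M → 0 < t →
  (h : ℝ) / H * (1 - l.q / l.p * (H : ℝ) ^ 2 / (M : ℝ) ^ 2 - (H : ℝ) ^ 2 / (2 * l.p * t)) ≤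
    (IID m).real {a | ∃ n ≤ t, l.Ph h (H - h) M M a n}

def TransitStmt : Prop := ∀ (m : Measure T) [IsProbabilityMeasure m] (l : Lat m) (a₀ : ℤ), 0 < a₀ →
  ∃ (c : ℝ) (X : ℤ) (A : ℕ), 0 < c ∧ 0 < X ∧ ∀ h : ℤ, 0 < h →
    c ≤ (IID m).real {a | ∃ n : ℕ, (n : ℤ) ≤ A * h ^ 2 ∧ l.Ph h (a₀ * h) h (X * h) a n}

def WaitStmt : Prop := ∀ (m : Measure T) [IsProbabilityMeasure m] (l : Lat m) (A : ℕ),
  ∃ (c : ℝ) (K : ℕ), 0 < c ∧ 1 ≤ K ∧ ∀ h : ℤ, 0 < h → ∀ t : ℕ, (t : ℤ) ≤ A * h ^ 2 →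
    c ≤ (IID m).real (l.WaitEv h K t)

def DevStmt : Prop := ∀ (m : Measure T) [IsProbabilityMeasure m] (l : Lat m) (M : ℤ) (t : ℕ),
  0 < M → (IID m).real {a | ∃ k ≤ t, M ≤ nn (l.Y a k)} ≤ t / (M : ℝ) ^ 2

/-- From far away a box is avoided for a long time with probability `1 / log`. -/
def AnnStmt : Prop := ∀ (m : Measure T) [IsProbabilityMeasure m] (l : Lat m) (K : ℤ), 0 < K →
  ∃ X : ℤ, 0 < X ∧ ∀ M : ℤ, X ≤ M → ∃ c : ℝ, 0 < c ∧ ∀ (r : ℤ) (z : ℤ × ℤ), 0 < r → X * r ≤ z.1 →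
    nn z ≤ M * r → ∀ j n : ℕ, (n : ℤ) ≤ 2 ^ j * r ^ 2 →
    c / (j + 1) ≤ (IID m).real {a | ∀ k ≤ n, K * r < nn (z + l.Y a k)}

def ExtStmt : Prop := ∀ (m : Measure T) [IsProbabilityMeasure m] (l : Lat m) (K : ℤ), 0 < K →
  ∃ c : ℝ, 0 < c ∧ ∀ r : ℤ, 0 < r → ∀ j n : ℕ, (n : ℤ) ≤ 2 ^ j * r ^ 2 →
    c / (j + 1) ≤ (IID m).real (l.ExtEv r K n)

def Way1Geo : Prop := ∀ (m : Measure T) (l : Lat m) (ρ H g K K₁ K' : ℤ) (a b : ℕ → T) (n n' : ℕ),
  0 < ρ → ρ ≤ H → 0 ≤ g → K * ρ ≤ H → 1 ≤ K₁ → K₁ + 1 ≤ K' →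
  l.Ph ρ (H - ρ) (K₁ * H) (K₁ * H) a n → l.Ph ρ (H - ρ) (K₁ * H) (K₁ * H) b n' →
  l.Lead ρ g K H g K' a n b n'

def Way2Geo : Prop := ∀ (m : Measure T) (l : Lat m) (ρ h H g K K₀ a₁ X₁ a₂ X₂ a₃ X₃ K' : ℤ)
  (a b : ℕ → T) (n n' : ℕ), 0 < ρ → ρ ≤ h → 0 ≤ g → g ≤ ρ → K * ρ ≤ h → 1 ≤ K₀ →
  2 * K₀ + 8 ≤ a₁ → 0 < X₁ → 0 < a₂ → 0 < X₂ → 2 * K₀ + 6 ≤ a₃ → 0 < X₃ →
  (K₀ + 1 + a₁ + X₁ + a₂ + X₂) * h ≤ H → K₀ + 1 + a₃ + X₃ ≤ K' →
  l.Way2 ρ h H K₀ a₁ X₁ a₂ X₂ a₃ X₃ a n → l.Way2 ρ h H K₀ a₁ X₁ a₂ X₂ a₃ X₃ b n' →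
  l.Lead ρ g K H g K' a n b n'

def Way12Geo : Prop := ∀ (m : Measure T) (l : Lat m) (ρ h H K₀ a₁ X₁ a₂ X₂ a₃ X₃ M : ℤ)
  (a : ℕ → T) (n n' : ℕ), 0 < h → 0 < X₁ → X₁ + 2 ≤ a₂ → (X₁ + 2) * h ≤ H →
  l.Way2 ρ h H K₀ a₁ X₁ a₂ X₂ a₃ X₃ a n → l.Ph ρ (H - ρ) M M a n' → False

def WaitGeo : Prop := ∀ (m : Measure T) (l : Lat m) (r g K Kw K' : ℤ) (a b : ℕ → T) (n n' : ℕ),
  0 < r → 0 ≤ g → 4 * K + 2 * Kw ≤ K' → 0 ≤ Kw → a ∈ l.WaitEv (2 * r) Kw n →
  b ∈ l.WaitEv (2 * r) Kw n' → l.Lead (4 * r) g K r r K' a n b n'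

def LeadTrans : Prop := ∀ (m : Measure T) (l : Lat m) (ρ g K ρ₁ K₁ ρ₂ g₂ K₂ : ℤ) (a b : ℕ → T)
  (n n' k k' : ℕ), l.Lead ρ g K ρ₁ g K₁ a n b n' →
  l.Lead ρ₁ g K₁ ρ₂ g₂ K₂ (sh n a) k (sh n' b) k' → l.Lead ρ g K ρ₂ g₂ K₂ a (n + k) b (n' + k')

def LeadDet : Prop := ∀ (m : Measure T) (l : Lat m) (ρ g K ρ' g' K' : ℤ) (n n' : ℕ),
  Det2 n n' {x : (ℕ → T) × (ℕ → T) | l.Lead ρ g K ρ' g' K' x.1 n x.2 n'}

def Way2Prob : Prop := ∀ (m : Measure T) [IsProbabilityMeasure m] (l : Lat m),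
  ∃ (K₀ a₁ X₁ a₂ X₂ a₃ X₃ : ℤ) (A : ℕ) (c : ℝ), 0 < c ∧ 1 ≤ K₀ ∧ 2 * K₀ + 8 ≤ a₁ ∧ 0 < X₁ ∧
    X₁ + 2 ≤ a₂ ∧ 0 < X₂ ∧ 2 * K₀ + 6 ≤ a₃ ∧ 0 < X₃ ∧ ∀ ρ lam : ℤ, 0 < ρ → 1 ≤ lam →
    c / (lam : ℝ) ^ 2 ≤ (IID m).real {a | ∃ n : ℕ, (n : ℤ) ≤ A * (lam ^ 2 * ρ) ^ 2 ∧
      l.Way2 ρ (lam * ρ) (lam ^ 2 * ρ) K₀ a₁ X₁ a₂ X₂ a₃ X₃ a n}

def StageStmt : Prop := ∀ (m : Measure T) [IsProbabilityMeasure m] (l : Lat m),
  ∃ (K : ℤ) (A : ℕ) (c : ℝ), 0 < c ∧ 1 ≤ K ∧ 1 ≤ A ∧ ∀ lam K' ρ g : ℤ, K ≤ K' → K' ≤ lam → 0 < ρ →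
    0 ≤ g → g ≤ ρ → ∀ (E : ℕ → ℕ → Set ((ℕ → T) × (ℕ → T))) (b : ℝ), 0 ≤ b →
    (∀ n n', MeasurableSet (E n n')) →
    (∀ n n' : ℕ, (n : ℤ) ≤ A * (lam ^ 2 * ρ) ^ 2 → (n' : ℤ) ≤ A * (lam ^ 2 * ρ) ^ 2 →
      b ≤ (IID2 m).real (E n n')) →
    (1 + c) / (lam : ℝ) ^ 4 * b ≤ (IID2 m).real {x | ∃ n n' : ℕ,
      (n : ℤ) ≤ A * (lam ^ 2 * ρ) ^ 2 ∧ (n' : ℤ) ≤ A * (lam ^ 2 * ρ) ^ 2 ∧
      l.Lead ρ g K' (lam ^ 2 * ρ) g K x.1 n x.2 n' ∧ (sh n x.1, sh n' x.2) ∈ E n n'}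

def BlockStmt : Prop := ∀ (m : Measure T) [IsProbabilityMeasure m] (l : Lat m),
  ∃ A μ K : ℕ, 2 ≤ A ∧ A ≤ K ∧ 3 * K ≤ μ ∧ ∀ r : ℕ, 1 ≤ r →
    2 ≤ (μ : ℝ) ^ 2 * (IID2 m).real {x | l.Lead r r K (μ * r : ℕ) (μ * r : ℕ) K
      x.1 (A * (μ * r) ^ 2 - A * r ^ 2) x.2 (A * (μ * r) ^ 2 - A * r ^ 2)}

def CutStmt : Prop := ∀ (m : Measure T) [IsProbabilityMeasure m] (l : Lat m), Nonempty (Cut l)

def ProdStmt : Prop := ∀ (m : Measure T) [IsProbabilityMeasure m] (l : Lat m) (c : Cut l)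
  (F : Finset ℕ), (IID2 m).real {x | ∀ i ∈ F, (sh (c.t i) x.1, sh (c.t i) x.2) ∈ c.G i} =
    ∏ i ∈ F, (IID2 m).real (c.G i)

def QStmt : Prop := ∀ (m : Measure T) [IsProbabilityMeasure m] (l : Lat m) (c : Cut l) (I : ℕ),
  c.q (I + 1) = c.q I * (IID2 m).real (c.G I) ∧ 0 < c.q I ∧ ∀ k, c.π₀ ^ k * c.q I ≤ c.q (I + k)

def SecondStmt : Prop := ∀ (m : Measure T) [IsProbabilityMeasure m] (l : Lat m) (c : Cut l),
  ∃ C₀ : ℝ, 0 < C₀ ∧ ∀ J I, J ≤ I → 1 ≤ I →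
    ∑ s ∈ Ico (c.t I) (2 * c.t I), ∑ s' ∈ Ico (c.t I) (2 * c.t I),
      (IID m).real (c.At J s ∩ c.At J s') ≤ C₀ * ((c.t I : ℝ) * c.q J) ^ 2

/-! ### The model -/

def AutoStmt : Prop := ∀ (W : Model) (e : ℕ → W.D) (n : ℕ) (B : Set (ℕ → T)), MeasurableSet B →
  W.cS e n (W.la ⁻¹' B) = W.S.real (Cy e n) * (IID W.m).real B

def FreshStmt : Prop := ∀ (W : Model) (e : ℕ → W.D) (n : ℕ) (A : Set (ℕ → W.D)),
  (∀ e' ∈ A, ∃ k, Cy e' k ⊆ A ∧ ∀ i < n, ∀ j < k, W.X e i ≠ W.X e n + W.X e' j) →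
  W.cS e n A = W.S.real (Cy e n) * W.S.real A

/-- Later lateral steps are independent of the past. -/
def IndepStmt : Prop := ∀ (W : Model) (n : ℕ) (Θ : Set ((ℕ → W.D) × (ℕ → T)))
  (E : Set ((ℕ → T) × (ℕ → T))), Det2 n n Θ → MeasurableSet E →
  W.M.real (Θ ∩ {x | (sh n (W.la x.1), sh n x.2) ∈ E}) = W.M.real Θ * (IID2 W.m).real E

def TransferStmt : Prop := ∀ (W : Model) (e : ℕ → W.D) (n s : ℕ)
  (J : Set ((ℕ → W.D) × (ℕ → T))),
  (∀ x ∈ J, ∃ k, (∀ y : (ℕ → W.D) × (ℕ → T), (∀ i < k, y.1 i = x.1 i) →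
      (∀ i < s, y.2 i = x.2 i) → y ∈ J) ∧
    (∀ j < k, ∀ s' ≤ s, 1 ≤ s' → W.l.Y (W.la x.1) j + W.l.Y x.2 s' ≠ 0) ∧
    (∀ j < k, ∀ i < n, W.l.Y (W.la e) i ≠
      W.l.Y (W.la e) n + W.l.Y x.2 s + W.l.Y (W.la x.1) j)) →
  W.cS e n (W.At J s) = W.S.real (Cy e n) * W.M.real J

def SlowStmt : Prop := ∀ (W : Model) (ℓ : Lev W) (z : ℝ) (t : ℕ),
  ℓ.β - W.S.real (ℓ.Up z t) ≤ W.S.real (ℓ.Slow z t)

def FastStmt : Prop := ∀ (W : Model) (ℓ : Lev W) (z : ℝ) (t g : ℕ) (e : ℕ → W.D) (n : ℕ), 0 ≤ z →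
  ℓ.Rec e n → W.cS e n (ℓ.Reach (g * (z + 1)) t) ≤
    (1 - W.S.real (ℓ.Slow z t)) ^ g * W.S.real (Cy e n)

def GroupStmt : Prop := ∀ (W : Model) (ℓ : Lev W) (z : ℝ) (t g j : ℕ), 0 ≤ z → 1 ≤ j →
  W.S.real (ℓ.Reach (j * (g * (z + 1) + 1)) (j * t)) ≤ j * (1 - W.S.real (ℓ.Slow z t)) ^ g

def NoRegStmt : Prop := ∀ (W : Model) (ℓ : Lev W) (ε : ℝ), 0 < ε → ∃ x₀ : ℝ, ∀ x, x₀ ≤ x →
  ∀ e n, ℓ.Rec e n → W.cS e n (ℓ.Back x) ≤ ε * W.S.real (Cy e n)

def DrawStmt : Prop := ∀ (W : Model) (ℓ : Lev W) (N : ℕ) (ε : ℝ), 0 < ε → ∃ x₀ : ℝ, ∀ x, x₀ ≤ x →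
  W.S.real {e | (∀ n, 0 ≤ ℓ.lv e n) ∧
    ∃ i j, i ≤ j ∧ ℓ.lv e i < N * x ∧ x ≤ ℓ.lv e i - ℓ.lv e j} ≤ ε

def X1Stmt : Prop := ∀ (W : Model) (ℓ : Lev W) (w : ℝ) (t₀ : ℕ) (R : ℤ) (c : ℝ), 0 < R →
  ℓ.Exit w t₀ R c → ∀ (k : ℕ) (e : ℕ → W.D) (n : ℕ) (h : ℤ) (t : ℕ), 0 ≤ h →
  (∀ i ≤ n, W.l.U (W.la e) i ≤ W.l.U (W.la e) n + h) →
  W.cS e n {e' | (∃ j ≤ t, h + k * R ≤ W.l.U (W.la e') j) ∧ ¬ ℓ.Rng w e' (t + t₀)} ≤
    (1 - c) ^ k * W.S.real (Cy e n)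

def X2Stmt : Prop := ∀ (W : Model) (ℓ : Lev W) (c : Cut W.l) (K' : ℕ) (b : ℝ), 1 ≤ K' → 0 < b →
  ∃ k₀ : ℕ, ∀ w I, 1 ≤ I → ℓ.Exit w (4 * c.t I) (K' * c.r I : ℕ) b → ∀ J, I + k₀ ≤ J →
    7 / 8 * c.q J ≤ W.M.real (W.lift (c.C J) ∩ ℓ.Th w (c.t J))

def X3Stmt : Prop := ∀ (W : Model) (ℓ : Lev W) (c : Cut W.l) (K' : ℕ) (b : ℝ), 1 ≤ K' → 0 < b →
  ∃ C₁ : ℕ, 1 ≤ C₁ ∧ ∀ w I, 1 ≤ I → ℓ.Exit w (4 * c.t I) (K' * c.r I : ℕ) b →
    ℓ.β / 2 ≤ W.S.real (ℓ.Up w (C₁ * c.t I))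

def ExitOfStmt : Prop := ∀ (W : Model) (ℓ : Lev W) (c : Cut W.l), ∃ C₀ : ℝ, 0 < C₀ ∧
  ∀ (w : ℝ) (I₀ I : ℕ) (R : ℤ) (b : ℝ) (J : ℕ → Set ((ℕ → W.D) × (ℕ → T))), I₀ ≤ I → 1 ≤ I →
  0 ≤ b → (∀ s ∈ Ico (c.t I) (2 * c.t I), b * c.q I₀ ≤ W.M.real (J s) ∧ J s ⊆ W.lift (c.C I₀) ∧
    ∀ x ∈ J s, ∃ k ≤ 2 * c.t I, (∀ y : (ℕ → W.D) × (ℕ → T), (∀ i < k, y.1 i = x.1 i) →
        (∀ i < s, y.2 i = x.2 i) → y ∈ J s) ∧
      (∀ j < k, ∀ s' ≤ s, 1 ≤ s' → W.l.Y (W.la x.1) j + W.l.Y x.2 s' ≠ 0) ∧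
      (∀ j < k, 0 < W.l.U x.2 s + W.l.U (W.la x.1) j) ∧ ℓ.Rng w x.1 k ∧
      (∀ s' ≤ s, W.l.U x.2 s - W.l.U x.2 s' < R) ∧
      (∀ j ≤ k, W.l.U x.2 s + W.l.U (W.la x.1) j < R)) →
  ℓ.Exit w (4 * c.t I) R (b ^ 2 / C₀)

def X5Stmt : Prop := ∀ (W : Model) (ℓ : Lev W) (c : Cut W.l), ∃ (K' : ℕ) (b : ℝ), 1 ≤ K' ∧ 0 < b ∧
  ∀ w I, 1 ≤ I → 1 / 2 * c.q I ≤ W.M.real (W.lift (c.C I) ∩ ℓ.Th w (c.t I)) →
    ℓ.Exit w (4 * c.t I) (K' * c.r I : ℕ) b

def RunStmt : Prop := ∀ (W : Model) (ℓ : Lev W) (j : ℕ), ∃ N₀ : ℕ, 1 ≤ N₀ ∧ ∀ N : ℕ, N₀ ≤ N →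
  ∀ (w : ℝ) (t : ℕ) (ρ : ℤ), (N : ℝ) ≤ w → 0 < ρ → (t : ℝ) ≤ ℓ.β * (ρ : ℝ) ^ 2 / 4 →
  ℓ.β / 2 ≤ W.S.real (ℓ.Up w (j * t)) → ℓ.β / 4 ≤ W.S.real (ℓ.Run (w / N) t ρ)

/-- The stopped event of `X6`: range `w` is first reached after `t I₀` and by `t I`, the past
extends to a cut event, and a run follows. -/
def JEv (W : Model) (ℓ : Lev W) (c : Cut W.l) (w z : ℝ) (I₀ I t' Kw s : ℕ) :
    Set ((ℕ → W.D) × (ℕ → T)) :=
  {x | ∃ n₀, First (ℓ.Rng w) x.1 n₀ ∧ c.t I₀ < n₀ ∧ n₀ ≤ c.t I ∧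
    (∃ y : ℕ → W.D, (∀ i < n₀, y i = x.1 i) ∧ (W.la y, x.2) ∈ c.C I) ∧
    sh (c.t I) x.2 ∈ W.l.WaitEv (c.r I) Kw (s - c.t I) ∧
    ((ℓ.Rec x.1 n₀ ∧ (∃ i ≤ n₀, w ≤ ℓ.lv x.1 n₀ - ℓ.lv x.1 i) ∧
        sh n₀ x.1 ∈ ℓ.Run z t' (c.r I₀)) ∨
      (ℓ.neg.Rec x.1 n₀ ∧ (∃ i ≤ n₀, w ≤ ℓ.lv x.1 i - ℓ.lv x.1 n₀) ∧
        sh n₀ x.1 ∈ ℓ.neg.Run z t' (c.r I₀)))}

def JProbStmt : Prop := ∀ (W : Model) (ℓ : Lev W) (c : Cut W.l) (w z : ℝ) (I₀ I t' Kw s : ℕ)
  (cw : ℝ), 0 < w → I₀ ≤ I → 0 ≤ cw →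
  cw ≤ (IID W.m).real (W.l.WaitEv (c.r I) Kw (s - c.t I)) →
  W.M.real (W.lift (c.C I₀) ∩ ℓ.Th w (c.t I₀)) ≤ 1 / 2 * c.q I₀ →
  7 / 8 * c.q I ≤ W.M.real (W.lift (c.C I) ∩ ℓ.Th w (c.t I)) →
  ℓ.β / 4 ≤ W.S.real (ℓ.Run z t' (c.r I₀)) → ℓ.β / 4 ≤ W.S.real (ℓ.neg.Run z t' (c.r I₀)) →
  ℓ.β / 4 * cw * (3 / 8 * c.q I) ≤ W.M.real (JEv W ℓ c w z I₀ I t' Kw s)

def X6Stmt : Prop := ∀ (W : Model) (ℓ : Lev W) (c : Cut W.l), ∃ K' : ℕ, 1 ≤ K' ∧ ∀ k : ℕ,
  ∃ b : ℝ, 0 < b ∧ ∀ (w z : ℝ) (I₀ t' : ℕ), 1 ≤ I₀ → 0 < w → t' ≤ c.t (I₀ + k) →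
  W.M.real (W.lift (c.C I₀) ∩ ℓ.Th w (c.t I₀)) ≤ 1 / 2 * c.q I₀ →
  7 / 8 * c.q (I₀ + k) ≤ W.M.real (W.lift (c.C (I₀ + k)) ∩ ℓ.Th w (c.t (I₀ + k))) →
  ℓ.β / 4 ≤ W.S.real (ℓ.Run z t' (c.r I₀)) → ℓ.β / 4 ≤ W.S.real (ℓ.neg.Run z t' (c.r I₀)) →
  ℓ.Exit (w + z) (4 * c.t (I₀ + k)) (K' * c.r (I₀ + k) : ℕ) b

def StartStmt : Prop := ∀ (W : Model) (ℓ : Lev W) (N t : ℕ) (R : ℤ), N ≤ t → (N : ℤ) < R →
  ℓ.Exit N t R (W.κ ^ N)

def SpeedStmt : Prop := ∀ (W : Model) (ℓ : Lev W) (c : Cut W.l),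
  ∃ (a w₀ : ℝ) (k₁ C₁ I₀ : ℕ), 1 < a ∧ 0 < w₀ ∧ 1 ≤ k₁ ∧ 1 ≤ I₀ ∧
    ∀ k, ℓ.β / 2 ≤ W.S.real (ℓ.Up (a ^ k * w₀) (C₁ * c.t (I₀ + k * k₁)))

def LateStmt : Prop := ∀ (W : Model) (ℓ : Lev W) (g g' : ℕ) (w w' x : ℝ) (t₁ n m₀ : ℕ), 1 ≤ g →
  1 ≤ g' → 0 ≤ w' → ℓ.β / 2 ≤ W.S.real (ℓ.Up w n) → W.S.real (ℓ.Up (w' + 1) t₁) < ℓ.β / 2 →
  g * (w' + 2) ≤ x → g' * (2 * x + 1) ≤ w →
  W.S.real (ℓ.Pos m₀ \ {e | ∀ σ ≤ t₁, sh σ e ∈ ℓ.Rise x n}) ≤
    W.S.real (ℓ.Pos m₀ \ {e | ∀ k, 0 ≤ ℓ.lv e k}) + 2 / (ℓ.β * g) + 2 / (ℓ.β * g')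

def MoveStmt : Prop := ∀ (W : Model) (ℓ : Lev W) (g N : ℕ) (ε : ℝ), 1 ≤ g → 0 < ε → ∃ x₀ : ℝ,
  ∀ x, x₀ ≤ x → ∀ (w : ℝ) (n m₀ : ℕ), 0 ≤ w → W.S.real (ℓ.Up (w + 1) n) < ℓ.β / 2 →
  2 * (g * (w + 2) + 1) ≤ N * x →
  W.S.real (ℓ.Pos m₀ ∩ ℓ.neg.Rise x (2 * n)) ≤
    W.S.real (ℓ.Pos m₀ \ {e | ∀ k, 0 ≤ ℓ.lv e k}) + 4 / (ℓ.β * g) + ε

def PosLimStmt : Prop := ∀ (W : Model) (ℓ : Lev W),
  Tendsto (fun m₀ => W.S.real (ℓ.Pos m₀ \ {e | ∀ k, 0 ≤ ℓ.lv e k})) atTop (nhds 0)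

/-- The lateral event of the last step. -/
def ZEv {m : Measure T} {l : Lat m} (c : Cut l) (I Kw K₂ n s : ℕ) : Set ((ℕ → T) × (ℕ → T)) :=
  c.C I ∩ {x | sh (c.t I) x.1 ∈ l.ExtEv (c.r I) K₂ (n - c.t I) ∧
    sh (c.t I) x.2 ∈ l.WaitEv (c.r I) Kw (s - c.t I)}

/-- After every short initial piece the future is a fresh walk on `ZEv`. -/
def ZTransStmt : Prop := ∀ (W : Model) (c : Cut W.l) (I Kw K₂ n s m₀ : ℕ) (B : Set (ℕ → W.D)),
  1 ≤ I → 2 * c.K + Kw + 1 ≤ K₂ → c.t I ≤ n → c.t I ≤ s → m₀ ≤ c.r I → Det n B →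
  ∀ A : Set (ℕ → W.D), Det m₀ A →
  W.S.real (A ∩ sh m₀ ⁻¹' W.At (W.lift (ZEv c I Kw K₂ n s) ∩ {x | x.1 ∈ B}) s) =
    W.S.real A * W.M.real (W.lift (ZEv c I Kw K₂ n s) ∩ {x | x.1 ∈ B})

def KeyStmt : Prop := ∀ (W : Model) (ℓ : Lev W) (c : Cut W.l), ∃ C : ℝ, 0 < C ∧
  ∀ (Lb I m₀ : ℕ) (x ε₁ ε₂ : ℝ), 1 ≤ I → m₀ ≤ c.r I →
  W.S.real (ℓ.Pos m₀ \ {e | ∀ σ ≤ c.t (I + 1), sh σ e ∈ ℓ.Rise x (c.t (I + 1 + Lb))}) ≤ ε₁ →
  W.S.real (ℓ.neg.Pos m₀ ∩ ℓ.Rise x (2 * c.t (I + 1 + Lb))) ≤ ε₂ →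
  1 ≤ C * ((Lb : ℝ) + 1) ^ 2 * (ε₁ + ε₂)

def FinalStmt : Prop := ∀ (W : Model) (ℓ : Lev W) (c : Cut W.l), ∃ C : ℝ, 0 < C ∧ ∀ Lb : ℕ,
  ∃ (I₁ : ℕ) (w₁ : ℝ), ∀ I, I₁ ≤ I → ∀ w w' : ℝ, w₁ ≤ w → 0 ≤ w' →
  ℓ.β / 2 ≤ W.S.real (ℓ.Up w (c.t (I + 1 + Lb))) →
  W.S.real (ℓ.neg.Up (w + 1) (c.t (I + 1 + Lb))) < ℓ.β / 2 →
  W.S.real (ℓ.Up (w' + 1) (c.t (I + 1))) < ℓ.β / 2 →
  w ≤ C * ((Lb : ℝ) + 1) ^ 4 * (w' + 1)

def CoreStmt : Prop := ∀ (W : Model) (_ : Lev W), False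

/-! ### From the cookies to the model -/

def ZStmt : Prop := ∀ (D Pt : Type) [Fintype D] [MeasurableSpace D] [DiscreteMeasurableSpace D]
  [AddCommGroup Pt] (vec : D → Pt) (S : Measure (ℕ → D)) [IsProbabilityMeasure S] (L : Pt →+ ℝ)
  (κ : ℝ), (∀ d, |L (vec d)| ≤ 1) → (∃ d, L (vec d) = 1) → (∃ d, L (vec d) = -1) → 0 < κ →
  (∀ e n d, κ * S.real (Cy e n) ≤ S.real (Cy e n ∩ {e' | e' n = d})) →
  (∀ e n k j, (∀ i < n, ∀ i' < j, ps vec e i ≠ ps vec e (n + k + i')) →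
    S.real (Cy e (n + k)) * S.real (Cy (sh n e) (k + j)) ≤ S.real (Cy e (n + k + j))) →
  (∀ e n k, (∀ i < n, ∀ j < k, ps vec e i ≠ ps vec e (n + j)) →
    S.real (Cy e (n + k)) = S.real (Cy e n) * S.real (Cy (sh n e) k)) →
  S {e | Tendsto (fun n => L (ps vec e n)) atTop atTop} ≠ 0 →
  S {e | Tendsto (fun n => L (ps vec e n)) atTop atTop} ≠ 1 →
  ∃ β : ℝ, 0 < β ∧ β ≤ S.real {e | ∀ n, 0 ≤ L (ps vec e n)} ∧
    β ≤ S.real {e | ∀ n, L (ps vec e n) ≤ 0}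

/-- The averaged weight of the first `n` steps of `e`. -/
noncomputable def wtc {d : ℕ} (μ : Measure ((Fin d → ℤ) → Fin d × Bool → ℕ → ℝ))
    (e : ℕ → Fin d × Bool) (n : ℕ) : ENNReal :=
  ∫⁻ ω, ENNReal.ofReal (∏ i ∈ range n, ω (pos e i) (e i) (visits e i)) ∂μ

def WtStmt : Prop := ∀ (d : ℕ) (μ : Measure ((Fin d → ℤ) → Fin d × Bool → ℕ → ℝ))
  [IsProbabilityMeasure μ],
  iIndepFun (fun (z : Fin d → ℤ) (ω : (Fin d → ℤ) → Fin d × Bool → ℕ → ℝ) => ω z) μ →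
  (∀ z, IdentDistrib (fun ω : (Fin d → ℤ) → Fin d × Bool → ℕ → ℝ => ω z) (fun ω => ω 0) μ μ) →
  (∀ᵐ ω ∂μ, ∀ z i, ∑ e, ω z e i = 1) → (∀ᵐ ω ∂μ, ∀ z e i, 0 ≤ ω z e i) →
  (∀ e n k j, (∀ i < n, ∀ i' < j, pos e i ≠ pos e (n + k + i')) →
    wtc μ e (n + k) * wtc μ (sh n e) (k + j) ≤ wtc μ e (n + k + j)) ∧
  (∀ e n k, (∀ i < n, ∀ j < k, pos e i ≠ pos e (n + j)) →
    wtc μ e (n + k) = wtc μ e n * wtc μ (sh n e) k)

/-- The law of the step sequence of the averaged walk. -/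
def LawStmt : Prop := ∀ (d : ℕ) (μ : Measure ((Fin d → ℤ) → Fin d × Bool → ℕ → ℝ))
  [IsProbabilityMeasure μ], 0 < d → (∀ᵐ ω ∂μ, ∀ z i, ∑ e, ω z e i = 1) →
  (∀ᵐ ω ∂μ, ∀ z e i, 0 ≤ ω z e i) →
  ∀ (P₀ : Measure (ℕ → Fin d → ℤ)) [IsProbabilityMeasure P₀],
  (∀ e n, P₀ {X | ∀ i ≤ n, X i = pos e i} = wtc μ e n) →
  ∃ S : Measure (ℕ → Fin d × Bool), IsProbabilityMeasure S ∧ (∀ e n, S (Cy e n) = wtc μ e n) ∧
    ∀ l : Fin d → ℝ, P₀ {X | Tendsto (fun n => ∑ j, (X n j : ℝ) * l j) atTop atTop} =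
      S {e | Tendsto (fun n => ∑ j, (pos e n j : ℝ) * l j) atTop atTop}

def MainStmt : Prop := ∀ (d : ℕ) (μ : Measure ((Fin d → ℤ) → Fin d × Bool → ℕ → ℝ))
  [IsProbabilityMeasure μ],
  iIndepFun (fun (z : Fin d → ℤ) (ω : (Fin d → ℤ) → Fin d × Bool → ℕ → ℝ) => ω z) μ →
  (∀ z, IdentDistrib (fun ω : (Fin d → ℤ) → Fin d × Bool → ℕ → ℝ => ω z) (fun ω => ω 0) μ μ) →
  (∀ᵐ ω ∂μ, ∀ z i, ∑ e, ω z e i = 1) → ∀ κ : ℝ, 0 < κ → (∀ᵐ ω ∂μ, ∀ z e i, κ ≤ ω z e i) →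
  ∀ (a b : Fin d), a ≠ b → ∀ p q : ℝ,
  (∀ᵐ ω ∂μ, ∀ z s i, ω z (a, s) i = p ∧ ω z (b, s) i = q) →
  ∀ (P₀ : Measure (ℕ → Fin d → ℤ)) [IsProbabilityMeasure P₀],
  (∀ e n, P₀ {X | ∀ i ≤ n, X i = pos e i} = wtc μ e n) → ∀ l : Fin d → ℝ, l ≠ 0 →
  P₀ {X | Tendsto (fun n => ∑ j, (X n j : ℝ) * l j) atTop atTop} = 0 ∨
    P₀ {X | Tendsto (fun n => ∑ j, (X n j : ℝ) * l j) atTop atTop} = 1

end Pool.Agent.MP_db8016_pr.HD

end

section

/-! Escape on both sides has positive probability when the zero-one law fails. -/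

namespace Pool.Agent.MP_db8016_pr.HD
open MeasureTheory ProbabilityTheory Filter Finset

namespace ZOneAux
open Model

variable {D Pt : Type} [Fintype D] [MeasurableSpace D] [DiscreteMeasurableSpace D]
  [AddCommGroup Pt] {S : Measure (ℕ → D)} [IsProbabilityMeasure S]

/-- A set of density at most `θ < 1` along its own points is null. -/
lemma zero_of (hS : StopStmt) {E : Set (ℕ → D)} (hE : MeasurableSet E) {θ : ℝ} (h0 : 0 ≤ θ)
    (hθ : θ < 1)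
    (h : ∀ e ∈ E, ∀ n, ∃ m, n ≤ m ∧ S.real (Cy e m ∩ E) ≤ θ * S.real (Cy e m)) : S E = 0 := by
  let _ : TopologicalSpace D := ⊥
  have : DiscreteTopology D := ⟨rfl⟩
  have key : ∀ ε : ℝ, 0 < ε → S.real E ≤ θ * (S.real E + ε) := fun ε hε => by
    obtain ⟨U, hEU, hU, hlt⟩ := E.exists_isOpen_lt_add (μ := S) (measure_ne_top _ _)
      (ε := ENNReal.ofReal ε) (by simpa using hε)
    have h1 : S.real U ≤ S.real E + ε := by
      have := ENNReal.toReal_mono (by finiteness) hlt.le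
      rwa [ENNReal.toReal_add (measure_ne_top _ _) ENNReal.ofReal_ne_top,
        ENNReal.toReal_ofReal hε.le] at this
    have h2 := hS D S S (fun a k => Cy a k ⊆ U ∧ S.real (Cy a k ∩ E) ≤ θ * S.real (Cy a k))
      (fun a a' n h1 h2 => by
        beta_reduce
        rwa [Cy_congr (e := a) (e' := a') h1]) Set.univ E
      MeasurableSet.univ hE θ 1 (fun a k hk => by simpa using hk.1.2)
    have h3 : E ⊆ {a | ∃ k, Cy a k ⊆ U ∧ S.real (Cy a k ∩ E) ≤ θ * S.real (Cy a k)} := by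
      intro e he
      obtain ⟨I, u, h4, h5⟩ := isOpen_pi_iff.1 hU e (hEU he)
      obtain ⟨m, h6, h7⟩ := h e he (I.sup id + 1)
      refine ⟨m, fun a ha => h5 fun i hi => ?_, h7⟩
      rw [ha i (lt_of_lt_of_le (Nat.lt_succ_of_le (Finset.le_sup (f := id) hi)) h6)]
      exact (h4 i hi).2
    rw [Set.inter_eq_right.2 h3, one_mul, Set.inter_univ] at h2
    refine h2.trans (mul_le_mul_of_nonneg_left (le_trans (measureReal_mono ?_) h1) h0)
    rintro a ⟨k, hk, -⟩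
    exact hk (mem_Cy_self a k)
  have h4 : S.real E ≤ θ * S.real E := le_of_forall_pos_le_add fun ε hε => by
    nlinarith [key ε hε]
  have h5 : S.real E = 0 :=
    le_antisymm (by nlinarith [measureReal_nonneg (μ := S) (s := E)]) measureReal_nonneg
  rwa [measureReal_eq_zero_iff] at h5

/-- From cylinders to decreasing intersections. -/
lemma transfer (hS : StopStmt) (e : ℕ → D) (n : ℕ) {c : ℝ} (hc : 0 ≤ c) (φ : ℕ → ℕ)
    (A : ℕ → Set (ℕ → D)) (hA : ∀ j, Det (φ j) (A j)) (hm : Antitone A)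
    (h : ∀ j, ∀ a ∈ A j, c * S.real (Cy a (φ j)) ≤ S.real (Cy (cat e n a) (n + φ j))) :
    c * S.real (⋂ j, A j) ≤ S.real (Cy e n ∩ sh n ⁻¹' ⋂ j, A j) := by
  let S₁ : Measure (ℕ → D) := (S.restrict (Cy e n)).map (sh n)
  have e1 : ∀ B, MeasurableSet B → S₁.real B = S.real (Cy e n ∩ sh n ⁻¹' B) := fun B hB => by
    rw [map_measureReal_apply (measurable_sh n) hB,
      measureReal_restrict_apply (measurable_sh n hB), Set.inter_comm]
  have h1 : ∀ j, c * S.real (A j) ≤ S₁.real (A j) := fun j => by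
    have h2 := hS D S₁ S (fun a k => k = φ j ∧ a ∈ A j)
      (fun a a' k h1 h2 => ⟨h2.1, hA j a a' (h2.1 ▸ h1) h2.2⟩) Set.univ Set.univ
      MeasurableSet.univ MeasurableSet.univ 1 c (fun a k hk => by
        obtain ⟨⟨rfl, h3⟩, -⟩ := hk
        rw [Set.inter_univ, one_mul, e1 _ (measurableSet_Cy _ _), ← Cy_cat]
        exact h j a h3)
    simpa using h2
  rw [← e1 _ (MeasurableSet.iInter fun j => (hA j).measurableSet)]
  have h3 := (ENNReal.tendsto_toReal (measure_ne_top S₁ _)).comp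
    (tendsto_measure_iInter_atTop (μ := S₁) (fun j => (hA j).measurableSet.nullMeasurableSet) hm
      ⟨0, measure_ne_top _ _⟩)
  exact ge_of_tendsto' h3 fun j => le_trans
    (mul_le_mul_of_nonneg_left (measureReal_mono (Set.iInter_subset _ j)) hc) (h1 j)

omit [Fintype D] [DiscreteMeasurableSpace D] [IsProbabilityMeasure S] in
lemma uel_pow {κ : ℝ} (hκ : 0 < κ)
    (hU : ∀ e n d, κ * S.real (Cy e n) ≤ S.real (Cy e n ∩ {e' | e' n = d})) (e : ℕ → D)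
    (n k : ℕ) : κ ^ k * S.real (Cy e n) ≤ S.real (Cy e (n + k)) := by
  induction k with
  | zero => simp
  | succ k ih =>
    have h1 : Cy e (n + (k + 1)) = Cy e (n + k) ∩ {e' | e' (n + k) = e (n + k)} := by
      ext a
      simp only [Cy, Set.mem_ofPred_eq, Set.mem_inter_iff, ← add_assoc,
        Nat.lt_succ_iff_lt_or_eq]
      exact ⟨fun h => ⟨fun i hi => h i (Or.inl hi), h _ (Or.inr rfl)⟩,
        fun h i hi => hi.elim (h.1 i) fun e => e ▸ h.2⟩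
    rw [h1, pow_succ', mul_assoc]
    exact (mul_le_mul_of_nonneg_left ih hκ.le).trans (hU _ _ _)

variable {vec : D → Pt} {L : Pt →+ ℝ}

omit [Fintype D] [MeasurableSpace D] [DiscreteMeasurableSpace D] in
lemma abs_lv (hL : ∀ d, |L (vec d)| ≤ 1) (e : ℕ → D) (n : ℕ) : |L (ps vec e n)| ≤ n := by
  induction n with
  | zero => simp
  | succ n ih =>
    rw [ps_succ, map_add, Nat.cast_succ]
    linarith [abs_add_le (L (ps vec e n)) (L (vec (e n))), hL (e n)]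

omit [Fintype D] [MeasurableSpace D] [DiscreteMeasurableSpace D] in
lemma lv_st {d₀ : D} (hd : L (vec d₀) = 1) (n : ℕ) : L (ps vec (fun _ => d₀) n) = n := by
  simp [ps, hd]

omit [Fintype D] [MeasurableSpace D] [DiscreteMeasurableSpace D] in
lemma lv_add (e : ℕ → D) (n k : ℕ) :
    L (ps vec e (n + k)) = L (ps vec e n) + L (ps vec (sh n e) k) := by
  rw [ps_add, map_add]

lemma meas_lv (P : ℝ → Prop) (m : ℕ) : Measurable fun e : ℕ → D => P (L (ps vec e m)) :=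
  measurableSet_setOfPred.1 (Det.measurableSet (n := m) fun a a' h1 h2 => by
    rwa [Set.mem_ofPred_eq, ps_congr vec h1 le_rfl])

lemma esc (hS : StopStmt) {κ : ℝ} (hL : ∀ d, |L (vec d)| ≤ 1) {d₀ : D} (hd : L (vec d₀) = 1)
    (hκ : 0 < κ) (hU : ∀ e n d, κ * S.real (Cy e n) ≤ S.real (Cy e n ∩ {e' | e' n = d}))
    (h3 : ∀ e n k j, (∀ i < n, ∀ i' < j, ps vec e i ≠ ps vec e (n + k + i')) →
      S.real (Cy e (n + k)) * S.real (Cy (sh n e) (k + j)) ≤ S.real (Cy e (n + k + j)))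
    (h : S {e | Tendsto (fun n => L (ps vec e n)) atTop atTop} ≠ 0) :
    0 < S.real {e | ∀ n, 0 ≤ L (ps vec e n)} := by
  let A : ℕ → ℕ → Set (ℕ → D) := fun n j => {e | ∀ i ≤ j, 0 ≤ L (ps vec e (n + i))}
  obtain ⟨n, hn⟩ : ∃ n, S (⋂ j, A n j) ≠ 0 := by
    by_contra hc
    push Not at hc
    refine h (measure_mono_null (fun e he => ?_) (measure_iUnion_null hc))
    obtain ⟨n, h1⟩ := tendsto_atTop_atTop.1 he 0
    exact Set.mem_iUnion.2 ⟨n, Set.mem_iInter.2 fun j i _ => h1 _ (Nat.le_add_right _ _)⟩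
  have hst : ∀ (a : ℕ → D), a ∈ Cy (fun _ => d₀) n → ∀ i ≤ n, L (ps vec a i) = i :=
    fun a ha i hi => by rw [ps_congr vec ha hi, lv_st hd]
  have h1 := transfer (S := S) hS (fun _ => d₀) n (pow_pos hκ (n + n)).le (fun j => n + j) (A n)
    (fun j a a' h1 h2 i hi => by rw [ps_congr vec h1 (by omega)]; exact h2 i hi)
    (fun j j' hj a ha i hi => ha i (hi.trans hj)) (fun j a ha => by
      have h4 := h3 (cat (fun _ => d₀) n a) n n j fun i hi i' hi' h5 => by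
        have h6 := congrArg L h5
        rw [add_assoc, lv_add, hst _ (cat_mem _ _ _) i hi.le, hst _ (cat_mem _ _ _) n le_rfl,
          sh_cat] at h6
        have h7 : (i : ℝ) < n := by exact_mod_cast hi
        linarith [ha i' hi'.le]
      have h5 := uel_pow hκ hU (cat (fun _ => d₀) n a) 0 (n + n)
      rw [Cy_zero, probReal_univ, mul_one, zero_add] at h5
      rw [sh_cat, add_assoc] at h4
      exact (mul_le_mul_of_nonneg_right h5 measureReal_nonneg).trans h4)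
  have h2 : 0 < S.real (⋂ j, A n j) := ENNReal.toReal_pos hn (measure_ne_top _ _)
  refine ((mul_pos (pow_pos hκ _) h2).trans_le h1).trans_le (measureReal_mono ?_)
  rintro a ⟨h4, h5⟩ m
  rcases le_total m n with h6 | h6
  · rw [hst a h4 m h6]
    exact m.cast_nonneg
  · obtain ⟨i, rfl⟩ := Nat.exists_eq_add_of_le h6
    rw [lv_add, hst a h4 n le_rfl]
    rcases le_total i n with h7 | h7
    · have h8 : (i : ℝ) ≤ n := by exact_mod_cast h7
      linarith [(abs_le.1 (abs_lv hL (sh n a) i)).1]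
    · obtain ⟨k, rfl⟩ := Nat.exists_eq_add_of_le h7
      exact add_nonneg n.cast_nonneg (Set.mem_iInter.1 h5 k k le_rfl)

omit [Fintype D] [DiscreteMeasurableSpace D] in
lemma dens {E B : Set (ℕ → D)} {e : ℕ → D} {m : ℕ} {c : ℝ} (hB : MeasurableSet B)
    (h1 : c * S.real (Cy e m) ≤ S.real (Cy e m ∩ B)) (h2 : ∀ a ∈ Cy e m, a ∈ E → a ∉ B) :
    S.real (Cy e m ∩ E) ≤ (1 - c) * S.real (Cy e m) := by
  have h3 := measureReal_inter_add_sdiff (μ := S) (s := Cy e m) hB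
  have h4 : S.real (Cy e m ∩ E) ≤ S.real (Cy e m \ B) :=
    measureReal_mono fun a ha => ⟨ha.1, h2 a ha.1 ha.2⟩
  linarith

lemma trans_or (hS : StopStmt) {κ : ℝ} (hL : ∀ d, |L (vec d)| ≤ 1) {d₀ : D}
    (hd : L (vec d₀) = 1) (hκ : 0 < κ)
    (hU : ∀ e n d, κ * S.real (Cy e n) ≤ S.real (Cy e n ∩ {e' | e' n = d}))
    (hF : ∀ e n k, (∀ i < n, ∀ j < k, ps vec e i ≠ ps vec e (n + j)) →
      S.real (Cy e (n + k)) = S.real (Cy e n) * S.real (Cy (sh n e) k))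
    (hβ : 0 < S.real {e | ∀ n, 0 ≤ L (ps vec e n)}) :
    S ({e | Tendsto (fun n => L (ps vec e n)) atTop atTop} ∪
      {e | Tendsto (fun n => (-L) (ps vec e n)) atTop atTop})ᶜ = 0 := by
  classical
  let Ea : ℕ → Set (ℕ → D) := fun c => {e | (∀ m, L (ps vec e m) ≤ c) ∧
    ∀ n, ∃ m, n ≤ m ∧ -(c : ℝ) ≤ L (ps vec e m)}
  let Eb : ℕ → Set (ℕ → D) := fun c => {e | (∀ M : ℕ, ∃ m, (M : ℝ) < L (ps vec e m)) ∧
    ∀ n, ∃ m, n ≤ m ∧ L (ps vec e m) < c}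
  have hκ1 : ∀ k, κ ^ k ≤ 1 := fun k => by
    have := uel_pow hκ hU (fun _ => d₀) 0 k
    rw [Cy_zero, probReal_univ, mul_one] at this
    exact this.trans measureReal_le_one
  have ha : ∀ c, S (Ea c) = 0 := fun c => by
    refine zero_of hS (measurableSet_setOfPred.2 ((Measurable.forall fun m =>
      meas_lv (fun x => x ≤ (c : ℝ)) m).and (Measurable.forall fun n => Measurable.exists fun m =>
        measurable_const.and (meas_lv (fun x => -(c : ℝ) ≤ x) m))))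
      (θ := 1 - κ ^ (2 * c + 1)) (by linarith [hκ1 (2 * c + 1)])
      (by linarith [pow_pos hκ (2 * c + 1)]) fun e he n => ?_
    obtain ⟨m, h1, h2⟩ := he.2 n
    refine ⟨m, h1, dens (B := sh m ⁻¹' Cy (fun _ => d₀) (2 * c + 1))
      (measurable_sh m (measurableSet_Cy _ _)) ?_ fun a h3 h4 h5 => ?_⟩
    · rw [← Cy_cat, ← Cy_congr (cat_mem e m fun _ => d₀)]
      exact uel_pow hκ hU _ _ _
    · have h6 := h4.1 (m + (2 * c + 1))
      rw [lv_add, ps_congr vec h3 le_rfl, ps_congr vec h5 le_rfl, lv_st hd] at h6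
      push_cast at h6
      linarith
  have hb : ∀ c, S (Eb c) = 0 := fun c => by
    refine zero_of hS (measurableSet_setOfPred.2 ((Measurable.forall fun M => Measurable.exists fun m =>
      meas_lv (fun x => ((M : ℕ) : ℝ) < x) m).and (Measurable.forall fun n =>
        Measurable.exists fun m => measurable_const.and (meas_lv (fun x => x < (c : ℝ)) m))))
      (θ := 1 - S.real {e | ∀ n, 0 ≤ L (ps vec e n)}) (sub_nonneg.2 measureReal_le_one)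
      (by linarith) fun e he n => ?_
    have h1 := he.1 (n + c)
    have h2 := Nat.find_spec h1
    have h3 := h2.trans_le ((le_abs_self _).trans (abs_lv hL _ _))
    have h4 : n + c < Nat.find h1 := by exact_mod_cast h3
    have h5 : ∀ i < Nat.find h1, L (ps vec e i) < L (ps vec e (Nat.find h1)) := fun i hi =>
      (not_lt.1 (Nat.find_min h1 hi)).trans_lt h2
    have h6 : (c : ℝ) ≤ L (ps vec e (Nat.find h1)) :=
      le_trans (by exact_mod_cast Nat.le_add_left c n) h2.le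
    generalize Nat.find h1 = m at h4 h5 h6
    have h7 : {e | ∀ n, 0 ≤ L (ps vec e n)} = ⋂ j, {e | ∀ i ≤ j, 0 ≤ L (ps vec e i)} := by
      ext a
      simp only [Set.mem_ofPred_eq, Set.mem_iInter]
      exact ⟨fun h _ i _ => h i, fun h i => h i i le_rfl⟩
    refine ⟨m, by omega, dens (B := sh m ⁻¹' {e | ∀ n, 0 ≤ L (ps vec e n)})
      (measurable_sh m (measurableSet_setOfPred.2 (Measurable.forall fun n =>
        meas_lv (fun x => 0 ≤ x) n))) ?_ fun a h8 h9 h10 => ?_⟩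
    · rw [mul_comm, h7]
      refine transfer hS e m measureReal_nonneg (fun j => j) _
        (fun j a a' h1 h2 i hi => by rw [ps_congr vec h1 hi]; exact h2 i hi)
        (fun j j' hj a ha i hi => ha i (hi.trans hj)) fun j a ha => ?_
      rw [hF (cat e m a) m j fun i hi i' hi' h8 => ?_, sh_cat, Cy_congr (cat_mem e m a)]
      have h9 := congrArg L h8
      rw [lv_add, sh_cat, ps_congr vec (cat_mem e m a) hi.le,
        ps_congr vec (cat_mem e m a) le_rfl] at h9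
      linarith [ha i' hi'.le, h5 i hi]
    · obtain ⟨k, h11, h12⟩ := h9.2 m
      obtain ⟨i, rfl⟩ := Nat.exists_eq_add_of_le h11
      rw [lv_add, ps_congr vec h8 le_rfl] at h12
      linarith [h10 i]
  refine measure_mono_null (fun e he => ?_)
    (measure_union_null (measure_iUnion_null ha) (measure_iUnion_null hb))
  simp only [Set.mem_compl_iff, Set.mem_union, Set.mem_ofPred_eq, tendsto_atTop_atTop,
    not_or, not_forall, not_exists, not_le, AddMonoidHom.neg_apply] at he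
  obtain ⟨⟨b, h1⟩, b', h2⟩ := he
  by_cases h3 : ∀ M : ℕ, ∃ m, (M : ℝ) < L (ps vec e m)
  · refine Or.inr (Set.mem_iUnion.2 ⟨⌈b⌉₊, h3, fun n => ?_⟩)
    obtain ⟨m, h4, h5⟩ := h1 n
    exact ⟨m, h4, h5.trans_le (Nat.le_ceil b)⟩
  · push Not at h3
    obtain ⟨M, h3⟩ := h3
    have h4 := Nat.le_ceil b'
    have h5 : (0 : ℝ) ≤ M := M.cast_nonneg
    have h6 : (0 : ℝ) ≤ ⌈b'⌉₊ := Nat.cast_nonneg _
    refine Or.inl (Set.mem_iUnion.2 ⟨M + ⌈b'⌉₊, fun m => ?_, fun n => ?_⟩)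
    · push_cast; linarith [h3 m]
    · obtain ⟨m, h7, h8⟩ := h2 n
      exact ⟨m, h7, by push_cast; linarith⟩

end ZOneAux

open ZOneAux in
theorem z_thm (hS : StopStmt) : ZStmt := by
  intro D Pt _ _ _ _ vec S _ L κ hL ⟨d₀, hd₀⟩ ⟨d₁, hd₁⟩ hκ hU h3 hF h0 h1
  have p1 := esc hS hL hd₀ hκ hU h3 h0
  have p2 := trans_or hS hL hd₀ hκ hU hF p1
  have p3 : S {e | Tendsto (fun n => (-L) (ps vec e n)) atTop atTop} ≠ 0 := fun h => by
    refine h1 (le_antisymm prob_le_one ?_)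
    have h4 := measure_univ_le_add_compl (μ := S)
      ({e | Tendsto (fun n => L (ps vec e n)) atTop atTop} ∪
        {e | Tendsto (fun n => (-L) (ps vec e n)) atTop atTop})
    rw [p2, add_zero, measure_univ] at h4
    have h5 := h4.trans (measure_union_le _ _)
    rwa [h, add_zero] at h5
  have p4 := esc (L := -L) hS (fun d => by simpa using hL d) (d₀ := d₁) (by simp [hd₁]) hκ hU h3 p3
  refine ⟨min _ _, lt_min p1 p4, min_le_left _ _, (min_le_right _ _).trans (le_of_eq ?_)⟩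
  simp

end Pool.Agent.MP_db8016_pr.HD

end

section

namespace Pool.Agent.MP_db8016_pr.HD
open MeasureTheory ProbabilityTheory Filter Finset

namespace StopAux

/-- The piece of the stopping event indexed by a time and an initial word. -/
def Zp {α : Type} (Q : (ℕ → α) → ℕ → Prop) (p : Σ n : ℕ, (Fin n → α)) : Set (ℕ → α) :=
  {e | (∀ i : Fin p.1, e i = p.2 i) ∧ First Q e p.1}

lemma first_congr {α : Type} {Q : (ℕ → α) → ℕ → Prop} (hQ : Adapt Q) {a a' : ℕ → α} {n : ℕ}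
    (h : ∀ i < n, a' i = a i) (hf : First Q a n) : First Q a' n :=
  ⟨hQ a a' n h hf.1, fun k hk hq =>
    hf.2 k hk (hQ a' a k (fun i hi => (h i (hi.trans hk)).symm) hq)⟩

lemma Zp_eq {α : Type} {Q : (ℕ → α) → ℕ → Prop} (hQ : Adapt Q) (p : Σ n : ℕ, (Fin n → α))
    {e : ℕ → α} (he : e ∈ Zp Q p) : Zp Q p = Cy e p.1 := by
  ext a
  constructor
  · intro ha i hi
    exact (ha.1 ⟨i, hi⟩).trans (he.1 ⟨i, hi⟩).symm
  · intro ha
    exact ⟨fun i => (ha i i.2).trans (he.1 i), first_congr hQ ha he.2⟩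

lemma Zp_disj {α : Type} (Q : (ℕ → α) → ℕ → Prop) :
    Pairwise (Function.onFun Disjoint (Zp Q)) := by
  rintro ⟨n, f⟩ ⟨k, g⟩ hne
  refine Set.disjoint_left.2 fun e h1 h2 => hne ?_
  have hnk : n = k := First.unique h1.2 h2.2
  subst hnk
  have : f = g := funext fun i => (h1.1 i).symm.trans (h2.1 i)
  rw [this]

lemma Zp_union {α : Type} (Q : (ℕ → α) → ℕ → Prop) :
    {e | ∃ n, Q e n} = ⋃ p, Zp Q p := by
  ext e
  simp only [Set.mem_ofPred_eq, Set.mem_iUnion]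
  constructor
  · rintro ⟨n, hn⟩
    obtain ⟨k, -, hk⟩ := exists_first hn
    exact ⟨⟨k, fun i => e i⟩, fun _ => rfl, hk⟩
  · rintro ⟨p, hp⟩
    exact ⟨p.1, hp.2.1⟩

lemma hasSum_real {Ω ι : Type} [MeasurableSpace Ω] [Countable ι] (S : Measure Ω)
    [IsFiniteMeasure S] (Z : ι → Set Ω) (hd : Pairwise (Function.onFun Disjoint Z))
    (hm : ∀ i, MeasurableSet (Z i)) (B : Set Ω) (hB : MeasurableSet B) :
    HasSum (fun i => S.real (Z i ∩ B)) (S.real ((⋃ i, Z i) ∩ B)) := by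
  have hd' : Pairwise (Function.onFun Disjoint fun i => Z i ∩ B) := fun i j hij =>
    Disjoint.mono Set.inter_subset_left Set.inter_subset_left (hd hij)
  have h1 : S ((⋃ i, Z i) ∩ B) = ∑' i, S (Z i ∩ B) := by
    rw [Set.iUnion_inter]
    exact measure_iUnion hd' fun i => (hm i).inter hB
  have h2 : ∑' i, S (Z i ∩ B) ≠ ⊤ := by rw [← h1]; exact measure_ne_top _ _
  have h3 := ENNReal.hasSum_toReal h2
  have h4 : S.real ((⋃ i, Z i) ∩ B) = ∑' i, (S (Z i ∩ B)).toReal := by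
    rw [Measure.real, h1, ENNReal.tsum_toReal_eq fun i => measure_ne_top _ _]
  rw [h4]
  exact h3

lemma prod_real {Ω Ω' : Type} [MeasurableSpace Ω] [MeasurableSpace Ω'] (S : Measure Ω)
    (S' : Measure Ω') [IsProbabilityMeasure S] [IsProbabilityMeasure S'] (B : Set (Ω × Ω'))
    (hB : MeasurableSet B) :
    Integrable (fun b => S.real {e | (e, b) ∈ B}) S' ∧
      (S.prod S').real B = ∫ b, S.real {e | (e, b) ∈ B} ∂S' := by
  have hm : Measurable fun b => S ((fun e => (e, b)) ⁻¹' B) :=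
    measurable_measure_prodMk_right hB
  constructor
  · refine Integrable.of_bound (hm.ennreal_toReal.aestronglyMeasurable) 1
      (Eventually.of_forall fun b => ?_)
    rw [Real.norm_eq_abs, abs_of_nonneg measureReal_nonneg]
    exact measureReal_le_one
  · rw [Measure.real, Measure.prod_apply_symm hB, ← integral_toReal hm.aemeasurable
      (Eventually.of_forall fun b => measure_lt_top _ _)]
    rfl

end StopAux

open StopAux in
theorem stop_thm : StopStmt := by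
  intro α _ _ _ S S' _ _ Q hQ B B' hB hB' c c' h
  have hm : ∀ p, MeasurableSet (Zp Q p) := by
    intro p
    rcases Set.eq_empty_or_nonempty (Zp Q p) with h0 | ⟨e, he⟩
    · rw [h0]; exact MeasurableSet.empty
    · rw [Zp_eq hQ p he]; exact measurableSet_Cy e p.1
  rw [Zp_union Q]
  refine hasSum_le (fun p => ?_) ((hasSum_real S' _ (Zp_disj Q) hm B' hB').mul_left c')
    ((hasSum_real S _ (Zp_disj Q) hm B hB).mul_left c)
  rcases Set.eq_empty_or_nonempty (Zp Q p) with h0 | ⟨e, he⟩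
  · simp [h0]
  · have := h e p.1 he.2
    simpa only [Zp_eq hQ p he] using this

open StopAux in
theorem fub_thm : FubStmt := by
  intro Ω Ω' _ _ S S' _ _ B B' hB hB' c c' h
  obtain ⟨i1, e1⟩ := prod_real S S' B hB
  obtain ⟨i2, e2⟩ := prod_real S S' B' hB'
  rw [e1, e2, ← integral_const_mul, ← integral_const_mul]
  exact integral_mono (i2.const_mul c') (i1.const_mul c) h

theorem cs_thm : CSStmt := by
  intro Ω ι _ ρ _ s Z A hZ hA
  have hint : ∀ (U : Set Ω), MeasurableSet U → ∀ r : ℝ,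
      Integrable (fun x => r * U.indicator (1 : Ω → ℝ) x) ρ := fun U hU r =>
    ((integrable_const (1 : ℝ)).indicator hU).const_mul r
  have hI : ∀ (U : Set Ω), MeasurableSet U →
      ∫ x, U.indicator (1 : Ω → ℝ) x ∂ρ = ρ.real U := fun U hU => integral_indicator_one hU
  have key : ∀ t : ℝ, 0 ≤ ρ.real A * (t * t) + (-2 * ∑ i ∈ s, ρ.real (Z i ∩ A)) * t +
      ∑ i ∈ s, ∑ j ∈ s, ρ.real (Z i ∩ Z j) := by
    intro t
    have hpt : ∀ x, (∑ i ∈ s, (Z i).indicator (1 : Ω → ℝ) x - t * A.indicator 1 x) ^ 2 =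
        (t * t) * A.indicator (1 : Ω → ℝ) x +
          ∑ i ∈ s, (-2 * t) * (Z i ∩ A).indicator (1 : Ω → ℝ) x +
          ∑ i ∈ s, ∑ j ∈ s, 1 * (Z i ∩ Z j).indicator (1 : Ω → ℝ) x := by
      intro x
      simp only [Set.inter_indicator_one, Pi.mul_apply, one_mul]
      rw [← sum_mul_sum, ← mul_sum, ← sum_mul]
      have hA2 : A.indicator (1 : Ω → ℝ) x * A.indicator (1 : Ω → ℝ) x =
          A.indicator (1 : Ω → ℝ) x := by
        by_cases hx : x ∈ A <;> simp [hx]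
      linear_combination (t * t) * hA2
    have h0 : 0 ≤ ∫ x, (∑ i ∈ s, (Z i).indicator (1 : Ω → ℝ) x - t * A.indicator 1 x) ^ 2 ∂ρ :=
      integral_nonneg fun x => sq_nonneg _
    have j1 := hint A hA (t * t)
    have j2 : Integrable (fun x => ∑ i ∈ s, (-2 * t) * (Z i ∩ A).indicator (1 : Ω → ℝ) x) ρ :=
      integrable_finsetSum _ fun i _ => hint _ ((hZ i).inter hA) _
    have j3' : ∀ i, Integrable
        (fun x => ∑ j ∈ s, 1 * (Z i ∩ Z j).indicator (1 : Ω → ℝ) x) ρ := fun i =>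
      integrable_finsetSum _ fun j _ => hint _ ((hZ i).inter (hZ j)) _
    have j3 : Integrable
        (fun x => ∑ i ∈ s, ∑ j ∈ s, 1 * (Z i ∩ Z j).indicator (1 : Ω → ℝ) x) ρ :=
      integrable_finsetSum _ fun i _ => j3' i
    have j12 : Integrable (fun x => (t * t) * A.indicator (1 : Ω → ℝ) x +
        ∑ i ∈ s, (-2 * t) * (Z i ∩ A).indicator (1 : Ω → ℝ) x) ρ := j1.add j2
    simp only [hpt] at h0
    rw [integral_add j12 j3, integral_add j1 j2, integral_const_mul, hI A hA,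
      integral_finsetSum _ fun i _ => hint _ ((hZ i).inter hA) _,
      integral_finsetSum _ fun i _ => j3' i] at h0
    have e2 : ∑ i ∈ s, ∫ x, (-2 * t) * (Z i ∩ A).indicator (1 : Ω → ℝ) x ∂ρ =
        (-2 * ∑ i ∈ s, ρ.real (Z i ∩ A)) * t := by
      rw [mul_sum, sum_mul]
      refine sum_congr rfl fun i _ => ?_
      rw [integral_const_mul, hI _ ((hZ i).inter hA)]; ring
    have e3 : ∑ i ∈ s, ∫ x, ∑ j ∈ s, 1 * (Z i ∩ Z j).indicator (1 : Ω → ℝ) x ∂ρ =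
        ∑ i ∈ s, ∑ j ∈ s, ρ.real (Z i ∩ Z j) := by
      refine sum_congr rfl fun i _ => ?_
      rw [integral_finsetSum _ fun j _ => hint _ ((hZ i).inter (hZ j)) _]
      refine sum_congr rfl fun j _ => ?_
      rw [integral_const_mul, hI _ ((hZ i).inter (hZ j)), one_mul]
    rw [e2, e3] at h0
    linarith
  have := discrim_le_zero key
  unfold discrim at this
  nlinarith [this]

end Pool.Agent.MP_db8016_pr.HD

end

section

/-! Crossings of all heights have probability bounded below, on both sides. -/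

namespace Pool.Agent.MP_db8016_pr.BZ
open MeasureTheory ProbabilityTheory Filter
open scoped ENNReal
open HD (Cy sh ps)

namespace Step0Aux

lemma pre_add' {D : Type} (e : ℕ → D) (n k : ℕ) : pre e (n + k) = pre e n ++ pre (sh n e) k := by
  induction k with
  | zero => simp
  | succ k ih => rw [← add_assoc, pre_succ, pre_succ, ih, List.append_assoc]; rfl

lemma Cy_eq {D : Type} (e : ℕ → D) (n : ℕ) : Cy e n = cyl (pre e n) := by
  induction n with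
  | zero => simp
  | succ n ih =>
    ext a
    rw [pre_succ, mem_cyl_snoc, ← ih, pre_length]
    simp only [Cy, Set.mem_ofPred_eq, Nat.lt_succ_iff_lt_or_eq]
    exact ⟨fun h => ⟨fun i hi => h i (Or.inl hi), h _ (Or.inr rfl)⟩,
      fun h i hi => hi.elim (h.1 i) fun e => e ▸ h.2⟩

lemma pf_pre {D : Type} {e : ℕ → D} {n : ℕ} {α : List D} (h : α <+: pre e n) :
    α.length ≤ n ∧ α = pre e α.length := by
  have h1 : α.length ≤ n := by simpa using h.length_le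
  refine ⟨h1, ?_⟩
  obtain ⟨k, rfl⟩ := Nat.exists_eq_add_of_le h1
  obtain ⟨τ, h2⟩ := h
  rw [pre_add'] at h2
  exact (List.append_inj h2 (by simp)).1

lemma pf_pre' {D : Type} {e : ℕ → D} {n : ℕ} {α : List D} (h : α <+: pre e n)
    (h' : α ≠ pre e n) : α.length < n :=
  lt_of_le_of_ne (pf_pre h).1 fun e' => h' (by rw [← e']; exact (pf_pre h).2)

variable (M : Mod)

lemma ps_eq (e : ℕ → M.D) (n : ℕ) : ps M.vec e n = M.ds (pre e n) := by
  induction n with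
  | zero => simp
  | succ n ih => rw [HD.ps_succ, pre_succ, ih]; simp

lemma lv_eq (e : ℕ → M.D) (n : ℕ) : M.lv (pre e n) = M.L (ps M.vec e n) := by
  rw [ps_eq]; rfl

lemma mem_pts_pre {e : ℕ → M.D} {n : ℕ} {x z : M.Pt} (h : z ∈ pts M.vec x (pre e n)) :
    ∃ i < n, z = x + ps M.vec e i := by
  obtain ⟨α, h1, h2, rfl⟩ := M.mem_pts.1 h
  exact ⟨α.length, pf_pre' h1 h2, by rw [ps_eq, ← (pf_pre h1).2]⟩

lemma w_three {γ δ ζ : List M.D}
    (h : Disjoint (pts M.vec 0 γ) (pts M.vec (M.ds γ + M.ds δ) ζ)) :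
    M.w (γ ++ δ) * M.w (δ ++ ζ) ≤ M.w (γ ++ (δ ++ ζ)) := by
  have e1 : M.w (γ ++ δ) = ∏ z ∈ pts M.vec 0 (γ ++ (δ ++ ζ)),
      M.ν (cyl (exits M.vec 0 (γ ++ δ) z)) := by
    refine wt_eq_prod _ _ ?_
    rw [← List.append_assoc, pts_append _ _ (γ ++ δ)]
    exact Finset.subset_union_left
  have e2 : M.w (δ ++ ζ) = ∏ z ∈ pts M.vec 0 (γ ++ (δ ++ ζ)),
      M.ν (cyl (exits M.vec (0 + disp M.vec γ) (δ ++ ζ) z)) := by
    rw [Mod.w, ← wt_shift _ _ (0 + disp M.vec γ)]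
    refine wt_eq_prod _ _ ?_
    rw [pts_append _ _ γ]
    exact Finset.subset_union_right
  rw [e1, e2, ← Finset.prod_mul_distrib]
  refine Finset.prod_le_prod' fun z _ => ?_
  simp only [exits_append, zero_add]
  by_cases hz : z ∈ pts M.vec 0 γ
  · have h1 : exits M.vec (disp M.vec γ + disp M.vec δ) ζ z = [] :=
      (exits_eq_nil_iff _).2 (Finset.disjoint_left.1 h hz)
    rw [h1, List.append_nil]
    exact mul_le_of_le_one_right' prob_le_one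
  · rw [(exits_eq_nil_iff _).2 hz, List.nil_append, List.nil_append]
    exact mul_le_of_le_one_left' prob_le_one

variable {M} {S : Measure (ℕ → M.D)}

lemma real_Cy (hS : ∀ γ, S (cyl γ) = M.w γ) (e : ℕ → M.D) (n : ℕ) :
    S.real (Cy e n) = (M.w (pre e n)).toReal := by
  rw [Cy_eq, Measure.real, hS]

lemma w_ne_top (γ : List M.D) : M.w γ ≠ ⊤ := ne_top_of_le_ne_top ENNReal.one_ne_top (M.w_le_one γ)

lemma κ_pos (M : Mod) : 0 < M.κ.toReal :=
  ENNReal.toReal_pos M.hκ (ne_top_of_le_ne_top ENNReal.one_ne_top M.κ_le_one)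

lemma hU (hS : ∀ γ, S (cyl γ) = M.w γ) (e : ℕ → M.D) (n : ℕ) (d : M.D) :
    M.κ.toReal * S.real (Cy e n) ≤ S.real (Cy e n ∩ {e' | e' n = d}) := by
  have h1 : Cy e n ∩ {e' | e' n = d} = cyl (pre e n ++ [d]) := by
    ext a
    rw [mem_cyl_snoc, Cy_eq, pre_length]
    rfl
  rw [h1, real_Cy hS, Measure.real, hS, ← ENNReal.toReal_mul]
  exact ENNReal.toReal_mono (w_ne_top _) (wt_snoc_ge _ _ M.uel _ _ _)

lemma hF (hS : ∀ γ, S (cyl γ) = M.w γ) (e : ℕ → M.D) (n k : ℕ)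
    (h : ∀ i < n, ∀ j < k, ps M.vec e i ≠ ps M.vec e (n + j)) :
    S.real (Cy e (n + k)) = S.real (Cy e n) * S.real (Cy (sh n e) k) := by
  rw [real_Cy hS, real_Cy hS, real_Cy hS, ← ENNReal.toReal_mul, pre_add']
  congr 1
  unfold Mod.w
  rw [wt_append_of_disjoint, wt_shift _ _ (0 + _)]
  refine Finset.disjoint_left.2 fun z h1 h2 => ?_
  obtain ⟨i, hi, rfl⟩ := mem_pts_pre M h1
  obtain ⟨j, hj, h3⟩ := mem_pts_pre M h2
  refine h i hi j hj ?_
  rw [HD.ps_add, ps_eq M e n]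
  simpa only [zero_add, Mod.ds] using h3

lemma h3 (hS : ∀ γ, S (cyl γ) = M.w γ) (e : ℕ → M.D) (n k j : ℕ)
    (h : ∀ i < n, ∀ i' < j, ps M.vec e i ≠ ps M.vec e (n + k + i')) :
    S.real (Cy e (n + k)) * S.real (Cy (sh n e) (k + j)) ≤ S.real (Cy e (n + k + j)) := by
  rw [real_Cy hS, real_Cy hS, real_Cy hS, ← ENNReal.toReal_mul, add_assoc, pre_add' e n k,
    pre_add' e n (k + j), pre_add' (sh n e) k j]
  refine ENNReal.toReal_mono (w_ne_top _) (w_three M ?_)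
  refine Finset.disjoint_left.2 fun z h1 h2 => ?_
  obtain ⟨i, hi, rfl⟩ := mem_pts_pre M h1
  obtain ⟨i', hi', h4⟩ := mem_pts_pre M h2
  refine h i hi i' hi' ?_
  rw [add_assoc, HD.ps_add, HD.ps_add, ps_eq M e n, ps_eq M (sh n e) k, ← add_assoc]
  simpa only [zero_add] using h4

lemma le_sm (hS : ∀ γ, S (cyl γ) = M.w γ) {G : Set (List M.D)} {E : Set (ℕ → M.D)}
    (h : ∀ e ∈ E, ∃ n, pre e n ∈ G) : S E ≤ M.sm G := by
  rw [Mod.sm_eq_tsum]
  calc S E ≤ S (⋃ γ : G, cyl (γ : List M.D)) := by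
        refine measure_mono fun e he => ?_
        obtain ⟨n, hn⟩ := h e he
        exact Set.mem_iUnion.2 ⟨⟨_, hn⟩, mem_cyl_pre e n⟩
    _ ≤ ∑' γ : G, S (cyl (γ : List M.D)) := measure_iUnion_le _
    _ = ∑' γ : G, M.w γ := tsum_congr fun γ => hS _

lemma cross_of (M : Mod) {e : ℕ → M.D} (h0 : ∀ n, 0 ≤ M.lv (pre e n))
    (h1 : Tendsto (fun n => M.lv (pre e n)) atTop atTop) (h : ℝ) :
    ∃ n, M.Cross h (pre e n) := by
  classical
  have h2 : ∃ n, h ≤ M.lv (pre e n) := (h1.eventually_ge_atTop h).exists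
  refine ⟨Nat.find h2, fun α hα => ?_, Nat.find_spec h2, fun α hα hne => ?_⟩
  · rw [(pf_pre hα).2]
    exact h0 _
  · rw [(pf_pre hα).2]
    exact not_le.1 (Nat.find_min h2 (pf_pre' hα hne))

open HD HD.Model HD.ZOneAux in
lemma esc' [IsProbabilityMeasure S] (hS : ∀ γ, S (cyl γ) = M.w γ) {φ : ℕ → ℝ}
    (hφ : ∀ m n, φ (m + n) ≤ φ m + φ n) (hφ' : Tendsto φ atTop atTop)
    (h : S {e | ∀ᶠ n in atTop, φ n ≤ M.L (ps M.vec e n)} ≠ 0) :
    ∃ N : ℝ, 0 ≤ N ∧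
      0 < S.real {e | ∀ n, 0 ≤ M.L (ps M.vec e n) ∧ φ n - N ≤ M.L (ps M.vec e n)} := by
  have hκ := κ_pos M
  have hd := M.hu
  let A : ℕ → ℕ → Set (ℕ → M.D) := fun n j => {e | ∀ i ≤ j,
    0 ≤ M.L (ps M.vec e (n + i)) ∧ φ (n + i) ≤ M.L (ps M.vec e (n + i))}
  obtain ⟨n, hn⟩ : ∃ n, S (⋂ j, A n j) ≠ 0 := by
    by_contra hc
    push Not at hc
    refine h (measure_mono_null (fun e he => ?_) (measure_iUnion_null hc))
    obtain ⟨n, h1⟩ := eventually_atTop.1 ((hφ'.eventually_ge_atTop 0).and he)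
    refine Set.mem_iUnion.2 ⟨n, Set.mem_iInter.2 fun j i _ => ?_⟩
    have h2 := h1 _ (Nat.le_add_right n i)
    exact ⟨h2.1.trans h2.2, h2.2⟩
  have hst : ∀ (a : ℕ → M.D), a ∈ Cy (fun _ => M.u) n → ∀ i ≤ n, M.L (ps M.vec a i) = i :=
    fun a ha i hi => by rw [ps_congr M.vec ha hi, lv_st hd]
  have h1 := transfer (S := S) stop_thm (fun _ => M.u) n (pow_pos hκ (n + n)).le
    (fun j => n + j) (A n)
    (fun j a a' h1 h2 i hi => by rw [ps_congr M.vec h1 (by omega)]; exact h2 i hi)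
    (fun j j' hj a ha i hi => ha i (hi.trans hj)) (fun j a ha => by
      have h4 := h3 hS (cat (fun _ => M.u) n a) n n j fun i hi i' hi' h5 => by
        have h6 := congrArg M.L h5
        rw [add_assoc, lv_add, hst _ (cat_mem _ _ _) i hi.le, hst _ (cat_mem _ _ _) n le_rfl,
          sh_cat] at h6
        have h7 : (i : ℝ) < n := by exact_mod_cast hi
        linarith [(ha i' hi'.le).1]
      have h5 := uel_pow hκ (hU hS) (cat (fun _ => M.u) n a) 0 (n + n)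
      rw [Cy_zero, probReal_univ, mul_one, zero_add] at h5
      rw [sh_cat, add_assoc] at h4
      exact (mul_le_mul_of_nonneg_right h5 measureReal_nonneg).trans h4)
  have h2 : 0 < S.real (⋂ j, A n j) := ENNReal.toReal_pos hn (measure_ne_top _ _)
  have hN : ∀ t ≤ n + n, φ t ≤ ∑ s ∈ Finset.range (n + n + 1), |φ s| := fun t ht =>
    (le_abs_self _).trans (Finset.single_le_sum (f := fun s => |φ s|) (fun s _ => abs_nonneg _)
      (Finset.mem_range.2 (Nat.lt_succ_of_le ht)))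
  refine ⟨∑ s ∈ Finset.range (n + n + 1), |φ s|, Finset.sum_nonneg fun s _ => abs_nonneg _, ?_⟩
  refine ((mul_pos (pow_pos hκ _) h2).trans_le h1).trans_le (measureReal_mono ?_)
  rintro a ⟨h4, h5⟩ m
  have hn0 : (0 : ℝ) ≤ n := n.cast_nonneg
  rcases le_total m n with h6 | h6
  · rw [hst a h4 m h6]
    have h7 : (0 : ℝ) ≤ m := m.cast_nonneg
    exact ⟨h7, by linarith [hN m (by omega)]⟩
  · obtain ⟨i, rfl⟩ := Nat.exists_eq_add_of_le h6
    rw [lv_add, hst a h4 n le_rfl]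
    rcases le_total i n with h7 | h7
    · have h8 : (i : ℝ) ≤ n := by exact_mod_cast h7
      have h9 := (abs_le.1 (abs_lv M.hL (sh n a) i)).1
      exact ⟨by linarith, by linarith [hN (n + i) (by omega)]⟩
    · obtain ⟨k, rfl⟩ := Nat.exists_eq_add_of_le h7
      have h8 := Set.mem_iInter.1 h5 k k le_rfl
      exact ⟨by linarith [h8.1], by linarith [h8.2, hφ n (n + k), hN n (by omega)]⟩

end Step0Aux

open Step0Aux in
theorem s_fast : S_Fast := by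
  intro M S _ φ hS hφ hφ' h
  simp only [lv_eq] at h
  obtain ⟨N, hN, h1⟩ := esc' hS hφ hφ' h
  refine ⟨N, _, hN, (ENNReal.toReal_pos_iff.1 h1).1.ne', fun t => le_sm hS fun e he => ?_⟩
  simp only [Set.mem_ofPred_eq, ← lv_eq] at he
  obtain ⟨n, hn⟩ := cross_of M (fun n => (he n).1)
    (tendsto_atTop_mono (fun n => (he n).2) (tendsto_atTop_add_const_right _ (-N) hφ')) t
  refine ⟨n, hn, fun α hα => ?_⟩
  have h2 := he α.length
  rw [← (pf_pre hα).2] at h2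
  exact h2

open Step0Aux in
theorem s_back : S_Back := by
  intro M S _ hS h0 h1
  simp only [lv_eq] at h0 h1
  obtain ⟨β, hβ, p1, p2⟩ := HD.z_thm HD.stop_thm M.D M.Pt M.vec S M.L M.κ.toReal M.hL ⟨_, M.hu⟩
    ⟨_, M.L_v⟩ (κ_pos M) (hU hS) (h3 hS) (hF hS) h0 h1
  have p3 := HD.ZOneAux.trans_or HD.stop_thm M.hL M.hu (κ_pos M) (hU hS) (hF hS) (hβ.trans_le p1)
  refine ⟨_, (ENNReal.toReal_pos_iff.1 (hβ.trans_le p2)).1.ne', fun t => ?_⟩
  rw [← measure_inter_conull p3]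
  refine le_sm (M := M.neg) hS fun e he => ?_
  obtain ⟨h2, h3 | h3⟩ := he
  · obtain ⟨n, hn⟩ := (Tendsto.eventually_gt_atTop h3 0).exists
    exact absurd (h2 n) (not_le.2 hn)
  · refine cross_of M.neg (fun n => ?_) ?_ t
    · have h4 : M.neg.lv (pre e n) = -M.L (ps M.vec e n) := by rw [← lv_eq]; rfl
      rw [h4]
      exact neg_nonneg.2 (h2 n)
    · refine Tendsto.congr (fun n => ?_) h3
      exact (lv_eq M.neg e n).symm

end Pool.Agent.MP_db8016_pr.BZ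

end

section

/-! When the walk is transient in one direction, every invariant event is trivial. -/

namespace Pool.Agent.MP_db8016_pr.BZ
open MeasureTheory ProbabilityTheory Filter
open scoped ENNReal
open HD HD.Model HD.ZOneAux Step0Aux

variable {M : Mod} {S : Measure (ℕ → M.D)} [IsProbabilityMeasure S]

lemma fresh (hS : ∀ γ, S (cyl γ) = M.w γ) (e : ℕ → M.D) (m : ℕ)
    (h5 : ∀ i < m, M.L (ps M.vec e i) < M.L (ps M.vec e m)) {B : Set (ℕ → M.D)}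
    (hB : MeasurableSet B) (hD : ∀ a ∈ B, ∀ n, 0 ≤ M.L (ps M.vec a n)) :
    S.real (Cy e m) * S.real B ≤ S.real (Cy e m ∩ sh m ⁻¹' B) := by
  let _ : TopologicalSpace M.D := ⊥
  have : DiscreteTopology M.D := ⟨rfl⟩
  let S₁ : Measure (ℕ → M.D) := (S.restrict (Cy e m)).map (sh m)
  have e1 : ∀ B, MeasurableSet B → S₁.real B = S.real (Cy e m ∩ sh m ⁻¹' B) := fun B hB => by
    rw [map_measureReal_apply (measurable_sh m) hB,
      measureReal_restrict_apply (measurable_sh m hB), Set.inter_comm]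
  rw [← e1 B hB]
  refine le_of_forall_pos_le_add fun ε hε => ?_
  obtain ⟨U, hEU, hU, hlt⟩ := B.exists_isOpen_lt_add (μ := S₁) (measure_ne_top _ _)
    (ε := ENNReal.ofReal ε) (by simpa using hε)
  have h1 : S₁.real U ≤ S₁.real B + ε := by
    have := ENNReal.toReal_mono (by finiteness) hlt.le
    rwa [ENNReal.toReal_add (measure_ne_top _ _) ENNReal.ofReal_ne_top,
      ENNReal.toReal_ofReal hε.le] at this
  have h2 := stop_thm M.D S₁ S (fun a k => Cy a k ⊆ U ∧ ∀ i ≤ k, 0 ≤ M.L (ps M.vec a i))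
    (fun a a' n h1 h2 => ⟨by rw [Cy_congr (e := a) (e' := a') h1]; exact h2.1,
      fun i hi => by rw [ps_congr M.vec h1 hi]; exact h2.2 i hi⟩) Set.univ Set.univ
    MeasurableSet.univ MeasurableSet.univ 1 (S.real (Cy e m)) (fun a j hk => by
      rw [Set.inter_univ, one_mul, e1 _ (measurableSet_Cy _ _), ← Cy_cat,
        hF hS (cat e m a) m j fun i hi i' hi' h8 => ?_, sh_cat, Cy_congr (cat_mem e m a)]
      have h9 := congrArg M.L h8
      rw [lv_add, sh_cat, ps_congr M.vec (cat_mem e m a) hi.le,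
        ps_congr M.vec (cat_mem e m a) le_rfl] at h9
      linarith [hk.1.2 i' hi'.le, h5 i hi])
  rw [Set.inter_univ, one_mul] at h2
  refine le_trans (mul_le_mul_of_nonneg_left (measureReal_mono fun a ha => ?_) measureReal_nonneg)
    (h2.trans (le_trans (measureReal_mono ?_) h1))
  · obtain ⟨I, u, h4, h5⟩ := isOpen_pi_iff.1 hU a (hEU ha)
    refine ⟨I.sup id + 1, fun b hb => h5 fun i hi => ?_, fun i _ => hD a ha i⟩
    rw [hb i (Nat.lt_succ_of_le (Finset.le_sup (f := id) hi))]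
    exact (h4 i hi).2
  · rintro a ⟨k, hk, -⟩
    exact hk (mem_Cy_self a k)

lemma inv_null (hS : ∀ γ, S (cyl γ) = M.w γ) {B : Set (ℕ → M.D)} (hB : MeasurableSet B)
    (hinv : ∀ e n, sh n e ∈ B → e ∈ B)
    (h0 : 0 < S.real (B ∩ {e | ∀ n, 0 ≤ M.L (ps M.vec e n)})) :
    S (Bᶜ ∩ {e | ∀ c : ℕ, ∃ m, (c : ℝ) < M.L (ps M.vec e m)}) = 0 := by
  classical
  have hD : MeasurableSet {e | ∀ n, 0 ≤ M.L (ps M.vec e n)} :=
    measurableSet_setOfPred.2 (Measurable.forall fun n => meas_lv (fun x => 0 ≤ x) n)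
  refine zero_of stop_thm (hB.compl.inter (measurableSet_setOfPred.2 (Measurable.forall fun c =>
    Measurable.exists fun m => meas_lv (fun x => ((c : ℕ) : ℝ) < x) m)))
    (θ := 1 - S.real (B ∩ {e | ∀ n, 0 ≤ M.L (ps M.vec e n)})) (sub_nonneg.2 measureReal_le_one)
    (by linarith) fun e he n => ?_
  have h1 := he.2 n
  have h2 := Nat.find_spec h1
  have h3 := h2.trans_le ((le_abs_self _).trans (abs_lv M.hL _ _))
  have h4 : n < Nat.find h1 := by exact_mod_cast h3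
  have h5 : ∀ i < Nat.find h1, M.L (ps M.vec e i) < M.L (ps M.vec e (Nat.find h1)) := fun i hi =>
    (not_lt.1 (Nat.find_min h1 hi)).trans_lt h2
  generalize Nat.find h1 = m at h4 h5
  refine ⟨m, h4.le, dens (B := sh m ⁻¹' (B ∩ {e | ∀ n, 0 ≤ M.L (ps M.vec e n)}))
    (measurable_sh m (hB.inter hD)) ?_ fun a _ h9 h10 => h9.1 (hinv a m h10.1)⟩
  rw [mul_comm]
  exact fresh hS e m h5 (hB.inter hD) fun a ha => ha.2

theorem inv_triv (hS : ∀ γ, S (cyl γ) = M.w γ)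
    (hT : S {e | Tendsto (fun n => M.lv (pre e n)) atTop atTop} = 1) {A : Set (ℕ → M.D)}
    (hA : MeasurableSet A) (hinv : ∀ e n, sh n e ∈ A ↔ e ∈ A) : S A = 0 ∨ S A = 1 := by
  simp only [lv_eq] at hT
  have hp := esc stop_thm M.hL M.hu (κ_pos M) (hU hS) (h3 hS) (by rw [hT]; exact one_ne_zero)
  have hm : MeasurableSet {e : ℕ → M.D | Tendsto (fun n => M.L (ps M.vec e n)) atTop atTop} :=
    measurableSet_tendsto atTop fun n => measurable_of_Iic fun t =>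
      measurableSet_setOfPred.2 (meas_lv (fun x => x ≤ t) n)
  have hc := (prob_compl_eq_zero_iff hm).2 hT
  have key : ∀ B : Set (ℕ → M.D), MeasurableSet B → (∀ e n, sh n e ∈ B → e ∈ B) →
      0 < S.real (B ∩ {e | ∀ n, 0 ≤ M.L (ps M.vec e n)}) → S Bᶜ = 0 := fun B hB h1 h0 => by
    refine measure_mono_null (fun e he => ?_) (measure_union_null (inv_null hS hB h1 h0) hc)
    by_cases h2 : Tendsto (fun n => M.L (ps M.vec e n)) atTop atTop
    · exact Or.inl ⟨he, fun c => (h2.eventually_gt_atTop _).exists⟩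
    · exact Or.inr h2
  have h1 := measureReal_inter_add_sdiff (μ := S) (s := {e | ∀ n, 0 ≤ M.L (ps M.vec e n)}) hA
  by_cases h2 : 0 < S.real (A ∩ {e | ∀ n, 0 ≤ M.L (ps M.vec e n)})
  · exact Or.inr ((prob_compl_eq_zero_iff hA).1 (key A hA (fun e n => (hinv e n).1) h2))
  · left
    rw [← compl_compl A]
    refine key Aᶜ hA.compl (fun e n h h' => h ((hinv e n).2 h')) ?_
    rw [Set.inter_comm] at h2 ⊢
    rw [Set.sdiff_eq] at h1
    linarith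

end Pool.Agent.MP_db8016_pr.BZ

end

section

/-! The law of the step sequence of the averaged walk. -/

namespace Pool.Agent.MP_db8016_pr.HD
open MeasureTheory ProbabilityTheory Filter Finset

namespace LawAux
variable {d : ℕ} {e e' : ℕ → Fin d × Bool} {n i : ℕ}

lemma step_inj : Function.Injective (step : Fin d × Bool → Fin d → ℤ) := by
  rintro ⟨j, b⟩ ⟨j', b'⟩ h
  have := congrFun h j
  simp only [step, Pi.single_apply] at this
  cases b <;> cases b' <;> by_cases hj : j = j' <;> simp_all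

lemma pos_congr (h : ∀ j < n, e' j = e j) (hi : i ≤ n) : pos e' i = pos e i := ps_congr step h hi

lemma visits_congr (h : ∀ j < n, e' j = e j) (hi : i ≤ n) : visits e' i = visits e i :=
  congrArg card (filter_congr fun j hj => by
    rw [pos_congr h hi, pos_congr h ((mem_range.1 hj).le.trans hi)])

lemma upd (e : ℕ → Fin d × Bool) (n : ℕ) (c : Fin d × Bool) :
    ∀ j < n, Function.update e n c j = e j := fun _ hj => Function.update_of_ne hj.ne _ _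

/-- Paths that begin with the first `n` steps of `e`. -/
def Pa (e : ℕ → Fin d × Bool) (n : ℕ) : Set (ℕ → Fin d → ℤ) := {X | ∀ i ≤ n, X i = pos e i}

lemma Pa_congr (h : ∀ j < n, e' j = e j) {X : ℕ → Fin d → ℤ} (hX : X ∈ Pa e n) : X ∈ Pa e' n :=
  fun i hi => (hX i hi).trans (pos_congr h hi).symm

lemma measurableSet_Pa (e : ℕ → Fin d × Bool) (n : ℕ) : MeasurableSet (Pa e n) :=
  Det.measurableSet (n := n + 1) fun _ _ h h' i hi => (h i (Nat.lt_succ_of_le hi)).trans (h' i hi)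

variable [Nonempty (Fin d × Bool)]

/-- The step sequence of a path. -/
noncomputable def dec (X : ℕ → Fin d → ℤ) (n : ℕ) : Fin d × Bool :=
  Function.invFun step (X (n + 1) - X n)

lemma measurable_dec : Measurable (dec : (ℕ → Fin d → ℤ) → ℕ → Fin d × Bool) :=
  measurable_pi_lambda _ fun n => (Measurable.of_discrete (f := Function.invFun step)).comp
    ((measurable_pi_apply (n + 1)).sub (measurable_pi_apply n))

lemma dec_eq {X : ℕ → Fin d → ℤ} (h : X ∈ Pa e n) (i : ℕ) (hi : i < n) : dec X i = e i := by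
  rw [dec, h (i + 1) hi, h i hi.le, pos, pos, sum_range_succ, add_sub_cancel_left,
    Function.leftInverse_invFun step_inj]

end LawAux

open LawAux in
theorem law_thm : LawStmt := by
  intro d μ _ hd hsum h0 P₀ _ hP
  have : Nonempty (Fin d × Bool) := ⟨⟨⟨0, hd⟩, true⟩⟩
  replace hP : ∀ e n, P₀ (Pa e n) = wtc μ e n := hP
  have w1 : ∀ e n, wtc μ e n = ∑ c, wtc μ (Function.update e n c) (n + 1) := fun e n => by
    unfold wtc
    rw [← lintegral_finsetSum _ fun c _ => by fun_prop]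
    refine lintegral_congr_ae ?_
    filter_upwards [hsum, h0] with ω h1 h2
    have h3 : ∀ c, ∏ i ∈ range (n + 1), ω (pos (Function.update e n c) i)
        (Function.update e n c i) (visits (Function.update e n c) i) =
        (∏ i ∈ range n, ω (pos e i) (e i) (visits e i)) * ω (pos e n) c (visits e n) := fun c => by
      rw [prod_range_succ, pos_congr (upd e n c) le_rfl, visits_congr (upd e n c) le_rfl,
        Function.update_self]
      refine congrArg (· * _) (prod_congr rfl fun i hi => ?_)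
      have h4 := mem_range.1 hi
      rw [pos_congr (upd e n c) h4.le, visits_congr (upd e n c) h4.le, upd e n c i h4]
    rw [← ENNReal.ofReal_sum_of_nonneg fun c _ => prod_nonneg fun _ _ => h2 _ _ _]
    simp only [h3, ← mul_sum, h1, mul_one]
  have a1 : ∀ e n, ∀ᵐ X ∂P₀, X ∈ Pa e n → ∃ c, X ∈ Pa (Function.update e n c) (n + 1) := by
    intro e n
    have h1 : (⋃ c, Pa (Function.update e n c) (n + 1)) =ᵐ[P₀] Pa e n := by
      refine ae_eq_of_subset_of_measure_ge (Set.iUnion_subset fun c X hX =>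
        Pa_congr (fun j hj => (upd e n c j hj).symm) fun i hi => hX i (by omega)) (ge_of_eq ?_)
        (MeasurableSet.iUnion fun c => measurableSet_Pa _ _).nullMeasurableSet (measure_ne_top _ _)
      rw [measure_iUnion (fun c c' hc => Set.disjoint_left.2 fun X h h' => hc (by
        simpa using (dec_eq h n n.lt_succ_self).symm.trans (dec_eq h' n n.lt_succ_self)))
        fun c => measurableSet_Pa _ _, tsum_fintype, hP, w1]
      simp only [hP]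
    filter_upwards [h1] with X hX h
    exact Set.mem_iUnion.1 (hX.mpr h)
  have a2 : ∀ᵐ X ∂P₀, ∀ n, X ∈ Pa (dec X) n := by
    have a0 : ∀ᵐ X ∂P₀, X ∈ Pa (fun _ => (⟨0, hd⟩, true)) 0 :=
      (mem_ae_iff_prob_eq_one (measurableSet_Pa _ _)).2 (by simp [hP, wtc])
    filter_upwards [a0, ae_all_iff.2 fun n => ae_all_iff.2 fun w : Fin n → Fin d × Bool =>
      a1 (fun i => if h : i < n then w ⟨i, h⟩ else (⟨0, hd⟩, true)) n] with X b0 b1 n
    induction n with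
    | zero => exact Pa_congr (by simp) b0
    | succ n ih =>
      obtain ⟨c, hc⟩ := b1 n (fun i => dec X i)
        (Pa_congr (fun j hj => by simp only [hj, dite_true]) ih)
      exact Pa_congr (dec_eq hc) hc
  refine ⟨P₀.map dec, Measure.isProbabilityMeasure_map measurable_dec.aemeasurable,
    fun e n => ?_, fun l => ?_⟩
  · rw [Measure.map_apply measurable_dec (measurableSet_Cy e n), ← hP]
    refine measure_congr ?_
    filter_upwards [a2] with X hX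
    exact propext ⟨fun h => Pa_congr (fun j hj => (h j hj).symm) (hX n), fun h => dec_eq h⟩
  · have hm : ∀ n, Measurable fun e : ℕ → Fin d × Bool => ∑ j, (pos e n j : ℝ) * l j := fun n =>
      (Measurable.of_discrete (f := fun z : Fin d → ℤ => ∑ j, (z j : ℝ) * l j)).comp
        (Finset.measurable_sum (range n) fun i _ =>
          (Measurable.of_discrete (f := step)).comp (measurable_pi_apply i))
    rw [Measure.map_apply measurable_dec (measurableSet_tendsto atTop hm)]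
    refine measure_congr ?_
    filter_upwards [a2] with X hX
    have h1 : X = pos (dec X) := funext fun n => hX n n le_rfl
    exact congrArg (fun Y : ℕ → Fin d → ℤ =>
      Tendsto (fun n => ∑ j, (Y n j : ℝ) * l j) atTop atTop) h1

end Pool.Agent.MP_db8016_pr.HD

end

section

/-! The law of the step sequence and the short pieces in the lattice. -/

namespace Pool.Agent.MP_db8016_pr.BZ
open MeasureTheory ProbabilityTheory Filter Finset
open scoped ENNReal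

namespace LawAux

lemma wt_eq_sum {Dir Pt : Type} [AddCommGroup Pt] [DecidableEq Pt] [Fintype Dir]
    [MeasurableSpace Dir] [DiscreteMeasurableSpace Dir] (vec : Dir → Pt) (ν : Measure (ℕ → Dir))
    [IsProbabilityMeasure ν] (γ : List Dir) :
    wt vec ν 0 γ = ∑' d : Dir, wt vec ν 0 (γ ++ [d]) := by
  rw [← arrows_iUnion vec ν 0 (fun d : Dir => γ ++ [d]) (by
    intro i j τ h
    rw [List.append_assoc, List.append_cancel_left_eq] at h
    simp at h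
    exact h.1.symm), ← arrows_Fol]
  congr 1
  refine Set.Subset.antisymm (fun a ha => ?_)
    (Set.iUnion_subset fun d => Fol_append_subset vec 0 γ [d])
  refine Set.mem_iUnion.2 ⟨a (0 + disp vec γ) (exits vec 0 γ (0 + disp vec γ)).length, fun z => ?_⟩
  rw [exits_append, exits_cons, exits_nil, List.append_nil]
  split_ifs with h
  · rw [mem_cyl_snoc, h]
    exact ⟨ha z, rfl⟩
  · rw [List.append_nil]; exact ha z

lemma pre_eq_iff {Dir : Type} {e e' : ℕ → Dir} {n : ℕ} :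
    pre e' n = pre e n ↔ ∀ j < n, e' j = e j := by
  simp [pre]

lemma exists_pre {Dir : Type} (c : Dir) (γ : List Dir) : ∃ e : ℕ → Dir, pre e γ.length = γ :=
  ⟨fun i => γ.getD i c, List.ext_getElem (by simp) fun i h1 h2 => by simp [pre, h2]⟩

lemma disp_pre {d : ℕ} (e : ℕ → Fin d × Bool) (n : ℕ) : disp HD.step (pre e n) = HD.pos e n := by
  induction n with
  | zero => simp [HD.pos]
  | succ n ih => rw [pre_succ, disp_append, ih]; simp [HD.pos, sum_range_succ]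

variable {M : Mod}

lemma irr1 {f : M.D} (h : 0 < M.L (M.vec f)) : M.Irr [f] := by
  refine ⟨⟨fun α hα => ?_, fun α hα hne => ?_⟩, by simp, fun α β e _ _ => ?_⟩
  · simp only [List.prefix_cons_iff, List.prefix_nil, exists_eq_right] at hα
    rcases hα with rfl | rfl <;> simp [h.le]
  · simp only [List.prefix_cons_iff, List.prefix_nil, exists_eq_right] at hα
    rcases hα with rfl | rfl
    · simpa using h
    · exact absurd rfl hne
  · rcases α with _ | ⟨a, α⟩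
    · exact Or.inl rfl
    · simp only [List.cons_append, List.cons.injEq, List.nil_eq, List.append_eq_nil_iff] at e
      exact Or.inr e.2.2

lemma pf2 {D : Type} {a b : D} {α : List D} (h : α <+: [a, b]) :
    α = [] ∨ α = [a] ∨ α = [a, b] := by
  rcases List.prefix_cons_iff.1 h with h1 | ⟨t, rfl, h1⟩
  · exact Or.inl h1
  rcases List.prefix_cons_iff.1 h1 with rfl | ⟨t, rfl, h2⟩
  · exact Or.inr (Or.inl rfl)
  rw [List.prefix_nil.1 h2]
  exact Or.inr (Or.inr rfl)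

lemma pf4 {D : Type} {a b c d : D} {α : List D} (h : α <+: [a, b, c, d]) :
    α = [] ∨ α = [a] ∨ α = [a, b] ∨ α = [a, b, c] ∨ α = [a, b, c, d] := by
  rcases List.prefix_cons_iff.1 h with h1 | ⟨t, rfl, h1⟩
  · exact Or.inl h1
  rcases List.prefix_cons_iff.1 h1 with rfl | ⟨t, rfl, h2⟩
  · exact Or.inr (Or.inl rfl)
  rcases pf2 h2 with rfl | rfl | rfl <;> simp

lemma irr2 {f : M.D} (h : M.L (M.vec f) = 0) : M.Irr [f, M.u] := by
  refine ⟨⟨fun α hα => ?_, fun α hα hne => ?_⟩, by simp, fun α β e h1 _ => ?_⟩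
  · rcases pf2 hα with rfl | rfl | rfl <;> simp [h, M.hu]
  · rcases pf2 hα with rfl | rfl | rfl
    · simp [h, M.hu]
    · simp [h, M.hu]
    · exact absurd rfl hne
  · rcases pf2 ⟨β, e.symm⟩ with rfl | rfl | rfl
    · exact Or.inl rfl
    · simpa [h] using h1.2 [] List.nil_prefix (by simp)
    · exact Or.inr (by simpa using e)

lemma irr4 (M : Mod) : M.Irr [M.u, M.v, M.u, M.u] := by
  refine ⟨⟨fun α hα => ?_, fun α hα hne => ?_⟩, by simp, fun α β e h1 h2 => ?_⟩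
  · rcases pf4 hα with rfl | rfl | rfl | rfl | rfl <;> simp [M.L_v, M.hu]
  · rcases pf4 hα with rfl | rfl | rfl | rfl | rfl
    · simp [M.L_v, M.hu]
    · simp [M.L_v, M.hu]
    · simp [M.L_v, M.hu]
    · simp [M.L_v, M.hu]
    · exact absurd rfl hne
  · rcases pf4 ⟨β, e.symm⟩ with rfl | rfl | rfl | rfl | rfl
    · exact Or.inl rfl
    · obtain rfl : [M.v, M.u, M.u] = β := by simpa using e
      have := h2.1 [M.v] ⟨[M.u, M.u], rfl⟩
      rw [Mod.lv_cons, Mod.lv_nil, M.L_v] at this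
      linarith
    · simpa [M.L_v, M.hu] using h1.2 [] List.nil_prefix (by simp)
    · simpa [M.L_v, M.hu] using h1.2 [M.u] ⟨[M.v, M.u], rfl⟩ (by simp)
    · exact Or.inr (by simpa using e)

lemma inj {d : ℕ} (h : Fin d → Fin d → ℤ) (j₀ : Fin d)
    (h1 : ∀ j i, i ≠ j₀ → i ≠ j → h j i = 0) (h2 : ∀ j, h j j ≠ 0) :
    Function.Injective fun s : Fin d → ℤ => ∑ j, s j • h j := by
  intro s s' e
  have e1 : ∀ i, ∑ j, (s j - s' j) * h j i = 0 := fun i => by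
    have := congrFun e i
    simp only [Finset.sum_apply, Pi.smul_apply, smul_eq_mul] at this
    simp only [sub_mul, sum_sub_distrib, this, sub_self]
  have e2 : ∀ i, i ≠ j₀ → s i - s' i = 0 := fun i hi => by
    have := e1 i
    rw [sum_eq_single i (fun j _ hj => by rw [h1 j i hi hj.symm, mul_zero]) (by simp)] at this
    exact (mul_eq_zero.1 this).resolve_right (h2 i)
  funext i
  by_cases hi : i = j₀
  · have := e1 i
    rw [sum_eq_single i (fun j _ hj => by rw [e2 j (hi ▸ hj), zero_mul]) (by simp)] at this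
    exact sub_eq_zero.1 ((mul_eq_zero.1 this).resolve_right (h2 i))
  · exact sub_eq_zero.1 (e2 i hi)

lemma step_ne {d : ℕ} (j : Fin d) (s : Bool) {i : Fin d} (h : i ≠ j) : HD.step (j, s) i = 0 := by
  simp [HD.step, h]

lemma step_self {d : ℕ} (j : Fin d) (s : Bool) : HD.step (j, s) j ≠ 0 := by
  cases s <;> simp [HD.step]

end LawAux

open HD.LawAux LawAux in
theorem s_law : S_Law := by
  intro d ν _ P₀ _ hd hP
  have : Nonempty (Fin d × Bool) := ⟨⟨⟨0, hd⟩, true⟩⟩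
  replace hP : ∀ e n, P₀ (Pa e n) = wt HD.step ν 0 (pre e n) := hP
  have w1 : ∀ (e : ℕ → Fin d × Bool) n, wt HD.step ν 0 (pre e n) =
      ∑ c, wt HD.step ν 0 (pre (Function.update e n c) (n + 1)) := fun e n => by
    rw [wt_eq_sum, tsum_fintype]
    refine sum_congr rfl fun c _ => ?_
    rw [pre_succ, Function.update_self, pre_eq_iff.2 (upd e n c)]
  have a1 : ∀ e n, ∀ᵐ X ∂P₀, X ∈ Pa e n → ∃ c, X ∈ Pa (Function.update e n c) (n + 1) := by
    intro e n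
    have h1 : (⋃ c, Pa (Function.update e n c) (n + 1)) =ᵐ[P₀] Pa e n := by
      refine ae_eq_of_subset_of_measure_ge (Set.iUnion_subset fun c X hX =>
        Pa_congr (fun j hj => (upd e n c j hj).symm) fun i hi => hX i (by omega)) (ge_of_eq ?_)
        (MeasurableSet.iUnion fun c => measurableSet_Pa _ _).nullMeasurableSet (measure_ne_top _ _)
      rw [measure_iUnion (fun c c' hc => Set.disjoint_left.2 fun X h h' => hc (by
        simpa using (dec_eq h n n.lt_succ_self).symm.trans (dec_eq h' n n.lt_succ_self)))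
        fun c => measurableSet_Pa _ _, tsum_fintype, hP, w1]
      simp only [hP]
    filter_upwards [h1] with X hX h
    exact Set.mem_iUnion.1 (hX.mpr h)
  have a2 : ∀ᵐ X ∂P₀, ∀ n, X ∈ Pa (dec X) n := by
    have a0 : ∀ᵐ X ∂P₀, X ∈ Pa (fun _ => (⟨0, hd⟩, true)) 0 :=
      (mem_ae_iff_prob_eq_one (measurableSet_Pa _ _)).2 (by simp [hP])
    filter_upwards [a0, ae_all_iff.2 fun n => ae_all_iff.2 fun w : Fin n → Fin d × Bool =>
      a1 (fun i => if h : i < n then w ⟨i, h⟩ else (⟨0, hd⟩, true)) n] with X b0 b1 n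
    induction n with
    | zero => exact Pa_congr (by simp) b0
    | succ n ih =>
      obtain ⟨c, hc⟩ := b1 n (fun i => dec X i)
        (Pa_congr (fun j hj => by simp only [hj, dite_true]) ih)
      exact Pa_congr (dec_eq hc) hc
  refine ⟨P₀.map dec, Measure.isProbabilityMeasure_map measurable_dec.aemeasurable,
    fun γ => ?_, fun A hA => ?_⟩
  · obtain ⟨e, he⟩ := exists_pre ((⟨0, hd⟩, true) : Fin d × Bool) γ
    rw [Measure.map_apply measurable_dec (measurableSet_cyl γ)]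
    refine Eq.trans (measure_congr ?_) ((hP e γ.length).trans (by rw [he]))
    filter_upwards [a2] with X hX
    refine propext ⟨fun h => ?_, fun h => ?_⟩
    · exact Pa_congr (fun j hj => (pre_eq_iff.1 (Eq.trans h he.symm) j hj).symm) (hX γ.length)
    · exact (pre_eq_iff.2 (dec_eq h)).trans he
  · simp only [disp_pre]
    have hm : Measurable fun (e : ℕ → Fin d × Bool) (n : ℕ) => HD.pos e n :=
      measurable_pi_lambda _ fun n => Finset.measurable_sum (range n) fun i _ =>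
        (Measurable.of_discrete (f := HD.step)).comp (measurable_pi_apply i)
    refine Eq.trans (measure_congr ?_) (Measure.map_apply measurable_dec (hm hA)).symm
    filter_upwards [a2] with X hX
    have h1 : X = HD.pos (dec X) := funext fun n => hX n n le_rfl
    exact congrArg (fun Y : ℕ → Fin d → ℤ => Y ∈ A) h1

open LawAux in
theorem s_pcs : S_Pcs := by
  intro d ν _ κ hκ uel l hl
  obtain ⟨j₁, hj₁⟩ := Function.ne_iff.1 hl
  obtain ⟨j₀, -, hj₀⟩ := exists_max_image univ (fun j => |l j|) ⟨j₁, mem_univ _⟩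
  have hc : 0 < |l j₀| := (abs_pos.2 hj₁).trans_le (hj₀ j₁ (mem_univ _))
  let L : (Fin d → ℤ) →+ ℝ := AddMonoidHom.mk' (fun z => (∑ j, (z j : ℝ) * l j) / |l j₀|)
    fun a b => by simp [add_mul, sum_add_distrib, add_div]
  have hLs : ∀ j s, L (HD.step (j, s)) = (if s then 1 else -1) * l j / |l j₀| := by
    intro j s
    show (∑ i, ((HD.step (j, s) i : ℤ) : ℝ) * l i) / |l j₀| = _
    rw [sum_eq_single j (fun i _ hi => by simp [step_ne j s hi]) (by simp)]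
    cases s <;> simp [HD.step]
  have hL1 : ∀ e, |L (HD.step e)| ≤ 1 := by
    rintro ⟨j, s⟩
    have := hj₀ j (mem_univ _)
    rw [hLs, abs_div, abs_abs, div_le_one hc, abs_mul]
    cases s <;> simpa using this
  have hneg : ∀ (j : Fin d) s, HD.step (j, !s) = -HD.step (j, s) := fun j s => by
    funext i
    cases s <;> by_cases hi : i = j <;> simp [HD.step, hi]
  obtain ⟨s₀, hu⟩ : ∃ s, L (HD.step (j₀, s)) = 1 := by
    rcases le_total 0 (l j₀) with h | h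
    · exact ⟨true, by rw [hLs, div_eq_one_iff_eq hc.ne', abs_of_nonneg h]; simp⟩
    · exact ⟨false, by rw [hLs, div_eq_one_iff_eq hc.ne', abs_of_nonpos h]; simp⟩
  refine ⟨|l j₀|, L, hL1, (j₀, s₀), hu, (j₀, !s₀), hneg j₀ s₀, hc, fun z => ?_, ?_⟩
  · exact (mul_div_cancel₀ _ hc.ne').symm
  let M : Mod := ⟨Fin d × Bool, Fin d → ℤ, HD.step, ν, κ, hκ, uel, L, hL1, (j₀, s₀), hu,
    (j₀, !s₀), hneg j₀ s₀⟩
  have key : ∀ j, ∃ h : Fin d → ℤ, (∀ i, i ≠ j₀ → i ≠ j → h i = 0) ∧ h j ≠ 0 ∧ |L h| ≤ 1 ∧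
      (j = j₀ → h = HD.step (j₀, s₀)) ∧
      ∃ π, M.Irr π ∧ M.ds π = HD.step (j₀, s₀) + h ∧ π.length ≤ 4 := by
    intro j
    by_cases hj : j = j₀
    · refine ⟨HD.step (j₀, s₀), fun i hi _ => step_ne _ _ hi, hj ▸ step_self _ _, hL1 _,
        fun _ => rfl, _, irr4 M, ?_, le_rfl⟩
      rw [M.ds_cons, M.ds_cons, M.ds_cons, M.ds_cons, M.ds_nil, M.hv, add_zero,
        add_neg_cancel_left]
    obtain ⟨s, hs⟩ : ∃ s, 0 ≤ L (HD.step (j, s)) := by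
      rcases le_total 0 (L (HD.step (j, true))) with h | h
      · exact ⟨true, h⟩
      · exact ⟨!true, by rw [hneg, map_neg]; linarith⟩
    rcases hs.eq_or_lt with h0 | h0
    · refine ⟨HD.step (j, s), fun i _ hi => step_ne _ _ hi, step_self _ _, hL1 _,
        fun h => absurd h hj, _, irr2 (M := M) (f := (j, s)) h0.symm, ?_, by simp⟩
      rw [M.ds_cons, M.ds_cons, M.ds_nil, add_zero, add_comm]
    · refine ⟨HD.step (j, s) - HD.step (j₀, s₀), fun i h1 h2 => ?_, ?_, ?_,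
        fun h => absurd h hj, _, irr1 (M := M) (f := (j, s)) h0, ?_, by simp⟩
      · rw [Pi.sub_apply, step_ne _ _ h1, step_ne _ _ h2, sub_zero]
      · rw [Pi.sub_apply, step_ne j₀ s₀ hj, sub_zero]
        exact step_self _ _
      · rw [map_sub, hu, abs_le]
        constructor <;> linarith [(abs_le.1 (hL1 (j, s))).2]
      · rw [M.ds_cons, M.ds_nil, add_zero, add_sub_cancel]
  choose h h1 h2 h3 h4 h5 using key
  exact ⟨h, inj h j₀ h1 h2, h3, ⟨j₀, h4 j₀ rfl⟩, h5⟩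

end Pool.Agent.MP_db8016_pr.BZ

end
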