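import Pool.Agent.Mg.Fdb8016p.Ged04e7
import Pool.Agent.Mg.Fdb8016p.G4304b5
import Pool.Agent.Mg.Fdb8016p.G2a09e5

section

/-! The moment bound of a window. -/

namespace Pool.Agent.MP_db8016_pr.BZ
open MeasureTheory ProbabilityTheory Filter
open scoped ENNReal

namespace MomAux

variable {M : Mod}

/-- The first visit of a path to a finite set. -/
lemma first_touch (V : Finset M.Pt) (γ : List M.D) (x : M.Pt)
    (h : ¬ Disjoint V (pts M.vec x γ)) :
    ∃ α, α <+: γ ∧ α ≠ γ ∧ x + M.ds α ∈ V ∧ Disjoint V (pts M.vec x α) := by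
  induction γ generalizing x with
  | nil => simp at h
  | cons d γ ih =>
    by_cases hx : x ∈ V
    · exact ⟨[], List.nil_prefix, by simp, by simpa using hx, by simp⟩
    · rw [pts_cons, Finset.disjoint_insert_right] at h
      obtain ⟨α, h1, h2, h3, h4⟩ := ih (x + M.vec d) fun h' => h ⟨hx, h'⟩
      refine ⟨d :: α, List.cons_prefix_cons.2 ⟨rfl, h1⟩, by simpa using h2, ?_, ?_⟩
      · rw [Mod.ds_cons, ← add_assoc]
        exact h3
      · rw [pts_cons, Finset.disjoint_insert_right]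
        exact ⟨hx, h4⟩

open Classical in
/-- The coefficient of a path. -/
noncomputable def cf (G : Set (List M.D)) (s : M.Pt → ℝ≥0∞) (T : Set M.Pt) (x : M.Pt)
    (γ : List M.D) : ℝ≥0∞ := if x ∈ T ∧ γ ∈ G then s (-(x + M.ds γ)) else 0

lemma Yf_eq (G : Set (List M.D)) (s : M.Pt → ℝ≥0∞) (T : Set M.Pt) (a : M.Pt → ℕ → M.D) :
    M.Yf G s T a = ∑' x, ∑' γ, cf G s T x γ * (M.F x γ).indicator 1 a := by
  unfold Mod.Yf cf
  refine tsum_congr fun x => tsum_congr fun γ => ?_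
  split_ifs <;> simp

lemma yb_eq (G : Set (List M.D)) (s : M.Pt → ℝ≥0∞) (T : Set M.Pt) :
    M.yb G s T = ∑' x, ∑' γ, cf G s T x γ * M.w γ := by
  unfold Mod.yb cf
  refine tsum_congr fun x => tsum_congr fun γ => ?_
  split_ifs <;> simp

lemma measurable_Yf (G : Set (List M.D)) (s : M.Pt → ℝ≥0∞) (T : Set M.Pt) :
    Measurable (M.Yf G s T) := by
  have : M.Yf G s T = fun a => ∑' x, ∑' γ, cf G s T x γ * (M.F x γ).indicator 1 a :=
    funext (Yf_eq G s T)
  rw [this]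
  exact Measurable.ennreal_tsum fun x => Measurable.ennreal_tsum fun γ =>
    (measurable_one.indicator (M.measurableSet_F x γ)).const_mul _

lemma P_inter {V : Finset M.Pt} {E : Set (M.Pt → ℕ → M.D)} (hE : MeasurableSet E)
    (h : DetOn V E) {x : M.Pt} {γ : List M.D} (hV : Disjoint V (pts M.vec x γ)) :
    M.P (E ∩ M.F x γ) = M.P E * M.w γ := arrows_inter_Fol M.vec M.ν hE h hV

/-- The paths from `x` that meet `V`. -/
def Bx (G : Set (List M.D)) (s : M.Pt → ℝ≥0∞) (V : Finset M.Pt) (x : M.Pt) : Set (List M.D) :=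
  {γ | γ ∈ G ∧ s (-(x + M.ds γ)) ≠ 0 ∧ ¬ Disjoint V (pts M.vec x γ)}

/-- Their initial parts up to the first visit. -/
def Ax (H : Set (List M.D)) (w : ℝ) (V : Finset M.Pt) (x : M.Pt) : Set (List M.D) :=
  {α | α ∈ H ∧ M.lv α < w ∧ x + M.ds α ∈ V ∧ Disjoint V (pts M.vec x α) ∧
    -w - 1 < M.L x ∧ M.L x ≤ 1 - w}

section key

variable {G H : Set (List M.D)} {s : M.Pt → ℝ≥0∞} {w : ℝ} {cap : ℕ} {lam g : ℝ≥0∞}
  {V : Finset M.Pt} {E : Set (M.Pt → ℕ → M.D)}

lemma touch_le (hw : 0 ≤ w)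
    (hG : ∀ γ ∈ G, M.Cross w γ ∧ γ.length ≤ cap ∧ ∀ α, α <+: γ → α ∈ H) (hs : M.Slab s)
    (hE : MeasurableSet E) (hV : DetOn V E) (x : M.Pt) :
    ∑' γ, (Bx G s V x).indicator (fun γ => M.P (E ∩ M.F x γ)) γ ≤
      M.P E * ∑' α, (Ax H w V x).indicator M.w α := by
  have hpf : PF (Bx G s V x) := (Mod.pf_cross M w).mono fun γ h => (hG γ h.1).1
  rw [← tsum_subtype (Bx G s V x) fun γ => M.P (E ∩ M.F x γ),
    ← tsum_subtype (Ax H w V x) M.w, ← measure_iUnion, ← ENNReal.tsum_mul_left]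
  · refine le_trans (measure_mono (t := ⋃ α : Ax H w V x, E ∩ M.F x α) ?_)
      ((measure_iUnion_le _).trans (le_of_eq (tsum_congr fun α => ?_)))
    · refine Set.iUnion_subset fun γ => ?_
      obtain ⟨γ, h1, h2, h3⟩ := γ
      obtain ⟨α, a1, a2, a3, a4⟩ := first_touch V γ x h3
      obtain ⟨c1, -, c3⟩ := hG γ h1
      have e1 := hs _ h2
      have e2 := c1.lv_lt hw
      have e3 := c1.2.1
      have e4 : M.L (-(x + M.ds γ)) = -(M.L x + M.lv γ) := by
        rw [map_neg, map_add]; rfl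
      rw [e4] at e1
      have hα : α ∈ Ax H w V x :=
        ⟨c3 α a1, c1.2.2 α a1 a2, a3, a4, by linarith [e1.2], by linarith [e1.1]⟩
      refine Set.subset_iUnion_of_subset ⟨α, hα⟩ (Set.inter_subset_inter_right _ ?_)
      obtain ⟨τ, rfl⟩ := a1
      exact Fol_append_subset _ _ _ _
    · exact P_inter hE hV α.2.2.2.2.1
  · intro γ γ' hne
    refine Set.disjoint_left.2 fun a ha ha' => hne (Subtype.ext ?_)
    exact Mod.eq_of_mem_F hpf γ.2 γ'.2 ha.2 ha'.2
  · exact fun γ => hE.inter (M.measurableSet_F x γ)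

lemma sum_Ax_le
    (hg : ∀ t : ℝ, M.sm {α | α ∈ H ∧ M.lv α < w ∧ t ≤ M.lv α ∧ M.lv α < t + 2} ≤ g) :
    ∑' x, ∑' α, (Ax H w V x).indicator M.w α ≤ V.card * g := by
  rw [ENNReal.tsum_comm]
  have h1 : ∀ α, ∑' x, (Ax H w V x).indicator M.w α ≤ ∑ v ∈ V,
      {α | α ∈ H ∧ M.lv α < w ∧ M.L v + w - 1 ≤ M.lv α ∧
        M.lv α < M.L v + w - 1 + 2}.indicator M.w α := by
    intro α
    rw [← (Equiv.subRight (M.ds α)).tsum_eq, tsum_eq_sum (s := V)]
    · refine Finset.sum_le_sum fun v _ => ?_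
      by_cases hα : α ∈ Ax H w V (Equiv.subRight (M.ds α) v)
      · rw [Set.indicator_of_mem hα, Set.indicator_of_mem]
        obtain ⟨a1, a2, -, -, a5, a6⟩ := hα
        have e : M.L (Equiv.subRight (M.ds α) v) = M.L v - M.lv α := by
          rw [Equiv.subRight_apply, map_sub]; rfl
        rw [e] at a5 a6
        exact ⟨a1, a2, by linarith, by linarith⟩
      · rw [Set.indicator_of_notMem hα]
        exact zero_le
    · intro v hv
      refine Set.indicator_of_notMem (fun hα => hv ?_) _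
      have := hα.2.2.1
      rwa [Equiv.subRight_apply, sub_add_cancel] at this
  refine (ENNReal.tsum_le_tsum h1).trans ?_
  rw [Summable.tsum_finsetSum fun _ _ => ENNReal.summable]
  refine (Finset.sum_le_card_nsmul V _ g fun v _ => hg _).trans (le_of_eq ?_)
  rw [nsmul_eq_mul]

lemma key (hw : 0 ≤ w)
    (hG : ∀ γ ∈ G, M.Cross w γ ∧ γ.length ≤ cap ∧ ∀ α, α <+: γ → α ∈ H)
    (hg : ∀ t : ℝ, M.sm {α | α ∈ H ∧ M.lv α < w ∧ t ≤ M.lv α ∧ M.lv α < t + 2} ≤ g)
    (hs : M.Slab s) (hl : ∀ z, s z ≤ lam) (T : Set M.Pt)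
    (hE : MeasurableSet E) (hV : DetOn V E) :
    ∑' x, ∑' γ, cf G s T x γ * M.P (E ∩ M.F x γ) ≤
      M.P E * (M.yb G s T + V.card * (lam * g)) := by
  have h1 : ∀ x γ, cf G s T x γ * M.P (E ∩ M.F x γ) ≤ M.P E * (cf G s T x γ * M.w γ) +
      lam * (Bx G s V x).indicator (fun γ => M.P (E ∩ M.F x γ)) γ := by
    intro x γ
    by_cases hd : Disjoint V (pts M.vec x γ)
    · rw [P_inter hE hV hd, mul_left_comm]
      exact le_self_add
    · unfold cf
      split_ifs with hc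
      · by_cases h0 : s (-(x + M.ds γ)) = 0
        · rw [h0, zero_mul]
          exact zero_le
        · have hB : γ ∈ Bx G s V x := ⟨hc.2, h0, hd⟩
          rw [Set.indicator_of_mem hB]
          exact le_add_left (mul_le_mul' (hl _) le_rfl)
      · rw [zero_mul]
        exact zero_le
  refine (ENNReal.tsum_le_tsum fun x => ENNReal.tsum_le_tsum fun γ => h1 x γ).trans ?_
  simp only [ENNReal.tsum_add, ENNReal.tsum_mul_left]
  rw [← yb_eq, mul_add]
  refine add_le_add le_rfl ?_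
  refine (mul_le_mul' le_rfl (ENNReal.tsum_le_tsum fun x => touch_le hw hG hs hE hV x)).trans ?_
  rw [ENNReal.tsum_mul_left]
  refine (mul_le_mul' le_rfl (mul_le_mul' le_rfl (sum_Ax_le hg))).trans (le_of_eq ?_)
  ring

lemma main (hw : 0 ≤ w)
    (hG : ∀ γ ∈ G, M.Cross w γ ∧ γ.length ≤ cap ∧ ∀ α, α <+: γ → α ∈ H)
    (hg : ∀ t : ℝ, M.sm {α | α ∈ H ∧ M.lv α < w ∧ t ≤ M.lv α ∧ M.lv α < t + 2} ≤ g)
    (hs : M.Slab s) (hl : ∀ z, s z ≤ lam) (T : Set M.Pt) (k : ℕ) :
    ∀ (V : Finset M.Pt) (E : Set (M.Pt → ℕ → M.D)), MeasurableSet E → DetOn V E →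
      ∫⁻ a in E, M.Yf G s T a ^ k ∂M.P ≤
        M.P E * ∏ i ∈ Finset.range k, (M.yb G s T + (V.card + i * cap) * (lam * g)) := by
  induction k with
  | zero => intro V E _ _; simp
  | succ k ih =>
    intro V E hE hV
    have hm : Measurable fun a => M.Yf G s T a ^ k := (measurable_Yf G s T).pow_const k
    have e1 : ∀ a, M.Yf G s T a ^ (k + 1) =
        ∑' x, ∑' γ, cf G s T x γ * (M.F x γ).indicator (fun a => M.Yf G s T a ^ k) a := by
      intro a
      rw [pow_succ', Yf_eq G s T a, ← ENNReal.tsum_mul_right]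
      refine tsum_congr fun x => ?_
      rw [← ENNReal.tsum_mul_right]
      refine tsum_congr fun γ => ?_
      rw [← Yf_eq G s T a, mul_assoc]
      by_cases ha : a ∈ M.F x γ
      · rw [Set.indicator_of_mem ha, Set.indicator_of_mem ha, Pi.one_apply, one_mul]
      · rw [Set.indicator_of_notMem ha, Set.indicator_of_notMem ha, zero_mul]
    have hm' : ∀ x γ, Measurable fun a =>
        cf G s T x γ * (M.F x γ).indicator (fun a => M.Yf G s T a ^ k) a :=
      fun x γ => (hm.indicator (M.measurableSet_F x γ)).const_mul _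
    have e2 : ∫⁻ a in E, M.Yf G s T a ^ (k + 1) ∂M.P =
        ∑' x, ∑' γ, cf G s T x γ * ∫⁻ a in E ∩ M.F x γ, M.Yf G s T a ^ k ∂M.P := by
      simp only [e1]
      rw [lintegral_tsum fun x => (Measurable.ennreal_tsum (hm' x)).aemeasurable]
      refine tsum_congr fun x => ?_
      rw [lintegral_tsum fun γ => (hm' x γ).aemeasurable]
      refine tsum_congr fun γ => ?_
      rw [lintegral_const_mul _ (hm.indicator (M.measurableSet_F x γ)),
        lintegral_indicator (M.measurableSet_F x γ),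
        Measure.restrict_restrict (M.measurableSet_F x γ), Set.inter_comm]
    have e3 : ∀ x γ, cf G s T x γ * ∫⁻ a in E ∩ M.F x γ, M.Yf G s T a ^ k ∂M.P ≤
        cf G s T x γ * M.P (E ∩ M.F x γ) * ∏ i ∈ Finset.range k,
          (M.yb G s T + (V.card + ((i + 1 : ℕ) : ℝ≥0∞) * cap) * (lam * g)) := by
      intro x γ
      by_cases hγ : γ ∈ G
      · rw [mul_assoc]
        refine mul_le_mul' le_rfl ((ih (V ∪ pts M.vec x γ) _
          (hE.inter (M.measurableSet_F x γ)) (hV.inter (detOn_Fol M.vec x γ))).trans ?_)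
        refine mul_le_mul' le_rfl (Finset.prod_le_prod' fun i _ => ?_)
        have hc : (V ∪ pts M.vec x γ).card + i * cap ≤ V.card + (i + 1) * cap := by
          have h1 := Finset.card_union_le V (pts M.vec x γ)
          have h2 := card_pts_le M.vec x γ
          have h3 := (hG γ hγ).2.1
          rw [add_mul, one_mul]
          omega
        refine add_le_add le_rfl (mul_le_mul' ?_ le_rfl)
        exact_mod_cast hc
      · have : cf G s T x γ = 0 := if_neg fun h => hγ h.2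
        rw [this, zero_mul]
        exact zero_le
    rw [e2]
    refine (ENNReal.tsum_le_tsum fun x => ENNReal.tsum_le_tsum fun γ => e3 x γ).trans ?_
    simp only [ENNReal.tsum_mul_right]
    rw [Finset.prod_range_succ']
    refine (mul_le_mul' (key hw hG hg hs hl T hE hV) le_rfl).trans (le_of_eq ?_)
    rw [Nat.cast_zero, zero_mul, add_zero]
    ring

end key

end MomAux

theorem s_mom : S_Mom := by
  intro M G H s w cap lam g hw hG hg hs hl T k
  have h := MomAux.main hw hG hg hs hl T k ∅ Set.univ MeasurableSet.univ (detOn_univ _)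
  rw [Measure.restrict_univ, measure_univ, one_mul] at h
  refine h.trans (le_of_eq (Finset.prod_congr rfl fun i _ => ?_))
  rw [Finset.card_empty, Nat.cast_zero, zero_add, mul_assoc]

end Pool.Agent.MP_db8016_pr.BZ

end

section

/-! The chain of thresholds. -/

namespace Pool.Agent.MP_db8016_pr.BZ
open MeasureTheory ProbabilityTheory Filter Topology
open scoped ENNReal Classical

namespace ChainAux3

/-- The factors. -/
def aa (ε e : ℝ) : ℝ := 1 + 30 * ε - 20 * e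

/-- The thresholds. -/
noncomputable def tt (ε : ℝ) (y : ℝ≥0∞) (e : ℝ) : ℝ≥0∞ :=
  ENNReal.ofReal (aa ε e) * (y + ENNReal.ofReal (6 * ε ^ 2 - 4 * ε * e))

/-- The errors. -/
noncomputable def ee (ε B e : ℝ) : ℝ≥0∞ := ENNReal.ofReal (aa ε e * B * (3 * ε - 2 * e))

variable {ε e B : ℝ}

lemma pw (h0 : 0 < e) (h1 : e ≤ 1 / 40) : (1 + e) ^ 4 ≤ 1 + 5 * e := by
  have h2 : e ^ 2 ≤ e / 40 := by nlinarith
  have h3 : e ^ 3 ≤ e / 40 := by nlinarith
  have h4 : e ^ 4 ≤ e / 40 := by nlinarith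
  nlinarith

lemma one_le (h0 : 0 < e) (h1 : e ≤ ε) : 1 ≤ aa ε e := by
  unfold aa
  linarith

lemma le_two (h0 : 0 < e) (h2 : ε ≤ 1 / 40) : aa ε e ≤ 2 := by
  unfold aa
  linarith

lemma aa_le (h0 : 0 < e) (h1 : e ≤ ε) (h2 : ε ≤ 1 / 40) :
    (1 + e) ^ 4 * aa ε e ≤ aa ε (e / 2) := by
  have a1 := one_le h0 h1
  have a2 := le_two h0 h2
  have a3 := mul_le_mul_of_nonneg_right (pw h0 (h1.trans h2)) (zero_le_one.trans a1)
  have a4 : aa ε (e / 2) = aa ε e + 10 * e := by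
    unfold aa
    ring
  nlinarith

lemma tt_le (y : ℝ≥0∞) (h0 : 0 < e) (h1 : e ≤ ε) (h2 : ε ≤ 1 / 40) :
    ENNReal.ofReal (1 + e) ^ 4 * (tt ε y e + ENNReal.ofReal (2 * e ^ 2)) ≤ tt ε y (e / 2) := by
  have a1 : 1 ≤ ENNReal.ofReal (aa ε e) := ENNReal.one_le_ofReal.2 (one_le h0 h1)
  have a2 : tt ε y e + ENNReal.ofReal (2 * e ^ 2) ≤
      ENNReal.ofReal (aa ε e) * (y + ENNReal.ofReal (6 * ε ^ 2 - 4 * ε * (e / 2))) := by
    refine (add_le_add le_rfl (le_mul_of_one_le_left' a1)).trans ?_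
    rw [tt, ← mul_add, add_assoc, ← ENNReal.ofReal_add (by nlinarith) (by positivity)]
    gcongr
    nlinarith
  refine (mul_le_mul_right a2 _).trans ?_
  rw [← mul_assoc, ← ENNReal.ofReal_pow (by positivity), ← ENNReal.ofReal_mul (by positivity), tt]
  gcongr
  exact aa_le h0 h1 h2

lemma ee_le (hB : 0 ≤ B) (h0 : 0 < e) (h1 : e ≤ ε) (h2 : ε ≤ 1 / 40) :
    ENNReal.ofReal (1 + e) ^ 4 * ee ε B e + ENNReal.ofReal (B * e) ≤ ee ε B (e / 2) := by
  have a1 := one_le h0 h1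
  have a2 := one_le (ε := ε) (half_pos h0) (by linarith)
  have a3 : 0 ≤ B * (3 * ε - 2 * e) := mul_nonneg hB (by linarith)
  have a4 := mul_le_mul_of_nonneg_right (aa_le h0 h1 h2) a3
  have a5 := mul_le_mul_of_nonneg_right a2 (mul_nonneg hB h0.le)
  rw [ee, ee, ← ENNReal.ofReal_pow (by positivity), ← ENNReal.ofReal_mul (by positivity),
    ← ENNReal.ofReal_add (by rw [mul_assoc]; positivity) (by positivity)]
  exact ENNReal.ofReal_le_ofReal (by nlinarith)

/-- The descent along the scales. -/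
lemma chain {lam w : ℝ} {F : ℝ → ℝ → Prop}
    (st : ∀ e h h', 0 < e → e ≤ ε → 0 ≤ h → h ≤ h' → 1 ≤ h' → h' ≤ 256 * max h 1 → h' ≤ w →
      lam * h' = e ^ 8 → F h' e → F h (e / 2)) (n : ℕ) :
    ∀ e h, 0 < e → e ≤ ε → 1 ≤ h → h ≤ w → h ≤ 256 ^ (n + 1) → lam * h = e ^ 8 → F h e →
      ∃ e', 0 < e' ∧ e' ≤ ε ∧ F 0 e' := by
  have sm : ∀ e h, 0 < e → e ≤ ε → 1 ≤ h → h ≤ w → h ≤ 256 → lam * h = e ^ 8 → F h e →
      ∃ e', 0 < e' ∧ e' ≤ ε ∧ F 0 e' := fun e h a1 a2 a3 a4 a5 a6 a7 =>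
    ⟨e / 2, by linarith, by linarith, st e 0 h a1 a2 le_rfl (by linarith) a3 (by simpa using a5)
      a4 a6 a7⟩
  induction n with
  | zero => simpa using sm
  | succ n ih =>
    intro e h a1 a2 a3 a4 a5 a6 a7
    rcases le_total h 256 with c | c
    · exact sm e h a1 a2 a3 a4 c a6 a7
    · refine ih (e / 2) (h / 256) (by linarith) (by linarith) (by linarith) (by linarith)
        (by rw [pow_succ] at a5; linarith) (by rw [div_pow, ← a6]; ring)
        (st e _ h a1 a2 (by linarith) (by linarith) a3 ?_ a4 a6 a7)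
      linarith [le_max_left (h / 256) 1]

end ChainAux3

open ChainAux3 in
theorem t_chain (hO : T_One) (hT : T_TopS) (hE : T_End) : T_Chain := by
  intro M p hP hB
  obtain ⟨C₁, c1, h1⟩ := hO M p hP hB
  obtain ⟨C₂, c2, h2⟩ := hT M p hP hB
  refine ⟨6 * (C₁ + C₂), by positivity, ?_⟩
  intro s S w lam A ε h y hc hs hl hS hA e0 e1 g1 g2 g3 g4 hy
  have hB : 0 ≤ (C₁ + C₂) * A := by positivity
  obtain ⟨n, hn⟩ := pow_unbounded_of_one_lt h (by norm_num : (1 : ℝ) < 256)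
  obtain ⟨e, a1, a2, a3⟩ := chain (ε := ε) (lam := lam) (w := w)
    (F := fun h e => M.Top s S (-w - 2 + h) (M.Win (-w - 2) 3) (tt ε y e) ≤
      ee ε ((C₁ + C₂) * A) e) (fun e h h' b1 b2 b3 b4 b5 b6 b7 b8 b9 => by
      refine (h1 s S w lam A e h h' _ _ hc hs hl hS hA b1 (by linarith) b3 b4 b5 b6 b7 b8
        (tt_le y b1 b2 e1)).trans (le_trans ?_ (ee_le hB b1 b2 e1))
      gcongr
      linarith) n ε h e0 le_rfl g1 g2
    (hn.le.trans (pow_le_pow_right₀ (by norm_num) n.le_succ)) g3 (by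
      refine (h2 s S w lam A ε h _ y hc hs hl hS hA e0 (by linarith) g1 g2 g3 g4 hy ?_).trans
        (ENNReal.ofReal_le_ofReal ?_)
      · rw [tt, ← ENNReal.ofReal_pow (by positivity)]
        gcongr
        · have := pw e0 e1
          unfold aa
          linarith
        · linarith
      · have a1 := mul_le_mul_of_nonneg_right (one_le e0 le_rfl) (mul_nonneg hB e0.le)
        have a2 : 0 ≤ C₁ * A * ε := by positivity
        nlinarith)
  refine le_trans (lintegral_mono fun a => ?_) (a3.trans (ENNReal.ofReal_le_ofReal ?_))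
  · refine tsub_le_tsub (iSup₂_mono fun u hu => ?_) ?_
    · rw [add_zero, (hE M s S _ u a hc.2.2 hu).1]
    · rw [tt, ← ENNReal.ofReal_ofNat 2]
      gcongr
      · exact le_two a1 e1
      · nlinarith
  · have b1 := mul_le_mul_of_nonneg_right (le_two a1 e1)
      (mul_nonneg hB (by linarith : 0 ≤ 3 * ε - 2 * e))
    have b2 := mul_nonneg hB a1.le
    nlinarith

end Pool.Agent.MP_db8016_pr.BZ

end

section

/-! First visits of short paths, and the trivial bound for the number of meetings. -/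

namespace Pool.Agent.MP_db8016_pr.BZ
open MeasureTheory ProbabilityTheory Filter Topology
open scoped ENNReal Classical

namespace FT1Aux3
open BZ.Mod

variable (M : Mod)

/-- The number of visits to `n` consecutive windows. -/
noncomputable def cnt (t : ℝ) (n : ℕ) (γ : List M.D) : ℝ≥0∞ :=
  ∑' α, if α <+: γ ∧ α ≠ γ ∧ t ≤ M.lv α ∧ M.lv α < t + n then 1 else 0

lemma visN (hV : T_Vis) (t t' : ℝ) (n : ℕ) :
    M.UW t (cnt M t' n) ≤ n * (M.m1 * M.κ⁻¹ ^ 2) := by
  induction n with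
  | zero =>
    refine le_trans (UW_mono t (g := fun _ => 0 * 0) fun γ _ _ _ => ?_) ?_
    · refine le_of_eq ((ENNReal.tsum_eq_zero.2 fun α => if_neg fun h => ?_).trans (by simp))
      have := h.2.2
      simp only [Nat.cast_zero, add_zero] at this
      linarith [this.1, this.2]
    · rw [UW_mul, zero_mul]
      exact zero_le
  | succ n ih =>
    rw [Nat.cast_succ, add_mul, one_mul]
    refine le_trans (UW_mono t fun γ _ _ _ => ?_)
      ((UW_add t _ _).trans_le (add_le_add ih (hV M t (t' + n))))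
    rw [cnt, cnt, ← ENNReal.tsum_add]
    refine ENNReal.tsum_le_tsum fun α => ?_
    split_ifs with h1 h2 h3 h4
    any_goals simp
    refine h4 ⟨h1.1, h1.2.1, not_lt.1 fun h => h2 ⟨h1.1, h1.2.1, h1.2.2.1, h⟩, ?_⟩
    have := h1.2.2.2
    push_cast at this
    linarith

lemma site (hV : T_Vis) (v : M.Pt) {h : ℝ} (h0 : 0 ≤ h) :
    ∑' y, (if y ∈ M.Near then M.sm {ζ | M.Cross h ζ ∧ v ∈ pts M.vec y ζ} else 0) ≤
      8 * (M.m1 * M.κ⁻¹ ^ 2) := by
  refine le_trans ?_ ((visN M hV h (M.L v - 4) 8).trans_eq (by norm_num))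
  have h1 : ∀ y, (if y ∈ M.Near then M.sm {ζ | M.Cross h ζ ∧ v ∈ pts M.vec y ζ} else 0) ≤
      ∑' ζ, if M.Up ζ ∧ h ≤ M.lv ζ ∧ M.lv ζ < h + 1 then M.w ζ * ∑' α,
        if (α <+: ζ ∧ α ≠ ζ ∧ M.L v - 4 ≤ M.lv α ∧ M.lv α < M.L v - 4 + (8 : ℕ)) ∧
          y = v - M.ds α then 1 else 0 else 0 := fun y => by
    split_ifs with hy
    · refine ENNReal.tsum_le_tsum fun ζ => Set.indicator_apply_le' (fun hζ => ?_) fun _ => zero_le
      obtain ⟨α, a1, a2, a3⟩ := M.mem_pts.1 hζ.2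
      rw [if_pos ⟨hζ.1.up, hζ.1.2.1, hζ.1.lv_lt h0⟩]
      refine le_mul_of_one_le_right' (le_trans (le_of_eq (if_pos ?_).symm) (ENNReal.le_tsum α))
      have e : M.L v = M.L y + M.lv α := by rw [a3, map_add, lv]
      have := abs_lt.1 (show |M.L y| < 4 from hy)
      push_cast
      exact ⟨⟨a1, a2, by linarith, by linarith⟩, by rw [a3, add_sub_cancel_right]⟩
    · exact zero_le
  refine (ENNReal.tsum_le_tsum h1).trans ?_
  rw [ENNReal.tsum_comm]
  refine ENNReal.tsum_le_tsum fun ζ => ?_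
  split_ifs
  · rw [ENNReal.tsum_mul_left, ENNReal.tsum_comm]
    refine mul_le_mul_right (ENNReal.tsum_le_tsum fun α => ?_) _
    rw [tsum_eq_single (v - M.ds α) fun y hy => if_neg fun h => hy h.2]
    simp only [and_true, le_refl]
  · simp

lemma sites (hV : T_Vis) {h : ℝ} (h0 : 0 ≤ h) (γ : List M.D) (n : ℕ) (G : M.Pt → Set (List M.D))
    (hG : ∀ y ∈ M.Near, ∀ ζ ∈ G y, M.Cross h ζ ∧ ∃ α,
      (α <+: γ ∧ α ≠ γ ∧ 0 ≤ M.lv α ∧ M.lv α < 0 + n) ∧ M.ds α ∈ pts M.vec y ζ) :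
    ∑' y, (if y ∈ M.Near then M.sm (G y) else 0) ≤ 8 * (M.m1 * M.κ⁻¹ ^ 2) * cnt M 0 n γ := by
  have h1 : ∀ y, (if y ∈ M.Near then M.sm (G y) else 0) ≤
      ∑' α, if α <+: γ ∧ α ≠ γ ∧ 0 ≤ M.lv α ∧ M.lv α < 0 + n then
        (if y ∈ M.Near then M.sm {ζ | M.Cross h ζ ∧ M.ds α ∈ pts M.vec y ζ} else 0)
        else 0 := fun y => by
    by_cases hy : y ∈ M.Near
    · simp only [if_pos hy]
      have h2 : ∀ ζ, (G y).indicator M.w ζ ≤
          ∑' α, if α <+: γ ∧ α ≠ γ ∧ 0 ≤ M.lv α ∧ M.lv α < 0 + n then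
            {ζ | M.Cross h ζ ∧ M.ds α ∈ pts M.vec y ζ}.indicator M.w ζ else 0 := fun ζ => by
        refine Set.indicator_apply_le' (fun hζ => ?_) fun _ => zero_le
        obtain ⟨c, α, a1, a2⟩ := hG y hy ζ hζ
        refine le_trans (le_of_eq ?_) (ENNReal.le_tsum α)
        rw [if_pos a1, Set.indicator_of_mem (by exact ⟨c, a2⟩)]
      refine (ENNReal.tsum_le_tsum h2).trans ?_
      rw [ENNReal.tsum_comm]
      refine ENNReal.tsum_le_tsum fun α => ?_
      split_ifs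
      · exact le_rfl
      · simp
    · rw [if_neg hy]
      exact zero_le
  refine (ENNReal.tsum_le_tsum h1).trans ?_
  rw [ENNReal.tsum_comm, cnt, ← ENNReal.tsum_mul_left]
  refine ENNReal.tsum_le_tsum fun α => ?_
  split_ifs
  · rw [mul_one]
    exact site M hV _ h0
  · simp

lemma first (η : ℝ≥0∞) (h : ℝ) {A : Set (List M.D)} (hA : PF A) (hH : A ⊆ M.HP η h) :
    η * ∑' α, (if α ∈ A then M.w α else 0) ≤ M.sm {ζ | M.Cross h ζ ∧ ∃ α ∈ A, α <+: ζ} := by
  have h1 : ∀ α, η * (if α ∈ A then M.w α else 0) ≤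
      ∑' ζ, if α ∈ A ∧ M.Cross h ζ ∧ α <+: ζ then M.w ζ else 0 := fun α => by
    split_ifs with hα
    · refine (hH hα α List.prefix_rfl).trans (le_of_eq (tsum_congr fun ζ => ?_))
      simp only [Set.indicator_apply, Set.mem_ofPred_eq, hα, true_and]
    · simp
  rw [← ENNReal.tsum_mul_left]
  refine (ENNReal.tsum_le_tsum h1).trans ?_
  rw [ENNReal.tsum_comm]
  refine ENNReal.tsum_le_tsum fun ζ => ?_
  by_cases hζ : M.Cross h ζ ∧ ∃ α ∈ A, α <+: ζ
  · rw [Set.indicator_of_mem (by exact hζ)]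
    obtain ⟨-, α, a1, a2⟩ := hζ
    rw [tsum_eq_single α fun β hβ => if_neg fun hb => hβ ?_]
    · split_ifs
      · exact le_rfl
      · exact zero_le
    · exact (List.prefix_or_prefix_of_prefix hb.2.2 a2).elim (hA _ hb.1 _ a1)
        fun e => (hA _ a1 _ hb.1 e).symm
  · exact le_of_eq_of_le (ENNReal.tsum_eq_zero.2 fun α => if_neg fun hb =>
      hζ ⟨hb.2.1, α, hb.1, hb.2.2⟩) zero_le

end FT1Aux3

open BZ.Mod FT1Aux3

theorem t_ft1 (hV : T_Vis) : T_FT1 := by
  intro M η h t T h0 ht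
  rw [← UW_mul]
  refine le_trans (UW_mono t
    (g := fun γ => 8 * (M.m1 * M.κ⁻¹ ^ 2) * cnt M 0 (T + 4) γ) fun γ hγ _ h2 => ?_) ?_
  · refine le_trans ?_ (sites M hV h0 γ (T + 4) (fun y => {ζ | M.Cross h ζ ∧
      ∃ α ∈ M.FTs (M.HP η h ∩ {α | α.length ≤ T}) (pts M.vec 0 γ) y, α <+: ζ}) ?_)
    · rw [FT, ← ENNReal.tsum_mul_left]
      refine ENNReal.tsum_le_tsum fun y => ?_
      split_ifs with hy
      · simp only [hy, true_and]
        exact first M η h (M.pf_FTs _ _ y) fun α hα => hα.1.1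
      · simp [hy]
    · rintro y hy ζ ⟨c, α, ⟨⟨-, a1⟩, a2, -⟩, a3⟩
      obtain ⟨β, b1, b2, b3⟩ := M.mem_pts.1 a2
      rw [zero_add] at b3
      have e : M.lv β = M.L y + M.lv α := by rw [lv, ← b3, map_add, lv]
      have h3 := abs_lt.1 (show |M.L y| < 4 from hy)
      have h4 := (abs_le.1 (M.abs_lv_le α)).2
      have h5 : (α.length : ℝ) ≤ T := Nat.cast_le.2 a1
      refine ⟨c, β, ⟨b1, b2, hγ.1 β b1, by push_cast; linarith⟩,
        M.mem_pts.2 ⟨α, a3, fun e' => ?_, b3.symm⟩⟩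
      have h6 := c.2.1
      rw [← e'] at h6
      linarith [hγ.2 β b1 b2]
  · rw [UW_mul]
    refine (mul_le_mul_right (visN M hV t 0 (T + 4)) _).trans (le_of_eq ?_)
    push_cast
    ring

theorem t_bas1 (hV : T_Vis) : T_Bas1 := by
  intro M w hw
  refine iSup₂_le fun t ht => ?_
  refine le_trans (UW_mono t
    (g := fun γ => 8 * (M.m1 * M.κ⁻¹ ^ 2) * cnt M 0 ⌈w + 3⌉₊ γ) fun γ hγ _ h2 => ?_) ?_
  · refine sites M hV (h := w + 7) (by linarith) γ _ _ ?_
    rintro y - ζ ⟨c, h3⟩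
    obtain ⟨v, v1, v2⟩ := Finset.not_disjoint_iff.1 h3
    obtain ⟨β, b1, b2, rfl⟩ := M.mem_pts.1 v1
    rw [zero_add] at v2
    exact ⟨c, β, ⟨b1, b2, hγ.1 β b1, by linarith [hγ.2 β b1 b2, Nat.le_ceil (w + 3)]⟩, v2⟩
  · rw [UW_mul]
    refine (mul_le_mul_right (visN M hV t 0 _) _).trans ?_
    have h1 : (8 * ⌈w + 3⌉₊ : ℝ≥0∞) ≤ ENNReal.ofReal (8 * (w + 4)) := by
      rw [ENNReal.ofReal_mul (by norm_num), ENNReal.ofReal_ofNat, ← ENNReal.ofReal_natCast]
      refine mul_le_mul_right (ENNReal.ofReal_le_ofReal ?_) _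
      linarith [Nat.ceil_lt_add_one (show 0 ≤ w + 3 by linarith)]
    refine le_trans (le_of_eq ?_) (mul_le_mul_left h1 _)
    ring

end Pool.Agent.MP_db8016_pr.BZ

end

section

/-! Conditional moments of a weighted number of paths. -/

namespace Pool.Agent.MP_db8016_pr.BZ
open MeasureTheory ProbabilityTheory Filter
open scoped ENNReal Classical

namespace GMAux3

variable {M : Mod}

/-- The low arrows that make the walker follow the path. -/
def Ev (Low : Set M.Pt) (a : M.Fld) (x : M.Pt) (γ : List M.D) : Set M.Fld :=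
  {a' | M.mix Low a' a ∈ M.F x γ}

lemma measurableSet_Ev (Low : Set M.Pt) (a : M.Fld) (x : M.Pt) (γ : List M.D) :
    MeasurableSet (Ev Low a x γ) := M.measurableSet_mixF Low x γ a

lemma P_inter {Low : Set M.Pt} {a : M.Fld} {V : Finset M.Pt} {E : Set M.Fld}
    (hE : MeasurableSet E) (h : DetOn V E) {x : M.Pt} {γ : List M.D}
    (hV : Disjoint V (M.low Low x γ)) :
    M.P (E ∩ Ev Low a x γ) = M.P E * M.Pm Low x γ a :=
  arrows_inter M.ν hV hE (measurableSet_Ev Low a x γ) h (M.detOn_mixF Low x γ a)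

lemma Tch_union (Low : Set M.Pt) (H : Set (List M.D)) (X : Set M.Pt) (V V' : Finset M.Pt)
    (a : M.Fld) : M.Tch Low H X (V ∪ V') a ≤ M.Tch Low H X V a + M.Tch Low H X V' a := by
  unfold Mod.Tch
  rw [← ENNReal.tsum_add]
  refine ENNReal.tsum_le_tsum fun x => ?_
  rw [← ENNReal.tsum_add]
  refine ENNReal.tsum_le_tsum fun α => ?_
  by_cases h : x ∈ X ∧ α ∈ M.FTs H (V ∪ V') x
  · rw [if_pos h]
    obtain ⟨h0, h1, h2, h3⟩ := h
    rw [Finset.disjoint_union_left] at h3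
    rcases Finset.mem_union.1 h2 with h4 | h4
    · rw [if_pos ⟨h0, h1, h4, h3.1⟩]
      exact le_self_add
    · rw [if_pos (show x ∈ X ∧ α ∈ M.FTs H V' x from ⟨h0, h1, h4, h3.2⟩)]
      exact le_add_self
  · rw [if_neg h]
    exact zero_le

lemma Tch_empty (Low : Set M.Pt) (H : Set (List M.D)) (X : Set M.Pt) (a : M.Fld) :
    M.Tch Low H X ∅ a = 0 := by
  unfold Mod.Tch
  refine ENNReal.tsum_eq_zero.2 fun x => ENNReal.tsum_eq_zero.2 fun α => if_neg fun h => ?_
  exact Finset.notMem_empty _ h.2.2.1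

/-- The paths from `x` whose low part meets `V`. -/
def Bx (Low : Set M.Pt) (c : M.Pt → List M.D → ℝ≥0∞) (V : Finset M.Pt) (x : M.Pt) :
    Set (List M.D) := {γ | c x γ ≠ 0 ∧ ¬ Disjoint V (M.low Low x γ)}

section key

variable {Low : Set M.Pt} {a : M.Fld} {c : M.Pt → List M.D → ℝ≥0∞} {H : Set (List M.D)}
  {X : Set M.Pt} {lam b : ℝ≥0∞} {V : Finset M.Pt} {E : Set M.Fld}

lemma touch_le (hpf : ∀ x, PF {γ | c x γ ≠ 0})
    (hc : ∀ x γ, c x γ ≠ 0 → x ∈ X ∧ (∀ α, α <+: γ → α ≠ γ → x + M.ds α ∈ Low → α ∈ H) ∧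
      M.Tch Low H X (M.low Low x γ) a ≤ b) (hL : ∀ z ∈ V, z ∈ Low)
    (hE : MeasurableSet E) (hV : DetOn V E) (x : M.Pt) :
    ∑' γ, (Bx Low c V x).indicator (fun γ => M.P (E ∩ Ev Low a x γ)) γ ≤
      M.P E * ∑' α, if x ∈ X ∧ α ∈ M.FTs H V x then M.Pm Low x α a else 0 := by
  have hp : PF (Bx Low c V x) := (hpf x).mono fun γ h => h.1
  have e0 : (∑' α, if x ∈ X ∧ α ∈ M.FTs H V x then M.Pm Low x α a else 0) =
      ∑' α : {α | x ∈ X ∧ α ∈ M.FTs H V x}, M.Pm Low x α a := by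
    rw [tsum_subtype {α | x ∈ X ∧ α ∈ M.FTs H V x} fun α => M.Pm Low x α a]
    exact tsum_congr fun α => by rw [Set.indicator_apply]; rfl
  rw [← tsum_subtype (Bx Low c V x) fun γ => M.P (E ∩ Ev Low a x γ), e0, ← measure_iUnion,
    ← ENNReal.tsum_mul_left]
  · refine le_trans
      (measure_mono (t := ⋃ α : {α | x ∈ X ∧ α ∈ M.FTs H V x}, E ∩ Ev Low a x α) ?_)
      ((measure_iUnion_le _).trans (le_of_eq (tsum_congr fun α => ?_)))
    · refine Set.iUnion_subset fun γ => ?_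
      obtain ⟨γ, h1, h3⟩ := γ
      obtain ⟨α, a1, a2, a3, a4⟩ := MomAux.first_touch V γ x fun h =>
        h3 (h.mono_right (Finset.filter_subset _ _))
      obtain ⟨c1, c2, -⟩ := hc x γ h1
      have hα : α ∈ {α | x ∈ X ∧ α ∈ M.FTs H V x} := ⟨c1, c2 α a1 a2 (hL _ a3), a3, a4⟩
      refine Set.subset_iUnion_of_subset ⟨α, hα⟩ (Set.inter_subset_inter_right _ ?_)
      obtain ⟨τ, rfl⟩ := a1
      exact fun a' ha' => Fol_append_subset M.vec x α τ ha'
    · exact P_inter hE hV (α.2.2.2.2.mono_right (Finset.filter_subset _ _))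
  · intro γ γ' hne
    refine Set.disjoint_left.2 fun a' ha ha' => hne (Subtype.ext ?_)
    exact Mod.eq_of_mem_F hp γ.2 γ'.2 ha.2 ha'.2
  · exact fun γ => hE.inter (measurableSet_Ev Low a x γ)

lemma key (hl : ∀ x γ, c x γ ≤ lam) (hpf : ∀ x, PF {γ | c x γ ≠ 0})
    (hc : ∀ x γ, c x γ ≠ 0 → x ∈ X ∧ (∀ α, α <+: γ → α ≠ γ → x + M.ds α ∈ Low → α ∈ H) ∧
      M.Tch Low H X (M.low Low x γ) a ≤ b) (hL : ∀ z ∈ V, z ∈ Low)
    (hE : MeasurableSet E) (hV : DetOn V E) :
    ∑' x, ∑' γ, c x γ * M.P (E ∩ Ev Low a x γ) ≤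
      M.P E * (M.cE Low (M.Yc c) a + lam * M.Tch Low H X V a) := by
  have h1 : ∀ x γ, c x γ * M.P (E ∩ Ev Low a x γ) ≤ M.P E * (c x γ * M.Pm Low x γ a) +
      lam * (Bx Low c V x).indicator (fun γ => M.P (E ∩ Ev Low a x γ)) γ := by
    intro x γ
    by_cases hd : Disjoint V (M.low Low x γ)
    · rw [P_inter hE hV hd, mul_left_comm]
      exact le_self_add
    · by_cases h0 : c x γ = 0
      · rw [h0, zero_mul]
        exact zero_le
      · have hB : γ ∈ Bx Low c V x := ⟨h0, hd⟩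
        rw [Set.indicator_of_mem hB]
        exact le_add_left (mul_le_mul' (hl _ _) le_rfl)
  refine (ENNReal.tsum_le_tsum fun x => ENNReal.tsum_le_tsum fun γ => h1 x γ).trans ?_
  simp only [ENNReal.tsum_add, ENNReal.tsum_mul_left]
  rw [← M.cE_Yc, mul_add]
  refine add_le_add le_rfl ?_
  refine (mul_le_mul' le_rfl
    (ENNReal.tsum_le_tsum fun x => touch_le hpf hc hL hE hV x)).trans (le_of_eq ?_)
  rw [ENNReal.tsum_mul_left, mul_left_comm]
  rfl

lemma main (hl : ∀ x γ, c x γ ≤ lam) (hpf : ∀ x, PF {γ | c x γ ≠ 0})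
    (hc : ∀ x γ, c x γ ≠ 0 → x ∈ X ∧ (∀ α, α <+: γ → α ≠ γ → x + M.ds α ∈ Low → α ∈ H) ∧
      M.Tch Low H X (M.low Low x γ) a ≤ b) (k : ℕ) :
    ∀ (V : Finset M.Pt) (E : Set M.Fld), (∀ z ∈ V, z ∈ Low) → MeasurableSet E → DetOn V E →
      ∫⁻ a' in E, M.Yc c (M.mix Low a' a) ^ k ∂M.P ≤ M.P E * ∏ i ∈ Finset.range k,
        (M.cE Low (M.Yc c) a + lam * M.Tch Low H X V a + i * (lam * b)) := by
  induction k with
  | zero => intro V E _ _ _; simp
  | succ k ih =>
    intro V E hL hE hV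
    have hm : Measurable fun a' => M.Yc c (M.mix Low a' a) ^ k :=
      ((M.measurable_Yc c).comp (M.measurable_mix_left Low a)).pow_const k
    have e1 : ∀ a', M.Yc c (M.mix Low a' a) ^ (k + 1) = ∑' x, ∑' γ, c x γ *
        (Ev Low a x γ).indicator (fun a' => M.Yc c (M.mix Low a' a) ^ k) a' := by
      intro a'
      have e : M.Yc c (M.mix Low a' a) =
          ∑' x, ∑' γ, c x γ * (M.F x γ).indicator 1 (M.mix Low a' a) := rfl
      rw [pow_succ']
      nth_rewrite 1 [e]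
      rw [← ENNReal.tsum_mul_right]
      refine tsum_congr fun x => ?_
      rw [← ENNReal.tsum_mul_right]
      refine tsum_congr fun γ => ?_
      rw [mul_assoc]
      by_cases ha : M.mix Low a' a ∈ M.F x γ
      · rw [Set.indicator_of_mem ha, Set.indicator_of_mem (show a' ∈ Ev Low a x γ from ha),
          Pi.one_apply, one_mul]
      · rw [Set.indicator_of_notMem ha,
          Set.indicator_of_notMem (show a' ∉ Ev Low a x γ from ha), zero_mul]
    have hm' : ∀ x γ, Measurable fun a' =>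
        c x γ * (Ev Low a x γ).indicator (fun a' => M.Yc c (M.mix Low a' a) ^ k) a' :=
      fun x γ => (hm.indicator (measurableSet_Ev Low a x γ)).const_mul _
    have e2 : ∫⁻ a' in E, M.Yc c (M.mix Low a' a) ^ (k + 1) ∂M.P = ∑' x, ∑' γ,
        c x γ * ∫⁻ a' in E ∩ Ev Low a x γ, M.Yc c (M.mix Low a' a) ^ k ∂M.P := by
      simp only [e1]
      rw [lintegral_tsum fun x => (Measurable.tsum (hm' x)).aemeasurable]
      refine tsum_congr fun x => ?_
      rw [lintegral_tsum fun γ => (hm' x γ).aemeasurable]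
      refine tsum_congr fun γ => ?_
      rw [lintegral_const_mul _ (hm.indicator (measurableSet_Ev Low a x γ)),
        lintegral_indicator (measurableSet_Ev Low a x γ),
        Measure.restrict_restrict (measurableSet_Ev Low a x γ), Set.inter_comm]
    have e3 : ∀ x γ,
        c x γ * ∫⁻ a' in E ∩ Ev Low a x γ, M.Yc c (M.mix Low a' a) ^ k ∂M.P ≤
        c x γ * M.P (E ∩ Ev Low a x γ) * ∏ i ∈ Finset.range k, (M.cE Low (M.Yc c) a +
          lam * M.Tch Low H X V a + ((i + 1 : ℕ) : ℝ≥0∞) * (lam * b)) := by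
      intro x γ
      by_cases h0 : c x γ = 0
      · rw [h0, zero_mul]
        exact zero_le
      · rw [mul_assoc]
        refine mul_le_mul' le_rfl ((ih (V ∪ M.low Low x γ) _ (fun z hz => ?_)
          (hE.inter (measurableSet_Ev Low a x γ)) (hV.inter (M.detOn_mixF Low x γ a))).trans ?_)
        · rcases Finset.mem_union.1 hz with h | h
          · exact hL z h
          · exact (Finset.mem_filter.1 h).2
        · refine mul_le_mul' le_rfl (Finset.prod_le_prod' fun i _ => ?_)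
          have h1 : M.Tch Low H X (V ∪ M.low Low x γ) a ≤ M.Tch Low H X V a + b :=
            (Tch_union Low H X V _ a).trans (add_le_add le_rfl (hc x γ h0).2.2)
          refine (add_le_add (add_le_add le_rfl (mul_le_mul' le_rfl h1)) le_rfl).trans
            (le_of_eq ?_)
          push_cast
          ring
    rw [e2]
    refine (ENNReal.tsum_le_tsum fun x => ENNReal.tsum_le_tsum fun γ => e3 x γ).trans ?_
    simp only [ENNReal.tsum_mul_right]
    rw [Finset.prod_range_succ']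
    refine (mul_le_mul' (key hl hpf hc hL hE hV) le_rfl).trans (le_of_eq ?_)
    rw [Nat.cast_zero, zero_mul, add_zero]
    ring

end key

end GMAux3

theorem t_gm : T_GM := by
  intro M Low a c H X lam b hl hpf hc k
  have h := GMAux3.main hl hpf hc k ∅ Set.univ (fun z hz => absurd hz (Finset.notMem_empty z))
    MeasurableSet.univ (detOn_univ _)
  rw [Measure.restrict_univ, measure_univ, one_mul, GMAux3.Tch_empty] at h
  simpa only [mul_zero, add_zero] using h

end Pool.Agent.MP_db8016_pr.BZ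

end

section

/-! Minimal pairs whose ends are far from a common site. -/

namespace Pool.Agent.MP_db8016_pr.BZ
open MeasureTheory ProbabilityTheory Filter Topology
open scoped ENNReal Classical

namespace LG2Aux3

lemma cover {ι κ : Type} (f : κ → ℝ≥0∞) (c : ι → ℝ≥0∞) (φ : ι → κ)
    (h : ∀ x, f x ≠ 0 → ∃ i, φ i = x ∧ f x ≤ c i) : ∑' x, f x ≤ ∑' i, c i := by
  calc ∑' x, f x ≤ ∑' x, ∑' i, if x = φ i then c i else 0 := by
        refine ENNReal.tsum_le_tsum fun x => ?_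
        by_cases hx : f x = 0
        · rw [hx]
          exact zero_le
        · obtain ⟨i, e, hi⟩ := h x hx
          refine hi.trans (le_trans (le_of_eq ?_) (ENNReal.le_tsum i))
          rw [if_pos e.symm]
    _ = ∑' i, c i := by
        rw [ENNReal.tsum_comm]
        exact tsum_congr fun i => tsum_ite_eq (φ i) fun _ => c i

lemma tsum_lt (n : ℕ) (x : ℝ≥0∞) : ∑' k : ℕ, (if k < n then x else 0) = x * n := by
  rw [tsum_eq_sum (s := Finset.range n) fun k hk => if_neg (by simpa using hk),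
    Finset.sum_congr rfl fun k hk => if_pos (Finset.mem_range.1 hk)]
  simp [mul_comm]

variable (M : Mod)

/-- A piece with a marked site. -/
noncomputable def pa (p : List M.D × ℕ) : ℝ≥0∞ :=
  if M.Irr p.1 ∧ p.2 < p.1.length then M.w p.1 else 0

/-- A long piece with a marked site. -/
noncomputable def pb (r : ℕ) (p : List M.D × ℕ) : ℝ≥0∞ :=
  if (M.Irr p.1 ∧ r < p.1.length) ∧ p.2 < p.1.length then M.w p.1 else 0

lemma sum_pa : ∑' p, pa M p = M.m1 := by
  rw [ENNReal.tsum_prod', Mod.m1]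
  refine tsum_congr fun π => ?_
  by_cases h : M.Irr π
  · simp only [pa, h, true_and, if_true]
    exact tsum_lt _ _
  · simp [pa, h]

lemma sum_pb (r : ℕ) : ∑' p, pb M r p = M.mt r := by
  rw [ENNReal.tsum_prod', Mod.mt]
  refine tsum_congr fun π => ?_
  by_cases h : M.Irr π ∧ r < π.length
  · simp only [pb, h, and_self, true_and, if_true]
    exact tsum_lt _ _
  · simp [pb, h]

variable {M}

/-- The common site of a minimal pair lies in the two last pieces. -/
lemma split {y : M.Pt} {α α' : List M.D} (h : M.Mn y α α') :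
    ∃ α₀ π π₁ α₀' π' π₁', M.Up α₀ ∧ M.Irr π ∧ π₁ <+: π ∧ π₁ ≠ π ∧ α = α₀ ++ π ∧
      M.Up α₀' ∧ M.Irr π' ∧ π₁' <+: π' ∧ π₁' ≠ π' ∧ α' = α₀' ++ π' ∧
      M.ds α₀ + M.ds π₁ = y + M.ds α₀' + M.ds π₁' := by
  obtain ⟨h1, h2, h3, h4⟩ := h
  obtain ⟨z, z1, z2⟩ := Finset.not_disjoint_iff.1 h3
  obtain ⟨β, b1, b2, b3⟩ := M.mem_pts.1 z1
  obtain ⟨β', c1, c2, c3⟩ := M.mem_pts.1 z2
  obtain ⟨α₀, π, π₁, δ, a1, a2, a3, a4, a5, a6, rfl⟩ := Mod.locate h1 b1 b2
  obtain ⟨α₀', π', π₁', δ', a1', a2', a3', a4', a5', a6', rfl⟩ := Mod.locate h2 c1 c2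
  obtain ⟨e, e'⟩ := h4 (α₀ ++ π) (α₀' ++ π') ⟨δ, a6, a1.append a2.1, a3⟩
    ⟨δ', a6', a1'.append a2'.1, a3'⟩ (Finset.not_disjoint_iff.2 ⟨z,
      M.mem_pts.2 ⟨_, (List.prefix_append_right_inj α₀).2 a4, by simpa using a5, b3⟩,
      M.mem_pts.2 ⟨_, (List.prefix_append_right_inj α₀').2 a4', by simpa using a5', c3⟩⟩)
  refine ⟨α₀, π, π₁, α₀', π', π₁', a1, a2, a4, a5, e.symm, a1', a2', a4', a5', e'.symm, ?_⟩
  rw [b3] at c3
  simpa [add_assoc] using c3

lemma take_of_pf {α : Type} {a b : List α} (h : a <+: b) (hne : a ≠ b) :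
    b.take a.length = a ∧ a.length < b.length :=
  ⟨(List.prefix_iff_eq_take.1 h).symm,
    lt_of_le_of_ne h.length_le fun e => hne (h.eq_of_length e)⟩

end LG2Aux3

open LG2Aux3 in
theorem t_lg2 : T_LG2 := by
  intro M t r ht
  set U : Set (List M.D) := {γ | M.Up γ ∧ M.lv γ < t + 1} with hU
  set V : ℝ → Set (List M.D) := fun s => {δ | M.Rc δ ∧ s ≤ M.lv δ ∧ M.lv δ < s + (8 : ℕ)} with hV
  set lev : List M.D × ℕ → List M.D × ℕ → List M.D → ℝ := fun p p' α₀ =>
    M.lv α₀ + M.lv (p.1.take p.2) - M.lv (p'.1.take p'.2) - 4 with hlev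
  have key : M.MW t (fun y α α' => ¬ M.Sml r y α α') ≤
      ∑' i : (List M.D × ℕ) × (List M.D × ℕ) × List M.D × List M.D,
        (pb M r i.1 * pa M i.2.1 + pa M i.1 * pb M r i.2.1) *
          (U.indicator M.w i.2.2.1 * (V (lev i.1 i.2.1 i.2.2.1)).indicator M.w i.2.2.2) := by
    have e : M.MW t (fun y α α' => ¬ M.Sml r y α α') =
        ∑' x : M.Pt × List M.D × List M.D, if x.1 ∈ M.Near ∧ M.Mn x.1 x.2.1 x.2.2 ∧
          M.lv x.2.1 < t + 1 ∧ ¬ M.Sml r x.1 x.2.1 x.2.2 then M.w x.2.1 * M.w x.2.2 else 0 := by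
      rw [ENNReal.tsum_prod', Mod.MW]
      refine tsum_congr fun y => ?_
      rw [ENNReal.tsum_prod']
      exact tsum_congr fun _ => tsum_congr fun _ => by congr
    rw [e]
    refine cover _ _ (fun i => (M.ds i.2.2.1 + M.ds (i.1.1.take i.1.2) - M.ds i.2.2.2 -
      M.ds (i.2.1.1.take i.2.1.2), i.2.2.1 ++ i.1.1, i.2.2.2 ++ i.2.1.1)) ?_
    rintro ⟨y, α, α'⟩ hx
    have h : y ∈ M.Near ∧ M.Mn y α α' ∧ M.lv α < t + 1 ∧ ¬ M.Sml r y α α' := by
      by_contra h
      exact hx (if_neg h)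
    rw [if_pos h]
    obtain ⟨h1, h2, h3, h4⟩ := h
    obtain ⟨α₀, π, π₁, α₀', π', π₁', a1, a2, a3, a4, rfl, b1, b2, b3, b4, rfl, e⟩ := split h2
    obtain ⟨a5, a6⟩ := take_of_pf a3 a4
    obtain ⟨b5, b6⟩ := take_of_pf b3 b4
    refine ⟨((π, π₁.length), (π', π₁'.length), α₀, α₀'), ?_, ?_⟩
    · simp only [a5, b5, e]
      congr 1
      abel
    · have hL := congrArg M.L e
      simp only [map_add] at hL
      have h5 := abs_lt.1 (show |M.L y| < 4 from h1)
      have hu : α₀ ∈ U := ⟨a1, by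
        rw [Mod.lv_append] at h3
        linarith [a2.1.1 π List.prefix_rfl]⟩
      have hv : α₀' ∈ V (lev (π, π₁.length) (π', π₁'.length) α₀) := by
        refine ⟨b1.2, ?_, ?_⟩
        · simp only [hlev, a5, b5, Mod.lv]
          linarith [h5.2]
        · simp only [hlev, a5, b5, Mod.lv, Nat.cast_ofNat]
          linarith [h5.1]
      have hr : r < π.length ∨ r < π'.length := by
        by_contra hr
        push Not at hr
        obtain ⟨τ, rfl⟩ := a3
        obtain ⟨τ', rfl⟩ := b3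
        simp only [List.length_append] at hr
        refine h4 ⟨τ, τ', by omega, by omega, ?_⟩
        simp only [Mod.ds_append]
        rw [← add_assoc (M.ds α₀), e]
        abel
      have hw : M.w π * M.w π' ≤ pb M r (π, π₁.length) * pa M (π', π₁'.length) +
          pa M (π, π₁.length) * pb M r (π', π₁'.length) := by
        rcases hr with hr | hr
        · refine le_trans (le_of_eq ?_) le_self_add
          rw [pb, pa, if_pos ⟨⟨a2, hr⟩, a6⟩, if_pos ⟨b2, b6⟩]
        · refine le_trans (le_of_eq ?_) le_add_self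
          rw [pb, pa, if_pos ⟨a2, a6⟩, if_pos ⟨⟨b2, hr⟩, b6⟩]
      simp only [Set.indicator_of_mem hu, Set.indicator_of_mem hv]
      rw [Mod.w_append a1.2 a2.1.1, Mod.w_append b1.2 b2.1.1]
      calc M.w α₀ * M.w π * (M.w α₀' * M.w π') = M.w π * M.w π' * (M.w α₀ * M.w α₀') := by ring
        _ ≤ _ := mul_le_mul_left hw _
  refine key.trans ?_
  have inner : ∀ p p' : List M.D × ℕ, ∑' q : List M.D × List M.D,
      U.indicator M.w q.1 * (V (lev p p' q.1)).indicator M.w q.2 ≤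
        ENNReal.ofReal (t + 1 + 1) * M.κ⁻¹ * ((8 : ℕ) * M.κ⁻¹) := by
    intro p p'
    rw [ENNReal.tsum_prod']
    simp only [ENNReal.tsum_mul_left]
    refine le_trans (ENNReal.tsum_le_tsum fun α₀ =>
      mul_le_mul_right (Mod.rec_n (M := M) (lev p p' α₀) 8) _) ?_
    rw [ENNReal.tsum_mul_right]
    exact mul_le_mul_left (Mod.up_lt ht) _
  rw [ENNReal.tsum_prod']
  simp only [ENNReal.tsum_prod' (α := List M.D × ℕ), ENNReal.tsum_mul_left]
  refine le_trans (ENNReal.tsum_le_tsum fun p => ENNReal.tsum_le_tsum fun p' =>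
    mul_le_mul_right (inner p p') _) (le_of_eq ?_)
  simp only [ENNReal.tsum_mul_right, ENNReal.tsum_add, ENNReal.tsum_mul_left, sum_pa, sum_pb]
  rw [ENNReal.ofReal_mul (by norm_num), ENNReal.ofReal_ofNat, show t + 1 + 1 = t + 2 by ring,
    Nat.cast_ofNat]
  ring

end Pool.Agent.MP_db8016_pr.BZ

end

section

/-! The mean length of an irreducible piece is finite in the ballistic case. -/

namespace Pool.Agent.MP_db8016_pr.BZ
open MeasureTheory ProbabilityTheory Filter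
open scoped ENNReal Topology Classical

namespace M1Aux3
open Pool.Agent.MP_db8016_pr.BZ.Mod

lemma le_tsum {α ι : Type} {G : Set α} (F : α → ℝ≥0∞) (f : ι → α)
    (hG : ∀ γ ∈ G, ∃ i, f i = γ) : ∑' γ : G, F γ ≤ ∑' i, F (f i) := by
  choose g hg using hG
  refine le_trans (le_of_eq ?_) (ENNReal.tsum_comp_le_tsum_of_injective
    (f := fun γ : G => g γ γ.2) (fun a b e => Subtype.ext ?_) fun i => F (f i))
  · exact tsum_congr fun γ => by rw [hg]
  · rw [← hg a a.2, ← hg b b.2]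
    exact congrArg f e

variable (M : Mod)

/-- The exponential moment of the length of a piece. -/
noncomputable def ph (q : ℝ≥0∞) : ℝ≥0∞ := ∑' π : {γ | M.Irr γ}, M.w π * q ^ π.1.length

lemma iter {q : ℝ≥0∞} (hq : q ≤ 1) (n : ℕ) : ∀ h : ℝ,
    ∑' γ : {γ | M.Cross h γ ∧ M.Cuts n γ}, M.w γ * q ^ γ.1.length ≤ ph M q ^ n := by
  induction n with
  | zero =>
    intro h
    rw [pow_zero]
    refine le_trans ?_ (sm_le_one (G := {γ | M.Cross h γ ∧ M.Cuts 0 γ})
      ((M.pf_cross h).mono fun _ hρ => hρ.1))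
    rw [sm_eq_tsum]
    exact ENNReal.tsum_le_tsum fun γ => mul_le_of_le_one_right' (pow_le_one' hq _)
  | succ n ih =>
    intro h
    refine (le_tsum (fun γ => M.w γ * q ^ γ.length)
      (ι := Σ π : {γ | M.Irr γ}, {γ | M.Cross (h - M.lv π) γ ∧ M.Cuts n γ})
      (fun i => i.1.1 ++ i.2.1) ?_).trans ?_
    · rintro γ ⟨hc, π, γ', i1, i2, rfl⟩
      refine ⟨⟨⟨π, i1⟩, ⟨γ', ⟨ACAux.cuts_nn M n γ' i2, ?_, fun α a1 a2 => ?_⟩, i2⟩⟩, rfl⟩
      · have := hc.2.1
        rw [M.lv_append] at this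
        linarith
      · have := hc.2.2 (π ++ α) ((List.prefix_append_right_inj π).2 a1) (by simpa using a2)
        rw [M.lv_append] at this
        linarith
    · rw [ENNReal.tsum_sigma', pow_succ', ph, ← ENNReal.tsum_mul_right]
      refine ENNReal.tsum_le_tsum fun π => le_trans (le_of_eq ?_)
        (mul_le_mul_right (ih (h - M.lv π)) _)
      rw [← ENNReal.tsum_mul_left]
      refine tsum_congr fun γ' => ?_
      rw [w_append π.2.1.2 γ'.2.1.1, List.length_append, pow_add]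
      ring

lemma root {a E x : ℝ≥0∞} (ha : a ≠ 0) (h0 : E ≠ 0) (h1 : E ≠ ⊤)
    (h : ∀ n, 1 ≤ n → a * E ^ n ≤ x ^ n) : E ≤ x := by
  by_contra hc
  have h2 : x / E < 1 := (ENNReal.div_lt_iff (Or.inl h0) (Or.inl h1)).2 (by
    rw [one_mul]
    exact not_le.1 hc)
  obtain ⟨n, n1, n2⟩ := (((ENNReal.tendsto_pow_atTop_nhds_zero_of_lt_one h2).eventually
    (gt_mem_nhds (pos_iff_ne_zero.2 ha))).and (eventually_ge_atTop 1)).exists
  rw [div_eq_mul_inv, mul_pow, ← ENNReal.inv_pow, ← div_eq_mul_inv,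
    ENNReal.div_lt_iff (Or.inl (pow_ne_zero _ h0)) (Or.inl (ENNReal.pow_ne_top h1))] at n1
  exact absurd (h n n2) (not_le.2 n1)

lemma exp_le {y : ℝ} (h0 : 0 ≤ y) (h1 : y ≤ 1) : Real.exp (-y) + y / 2 ≤ 1 := by
  have h2 := Real.add_one_le_exp y
  have h3 : Real.exp (-y) * Real.exp y = 1 := by rw [← Real.exp_add, neg_add_cancel, Real.exp_zero]
  have h4 := Real.exp_pos (-y)
  have h5 : Real.exp (-y) * (y + 1) ≤ 1 := by nlinarith
  by_contra h
  nlinarith

lemma fin_le (hs : M.sm {γ | M.Irr γ} ≤ 1) {C : ℝ} (hC : 0 ≤ C)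
    (h : ∀ θ : ℝ, 0 < θ →
      ENNReal.ofReal (Real.exp (-(θ * C))) ≤ ph M (ENNReal.ofReal (Real.exp (-θ))))
    (J : Finset {γ | M.Irr γ}) : ∑ π ∈ J, M.w π * π.1.length ≤ ENNReal.ofReal (2 * C) := by
  obtain ⟨R, hR⟩ : ∃ R : ℕ, R = ∑ π ∈ J, π.1.length + 1 := ⟨_, rfl⟩
  have R0 : (0 : ℝ) < R := by rw [hR]; positivity
  have θ0 : 0 < (R : ℝ)⁻¹ := inv_pos.2 R0
  generalize hθ : (R : ℝ)⁻¹ = θ at θ0
  have h1 : ph M (ENNReal.ofReal (Real.exp (-θ))) +
      ENNReal.ofReal (θ / 2) * ∑ π ∈ J, M.w π * π.1.length ≤ 1 := by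
    refine le_trans ?_ hs
    rw [sm_eq_tsum, ph, Finset.mul_sum, ← Finset.tsum_subtype' J, tsum_subtype (J : Set _)
      fun π : {γ | M.Irr γ} => ENNReal.ofReal (θ / 2) * (M.w π * π.1.length), ← ENNReal.tsum_add]
    refine ENNReal.tsum_le_tsum fun π => ?_
    by_cases hπ : π ∈ (J : Set _)
    · rw [Set.indicator_of_mem hπ, mul_left_comm, ← mul_add]
      refine mul_le_of_le_one_right' ?_
      have h2 : π.1.length ≤ R := hR ▸ (Finset.single_le_sum (f := fun π : {γ | M.Irr γ} =>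
        π.1.length) (fun _ _ => Nat.zero_le _) hπ).trans (Nat.le_succ _)
      have h3 : θ * π.1.length ≤ 1 := by
        rw [← hθ, inv_mul_le_iff₀ R0, mul_one]
        exact_mod_cast h2
      rw [← ENNReal.ofReal_pow (Real.exp_pos _).le, ← ENNReal.ofReal_natCast,
        ← ENNReal.ofReal_mul (by positivity),
        ← ENNReal.ofReal_add (by positivity) (by positivity), ← Real.exp_nat_mul]
      refine ENNReal.ofReal_le_one.2 ?_
      have h4 := exp_le (by positivity) h3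
      rw [show (π.1.length : ℝ) * -θ = -(θ * π.1.length) by ring]
      linarith
    · rw [Set.indicator_of_notMem hπ, add_zero]
      exact mul_le_of_le_one_right' (pow_le_one' (ENNReal.ofReal_le_one.2
        (Real.exp_le_one_iff.2 (by linarith))) _)
  have h2 : 1 ≤ ph M (ENNReal.ofReal (Real.exp (-θ))) +
      ENNReal.ofReal (θ / 2) * ENNReal.ofReal (2 * C) := by
    refine le_trans ?_ (add_le_add_left (h θ θ0) _)
    rw [← ENNReal.ofReal_mul (by positivity), ← ENNReal.ofReal_add (by positivity) (by positivity),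
      ENNReal.one_le_ofReal]
    linarith [Real.add_one_le_exp (-(θ * C))]
  have h3 := (ENNReal.add_le_add_iff_left
    (ne_top_of_le_ne_top ENNReal.one_ne_top (le_self_add.trans h1))).1 (h1.trans h2)
  exact (ENNReal.mul_le_mul_iff_right (ENNReal.ofReal_pos.2 (by positivity)).ne'
    ENNReal.ofReal_ne_top).1 h3

end M1Aux3

open M1Aux3 Pool.Agent.MP_db8016_pr.BZ.Mod in
theorem t_m1 (hG : S_Good) : T_M1 := by
  intro M c N p hc hN hp H hs
  obtain ⟨k, hk⟩ := ENNReal.exists_nat_mul_gt (pow_ne_zero 2 hp) (b := 2) (by simp)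
  have k0 : 0 < k := Nat.pos_of_ne_zero fun e => by simp [e] at hk
  have key := fin_le M hs (C := c * (k + 2 + 2 * N)) (by positivity) fun θ θ0 => by
    refine root (a := p ^ 2 / 2) (ENNReal.div_ne_zero.2 ⟨pow_ne_zero 2 hp, by simp⟩)
      (ENNReal.ofReal_pos.2 (Real.exp_pos _)).ne' ENNReal.ofReal_ne_top fun n hn => ?_
    have h1 := hG M (fun n => n / c) N p (k * n) n (fun a b => by rw [Nat.cast_add, add_div]) hN H
      (Nat.mul_pos k0 hn) (by
        rw [Nat.cast_mul, ← mul_assoc, mul_comm (p ^ 2)]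
        exact mul_le_mul_left hk.le _)
    refine le_trans ?_ (iter M (ENNReal.ofReal_le_one.2
      (Real.exp_le_one_iff.2 (by linarith))) n ((k * n : ℕ) + 1))
    refine (mul_le_mul_left h1 _).trans ?_
    rw [sm_eq_tsum, ← ENNReal.tsum_mul_right]
    refine le_trans (ENNReal.tsum_le_tsum fun γ => mul_le_mul_right ?_ _)
      (le_tsum (fun γ => M.w γ * ENNReal.ofReal (Real.exp (-θ)) ^ γ.length) Subtype.val
        fun γ hγ => ⟨⟨γ, hγ.1, hγ.2.2⟩, rfl⟩)
    rw [← ENNReal.ofReal_pow (Real.exp_pos _).le, ← ENNReal.ofReal_pow (Real.exp_pos _).le,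
      ← Real.exp_nat_mul, ← Real.exp_nat_mul]
    refine ENNReal.ofReal_le_ofReal (Real.exp_le_exp.2 ?_)
    have h2 := γ.2.1.lv_lt (by positivity)
    have h3 := (γ.2.2.1 γ List.prefix_rfl).2
    have h4 : (1 : ℝ) ≤ n := by exact_mod_cast hn
    have h5 : (γ.1.length : ℝ) / c ≤ (k + 2 + 2 * N) * n := by
      push_cast at h2
      nlinarith
    rw [div_le_iff₀ hc] at h5
    nlinarith
  refine ne_top_of_le_ne_top (ENNReal.ofReal_ne_top (r := 2 * (c * (k + 2 + 2 * N)))) ?_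
  have e : M.m1 = ∑' π : {γ | M.Irr γ}, M.w π * π.1.length := by
    rw [tsum_subtype {γ | M.Irr γ} fun π => M.w π * π.length]
    refine tsum_congr fun π => ?_
    by_cases hπ : M.Irr π
    · rw [if_pos hπ, Set.indicator_of_mem (by exact hπ)]
    · rw [if_neg hπ, Set.indicator_of_notMem (by exact hπ)]
  rw [e, ENNReal.tsum_eq_iSup_sum]
  exact iSup_le key

end Pool.Agent.MP_db8016_pr.BZ

end

section

/-! Smoothing: only a grid of observers matters. -/

namespace Pool.Agent.MP_db8016_pr.BZ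
open MeasureTheory ProbabilityTheory Filter Topology
open scoped ENNReal Classical

namespace SmAux3
open Pool.Agent.MP_db8016_pr.BZ.Mod

variable (M : Mod)

/-- The conditional weight of a start. -/
noncomputable def Z (s : M.Pt → ℝ≥0∞) (τ : ℝ) (a : M.Fld) (x : M.Pt) : ℝ≥0∞ :=
  ∑' γ, M.cf s Set.univ x γ * M.Pm (M.Lo τ) x γ a

lemma cf_mem (s : M.Pt → ℝ≥0∞) {T : Set M.Pt} {x : M.Pt} (h : x ∈ T) (γ : List M.D) :
    M.cf s T x γ = M.cf s Set.univ x γ := by
  simp only [cf, h, Set.mem_univ]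

lemma cf_not (s : M.Pt → ℝ≥0∞) {T : Set M.Pt} {x : M.Pt} (h : x ∉ T) (γ : List M.D) :
    M.cf s T x γ = 0 := if_neg fun c => h c.1

lemma cf_le (s : M.Pt → ℝ≥0∞) (T : Set M.Pt) (x : M.Pt) (γ : List M.D) :
    M.cf s T x γ ≤ M.cf s Set.univ x γ := by
  by_cases h : x ∈ T
  · exact (cf_mem M s h γ).le
  · rw [cf_not M s h]
    exact zero_le

lemma cE_eq (s : M.Pt → ℝ≥0∞) (τ : ℝ) (T : Set M.Pt) (a : M.Fld) :
    M.cE (M.Lo τ) (M.Yc (M.cf s T)) a = ∑' x, T.indicator (Z M s τ a) x := by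
  rw [cE_Yc]
  refine tsum_congr fun x => ?_
  by_cases h : x ∈ T
  · rw [Set.indicator_of_mem h]
    simp only [cf_mem M s h, Z]
  · rw [Set.indicator_of_notMem h]
    simp only [cf_not M s h, zero_mul, tsum_zero]

lemma shift {T T' : Set M.Pt} (v : M.Pt) (h : ∀ x ∈ T, x + v ∈ T') (F : M.Pt → ℝ≥0∞) :
    ∑' x, T.indicator (fun x => F (x + v)) x ≤ ∑' x, T'.indicator F x := by
  refine le_trans (ENNReal.tsum_le_tsum fun x => ?_)
    (ENNReal.tsum_comp_le_tsum_of_injective (add_left_injective v) (T'.indicator F))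
  by_cases hx : x ∈ T
  · rw [Set.indicator_of_mem hx, Set.indicator_of_mem (h x hx)]
  · rw [Set.indicator_of_notMem hx]
    exact zero_le

lemma ts_win {S : Finset M.Pt} (hS : M.InU (-1) S) {b : ℝ} {u x : M.Pt} (hu : u ∈ M.Win b 3)
    (hx : x ∈ M.TS S u) : x ∈ M.Win b 4 := by
  have h1 := hS _ hx
  rw [map_sub] at h1
  exact ⟨by linarith [hu.1, h1.2], by linarith [hu.2, h1.1]⟩

lemma mcE (τ : ℝ) (c : M.Pt → List M.D → ℝ≥0∞) : Measurable (M.cE (M.Lo τ) (M.Yc c)) :=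
  M.measurable_cE _ (M.measurable_Yc c)

lemma icE (τ : ℝ) (c : M.Pt → List M.D → ℝ≥0∞) :
    ∫⁻ a, M.cE (M.Lo τ) (M.Yc c) a ∂M.P = M.yc c := by
  rw [M.lintegral_cE _ (M.measurable_Yc c), M.lintegral_Yc]

/-- The pointwise bound. -/
lemma point (hZ : T_Zn) (s : M.Pt → ℝ≥0∞) {S : Finset M.Pt} (hS : M.InU (-1) S) {b h : ℝ}
    (hb : b + h ≤ 0) (n : ℕ) (E : ℝ≥0∞) (D : M.Pt → ℝ≥0∞) (v : M.Pt)
    (hD : ∀ (F : M.Pt → ℝ≥0∞) (x : M.Pt),
      (op M.qq)^[n] F x ≤ E * (op M.qq)^[n] F (x + v) + op D F x)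
    {u : M.Pt} (hu : u ∈ M.Win b 3) (a : M.Fld) :
    M.cE (M.Lo (b + h)) (M.Yc (M.cf s (M.TS S u))) a ≤
      E * M.cE (M.Lo (b + h)) (M.Yc (M.cf s (M.TS S (u + v)))) a +
      (M.cE (M.Lo (b + h)) (M.Yc fun x γ => M.cf s (M.Win b 4) x γ *
        if M.Bad n (h - 4) γ then 1 else 0) a +
      ∑' v, D v * M.cE (M.Lo (b + h)) (M.Yc (M.cf s (M.Win (b + M.L v) 4))) a) := by
  have h1 : ∀ x, (M.TS S u).indicator (Z M s (b + h) a) x ≤
      E * (M.TS S u).indicator (fun x => Z M s (b + h) a (x + v)) x +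
      ((∑' γ, (M.cf s (M.Win b 4) x γ * if M.Bad n (h - 4) γ then 1 else 0) *
        M.Pm (M.Lo (b + h)) x γ a) +
      ∑' v, D v * (M.TS S u).indicator (fun x => Z M s (b + h) a (x + v)) x) := by
    intro x
    by_cases hx : x ∈ M.TS S u
    swap
    · rw [Set.indicator_of_notMem hx]
      exact zero_le
    have hw := ts_win M hS hu hx
    simp only [Set.indicator_of_mem hx, cf_mem M s hw]
    have a1 := (hZ M s (b + h) (h - 4) n a x hb _ rfl).2 (by linarith [hw.2])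
    have a2 := (hZ M s (b + h) (h - 4) n a (x + v) hb _ rfl).1
    refine a1.trans ((add_le_add ((hD _ x).trans (add_le_add (mul_le_mul_right a2 E) ?_))
      (le_of_eq ?_)).trans (le_of_eq ((add_assoc _ _ _).trans (congrArg _ (add_comm _ _)))))
    · exact ENNReal.tsum_le_tsum fun v => mul_le_mul_right
        (ENNReal.tsum_le_tsum fun β => mul_le_mul_left (cf_le M s _ _ _) _) _
    · exact tsum_congr fun γ => by ring
  rw [cE_eq, cE_eq, cE_Yc]
  refine (ENNReal.tsum_le_tsum h1).trans ?_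
  rw [ENNReal.tsum_add, ENNReal.tsum_add, ENNReal.tsum_mul_left, ENNReal.tsum_comm (α := M.Pt)
    (β := M.Pt)]
  refine add_le_add (mul_le_mul_right (shift M v (fun x hx => ?_) _) E)
    (add_le_add le_rfl (ENNReal.tsum_le_tsum fun v => ?_))
  · change u + v - (x + v) ∈ S
    rw [add_sub_add_right_eq_sub]
    exact hx
  · rw [ENNReal.tsum_mul_left, cE_eq]
    refine mul_le_mul_right (shift M v (fun x hx => ?_) _) _
    have hw := ts_win M hS hu hx
    refine ⟨?_, ?_⟩ <;> rw [map_add] <;> linarith [hw.1, hw.2]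

end SmAux3

open SmAux3 Pool.Agent.MP_db8016_pr.BZ.Mod in
theorem t_sm (hL : T_LR3) (hG : T_Grid) (hZ : T_Zn) (hS : T_Slab) (hB : T_Bad) : T_Sm := by
  rintro M ⟨g, hinj, hg, hu, hπ⟩ hs
  have hε₀ : M.κ ^ 4 ≠ 0 := pow_ne_zero _ M.hκ
  have hne : ∀ j, g j ≠ 0 := by
    intro j e
    have : (Pi.single j 1 : Fin 3 → ℤ) = 0 := hinj (by
      simp only [Pi.zero_apply, zero_smul, Finset.sum_const_zero]
      refine Finset.sum_eq_zero fun k _ => ?_
      by_cases c : k = j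
      · rw [c, e, smul_zero]
      · rw [Pi.single_eq_of_ne c, zero_smul])
    simpa using congrFun this j
  obtain ⟨c, hc, H⟩ := hL M.Pt M.qq (M.κ ^ 4) (M.vec M.u) g hε₀ hne (tsum_qq.le.trans hs)
    ((ACAux.w_ge M (π := [M.u]) (by simp)).trans (ACAux.w_le_sm M ⟨ACAux.irr_u M, by simp⟩))
    fun j => by
      obtain ⟨π, p1, p2, p3⟩ := hπ j
      exact (ACAux.w_ge M p3).trans (ACAux.w_le_sm M ⟨p1, p2⟩)
  refine ⟨c, hc, fun s S b h ε m ρ f t t' hC h0 h1 h2 h3 h4 h5 h6 => ?_⟩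
  obtain ⟨ρ, rfl⟩ : ∃ r, ρ = r + 1 := ⟨ρ - 1, by omega⟩
  obtain ⟨D, hD, HD⟩ := H ε m (2 * ρ) h0 h1 (by omega) (by
    push_cast at h3 ⊢
    linarith)
  obtain ⟨U, hU, hf, hcov⟩ := hG M g hinj hg hu b (ρ + 1) f (by omega)
  refine ⟨U, hU, hf, ?_⟩
  set E : ℝ≥0∞ := ENNReal.ofReal (1 + ε) ^ 3 with hE
  have hEt : E ≠ ⊤ := ENNReal.pow_ne_top ENNReal.ofReal_ne_top
  set R : M.Fld → ℝ≥0∞ := fun a => M.cE (M.Lo (b + h)) (M.Yc fun x γ => M.cf s (M.Win b 4) x γ *
      if M.Bad (3 * m) (h - 4) γ then 1 else 0) a +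
    ∑' v, D v * M.cE (M.Lo (b + h)) (M.Yc (M.cf s (M.Win (b + M.L v) 4))) a with hR
  have hm : Measurable R := (mcE M _ _).add (Measurable.tsum fun v => (mcE M _ _).const_mul _)
  have hy : ENNReal.ofReal (h - 4) ≠ 0 := by
    rw [Ne, ENNReal.ofReal_eq_zero, not_le]
    linarith
  have hI : ∫⁻ a, R a ∂M.P ≤ 12 * m * (M.m1 * M.κ⁻¹) / ENNReal.ofReal (h - 4) +
      12 * ENNReal.ofReal ε * M.κ⁻¹ := by
    rw [hR, lintegral_add_left (mcE M _ _), icE,
      lintegral_tsum fun v => ((mcE M _ _).const_mul _).aemeasurable]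
    refine add_le_add ?_ ?_
    · have a1 := hS M s b (fun γ => if M.Bad (3 * m) (h - 4) γ then 1 else 0)
        ((3 * m : ℕ) * (M.m1 * M.κ⁻¹) / ENNReal.ofReal (h - 4)) hC.1 hC.2.1 fun t _ _ => by
          rw [ENNReal.le_div_iff_mul_le (Or.inl hy) (Or.inl ENNReal.ofReal_ne_top), mul_comm]
          exact hB M _ _ t hs (by linarith)
      refine le_trans (le_of_eq (tsum_congr fun x => tsum_congr fun γ => by ring))
        (a1.trans (le_of_eq ?_))
      rw [← mul_div_assoc]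
      congr 1
      push_cast
      ring
    · have a1 : ∀ v, ∫⁻ a, D v * M.cE (M.Lo (b + h)) (M.Yc (M.cf s (M.Win (b + M.L v) 4))) a ∂M.P ≤
          D v * (4 * M.κ⁻¹) := by
        intro v
        rw [lintegral_const_mul _ (mcE M _ _), icE]
        have := hS M s (b + M.L v) (fun _ => 1) M.κ⁻¹ hC.1 hC.2.1 fun t _ _ => UW_one t
        simp only [mul_one] at this
        exact mul_le_mul_right this _
      refine (ENNReal.tsum_le_tsum a1).trans ?_
      rw [ENNReal.tsum_mul_right]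
      exact (mul_le_mul_left hD _).trans (le_of_eq (by ring))
  rw [add_assoc]
  refine le_trans ?_ (add_le_add le_rfl hI)
  unfold Mod.Top
  rw [← lintegral_const_mul' _ _ hEt, ← lintegral_add_right _ hm]
  refine lintegral_mono fun a => ?_
  rw [tsub_le_iff_right]
  refine iSup₂_le fun u hu => ?_
  obtain ⟨k, hk, hk'⟩ := hcov u hu
  have a1 := point M hZ s hC.2.2 h5 (3 * m) E D (∑ j, k j • g j)
    (fun F x => HD F x k fun j => by
      have := hk j
      push_cast at this ⊢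
      linarith) hu a
  have a2 : M.cE (M.Lo (b + h)) (M.Yc (M.cf s (M.TS S (u + ∑ j, k j • g j)))) a ≤
      (⨆ u ∈ U, M.cE (M.Lo (b + h)) (M.Yc (M.cf s (M.TS S u))) a) - t' + t' :=
    (le_iSup₂ (f := fun u (_ : u ∈ U) => M.cE (M.Lo (b + h)) (M.Yc (M.cf s (M.TS S u))) a)
      _ hk').trans le_tsub_add
  refine a1.trans ((add_le_add (mul_le_mul_right a2 E) le_rfl).trans ?_)
  rw [mul_add, add_right_comm]
  exact add_le_add le_rfl h6

end Pool.Agent.MP_db8016_pr.BZ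

end

section

/-! The last stage of the chain. -/

namespace Pool.Agent.MP_db8016_pr.BZ
open MeasureTheory ProbabilityTheory Filter Topology
open scoped ENNReal Classical

namespace TopSAux3

lemma le_div {c d : ℝ} {x : ℝ≥0∞} (hc : 0 < c) (h : ENNReal.ofReal c * x ≤ ENNReal.ofReal d) :
    x ≤ ENNReal.ofReal (d / c) := by
  rw [ENNReal.ofReal_div_of_pos hc, ENNReal.le_div_iff_mul_le (.inl (by simpa using hc))
    (.inl ENNReal.ofReal_ne_top), mul_comm]
  exact h

lemma pow_ge {ε : ℝ} {j : ℕ} (h0 : 0 < ε) (h : 1 ≤ 7 * (j * ε ^ 3)) :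
    1 ≤ 7 ^ 7 * ε ^ 14 * (1 + ε) ^ (j * 7) := by
  have h1 : j * ε ≤ (1 + ε) ^ j := by linarith [one_add_mul_le_pow (a := ε) (by linarith) j]
  calc (1 : ℝ) ≤ (7 * (j * ε ^ 3)) ^ 7 := one_le_pow₀ h
    _ = 7 ^ 7 * ε ^ 14 * (j * ε) ^ 7 := by ring
    _ ≤ _ := by
      rw [pow_mul]
      gcongr

end TopSAux3

open TopSAux3 in
theorem t_topS (hR : T_Red) (hC : T_StageC) (hS : T_Slab) (hT : T_Tr) (hH : T_HP) (hF : T_FT2)
    (hE : T_End) : T_TopS := by
  intro M p h3 hB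
  obtain ⟨C, hC0, hR⟩ := hR M h3 hB.2.2.1 hB.2.2.2
  obtain ⟨K, hK0, hK⟩ : ∃ K : ℝ, 0 ≤ K ∧ (M.κ * p)⁻¹ = ENNReal.ofReal K :=
    ⟨_, ENNReal.toReal_nonneg,
      (ENNReal.ofReal_toReal (ENNReal.inv_ne_top.2 (mul_ne_zero M.hκ hB.1))).symm⟩
  refine ⟨2 * (4 * K + 4 + 7 ^ 7 * C) + C, by positivity, ?_⟩
  intro s S w lam A ε h t y hx hs hl hA hA1 he he4 h1 hw hlh hTh hy ht
  have he' : ENNReal.ofReal ε ≠ 0 := by simpa using he
  have e1 : 1 + ENNReal.ofReal ε = ENNReal.ofReal (1 + ε) := by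
    rw [ENNReal.ofReal_add zero_le_one he.le, ENNReal.ofReal_one]
  obtain ⟨U, hU, hN, hT1⟩ := hR s S (-w - 2) h ε t
    (ENNReal.ofReal (1 + ε) * (y + ENNReal.ofReal (2 * ε ^ 2))) hx he (by linarith) (by linarith)
    (by linarith) (by rwa [← mul_assoc, ← pow_succ])
  have hP : PC (M.HP (ENNReal.ofReal ε) (w + 7)) := fun γ c β d α k => c α (k.trans d)
  have e3 : 0 < ε ^ 3 := by positivity
  have e4 : ε ^ 3 ≤ 1 / 64 := (pow_le_pow_left₀ he.le he4 3).trans (by norm_num)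
  obtain ⟨j, hj1, hj2⟩ : ∃ j : ℕ, 1 ≤ 7 * (j * ε ^ 3) ∧ 7 * (j * ε ^ 3) ≤ 2 := by
    refine ⟨⌈1 / (7 * ε ^ 3)⌉₊, ?_, ?_⟩
    · have := (div_le_iff₀ (by positivity)).1 (Nat.le_ceil (1 / (7 * ε ^ 3)))
      linarith
    · have := mul_le_mul_of_nonneg_right
        (Nat.ceil_lt_add_one (a := 1 / (7 * ε ^ 3)) (by positivity)).le
        (by positivity : 0 ≤ 7 * ε ^ 3)
      rw [add_mul, one_div_mul_cancel (by positivity)] at this
      linarith
  have hb : 0 < ε ^ 5 / lam := by positivity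
  have hT2 := hC M s S (-w - 2) (-w - 2 + h) 1 (M.HP (ENNReal.ofReal ε) (w + 7)) U
    (ENNReal.ofReal lam) (4 * ENNReal.ofReal (ε * K))
    (4 * (ENNReal.ofReal ε * ENNReal.ofReal (ε ^ 5 / lam)))
    (ENNReal.ofReal (ε ^ 5 / lam)) (ENNReal.ofReal ε)
    (ENNReal.ofReal (1 + ε) * (y + ENNReal.ofReal (2 * ε ^ 2))) y (j * 7) (by linarith) hU hx.2.2
    hs (by simpa using hl) ENNReal.ofReal_ne_top hP ?_ ?_ (by simpa using hb)
    ENNReal.ofReal_ne_top ENNReal.ofReal_ne_top ?_ ?_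
  · have z : M.Top s S 1 U y = 0 := by
      refine (lintegral_congr fun a => tsub_eq_zero_of_le (iSup₂_le fun u hu => ?_)).trans
        lintegral_zero
      rw [(hE M s S _ u a hx.2.2 (hU hu)).2.1]
      exact hy u (hU hu)
    have q : ((1 + ENNReal.ofReal ε) ^ (j * 7))⁻¹ *
        ∑' u, U.indicator (fun u => M.yc (M.cf s (M.TS S u))) u ≤
        ENNReal.ofReal (7 ^ 7 * C * A * ε) := by
      rw [e1, ← ENNReal.ofReal_pow (by positivity), ← ENNReal.ofReal_inv_of_pos (by positivity)]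
      refine (mul_le_mul_right hN _).trans ?_
      rw [← ENNReal.ofReal_mul (by positivity), max_eq_left h1]
      refine ENNReal.ofReal_le_ofReal ?_
      rw [inv_mul_le_iff₀ (by positivity), div_le_iff₀ (by positivity)]
      refine le_of_mul_le_mul_left ?_ hl
      calc lam * (C * S.card) = C * (lam * S.card) * 1 := by ring
        _ ≤ C * A * (7 ^ 7 * ε ^ 14 * (1 + ε) ^ (j * 7)) := by
          gcongr
          exact pow_ge he hj1
        _ = (1 + ε) ^ (j * 7) * (7 ^ 7 * C * A * ε) * (ε ^ 5 * (lam * h)) := by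
          rw [hlh]
          ring
        _ = _ := by ring
    rw [z, mul_zero, add_zero, ← mul_assoc, ENNReal.mul_div_cancel_right (by simpa using hb)
      ENNReal.ofReal_ne_top] at hT2
    refine hT1.trans ((add_le_add_left (mul_le_mul_right
      (hT2.trans (add_le_add_right q _)) _) _).trans ?_)
    have e5 : (1 + ε) ^ 3 ≤ 2 :=
      (pow_le_pow_left₀ (by linarith) (by linarith : 1 + ε ≤ 5 / 4) 3).trans (by norm_num)
    rw [← ENNReal.ofReal_ofNat 4, ← ENNReal.ofReal_mul (by positivity),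
      ← ENNReal.ofReal_mul (by positivity), ← ENNReal.ofReal_add (by positivity) (by positivity),
      ← ENNReal.ofReal_add (by positivity) (by positivity), ← ENNReal.ofReal_pow (by positivity),
      ← ENNReal.ofReal_mul (by positivity), ← ENNReal.ofReal_add (by positivity) (by positivity)]
    refine ENNReal.ofReal_le_ofReal ?_
    have e6 : ε ≤ ε * A := le_mul_of_one_le_right he.le hA1
    calc _ ≤ 2 * (4 * (ε * A * K) + 4 * (ε * A) + 7 ^ 7 * C * A * ε) + C * (ε * A) := by gcongr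
      _ = _ := by ring
  · refine le_trans (ENNReal.tsum_le_tsum fun x => ENNReal.tsum_le_tsum fun γ =>
      mul_le_mul_right (mul_le_mul_right ?_ _) _) (hS M s (-w - 2)
        (fun γ => if γ ∈ M.HP (ENNReal.ofReal ε) (w + 7) then 0 else 1) _ hx.1 hx.2.1
        fun t _ c => ?_)
    · split_ifs with c d
      · obtain ⟨α, c1, -, -, c2⟩ := c
        exact absurd (hP γ d α c1) c2
      all_goals simp
    · rw [ENNReal.ofReal_mul he.le, ← hK, ← div_eq_mul_inv, ENNReal.le_div_iff_mul_le (.inr he')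
        (.inr ENNReal.ofReal_ne_top), mul_comm]
      exact hH M p _ t _ hB.2.1 (by linarith)
  · refine le_trans (ENNReal.tsum_le_tsum fun x => ENNReal.tsum_le_tsum fun γ => ?_)
      (hS M s (-w - 2) (fun γ => M.FT (M.HP (ENNReal.ofReal ε) (w + 7)) M.Near (pts M.vec 0 γ)) _
        hx.1 hx.2.1 fun t _ c => ?_)
    · unfold Mod.cf
      split_ifs with c
      · refine mul_le_mul_right (mul_le_mul_right (hT M _ _ x γ fun x' d => abs_lt.2 ?_) _) _
        constructor <;> linarith [c.1.1, c.1.2, d.1, d.2]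
      · simp
    · rw [← ENNReal.ofReal_mul he.le, show ε * (ε ^ 5 / lam) = ε ^ 7 / (lam * ε) by field_simp]
      refine le_div (by positivity) (le_trans ?_ hTh)
      rw [ENNReal.ofReal_mul hl.le, mul_assoc, ← Mod.UW_mul]
      exact mul_le_mul_right ((Mod.UW_mono t fun γ c1 _ c2 => hF M _ _ γ c1 (by linarith)).trans
        (le_iSup₂_of_le (f := fun (t : ℝ) (_ : t ≤ w + 2) => M.UW t (M.Bas (w + 7))) t
          (by linarith) le_rfl)) _
  · rcases j with _ | j
    · norm_num at hj1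
    · omega
  · rw [e1, ← ENNReal.ofReal_mul hl.le, ← ENNReal.ofReal_natCast,
      ← ENNReal.ofReal_mul (by positivity)]
    refine mul_le_mul_right (add_le_add_right (ENNReal.ofReal_le_ofReal ?_) _) _
    calc _ = 7 * (j * ε ^ 3) * ε ^ 2 := by
          push_cast
          field_simp
      _ ≤ _ := by gcongr

end Pool.Agent.MP_db8016_pr.BZ

end
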