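import Pool.Agent.Mg.Fdb8016p.Ged04e7
import Pool.Agent.Mg.Fdb8016p.G2a09e5
import Pool.Agent.Mg.Fdb8016p.Gb00190
import Pool.Agent.Mg.Fdb8016p.G6075f8
import Pool.Agent.Mg.Fdb8016p.Gd35c6e
import Pool.Agent.Mg.Fdb8016p.Gf12052
import Pool.Agent.Mg.Fdb8016p.Ga21f0b
import Pool.Agent.Mg.Fdb8016p.G03a3d1
import Pool.Agent.Mg.Fdb8016p.G4304b5
import Pool.Agent.Mg.Fdb8016p.G285e3b

section

/-! Composition of two windows. -/

namespace Pool.Agent.MP_db8016_pr.BZ
open MeasureTheory ProbabilityTheory Filter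
open scoped ENNReal

namespace CompAux
open _root_.Pool.Agent.MP_db8016_pr.BZ.Mod
variable {M : Mod}

lemma dn_append {γ' γ δ δ' : List M.D} {z : M.Pt} (h1 : 0 ≤ M.lv γ') (h2 : 0 ≤ M.lv γ)
    (h3 : M.Dn (M.ds γ + z) δ (M.lv γ))
    (h4 : M.Dn (M.ds γ' + (M.ds γ + z + M.ds δ)) δ' (M.lv γ')) :
    M.Dn (M.ds (γ' ++ γ) + z) (δ ++ δ') (M.lv (γ' ++ γ)) := by
  refine ⟨fun α hα hne => ?_, ?_⟩
  · rcases pf_append_cases hα with ⟨a1, a2⟩ | ⟨β, a1, rfl⟩
    · have h5 := h3.1 α a1 a2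
      simp only [ds_append, lv_append, map_add] at h5 ⊢
      unfold lv at *
      constructor <;> linarith [h5.1, h5.2]
    · have h5 := h4.1 β a1 fun e => hne (by rw [e])
      simp only [ds_append, lv_append, map_add] at h5 ⊢
      unfold lv at *
      constructor <;> linarith [h5.1, h5.2]
  · have h5 := h4.2
    simp only [ds_append, map_add] at h5 ⊢
    linarith

lemma prob_mul {γ' γ δ δ' : List M.D} {z : M.Pt} (h1 : M.Up γ') (h2 : M.Up γ)
    (h3 : M.Dn (M.ds γ + z) δ (M.lv γ))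
    (h4 : M.Dn (M.ds γ' + (M.ds γ + z + M.ds δ)) δ' (M.lv γ')) :
    M.P (M.F 0 γ ∩ M.F (M.ds γ + z) δ) *
      M.P (M.F 0 γ' ∩ M.F (M.ds γ' + (M.ds γ + z + M.ds δ)) δ') =
    M.P (M.F 0 (γ' ++ γ) ∩ M.F (M.ds (γ' ++ γ) + z) (δ ++ δ')) := by
  have l1 : ∀ u ∈ pts M.vec 0 γ', M.L u < M.lv γ' := by
    intro u hu
    obtain ⟨α, a1, a2, rfl⟩ := M.mem_pts.1 hu
    rw [zero_add]
    exact h1.2 α a1 a2
  have l2 : ∀ u ∈ pts M.vec (M.ds γ' + (M.ds γ + z + M.ds δ)) δ', M.L u < M.lv γ' := by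
    intro u hu
    obtain ⟨α, a1, a2, rfl⟩ := M.mem_pts.1 hu
    exact (h4.1 α a1 a2).2
  have u1 : ∀ u ∈ pts M.vec (0 + M.ds γ') γ, M.lv γ' ≤ M.L u := by
    intro u hu
    obtain ⟨α, a1, -, rfl⟩ := M.mem_pts.1 hu
    have h5 := h2.1 α a1
    simp only [map_add, zero_add]
    unfold lv at *
    linarith
  have u2 : ∀ u ∈ pts M.vec (M.ds γ + z + M.ds γ') δ, M.lv γ' ≤ M.L u := by
    intro u hu
    obtain ⟨α, a1, a2, rfl⟩ := M.mem_pts.1 hu
    have h5 := (h3.1 α a1 a2).1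
    simp only [map_add] at h5 ⊢
    unfold lv at *
    linarith
  have e1 : M.ds (γ' ++ γ) + z = M.ds γ + z + M.ds γ' := by rw [ds_append]; abel
  have e2 : M.ds γ + z + M.ds γ' + disp M.vec δ = M.ds γ' + (M.ds γ + z + M.ds δ) := by
    unfold ds; abel
  have f1 : M.F 0 (γ' ++ γ) = M.F 0 γ' ∩ M.F (0 + M.ds γ') γ :=
    Fol_append_of_disjoint _ (disjoint_pts h1.2 h2.1 0)
  have f2 : M.F (M.ds γ + z + M.ds γ') (δ ++ δ') =
      M.F (M.ds γ + z + M.ds γ') δ ∩ M.F (M.ds γ' + (M.ds γ + z + M.ds δ)) δ' := by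
    unfold F
    rw [Fol_append_of_disjoint, e2]
    rw [e2]
    exact Finset.disjoint_left.2 fun u a b => absurd (l2 u b) (not_lt.2 (u2 u a))
  have f3 : M.P (M.F (0 + M.ds γ') γ ∩ M.F (M.ds γ + z + M.ds γ') δ) =
      M.P (M.F 0 γ ∩ M.F (M.ds γ + z) δ) := arrows_shift _ _ _ _ _ _ _
  have f4 : M.P ((M.F (0 + M.ds γ') γ ∩ M.F (M.ds γ + z + M.ds γ') δ) ∩
      (M.F 0 γ' ∩ M.F (M.ds γ' + (M.ds γ + z + M.ds δ)) δ')) =
      M.P (M.F (0 + M.ds γ') γ ∩ M.F (M.ds γ + z + M.ds γ') δ) *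
      M.P (M.F 0 γ' ∩ M.F (M.ds γ' + (M.ds γ + z + M.ds δ)) δ') := by
    refine arrows_inter M.ν ?_ ((M.measurableSet_F _ _).inter (M.measurableSet_F _ _))
      ((M.measurableSet_F _ _).inter (M.measurableSet_F _ _))
      ((detOn_Fol _ _ _).inter (detOn_Fol _ _ _)) ((detOn_Fol _ _ _).inter (detOn_Fol _ _ _))
    refine Finset.disjoint_left.2 fun u a b => ?_
    have h5 : M.lv γ' ≤ M.L u := (Finset.mem_union.1 a).elim (u1 u) (u2 u)
    have h6 : M.L u < M.lv γ' := (Finset.mem_union.1 b).elim (l1 u) (l2 u)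
    exact absurd h6 (not_lt.2 h5)
  rw [e1, f1, f2, ← f3, ← f4]
  congr 1
  ext a
  simp only [Set.mem_inter_iff]
  tauto

/-- Admissible tuples. -/
def Adm (M : Mod) (A G : Set (List M.D)) (z : M.Pt)
    (t : (List M.D × List M.D) × (List M.D × List M.D)) : Prop :=
  (t.1.1 ∈ G ∧ M.Dn (M.ds t.1.1 + z) t.1.2 (M.lv t.1.1)) ∧
    t.2.1 ∈ A ∧ M.Dn (M.ds t.2.1 + (M.ds t.1.1 + z + M.ds t.1.2)) t.2.2 (M.lv t.2.1)

lemma inj {A G : Set (List M.D)} {z : M.Pt} (hA : PF A) :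
    Function.Injective fun t : {t // Adm M A G z t} =>
      (t.1.2.1 ++ t.1.1.1, t.1.1.2 ++ t.1.2.2) := by
  rintro ⟨⟨⟨γ, δ⟩, γ', δ'⟩, ha⟩ ⟨⟨⟨η, ε⟩, η', ε'⟩, hb⟩ h
  have a2 : M.Dn (M.ds γ + z) δ (M.lv γ) := ha.1.2
  have a3 : γ' ∈ A := ha.2.1
  have b2 : M.Dn (M.ds η + z) ε (M.lv η) := hb.1.2
  have b3 : η' ∈ A := hb.2.1
  have h1 : γ' ++ γ = η' ++ η := congrArg Prod.fst h
  have h2 : δ ++ δ' = ε ++ ε' := congrArg Prod.snd h
  have e1 : γ' = η' := by
    rcases List.prefix_or_prefix_of_prefix (List.prefix_append γ' γ)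
      (h1 ▸ List.prefix_append η' η) with e | e
    · exact hA _ a3 _ b3 e
    · exact (hA _ b3 _ a3 e).symm
  subst e1
  have e2 : γ = η := List.append_cancel_left h1
  subst e2
  have e3 : δ = ε := by
    rcases List.prefix_or_prefix_of_prefix (List.prefix_append δ δ')
      (h2 ▸ List.prefix_append ε ε') with e | e
    · exact pf_dn M _ _ ⟨_, a2⟩ _ ⟨_, b2⟩ e
    · exact (pf_dn M _ _ ⟨_, b2⟩ _ ⟨_, a2⟩ e).symm
  subst e3
  have e4 : δ' = ε' := List.append_cancel_left h2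
  subst e4
  rfl

end CompAux

open CompAux in
theorem s_comp : S_Comp := by
  classical
  intro M A G z hA hA' hG
  set R : List M.D × List M.D → ℝ≥0∞ := fun p =>
    if p.1 ∈ M.Cat A G ∧ M.Dn (M.ds p.1 + z) p.2 (M.lv p.1) then
      M.P (M.F 0 p.1 ∩ M.F (M.ds p.1 + z) p.2) else 0 with hR
  have e1 : M.Tot (M.Cat A G) z = ∑' p, R p := by
    rw [ENNReal.tsum_prod']
    unfold Mod.Tot
    congr!
  have e2 : ∑' z', M.Qk G z z' * M.Tot A z' = ∑' γ, ∑' δ,
      (if γ ∈ G ∧ M.Dn (M.ds γ + z) δ (M.lv γ) then M.P (M.F 0 γ ∩ M.F (M.ds γ + z) δ) else 0) *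
        M.Tot A (M.ds γ + z + M.ds δ) := by
    unfold Mod.Qk
    simp only [← ENNReal.tsum_mul_right]
    rw [ENNReal.tsum_comm]
    refine tsum_congr fun γ => ?_
    rw [ENNReal.tsum_comm]
    refine tsum_congr fun δ => ?_
    rw [tsum_eq_single (M.ds γ + z + M.ds δ)]
    · simp
    · intro z' hz'
      simp [hz'.symm]
  have e3 : ∑' z', M.Qk G z z' * M.Tot A z' =
      ∑' t : (List M.D × List M.D) × (List M.D × List M.D),
        {t | Adm M A G z t}.indicator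
          (fun t => R (t.2.1 ++ t.1.1, t.1.2 ++ t.2.2)) t := by
    rw [e2, ENNReal.tsum_prod', ENNReal.tsum_prod']
    refine tsum_congr fun γ => tsum_congr fun δ => ?_
    rw [ENNReal.tsum_prod']
    unfold Mod.Tot
    simp only [← ENNReal.tsum_mul_left]
    refine tsum_congr fun γ' => tsum_congr fun δ' => ?_
    by_cases h : Adm M A G z ((γ, δ), γ', δ')
    · rw [Set.indicator_of_mem (by exact h)]
      obtain ⟨⟨a1, a2⟩, a3, a4⟩ := h
      simp only at a1 a2 a3 a4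
      have h5 := dn_append ((hA' _ a3).1 _ List.prefix_rfl) ((hG _ a1).1 _ List.prefix_rfl) a2 a4
      have h6 : γ' ++ γ ∈ M.Cat A G := ⟨γ', a3, γ, a1, rfl⟩
      rw [if_pos ⟨a1, a2⟩, if_pos ⟨a3, a4⟩, hR]
      simp only
      rw [if_pos ⟨h6, h5⟩]
      exact prob_mul (hA' _ a3) (hG _ a1) a2 a4
    · rw [Set.indicator_of_notMem (by exact h)]
      unfold Adm at h
      simp only at h
      rcases not_and_or.1 h with h | h
      · rw [if_neg h, zero_mul]
      · rw [if_neg h, mul_zero]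
  rw [e1, e3, ← tsum_subtype]
  exact ENNReal.tsum_comp_le_tsum_of_injective (inj hA) R

end Pool.Agent.MP_db8016_pr.BZ

end

section

/-! The walker from the origin makes a turn. -/

namespace Pool.Agent.MP_db8016_pr.BZ
open MeasureTheory ProbabilityTheory Filter
open scoped ENNReal

namespace FinAux
open BZ.Mod

variable {M : Mod}

lemma lev_up {γ : List M.D} (h : M.Up γ) {u : M.Pt} (hu : u ∈ pts M.vec 0 γ) :
    0 ≤ M.L u ∧ M.L u < M.lv γ := by
  obtain ⟨α, h1, h2, rfl⟩ := M.mem_pts.1 hu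
  rw [zero_add]
  exact ⟨h.1 α h1, h.2 α h1 h2⟩

lemma lev_dn {y : M.Pt} {δ : List M.D} {h : ℝ} (hδ : M.Dn y δ h) {u : M.Pt}
    (hu : u ∈ pts M.vec y δ) : 0 ≤ M.L u ∧ M.L u < h := by
  obtain ⟨α, h1, h2, rfl⟩ := M.mem_pts.1 hu
  exact hδ.1 α h1 h2

lemma lev_lam {γ lam : List M.D} (hl : ∀ α, α <+: lam → α ≠ lam → 0 ≤ M.lv α) {u : M.Pt}
    (hu : u ∈ pts M.vec (M.ds γ) lam) : M.lv γ ≤ M.L u := by
  obtain ⟨α, h1, h2, rfl⟩ := M.mem_pts.1 hu
  have := hl α h1 h2
  rw [map_add]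
  unfold lv at this ⊢
  linarith

lemma prob_ge {γ δ lam : List M.D} {y : M.Pt} (hγ : M.Up γ) (hδ : M.Dn y δ (M.lv γ))
    (hl : ∀ α, α <+: lam → α ≠ lam → 0 ≤ M.lv α) :
    M.κ ^ lam.length * M.P (M.F 0 γ ∩ M.F y δ) ≤
      M.P ((M.F 0 γ ∩ M.F y δ) ∩ M.F (M.ds γ) lam) := by
  have hd : Disjoint (pts M.vec 0 γ ∪ pts M.vec y δ) (pts M.vec (M.ds γ) lam) := by
    refine Finset.disjoint_left.2 fun u h1 h2 => ?_
    have h3 := lev_lam hl h2
    rcases Finset.mem_union.1 h1 with h4 | h4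
    · exact absurd (lev_up hγ h4).2 (not_lt.2 h3)
    · exact absurd (lev_dn hδ h4).2 (not_lt.2 h3)
  have h1 : M.P ((M.F 0 γ ∩ M.F y δ) ∩ M.F (M.ds γ) lam) = M.P (M.F 0 γ ∩ M.F y δ) * M.w lam :=
    arrows_inter_Fol M.vec M.ν ((M.measurableSet_F 0 γ).inter (M.measurableSet_F y δ))
      ((detOn_Fol M.vec 0 γ).inter (detOn_Fol M.vec y δ)) hd
  have h2 := M.w_append_ge [] lam
  rw [M.w_nil, mul_one, List.nil_append] at h2
  rw [h1, mul_comm]
  exact mul_le_mul' le_rfl h2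

lemma mem_turn (hA : S_Ab) {γ δ lam : List M.D} {k k' : ℝ} (hγ : M.Up γ) (hk : k ≤ M.lv γ)
    (hk' : M.lv γ < k') (hδ : M.Dn (M.ds γ + M.ds lam) δ (M.lv γ))
    (hl : ∀ α, α <+: lam → α ≠ lam → 0 ≤ M.lv α) {a : M.Pt → ℕ → M.D} (h1 : a ∈ M.F 0 γ)
    (h2 : a ∈ M.F (M.ds γ + M.ds lam) δ) (h3 : a ∈ M.F (M.ds γ) lam) :
    a ∈ M.Turn k (k' + lam.length) := by
  have h0 : 0 ≤ M.lv γ := hγ.1 γ List.prefix_rfl
  have hn : (0 : ℝ) ≤ lam.length := Nat.cast_nonneg _
  obtain ⟨δ', e1, e2, e3⟩ := hA M a 0 (M.ds γ + M.ds lam) γ δ h1 h2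
    (fun h => by
      have := (lev_dn hδ h).2
      rw [zero_add] at this
      exact lt_irrefl _ this)
    (fun h => absurd (lev_up hγ h).1 (not_le.2 hδ.2))
    (fun h => by
      have := hδ.2
      rw [← h, zero_add] at this
      exact absurd h0 (not_le.2 this))
  have hlv : ∀ β, M.lv (γ ++ lam ++ β) = M.L (M.ds γ + M.ds lam + M.ds β) := fun β => by
    unfold lv
    rw [M.ds_append, M.ds_append]
  have hend : M.lv (γ ++ lam ++ δ') < 0 := by
    rw [hlv, e1]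
    exact hδ.2
  have hmid : ∀ β, β <+: δ' → β ≠ δ' →
      0 ≤ M.lv (γ ++ lam ++ β) ∧ M.lv (γ ++ lam ++ β) < M.lv γ := fun β b1 b2 => by
    rw [hlv]
    exact lev_dn hδ (e2 (M.mem_pts.2 ⟨β, b1, b2, rfl⟩))
  refine ⟨γ ++ lam ++ δ', fun z => ?_, fun α a1 a2 => ?_, hend,
    ⟨γ, (List.prefix_append γ lam).trans (List.prefix_append _ _), hk⟩, fun α a1 => ?_⟩
  · rw [exits_append, exits_append, disp_append, zero_add, zero_add]
    by_cases hz : z ∈ pts M.vec (M.ds γ) lam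
    · have b1 := lev_lam hl hz
      have b2 : exits M.vec 0 γ z = [] :=
        (exits_eq_nil_iff M.vec).2 fun h => absurd (lev_up hγ h).2 (not_lt.2 b1)
      have b3 : exits M.vec (disp M.vec γ + disp M.vec lam) δ' z = [] :=
        (exits_eq_nil_iff M.vec).2 fun h => absurd (lev_dn hδ (e2 h)).2 (not_lt.2 b1)
      rw [b2, b3, List.nil_append, List.append_nil]
      exact h3 z
    · have b2 : exits M.vec (disp M.vec γ) lam z = [] := (exits_eq_nil_iff M.vec).2 hz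
      rw [b2, List.append_nil]
      exact e3 z
  · rcases pf_append_cases a1 with ⟨b1, b2⟩ | ⟨β, b1, rfl⟩
    · rcases pf_append_cases b1 with ⟨c1, -⟩ | ⟨β, c1, rfl⟩
      · exact hγ.1 α c1
      · rw [M.lv_append]
        exact add_nonneg h0 (hl β c1 fun e => b2 (by rw [e]))
    · exact (hmid β b1 fun e => a2 (by rw [e])).1
  · rcases pf_append_cases a1 with ⟨b1, -⟩ | ⟨β, b1, rfl⟩
    · rcases pf_append_cases b1 with ⟨c1, c2⟩ | ⟨β, c1, rfl⟩
      · linarith [hγ.2 α c1 c2]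
      · have c2 : (β.length : ℝ) ≤ lam.length := Nat.cast_le.2 c1.length_le
        rw [M.lv_append]
        linarith [(abs_le.1 (M.abs_lv_le β)).2]
    · by_cases e : β = δ'
      · rw [e]
        linarith
      · linarith [(hmid β b1 e).2]

end FinAux

open BZ.Mod FinAux Classical in
theorem s_fin (hA : S_Ab) : S_Fin := by
  intro M A k k' lam hP hG _ hl
  let C : List M.D × List M.D → Prop := fun p =>
    p.1 ∈ A ∧ M.Dn (M.ds p.1 + M.ds lam) p.2 (M.lv p.1)
  let E : List M.D × List M.D → Set (M.Pt → ℕ → M.D) := fun p =>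
    if C p then (M.F 0 p.1 ∩ M.F (M.ds p.1 + M.ds lam) p.2) ∩ M.F (M.ds p.1) lam else ∅
  have hE : ∀ p a, a ∈ E p → C p ∧ a ∈ M.F 0 p.1 ∧ a ∈ M.F (M.ds p.1 + M.ds lam) p.2 ∧
      a ∈ M.F (M.ds p.1) lam := by
    intro p a ha
    by_cases hc : C p
    · simp only [E, if_pos hc] at ha
      exact ⟨hc, ha.1.1, ha.1.2, ha.2⟩
    · simp only [E, if_neg hc] at ha
      exact absurd ha (Set.notMem_empty a)
  have hm : ∀ p, MeasurableSet (E p) := by
    intro p
    by_cases hc : C p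
    · simp only [E, if_pos hc]
      exact ((M.measurableSet_F _ _).inter (M.measurableSet_F _ _)).inter (M.measurableSet_F _ _)
    · simp only [E, if_neg hc]
      exact MeasurableSet.empty
  have hd : Pairwise (Function.onFun Disjoint E) := by
    rintro ⟨γ, δ⟩ ⟨γ', δ'⟩ hne
    refine Set.disjoint_left.2 fun a h1 h2 => hne ?_
    obtain ⟨c1, a1, a2, -⟩ := hE _ a h1
    obtain ⟨c2, b1, b2, -⟩ := hE _ a h2
    have e : γ = γ' := eq_of_mem_F hP c1.1 c2.1 a1 b1
    subst e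
    have e' : δ = δ' := eq_of_mem_F (pf_dn M (M.ds γ + M.ds lam)) ⟨_, c1.2⟩ ⟨_, c2.2⟩ a2 b2
    rw [e']
  have hs : (⋃ p, E p) ⊆ M.Turn k (k' + lam.length) := by
    refine Set.iUnion_subset fun p a ha => ?_
    obtain ⟨c1, a1, a2, a3⟩ := hE p a ha
    obtain ⟨g1, g2, g3⟩ := hG _ c1.1
    exact mem_turn hA g1 g2 g3 c1.2 hl a1 a2 a3
  refine le_trans ?_ (measure_mono hs)
  rw [measure_iUnion hd hm, ENNReal.tsum_prod', Tot, ← ENNReal.tsum_mul_left]
  refine ENNReal.tsum_le_tsum fun γ => ?_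
  rw [← ENNReal.tsum_mul_left]
  refine ENNReal.tsum_le_tsum fun δ => ?_
  by_cases hc : C (γ, δ)
  · simp only [E, if_pos hc]
    rw [if_pos hc]
    exact prob_ge (hG _ hc.1).1 hc.2 hl
  · rw [if_neg hc, mul_zero]
    exact zero_le

end Pool.Agent.MP_db8016_pr.BZ

end

section

/-! From the cookie environment to the model. -/

namespace Pool.Agent.MP_db8016_pr.BZ
open MeasureTheory ProbabilityTheory Filter Topology
open scoped ENNReal

theorem core_all (hW : S_W) (hAC : S_AC) (hWL : S_WL) (hI : S_Init) (hC : S_Core) (hF : S_Fast)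
    (hB : S_Back) (M : Mod) (d : ℕ) (hd : 4 ≤ d) (hP : M.Pcs d) (S : Measure (ℕ → M.D))
    [IsProbabilityMeasure S] (hS : ∀ γ, S (cyl γ) = M.w γ) (a c : ℝ) (hc : 0 < c)
    (ha : 4 / ((d : ℝ) + 1) < a) (ha1 : a ≤ 1)
    (h : S {e | ∀ᶠ n : ℕ in atTop, (n : ℝ) ^ a / c ≤ M.lv (pre e n)} ≠ 0) :
    S {e | Tendsto (fun n => M.lv (pre e n)) atTop atTop} = 1 := by
  by_contra hne
  have hd' : (4 : ℝ) ≤ d := by exact_mod_cast hd
  have ha0 : 0 < a := lt_trans (by positivity) ha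
  have hφ : ∀ m n : ℕ, ((m + n : ℕ) : ℝ) ^ a / c ≤ (m : ℝ) ^ a / c + (n : ℝ) ^ a / c := by
    intro m n
    rw [← add_div, Nat.cast_add]
    exact div_le_div_of_nonneg_right
      (Real.rpow_add_le_add_rpow (Nat.cast_nonneg m) (Nat.cast_nonneg n) ha0.le ha1) hc.le
  have hT : Tendsto (fun n : ℕ => (n : ℝ) ^ a / c) atTop atTop :=
    ((tendsto_rpow_atTop ha0).comp tendsto_natCast_atTop_atTop).atTop_div_const hc
  obtain ⟨N, p, hN, hp0, hp⟩ := hF M S _ hS hφ hT h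
  obtain ⟨β, hβ0, hβ⟩ := hB M S hS
    (fun h0 => h (measure_mono_null (fun e he => tendsto_atTop_mono' atTop he hT) h0)) hne
  refine hC M (hWL M d _ N a⁻¹ p β hφ hN ((one_le_inv₀ ha0).2 ha1) ?_ (fun N' => ?_) hp0 hp hβ0 hβ
    (hAC M d hP (hW M p hp0 fun h => (hp h).trans (Mod.sm_mono fun _ h => h.1))))
    (hI M d (by omega) hP)
  · rw [div_lt_iff₀ (by positivity)] at ha
    have h1 : a⁻¹ * a = 1 := inv_mul_cancel₀ ha0.ne'
    have h2 : 0 < a⁻¹ := inv_pos.2 ha0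
    nlinarith
  · refine ⟨(c * (3 + |N'|)) ^ a⁻¹, fun w hw n hn => ?_⟩
    have hw' : (1 : ℝ) ≤ w := by exact_mod_cast hw
    rw [← Real.mul_rpow (by positivity) (by positivity),
      Real.le_rpow_inv_iff_of_pos (Nat.cast_nonneg n) (by positivity) ha0]
    have h1 : (n : ℝ) ^ a / c ≤ (3 + |N'|) * w := by
      nlinarith [le_abs_self N', abs_nonneg N']
    rw [div_le_iff₀ hc] at h1
    linarith

theorem main_all (hW : S_W) (hAC : S_AC) (hWL : S_WL) (hI : S_Init) (hC : S_Core) (hF : S_Fast)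
    (hB : S_Back) (hNu : S_Nu) (hL : S_Law) (hPc : S_Pcs) (d : ℕ) (hd : 4 ≤ d)
    (μ : Measure ((Fin d → ℤ) → Fin d × Bool → ℕ → ℝ)) [IsProbabilityMeasure μ]
    (hind : iIndepFun (fun (z : Fin d → ℤ) (ω : (Fin d → ℤ) → Fin d × Bool → ℕ → ℝ) => ω z) μ)
    (hid : ∀ z : Fin d → ℤ,
      IdentDistrib (fun ω : (Fin d → ℤ) → Fin d × Bool → ℕ → ℝ => ω z) (fun ω => ω 0) μ μ)
    (hsum : ∀ᵐ ω ∂μ, ∀ z i, ∑ e, ω z e i = 1)
    (κ : ℝ) (hκ : 0 < κ) (hell : ∀ᵐ ω ∂μ, ∀ z e i, κ ≤ ω z e i)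
    (P₀ : Measure (ℕ → Fin d → ℤ)) [IsProbabilityMeasure P₀]
    (hP₀ : ∀ (e : ℕ → Fin d × Bool) (n : ℕ), P₀ {X | ∀ i ≤ n, X i = HD.pos e i} =
      ∫⁻ ω, ENNReal.ofReal (∏ i ∈ Finset.range n, ω (HD.pos e i) (e i) (HD.visits e i)) ∂μ)
    (l : Fin d → ℝ) (hl : l ≠ 0) (a : ℝ) (ha : 4 / ((d : ℝ) + 1) < a)
    (hfast : P₀ {X | ∀ᶠ n : ℕ in atTop, (n : ℝ) ^ a ≤ ∑ j, (X n j : ℝ) * l j} ≠ 0) :
    P₀ {X | Tendsto (fun n => ∑ j, (X n j : ℝ) * l j) atTop atTop} = 1 := by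
  obtain ⟨ν, hν, uel, hwt⟩ := hNu d μ (by omega) hind hid hsum κ hκ hell
  obtain ⟨S, hS1, hS, hA⟩ := hL d ν P₀ (by omega) fun e n => by rw [hP₀, hwt]
  obtain ⟨c, L, hL1, u, hu, v, hv, hc, hz, hP⟩ :=
    hPc d ν _ (ENNReal.ofReal_pos.2 hκ).ne' uel l hl
  have hm : ∀ n, Measurable fun X : ℕ → Fin d → ℤ => ∑ j, (X n j : ℝ) * l j := fun n =>
    (Measurable.of_discrete (f := fun z : Fin d → ℤ => ∑ j, (z j : ℝ) * l j)).comp
      (measurable_pi_apply n)
  have hd' : (4 : ℝ) ≤ d := by exact_mod_cast hd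
  rw [hA _ (measurableSet_tendsto atTop hm)]
  rw [hA _ (by
    simp only [eventually_atTop]
    exact measurableSet_setOfPred.2 (Measurable.exists fun N => Measurable.forall fun n =>
      measurable_const.imp (measurableSet_setOfPred.1
        (measurableSet_le measurable_const (hm n)))))] at hfast
  have key := core_all hW hAC hWL hI hC hF hB _ d hd hP S hS (min a 1) c hc
    (lt_min ha (by rw [div_lt_one (by positivity)]; linarith)) (min_le_right _ _)
    (fun h0 => hfast (measure_mono_null (fun e he => ?_) h0))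
  · rw [← key]
    congr 1
    ext e
    simp only [Set.mem_ofPred_eq, hz]
    exact tendsto_const_mul_atTop_of_pos hc
  · simp only [Set.mem_ofPred_eq, hz] at he ⊢
    filter_upwards [he, eventually_ge_atTop 1] with n h1 h2
    rw [div_le_iff₀' hc]
    exact (Real.rpow_le_rpow_of_exponent_le (by exact_mod_cast h2) (min_le_left _ _)).trans h1

end Pool.Agent.MP_db8016_pr.BZ

end

section

/-! Thin slabs of levels carry little weight. -/

namespace Pool.Agent.MP_db8016_pr.BZ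
open MeasureTheory ProbabilityTheory Filter
open scoped ENNReal

namespace ThinAux

lemma sm_len (M : Mod) (cap : ℕ) : M.sm {ζ | ζ.length ≤ cap} ≤ cap + 1 := by
  have h1 : ∀ n : ℕ, M.sm {ζ | ζ.length = n} ≤ 1 := fun n =>
    Mod.sm_le_one fun γ hγ γ' hγ' h => h.eq_of_length (hγ.trans hγ'.symm)
  calc M.sm {ζ | ζ.length ≤ cap} ≤ ∑ n ∈ Finset.range (cap + 1), M.sm {ζ | ζ.length = n} := by
        unfold Mod.sm
        rw [← Summable.tsum_finsetSum fun _ _ => ENNReal.summable]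
        refine ENNReal.tsum_le_tsum fun ζ => ?_
        by_cases h : ζ.length ≤ cap
        · rw [Set.indicator_of_mem (show ζ ∈ {ζ : List M.D | ζ.length ≤ cap} from h)]
          refine le_trans (le_of_eq ?_) (Finset.single_le_sum
            (f := fun n => ({ζ : List M.D | ζ.length = n}).indicator M.w ζ) (fun _ _ => zero_le)
            (Finset.mem_range.2 (Nat.lt_succ_of_le h)))
          exact (Set.indicator_of_mem (show ζ ∈ {ζ' : List M.D | ζ'.length = ζ.length} from rfl)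
            _).symm
        · rw [Set.indicator_of_notMem (show ζ ∉ {ζ : List M.D | ζ.length ≤ cap} from h)]
          exact zero_le
    _ ≤ ∑ _n ∈ Finset.range (cap + 1), (1 : ℝ≥0∞) := Finset.sum_le_sum fun n _ => h1 n
    _ = cap + 1 := by simp

lemma sm_mul (M : Mod) {h : ℝ} {A B Z : Set (List M.D)} (hA : ∀ γ ∈ A, M.Cross h γ)
    (hB : ∀ γ ∈ B, M.NN γ) (hZ : ∀ γ ∈ A, ∀ δ ∈ B, γ ++ δ ∈ Z) : M.sm A * M.sm B ≤ M.sm Z := by
  have hinj : Function.Injective fun a : A × B => (a.1 : List M.D) ++ (a.2 : List M.D) := by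
    rintro ⟨a, b⟩ ⟨a', b'⟩ e
    have e' : (a : List M.D) ++ (b : List M.D) = (a' : List M.D) ++ (b' : List M.D) := e
    have h1 : (a : List M.D) = a' := by
      rcases List.append_eq_append_iff.1 e' with ⟨c, h1, -⟩ | ⟨c, h1, -⟩
      · exact M.pf_cross h _ (hA _ a.2) _ (hA _ a'.2) ⟨c, h1.symm⟩
      · exact (M.pf_cross h _ (hA _ a'.2) _ (hA _ a.2) ⟨c, h1.symm⟩).symm
    rw [h1] at e'
    exact Prod.ext (Subtype.ext h1) (Subtype.ext (List.append_cancel_left e'))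
  refine le_trans (le_of_eq ?_) (Mod.tsum_le_sm _ hinj fun a => hZ _ a.1.2 _ a.2.2)
  rw [Mod.sm_eq_tsum, Mod.sm_eq_tsum, ENNReal.tsum_prod', ← ENNReal.tsum_mul_right]
  refine tsum_congr fun a => ?_
  rw [← ENNReal.tsum_mul_left]
  exact tsum_congr fun b => (Mod.w_append (hA _ a.2).up.2 (hB _ b.2)).symm

open Classical in
lemma card_three (w : ℕ) (t x : ℝ) :
    ((Finset.range w).filter fun y : ℕ => y + t ≤ x ∧ x < y + t + 3).card ≤ 3 := by
  have h : (Finset.Icc (⌊x - t⌋ - 2) ⌊x - t⌋).card = 3 := by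
    rw [Int.card_Icc]
    omega
  rw [← h]
  refine Finset.card_le_card_of_injOn (fun y : ℕ => (y : ℤ)) (fun y hy => ?_)
    fun a _ b _ e => Nat.cast_injective e
  obtain ⟨-, h1, h2⟩ := Finset.mem_filter.1 (Finset.mem_coe.1 hy)
  have a1 : (y : ℤ) ≤ ⌊x - t⌋ := Int.le_floor.2 (by push_cast; linarith)
  have a2 : ⌊x - t⌋ < (y : ℤ) + 3 := Int.floor_lt.2 (by push_cast; linarith)
  have a3 : ⌊x - t⌋ - 2 ≤ (y : ℤ) := by omega
  exact Finset.mem_coe.2 (Finset.mem_Icc.2 ⟨a3, a1⟩)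

lemma sum_sm (M : Mod) (w cap : ℕ) (t : ℝ) :
    ∑ y ∈ Finset.range w, M.sm {ζ | ζ.length ≤ cap ∧ y + t ≤ M.lv ζ ∧ M.lv ζ < y + t + 3} ≤
      3 * M.sm {ζ | ζ.length ≤ cap} := by
  classical
  unfold Mod.sm
  rw [← Summable.tsum_finsetSum fun _ _ => ENNReal.summable, ← ENNReal.tsum_mul_left]
  refine ENNReal.tsum_le_tsum fun ζ => ?_
  by_cases h : ζ.length ≤ cap
  · rw [Set.indicator_of_mem (show ζ ∈ {ζ : List M.D | ζ.length ≤ cap} from h)]
    simp only [Set.indicator_apply, Set.mem_ofPred_eq, h, true_and]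
    rw [← Finset.sum_filter, Finset.sum_const, nsmul_eq_mul]
    gcongr
    exact_mod_cast card_three w t (M.lv ζ)
  · simp [h]

end ThinAux

open ThinAux in
theorem s_thin : S_Thin := by
  intro M φ N N' p w cap hφ hN' hp hcap t
  refine le_trans ?_ ((sum_sm M w cap t).trans (mul_le_mul_right (sm_len M cap) 3))
  rw [mul_assoc, ← nsmul_eq_mul]
  refine le_trans (le_of_eq (by rw [Finset.card_range]))
    (Finset.card_nsmul_le_sum (Finset.range w) _ _ fun y hy => ?_)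
  refine (mul_le_mul_left (hp y) _).trans (sm_mul M (h := y) (fun γ hγ => hγ.1)
    (fun γ hγ => hγ.1.nn) fun γ hγ δ hδ => ?_)
  obtain ⟨h1, h2⟩ := hγ
  obtain ⟨h3, h4, h5, h6⟩ := hδ
  have a1 := h1.2.1
  have a2 := h1.lv_lt (Nat.cast_nonneg y)
  have a3 := (Mod.HH.append hφ hN' h2 h3 _ List.prefix_rfl).2
  have a4 : (y : ℝ) + 1 ≤ w := by exact_mod_cast Finset.mem_range.1 hy
  rw [Mod.lv_append] at a3
  refine ⟨hcap _ (by linarith), ?_, ?_⟩ <;> rw [Mod.lv_append] <;> linarith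

end Pool.Agent.MP_db8016_pr.BZ

end

section

/-! Trimming of weights, row sums of the kernel and the turning events. -/

namespace Pool.Agent.MP_db8016_pr.BZ
open MeasureTheory ProbabilityTheory Filter
open scoped ENNReal

namespace TrimAux

open Classical in
lemma row_one (M : Mod) (A : Set (M.Pt → ℕ → M.D)) (hA : MeasurableSet A) (y : M.Pt) (h : ℝ) :
    ∑' δ, (if M.Dn y δ h then M.P (A ∩ M.F y δ) else 0) ≤ M.P A := by
  have e : ∀ δ, (if M.Dn y δ h then M.P (A ∩ M.F y δ) else 0) =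
      M.P (if M.Dn y δ h then A ∩ M.F y δ else ∅) := fun δ => by
    split_ifs <;> simp
  simp only [e]
  rw [← measure_iUnion]
  · refine measure_mono (Set.iUnion_subset fun δ => ?_)
    split_ifs
    · exact Set.inter_subset_left
    · exact Set.empty_subset _
  · intro δ δ' hne
    refine Set.disjoint_left.2 fun a h1 h2 => hne ?_
    simp only at h1 h2
    split_ifs at h1 h2 with c1 c2
    · exact Mod.eq_of_mem_F (M.pf_dn y) ⟨h, c1⟩ ⟨h, c2⟩ h1.2 h2.2
    all_goals first | exact absurd h2 (Set.notMem_empty a) | exact absurd h1 (Set.notMem_empty a)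
  · intro δ
    split_ifs
    · exact hA.inter (M.measurableSet_F y δ)
    · exact MeasurableSet.empty

lemma dn_ge {M : Mod} {y : M.Pt} {δ : List M.D} {h : ℝ} (hy : 0 ≤ M.L y) (hd : M.Dn y δ h) :
    -1 ≤ M.L (y + M.ds δ) := by
  induction δ using List.reverseRecOn with
  | nil => simp; linarith
  | append_singleton δ d _ =>
    have h1 := (hd.1 δ (List.prefix_append _ _) (by simp)).1
    have h2 := (abs_le.1 (M.hL d)).1
    simp only [Mod.ds_append, Mod.ds_cons, Mod.ds_nil, map_add, add_zero] at h1 ⊢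
    linarith

end TrimAux

open TrimAux

theorem s_trim : S_Trim := by
  classical
  intro Pt s m c N hN h1 h2 h3
  have hN0 : (N : ℝ≥0∞) ≠ 0 := by exact_mod_cast (by omega : N ≠ 0)
  have k : ∀ T : Finset Pt, (T : Set Pt) ⊆ {z | (N : ℝ≥0∞)⁻¹ < s z} → T.card ≤ N := by
    intro T hT
    have a1 : T.card • (N : ℝ≥0∞)⁻¹ ≤ 1 :=
      (Finset.card_nsmul_le_sum T s _ fun z hz => (hT hz).le).trans
        ((ENNReal.sum_le_tsum T).trans h1)
    rw [nsmul_eq_mul, ← div_eq_mul_inv, ENNReal.div_le_iff hN0 (ENNReal.natCast_ne_top N),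
      one_mul] at a1
    exact_mod_cast a1
  have fin : {z | (N : ℝ≥0∞)⁻¹ < s z}.Finite := by
    by_contra h
    obtain ⟨T, t1, t2⟩ := Set.Infinite.exists_subset_card_eq h (N + 1)
    have := k T t1
    omega
  refine ⟨fun z => if z ∈ fin.toFinset then 0 else s z, fun z => ?_, ?_, fun z => ?_⟩
  · simp only
    split_ifs <;> simp
  · have hm : m ≠ ⊤ := ne_top_of_le_ne_top ENNReal.one_ne_top (le_add_self.trans (h2.trans h1))
    refine ENNReal.le_of_add_le_add_right hm (h2.trans ?_)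
    have e : ∑' z, s z = ∑' z, (if z ∈ fin.toFinset then 0 else s z) +
        ∑' z, (if z ∈ fin.toFinset then s z else 0) := by
      rw [← ENNReal.tsum_add]
      exact tsum_congr fun z => by split_ifs <;> simp
    rw [e, tsum_eq_sum (s := fin.toFinset) fun z hz => if_neg hz,
      Finset.sum_congr rfl fun z hz => if_pos hz]
    exact add_le_add le_rfl (h3 _ (k _ (by simp)))
  · simp only
    split_ifs with h
    · simp
    · simpa using h

theorem s_row : S_Row := by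
  classical
  intro M G w hw hG
  refine ⟨fun z => ?_, fun z z' hz h => ?_⟩
  · refine le_trans ?_ (Mod.sm_le_one ((M.pf_cross w).mono hG))
    unfold Mod.Qk Mod.sm
    rw [ENNReal.tsum_comm]
    refine ENNReal.tsum_le_tsum fun γ => ?_
    by_cases hγ : γ ∈ G
    · rw [Set.indicator_of_mem hγ, ← M.P_F 0, ENNReal.tsum_comm]
      refine le_trans (ENNReal.tsum_le_tsum fun δ => ?_)
        (row_one M _ (M.measurableSet_F 0 γ) (M.ds γ + z) (M.lv γ))
      rw [tsum_eq_single (M.ds γ + z + M.ds δ) fun z' hz' => if_neg fun h => hz' h.2.2.symm]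
      simp [hγ]
    · simp [hγ]
  · unfold Mod.Qk at h
    rw [Ne, ENNReal.tsum_eq_zero, not_forall] at h
    obtain ⟨γ, h⟩ := h
    rw [ENNReal.tsum_eq_zero, not_forall] at h
    obtain ⟨δ, h⟩ := h
    obtain ⟨h1, h2, rfl⟩ : γ ∈ G ∧ M.Dn (M.ds γ + z) δ (M.lv γ) ∧ M.ds γ + z + M.ds δ = z' := by
      by_contra h'
      exact h (if_neg h')
    refine ⟨dn_ge ?_ h2, h2.2⟩
    have := (hG γ h1).2.1
    unfold Mod.lv at this
    rw [map_add]
    linarith

theorem s_turn : S_Turn := by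
  intro M
  refine ⟨fun k k' => ?_, fun k₁ k₂ k₃ k₄ h => Set.disjoint_left.2 ?_⟩
  · have e : M.Turn k k' = ⋃ Γ, ⋃ _ : (∀ α, α <+: Γ → α ≠ Γ → 0 ≤ M.lv α) ∧ M.lv Γ < 0 ∧
        (∃ α, α <+: Γ ∧ k ≤ M.lv α) ∧ ∀ α, α <+: Γ → M.lv α < k', M.F 0 Γ := by
      ext a
      simp only [Mod.Turn, Set.mem_setOf_eq, Set.mem_iUnion, exists_prop]
      exact exists_congr fun Γ => and_comm
    rw [e]
    exact MeasurableSet.iUnion fun Γ => MeasurableSet.iUnion fun _ => M.measurableSet_F 0 Γ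
  · rintro a ⟨Γ, a1, a2, a3, -, a5⟩ ⟨Γ', b1, b2, b3, ⟨α, b4, b5⟩, -⟩
    have hp : PF {Γ | (∀ α, α <+: Γ → α ≠ Γ → 0 ≤ M.lv α) ∧ M.lv Γ < 0} := by
      intro γ h1 γ' h2 h3
      by_contra e
      exact absurd (h2.1 γ h3 e) (not_le.2 h1.2)
    have e := Mod.eq_of_mem_F hp ⟨a2, a3⟩ ⟨b2, b3⟩ a1 b1
    subst e
    linarith [a5 α b4]

end Pool.Agent.MP_db8016_pr.BZ

end

section

/-! All the pieces together. -/

namespace Pool.Agent.MP_db8016_pr.BZ
open MeasureTheory ProbabilityTheory Filter Topology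
open scoped ENNReal

theorem fast_thm (d : ℕ) (hd : 4 ≤ d)
    (μ : Measure ((Fin d → ℤ) → Fin d × Bool → ℕ → ℝ)) [IsProbabilityMeasure μ]
    (hind : iIndepFun (fun (z : Fin d → ℤ) (ω : (Fin d → ℤ) → Fin d × Bool → ℕ → ℝ) => ω z) μ)
    (hid : ∀ z : Fin d → ℤ,
      IdentDistrib (fun ω : (Fin d → ℤ) → Fin d × Bool → ℕ → ℝ => ω z) (fun ω => ω 0) μ μ)
    (hsum : ∀ᵐ ω ∂μ, ∀ z i, ∑ e, ω z e i = 1)
    (κ : ℝ) (hκ : 0 < κ) (hell : ∀ᵐ ω ∂μ, ∀ z e i, κ ≤ ω z e i)
    (P₀ : Measure (ℕ → Fin d → ℤ)) [IsProbabilityMeasure P₀]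
    (hP₀ : ∀ (e : ℕ → Fin d × Bool) (n : ℕ), P₀ {X | ∀ i ≤ n, X i = HD.pos e i} =
      ∫⁻ ω, ENNReal.ofReal (∏ i ∈ Finset.range n, ω (HD.pos e i) (e i) (HD.visits e i)) ∂μ)
    (l : Fin d → ℝ) (hl : l ≠ 0) (a : ℝ) (ha : 4 / ((d : ℝ) + 1) < a)
    (hfast : P₀ {X | ∀ᶠ n : ℕ in atTop, (n : ℝ) ^ a ≤ ∑ j, (X n j : ℝ) * l j} ≠ 0) :
    P₀ {X | Tendsto (fun n => ∑ j, (X n j : ℝ) * l j) atTop atTop} = 1 :=
  main_all s_w (s_ac (s_rw s_blk) s_rec)
    (s_wl s_thin s_good s_mom s_mass s_row (s_set s_rec) s_trim) s_init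
    (s_core s_comp (s_fin s_ab) s_turn) s_fast s_back s_nu s_law s_pcs
    d hd μ hind hid hsum κ hκ hell P₀ hP₀ l hl a ha hfast

end Pool.Agent.MP_db8016_pr.BZ

end

section

/-! The mean of the conditional weight of the first visits. -/

namespace Pool.Agent.MP_db8016_pr.BZ
open MeasureTheory ProbabilityTheory Filter Topology
open scoped ENNReal Classical

namespace BMAux3

variable {M : Mod}

/-- First visits to a smaller set are dominated by first visits to a larger set. -/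
lemma touch_le {Low : Set M.Pt} {H : Set (List M.D)} {V V' : Finset M.Pt} (hV : V' ⊆ V)
    (hH : PC H) (x : M.Pt) (a : M.Fld) :
    ∑' α, (M.FTs H V' x).indicator (fun α => M.Pm Low x α a) α ≤
      ∑' α, (M.FTs H V x).indicator (fun α => M.Pm Low x α a) α := by
  rw [← tsum_subtype (M.FTs H V' x) fun α => M.Pm Low x α a,
    ← tsum_subtype (M.FTs H V x) fun α => M.Pm Low x α a]
  unfold Mod.Pm
  rw [← measure_iUnion, ← measure_iUnion]
  · refine measure_mono (Set.iUnion_subset fun γ => ?_)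
    obtain ⟨γ, h1, h2, h3⟩ := γ
    by_cases hd : Disjoint V (pts M.vec x γ)
    · exact Set.subset_iUnion_of_subset ⟨γ, h1, hV h2, hd⟩ subset_rfl
    · obtain ⟨α, a1, -, a3, a4⟩ := MomAux.first_touch V γ x hd
      refine Set.subset_iUnion_of_subset ⟨α, hH γ h1 α a1, a3, a4⟩ fun a' ha' => ?_
      obtain ⟨τ, rfl⟩ := a1
      exact Fol_append_subset _ _ _ _ ha'
  · intro γ γ' hne
    refine Set.disjoint_left.2 fun a' ha ha' => hne (Subtype.ext ?_)
    exact Mod.eq_of_mem_F (M.pf_FTs H V x) γ.2 γ'.2 ha ha'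
  · exact fun γ => M.measurableSet_mixF Low x γ a
  · intro γ γ' hne
    refine Set.disjoint_left.2 fun a' ha ha' => hne (Subtype.ext ?_)
    exact Mod.eq_of_mem_F (M.pf_FTs H V' x) γ.2 γ'.2 ha ha'
  · exact fun γ => M.measurableSet_mixF Low x γ a

/-- Independence of two paths on disjoint sets of sites. -/
lemma indep (Low : Set M.Pt) {x y : M.Pt} {γ α : List M.D}
    (hd : Disjoint (pts M.vec x γ) (pts M.vec y α)) :
    ∫⁻ a in M.F x γ, M.Pm Low y α a ∂M.P = M.w γ * M.w α := by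
  have hm : Measurable ((M.F y α).indicator (1 : M.Fld → ℝ≥0∞)) :=
    measurable_one.indicator (M.measurableSet_F y α)
  have hs : ∀ a', MeasurableSet {a | M.mix Low a' a ∈ M.F y α} := fun a' =>
    M.measurable_mix_right Low a' (M.measurableSet_F y α)
  have e1 : ∀ a', ∫⁻ a in M.F x γ, (M.F y α).indicator (1 : M.Fld → ℝ≥0∞) (M.mix Low a' a) ∂M.P =
      M.w γ * ∫⁻ a, (M.F y α).indicator (1 : M.Fld → ℝ≥0∞) (M.mix Low a' a) ∂M.P := by
    intro a'
    have e : (fun a => (M.F y α).indicator (1 : M.Fld → ℝ≥0∞) (M.mix Low a' a)) =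
        {a | M.mix Low a' a ∈ M.F y α}.indicator 1 := rfl
    rw [e, lintegral_indicator_one (hs a'), lintegral_indicator_one (hs a'),
      Measure.restrict_apply (hs a'), mul_comm]
    refine MomAux.P_inter (V := pts M.vec y α) (hs a') (fun b b' h hb => ?_) hd.symm
    refine (M.mem_F_congr fun z hz => ?_).2 hb
    unfold Mod.mix
    split_ifs
    · rfl
    · exact h z hz
  rw [M.Pm_eq]
  unfold Mod.cE
  refine (lintegral_lintegral_swap
    (f := fun a a' => (M.F y α).indicator (1 : M.Fld → ℝ≥0∞) (M.mix Low a' a))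
    (hm.comp ((M.measurable_mix Low).comp measurable_swap)).aemeasurable).trans ?_
  simp only [e1]
  have hm2 : Measurable fun a' =>
      ∫⁻ a, (M.F y α).indicator (1 : M.Fld → ℝ≥0∞) (M.mix Low a' a) ∂M.P :=
    (hm.comp (M.measurable_mix Low)).lintegral_prod_right'
  rw [lintegral_const_mul _ hm2, M.lintegral_mix Low hm,
    lintegral_indicator_one (M.measurableSet_F y α), M.P_F]

end BMAux3

theorem t_bm : T_BM := by
  intro M Low H X x γ hH
  have h1 : ∀ a, M.Tch Low H X (M.low Low x γ) a ≤ M.Tch Low H X (pts M.vec x γ) a := by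
    intro a
    refine ENNReal.tsum_le_tsum fun y => ?_
    by_cases hy : y ∈ X
    · simp only [hy, true_and]
      exact BMAux3.touch_le (Finset.filter_subset _ _) hH y a
    · simp [hy]
  refine (lintegral_mono h1).trans (le_of_eq ?_)
  have hm : ∀ y α, Measurable fun a =>
      if y ∈ X ∧ α ∈ M.FTs H (pts M.vec x γ) y then M.Pm Low y α a else 0 := by
    intro y α
    split_ifs
    · exact M.measurable_Pm _ _ _
    · exact measurable_const
  unfold Mod.Tch Mod.FT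
  rw [lintegral_tsum fun y => (Measurable.tsum fun α => hm y α).aemeasurable,
    ← ENNReal.tsum_mul_left]
  refine tsum_congr fun y => ?_
  rw [lintegral_tsum fun α => (hm y α).aemeasurable, ← ENNReal.tsum_mul_left]
  refine tsum_congr fun α => ?_
  split_ifs with h
  · exact BMAux3.indep Low h.2.2.2
  · simp

end Pool.Agent.MP_db8016_pr.BZ

end

section

/-! One stage of the conditioning. -/

namespace Pool.Agent.MP_db8016_pr.BZ
open MeasureTheory ProbabilityTheory Filter Topology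
open scoped ENNReal Classical

namespace StageAux3

lemma meas_ind {M : Mod} (U : Set M.Pt) {f : M.Pt → M.Fld → ℝ≥0∞} (hf : ∀ u, Measurable (f u))
    (u : M.Pt) : Measurable fun a => U.indicator (fun u => f u a) u := by
  by_cases h : u ∈ U
  · simpa only [Set.indicator_of_mem h] using hf u
  · simpa only [Set.indicator_of_notMem h] using measurable_const

lemma int_ind {M : Mod} (U : Set M.Pt) {f : M.Pt → M.Fld → ℝ≥0∞} (hf : ∀ u, Measurable (f u)) :
    ∫⁻ a, ∑' u, U.indicator (fun u => f u a) u ∂M.P =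
      ∑' u, U.indicator (fun u => ∫⁻ a, f u a ∂M.P) u := by
  rw [lintegral_tsum fun u => (meas_ind U hf u).aemeasurable]
  refine tsum_congr fun u => ?_
  by_cases h : u ∈ U
  · simp only [Set.indicator_of_mem h]
  · simp only [Set.indicator_of_notMem h, lintegral_zero]

lemma meas_sup {M : Mod} (Low U : Set M.Pt) {Y : M.Pt → M.Fld → ℝ≥0∞} (hY : ∀ u, Measurable (Y u))
    (t : ℝ≥0∞) : Measurable fun a => (⨆ u ∈ U, M.cE Low (Y u) a) - t :=
  (Measurable.biSup U (Set.to_countable U) fun u _ => M.measurable_cE Low (hY u)).sub_const t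

lemma ptw2 {M : Mod} (Low : Set M.Pt) {U : Set M.Pt} {Y Y' : M.Pt → M.Fld → ℝ≥0∞}
    {R : M.Fld → ℝ≥0∞} (hY' : ∀ u, Measurable (Y' u)) (hR : Measurable R)
    (h : ∀ u ∈ U, ∀ a, Y u a ≤ Y' u a + R a) {τ : ℝ≥0∞} (h0 : τ ≠ 0) (h1 : τ ≠ ⊤) (t : ℝ≥0∞)
    (k : ℕ) (b : M.Fld) : (⨆ u ∈ U, M.cE Low (Y u) b) - t ≤ M.cE Low R b + (τ - t) +
      (∑' u, U.indicator (fun u => M.cE Low (fun a => Y' u a ^ (k + 1)) b) u) * (τ ^ k)⁻¹ := by
  refine tsub_le_iff_right.2 (iSup₂_le fun u hu => ?_)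
  have m := M.measurable_mix_left Low b
  have m1 : Measurable fun a' => R (M.mix Low a' b) := hR.comp m
  have m2 : Measurable fun a' => Y' u (M.mix Low a' b) ^ (k + 1) := ((hY' u).comp m).pow_const _
  calc M.cE Low (Y u) b ≤ M.cE Low (fun a => R a + (τ + Y' u a ^ (k + 1) * (τ ^ k)⁻¹)) b :=
        M.cE_mono Low (fun a => (h u hu a).trans ((add_comm _ _).trans_le
          (add_le_add le_rfl (SetBAux.ptw h0 h1 k _)))) b
    _ = M.cE Low R b + (τ + M.cE Low (fun a => Y' u a ^ (k + 1)) b * (τ ^ k)⁻¹) := by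
        simp only [Mod.cE]
        rw [lintegral_add_left m1, lintegral_add_left measurable_const, lintegral_const,
          measure_univ, mul_one, lintegral_mul_const _ m2]
    _ ≤ M.cE Low R b + ((τ - t + t) + (∑' u, U.indicator
          (fun u => M.cE Low (fun a => Y' u a ^ (k + 1)) b) u) * (τ ^ k)⁻¹) := by
        refine add_le_add le_rfl (add_le_add le_tsub_add (mul_le_mul_left ?_ _))
        refine le_trans ?_ (ENNReal.le_tsum u)
        rw [Set.indicator_of_mem hu]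
    _ = _ := by ring

end StageAux3

open StageAux3 in
theorem t_stage : T_Stage := by
  intro M Low Low' U Y Y' R χ ε t t' B k hL hY hY' hR h hB χ0 χ1 ε1 hk hm ht
  have key : ∀ a, M.cE Low' (fun b => (⨆ u ∈ U, M.cE Low (Y u) b) - t) a ≤ M.cE Low' R a +
      (1 + ε) * ((⨆ u ∈ U, M.cE Low' (Y u) a) - t') +
      ((1 + ε) ^ k)⁻¹ * ∑' u, U.indicator (fun u => M.cE Low' (Y u) a) u := fun a => by
    have hT : ∀ u ∈ U, M.cE Low' (Y u) a ≤ ⨆ u ∈ U, M.cE Low' (Y u) a := fun u hu =>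
      le_iSup₂ (f := fun u (_ : u ∈ U) => M.cE Low' (Y u) a) u hu
    have hTB : (⨆ u ∈ U, M.cE Low' (Y u) a) ≤ B := iSup₂_le fun u hu =>
      (M.cE_mono Low' (fun b => (h u hu b).2.2) a).trans_eq (by simp [Mod.cE])
    generalize (⨆ u ∈ U, M.cE Low' (Y u) a) = T at hT hTB ⊢
    have s0 : T + k * χ ≠ 0 := fun e =>
      mul_ne_zero (Nat.cast_ne_zero.2 (by omega)) χ0 (add_eq_zero.1 e).2
    have s1 : T + k * χ ≠ ⊤ := ENNReal.add_ne_top.2
      ⟨ne_top_of_le_ne_top hB hTB, ENNReal.mul_ne_top (ENNReal.natCast_ne_top k) χ1⟩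
    have e0 : 1 + ε ≠ 0 := by simp
    have e1 : 1 + ε ≠ ⊤ := ENNReal.add_ne_top.2 ⟨ENNReal.one_ne_top, ε1⟩
    have m := M.measurable_mix_left Low' a
    have mp : ∀ u, Measurable fun b => Y' u b ^ (k + 1) := fun u => (hY' u).pow_const _
    have mc : ∀ u, Measurable fun a' =>
        M.cE Low (fun b => Y' u b ^ (k + 1)) (M.mix Low' a' a) :=
      fun u => (M.measurable_cE Low (mp u)).comp m
    have mr : Measurable fun a' => M.cE Low R (M.mix Low' a' a) := (M.measurable_cE Low hR).comp m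
    refine (M.cE_mono Low' (ptw2 Low hY' hR (fun u hu b => (h u hu b).1) (mul_ne_zero e0 s0)
      (ENNReal.mul_ne_top e1 s1) t k) a).trans ?_
    rw [Mod.cE, lintegral_add_left (mr.add_const _),
      lintegral_add_right _ measurable_const, lintegral_const, measure_univ, mul_one,
      lintegral_mul_const _ (Measurable.tsum (meas_ind U mc)), int_ind U mc]
    refine add_le_add (add_le_add (M.cE_cE hL hR a).le (tsub_le_iff_right.2 ?_)) ?_
    · calc (1 + ε) * (T + k * χ) ≤ (1 + ε) * (T - t' + t' + k * χ) := by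
            gcongr
            exact le_tsub_add
        _ = (1 + ε) * (T - t') + (1 + ε) * (t' + k * χ) := by ring
        _ ≤ _ := add_le_add le_rfl ht
    · rw [← ENNReal.tsum_mul_left, ← ENNReal.tsum_mul_right]
      refine ENNReal.tsum_le_tsum fun u => ?_
      by_cases hu : u ∈ U
      · rw [Set.indicator_of_mem hu, Set.indicator_of_mem hu]
        have c1 : M.cE Low' (Y' u) a ≤ M.cE Low' (Y u) a :=
          M.cE_mono Low' (fun b => (h u hu b).2.1) a
        have c2 : M.cE Low' (M.cE Low fun b => Y' u b ^ (k + 1)) a ≤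
            (T + k * χ) ^ k * M.cE Low' (Y u) a := by
          rw [M.cE_cE hL (mp u)]
          refine (hm u hu a).trans ?_
          rw [Finset.prod_range_succ', Nat.cast_zero, zero_mul, add_zero]
          refine mul_le_mul' ?_ c1
          refine (Finset.prod_le_pow_card _ _ _ fun i hi => ?_).trans_eq (by rw [Finset.card_range])
          exact add_le_add (c1.trans (hT u hu))
            (mul_le_mul_left (Nat.cast_le.2 (Finset.mem_range.1 hi)) _)
        refine (mul_le_mul_left c2 _).trans_eq ?_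
        rw [mul_pow, ENNReal.mul_inv (Or.inl (pow_ne_zero _ e0)) (Or.inl (ENNReal.pow_ne_top e1)),
          mul_right_comm, mul_left_comm,
          ENNReal.mul_inv_cancel (pow_ne_zero _ s0) (ENNReal.pow_ne_top s1), mul_one]
      · rw [Set.indicator_of_notMem hu, zero_mul]
        exact zero_le
  have mc : ∀ u, Measurable (M.cE Low' (Y u)) := fun u => M.measurable_cE _ (hY u)
  rw [← M.lintegral_cE Low' (meas_sup Low U hY t)]
  refine (lintegral_mono key).trans_eq ?_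
  rw [lintegral_add_right _ ((Measurable.tsum (meas_ind U mc)).const_mul _),
    lintegral_add_left (M.measurable_cE _ hR), lintegral_const_mul _ (meas_sup Low' U hY t'),
    lintegral_const_mul _ (Measurable.tsum (meas_ind U mc)), int_ind U mc, M.lintegral_cE _ hR]
  simp only [fun u => M.lintegral_cE Low' (hY u)]

end Pool.Agent.MP_db8016_pr.BZ

end

section

/-! One stage of the conditioning, in terms of the paths. -/

namespace Pool.Agent.MP_db8016_pr.BZ
open MeasureTheory ProbabilityTheory Filter Topology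
open scoped ENNReal Classical

namespace StageCAux3
variable (M : Mod) (τ : ℝ) (H : Set (List M.D)) (X : Set M.Pt) (bb : ℝ≥0∞)

/-- A proper initial part below the level `τ` is outside `H`. -/
def Bd (x : M.Pt) (γ : List M.D) : Prop :=
  ∃ α, α <+: γ ∧ α ≠ γ ∧ M.L x + M.lv α < τ ∧ α ∉ H

/-- The paths that are kept. -/
def Ok (x : M.Pt) (γ : List M.D) (a : M.Fld) : Prop :=
  ¬ Bd M τ H x γ ∧ M.Tch (M.Lo τ) H X (M.low (M.Lo τ) x γ) a ≤ bb

lemma measurableSet_Ok (x : M.Pt) (γ : List M.D) : MeasurableSet {a | Ok M τ H X bb x γ a} :=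
  (MeasurableSet.const _).inter (measurableSet_le (M.measurable_Tch _ _ _ _) measurable_const)

/-- The weights of the paths that are kept. -/
noncomputable def cc (c : M.Pt → List M.D → ℝ≥0∞) (a : M.Fld) (x : M.Pt) (γ : List M.D) : ℝ≥0∞ :=
  if Ok M τ H X bb x γ a then c x γ else 0

/-- The weights of the other paths. -/
noncomputable def dd (c : M.Pt → List M.D → ℝ≥0∞) (a : M.Fld) (x : M.Pt) (γ : List M.D) : ℝ≥0∞ :=
  if Ok M τ H X bb x γ a then 0 else c x γ

lemma meas_cc (c : M.Pt → List M.D → ℝ≥0∞) : Measurable fun a => M.Yc (cc M τ H X bb c a) a :=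
  Measurable.tsum fun x => Measurable.tsum fun γ =>
    (Measurable.ite (measurableSet_Ok M τ H X bb x γ) measurable_const measurable_const).mul
      (measurable_one.indicator (M.measurableSet_F x γ))

lemma meas_dd (c : M.Pt → List M.D → ℝ≥0∞) : Measurable fun a => M.Yc (dd M τ H X bb c a) a :=
  Measurable.tsum fun x => Measurable.tsum fun γ =>
    (Measurable.ite (measurableSet_Ok M τ H X bb x γ) measurable_const measurable_const).mul
      (measurable_one.indicator (M.measurableSet_F x γ))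

lemma cc_mix (c : M.Pt → List M.D → ℝ≥0∞) (a' a : M.Fld) :
    cc M τ H X bb c (M.mix (M.Lo τ) a' a) = cc M τ H X bb c a := by
  funext x γ
  have e : Ok M τ H X bb x γ (M.mix (M.Lo τ) a' a) = Ok M τ H X bb x γ a := by
    simp only [Ok, M.Tch_mix]
  unfold cc
  rw [e]

lemma Yc_mono {c c' : M.Pt → List M.D → ℝ≥0∞} (h : ∀ x γ, c x γ ≤ c' x γ) (a : M.Fld) :
    M.Yc c a ≤ M.Yc c' a :=
  ENNReal.tsum_le_tsum fun x => ENNReal.tsum_le_tsum fun γ => mul_le_mul_left (h x γ) _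

lemma cc_le (c : M.Pt → List M.D → ℝ≥0∞) (a : M.Fld) (x : M.Pt) (γ : List M.D) :
    cc M τ H X bb c a x γ ≤ c x γ := by
  unfold cc
  split_ifs
  · exact le_rfl
  · exact zero_le

lemma Yc_split {c c' : M.Pt → List M.D → ℝ≥0∞} (h : ∀ x γ, c x γ ≤ c' x γ) (a : M.Fld) :
    M.Yc c a ≤ M.Yc (cc M τ H X bb c a) a + M.Yc (dd M τ H X bb c' a) a := by
  unfold Mod.Yc
  rw [← ENNReal.tsum_add]
  refine ENNReal.tsum_le_tsum fun x => ?_
  rw [← ENNReal.tsum_add]
  refine ENNReal.tsum_le_tsum fun γ => ?_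
  rw [← add_mul]
  refine mul_le_mul_left ?_ _
  unfold cc dd
  split_ifs
  · simp
  · simpa using h x γ

lemma int_one (hB : T_BM) (hH : PC H) (h0 : bb ≠ 0) (ht : bb ≠ ⊤)
    (c : M.Pt → List M.D → ℝ≥0∞) (x : M.Pt) (γ : List M.D) :
    ∫⁻ a, dd M τ H X bb c a x γ * (M.F x γ).indicator 1 a ∂M.P ≤
      c x γ * (M.w γ * if Bd M τ H x γ then 1 else 0) +
        c x γ * (M.w γ * M.FT H X (pts M.vec x γ)) * bb⁻¹ := by
  have hF := M.measurableSet_F x γ
  by_cases hb : Bd M τ H x γ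
  · refine le_trans ?_ le_self_add
    rw [if_pos hb, mul_one, ← M.P_F x, ← lintegral_indicator_one hF,
      ← lintegral_const_mul _ (measurable_one.indicator hF)]
    refine lintegral_mono fun a => mul_le_mul_left ?_ _
    unfold dd
    split_ifs
    · exact zero_le
    · exact le_rfl
  · refine le_trans ?_ le_add_self
    have hT := M.measurable_Tch (M.Lo τ) H X (M.low (M.Lo τ) x γ)
    refine le_trans ?_ (mul_le_mul_left (mul_le_mul_right (hB M (M.Lo τ) H X x γ hH) _) _)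
    rw [← lintegral_indicator hF, ← lintegral_const_mul _ (hT.indicator hF),
      ← lintegral_mul_const _ ((hT.indicator hF).const_mul _)]
    refine lintegral_mono fun a => ?_
    by_cases ha : a ∈ M.F x γ
    · simp only [Set.indicator_of_mem ha, Pi.one_apply, mul_one, dd]
      split_ifs with h
      · exact zero_le
      · have h1 : bb ≤ M.Tch (M.Lo τ) H X (M.low (M.Lo τ) x γ) a :=
          le_of_not_ge fun h' => h ⟨hb, h'⟩
        rw [mul_assoc]
        refine le_mul_of_one_le_right' ?_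
        rw [← ENNReal.mul_inv_cancel h0 ht]
        exact mul_le_mul_left h1 _
    · simp [Set.indicator_of_notMem ha]

lemma int_dd (hB : T_BM) (hH : PC H) (h0 : bb ≠ 0) (ht : bb ≠ ⊤)
    (c : M.Pt → List M.D → ℝ≥0∞) :
    ∫⁻ a, M.Yc (dd M τ H X bb c a) a ∂M.P ≤
      ∑' x, ∑' γ, c x γ * (M.w γ * if Bd M τ H x γ then 1 else 0) +
        (∑' x, ∑' γ, c x γ * (M.w γ * M.FT H X (pts M.vec x γ))) / bb := by
  have hm : ∀ x γ, Measurable fun a => dd M τ H X bb c a x γ * (M.F x γ).indicator 1 a :=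
    fun x γ =>
      (Measurable.ite (measurableSet_Ok M τ H X bb x γ) measurable_const measurable_const).mul
        (measurable_one.indicator (M.measurableSet_F x γ))
  unfold Mod.Yc
  rw [lintegral_tsum fun x => (Measurable.tsum fun γ => hm x γ).aemeasurable, div_eq_mul_inv,
    ← ENNReal.tsum_mul_right, ← ENNReal.tsum_add]
  refine ENNReal.tsum_le_tsum fun x => ?_
  rw [lintegral_tsum fun γ => (hm x γ).aemeasurable, ← ENNReal.tsum_mul_right, ← ENNReal.tsum_add]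
  exact ENNReal.tsum_le_tsum fun γ => int_one M τ H X bb hB hH h0 ht c x γ

lemma TS_sub {S : Finset M.Pt} (hS : M.InU (-1) S) {b : ℝ} {u : M.Pt} (hu : u ∈ M.Win b 3) :
    M.TS S u ⊆ M.Win b 4 := by
  intro x hx
  have h := hS _ hx
  rw [map_sub] at h
  exact ⟨by linarith [hu.1, h.2], by linarith [hu.2, h.1]⟩

lemma cf_mono (s : M.Pt → ℝ≥0∞) {T T' : Set M.Pt} (h : T ⊆ T') (x : M.Pt) (γ : List M.D) :
    M.cf s T x γ ≤ M.cf s T' x γ := by
  unfold Mod.cf
  by_cases h1 : x ∈ T ∧ M.FP x γ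
  · rw [if_pos h1, if_pos ⟨h h1.1, h1.2⟩]
  · rw [if_neg h1]
    exact zero_le

lemma cf_ne (s : M.Pt → ℝ≥0∞) {T : Set M.Pt} {x : M.Pt} {γ : List M.D} (h : M.cf s T x γ ≠ 0) :
    x ∈ T ∧ M.FP x γ := by
  by_contra h1
  exact h (if_neg h1)

lemma cc_ne {c : M.Pt → List M.D → ℝ≥0∞} {a : M.Fld} {x : M.Pt} {γ : List M.D}
    (h : cc M τ H X bb c a x γ ≠ 0) : Ok M τ H X bb x γ a ∧ c x γ ≠ 0 := by
  unfold cc at h
  split_ifs at h with h1
  · exact ⟨h1, h⟩
  · exact absurd rfl h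

end StageCAux3

open StageCAux3 in
theorem t_stageC (hG : T_GM) (hB : T_BM) (hS : T_Stage) (hE : T_End) : T_StageC := by
  intro M s S b τ τ' H U lam r₁ r₂ bb ε t t' k hτ hU hIn hs l0 lt hH h1 h2 b0 bt εt hk htt
  have key := hS M (M.Lo τ) (M.Lo τ') U (fun u => M.Yc (M.cf s (M.TS S u)))
    (fun u a => M.Yc (cc M τ' H (M.Win b 4) bb (M.cf s (M.TS S u)) a) a)
    (fun a => M.Yc (dd M τ' H (M.Win b 4) bb (M.cf s (M.Win b 4)) a) a) (lam * bb) ε t t'
    (lam * S.card) k (fun z hz => lt_of_lt_of_le hz hτ) (fun u => M.measurable_Yc _)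
    (fun u => meas_cc M _ _ _ _ _) (meas_dd M _ _ _ _ _)
    (fun u hu a => ⟨Yc_split M _ _ _ _ (cf_mono M s (TS_sub M hIn (hU hu))) a,
      Yc_mono M (cc_le M _ _ _ _ _ a) a, (hE M s S b u a hIn (hU hu)).2.2 lam hs⟩)
    (ENNReal.mul_ne_top lt (ENNReal.natCast_ne_top _)) (mul_ne_zero l0 b0)
    (ENNReal.mul_ne_top lt bt) εt hk (fun u hu a => by
      have e : M.cE (M.Lo τ') (fun a => M.Yc (cc M τ' H (M.Win b 4) bb (M.cf s (M.TS S u)) a) a)
          a = M.cE (M.Lo τ') (M.Yc (cc M τ' H (M.Win b 4) bb (M.cf s (M.TS S u)) a)) a := by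
        simp only [Mod.cE, cc_mix]
      rw [e]
      simp only [cc_mix]
      refine hG M (M.Lo τ') a _ H (M.Win b 4) lam bb (fun x γ => (cc_le M _ _ _ _ _ a x γ).trans ?_)
        (fun x => (M.pf_FP x).mono fun γ h => (cf_ne M s (cc_ne M _ _ _ _ h).2).2)
        (fun x γ h => ?_) (k + 1)
      · unfold Mod.cf
        split_ifs
        · exact hs _
        · exact zero_le
      · obtain ⟨o1, o2⟩ := cc_ne M _ _ _ _ h
        refine ⟨TS_sub M hIn (hU hu) (cf_ne M s o2).1, fun α a1 a2 a3 => ?_, o1.2⟩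
        by_contra a4
        refine o1.1 ⟨α, a1, a2, ?_, a4⟩
        have a5 : M.L (x + M.ds α) < τ' := a3
        rwa [map_add] at a5) htt
  simp only [M.lintegral_Yc] at key
  refine key.trans (add_le_add_left (add_le_add_left ?_ _) _)
  exact (int_dd M τ' H (M.Win b 4) bb hB hH b0 bt _).trans
    (add_le_add h1 (ENNReal.div_le_div_right h2 _))

end Pool.Agent.MP_db8016_pr.BZ

end

section

/-! The conditional weight of a start in terms of its first pieces. -/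

namespace Pool.Agent.MP_db8016_pr.BZ
open MeasureTheory ProbabilityTheory Filter Topology
open scoped ENNReal Classical

namespace ZnAux3
open BZ.Mod

variable {M : Mod} {s : M.Pt → ℝ≥0∞} {τ : ℝ} {a : M.Fld} {x : M.Pt} {α β : List M.D}

lemma L_add (x : M.Pt) (α : List M.D) : M.L (x + M.ds α) = M.L x + M.lv α := map_add _ _ _

lemma fp_iff (hτ : τ ≤ 0) (h1 : M.Up α) (h2 : M.Up β) (h : M.L x + M.lv α ≤ τ) :
    M.FP x (α ++ β) ↔ M.FP (x + M.ds α) β := by
  refine ⟨fun e => ⟨h2, fun δ d1 d2 => ?_, ?_⟩, fun e => ⟨h1.append h2, fun δ d1 d2 => ?_, ?_⟩⟩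
  · have := e.2.1 (α ++ δ) ((List.prefix_append_right_inj α).2 d1) (by simpa using d2)
    rw [lv_append] at this
    rw [L_add]
    linarith
  · have := e.2.2
    rw [lv_append] at this
    rw [L_add]
    linarith
  · rcases pf_append_cases d1 with ⟨c1, c2⟩ | ⟨δ', c1, rfl⟩
    · linarith [h1.2 δ c1 c2]
    · have := e.2.1 δ' c1 fun e' => d2 (by rw [e'])
      rw [L_add] at this
      rw [lv_append]
      linarith
  · have := e.2.2
    rw [L_add] at this
    rw [lv_append]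
    linarith

lemma cut (hτ : τ ≤ 0) (h1 : M.Up α) (h2 : M.Up β) (h : M.L x + M.lv α ≤ τ) :
    M.cf s Set.univ x (α ++ β) * M.Pm (M.Lo τ) x (α ++ β) a =
      M.w α * (M.cf s {v | M.L v ≤ τ} (x + M.ds α) β * M.Pm (M.Lo τ) (x + M.ds α) β a) := by
  have e : x + M.ds α ∈ {v | M.L v ≤ τ} := (L_add x α).trans_le h
  rw [M.Pm_append h1.2 h2.1 fun z hz => by
    obtain ⟨δ, d1, d2, rfl⟩ := M.mem_pts.1 hz
    exact (L_add x δ).trans_lt (by linarith [h1.2 δ d1 d2]), mul_left_comm]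
  simp only [cf, fp_iff hτ h1 h2 h, Set.mem_univ, e, true_and, ds_append, add_assoc]

lemma cf_le (x : M.Pt) (γ : List M.D) : M.cf s {v | M.L v ≤ τ} x γ ≤ M.cf s Set.univ x γ := by
  unfold cf
  split_ifs with h1 h2
  · exact le_rfl
  · exact absurd ⟨trivial, h1.2⟩ h2
  · exact zero_le
  · exact le_rfl

lemma step (hτ : τ ≤ 0) (x : M.Pt) :
    op M.qq (fun v => ∑' β, M.cf s {v | M.L v ≤ τ} v β * M.Pm (M.Lo τ) v β a) x ≤
      ∑' β, M.cf s {v | M.L v ≤ τ} x β * M.Pm (M.Lo τ) x β a := by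
  rw [op_qq]
  refine le_trans (ENNReal.tsum_le_tsum fun π => ?_) ((tsum_first fun γ =>
    M.cf s {v | M.L v ≤ τ} x γ * M.Pm (M.Lo τ) x γ a).symm.le.trans
      (ENNReal.tsum_le_tsum fun γ => ?_))
  · split_ifs with h
    · rw [← ENNReal.tsum_mul_left]
      refine ENNReal.tsum_le_tsum fun β => ?_
      by_cases h1 : x + M.ds π ∈ {v | M.L v ≤ τ} ∧ M.FP (x + M.ds π) β
      · have h2 : M.L x + M.lv π ≤ τ := (L_add x π).symm.trans_le h1.1
        have h3 : x ∈ {v | M.L v ≤ τ} := by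
          have := h.1.1 π List.prefix_rfl
          exact le_trans (by linarith) h2
        rw [if_pos ⟨h, h1.2.1⟩, ← cut hτ h.1 h1.2.1 h2]
        simp only [cf, h3, Set.mem_univ, le_refl]
      · rw [cf, if_neg h1, zero_mul, mul_zero]
        exact zero_le
    · exact zero_le
  · split_ifs
    · exact le_rfl
    · exact zero_le

end ZnAux3

open ZnAux3 BZ.Mod in
theorem t_zn (hP : T_PcOp) : T_Zn := by
  rintro M s τ y n a x hτ _ rfl
  constructor
  · refine le_trans ?_ (ENNReal.tsum_le_tsum fun γ => mul_le_mul_left (cf_le (τ := τ) x γ) _)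
    induction n generalizing x with
    | zero => exact le_rfl
    | succ n ih =>
      rw [Function.iterate_succ_apply']
      exact (ENNReal.tsum_le_tsum fun _ => mul_le_mul_right (ih _) _).trans (step hτ x)
  intro hy
  have key : ∀ γ, M.cf s Set.univ x γ * M.Pm (M.Lo τ) x γ a ≤
      (∑' p : List M.D × List M.D, if γ = p.1 ++ p.2 then (if M.Pc n p.1 then M.w p.1 *
        (M.cf s {v | M.L v ≤ τ} (x + M.ds p.1) p.2 * M.Pm (M.Lo τ) (x + M.ds p.1) p.2 a) else 0)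
        else 0) +
      M.cf s Set.univ x γ * (M.Pm (M.Lo τ) x γ a * if M.Bad n y γ then 1 else 0) := by
    intro γ
    by_cases h1 : M.FP x γ
    · by_cases h2 : M.Bad n y γ
      · rw [if_pos h2, mul_one]
        exact le_add_self
      · obtain ⟨α, β, rfl, c1, c2, c3⟩ : ∃ α β, γ = α ++ β ∧ M.Pc n α ∧ M.Up β ∧ M.lv α ≤ y := by
          by_contra e
          exact h2 ⟨by linarith [h1.2.2], e⟩
        refine le_trans ?_ ((ENNReal.le_tsum (α, β)).trans le_self_add)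
        rw [if_pos rfl, if_pos c1, cut hτ c1.up c2 (by linarith)]
    · rw [cf, if_neg fun e => h1 e.2, zero_mul]
      exact zero_le
  refine (ENNReal.tsum_le_tsum key).trans ?_
  rw [ENNReal.tsum_add, ENNReal.tsum_comm]
  refine add_le_add_left (le_trans (le_of_eq ?_) (hP M n _ x)) _
  simp only [tsum_ite_eq]
  rw [ENNReal.tsum_prod']
  refine tsum_congr fun α => ?_
  split_ifs
  · exact ENNReal.tsum_mul_left (a := M.w α)
  · exact tsum_zero

end Pool.Agent.MP_db8016_pr.BZ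

end

section

/-! All the pieces together, in dimension three. -/

namespace Pool.Agent.MP_db8016_pr.BZ
open MeasureTheory ProbabilityTheory Filter Topology
open scoped ENNReal

theorem wl3_all : T_WL3 :=
  have hRed := t_red (t_sm (t_lr3 t_lr1) t_grid (t_zn t_pcop) t_slab t_bad) t_sum
  have hSt := t_stageC t_gm t_bm t_stage t_end
  t_wl3 (t_rate (t_lg t_lg1 t_lg2 t_lg3) (t_acr (s_rw s_blk) t_bad t_dec t_pcop)
      (t_act t_bad t_dec) (t_bas1 t_vis))
    (t_g3 t_gm t_hp t_ft2 t_tr) s_mass s_row s_trim t_set3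
    (t_chain (t_one hRed hSt t_slab t_tr t_hp t_time (t_ft1 t_vis))
      (t_topS hRed hSt t_slab t_tr t_hp t_ft2 t_end) t_end) t_y t_end (t_bas1 t_vis)

theorem ball3_thm
    (μ : Measure ((Fin 3 → ℤ) → Fin 3 × Bool → ℕ → ℝ)) [IsProbabilityMeasure μ]
    (hind : iIndepFun (fun (z : Fin 3 → ℤ) (ω : (Fin 3 → ℤ) → Fin 3 × Bool → ℕ → ℝ) => ω z) μ)
    (hid : ∀ z : Fin 3 → ℤ,
      IdentDistrib (fun ω : (Fin 3 → ℤ) → Fin 3 × Bool → ℕ → ℝ => ω z) (fun ω => ω 0) μ μ)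
    (hsum : ∀ᵐ ω ∂μ, ∀ z i, ∑ e, ω z e i = 1)
    (κ : ℝ) (hκ : 0 < κ) (hell : ∀ᵐ ω ∂μ, ∀ z e i, κ ≤ ω z e i)
    (P₀ : Measure (ℕ → Fin 3 → ℤ)) [IsProbabilityMeasure P₀]
    (hP₀ : ∀ (e : ℕ → Fin 3 × Bool) (n : ℕ), P₀ {X | ∀ i ≤ n, X i = HD.pos e i} =
      ∫⁻ ω, ENNReal.ofReal (∏ i ∈ Finset.range n, ω (HD.pos e i) (e i) (HD.visits e i)) ∂μ)
    (l : Fin 3 → ℝ) (hl : l ≠ 0)
    (hfast : P₀ {X | ∀ᶠ n : ℕ in atTop, (n : ℝ) ≤ ∑ j, (X n j : ℝ) * l j} ≠ 0) :
    P₀ {X | Tendsto (fun n => ∑ j, (X n j : ℝ) * l j) atTop atTop} = 1 :=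
  main3_all s_w (t_m1 s_good) wl3_all s_init (t_core3 s_comp (s_fin s_ab) s_turn) s_fast s_back
    s_nu s_law s_pcs μ hind hid hsum κ hκ hell P₀ hP₀ l hl hfast

end Pool.Agent.MP_db8016_pr.BZ

end
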