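import Pool.Agent.Mg.Fdb8016p.Gf48781
import Pool.Agent.Mg.Fdb8016p.G7dc47f

section

/-! On the event of escape the walk is comparable with its running maximum. -/

namespace Pool.Agent.MP_db8016_pr.BZ
open MeasureTheory ProbabilityTheory Filter Topology
open scoped ENNReal Classical
open HD (sh)

namespace BtAuxA

/-- The present level is comparable with the highest level so far. -/
def Bt (M : Mod) : Set (ℕ → M.D) :=
  {a | ∃ C N : ℕ, ∀ n, N ≤ n → M.rg M.L (pre a n) ≤ C * M.lv (pre a n)}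

lemma meas_Bt (M : Mod) : MeasurableSet (Bt M) :=
  measurableSet_setOfPred.2 (Measurable.exists fun C => Measurable.exists fun _ =>
    Measurable.forall fun n => measurable_const.imp (measurableSet_setOfPred.1
      (Mod.meas_pre (fun γ => M.rg M.L γ ≤ (C : ℕ) * M.lv γ) n)))

lemma shift {M : Mod} {a : ℕ → M.D} {n : ℕ} (h1 : sh n a ∈ M.Esc) (h2 : sh n a ∈ Bt M) :
    a ∈ Bt M := by
  obtain ⟨C, N, h2⟩ := h2
  obtain ⟨N', h3⟩ := eventually_atTop.1 ((Tendsto.eventually_ge_atTop h1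
    (M.rg M.L (pre a n))).and (Tendsto.eventually_ge_atTop h1 (-2 * M.lv (pre a n))))
  refine ⟨2 * (C + 1), n + (N + N'), fun m hm => ?_⟩
  obtain ⟨k, rfl⟩ := Nat.exists_eq_add_of_le ((Nat.le_add_right _ _).trans hm)
  have h4 := h2 k (by omega)
  obtain ⟨h5, h6⟩ := h3 k (by omega)
  have h7 := Mod.rg_nonneg M.L (pre a n)
  have h8 : (0 : ℝ) ≤ C := C.cast_nonneg
  rw [Step0Aux.pre_add', Mod.lv_append]
  push_cast
  have h9 : M.rg M.L (pre a n ++ pre (sh n a) k) ≤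
      M.rg M.L (pre a n) + M.rg M.L (pre (sh n a) k) := by
    refine Mod.rg_le _ fun α hα => ?_
    rcases Mod.pf_append_cases hα with ⟨a1, -⟩ | ⟨β, a1, rfl⟩
    · linarith [Mod.le_rg M.L a1, Mod.rg_nonneg M.L (pre (sh n a) k)]
    · rw [Mod.ds_append, map_add]
      linarith [Mod.le_rg M.L a1, Mod.le_rg M.L (List.prefix_rfl (l := pre a n))]
  nlinarith

lemma det {M : Mod} {a : ℕ → M.D} {v : ℝ} (hG : M.Gd a) (hv : 0 < v)
    (h : Tendsto (fun n : ℕ => (∑ i ∈ Finset.range n, M.lv (M.pc (M.Tn^[i] a))) / n) atTop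
      (𝓝 v)) : a ∈ Bt M := by
  obtain ⟨h1, hm, h3⟩ := a_cat M a hG
  obtain ⟨N, hN⟩ := eventually_atTop.1 ((h.eventually_const_le (half_lt_self hv)).and
    (h.eventually_le_const (lt_add_of_pos_right v hv)))
  have hV : ∀ n, ∑ i ∈ Finset.range n, M.lv (M.pc (M.Tn^[i] a)) = M.lv (pre a (M.tt a n)) :=
    fun n => by simp only [Mod.lv, (h1 n).2.2.2, map_sum]
  refine ⟨8, M.tt a (N + 1), fun k hk => ?_⟩
  obtain ⟨n, β, b1, -, -, b4, b5⟩ := h3 k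
  have hn : N + 1 ≤ n := Nat.lt_succ_iff.1 (hm.lt_iff_lt.1 (hk.trans_lt b4))
  have n1 : (1 : ℝ) ≤ n := by exact_mod_cast (show 1 ≤ n by omega)
  have c1 := (hN n (by omega)).1
  have c2 := (hN (n + 1) (by omega)).2
  rw [hV, le_div_iff₀ (by linarith)] at c1
  rw [hV, div_le_iff₀ (by positivity)] at c2
  push_cast at c2
  have c3 : M.rg M.L (pre a k) ≤ M.lv (pre a (M.tt a (n + 1))) := by
    refine Mod.rg_le _ fun α hα => ?_
    have h4 := hα.trans (CatAuxA.pre_pf a b4.le)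
    by_cases e : α = pre a (M.tt a (n + 1))
    · exact le_of_eq (congrArg M.lv e)
    · exact ((h1 (n + 1)).2.1.2 α h4 e).le
  have c4 := (hG n).2.1.1 β b1
  rw [b5, Mod.lv_append, ← b5]
  push_cast
  nlinarith

end BtAuxA

open BtAuxA

theorem bt_mod (M : Mod) (S : Measure (ℕ → M.D)) [IsProbabilityMeasure S]
    (hw : ∀ γ, S (cyl γ) = M.w γ) (h0 : S M.Esc ≠ 0) : ∀ᵐ a ∂S, a ∈ M.Esc → a ∈ Bt M := by
  obtain ⟨hS, -, -⟩ := a_law M S hw h0
  have hP := a_reg a_i1 a_i2 M S hS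
  have := hP.1
  have f2 : M.EP (fun π => |M.lv π|) ≠ ⊤ := ne_top_of_le_ne_top (range_fin M S hw h0 M.L M.hL)
    (DetAuxA.EP_mono M fun π => Mod.abs_le_Rg M.L List.prefix_rfl)
  have hpos : ∀ᵐ a ∂(S[|M.Nn]), 0 < M.lv (M.pc a) := hP.2.2.1.mono fun a ha => by
    have := (ha 0).2
    simpa using this.1.2 [] List.nil_prefix this.2.1.symm
  have hi : Integrable (fun a => M.lv (M.pc a)) (S[|M.Nn]) := by
    refine ⟨(Mod.measurable_pc M.lv).aestronglyMeasurable, ?_⟩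
    rw [hasFiniteIntegral_iff_norm, a_int M _ hP fun π => ENNReal.ofReal ‖M.lv π‖]
    exact f2.lt_top
  have hnn : 0 ≤ᵐ[S[|M.Nn]] fun a => M.lv (M.pc a) := hpos.mono fun a ha => ha.le
  have hv : 0 < ∫ a, M.lv (M.pc a) ∂(S[|M.Nn]) := by
    refine (integral_nonneg_of_ae hnn).lt_of_ne' fun h0 => ?_
    obtain ⟨a, a1, a2⟩ := (hpos.and ((integral_eq_zero_iff_of_nonneg_ae hnn hi).1 h0)).exists
    exact a1.ne' a2
  have h : ∀ᵐ a ∂(S[|M.Nn]), a ∈ Bt M := by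
    filter_upwards [hP.2.2.1, a_slln a_int M _ M.lv hP f2] with a a0 a2
    exact det a0 hv a2
  have hm := meas_Bt M
  have h0 : S (M.Nn ∩ (Bt M)ᶜ) = 0 := by
    have h1 : (S[|M.Nn]) (Bt M)ᶜ = 0 := ae_iff.1 h
    rw [cond_apply Mod.meas_Nn, mul_eq_zero] at h1
    exact h1.resolve_left (ENNReal.inv_ne_zero.2 (measure_ne_top _ _))
  have h2 : S (⋃ α : {α : List M.D // M.Rc α},
      cyl α.1 ∩ sh α.1.length ⁻¹' (M.Nn ∩ (Bt M)ᶜ)) = 0 := by
    refine measure_iUnion_null fun α => ?_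
    rw [a_i1 M S hS.2.1 α.1 _ α.2 (Mod.meas_Nn.inter hm.compl) fun a ha => ha.1.1, h0, mul_zero]
  refine ae_iff.2 (measure_mono_null ?_ (measure_union_null (a_i2 M S hS) h2))
  intro a ha
  rw [Set.mem_ofPred_eq, Classical.not_imp] at ha
  by_cases hc : ∀ n, ¬ M.Cut a n
  · exact Or.inl ⟨ha.1, hc⟩
  · push Not at hc
    obtain ⟨n, -, h3, h4⟩ := hc
    refine Or.inr (Set.mem_iUnion.2 ⟨⟨pre a n, h3⟩, mem_cyl_pre a n, ?_⟩)
    rw [Set.mem_preimage, pre_length]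
    exact ⟨h4, fun h5 => ha.2 (shift h4.2 h5)⟩

theorem bt_one (d : ℕ)
    (μ : Measure ((Fin d → ℤ) → Fin d × Bool → ℕ → ℝ)) [IsProbabilityMeasure μ]
    (hind : iIndepFun (fun (z : Fin d → ℤ) (ω : (Fin d → ℤ) → Fin d × Bool → ℕ → ℝ) => ω z) μ)
    (hid : ∀ z : Fin d → ℤ,
      IdentDistrib (fun ω : (Fin d → ℤ) → Fin d × Bool → ℕ → ℝ => ω z) (fun ω => ω 0) μ μ)
    (hsum : ∀ᵐ ω ∂μ, ∀ z i, ∑ e, ω z e i = 1)
    (κ : ℝ) (hκ : 0 < κ) (hell : ∀ᵐ ω ∂μ, ∀ z e i, κ ≤ ω z e i)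
    (P₀ : Measure (ℕ → Fin d → ℤ)) [IsProbabilityMeasure P₀]
    (hP₀ : ∀ (e : ℕ → Fin d × Bool) (n : ℕ), P₀ {X | ∀ i ≤ n, X i = HD.pos e i} =
      ∫⁻ ω, ENNReal.ofReal (∏ i ∈ Finset.range n, ω (HD.pos e i) (e i) (HD.visits e i)) ∂μ)
    (l : Fin d → ℝ) (h0 : P₀ (Tr l) ≠ 0) :
    ∀ᵐ X ∂P₀, X ∈ Tr l → ∃ C N : ℕ, ∀ n, N ≤ n → ∀ k, k ≤ n →
      ∑ i, (X k i : ℝ) * l i ≤ C * ∑ i, (X n i : ℝ) * l i := by
  have hl := (lim_one d μ hind hid hsum κ hκ hell P₀ hP₀ l h0).1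
  have hd : 0 < d := Nat.pos_of_ne_zero (by
    rintro rfl
    exact hl (Subsingleton.elim _ _))
  obtain ⟨ν, hν, uel, hwt⟩ := s_nu d μ hd hind hid hsum κ hκ hell
  obtain ⟨S, hS1, hS, hA⟩ := s_law d ν P₀ hd fun e n => by rw [hP₀, hwt]
  obtain ⟨c, L, hL1, u, hu, v, hv, hc, hz, -⟩ :=
    s_pcs d ν _ (ENNReal.ofReal_pos.2 hκ).ne' uel l hl
  let M : Mod := ⟨Fin d × Bool, Fin d → ℤ, HD.step, ν, _, (ENNReal.ofReal_pos.2 hκ).ne', uel, L,
    hL1, u, hu, v, hv⟩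
  have e1 : ∀ e : ℕ → Fin d × Bool,
      (fun n => disp HD.step (pre e n)) ∈ Tr l ↔ e ∈ M.Esc := fun e => by
    simp only [Tr, Set.mem_ofPred_eq, hz]
    exact tendsto_const_mul_atTop_of_pos hc
  have h1 : S M.Esc ≠ 0 := by
    rw [hA _ (meas_Tr l)] at h0
    simpa only [e1, Set.ofPred_mem_eq] using h0
  have hm : MeasurableSet {X : ℕ → Fin d → ℤ | ¬ (X ∈ Tr l → ∃ C N : ℕ, ∀ n, N ≤ n → ∀ k, k ≤ n →
      ∑ i, (X k i : ℝ) * l i ≤ C * ∑ i, (X n i : ℝ) * l i)} :=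
    measurableSet_setOfPred.2 ((measurableSet_setOfPred.1 (meas_Tr l)).imp
      (Measurable.exists fun C => Measurable.exists fun N => Measurable.forall fun n =>
        measurable_const.imp (Measurable.forall fun k => measurable_const.imp
          (measurableSet_setOfPred.1
            (measurableSet_le (meas_dot l k) ((meas_dot l n).const_mul _)))))).not
  rw [ae_iff, hA _ hm]
  refine measure_mono_null (fun e he => ?_) (ae_iff.1 (bt_mod M S hS h1))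
  refine fun h => he fun h2 => ?_
  obtain ⟨C, N, h3⟩ := h ((e1 e).1 h2)
  refine ⟨C, N, fun n hn k hk => ?_⟩
  rw [hz, hz, mul_left_comm]
  exact mul_le_mul_of_nonneg_left
    ((Mod.le_rg (M := M) M.L (CatAuxA.pre_pf (D := M.D) e hk)).trans (h3 n hn)) hc.le

end Pool.Agent.MP_db8016_pr.BZ

end

section

/-! Zero-one law for directional transience of excited random walks in dimension at least three,
when the walk escapes fast enough in some direction with positive probability. -/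

namespace Pool.Agent.MP_db8016_pr.BZ
open MeasureTheory ProbabilityTheory Filter Pool.Agent.MP_db8016_pr.HD

theorem fast_all (d : ℕ) (hd : 3 ≤ d)
    (μ : Measure ((Fin d → ℤ) → Fin d × Bool → ℕ → ℝ)) [IsProbabilityMeasure μ]
    (hind : iIndepFun (fun (z : Fin d → ℤ) (ω : (Fin d → ℤ) → Fin d × Bool → ℕ → ℝ) => ω z) μ)
    (hid : ∀ z : Fin d → ℤ,
      IdentDistrib (fun ω : (Fin d → ℤ) → Fin d × Bool → ℕ → ℝ => ω z) (fun ω => ω 0) μ μ)
    (hsum : ∀ᵐ ω ∂μ, ∀ z i, ∑ e, ω z e i = 1)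
    (κ : ℝ) (hκ : 0 < κ) (hell : ∀ᵐ ω ∂μ, ∀ z e i, κ ≤ ω z e i)
    (P₀ : Measure (ℕ → Fin d → ℤ)) [IsProbabilityMeasure P₀]
    (hP₀ : ∀ (e : ℕ → Fin d × Bool) (n : ℕ), P₀ {X | ∀ i ≤ n, X i = pos e i} =
      ∫⁻ ω, ENNReal.ofReal (∏ i ∈ Finset.range n, ω (pos e i) (e i) (visits e i)) ∂μ)
    (l₀ : Fin d → ℝ) (a : ℝ) (ha : a = 1 ∨ 4 / ((d : ℝ) + 1) < a)
    (hfast : P₀ {X | ∃ v : ℝ, 0 < v ∧
      ∀ᶠ n : ℕ in atTop, v * (n : ℝ) ^ a ≤ ∑ j, (X n j : ℝ) * l₀ j} ≠ 0)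
    (l : Fin d → ℝ) :
    P₀ {X | Tendsto (fun n => ∑ j, (X n j : ℝ) * l j) atTop atTop} = 0 ∨
    P₀ {X | Tendsto (fun n => ∑ j, (X n j : ℝ) * l j) atTop atTop} = 1 := by
  obtain ⟨l₁, h₁⟩ : ∃ l₁ : Fin d → ℝ,
      P₀ {X | ∀ᶠ n : ℕ in atTop, (n : ℝ) ^ a ≤ ∑ j, (X n j : ℝ) * l₁ j} ≠ 0 := by
    by_contra h
    push Not at h
    refine hfast (measure_mono_null ?_ (measure_iUnion_null fun k : ℕ => h fun j => k * l₀ j))
    rintro X ⟨v, hv, hX⟩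
    obtain ⟨k, hk⟩ := exists_nat_ge v⁻¹
    refine Set.mem_iUnion.2 ⟨k, Eventually.mono hX fun n hn => ?_⟩
    have h0 : 0 ≤ (n : ℝ) ^ a := Real.rpow_nonneg (Nat.cast_nonneg n) a
    have h1 : 1 ≤ (k : ℝ) * v := by rwa [inv_le_iff_one_le_mul₀ hv] at hk
    calc (n : ℝ) ^ a ≤ k * (v * (n : ℝ) ^ a) := by
          rw [← mul_assoc]
          exact le_mul_of_one_le_left h0 h1
      _ ≤ k * ∑ j, (X n j : ℝ) * l₀ j := mul_le_mul_of_nonneg_left hn (Nat.cast_nonneg k)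
      _ = _ := by
          rw [Finset.mul_sum]
          exact Finset.sum_congr rfl fun j _ => mul_left_comm _ _ _
  have hl : l₁ ≠ 0 := by
    rintro rfl
    refine h₁ (measure_mono_null (fun X hX => ?_) measure_empty)
    obtain ⟨n, h1, h2⟩ := (Eventually.and hX (eventually_gt_atTop 0)).exists
    have h3 : (0 : ℝ) < (n : ℝ) ^ a := Real.rpow_pos_of_pos (by exact_mod_cast h2) a
    simp only [Pi.zero_apply, mul_zero, Finset.sum_const_zero] at h1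
    exact absurd h1 (not_le.2 h3)
  refine Pool.Agent.MP_db8016_pr.BZ.all_dirs d (by omega) μ hind hid hsum κ hκ hell P₀ hP₀ l₁ hl
    ?_ l
  rcases hd.eq_or_lt with rfl | hd4
  · have ha1 : 1 ≤ a := by
      rcases ha with h | h
      · exact h.ge
      · norm_num at h
        exact h.le
    refine Pool.Agent.MP_db8016_pr.BZ.ball3_thm μ hind hid hsum κ hκ hell P₀ hP₀ l₁ hl
      fun h0 => h₁ (measure_mono_null (fun X hX => ?_) h0)
    filter_upwards [hX, eventually_ge_atTop 1] with n h1 h2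
    exact (Real.self_le_rpow_of_one_le (by exact_mod_cast h2) ha1).trans h1
  · refine Pool.Agent.MP_db8016_pr.BZ.fast_thm d hd4 μ hind hid hsum κ hκ hell P₀ hP₀ l₁ hl a ?_ h₁
    rcases ha with rfl | h
    · have : (4 : ℝ) ≤ d := by exact_mod_cast hd4
      rw [div_lt_one (by positivity)]
      linarith
    · exact h

/-- It is enough that the largest distance from the origin grows fast. -/
theorem rad_all (d : ℕ) (hd : 3 ≤ d)
    (μ : Measure ((Fin d → ℤ) → Fin d × Bool → ℕ → ℝ)) [IsProbabilityMeasure μ]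
    (hind : iIndepFun (fun (z : Fin d → ℤ) (ω : (Fin d → ℤ) → Fin d × Bool → ℕ → ℝ) => ω z) μ)
    (hid : ∀ z : Fin d → ℤ,
      IdentDistrib (fun ω : (Fin d → ℤ) → Fin d × Bool → ℕ → ℝ => ω z) (fun ω => ω 0) μ μ)
    (hsum : ∀ᵐ ω ∂μ, ∀ z i, ∑ e, ω z e i = 1)
    (κ : ℝ) (hκ : 0 < κ) (hell : ∀ᵐ ω ∂μ, ∀ z e i, κ ≤ ω z e i)
    (P₀ : Measure (ℕ → Fin d → ℤ)) [IsProbabilityMeasure P₀]
    (hP₀ : ∀ (e : ℕ → Fin d × Bool) (n : ℕ), P₀ {X | ∀ i ≤ n, X i = pos e i} =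
      ∫⁻ ω, ENNReal.ofReal (∏ i ∈ Finset.range n, ω (pos e i) (e i) (visits e i)) ∂μ)
    (a : ℝ) (ha : a = 1 ∨ 4 / ((d : ℝ) + 1) < a)
    (hrad : P₀ {X | ∃ v : ℝ, 0 < v ∧
      ∀ᶠ n : ℕ in atTop, ∃ k ≤ n, ∃ j, v * (n : ℝ) ^ a ≤ |(X k j : ℝ)|} ≠ 0)
    (l : Fin d → ℝ) : P₀ (Tr l) = 0 ∨ P₀ (Tr l) = 1 := by
  by_cases h0 : P₀ (Tr l) = 0
  · exact Or.inl h0
  have ha0 : 0 < a := ha.elim (fun h => h ▸ one_pos) fun h => lt_trans (by positivity) h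
  have key : ∀ m : Fin d → ℝ, ∀ᵐ X ∂P₀, X ∈ Tr m → (∃ v : ℝ, 0 < v ∧
      ∀ᶠ n : ℕ in atTop, ∃ k ≤ n, ∃ j, v * (n : ℝ) ^ a ≤ |(X k j : ℝ)|) →
      ∃ v : ℝ, 0 < v ∧ ∀ᶠ n : ℕ in atTop, v * (n : ℝ) ^ a ≤ ∑ j, (X n j : ℝ) * m j := by
    intro m
    by_cases hm : P₀ (Tr m) = 0
    · filter_upwards [measure_eq_zero_iff_ae_notMem.1 hm] with X h1 h2
      exact absurd h2 h1
    obtain ⟨-, -, w, hw⟩ := lim_one d μ hind hid hsum κ hκ hell P₀ hP₀ m hm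
    filter_upwards [hw, bt_one d μ hind hid hsum κ hκ hell P₀ hP₀ m hm] with X h1 h2 h3
    rintro ⟨v, hv, h4⟩
    obtain ⟨C, N, h5⟩ := h2 h3
    let B : ℝ := ∑ j, |w j| + 1
    have hB : 0 < B := add_pos_of_nonneg_of_pos (Finset.sum_nonneg fun _ _ => abs_nonneg _) one_pos
    have h6 : ∀ᶠ k : ℕ in atTop, ∀ j, |(X k j : ℝ)| ≤ B * ∑ i, (X k i : ℝ) * m i := by
      filter_upwards [Tendsto.eventually_gt_atTop h3 0, eventually_all.2 fun j =>
        (h1 h3 j).abs.eventually_le_const (show |w j| < B from lt_add_of_le_of_pos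
          (Finset.single_le_sum (f := fun j => |w j|) (fun _ _ => abs_nonneg _)
            (Finset.mem_univ j)) one_pos)] with k a1 a2 j
      have a3 := a2 j
      rwa [abs_div, abs_of_pos a1, div_le_iff₀ a1] at a3
    obtain ⟨K, h6⟩ := eventually_atTop.1 h6
    have h7 : Tendsto (fun n : ℕ => v * (n : ℝ) ^ a) atTop atTop :=
      ((tendsto_rpow_atTop ha0).comp tendsto_natCast_atTop_atTop).const_mul_atTop hv
    refine ⟨v / (B * (C + 1)), by positivity, ?_⟩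
    filter_upwards [h4, eventually_ge_atTop N, Tendsto.eventually_ge_atTop h3 0,
      h7.eventually_gt_atTop (∑ k ∈ Finset.range K, ∑ j, |(X k j : ℝ)|)] with n a1 a2 a3 a4
    obtain ⟨k, b1, j, b2⟩ := a1
    have b3 : K ≤ k := by
      by_contra b4
      refine absurd (a4.trans_le b2) (not_lt.2 (le_trans ?_ (Finset.single_le_sum
        (f := fun k => ∑ j, |(X k j : ℝ)|) (fun _ _ => Finset.sum_nonneg fun _ _ => abs_nonneg _)
        (Finset.mem_range.2 (not_le.1 b4)))))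
      exact Finset.single_le_sum (f := fun j => |(X k j : ℝ)|) (fun _ _ => abs_nonneg _)
        (Finset.mem_univ j)
    rw [div_mul_eq_mul_div, div_le_iff₀ (by positivity)]
    have b4 := mul_le_mul_of_nonneg_left (h5 n a2 k b1) hB.le
    nlinarith [h6 k b3 j, mul_nonneg hB.le a3]
  have h1 := (lim_one d μ hind hid hsum κ hκ hell P₀ hP₀ l h0).2.1
  by_cases h2 : P₀ {X | ∃ v : ℝ, 0 < v ∧
      ∀ᶠ n : ℕ in atTop, v * (n : ℝ) ^ a ≤ ∑ j, (X n j : ℝ) * l j} = 0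
  · refine fast_all d hd μ hind hid hsum κ hκ hell P₀ hP₀ (-l) a ha (fun h3 => hrad ?_) l
    refine measure_eq_zero_iff_ae_notMem.2 ?_
    filter_upwards [measure_eq_zero_iff_ae_notMem.1 h1, measure_eq_zero_iff_ae_notMem.1 h2,
      measure_eq_zero_iff_ae_notMem.1 h3, key l, key (-l)] with X a1 a2 a3 a4 a5 a6
    exact (not_not.1 a1).elim (fun h => a2 (a4 h a6)) fun h => a3 (a5 h a6)
  · exact fast_all d hd μ hind hid hsum κ hκ hell P₀ hP₀ l a ha h2 l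

end Pool.Agent.MP_db8016_pr.BZ

end
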