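import Pool.Agent.Mg.Fdb8016p.Ga21f0b
import Pool.Agent.Mg.Fdb8016p.Gd35c6e

section

/-! Definitions and statements for the asymptotic direction. -/

namespace Pool.Agent.MP_db8016_pr.BZ
open MeasureTheory ProbabilityTheory Filter Topology
open scoped ENNReal Classical
open HD (sh)

namespace Mod
variable (M : Mod)

/-- The largest value of `e` along the path. -/
noncomputable def rg (e : M.Pt →+ ℝ) : List M.D → ℝ
  | [] => 0
  | d :: γ => max 0 (e (M.vec d) + rg e γ)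

/-- The range of `e` along the path. -/
noncomputable def Rg (e : M.Pt →+ ℝ) (γ : List M.D) : ℝ := M.rg e γ + M.rg (-e) γ

/-- The path stays in a cone. -/
def Con (e : M.Pt →+ ℝ) (lam : ℝ) (δ : List M.D) : Prop :=
  ∀ α, α <+: δ → |e (M.ds α)| ≤ lam * M.lv α

/-- The weight of the crossings inside the cone. -/
noncomputable def cn (e : M.Pt →+ ℝ) (lam h : ℝ) : ℝ≥0∞ :=
  M.sm {δ | M.Cross h δ ∧ M.Con e lam δ}

/-- The mean of the positive part of `f` over the pieces. -/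
noncomputable def EP (f : List M.D → ℝ) : ℝ≥0∞ :=
  ∑' π, if M.Irr π then M.w π * ENNReal.ofReal (f π) else 0

/-- First passage below `-y` without going above `0`. -/
def Dp (y : ℝ) (ζ : List M.D) : Prop :=
  (∀ β, β <+: ζ → β ≠ ζ → -y ≤ M.lv β ∧ M.lv β ≤ 0) ∧ M.lv ζ < -y

/-- The weight of the descents of depth `y` from the records below `h`. -/
noncomputable def Qd (h y : ℝ) : ℝ≥0∞ :=
  ∑' α, ∑' ζ, if M.Up α ∧ y < M.lv α ∧ M.lv α < h ∧ M.Dp y ζ then M.w (α ++ ζ) else 0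

/-- The stage `i` of the excursion from the record `α` begins after `ζ`. -/
def St : ℕ → List M.D → List M.D → Prop
  | 0, _, ζ => ζ = []
  | i + 1, α, ζ => (2 : ℝ) ^ i < M.lv α ∧ M.Dp (2 ^ i) ζ

/-- The weight of the beginnings of the stage `i`. -/
noncomputable def Qs (h : ℝ) (i : ℕ) : ℝ≥0∞ :=
  ∑' α, ∑' ζ, if M.Up α ∧ M.lv α < h ∧ M.St i α ζ then M.w (α ++ ζ) else 0

/-- The tilted level. -/
def th (e : M.Pt →+ ℝ) (lam : ℝ) (β : List M.D) : ℝ := e (M.ds β) + lam * M.lv β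

/-- After `ξ` the path stays in the levels `[H - y, H]`, passes a multiple of `Δ` in the tilted
level for the first time, and sees no visited site in the cone above it. -/
def Ex (e : M.Pt →+ ℝ) (lam Δ y H : ℝ) (ξ ρ : List M.D) : Prop :=
  ρ ≠ [] ∧ (∀ ρ', ρ' <+: ρ → H - y ≤ M.lv (ξ ++ ρ') ∧ M.lv (ξ ++ ρ') ≤ H) ∧
  (∃ a : ℤ, a * Δ ≤ M.th e lam (ξ ++ ρ) ∧
    ∀ ρ', ρ' <+: ρ → ρ' ≠ ρ → M.th e lam (ξ ++ ρ') < a * Δ) ∧
  ∀ b, b <+: ξ ++ ρ → b ≠ ξ ++ ρ → M.lv (ξ ++ ρ) ≤ M.lv b → M.th e lam b < M.th e lam (ξ ++ ρ)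

/-- The reward of the stages up to `I` that begin between `α₀` and `b`. -/
noncomputable def Tw (e : M.Pt →+ ℝ) (lam : ℕ → ℝ) (I : ℕ) (α₀ b : List M.D) : ℝ≥0∞ :=
  ∑ i ∈ Finset.range (I + 1), ∑' α, ∑' ζ,
    if M.Up α ∧ α₀ <+: α ∧ M.St i α ζ ∧ α ++ ζ <+: b then
      ENNReal.ofReal (6 * lam i * 2 ^ i) * (3 + ∑' ρ, if α ++ ζ ++ ρ <+: b ∧
        M.Ex e (lam i) (6 * lam i * 2 ^ i) (2 ^ i) (M.lv α) (α ++ ζ) ρ then 1 else 0)
    else 0

/-- The number of stages `i` that begin between `α₀` and `b`. -/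
noncomputable def Uw (i : ℕ) (α₀ b : List M.D) : ℝ≥0∞ :=
  ∑' α, ∑' ζ, if M.Up α ∧ α₀ <+: α ∧ M.St i α ζ ∧ α ++ ζ <+: b then 1 else 0

/-- The walk escapes. -/
def Esc : Set (ℕ → M.D) := {a | Tendsto (fun n => M.lv (pre a n)) atTop atTop}

/-- The walk escapes and never goes below its start. -/
def Nn : Set (ℕ → M.D) := {a | (∀ n, 0 ≤ M.lv (pre a n)) ∧ a ∈ M.Esc}

/-- A regeneration time. -/
def Cut (a : ℕ → M.D) (n : ℕ) : Prop := 0 < n ∧ M.Rc (pre a n) ∧ sh n a ∈ M.Nn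

/-- The first regeneration time. -/
noncomputable def tau (a : ℕ → M.D) : ℕ := if h : ∃ n, M.Cut a n then Nat.find h else 0

/-- The first piece. -/
noncomputable def pc (a : ℕ → M.D) : List M.D := pre a (M.tau a)

/-- The path after the first regeneration time. -/
noncomputable def Tn (a : ℕ → M.D) : ℕ → M.D := sh (M.tau a) a

/-- The regeneration times. -/
noncomputable def tt (a : ℕ → M.D) (n : ℕ) : ℕ := ∑ j ∈ Finset.range n, M.tau (M.Tn^[j] a)

/-- All the pieces exist. -/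
def Gd (a : ℕ → M.D) : Prop := ∀ j, M.Tn^[j] a ∈ M.Nn ∧ M.Irr (M.pc (M.Tn^[j] a))

/-- The law of the steps, with escape of positive probability. -/
def Law (S : Measure (ℕ → M.D)) : Prop :=
  IsProbabilityMeasure S ∧ (∀ γ, S (cyl γ) = M.w γ) ∧ S M.Nn ≠ 0

/-- The renewal structure under the law `P`. -/
def Reg (P : Measure (ℕ → M.D)) : Prop :=
  IsProbabilityMeasure P ∧ MeasurePreserving M.Tn P P ∧ (∀ᵐ a ∂P, M.Gd a) ∧
  ∀ π B, MeasurableSet B →
    P ({a | M.pc a = π} ∩ M.Tn ⁻¹' B) = (if M.Irr π then M.w π else 0) * P B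

/-- All heights are crossed with weight at least `p`. -/
def Cr (p : ℝ≥0∞) : Prop := p ≠ 0 ∧ ∀ h : ℝ, p ≤ M.sm {γ | M.Cross h γ}

/-- The functional changes by at most one in a step. -/
def Lip (e : M.Pt →+ ℝ) : Prop := ∀ d, |e (M.vec d)| ≤ 1

variable {M}

lemma rg_nonneg (e : M.Pt →+ ℝ) : ∀ γ, 0 ≤ M.rg e γ
  | [] => le_rfl
  | _ :: _ => le_max_left _ _

lemma le_rg (e : M.Pt →+ ℝ) : ∀ {γ α : List M.D}, α <+: γ → e (M.ds α) ≤ M.rg e γ
  | [], α, h => by rw [List.prefix_nil.1 h]; simp [rg]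
  | d :: γ, α, h => by
    rcases List.prefix_cons_iff.1 h with rfl | ⟨τ, rfl, h1⟩
    · simpa using rg_nonneg e (d :: γ)
    · rw [ds_cons, map_add]
      exact le_trans (by linarith [le_rg e h1]) (le_max_right 0 (e (M.vec d) + M.rg e γ))

lemma exists_rg (e : M.Pt →+ ℝ) : ∀ γ : List M.D, ∃ α, α <+: γ ∧ M.rg e γ = e (M.ds α)
  | [] => ⟨[], List.prefix_rfl, by simp [rg]⟩
  | d :: γ => by
    obtain ⟨α, h1, h2⟩ := exists_rg e γ
    rcases le_total 0 (e (M.vec d) + M.rg e γ) with h | h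
    · exact ⟨d :: α, List.prefix_cons_iff.2 (Or.inr ⟨α, rfl, h1⟩), by
        rw [rg, max_eq_right h, h2, ds_cons, map_add]⟩
    · exact ⟨[], List.nil_prefix, by rw [rg, max_eq_left h]; simp⟩

lemma rg_le (e : M.Pt →+ ℝ) {γ : List M.D} {r : ℝ} (h : ∀ α, α <+: γ → e (M.ds α) ≤ r) :
    M.rg e γ ≤ r := by
  obtain ⟨α, h1, h2⟩ := exists_rg e γ
  exact h2 ▸ h α h1

lemma rg_mono (e : M.Pt →+ ℝ) {γ α : List M.D} (h : α <+: γ) : M.rg e α ≤ M.rg e γ :=
  rg_le e fun _ h1 => le_rg e (h1.trans h)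

lemma rg_snoc {e : M.Pt →+ ℝ} (he : M.Lip e) (γ : List M.D) (d : M.D) :
    M.rg e (γ ++ [d]) ≤ M.rg e γ + 1 := by
  refine rg_le e fun α h => ?_
  rcases List.prefix_concat_iff.1 h with rfl | h1
  · simp only [ds_append, ds_cons, ds_nil, add_zero, map_add]
    linarith [le_rg e (List.prefix_rfl (l := γ)), (abs_le.1 (he d)).2]
  · linarith [le_rg e h1]

lemma Rg_nonneg (e : M.Pt →+ ℝ) (γ : List M.D) : 0 ≤ M.Rg e γ :=
  add_nonneg (rg_nonneg _ _) (rg_nonneg _ _)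

lemma abs_le_Rg (e : M.Pt →+ ℝ) {γ α : List M.D} (h : α <+: γ) : |e (M.ds α)| ≤ M.Rg e γ := by
  have h1 := le_rg e h
  have h2 := le_rg (-e) h
  rw [AddMonoidHom.neg_apply] at h2
  unfold Rg
  exact abs_le.2 ⟨by linarith [rg_nonneg e γ], by linarith [rg_nonneg (-e) γ]⟩

lemma Lip.neg {e : M.Pt →+ ℝ} (he : M.Lip e) : M.Lip (-e) := fun d => by simpa using he d

lemma cn_neg (e : M.Pt →+ ℝ) (lam h : ℝ) : M.cn (-e) lam h = M.cn e lam h := by
  simp [cn, Con]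

lemma Qs_zero (h : ℝ) : M.Qs h 0 = M.sm {α | M.Up α ∧ M.lv α < h} := by
  refine tsum_congr fun α => ?_
  rw [tsum_eq_single [] fun ζ hζ => if_neg fun h => hζ h.2.2]
  simp [St, Set.indicator_apply]

lemma Qs_succ (h : ℝ) (i : ℕ) : M.Qs h (i + 1) = M.Qd h (2 ^ i) :=
  tsum_congr fun _ => tsum_congr fun _ => if_congr
    ⟨fun h => ⟨h.1, h.2.2.1, h.2.1, h.2.2.2⟩, fun h => ⟨h.1, h.2.2.1, h.2.1, h.2.2.2⟩⟩ rfl rfl

/-- A family of extensions of `b` in which no member extends another one. -/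
lemma tsum_ext {ι : Type} (f : ι → List M.D) (b : List M.D) (h1 : ∀ i, b <+: f i)
    (h2 : ∀ i j, f i <+: f j → i = j) : ∑' i, M.w (f i) ≤ M.w b := by
  have hG : PF (Set.range f) := by
    rintro _ ⟨i, rfl⟩ _ ⟨j, rfl⟩ h
    rw [h2 i j h]
  refine (tsum_le_sm f (fun i j h => h2 i j (h ▸ List.prefix_rfl))
    fun i => Set.mem_range_self i).trans ?_
  rw [← P_iUnion hG 0, ← M.P_F 0]
  refine measure_mono (Set.iUnion₂_subset ?_)
  rintro _ ⟨i, rfl⟩
  obtain ⟨τ, h⟩ := h1 i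
  rw [← h]
  exact Fol_append_subset _ _ _ _

/-- Weights multiply when the two parts have no common site. -/
lemma w_append_of {γ δ : List M.D}
    (h : ∀ α β, α <+: γ → α ≠ γ → β <+: δ → β ≠ δ → M.ds α ≠ M.ds γ + M.ds β) :
    M.w (γ ++ δ) = M.w γ * M.w δ := by
  unfold w
  rw [wt_append_of_disjoint, wt_shift _ _ (0 + _)]
  refine Finset.disjoint_left.2 fun z h1 h2 => ?_
  obtain ⟨α, a1, a2, rfl⟩ := M.mem_pts.1 h1
  obtain ⟨β, b1, b2, e⟩ := M.mem_pts.1 h2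
  exact h α β a1 a2 b1 b2 (by simpa only [zero_add, ds] using e)

/-! ### Measurability -/

lemma meas_pre (P : List M.D → Prop) (n : ℕ) : MeasurableSet {a : ℕ → M.D | P (pre a n)} := by
  refine HD.Det.measurableSet (n := n) fun a a' h1 h2 => ?_
  have : pre a' n = pre a n :=
    List.map_congr_left fun i hi => h1 i (List.mem_range.1 hi)
  rwa [Set.mem_ofPred_eq, this]

lemma meas_Esc : MeasurableSet M.Esc :=
  measurableSet_tendsto atTop fun n => measurable_of_Iic fun t =>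
    meas_pre (fun γ => M.lv γ ≤ t) n

lemma meas_Nn : MeasurableSet M.Nn := by
  have : M.Nn = (⋂ n, {a | 0 ≤ M.lv (pre a n)}) ∩ M.Esc := by
    ext a
    simp [Nn]
  rw [this]
  exact (MeasurableSet.iInter fun n => meas_pre (fun γ => 0 ≤ M.lv γ) n).inter meas_Esc

lemma meas_Cut (n : ℕ) : MeasurableSet {a | M.Cut a n} :=
  (MeasurableSet.const _).inter ((meas_pre M.Rc n).inter (HD.measurable_sh n meas_Nn))

lemma tau_eq_iff {a : ℕ → M.D} {n : ℕ} (hn : 0 < n) :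
    M.tau a = n ↔ M.Cut a n ∧ ∀ k < n, ¬ M.Cut a k := by
  unfold tau
  split_ifs with h
  · exact Nat.find_eq_iff h
  · exact ⟨fun e => absurd e hn.ne, fun e => absurd ⟨n, e.1⟩ h⟩

lemma tau_eq_zero {a : ℕ → M.D} : M.tau a = 0 ↔ ∀ n, ¬ M.Cut a n := by
  unfold tau
  split_ifs with h
  · exact ⟨fun e => absurd (e ▸ Nat.find_spec h).1 (lt_irrefl 0),
      fun e => absurd (Nat.find_spec h) (e _)⟩
  · exact ⟨fun _ n e => h ⟨n, e⟩, fun _ => rfl⟩

lemma meas_tau (n : ℕ) : MeasurableSet {a | M.tau a = n} := by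
  rcases n.eq_zero_or_pos with rfl | hn
  · simp only [tau_eq_zero]
    exact measurableSet_setOfPred.2 (Measurable.forall fun k =>
      (measurableSet_setOfPred.1 (meas_Cut k)).not)
  · simp only [tau_eq_iff hn]
    exact (meas_Cut n).inter (measurableSet_setOfPred.2 (Measurable.forall fun k =>
      measurable_const.imp (measurableSet_setOfPred.1 (meas_Cut k)).not))

lemma measurable_tau : Measurable M.tau := measurable_to_countable' meas_tau

lemma measurable_Tn : Measurable M.Tn := by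
  have h : Measurable fun q : (ℕ → M.D) × ℕ => sh q.2 q.1 :=
    measurable_from_prod_countable_left fun n => HD.measurable_sh n
  exact h.comp (measurable_id.prodMk measurable_tau)

lemma meas_pc (π : List M.D) : MeasurableSet {a | M.pc a = π} := by
  have : {a | M.pc a = π} = {a | M.tau a = π.length} ∩ {a | pre a π.length = π} := by
    ext a
    constructor
    · rintro rfl
      exact ⟨by simp [pc], by simp [pc]⟩
    · rintro ⟨h1, h2⟩
      rw [Set.mem_ofPred_eq, pc, show M.tau a = _ from h1]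
      exact h2
  rw [this]
  exact (meas_tau _).inter (meas_pre (fun γ => γ = π) _)

lemma measurable_pc {β : Type} [MeasurableSpace β] (f : List M.D → β) :
    Measurable fun a => f (M.pc a) := by
  let _ : MeasurableSpace (List M.D) := ⊤
  have h : Measurable M.pc := measurable_to_countable' meas_pc
  exact (measurable_from_top (f := f)).comp h

end Mod

end Pool.Agent.MP_db8016_pr.BZ

end

section

/-! The statements that are passed between the files. -/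

namespace Pool.Agent.MP_db8016_pr.BZ
open MeasureTheory ProbabilityTheory Filter Topology
open scoped ENNReal Classical
open HD (sh)

/-! ### Weights of finite paths -/

/-- Records of which none is reached from another one without going down. -/
def A_Dis : Prop := ∀ (M : Mod) (p : ℝ≥0∞) (ι : Type) (g : ι → List M.D) (b : List M.D), M.Cr p →
  (∀ i, M.Rc (g i) ∧ b <+: g i) → (∀ i j τ, M.NN τ → g j = g i ++ τ → i = j) →
  p * ∑' i, M.w (g i) ≤ M.w b

/-- The mean number of descents below a given level. -/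
def A_Viol : Prop := ∀ (M : Mod) (p : ℝ≥0∞) (m : ℝ), M.Cr p → 0 < m →
  p * ∑' α, ∑' ζ, (if M.Up α ∧ m ≤ M.lv α ∧ M.Dp (M.lv α - m) ζ then M.w (α ++ ζ) else 0) ≤ 1

def A_Q : Prop := ∀ (M : Mod) (p : ℝ≥0∞) (h : ℝ), M.Cr p → 0 ≤ h →
  ∑' i : ℕ, 2 ^ i * M.Qs h i ≤ ENNReal.ofReal (h + 1) * (8 * (M.κ⁻¹ + p⁻¹))

def A_Low : Prop := ∀ (M : Mod) (p : ℝ≥0∞) (n : ℕ) (t : ℝ), M.Cr p → (n : ℝ) ≤ t →
  n * p ≤ M.sm {α | M.Up α ∧ M.lv α < t}

/-- Exposed passages are followed by an escape in the cone. -/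
def A_Exp : Prop := ∀ (M : Mod) (e : M.Pt →+ ℝ) (lam Δ y H : ℝ) (ξ b : List M.D), M.Lip e →
  0 ≤ lam → 0 ≤ y → 2 * lam * (y + 1) + lam + 1 ≤ Δ →
  M.cn e lam (y + 1) * ∑' ρ, (if M.Ex e lam Δ y H ξ ρ ∧ b <+: ξ ++ ρ then M.w (ξ ++ ρ) else 0) ≤
    M.w b

/-- The growth of `e` in one stage. -/
def A_G1 : Prop := ∀ (M : Mod) (e : M.Pt →+ ℝ) (lam Δ y H l₀ m₀ : ℝ) (ξ ρ : List M.D), M.Lip e →
  0 ≤ lam → 0 ≤ y → lam * y ≤ Δ → lam + 1 ≤ Δ →
  (∀ b, b <+: ξ → M.lv b ≤ H ∧ (l₀ ≤ M.lv b → e (M.ds b) ≤ m₀)) →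
  (∀ ρ', ρ' <+: ρ → H - y ≤ M.lv (ξ ++ ρ') ∧ M.lv (ξ ++ ρ') ≤ H ∧ l₀ ≤ M.lv (ξ ++ ρ')) →
  ENNReal.ofReal (e (M.ds (ξ ++ ρ)) - m₀) ≤
    ENNReal.ofReal Δ * (2 + ∑' ρ', if ρ' <+: ρ ∧ M.Ex e lam Δ y H ξ ρ' then 1 else 0)

/-- The present stage of a path. -/
def A_Stg : Prop := ∀ (M : Mod) (α₀ τ : List M.D), M.Up α₀ → M.NN τ →
  ∃ α ζ ρ i, α₀ ++ τ = α ++ ζ ++ ρ ∧ M.Up α ∧ α₀ <+: α ∧ M.St i α ζ ∧
    (∀ β, β <+: ζ ++ ρ → -(2 : ℝ) ^ i ≤ M.lv β ∧ M.lv β ≤ 0) ∧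
    ∀ j ≤ i, ∃ ζ', M.St j α ζ' ∧ ζ' <+: ζ

def A_G2 : Prop := ∀ (M : Mod) (e : M.Pt →+ ℝ) (lam : ℕ → ℝ) (I : ℕ) (x : ℝ) (α₀ τ : List M.D),
  M.Lip e → (∀ i, 1 ≤ lam i) → M.Up α₀ → M.NN τ →
  ENNReal.ofReal (min (M.rg e τ) x) ≤
    M.Tw e lam I α₀ (α₀ ++ τ) + ENNReal.ofReal x * M.Uw (I + 1) α₀ (α₀ ++ τ)

/-- The piece that lies astride of `b`. -/
def A_G3 : Prop := ∀ (M : Mod) (p : ℝ≥0∞) (b : List M.D), M.Cr p →
  p * ∑' α₀, ∑' π, (if M.Up α₀ ∧ M.Irr π ∧ α₀ <+: b ∧ b <+: α₀ ++ π ∧ b ≠ α₀ ++ π then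
    M.w (α₀ ++ π) else 0) ≤ M.w b

def A_F : Prop := ∀ (M : Mod) (e : M.Pt →+ ℝ) (p c : ℝ≥0∞) (lam : ℕ → ℝ) (I : ℕ) (x s h : ℝ),
  M.Lip e → M.Cr p → c ≠ 0 → (∀ i, 1 ≤ lam i) → (∀ i ≤ I, c ≤ M.cn e (lam i) (2 ^ i + 1)) →
  p * (M.sm {α | M.Up α ∧ M.lv α < h - s} *
      M.EP fun π => if M.lv π ≤ s then min (M.rg e π - 1) x else 0) ≤
    ∑ i ∈ Finset.range (I + 1), ENNReal.ofReal (6 * lam i * 2 ^ i) * (3 + c⁻¹) * M.Qs h i +
      ENNReal.ofReal x * M.Qs h (I + 1)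

/-! ### Analysis -/

def A_Ult : Prop := ∀ (Q : ℕ → ℕ → ℝ≥0∞) (B : ℝ≥0∞), (∀ᶠ h in atTop, ∑' i, Q h i ≤ B) →
  ∃ q : ℕ → ℝ≥0∞, ∑' i, q i ≤ B ∧ ∀ (n : ℕ) (c : ℕ → ℝ≥0∞) (a : ℝ≥0∞), (∀ i, c i ≠ ⊤) →
    (∀ᶠ h in atTop, a ≤ ∑ i ∈ Finset.range n, c i * Q h i) → a ≤ ∑ i ∈ Finset.range n, c i * q i

def A_Gron : Prop := ∀ (F : ℝ → ℝ) (η : ℕ → ℝ) (K C : ℝ) (Good : ℝ → ℕ → Prop), Monotone F →
  (∀ i, 0 ≤ η i) → Summable η → 0 < K → 0 < C →
  (∀ ε : ℝ, 0 < ε → ∃ x₀ : ℝ, ∀ x, x₀ ≤ x → F x ≤ ε * x) →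
  (∀ (lam x : ℝ) (i : ℕ), 2 ≤ lam → 0 < x → F x ≤ lam / C → (2 ^ i + 2) * F x ≤ x / C →
    Good lam i) →
  (∀ (I : ℕ) (lam : ℕ → ℝ) (x : ℝ), (∀ i, 2 ≤ lam i) → (∀ i ≤ I, Good (lam i) i) → 0 < x →
    F x ≤ K * (1 + ∑ i ∈ Finset.range (I + 1), lam i * η i + x / 2 ^ I * η (I + 1))) →
  ∃ B : ℝ, ∀ x, F x ≤ B

/-- The bound for the truncated mean range. -/
def A_F2 : Prop := ∀ (M : Mod) (e : M.Pt →+ ℝ) (p c : ℝ≥0∞), M.Lip e → M.Cr p → c ≠ 0 →
  ∃ (η : ℕ → ℝ) (K : ℝ), (∀ i, 0 ≤ η i) ∧ Summable η ∧ 0 < K ∧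
    ∀ (I : ℕ) (lam : ℕ → ℝ) (x : ℝ), (∀ i, 2 ≤ lam i) →
      (∀ i ≤ I, c ≤ M.cn e (lam i) (2 ^ i + 1)) → 0 < x →
      M.EP (fun π => min (M.Rg e π) x) ≤ ENNReal.ofReal
        (K * (1 + ∑ i ∈ Finset.range (I + 1), lam i * η i + x / 2 ^ I * η (I + 1)))

/-- The conclusion of the cone lemma. -/
def Mod.Cone (M : Mod) (e : M.Pt →+ ℝ) (c : ℝ≥0∞) (C : ℝ) : Prop :=
  ∀ lam x h : ℝ, 2 ≤ lam → 0 < x → 0 ≤ h →
    M.EP (fun π => min (M.Rg e π) x) ≤ ENNReal.ofReal (lam / C) →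
    ENNReal.ofReal (h + 1) * M.EP (fun π => min (M.Rg e π) x) ≤ ENNReal.ofReal (x / C) →
    c ≤ M.cn e lam h

def A_Fin : Prop := ∀ (M : Mod) (e : M.Pt →+ ℝ) (p c : ℝ≥0∞) (C : ℝ), M.Lip e → M.Cr p → c ≠ 0 →
  0 < C → M.Cone e c C → M.EP (M.Rg e) ≠ ⊤

/-! ### Regeneration -/

def A_I1 : Prop := ∀ (M : Mod) (S : Measure (ℕ → M.D)) [IsProbabilityMeasure S],
  (∀ γ, S (cyl γ) = M.w γ) → ∀ (α : List M.D) (B : Set (ℕ → M.D)), M.Rc α → MeasurableSet B →
  (∀ a ∈ B, ∀ n, 0 ≤ M.lv (pre a n)) → S (cyl α ∩ sh α.length ⁻¹' B) = M.w α * S B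

def A_I2 : Prop := ∀ (M : Mod) (S : Measure (ℕ → M.D)), M.Law S →
  S {a | a ∈ M.Esc ∧ ∀ n, ¬ M.Cut a n} = 0

def A_Law : Prop := ∀ (M : Mod) (S : Measure (ℕ → M.D)) [IsProbabilityMeasure S],
  (∀ γ, S (cyl γ) = M.w γ) → S M.Esc ≠ 0 →
  M.Law S ∧ M.Cr (S M.Nn) ∧ S (M.Esc ∪ M.neg.Esc)ᶜ = 0

def A_Reg : Prop := ∀ (M : Mod) (S : Measure (ℕ → M.D)), M.Law S → M.Reg (S[|M.Nn])

def A_Int : Prop := ∀ (M : Mod) (P : Measure (ℕ → M.D)), M.Reg P → ∀ f : List M.D → ℝ≥0∞,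
  ∫⁻ a, f (M.pc a) ∂P = ∑' π, if M.Irr π then M.w π * f π else 0

/-- The path is the concatenation of its pieces. -/
def A_Cat : Prop := ∀ (M : Mod) (a : ℕ → M.D), M.Gd a →
  (∀ n, M.Tn^[n] a = sh (M.tt a n) a ∧ M.Up (pre a (M.tt a n)) ∧
    pre a (M.tt a (n + 1)) = pre a (M.tt a n) ++ M.pc (M.Tn^[n] a) ∧
    M.ds (pre a (M.tt a n)) = ∑ j ∈ Finset.range n, M.ds (M.pc (M.Tn^[j] a))) ∧
  StrictMono (M.tt a) ∧
  ∀ k, ∃ n β, β <+: M.pc (M.Tn^[n] a) ∧ β ≠ M.pc (M.Tn^[n] a) ∧ M.tt a n ≤ k ∧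
    k < M.tt a (n + 1) ∧ pre a k = pre a (M.tt a n) ++ β

/-- The maximal ergodic lemma. -/
def A_Gar : Prop := ∀ (Ω : Type) [MeasurableSpace Ω] (P : Measure Ω) [IsProbabilityMeasure P]
  (T : Ω → Ω) (f : Ω → ℝ) (B : ℝ), MeasurePreserving T P P → Measurable f → (∀ a, |f a| ≤ B) →
  0 ≤ ∫ a in {a | ∃ n, 0 < ∑ i ∈ Finset.range n, f (T^[i] a)}, f a ∂P

def A_Max : Prop := ∀ (Ω : Type) [MeasurableSpace Ω] (P : Measure Ω) [IsProbabilityMeasure P]
  (T : Ω → Ω) (v : Ω → ℝ), MeasurePreserving T P P → Measurable v → (∀ᵐ a ∂P, 0 < v a) →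
  ∃ C : ℝ, 0 < C ∧ ∀ (r : Ω → ℝ) (x lam : ℝ), Measurable r → (∀ a, 0 ≤ r a ∧ r a ≤ x) → 0 < lam →
    ∫⁻ a, ENNReal.ofReal (r a) ∂P ≤ ENNReal.ofReal (lam / C) →
    P {a | ∃ n, lam * ∑ i ∈ Finset.range n, v (T^[i] a) <
      ∑ i ∈ Finset.range n, r (T^[i + 1] a)} ≤ 2⁻¹

/-- A piece that begins below `h` has a large range. -/
def A_Big : Prop := ∀ (M : Mod) (S : Measure (ℕ → M.D)) (e : M.Pt →+ ℝ) (x h : ℝ), M.Law S →
  0 < x → 0 ≤ h →
  ENNReal.ofReal x * (S[|M.Nn]) {a | M.Gd a ∧ ∃ n, M.lv (pre a (M.tt a n)) < h ∧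
      x < M.Rg e (M.pc (M.Tn^[n] a))} ≤
    ENNReal.ofReal (h + 1) * M.κ⁻¹ * M.EP fun π => min (M.Rg e π) x

/-- The deterministic part of the cone lemma. -/
def A_Con2 : Prop := ∀ (M : Mod) (e : M.Pt →+ ℝ) (lam h : ℝ) (a : ℕ → M.D), M.Lip e → 1 ≤ lam →
  M.Gd a → (∀ n, M.lv (pre a (M.tt a n)) < h →
    ∑ j ∈ Finset.range (n + 1), M.Rg e (M.pc (M.Tn^[j] a)) ≤
      lam - 1 + lam * ∑ j ∈ Finset.range n, M.lv (M.pc (M.Tn^[j] a))) →
  ∃ γ, γ <+: M.u :: pre a γ.length ∧ M.Cross h γ ∧ M.Con e lam γ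

def A_Cone : Prop := ∀ (M : Mod) (S : Measure (ℕ → M.D)) (e : M.Pt →+ ℝ), M.Law S → M.Lip e →
  ∃ (c : ℝ≥0∞) (C : ℝ), c ≠ 0 ∧ 0 < C ∧ M.Cone e c C

def A_SLLN : Prop := ∀ (M : Mod) (P : Measure (ℕ → M.D)) (f : List M.D → ℝ), M.Reg P →
  M.EP (fun π => |f π|) ≠ ⊤ →
  ∀ᵐ a ∂P, Tendsto (fun n : ℕ => (∑ i ∈ Finset.range n, f (M.pc (M.Tn^[i] a))) / n) atTop
    (𝓝 (∫ a, f (M.pc a) ∂P))

def A_Det : Prop := ∀ (M : Mod) (e : M.Pt →+ ℝ) (a : ℕ → M.D) (u v r : ℝ), M.Gd a → 0 < v →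
  Tendsto (fun n : ℕ => (∑ i ∈ Finset.range n, e (M.ds (M.pc (M.Tn^[i] a)))) / n) atTop (𝓝 u) →
  Tendsto (fun n : ℕ => (∑ i ∈ Finset.range n, M.lv (M.pc (M.Tn^[i] a))) / n) atTop (𝓝 v) →
  Tendsto (fun n : ℕ => (∑ i ∈ Finset.range n, M.Rg e (M.pc (M.Tn^[i] a))) / n) atTop (𝓝 r) →
  Tendsto (fun k => e (M.ds (pre a k)) / M.lv (pre a k)) atTop (𝓝 (u / v))

/-- The limit along the paths that never go below the start. -/
def A_Lim0 : Prop := ∀ (M : Mod) (P : Measure (ℕ → M.D)) (e : M.Pt →+ ℝ), M.Reg P →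
  M.EP (M.Rg e) ≠ ⊤ → M.EP (M.Rg M.L) ≠ ⊤ →
  ∃ v : ℝ, ∀ᵐ a ∂P, Tendsto (fun k => e (M.ds (pre a k)) / M.lv (pre a k)) atTop (𝓝 v)

/-- From these paths to all the paths that escape. -/
def A_Lim1 : Prop := ∀ (M : Mod) (S : Measure (ℕ → M.D)) (e : M.Pt →+ ℝ) (v : ℝ), M.Law S →
  (∀ᵐ a ∂(S[|M.Nn]), Tendsto (fun k => e (M.ds (pre a k)) / M.lv (pre a k)) atTop (𝓝 v)) →
  ∀ᵐ a ∂S, a ∈ M.Esc → Tendsto (fun k => e (M.ds (pre a k)) / M.lv (pre a k)) atTop (𝓝 v)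

def A_Lim : Prop := ∀ (M : Mod) (S : Measure (ℕ → M.D)) [IsProbabilityMeasure S]
  (e : M.Pt →+ ℝ), (∀ γ, S (cyl γ) = M.w γ) → S M.Esc ≠ 0 → M.Lip e →
  S (M.Esc ∪ M.neg.Esc)ᶜ = 0 ∧
  ∃ v : ℝ, ∀ᵐ a ∂S, a ∈ M.Esc → Tendsto (fun k => e (M.ds (pre a k)) / M.lv (pre a k)) atTop (𝓝 v)

end Pool.Agent.MP_db8016_pr.BZ

end

section

/-! A piece that begins below a given level has a large range. -/

namespace Pool.Agent.MP_db8016_pr.BZ
open MeasureTheory ProbabilityTheory Filter Topology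
open scoped ENNReal Classical
open HD (sh)

theorem a_big (hI1 : A_I1) (hCat : A_Cat) : A_Big := by
  intro M S e x h ⟨hS, hw, h0⟩ hx hh
  obtain ⟨X, hX⟩ : ∃ X, X = {a | M.Gd a ∧ ∃ n, M.lv (pre a (M.tt a n)) < h ∧
    x < M.Rg e (M.pc (M.Tn^[n] a))} := ⟨_, rfl⟩
  rw [← hX]
  have h1 : X ⊆ ⋃ α, ⋃ π, if (M.Up α ∧ M.lv α < h) ∧ M.Irr π ∧ x < M.Rg e π then
      cyl (α ++ π) ∩ sh (α ++ π).length ⁻¹' M.Nn else ∅ := by
    rw [hX]
    rintro a ⟨ha, n, a1, a2⟩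
    obtain ⟨c, -⟩ := hCat M a ha
    refine Set.mem_iUnion₂.2 ⟨pre a (M.tt a n), M.pc (M.Tn^[n] a), ?_⟩
    rw [if_pos ⟨⟨(c n).2.1, a1⟩, (ha n).2, a2⟩, ← (c n).2.2.1, pre_length]
    refine ⟨mem_cyl_pre _ _, ?_⟩
    rw [Set.mem_preimage, ← (c (n + 1)).1]
    exact (ha _).1
  have h2 : S X ≤ M.sm {α | M.Up α ∧ M.lv α < h} *
      (∑' π, if M.Irr π ∧ x < M.Rg e π then M.w π else 0) * S M.Nn := by
    refine (measure_mono h1).trans ((measure_iUnion_le _).trans ?_)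
    rw [Mod.sm, mul_assoc, ← ENNReal.tsum_mul_right]
    refine ENNReal.tsum_le_tsum fun α => (measure_iUnion_le _).trans ?_
    rw [← ENNReal.tsum_mul_right, ← ENNReal.tsum_mul_left]
    refine ENNReal.tsum_le_tsum fun π => ?_
    split_ifs with c1 c2
    · rw [hI1 M S hw _ _ (c1.1.1.append c2.1.1).2 Mod.meas_Nn fun a ha => ha.1,
        Mod.w_append c1.1.1.2 c2.1.1.1, Set.indicator_of_mem (s := {α | M.Up α ∧ M.lv α < h}) c1.1,
        mul_assoc]
    · exact absurd c1.2 c2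
    · simp
    · simp
  have h3 : (S[|M.Nn]) X ≤ M.sm {α | M.Up α ∧ M.lv α < h} *
      ∑' π, if M.Irr π ∧ x < M.Rg e π then M.w π else 0 := by
    rw [cond_apply Mod.meas_Nn]
    refine (mul_le_mul_right ((measure_mono Set.inter_subset_right).trans h2) _).trans ?_
    rw [mul_comm, mul_assoc, ENNReal.mul_inv_cancel h0 (measure_ne_top _ _), mul_one]
  have h4 : ENNReal.ofReal x * (∑' π, if M.Irr π ∧ x < M.Rg e π then M.w π else 0) ≤
      M.EP fun π => min (M.Rg e π) x := by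
    rw [← ENNReal.tsum_mul_left]
    refine ENNReal.tsum_le_tsum fun π => ?_
    by_cases c : M.Irr π ∧ x < M.Rg e π
    · simp only [if_pos c, if_pos c.1, min_eq_right c.2.le]
      rw [mul_comm]
    · simp [if_neg c]
  refine (mul_le_mul_right h3 _).trans ?_
  rw [mul_left_comm]
  exact mul_le_mul' (Mod.up_lt hh) h4

end Pool.Agent.MP_db8016_pr.BZ

end

section

/-! From the regeneration times to all times. -/

namespace Pool.Agent.MP_db8016_pr.BZ
open MeasureTheory ProbabilityTheory Filter Topology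
open scoped ENNReal Classical

namespace DetAuxA

lemma term {y : ℕ → ℝ} {r : ℝ}
    (h : Tendsto (fun n : ℕ => (∑ i ∈ Finset.range n, y i) / n) atTop (𝓝 r)) :
    Tendsto (fun n : ℕ => y n / n) atTop (𝓝 0) := by
  have h1 : Tendsto (fun n : ℕ => 1 + (n : ℝ)⁻¹) atTop (𝓝 (1 + 0)) :=
    tendsto_inv_atTop_nhds_zero_nat.const_add 1
  have h2 := ((h.comp (tendsto_add_atTop_nat 1)).mul h1).sub h
  rw [add_zero, mul_one, sub_self] at h2
  refine h2.congr' ?_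
  filter_upwards [eventually_gt_atTop 0] with n hn
  have : (0 : ℝ) < n := by exact_mod_cast hn
  simp only [Function.comp, Finset.sum_range_succ]
  push_cast
  field_simp
  ring

lemma along {x y z : ℕ → ℝ} {n : ℕ → ℕ} {u r : ℝ} (hn : Tendsto n atTop atTop)
    (hx : Tendsto (fun n : ℕ => (∑ i ∈ Finset.range n, x i) / n) atTop (𝓝 u))
    (hy : Tendsto (fun n : ℕ => (∑ i ∈ Finset.range n, y i) / n) atTop (𝓝 r))
    (hz : ∀ k, |z k| ≤ y (n k)) :
    Tendsto (fun k => (∑ i ∈ Finset.range (n k), x i + z k) / n k) atTop (𝓝 u) := by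
  have h1 : Tendsto (fun k => z k / n k) atTop (𝓝 0) := by
    refine squeeze_zero_norm (fun k => ?_) ((term hy).comp hn)
    rw [Real.norm_eq_abs, abs_div, Nat.abs_cast]
    exact div_le_div_of_nonneg_right (hz k) (Nat.cast_nonneg _)
  have h2 := (hx.comp hn).add h1
  rw [add_zero] at h2
  exact h2.congr fun k => by simp only [Function.comp, add_div]

lemma EP_mono (M : Mod) {f g : List M.D → ℝ} (h : ∀ π, f π ≤ g π) : M.EP f ≤ M.EP g := by
  refine ENNReal.tsum_le_tsum fun π => ?_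
  split_ifs
  · exact mul_le_mul_right (ENNReal.ofReal_le_ofReal (h π)) _
  · exact le_rfl

end DetAuxA

open DetAuxA

theorem a_det (hCat : A_Cat) : A_Det := by
  intro M e a u v r hG hv hu hv' hr
  obtain ⟨h1, hm, h3⟩ := hCat M a hG
  choose n β b1 b2 _ b4 b5 using h3
  have hn : Tendsto n atTop atTop := tendsto_atTop_atTop.2 fun b => ⟨M.tt a b, fun k hk =>
    Nat.lt_succ_iff.1 (hm.lt_iff_lt.1 (hk.trans_lt (b4 k)))⟩
  have t1 := along hn hu hr fun k => Mod.abs_le_Rg e (b1 k)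
  have t2 := along (z := fun k => M.lv (β k)) hn hv' hv' fun k => by
    have hU := (hG (n k)).2.1
    rw [abs_of_nonneg (hU.1 _ (b1 k))]
    exact (hU.2 _ (b1 k) (b2 k)).le
  refine (t1.div t2 hv.ne').congr' ?_
  filter_upwards [hn.eventually (eventually_gt_atTop 0)] with k hk
  have h0 : ((n k : ℕ) : ℝ) ≠ 0 := by exact_mod_cast hk.ne'
  rw [Pi.div_apply, div_div_div_cancel_right₀ h0, b5 k]
  simp only [Mod.lv, Mod.ds_append, (h1 (n k)).2.2.2, map_add, map_sum]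

theorem a_lim0 (hSLLN : A_SLLN) (hDet : A_Det) (hInt : A_Int) : A_Lim0 := by
  intro M P e hP h1 h2
  have := hP.1
  have f1 : M.EP (fun π => |e (M.ds π)|) ≠ ⊤ := ne_top_of_le_ne_top h1
    (EP_mono M fun π => Mod.abs_le_Rg e List.prefix_rfl)
  have f2 : M.EP (fun π => |M.lv π|) ≠ ⊤ := ne_top_of_le_ne_top h2
    (EP_mono M fun π => Mod.abs_le_Rg M.L List.prefix_rfl)
  have f3 : M.EP (fun π => |M.Rg e π|) ≠ ⊤ := ne_top_of_le_ne_top h1
    (EP_mono M fun π => (abs_of_nonneg (Mod.Rg_nonneg e π)).le)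
  have hpos : ∀ᵐ a ∂P, 0 < M.lv (M.pc a) := hP.2.2.1.mono fun a ha => by
    have := (ha 0).2
    simpa using this.1.2 [] List.nil_prefix this.2.1.symm
  have hi : Integrable (fun a => M.lv (M.pc a)) P := by
    refine ⟨(Mod.measurable_pc M.lv).aestronglyMeasurable, ?_⟩
    rw [hasFiniteIntegral_iff_norm, hInt M P hP fun π => ENNReal.ofReal ‖M.lv π‖]
    exact f2.lt_top
  have hnn : 0 ≤ᵐ[P] fun a => M.lv (M.pc a) := hpos.mono fun a ha => ha.le
  have hv : 0 < ∫ a, M.lv (M.pc a) ∂P := by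
    refine (integral_nonneg_of_ae hnn).lt_of_ne' fun h0 => ?_
    obtain ⟨a, a1, a2⟩ := (hpos.and ((integral_eq_zero_iff_of_nonneg_ae hnn hi).1 h0)).exists
    exact a1.ne' a2
  refine ⟨(∫ a, e (M.ds (M.pc a)) ∂P) / ∫ a, M.lv (M.pc a) ∂P, ?_⟩
  filter_upwards [hP.2.2.1, hSLLN M P (fun π => e (M.ds π)) hP f1, hSLLN M P M.lv hP f2,
    hSLLN M P (M.Rg e) hP f3] with a a0 a1 a2 a3
  exact hDet M e a _ _ _ a0 hv a1 a2 a3

end Pool.Agent.MP_db8016_pr.BZ

end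

section

namespace Pool.Agent.MP_db8016_pr.BZ
open scoped ENNReal Classical

namespace DisAuxA
open _root_.Pool.Agent.MP_db8016_pr.BZ.Mod

variable {M : Mod}

lemma idx {γ γ' δ δ' : List M.D} {H : ℝ} (h' : M.Rc γ') (hH : M.lv γ' < H)
    (hδ : M.Cross (H - M.lv γ) δ) (hδ' : M.NN δ') (h : γ ++ δ <+: γ' ++ δ') :
    (∃ τ, M.NN τ ∧ γ' = γ ++ τ) ∨ ∃ τ, M.NN τ ∧ γ = γ' ++ τ := by
  rcases List.prefix_or_prefix_of_prefix ((List.prefix_append γ δ).trans h)
    (List.prefix_append γ' δ') with ⟨t, rfl⟩ | ⟨t, rfl⟩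
  · rw [List.append_assoc, List.prefix_append_right_inj] at h
    rcases List.prefix_or_prefix_of_prefix (List.prefix_append t δ') h with h1 | h1
    · exact Or.inl ⟨t, hδ.1.of_pf h1, rfl⟩
    · exfalso
      have h2 := hδ.2.1
      by_cases e : δ = t
      · rw [← e, lv_append] at hH
        linarith
      · have h3 := h' (γ ++ δ) ((List.prefix_append_right_inj γ).2 h1) (by simpa using e)
        rw [M.lv_append γ δ] at h3
        linarith
  · rw [List.append_assoc, List.prefix_append_right_inj] at h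
    exact Or.inr ⟨t, hδ'.of_pf ((List.prefix_append t δ).trans h), rfl⟩

lemma astride {α α' π π' b τ : List M.D} (h1 : M.Up α) (h2 : M.Irr π) (h3 : α <+: b)
    (h4 : b <+: α ++ π) (h5 : b ≠ α ++ π) (h1' : M.Up α') (h2' : M.Irr π') (h3' : α' <+: b)
    (hτ : M.NN τ) (e : α' ++ π' = α ++ π ++ τ) : α = α' ∧ π = π' := by
  have e1 : α = α' := by
    rcases List.prefix_or_prefix_of_prefix h3 h3' with ⟨s, rfl⟩ | ⟨s, rfl⟩
    · obtain ⟨p2, rfl⟩ := (List.prefix_append_right_inj α).1 (h3'.trans h4)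
      have e2 : π' = p2 ++ τ := by simpa using e
      have hp : p2 ≠ [] := by
        rintro rfl
        rw [List.append_nil] at h4 h5
        exact h5 (h4.eq_of_length_le h3'.length_le)
      have := (h2.2.2 s p2 rfl ⟨h2.1.1.of_pf (List.prefix_append _ _), h1'.2.of_append⟩
        ⟨h2'.1.1.of_pf (e2 ▸ List.prefix_append _ _), h2.1.2.of_append⟩).resolve_right hp
      rw [this, List.append_nil]
    · have e2 : π' = s ++ (π ++ τ) := by simpa using e
      have := (h2'.2.2 s (π ++ τ) e2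
        ⟨h2'.1.1.of_pf (e2 ▸ List.prefix_append _ _), h1.2.of_append⟩
        ⟨h2.1.1.append hτ, Rc.of_append (e2 ▸ h2'.1.2)⟩).resolve_right (by simp [h2.2.1])
      rw [this, List.append_nil]
  subst e1
  have e2 : π' = π ++ τ := by simpa using e
  have := (h2'.2.2 π τ e2 h2.1 ⟨hτ, Rc.of_append (e2 ▸ h2'.1.2)⟩).resolve_left h2.2.1
  rw [e2, this, List.append_nil]
  exact ⟨rfl, rfl⟩

end DisAuxA

open DisAuxA

theorem a_dis : A_Dis := by
  intro M p ι g b hp hg hne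
  rw [ENNReal.tsum_eq_iSup_sum, ENNReal.mul_iSup]
  refine iSup_le fun J => ?_
  obtain ⟨H, hH⟩ : ∃ H : ℝ, ∀ i ∈ J, M.lv (g i) < H := by
    obtain ⟨H, hH⟩ := (J.image fun i => M.lv (g i)).exists_le
    exact ⟨H + 1, fun i hi => by linarith [hH _ (Finset.mem_image_of_mem _ hi)]⟩
  refine le_trans ?_ (Mod.tsum_ext (ι := Σ i : J, {δ | M.Cross (H - M.lv (g i)) δ})
    (fun q => g q.1 ++ q.2.1) b (fun q => (hg _).2.trans (List.prefix_append _ _)) ?_)
  · rw [ENNReal.tsum_sigma', Finset.mul_sum, ← Finset.tsum_subtype]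
    refine ENNReal.tsum_le_tsum fun i => ?_
    rw [tsum_congr fun δ : {δ | M.Cross (H - M.lv (g i)) δ} => Mod.w_append (hg i).1 δ.2.1,
      ENNReal.tsum_mul_left, ← Mod.sm_eq_tsum, mul_comm]
    exact mul_le_mul_right (hp.2 _) _
  · rintro ⟨⟨i, hi⟩, δ, hδ⟩ ⟨⟨j, hj⟩, δ', hδ'⟩ h
    obtain rfl : i = j := by
      rcases idx (hg j).1 (hH j hj) hδ hδ'.1 h with ⟨τ, h1, h2⟩ | ⟨τ, h1, h2⟩
      · exact hne i j τ h1 h2
      · exact (hne j i τ h1 h2).symm
    obtain rfl : δ = δ' := M.pf_cross _ δ hδ δ' hδ' ((List.prefix_append_right_inj _).1 h)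
    rfl

theorem a_g3 (hD : A_Dis) : A_G3 := by
  intro M p b hp
  refine le_trans (le_of_eq ?_) (hD M p {q : List M.D × List M.D |
    M.Up q.1 ∧ M.Irr q.2 ∧ q.1 <+: b ∧ b <+: q.1 ++ q.2 ∧ b ≠ q.1 ++ q.2}
    (fun q => q.1.1 ++ q.1.2) b hp (fun q => ⟨(q.2.1.append q.2.2.1.1).2, q.2.2.2.2.1⟩) ?_)
  · rw [tsum_subtype _ (fun q : List M.D × List M.D => M.w (q.1 ++ q.2)), ENNReal.tsum_prod']
    simp only [Set.indicator_apply, Set.mem_ofPred_eq]
  · rintro ⟨⟨α, π⟩, h1, h2, h3, h4, h5⟩ ⟨⟨α', π'⟩, h1', h2', h3', h4', h5'⟩ τ hτ e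
    obtain ⟨rfl, rfl⟩ := astride h1 h2 h3 h4 h5 h1' h2' h3' hτ e
    rfl

end Pool.Agent.MP_db8016_pr.BZ

end

section

/-! The expected number of exits into the cone. -/

namespace Pool.Agent.MP_db8016_pr.BZ
open scoped ENNReal Classical

namespace ExpAuxA
variable {M : Mod} {e : M.Pt →+ ℝ} {lam Δ y H : ℝ} {ξ : List M.D}

lemma th_append (α β : List M.D) :
    M.th e lam (α ++ β) = M.th e lam α + (e (M.ds β) + lam * M.lv β) := by
  simp only [Mod.th, Mod.ds_append, Mod.lv_append, map_add]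
  ring

lemma key (he : M.Lip e) (hl : 0 ≤ lam) (hy : 0 ≤ y) (hΔ : 2 * lam * (y + 1) + lam + 1 ≤ Δ)
    {ρ t δ : List M.D} (h1 : M.Ex e lam Δ y H ξ ρ) (h2 : M.Ex e lam Δ y H ξ (ρ ++ t))
    (hc : M.Cross (y + 1) δ) (hn : M.Con e lam δ) (h : δ <+: t ∨ t <+: δ) : t = [] := by
  by_contra ht
  by_cases hd : δ <+: t
  · have a1 := (h1.2.1 ρ List.prefix_rfl).1
    have a2 := (h2.2.1 (ρ ++ δ) ((List.prefix_append_right_inj ρ).2 hd)).2
    rw [← List.append_assoc, Mod.lv_append] at a2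
    linarith [hc.2.1]
  have htd : t <+: δ := h.resolve_left hd
  have b1 := hc.2.2 t htd fun e' => hd (e' ▸ List.prefix_rfl)
  have b2 := (abs_le.1 (hn t htd)).2
  have b3 : lam * M.lv t ≤ lam * (y + 1) := mul_le_mul_of_nonneg_left b1.le hl
  obtain ⟨a, c1, c2⟩ := h1.2.2.1
  obtain ⟨a', c3, c4⟩ := h2.2.2.1
  have c5 := c4 ρ (List.prefix_append ρ t) (by simpa using ht)
  rw [← List.append_assoc, th_append] at c3
  obtain ⟨r, d, rfl⟩ := (List.eq_nil_or_concat' ρ).resolve_left h1.1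
  have c6 := c2 r (List.prefix_append r [d]) (by simp)
  have c7 : M.th e lam (ξ ++ (r ++ [d])) ≤ M.th e lam (ξ ++ r) + (1 + lam) := by
    rw [← List.append_assoc, th_append]
    have := mul_le_mul_of_nonneg_left (abs_le.1 (M.hL d)).2 hl
    simp only [Mod.ds_cons, Mod.ds_nil, add_zero, Mod.lv_cons, Mod.lv_nil]
    linarith [(abs_le.1 (he d)).2]
  have h0 : 0 < Δ := by nlinarith
  have c8 : (a : ℝ) < a' := lt_of_mul_lt_mul_right (c1.trans_lt c5) h0.le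
  have c9 : (a : ℝ) + 1 ≤ a' := by exact_mod_cast Int.add_one_le_iff.2 (by exact_mod_cast c8)
  have := mul_le_mul_of_nonneg_right c9 h0.le
  linarith

lemma weight {ρ δ : List M.D} (h1 : M.Ex e lam Δ y H ξ ρ) (hc : M.NN δ) (hn : M.Con e lam δ) :
    M.w (ξ ++ ρ ++ δ) = M.w (ξ ++ ρ) * M.w δ := by
  refine Mod.w_append_of fun α β a1 a2 b1 _ h => ?_
  have h2 : M.lv α = M.lv (ξ ++ ρ) + M.lv β := by
    rw [Mod.lv, h, map_add]
    rfl
  have h3 := h1.2.2.2 α a1 a2 (by linarith [hc β b1])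
  have h4 : M.th e lam α = M.th e lam (ξ ++ ρ) + (e (M.ds β) + lam * M.lv β) := by
    rw [Mod.th, Mod.th, h2, h, map_add]
    ring
  linarith [(abs_le.1 (hn β b1)).1]

end ExpAuxA

theorem a_exp : A_Exp := by
  intro M e lam Δ y H ξ b he hl hy hΔ
  set A : Set (List M.D) := {ρ | M.Ex e lam Δ y H ξ ρ ∧ b <+: ξ ++ ρ}
  set G : Set (List M.D) := {δ | M.Cross (y + 1) δ ∧ M.Con e lam δ}
  have h1 : ∑' ρ, (if M.Ex e lam Δ y H ξ ρ ∧ b <+: ξ ++ ρ then M.w (ξ ++ ρ) else 0) =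
      ∑' ρ : A, M.w (ξ ++ ρ) := by
    rw [tsum_subtype A fun ρ => M.w (ξ ++ ρ)]
    exact tsum_congr fun ρ => by rw [Set.indicator_apply]; rfl
  have h2 : M.cn e lam (y + 1) * ∑' ρ : A, M.w (ξ ++ ρ) =
      ∑' i : A × G, M.w (ξ ++ i.1 ++ i.2) := by
    rw [ENNReal.tsum_prod', ← ENNReal.tsum_mul_left]
    refine tsum_congr fun ρ => ?_
    rw [Mod.cn, Mod.sm_eq_tsum, ← ENNReal.tsum_mul_right]
    exact tsum_congr fun δ => by rw [ExpAuxA.weight ρ.2.1 δ.2.1.1 δ.2.2, mul_comm]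
  rw [h1, h2]
  refine Mod.tsum_ext _ b (fun i => i.1.2.2.trans (List.prefix_append _ _)) ?_
  rintro ⟨⟨ρ, hρ⟩, ⟨δ, hδ⟩⟩ ⟨⟨ρ', hρ'⟩, ⟨δ', hδ'⟩⟩ h
  simp only [List.append_assoc, List.prefix_append_right_inj] at h
  have h3 : ρ = ρ' := by
    rcases List.prefix_or_prefix_of_prefix ((List.prefix_append ρ δ).trans h)
      (List.prefix_append ρ' δ') with ⟨t, rfl⟩ | ⟨t, rfl⟩
    · rw [List.append_assoc, List.prefix_append_right_inj] at h
      rw [ExpAuxA.key he hl hy hΔ hρ.1 hρ'.1 hδ.1 hδ.2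
        (List.prefix_or_prefix_of_prefix h (List.prefix_append t δ')), List.append_nil]
    · rw [List.append_assoc, List.prefix_append_right_inj] at h
      rw [ExpAuxA.key he hl hy hΔ hρ'.1 hρ.1 hδ'.1 hδ'.2
        (Or.inr ((List.prefix_append t δ).trans h)), List.append_nil]
  subst h3
  have h4 : δ = δ' :=
    Mod.pf_cross M (y + 1) δ hδ.1 δ' hδ'.1 ((List.prefix_append_right_inj ρ).1 h)
  subst h4
  rfl

end Pool.Agent.MP_db8016_pr.BZ

end

section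

/-! The mean range of a piece is finite. -/

namespace Pool.Agent.MP_db8016_pr.BZ
open MeasureTheory ProbabilityTheory Filter Topology
open scoped ENNReal Classical

namespace FinAuxA
variable {ι : Type} (W : ι → ℝ≥0∞) (r : ι → ℝ)

/-- The truncated mean. -/
noncomputable def E (x : ℝ) : ℝ≥0∞ := ∑' i, W i * ENNReal.ofReal (min (r i) x)

variable {W r}

lemma tsum_mul_le (hW : ∑' i, W i ≤ 1) (a : ℝ≥0∞) : ∑' i, W i * a ≤ a := by
  rw [ENNReal.tsum_mul_right]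
  exact mul_le_of_le_one_left' hW

lemma E_le (hW : ∑' i, W i ≤ 1) (x : ℝ) : E W r x ≤ ENNReal.ofReal x :=
  le_trans (ENNReal.tsum_le_tsum fun _ =>
    mul_le_mul_right (ENNReal.ofReal_le_ofReal (min_le_right _ _)) _) (tsum_mul_le hW _)

lemma E_ne_top (hW : ∑' i, W i ≤ 1) (x : ℝ) : E W r x ≠ ⊤ :=
  ne_top_of_le_ne_top ENNReal.ofReal_ne_top (E_le hW x)

lemma E_mono : Monotone (E W r) := fun _ _ h =>
  ENNReal.tsum_le_tsum fun _ =>
    mul_le_mul_right (ENNReal.ofReal_le_ofReal (min_le_min_left _ h)) _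

lemma E_small (hW : ∑' i, W i ≤ 1) (hr : ∀ i, 0 ≤ r i) {ε : ℝ} (hε : 0 < ε) :
    ∃ x₀ : ℝ, ∀ x, x₀ ≤ x → (E W r x).toReal ≤ ε * x := by
  have h0 : (0 : ℝ≥0∞) < ENNReal.ofReal (ε / 2) := ENNReal.ofReal_pos.2 (by positivity)
  obtain ⟨s, hs⟩ := ((tendsto_order.1 (ENNReal.tendsto_tsum_compl_atTop_zero
    (ne_top_of_le_ne_top ENNReal.one_ne_top hW))).2 _ h0).exists
  have hR : 0 ≤ ∑ i ∈ s, r i := Finset.sum_nonneg fun i _ => hr i
  refine ⟨2 * (∑ i ∈ s, r i) / ε, fun x hx => ?_⟩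
  have hx0 : 0 ≤ x := le_trans (by positivity) hx
  have hx1 : ∑ i ∈ s, r i ≤ ε / 2 * x := by
    rw [div_le_iff₀ hε] at hx
    linarith
  refine ENNReal.toReal_le_of_le_ofReal (by positivity) ?_
  have h1 : ∑ i ∈ s, W i * ENNReal.ofReal (min (r i) x) ≤ ENNReal.ofReal (ε / 2 * x) := by
    refine le_trans (Finset.sum_le_sum fun i hi => mul_le_mul_right
      (ENNReal.ofReal_le_ofReal ((min_le_left _ _).trans
        ((Finset.single_le_sum (fun j _ => hr j) hi).trans hx1))) _) ?_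
    exact (ENNReal.sum_le_tsum s).trans (tsum_mul_le hW _)
  have h2 : ∑' i : ↥(s : Set ι)ᶜ, W i * ENNReal.ofReal (min (r i) x) ≤
      ENNReal.ofReal (ε / 2 * x) := by
    refine le_trans (ENNReal.tsum_le_tsum fun i =>
      mul_le_mul_right (ENNReal.ofReal_le_ofReal (min_le_right _ _)) _) ?_
    rw [ENNReal.tsum_mul_right, ENNReal.ofReal_mul (by positivity)]
    exact mul_le_mul_left hs.le _
  rw [E, ← ENNReal.sum_add_tsum_compl s, show ε * x = ε / 2 * x + ε / 2 * x by ring,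
    ENNReal.ofReal_add (by positivity) (by positivity)]
  exact add_le_add h1 h2

lemma le_of_E (hr : ∀ i, 0 ≤ r i) {B : ℝ≥0∞} (h : ∀ x, E W r x ≤ B) :
    ∑' i, W i * ENNReal.ofReal (r i) ≤ B := by
  rw [ENNReal.tsum_eq_iSup_sum]
  refine iSup_le fun s => le_trans ?_ (h (∑ i ∈ s, r i))
  refine le_trans (le_of_eq (Finset.sum_congr rfl fun i hi => ?_)) (ENNReal.sum_le_tsum s)
  rw [min_eq_left (Finset.single_le_sum (fun j _ => hr j) hi)]

lemma EP_eq (M : Mod) (f : List M.D → ℝ) :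
    M.EP f = ∑' π, (if M.Irr π then M.w π else 0) * ENNReal.ofReal (f π) :=
  tsum_congr fun π => by split_ifs <;> simp

end FinAuxA

open FinAuxA in
theorem a_fin (hF2 : A_F2) (hGron : A_Gron) : A_Fin := by
  intro M e p c C he hp hc hC hCone
  have hW : ∑' π, (if M.Irr π then M.w π else 0) ≤ 1 :=
    le_trans (le_of_eq (tsum_congr fun π => by simp [Set.indicator_apply])) (s_w M p hp.1 hp.2)
  have hE : ∀ x, M.EP (fun π => min (M.Rg e π) x) =
      E (fun π => if M.Irr π then M.w π else 0) (M.Rg e) x := fun x => EP_eq M _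
  obtain ⟨η, K, h1, h2, h3, h4⟩ := hF2 M e p c he hp hc
  obtain ⟨B, hB⟩ := hGron (fun x => (E (fun π => if M.Irr π then M.w π else 0) (M.Rg e) x).toReal)
    η K C (fun lam i => c ≤ M.cn e lam (2 ^ i + 1))
    (fun x y h => ENNReal.toReal_mono (E_ne_top hW y) (E_mono h)) h1 h2 h3 hC
    (fun ε hε => E_small hW (Mod.Rg_nonneg e) hε)
    (fun lam x i hl hx a1 a2 => by
      refine hCone lam x _ hl hx (by positivity) ?_ ?_
      · rw [hE, ← ENNReal.ofReal_toReal (E_ne_top hW x)]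
        exact ENNReal.ofReal_le_ofReal a1
      · rw [hE, ← ENNReal.ofReal_toReal (E_ne_top hW x), ← ENNReal.ofReal_mul (by positivity)]
        refine ENNReal.ofReal_le_ofReal ?_
        rwa [add_assoc, one_add_one_eq_two])
    (fun I lam x hl hg hx => by
      refine ENNReal.toReal_le_of_le_ofReal ?_ (hE x ▸ h4 I lam x hl hg hx)
      have h5 : 0 ≤ ∑ i ∈ Finset.range (I + 1), lam i * η i :=
        Finset.sum_nonneg fun i _ => mul_nonneg (by linarith [hl i]) (h1 i)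
      have h6 := h1 (I + 1)
      positivity)
  rw [EP_eq]
  refine ne_top_of_le_ne_top (ENNReal.ofReal_ne_top (r := B))
    (le_of_E (Mod.Rg_nonneg e) fun x => ?_)
  rw [← ENNReal.ofReal_toReal (E_ne_top hW x)]
  exact ENNReal.ofReal_le_ofReal (hB x)

end Pool.Agent.MP_db8016_pr.BZ

end

section

/-! The maximal ergodic lemma. -/

namespace Pool.Agent.MP_db8016_pr.BZ
open MeasureTheory ProbabilityTheory Filter Topology
open scoped ENNReal Classical

namespace GarAuxA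

variable {Ω : Type} (T : Ω → Ω) (f : Ω → ℝ)

/-- The running maximum of the sums along the orbit. -/
noncomputable def Mx : ℕ → Ω → ℝ
  | 0, _ => 0
  | N + 1, a => max 0 (f a + Mx N (T a))

theorem nn (N : ℕ) (a : Ω) : 0 ≤ Mx T f N a := by
  cases N with
  | zero => exact le_rfl
  | succ N => exact le_max_left _ _

theorem mono (N : ℕ) : ∀ a, Mx T f N a ≤ Mx T f (N + 1) a := by
  induction N with
  | zero => exact fun a => nn T f 1 a
  | succ N ih => exact fun a => max_le_max le_rfl (add_le_add le_rfl (ih (T a)))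

theorem sm_succ (n : ℕ) (a : Ω) : ∑ i ∈ Finset.range (n + 1), f (T^[i] a) =
    f a + ∑ i ∈ Finset.range n, f (T^[i] (T a)) := by
  rw [Finset.sum_range_succ', add_comm]
  rfl

theorem le_Mx (n : ℕ) : ∀ a, ∑ i ∈ Finset.range n, f (T^[i] a) ≤ Mx T f n a := by
  induction n with
  | zero => exact fun a => le_rfl
  | succ n ih =>
    intro a
    rw [sm_succ]
    exact (add_le_add le_rfl (ih (T a))).trans (le_max_right _ _)

theorem Mx_eq (N : ℕ) : ∀ a, ∃ n, Mx T f N a = ∑ i ∈ Finset.range n, f (T^[i] a) := by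
  induction N with
  | zero => exact fun a => ⟨0, rfl⟩
  | succ N ih =>
    intro a
    obtain ⟨n, hn⟩ := ih (T a)
    rcases le_total (f a + Mx T f N (T a)) 0 with h | h
    · exact ⟨0, max_eq_left h⟩
    · exact ⟨n + 1, by rw [sm_succ, ← hn]; exact max_eq_right h⟩

variable {T f}

theorem bd {B : ℝ} (hB : ∀ a, |f a| ≤ B) (N : ℕ) : ∀ a, Mx T f N a ≤ N * B := by
  induction N with
  | zero => exact fun a => by simp [Mx]
  | succ N ih =>
    intro a
    have h1 := (abs_nonneg _).trans (hB a)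
    have h2 := (le_abs_self _).trans (hB a)
    have h3 := ih (T a)
    refine max_le (by positivity) ?_
    push_cast
    linarith

theorem meas [MeasurableSpace Ω] (hT : Measurable T) (hf : Measurable f) (N : ℕ) :
    Measurable (Mx T f N) := by
  induction N with
  | zero => exact measurable_const
  | succ N ih => exact measurable_const.max (hf.add (ih.comp hT))

end GarAuxA

open GarAuxA in
theorem a_gar : A_Gar := by
  intro Ω _ P _ T f B hT hf hB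
  have hm := meas hT.measurable hf
  have hi : ∀ N, Integrable (Mx T f N) P := fun N =>
    Integrable.of_bound (hm N).aestronglyMeasurable (N * B) (ae_of_all _ fun a => by
      rw [Real.norm_of_nonneg (nn T f N a)]
      exact bd hB N a)
  have hfi : Integrable f P := Integrable.of_bound hf.aestronglyMeasurable B (ae_of_all _ hB)
  have hE : ∀ N, MeasurableSet {a | 0 < Mx T f (N + 1) a} := fun N =>
    measurableSet_lt measurable_const (hm _)
  have e : {a | ∃ n, 0 < ∑ i ∈ Finset.range n, f (T^[i] a)} =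
      ⋃ N, {a | 0 < Mx T f (N + 1) a} := by
    ext a
    simp only [Set.mem_ofPred_eq, Set.mem_iUnion]
    refine ⟨fun ⟨n, h⟩ => ⟨n, h.trans_le ((le_Mx T f n a).trans (mono T f n a))⟩, fun ⟨N, h⟩ => ?_⟩
    obtain ⟨n, hn⟩ := Mx_eq T f (N + 1) a
    exact ⟨n, hn ▸ h⟩
  rw [e]
  refine ge_of_tendsto' (tendsto_setIntegral_of_monotone hE
    (monotone_nat_of_le_succ fun N a h => lt_of_lt_of_le h (mono T f (N + 1) a))
    hfi.integrableOn) fun N => ?_
  have h1 : Integrable (fun a => Mx T f N (T a)) P := hT.integrable_comp_of_integrable (hi N)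
  have h2 : ∫ a, Mx T f N (T a) ∂P = ∫ a, Mx T f N a ∂P := by
    rw [← integral_map hT.measurable.aemeasurable (hm N).aestronglyMeasurable, hT.map_eq]
  have h0 : ∫ a, (Mx T f N a - Mx T f N (T a)) ∂P = 0 := by
    rw [integral_sub (hi N) h1, h2, sub_self]
  rw [← integral_indicator (hE N)]
  refine h0.ge.trans (integral_mono ((hi N).sub h1) (hfi.indicator (hE N)) fun a => ?_)
  have h3 := mono T f N a
  have h4 := nn T f N (T a)
  by_cases h : 0 < Mx T f (N + 1) a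
  · have h5 : Mx T f (N + 1) a = f a + Mx T f N (T a) :=
      max_eq_right ((lt_max_iff.1 h).resolve_left (lt_irrefl _)).le
    rw [Set.indicator_of_mem (show a ∈ {a | 0 < Mx T f (N + 1) a} from h)]
    linarith
  · rw [Set.indicator_of_notMem (show a ∉ {a | 0 < Mx T f (N + 1) a} from h)]
    linarith

end Pool.Agent.MP_db8016_pr.BZ

end

section

namespace Pool.Agent.MP_db8016_pr.BZ
open MeasureTheory ProbabilityTheory Filter Topology
open scoped ENNReal Classical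

namespace MaxAuxA

lemma small {Ω : Type} [MeasurableSpace Ω] (P : Measure Ω) [IsProbabilityMeasure P] (v : Ω → ℝ)
    (hv : Measurable v) (h0 : ∀ᵐ a ∂P, 0 < v a) :
    ∃ d : ℝ, 0 < d ∧ P.real {a | v a < d} ≤ 1 / 4 := by
  have h1 := tendsto_measure_iInter_atTop (μ := P)
    (s := fun k : ℕ => {a | v a < 1 / ((k : ℝ) + 1)})
    (fun k => (measurableSet_lt hv measurable_const).nullMeasurableSet)
    (fun k l hkl a (ha : v a < _) => show v a < _ from ha.trans_le (Nat.one_div_le_one_div hkl))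
    ⟨0, measure_ne_top _ _⟩
  have h2 : P (⋂ k : ℕ, {a | v a < 1 / ((k : ℝ) + 1)}) = 0 := by
    refine measure_mono_null (fun a ha => ?_) (ae_iff.1 h0)
    intro hp
    obtain ⟨k, hk⟩ := exists_nat_one_div_lt hp
    exact lt_asymm hk (Set.mem_iInter.1 ha k)
  rw [h2] at h1
  obtain ⟨k, hk⟩ := (h1.eventually (ge_mem_nhds
    (ENNReal.ofReal_pos.2 (show (0 : ℝ) < 1 / 4 by norm_num)))).exists
  exact ⟨1 / ((k : ℝ) + 1), Nat.one_div_pos_of_nat,
    ENNReal.toReal_le_of_le_ofReal (by norm_num) hk⟩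

end MaxAuxA

theorem a_max (hGar : A_Gar) : A_Max := by
  intro Ω _ P _ T v hT hv h0
  obtain ⟨d, d0, hd⟩ := MaxAuxA.small P v hv h0
  refine ⟨4 / d, by positivity, fun r x lam hr hx hl hi => ?_⟩
  set G : Set Ω := {a | v a < d}ᶜ with hG
  have mG : MeasurableSet G := (measurableSet_lt hv measurable_const).compl
  set f : Ω → ℝ := fun a => r (T a) - G.indicator (fun _ => lam * d) a with hf
  have mf : Measurable f := (hr.comp hT.measurable).sub (measurable_const.indicator mG)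
  have ld : 0 < lam * d := mul_pos hl d0
  have hb : ∀ a, |f a| ≤ x + lam * d := fun a => by
    have := hx (T a)
    by_cases h : a ∈ G
    · rw [hf]; simp only [Set.indicator_of_mem h]; rw [abs_le]; constructor <;> linarith
    · rw [hf]; simp only [Set.indicator_of_notMem h]; rw [abs_le]; constructor <;> linarith
  have key := hGar Ω P T f _ hT mf hb
  set E : Set Ω := {a | ∃ n, 0 < ∑ i ∈ Finset.range n, f (T^[i] a)} with hE
  have mE : MeasurableSet E := by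
    rw [hE, Set.setOf_exists]
    exact MeasurableSet.iUnion fun n => measurableSet_lt measurable_const
      (Finset.measurable_sum _ fun i _ => mf.comp (hT.measurable.iterate i))
  have ir : Integrable r P := Integrable.of_bound hr.aestronglyMeasurable x
    (Eventually.of_forall fun a => by rw [Real.norm_of_nonneg (hx a).1]; exact (hx a).2)
  have irT : Integrable (fun a => r (T a)) P := hT.integrable_comp_of_integrable ir
  have e1 : ∫ a, r (T a) ∂P = ∫ a, r a ∂P := by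
    rw [← integral_map hT.measurable.aemeasurable hr.aestronglyMeasurable, hT.map_eq]
  have e2 : ∫ a, r a ∂P ≤ lam * d / 4 := by
    rw [← ofReal_integral_eq_lintegral_ofReal ir (Eventually.of_forall fun a => (hx a).1),
      ENNReal.ofReal_le_ofReal_iff (by positivity)] at hi
    rwa [div_div_eq_mul_div] at hi
  have e3 : ∫ a in E, r (T a) ∂P ≤ ∫ a, r (T a) ∂P :=
    setIntegral_le_integral irT (Eventually.of_forall fun a => (hx _).1)
  have e4 : ∫ a in E, G.indicator (fun _ => lam * d) a ∂P = P.real (E ∩ G) * (lam * d) := by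
    rw [setIntegral_indicator mG, setIntegral_const, smul_eq_mul]
  rw [hf, integral_sub irT.integrableOn ((integrable_const _).indicator mG).integrableOn, e4] at key
  have e5 : P.real (E ∩ G) ≤ 1 / 4 := by
    by_contra h
    have := mul_lt_mul_of_pos_right (not_le.1 h) ld
    linarith
  have e6 : P.real E ≤ 1 / 2 := by
    have h1 : E ⊆ (E ∩ G) ∪ {a | v a < d} := fun a ha => by
      by_cases h : a ∈ G
      · exact Or.inl ⟨ha, h⟩
      · exact Or.inr (not_not.1 h)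
    have := (measureReal_mono h1).trans (measureReal_union_le (μ := P) _ _)
    linarith
  have e7 : ∀ᵐ a ∂P, ∀ i, 0 < v (T^[i] a) :=
    ae_all_iff.2 fun i => (hT.iterate i).quasiMeasurePreserving.ae h0
  refine (measure_mono_ae (t := E) ?_).trans ?_
  · filter_upwards [e7] with a ha
    rintro ⟨n, hn⟩
    refine ⟨n, ?_⟩
    simp only [hf, Finset.sum_sub_distrib, sub_pos]
    simp only [Function.iterate_succ_apply'] at hn
    refine lt_of_le_of_lt ?_ hn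
    rw [Finset.mul_sum]
    refine Finset.sum_le_sum fun i _ => ?_
    by_cases h : T^[i] a ∈ G
    · rw [Set.indicator_of_mem h]
      exact mul_le_mul_of_nonneg_left (not_lt.1 h) hl.le
    · rw [Set.indicator_of_notMem h]
      exact (mul_pos hl (ha i)).le
  · rw [← ENNReal.ofReal_toReal (measure_ne_top P E)]
    refine (ENNReal.ofReal_le_ofReal e6).trans (le_of_eq ?_)
    rw [one_div, ENNReal.ofReal_inv_of_pos two_pos, ENNReal.ofReal_ofNat]

end Pool.Agent.MP_db8016_pr.BZ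

end

section

namespace Pool.Agent.MP_db8016_pr.BZ

open scoped ENNReal Classical

namespace StgAuxA

theorem last_rec (M : Mod) {α₀ : List M.D} (h0 : M.Up α₀) (τ : List M.D) (h : M.NN (α₀ ++ τ)) :
    ∃ α σ, α₀ ++ τ = α ++ σ ∧ M.Up α ∧ α₀ <+: α ∧ ∀ β, β <+: σ → M.lv β ≤ 0 := by
  induction τ using List.reverseRecOn with
  | nil =>
    refine ⟨α₀, [], rfl, h0, List.prefix_rfl, fun β hβ => ?_⟩
    rw [List.prefix_nil.1 hβ, M.lv_nil]
  | append_singleton τ d ih =>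
    rw [← List.append_assoc] at h ⊢
    obtain ⟨α, σ, e, h1, h2, h3⟩ := ih (h.of_pf (List.prefix_append _ _))
    rw [e] at h ⊢
    by_cases hd : M.lv (σ ++ [d]) ≤ 0
    · refine ⟨α, σ ++ [d], List.append_assoc _ _ _, h1, h2, fun β hβ => ?_⟩
      rcases List.prefix_concat_iff.1 hβ with rfl | hβ
      exacts [hd, h3 β hβ]
    · refine ⟨α ++ σ ++ [d], [], (List.append_nil _).symm, ⟨h, fun β hβ hne => ?_⟩,
        h2.trans ((List.prefix_append _ _).trans (List.prefix_append _ _)), fun β hβ => ?_⟩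
      · have hβ' := (List.prefix_concat_iff.1 hβ).resolve_left hne
        rw [List.append_assoc, M.lv_append α]
        rcases Mod.pf_append_cases hβ' with ⟨k1, k2⟩ | ⟨γ, k1, rfl⟩
        · linarith [h1.2 β k1 k2]
        · rw [M.lv_append α]
          linarith [h3 γ k1]
      · rw [List.prefix_nil.1 hβ, M.lv_nil]

theorem first (M : Mod) (y : ℝ) (z : List M.D) (h0 : ∀ β, β <+: z → M.lv β ≤ 0)
    (h1 : M.lv z < -y) : ∃ ζ, ζ <+: z ∧ M.Dp y ζ := by
  induction hn : z.length using Nat.strong_induction_on generalizing z with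
  | _ n ih =>
    by_cases h : ∃ β, β <+: z ∧ β ≠ z ∧ M.lv β < -y
    · obtain ⟨β, k1, k2, k3⟩ := h
      have hl : β.length < n := by
        rw [← hn]
        exact lt_of_le_of_ne k1.length_le fun e => k2 (k1.eq_of_length e)
      obtain ⟨ζ, k4, k5⟩ := ih _ hl β (fun γ hγ => h0 γ (hγ.trans k1)) k3 rfl
      exact ⟨ζ, k4.trans k1, k5⟩
    · exact ⟨z, List.prefix_rfl,
        fun β k1 k2 => ⟨not_lt.1 fun k3 => h ⟨β, k1, k2, k3⟩, h0 β k1⟩, h1⟩

end StgAuxA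

open StgAuxA in
theorem a_stg : A_Stg := by
  intro M α₀ τ h0 hτ
  have hN := h0.1.append hτ
  obtain ⟨α, σ, e, h1, h2, h3⟩ := last_rec M h0 τ hN
  have hex : ∃ i : ℕ, ∀ β, β <+: σ → -(2 : ℝ) ^ i ≤ M.lv β := by
    refine ⟨σ.length, fun β hβ => ?_⟩
    have k1 : (β.length : ℝ) ≤ 2 ^ σ.length := by
      exact_mod_cast hβ.length_le.trans Nat.lt_two_pow_self.le
    linarith [(abs_le.1 (M.abs_lv_le β)).1]
  have hs := Nat.find_spec hex
  have hm := fun j => Nat.find_min hex (m := j)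
  generalize Nat.find hex = i at hs hm
  cases i with
  | zero =>
    refine ⟨α, [], σ, 0, by simpa using e, h1, h2, rfl, fun β hβ => ⟨hs β hβ, h3 β hβ⟩,
      fun j hj => ?_⟩
    obtain rfl : j = 0 := by omega
    exact ⟨[], rfl, List.prefix_rfl⟩
  | succ i =>
    have k := hm i (Nat.lt_succ_self i)
    push Not at k
    obtain ⟨z, z1, z2⟩ := k
    obtain ⟨ζ, k1, k2⟩ := first M (2 ^ i) z (fun β hβ => h3 β (hβ.trans z1)) z2
    obtain ⟨ρ, rfl⟩ := k1.trans z1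
    have k3 : (2 : ℝ) ^ i < M.lv α := by
      have := hN (α ++ ζ) (by rw [e, ← List.append_assoc]; exact List.prefix_append _ _)
      rw [M.lv_append] at this
      linarith [k2.2]
    refine ⟨α, ζ, ρ, i + 1, by rw [e, List.append_assoc], h1, h2, ⟨k3, k2⟩,
      fun β hβ => ⟨hs β hβ, h3 β hβ⟩, fun j hj => ?_⟩
    cases j with
    | zero => exact ⟨[], rfl, List.nil_prefix⟩
    | succ j =>
      have k4 : (2 : ℝ) ^ j ≤ 2 ^ i := pow_le_pow_right₀ one_le_two (by omega)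
      obtain ⟨ζ', k5, k6⟩ := first M (2 ^ j) ζ
        (fun β hβ => h3 β (hβ.trans (List.prefix_append _ _))) (by linarith [k2.2])
      exact ⟨ζ', ⟨k4.trans_lt k3, k6⟩, k5⟩

end Pool.Agent.MP_db8016_pr.BZ

end

section

/-! The mean number of descents below a given level. -/

namespace Pool.Agent.MP_db8016_pr.BZ
open scoped ENNReal Classical

namespace ViolAuxA
open _root_.Pool.Agent.MP_db8016_pr.BZ.Mod
variable (M : Mod)

/-- The first record at the level `m` after a visit below `m`. -/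
def InA (m : ℝ) (a : List M.D) : Prop :=
  M.Rc a ∧ m ≤ M.lv a ∧ ∃ b, b <+: a ∧ M.lv b < m ∧
    ∀ c, b <+: c → c <+: a → c ≠ a → ¬ (M.Rc c ∧ m ≤ M.lv c)

/-- From `a` to `α` the path stays above `m`. -/
def Ab (m : ℝ) (a α : List M.D) : Prop := a <+: α ∧ ∀ c, a <+: c → c <+: α → m ≤ M.lv c

variable {M}

lemma lv_app (α β : List M.D) : M.lv (α ++ β) = M.lv α + M.lv β := by
  simp [lv, ds_append]

lemma inj {m : ℝ} {a a' τ : List M.D} (h : InA M m a) (h' : InA M m a') (hτ : M.NN τ)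
    (e : a' = a ++ τ) : a = a' := by
  obtain ⟨-, -, b, h1, h2, h3⟩ := h'
  have h4 : a <+: a' := e ▸ List.prefix_append a τ
  rcases List.prefix_or_prefix_of_prefix h1 h4 with h5 | ⟨σ, rfl⟩
  · by_contra hne
    exact h3 a h5 h4 hne ⟨h.1, h.2.1⟩
  · rw [e, List.prefix_append_right_inj] at h1
    have := hτ σ h1
    rw [lv_app] at h2
    linarith [h.2.1]

lemma ex {m : ℝ} (hm : 0 < m) {α : List M.D} (h1 : M.Rc α) (h2 : m ≤ M.lv α) :
    ∃ a, InA M m a ∧ Ab M m a α := by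
  obtain ⟨b, ⟨b1, b2⟩, b3⟩ := (InvImage.wf (fun c : List M.D => α.length - c.length)
    wellFounded_lt).has_min {c | c <+: α ∧ M.lv c < m} ⟨[], List.nil_prefix, by simpa [lv]⟩
  obtain ⟨a, ⟨a1, a2, a3, a4⟩, a5⟩ := (InvImage.wf (fun c : List M.D => c.length)
    wellFounded_lt).has_min {c | b <+: c ∧ c <+: α ∧ M.Rc c ∧ m ≤ M.lv c}
    ⟨α, b1, List.prefix_rfl, h1, h2⟩
  refine ⟨a, ⟨a3, a4, b, a1, b2, fun c c1 c2 c3 c4 => ?_⟩, a2, fun c c1 c2 => ?_⟩
  · refine a5 c ⟨c1, c2.trans a2, c4⟩ ?_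
    exact lt_of_le_of_ne c2.length_le fun e => c3 (c2.eq_of_length e)
  · by_contra hc
    have h3 := b3 c ⟨c2, not_le.1 hc⟩
    have l1 := a1.length_le
    have l2 := c1.length_le
    have l3 := c2.length_le
    simp only [InvImage] at h3
    have : a = c := c1.eq_of_length (by omega)
    exact hc (this ▸ a4)

lemma cut {y : ℝ} (hy : 0 ≤ y) {α β ζ : List M.D} (h1 : M.Rc (α ++ β)) (h2 : M.Dp y ζ)
    (h3 : β <+: ζ) : β = [] := by
  by_contra hne
  have h4 := h1 α (List.prefix_append α β) (by simpa using hne)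
  rw [lv_app] at h4
  by_cases e : β = ζ
  · have := h2.2
    rw [← e] at this
    linarith
  · linarith [(h2.1 β h3 e).2]

/-- The condition on a pair. -/
def Cd (M : Mod) (m : ℝ) (α ζ : List M.D) : Prop :=
  M.Up α ∧ m ≤ M.lv α ∧ M.Dp (M.lv α - m) ζ

lemma uniq {m : ℝ} {a α ζ α' ζ' : List M.D} (h : Cd M m α ζ) (r : Ab M m a α)
    (h' : Cd M m α' ζ') (r' : Ab M m a α') (hp : α ++ ζ <+: α' ++ ζ') : α = α' ∧ ζ = ζ' := by
  have hl : M.lv (α ++ ζ) < m := by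
    rw [lv_app]
    linarith [h.2.2.2]
  have e : α ++ ζ = α' ++ ζ' := by
    by_contra hne
    rcases List.prefix_or_prefix_of_prefix hp (List.prefix_append α' ζ') with h5 | ⟨σ, h5⟩
    · exact absurd (r'.2 _ (r.1.trans (List.prefix_append α ζ)) h5) (not_le.2 hl)
    · rw [← h5] at hp hne hl
      rw [List.prefix_append_right_inj] at hp
      have := (h'.2.2.1 σ hp fun e => hne (by rw [e])).1
      rw [lv_app] at hl
      linarith
  rcases List.append_eq_append_iff.1 e with ⟨β, e1, e2⟩ | ⟨β, e1, e2⟩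
  · have := cut (sub_nonneg.2 h.2.1) (e1 ▸ h'.1.2) h.2.2 (e2 ▸ List.prefix_append β ζ')
    subst this
    simp_all
  · have := cut (sub_nonneg.2 h'.2.1) (e1 ▸ h.1.2) h'.2.2 (e2 ▸ List.prefix_append β ζ)
    subst this
    simp_all

lemma inner (m : ℝ) (a : List M.D) :
    ∑' q : List M.D × List M.D,
      (if Cd M m q.1 q.2 ∧ Ab M m a q.1 then M.w (q.1 ++ q.2) else 0) ≤ M.w a := by
  have h := tsum_ext (M := M)
    (fun q : {q : List M.D × List M.D | Cd M m q.1 q.2 ∧ Ab M m a q.1} => q.1.1 ++ q.1.2) a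
    (fun q => q.2.2.1.trans (List.prefix_append _ _)) fun q q' hp => by
      obtain ⟨e1, e2⟩ := uniq q.2.1 q.2.2 q'.2.1 q'.2.2 hp
      exact Subtype.ext (Prod.ext e1 e2)
  rw [tsum_subtype _ fun q : List M.D × List M.D => M.w (q.1 ++ q.2)] at h
  refine le_trans (le_of_eq (tsum_congr fun q => ?_)) h
  rw [Set.indicator_apply]
  rfl

end ViolAuxA

open ViolAuxA in
theorem a_viol (hD : A_Dis) : A_Viol := by
  intro M p m hp hm
  have h1 := hD M p {a // InA M m a} Subtype.val [] hp (fun a => ⟨a.2.1, List.nil_prefix⟩)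
    fun a a' τ hτ e => Subtype.ext (inj a.2 a'.2 hτ e)
  refine le_trans (mul_le_mul_right ?_ p) (h1.trans (by simp [Mod.w, wt]))
  rw [← ENNReal.tsum_prod (f := fun α ζ =>
    if M.Up α ∧ m ≤ M.lv α ∧ M.Dp (M.lv α - m) ζ then M.w (α ++ ζ) else 0)]
  refine le_trans ?_ (ENNReal.tsum_le_tsum fun a => inner m a.1)
  rw [ENNReal.tsum_comm]
  refine ENNReal.tsum_le_tsum fun q => ?_
  split_ifs with h
  · obtain ⟨a, a1, a2⟩ := ex hm h.1.2 h.2.1
    refine le_trans (le_of_eq ?_) (ENNReal.le_tsum ⟨a, a1⟩)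
    rw [if_pos ⟨h, a2⟩]
  · exact zero_le

end Pool.Agent.MP_db8016_pr.BZ

end
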