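import Pool.Agent.Mg.Fdb8016p.G5af3df

section

/-! A walk with a submartingale projection is not subdiffusive. -/

namespace Pool.Agent.MP_db8016_pr.BZ
open MeasureTheory ProbabilityTheory Filter Topology
open scoped ENNReal Classical

namespace BalAuxA

variable {M : Mod} {S : Measure (ℕ → M.D)} [IsProbabilityMeasure S]

lemma split (γ : List M.D) (E : Set (ℕ → M.D)) :
    S.real (cyl γ ∩ E) ≤ ∑ d, S.real (cyl (γ ++ [d]) ∩ E) := by
  refine le_trans (measureReal_mono ?_) (measureReal_iUnion_fintype_le _)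
  exact fun a ha => Set.mem_iUnion.2 ⟨a γ.length, mem_cyl_snoc.2 ⟨ha.1, rfl⟩, ha.2⟩

lemma sum_le (γ : List M.D) : ∑ d, S.real (cyl (γ ++ [d])) ≤ S.real (cyl γ) := by
  rw [← measureReal_iUnion_fintype (fun d d' h => Set.disjoint_left.2 fun a h1 h2 =>
    h ((mem_cyl_snoc.1 h1).2.symm.trans (mem_cyl_snoc.1 h2).2)) fun d => measurableSet_cyl _]
  exact measureReal_mono (Set.iUnion_subset fun d => cyl_append_subset _ _)

lemma conf (hS : ∀ γ, S (cyl γ) = M.w γ)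
    (h : ∀ γ, 0 ≤ ∑ d, (M.w (γ ++ [d])).toReal * M.L (M.vec d)) {R : ℝ} (hR : 0 ≤ R) (m : ℕ) :
    ∀ γ, |M.lv γ| ≤ R + 1 →
      S.real (cyl γ ∩ {a | ∀ k, γ.length ≤ k → k < γ.length + m → |M.lv (pre a k)| < R}) *
        (2 * R + 1) ^ 2 ≤ S.real (cyl γ) * (2 * (2 * R + 1) ^ 2 - (M.lv γ + R) ^ 2) *
          (1 - M.κ.toReal / (2 * (2 * R + 1) ^ 2)) ^ m := by
  have hA : 1 ≤ (2 * R + 1) ^ 2 := by nlinarith
  have hk : M.κ.toReal ≤ 1 := ENNReal.toReal_le_of_le_ofReal zero_le_one (by simpa using M.κ_le_one)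
  have hq : 0 ≤ 1 - M.κ.toReal / (2 * (2 * R + 1) ^ 2) :=
    sub_nonneg.2 ((div_le_one (by linarith)).2 (by linarith))
  have hφ : ∀ y : ℝ, |y| ≤ R + 1 → (y + R) ^ 2 ≤ (2 * R + 1) ^ 2 := fun y hy =>
    sq_le_sq' (by linarith [(abs_le.1 hy).1]) (by linarith [(abs_le.1 hy).2])
  induction m with
  | zero =>
    intro γ hγ
    rw [pow_zero, mul_one]
    exact mul_le_mul (measureReal_mono Set.inter_subset_left) (by linarith [hφ _ hγ])
      (by positivity) measureReal_nonneg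
  | succ m ih =>
    intro γ hγ
    by_cases hin : |M.lv γ| < R
    swap
    · rw [show cyl γ ∩ {a | ∀ k, γ.length ≤ k → k < γ.length + (m + 1) →
          |M.lv (pre a k)| < R} = ∅ from Set.eq_empty_of_forall_notMem fun a ha => hin (by
            have := ha.2 γ.length le_rfl (by omega)
            rwa [show pre a γ.length = γ from ha.1] at this), measureReal_empty, zero_mul]
      exact mul_nonneg (mul_nonneg measureReal_nonneg (by linarith [hφ _ hγ])) (pow_nonneg hq _)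
    have h1 : ∀ d, S.real (cyl (γ ++ [d]) ∩ {a | ∀ k, γ.length ≤ k → k < γ.length + (m + 1) →
        |M.lv (pre a k)| < R}) * (2 * R + 1) ^ 2 ≤ S.real (cyl (γ ++ [d])) *
          (2 * (2 * R + 1) ^ 2 - (M.lv γ + M.L (M.vec d) + R) ^ 2) *
          (1 - M.κ.toReal / (2 * (2 * R + 1) ^ 2)) ^ m := fun d => by
      have e : M.lv (γ ++ [d]) = M.lv γ + M.L (M.vec d) := by simp
      rw [← e]
      refine le_trans (mul_le_mul_of_nonneg_right (measureReal_mono ?_) (by positivity))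
        (ih _ ?_)
      · refine fun a ha => ⟨ha.1, fun k a1 a2 => ?_⟩
        simp only [List.length_append, List.length_singleton] at a1 a2
        exact ha.2 k (by omega) (by omega)
      · rw [e]
        linarith [abs_add_le (M.lv γ) (M.L (M.vec d)), M.hL d]
    refine (mul_le_mul_of_nonneg_right (split γ _) (by positivity)).trans ?_
    rw [Finset.sum_mul]
    refine (Finset.sum_le_sum fun d _ => h1 d).trans ?_
    rw [← Finset.sum_mul, pow_succ' (1 - _), ← mul_assoc]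
    refine mul_le_mul_of_nonneg_right ?_ (pow_nonneg hq _)
    have h2 : 0 ≤ ∑ d, S.real (cyl (γ ++ [d])) * M.L (M.vec d) := by
      simpa only [Measure.real, hS] using h γ
    have h3 : M.κ.toReal * S.real (cyl γ) ≤ ∑ d, S.real (cyl (γ ++ [d])) * M.L (M.vec d) ^ 2 := by
      refine le_trans ?_ (Finset.single_le_sum
        (f := fun d => S.real (cyl (γ ++ [d])) * M.L (M.vec d) ^ 2)
        (fun d _ => mul_nonneg measureReal_nonneg (sq_nonneg _)) (Finset.mem_univ M.u))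
      rw [M.hu, one_pow, mul_one, Measure.real, Measure.real, hS, hS, ← ENNReal.toReal_mul]
      exact ENNReal.toReal_mono (Step0Aux.w_ne_top _) (by simpa using M.w_append_ge γ [M.u])
    have h4 : ∑ d, S.real (cyl (γ ++ [d])) *
        (2 * (2 * R + 1) ^ 2 - (M.lv γ + M.L (M.vec d) + R) ^ 2) =
        (∑ d, S.real (cyl (γ ++ [d]))) * (2 * (2 * R + 1) ^ 2 - (M.lv γ + R) ^ 2) -
          2 * (M.lv γ + R) * ∑ d, S.real (cyl (γ ++ [d])) * M.L (M.vec d) -
          ∑ d, S.real (cyl (γ ++ [d])) * M.L (M.vec d) ^ 2 := by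
      rw [Finset.sum_mul, Finset.mul_sum, ← Finset.sum_sub_distrib, ← Finset.sum_sub_distrib]
      exact Finset.sum_congr rfl fun d _ => by ring
    have h5 : 0 ≤ M.lv γ + R := by linarith [(abs_lt.1 hin).1]
    have h6 := mul_le_mul_of_nonneg_right (sum_le (S := S) γ)
      (show 0 ≤ 2 * (2 * R + 1) ^ 2 - (M.lv γ + R) ^ 2 by linarith [hφ _ hγ])
    have h7 : (2 * (2 * R + 1) ^ 2 - (M.lv γ + R) ^ 2) *
        (M.κ.toReal / (2 * (2 * R + 1) ^ 2)) ≤ M.κ.toReal := by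
      rw [← mul_div_assoc, div_le_iff₀ (by linarith)]
      nlinarith [mul_nonneg (sq_nonneg (M.lv γ + R)) (Step0Aux.κ_pos M).le]
    have h8 := mul_le_mul_of_nonneg_left h7 (measureReal_nonneg (μ := S) (s := cyl γ))
    rw [h4]
    nlinarith [mul_nonneg h5 h2]

lemma tail (hS : ∀ γ, S (cyl γ) = M.w γ)
    (h : ∀ γ, 0 ≤ ∑ d, (M.w (γ ++ [d])).toReal * M.L (M.vec d)) :
    ∃ C : ℝ, ∀ n : ℕ, 1 ≤ n →
      S.real {a | ∀ k < n, |M.lv (pre a k)| < (n : ℝ) ^ (9 / 20 : ℝ)} ≤ C / (n : ℝ) ^ 2 := by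
  have hk := Step0Aux.κ_pos M
  refine ⟨2 * (Nat.factorial 20) / (M.κ.toReal / 18) ^ 20, fun n hn => ?_⟩
  have n1 : (1 : ℝ) ≤ n := by exact_mod_cast hn
  obtain ⟨R, hR⟩ : ∃ R, R = (n : ℝ) ^ (9 / 20 : ℝ) := ⟨_, rfl⟩
  obtain ⟨x, hx⟩ : ∃ x, x = (n : ℝ) ^ (1 / 10 : ℝ) := ⟨_, rfl⟩
  have R1 : 1 ≤ R := hR ▸ Real.one_le_rpow n1 (by norm_num)
  have x1 : 1 ≤ x := hx ▸ Real.one_le_rpow n1 (by norm_num)
  have e1 : R ^ 2 * x = n := by
    rw [hR, hx, ← Real.rpow_natCast, ← Real.rpow_mul (by linarith), ← Real.rpow_add (by linarith)]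
    norm_num
  have e2 : x ^ 20 = (n : ℝ) ^ 2 := by
    rw [hx, ← Real.rpow_natCast, ← Real.rpow_mul (by linarith), ← Real.rpow_natCast]
    norm_num
  have h1 := conf hS h (R := R) (by linarith) n [] (by simp; linarith)
  simp only [cyl_nil, Set.univ_inter, List.length_nil, zero_le, forall_const, zero_add,
    probReal_univ, one_mul, Mod.lv_nil] at h1
  rw [← hR]
  have hA : 1 ≤ (2 * R + 1) ^ 2 := by nlinarith
  have hk1 : M.κ.toReal ≤ 1 :=
    ENNReal.toReal_le_of_le_ofReal zero_le_one (by simpa using M.κ_le_one)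
  have hq : 0 ≤ 1 - M.κ.toReal / (2 * (2 * R + 1) ^ 2) :=
    sub_nonneg.2 ((div_le_one (by linarith)).2 (by linarith))
  have h2 : (1 - M.κ.toReal / (2 * (2 * R + 1) ^ 2)) ^ n ≤ (Real.exp (M.κ.toReal / 18 * x))⁻¹ := by
    rw [← Real.exp_neg]
    refine (pow_le_pow_left₀ hq (Real.one_sub_le_exp_neg _) n).trans ?_
    rw [← Real.exp_nat_mul, Real.exp_le_exp, mul_neg, neg_le_neg_iff, ← mul_div_assoc,
      le_div_iff₀ (by linarith), ← e1]
    have : (2 * R + 1) ^ 2 ≤ 9 * R ^ 2 := by nlinarith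
    nlinarith [mul_le_mul_of_nonneg_left this (mul_nonneg hk.le (by linarith : 0 ≤ x))]
  have h3 : (Real.exp (M.κ.toReal / 18 * x))⁻¹ ≤
      (Nat.factorial 20) / (M.κ.toReal / 18) ^ 20 / (n : ℝ) ^ 2 := by
    rw [div_div, ← e2, ← mul_pow, ← inv_div ((M.κ.toReal / 18 * x) ^ 20)]
    exact inv_anti₀ (by positivity) (Real.pow_div_factorial_le_exp _ (by positivity) 20)
  have h4 := mul_le_mul (show 2 * (2 * R + 1) ^ 2 - R ^ 2 ≤ 2 * (2 * R + 1) ^ 2 by
    nlinarith) (h2.trans h3) (pow_nonneg hq _) (by linarith)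
  refine le_of_mul_le_mul_right ((h1.trans h4).trans (le_of_eq ?_)) (by linarith : 0 < (2 * R + 1) ^ 2)
  ring

end BalAuxA

open BalAuxA

theorem bal_mod (M : Mod) (S : Measure (ℕ → M.D)) [IsProbabilityMeasure S]
    (hS : ∀ γ, S (cyl γ) = M.w γ)
    (h : ∀ γ, 0 ≤ ∑ d, (M.w (γ ++ [d])).toReal * M.L (M.vec d)) :
    ∀ᵐ a ∂S, ∀ᶠ n : ℕ in atTop, ∃ k < n, (n : ℝ) ^ (9 / 20 : ℝ) ≤ |M.lv (pre a k)| := by
  obtain ⟨C, hC⟩ := tail hS h
  have h1 : Summable fun n : ℕ =>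
      S.real {a | ∀ k < n, |M.lv (pre a k)| < (n : ℝ) ^ (9 / 20 : ℝ)} := by
    refine Summable.of_norm_bounded_eventually_nat
      ((Real.summable_one_div_nat_pow.2 one_lt_two).mul_left C) ?_
    filter_upwards [eventually_ge_atTop 1] with n hn
    rw [Real.norm_of_nonneg measureReal_nonneg, mul_one_div]
    exact hC n hn
  have h2 : ∑' n : ℕ, S {a | ∀ k < n, |M.lv (pre a k)| < (n : ℝ) ^ (9 / 20 : ℝ)} ≠ ⊤ := by
    have := ENNReal.ofReal_tsum_of_nonneg (fun n => measureReal_nonneg) h1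
    simp only [Measure.real, ENNReal.ofReal_toReal (measure_ne_top S _)] at this
    rw [← this]
    exact ENNReal.ofReal_ne_top
  filter_upwards [ae_eventually_notMem h2] with a ha
  refine ha.mono fun n hn => ?_
  simpa only [Set.mem_ofPred_eq, not_forall, not_lt, exists_prop] using hn

lemma BalAuxA.wt_snoc {D Pt : Type} [AddCommGroup Pt] [DecidableEq Pt] [MeasurableSpace D]
    [DiscreteMeasurableSpace D] (vec : D → Pt) (ν : Measure (ℕ → D)) [IsProbabilityMeasure ν]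
    (γ : List D) : ∃ (c : ℝ≥0∞) (l : List D), ∀ d, wt vec ν 0 (γ ++ [d]) = c * ν (cyl (l ++ [d])) := by
  refine ⟨∏ z ∈ (insert (disp vec γ) (pts vec 0 γ)).erase (disp vec γ), ν (cyl (exits vec 0 γ z)),
    exits vec 0 γ (disp vec γ), fun d => ?_⟩
  rw [wt_eq_prod vec ν (T := insert (disp vec γ) (pts vec 0 γ)) (by
    rw [pts_append]
    simp [pts_cons]), ← Finset.prod_erase_mul _ _ (Finset.mem_insert_self _ _)]
  congr 1
  · refine Finset.prod_congr rfl fun z hz => ?_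
    rw [exits_append]
    simp [exits_cons, (Finset.ne_of_mem_erase hz).symm]
  · rw [exits_append]
    simp [exits_cons]

open NuAux in
theorem bal_all (d : ℕ) (hd : 8 ≤ d)
    (μ : Measure ((Fin d → ℤ) → Fin d × Bool → ℕ → ℝ)) [IsProbabilityMeasure μ]
    (hind : iIndepFun (fun (z : Fin d → ℤ) (ω : (Fin d → ℤ) → Fin d × Bool → ℕ → ℝ) => ω z) μ)
    (hid : ∀ z : Fin d → ℤ,
      IdentDistrib (fun ω : (Fin d → ℤ) → Fin d × Bool → ℕ → ℝ => ω z) (fun ω => ω 0) μ μ)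
    (hsum : ∀ᵐ ω ∂μ, ∀ z i, ∑ e, ω z e i = 1)
    (κ : ℝ) (hκ : 0 < κ) (hell : ∀ᵐ ω ∂μ, ∀ z e i, κ ≤ ω z e i)
    (P₀ : Measure (ℕ → Fin d → ℤ)) [IsProbabilityMeasure P₀]
    (hP₀ : ∀ (e : ℕ → Fin d × Bool) (n : ℕ), P₀ {X | ∀ i ≤ n, X i = HD.pos e i} =
      ∫⁻ ω, ENNReal.ofReal (∏ i ∈ Finset.range n, ω (HD.pos e i) (e i) (HD.visits e i)) ∂μ)
    (m : Fin d → ℝ) (hm : m ≠ 0)
    (hsub : ∀ (e : ℕ → Fin d × Bool) (i : ℕ), 0 ≤ ∫ ω, (∏ j ∈ Finset.range i, ω 0 (e j) j) *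
      ∑ s, ω 0 s i * ∑ k, (HD.step s k : ℝ) * m k ∂μ)
    (l : Fin d → ℝ) : P₀ (Tr l) = 0 ∨ P₀ (Tr l) = 1 := by
  have hd0 : 0 < d := by omega
  let _ : Inhabited (Fin d × Bool) := ⟨(⟨0, hd0⟩, true)⟩
  have h0 : ∀ᵐ ω ∂μ, ∀ z e i, 0 ≤ ω z e i := hell.mono fun ω h z e i => hκ.le.trans (h z e i)
  obtain ⟨ν, hν, hcyl⟩ := exists_nu μ (fun ω => ω 0) (measurable_pi_apply 0)
    (hsum.mono fun ω h => h 0) (h0.mono fun ω h => h 0)
  have uel : ∀ γ e, ENNReal.ofReal κ * ν (cyl γ) ≤ ν (cyl (γ ++ [e])) := fun γ e => by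
    rw [hcyl, hcyl, ← lintegral_const_mul' _ _ ENNReal.ofReal_ne_top]
    refine lintegral_mono_ae ?_
    filter_upwards [hell] with ω h
    rw [cw_snoc, mul_comm]
    gcongr
    exact h _ _ _
  have hwt : ∀ e n, wt HD.step ν 0 (pre e n) = ∫⁻ ω, ENNReal.ofReal
      (∏ i ∈ Finset.range n, ω (HD.pos e i) (e i) (HD.visits e i)) ∂μ := fun e n => by
    have h1 : ∫⁻ ω, ENNReal.ofReal
        (∏ i ∈ Finset.range n, ω (HD.pos e i) (e i) (HD.visits e i)) ∂μ =
        ∫⁻ ω, ∏ z ∈ pts HD.step 0 (pre e n), cw (ω z) (exits HD.step 0 (pre e n) z) ∂μ := by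
      refine lintegral_congr_ae ?_
      filter_upwards [h0] with ω h
      rw [ENNReal.ofReal_prod_of_nonneg fun i _ => h _ _ _, prod_eq ω e n _ subset_rfl]
    rw [h1, lintegral_prod_eq_prod_lintegral_of_indepFun _
      (fun (z : Fin d → ℤ) (ω : (Fin d → ℤ) → Fin d × Bool → ℕ → ℝ) =>
        cw (ω z) (exits HD.step 0 (pre e n) z))
      (hind.comp (fun z b => cw b (exits HD.step 0 (pre e n) z)) fun z => measurable_cw _)
      fun z => (measurable_cw _).comp (measurable_pi_apply z)]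
    refine Finset.prod_congr rfl fun z _ => ?_
    rw [hcyl]
    exact ((hid z).comp (measurable_cw _)).lintegral_eq.symm
  obtain ⟨S, hS1, hS, hA⟩ := s_law d ν P₀ hd0 fun e n => by rw [hP₀, hwt]
  obtain ⟨c, L, hL1, u, hu, v, hv, hc, hz, -⟩ :=
    s_pcs d ν _ (ENNReal.ofReal_pos.2 hκ).ne' uel m hm
  let M : Mod := ⟨Fin d × Bool, Fin d → ℤ, HD.step, ν, _, (ENNReal.ofReal_pos.2 hκ).ne', uel, L,
    hL1, u, hu, v, hv⟩
  have hst : ∀ γ : List (Fin d × Bool),
      0 ≤ ∑ s, (ν (cyl (γ ++ [s]))).toReal * L (HD.step s) := fun γ => by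
    let g : Fin d × Bool → ((Fin d → ℤ) → Fin d × Bool → ℕ → ℝ) → ℝ := fun s ω =>
      (∏ j ∈ Finset.range γ.length, ω 0 (γ.getD j default) j) * ω 0 s γ.length
    have g0 : ∀ s, 0 ≤ᵐ[μ] g s := fun s => h0.mono fun ω h =>
      mul_nonneg (Finset.prod_nonneg fun j _ => h _ _ _) (h _ _ _)
    have gm : ∀ s, Measurable (g s) := fun s => by
      refine (Finset.measurable_prod _ fun j _ => ?_).mul ?_ <;> fun_prop
    have g1 : ∀ s, ∫⁻ ω, ENNReal.ofReal (g s ω) ∂μ = ν (cyl (γ ++ [s])) := fun s => by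
      rw [hcyl]
      refine lintegral_congr_ae ?_
      filter_upwards [h0] with ω h
      rw [cw_snoc, cw, ← ENNReal.ofReal_prod_of_nonneg fun i _ => h _ _ _,
        ← ENNReal.ofReal_mul (Finset.prod_nonneg fun j _ => h _ _ _)]
    have gi : ∀ s, Integrable (g s) μ := fun s => ⟨(gm s).aestronglyMeasurable,
      (hasFiniteIntegral_iff_ofReal (g0 s)).2 (g1 s ▸ measure_lt_top _ _)⟩
    have h1 := hsub (fun j => γ.getD j default) γ.length
    have h2 : ∫ ω, ∑ s, g s ω * (c * L (HD.step s)) ∂μ =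
        c * ∑ s, (ν (cyl (γ ++ [s]))).toReal * L (HD.step s) := by
      rw [integral_finsetSum _ fun s _ => (gi s).mul_const _, Finset.mul_sum]
      refine Finset.sum_congr rfl fun s _ => ?_
      rw [integral_mul_const, integral_eq_lintegral_of_nonneg_ae (g0 s)
        (gm s).aestronglyMeasurable, g1]
      ring
    simp only [hz, Finset.mul_sum Finset.univ, ← mul_assoc _ (_ : ℝ) (c * _)] at h1
    exact nonneg_of_mul_nonneg_right (h2 ▸ h1) hc
  have h1 := bal_mod M S hS fun γ => by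
    obtain ⟨c', l', h⟩ := BalAuxA.wt_snoc HD.step ν γ
    change 0 ≤ ∑ s, (wt HD.step ν 0 (γ ++ [s])).toReal * L (HD.step s)
    simp only [h, ENNReal.toReal_mul, mul_assoc, ← Finset.mul_sum]
    exact mul_nonneg ENNReal.toReal_nonneg (hst l')
  have hB : 0 < ∑ j, |m j| := by
    obtain ⟨j, hj⟩ := Function.ne_iff.1 hm
    exact Finset.sum_pos' (fun _ _ => abs_nonneg _) ⟨j, Finset.mem_univ _, abs_pos.2 hj⟩
  refine rad_all d (by omega) μ hind hid hsum κ hκ hell P₀ hP₀ (9 / 20) (Or.inr ?_)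
    (fun h2 => ?_) l
  · have : (8 : ℝ) ≤ d := by exact_mod_cast hd
    rw [div_lt_iff₀ (by positivity)]
    linarith
  have hE : MeasurableSet {X : ℕ → Fin d → ℤ | ∃ N, ∀ n : ℕ, N ≤ n → ∃ k, k ≤ n ∧ ∃ j,
      c / (∑ j, |m j|) * (n : ℝ) ^ (9 / 20 : ℝ) ≤ |(X k j : ℝ)|} :=
    measurableSet_setOfPred.2 (Measurable.exists fun N => Measurable.forall fun n =>
      measurable_const.imp (Measurable.exists fun k => measurable_const.and
        (Measurable.exists fun j => (Measurable.of_discrete (f := fun z : Fin d → ℤ =>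
          c / (∑ j, |m j|) * (n : ℝ) ^ (9 / 20 : ℝ) ≤ |(z j : ℝ)|)).comp (measurable_pi_apply k))))
  have h3 : P₀ {X : ℕ → Fin d → ℤ | ∃ N, ∀ n : ℕ, N ≤ n → ∃ k, k ≤ n ∧ ∃ j,
      c / (∑ j, |m j|) * (n : ℝ) ^ (9 / 20 : ℝ) ≤ |(X k j : ℝ)|} = 0 := by
    refine measure_mono_null (fun X hX => ?_) h2
    exact ⟨c / ∑ j, |m j|, by positivity, eventually_atTop.2 hX⟩
  rw [hA _ hE] at h3
  obtain ⟨a, a1, a2⟩ := (h1.and (measure_eq_zero_iff_ae_notMem.1 h3)).exists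
  refine a2 (eventually_atTop.1 (a1.mono fun n hn => ?_))
  obtain ⟨k, b1, b2⟩ := hn
  refine ⟨k, b1.le, ?_⟩
  obtain ⟨j, -, hj⟩ := Finset.exists_max_image Finset.univ
    (fun j => |((disp HD.step (pre a k) j : ℤ) : ℝ)|) ⟨⟨0, hd0⟩, Finset.mem_univ _⟩
  refine ⟨j, ?_⟩
  rw [div_mul_eq_mul_div, div_le_iff₀ hB, Finset.mul_sum]
  refine (mul_le_mul_of_nonneg_left b2 hc.le).trans ?_
  rw [← abs_of_pos hc, ← abs_mul]
  refine le_trans (le_of_eq (congrArg abs (hz _).symm)) ((Finset.abs_sum_le_sum_abs _ _).trans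
    (Finset.sum_le_sum fun i _ => ?_))
  rw [abs_mul]
  exact mul_le_mul_of_nonneg_right (hj i (Finset.mem_univ _)) (abs_nonneg _)

end Pool.Agent.MP_db8016_pr.BZ

end

section

/-! Potentials on the histories of a site. -/

namespace Pool.Agent.MP_db8016_pr.BZ
open MeasureTheory ProbabilityTheory Filter Topology
open scoped ENNReal Classical

namespace Mod
variable (M : Mod)

/-- The history of the site where the path ends. -/
def hist (γ : List M.D) : List M.D := exits M.vec 0 γ (M.ds γ)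

/-- The sum of `φ` over the histories of all the sites. -/
noncomputable def Ph (φ : List M.D → ℝ) (γ : List M.D) : ℝ :=
  ∑ z ∈ pts M.vec 0 γ, φ (exits M.vec 0 γ z)

/-- The probability of a history. -/
noncomputable def pr (w : List M.D) : ℝ := M.ν.real (cyl w)

/-- A bounded potential for the level. -/
def Pot (φ : List M.D → ℝ) (C : ℝ) : Prop :=
  φ [] = 0 ∧ (∀ w, 0 ≤ φ w ∧ φ w ≤ C) ∧
    ∀ w, 0 ≤ ∑ s, M.pr (w ++ [s]) * (M.L (M.vec s) - φ (w ++ [s]) + φ w)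

/-- The drift of the level after the history `w`, times the probability of `w`. -/
noncomputable def dr (w : List M.D) : ℝ := ∑ s, M.pr (w ++ [s]) * M.L (M.vec s)

variable {M}

lemma sum_cyl {D : Type} [Fintype D] [MeasurableSpace D] [DiscreteMeasurableSpace D]
    (S : Measure (ℕ → D)) [IsProbabilityMeasure S] (γ : List D) :
    ∑ d, S.real (cyl (γ ++ [d])) = S.real (cyl γ) := by
  rw [← measureReal_iUnion_fintype (fun d d' h => Set.disjoint_left.2 fun a h1 h2 =>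
    h ((mem_cyl_snoc.1 h1).2.symm.trans (mem_cyl_snoc.1 h2).2)) fun d => measurableSet_cyl _]
  congr 1
  refine Set.Subset.antisymm (Set.iUnion_subset fun d => cyl_append_subset _ _) fun a ha => ?_
  exact Set.mem_iUnion.2 ⟨a γ.length, mem_cyl_snoc.2 ⟨ha, rfl⟩⟩

lemma sum_pr (w : List M.D) : ∑ s, M.pr (w ++ [s]) = M.pr w := sum_cyl M.ν w

lemma pr_ge (w : List M.D) (s : M.D) : M.κ.toReal * M.pr w ≤ M.pr (w ++ [s]) := by
  rw [pr, pr, Measure.real, Measure.real, ← ENNReal.toReal_mul]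
  exact ENNReal.toReal_mono (measure_ne_top _ _) (M.uel w s)

lemma pr_pos (w : List M.D) : 0 < M.pr w := by
  induction w using List.reverseRecOn with
  | nil => simp [pr]
  | append_singleton w s ih => exact (mul_pos (Step0Aux.κ_pos M) ih).trans_le (pr_ge w s)

lemma Ph_eq {φ : List M.D → ℝ} (h0 : φ [] = 0) {γ : List M.D} {T : Finset M.Pt}
    (hT : pts M.vec 0 γ ⊆ T) : M.Ph φ γ = ∑ z ∈ T, φ (exits M.vec 0 γ z) :=
  Finset.sum_subset hT fun z _ hz => by rw [(exits_eq_nil_iff M.vec).2 hz, h0]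

@[simp] lemma Ph_nil (φ : List M.D → ℝ) : M.Ph φ [] = 0 := by simp [Ph]

lemma Ph_nonneg {φ : List M.D → ℝ} (h : ∀ w, 0 ≤ φ w) (γ : List M.D) : 0 ≤ M.Ph φ γ :=
  Finset.sum_nonneg fun _ _ => h _

lemma Ph_snoc {φ : List M.D → ℝ} (h0 : φ [] = 0) (γ : List M.D) (s : M.D) :
    M.Ph φ (γ ++ [s]) = M.Ph φ γ + φ (M.hist γ ++ [s]) - φ (M.hist γ) := by
  rw [Ph_eq h0 (T := insert (M.ds γ) (pts M.vec 0 γ)) (by
    rw [pts_append]
    simp [pts_cons, ds]), Ph_eq h0 (Finset.subset_insert (M.ds γ) _),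
    ← Finset.sum_erase_add _ _ (Finset.mem_insert_self _ _),
    ← Finset.sum_erase_add _ _ (Finset.mem_insert_self _ _)]
  have h1 : ∀ z ∈ (insert (M.ds γ) (pts M.vec 0 γ)).erase (M.ds γ),
      φ (exits M.vec 0 (γ ++ [s]) z) = φ (exits M.vec 0 γ z) := fun z hz => by
    have := (Finset.ne_of_mem_erase hz).symm
    rw [exits_append]
    simp [exits_cons, show disp M.vec γ ≠ z from this]
  rw [Finset.sum_congr rfl h1, show exits M.vec 0 (γ ++ [s]) (M.ds γ) = M.hist γ ++ [s] by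
    rw [exits_append]
    simp [exits_cons, ds, hist]]
  unfold hist
  ring

lemma Ph_append {φ : List M.D → ℝ} {γ δ : List M.D} (h : M.Rc γ) (h' : M.NN δ) :
    M.Ph φ (γ ++ δ) = M.Ph φ γ + M.Ph φ δ := by
  have h1 : Disjoint (pts M.vec 0 γ) (pts M.vec (0 + disp M.vec γ) δ) := disjoint_pts h h' 0
  unfold Ph
  rw [pts_append, Finset.sum_union h1]
  congr 1
  · refine Finset.sum_congr rfl fun z hz => ?_
    rw [exits_append, (exits_eq_nil_iff M.vec).2 (Finset.disjoint_left.1 h1 hz), List.append_nil]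
  · rw [Finset.sum_congr rfl fun z hz => by
      rw [exits_append, (exits_eq_nil_iff M.vec).2 (Finset.disjoint_right.1 h1 hz), List.nil_append],
      pts_map M.vec (fun z => z + disp M.vec γ) M.vec (fun z d => by abel) 0 δ,
      Finset.sum_image fun a _ b _ hab => add_left_injective _ hab]
    exact Finset.sum_congr rfl fun z _ => by rw [exits_shift]

/-- The law of the next step. -/
lemma step_law {S : Measure (ℕ → M.D)} (hS : ∀ γ, S (cyl γ) = M.w γ) (γ : List M.D) :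
    ∃ c : ℝ, 0 ≤ c ∧ ∀ s, S.real (cyl (γ ++ [s])) = c * M.pr (M.hist γ ++ [s]) := by
  refine ⟨(∏ z ∈ (insert (M.ds γ) (pts M.vec 0 γ)).erase (M.ds γ),
    M.ν (cyl (exits M.vec 0 γ z))).toReal, ENNReal.toReal_nonneg, fun s => ?_⟩
  rw [Measure.real, hS, pr, Measure.real, ← ENNReal.toReal_mul, w,
    wt_eq_prod M.vec M.ν (T := insert (M.ds γ) (pts M.vec 0 γ)) (by
    rw [pts_append]
    simp [pts_cons, ds]), ← Finset.prod_erase_mul _ _ (Finset.mem_insert_self _ _)]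
  congr 2
  · refine Finset.prod_congr rfl fun z hz => ?_
    have := (Finset.ne_of_mem_erase hz).symm
    rw [exits_append]
    simp [exits_cons, show disp M.vec γ ≠ z from this]
  · rw [exits_append]
    simp [exits_cons, ds, hist]

end Mod

/-- The maximal inequality for a non-negative supermartingale that is stopped outside `W`. -/
theorem ville {D : Type} [Fintype D] [MeasurableSpace D] [DiscreteMeasurableSpace D]
    (S : Measure (ℕ → D)) [IsProbabilityMeasure S] (V : List D → ℝ) (W : List D → Prop)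
    (hW : ∀ γ, W γ → (∀ s, 0 ≤ V (γ ++ [s])) ∧
      ∑ s, S.real (cyl (γ ++ [s])) * V (γ ++ [s]) ≤ S.real (cyl γ) * V γ) {A : ℝ} (hA : 0 ≤ A)
    (m : ℕ) : ∀ γ, 0 ≤ V γ → S.real (cyl γ ∩ {a | ∃ k, γ.length ≤ k ∧ k ≤ γ.length + m ∧
      (∀ j, γ.length ≤ j → j < k → W (pre a j)) ∧ A ≤ V (pre a k)}) * A ≤ S.real (cyl γ) * V γ := by
  have key : ∀ m γ, 0 ≤ V γ → (¬ A ≤ V γ → W γ → 0 < m → S.real (cyl γ ∩ {a | ∃ k,
      γ.length ≤ k ∧ k ≤ γ.length + m ∧ (∀ j, γ.length ≤ j → j < k → W (pre a j)) ∧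
      A ≤ V (pre a k)}) * A ≤ S.real (cyl γ) * V γ) → S.real (cyl γ ∩ {a | ∃ k,
      γ.length ≤ k ∧ k ≤ γ.length + m ∧ (∀ j, γ.length ≤ j → j < k → W (pre a j)) ∧
      A ≤ V (pre a k)}) * A ≤ S.real (cyl γ) * V γ := by
    intro m γ h0 h
    by_cases h1 : A ≤ V γ
    · exact mul_le_mul (measureReal_mono Set.inter_subset_left) h1 hA measureReal_nonneg
    by_cases h2 : W γ ∧ 0 < m
    · exact h h1 h2.1 h2.2
    rw [Set.eq_empty_of_forall_notMem (s := cyl γ ∩ _), measureReal_empty, zero_mul]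
    · exact mul_nonneg measureReal_nonneg h0
    rintro a ⟨a1, k, a2, a3, a4, a5⟩
    have e : pre a γ.length = γ := a1
    rcases a2.eq_or_lt with rfl | a6
    · exact h1 (e ▸ a5)
    · exact h2 ⟨e ▸ a4 _ le_rfl a6, by omega⟩
  induction m with
  | zero => exact fun γ h0 => key 0 γ h0 fun _ _ h => absurd h (lt_irrefl _)
  | succ m ih =>
    refine fun γ h0 => key _ γ h0 fun h1 h2 _ => ?_
    refine le_trans ?_ ((Finset.sum_le_sum fun s _ => ih _ ((hW γ h2).1 s)).trans (hW γ h2).2)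
    rw [← Finset.sum_mul]
    refine mul_le_mul_of_nonneg_right (le_trans (measureReal_mono ?_)
      (measureReal_iUnion_fintype_le _)) hA
    rintro a ⟨a1, k, a2, a3, a4, a5⟩
    have e : pre a γ.length = γ := a1
    refine Set.mem_iUnion.2 ⟨a γ.length, mem_cyl_snoc.2 ⟨a1, rfl⟩, k, ?_, ?_, fun j b1 b2 => ?_, a5⟩
    · rw [List.length_append, List.length_singleton]
      exact a2.lt_of_ne fun h => h1 (e ▸ h ▸ a5)
    · rw [List.length_append, List.length_singleton]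
      omega
    · rw [List.length_append, List.length_singleton] at b1
      exact a4 j (by omega) b2

end Pool.Agent.MP_db8016_pr.BZ

end

section

/-! The potential that is given by optimal stopping. -/

namespace Pool.Agent.MP_db8016_pr.BZ
open MeasureTheory ProbabilityTheory Filter Topology
open scoped ENNReal Classical

namespace OptAuxH

/-- The values of the stopping problem. -/
noncomputable def F (M : Mod) : ℕ → List M.D → ℝ
  | 0, _ => 0
  | n + 1, w => max 0 (∑ s, F M n (w ++ [s]) - M.dr w)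

variable {M : Mod}

lemma F_nonneg (n : ℕ) (w : List M.D) : 0 ≤ F M n w := by
  cases n with
  | zero => exact le_rfl
  | succ n => exact le_max_left _ _

lemma dr_ge (w : List M.D) : -M.dr w ≤ M.pr w := by
  rw [← Mod.sum_pr w, Mod.dr, ← Finset.sum_neg_distrib]
  refine Finset.sum_le_sum fun s _ => ?_
  have h1 := (abs_le.1 (M.hL s)).1
  have h2 := (Mod.pr_pos (w ++ [s])).le
  nlinarith

lemma F_le (n : ℕ) (w : List M.D) : F M n w ≤ n * M.pr w := by
  induction n generalizing w with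
  | zero => simp [F]
  | succ n ih =>
    have h0 := (Mod.pr_pos w).le
    refine max_le (by positivity) ?_
    have h1 : ∑ s, F M n (w ++ [s]) ≤ n * M.pr w := by
      rw [← Mod.sum_pr w, Finset.mul_sum]
      exact Finset.sum_le_sum fun s _ => ih _
    have h2 := dr_ge w
    push_cast
    linarith

lemma F_eq (n : ℕ) (w : List M.D) : ∃ B : Finset (List M.D),
    (∀ x s, x ++ [s] ∈ B → x ∈ B) ∧ F M n w = -∑ x ∈ B, M.dr (w ++ x) := by
  induction n generalizing w with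
  | zero => exact ⟨∅, by simp, by simp [F]⟩
  | succ n ih =>
    choose B hB hF using fun s => ih (w ++ [s])
    rcases le_total (∑ s, F M n (w ++ [s]) - M.dr w) 0 with h | h
    · exact ⟨∅, by simp, by rw [F, max_eq_left h]; simp⟩
    refine ⟨insert [] (Finset.univ.biUnion fun s => (B s).image (List.cons s)), ?_, ?_⟩
    · rintro (_ | ⟨a, x⟩) t hx
      · exact Finset.mem_insert_self _ _
      · simp only [Finset.mem_insert, Finset.mem_biUnion, Finset.mem_univ, Finset.mem_image,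
          true_and, List.cons_append, reduceCtorEq, false_or, List.cons.injEq] at hx ⊢
        obtain ⟨s, y, hy, rfl, rfl⟩ := hx
        exact ⟨s, x, hB s _ _ hy, rfl, rfl⟩
    · rw [F, max_eq_right h, Finset.sum_insert (by simp), Finset.sum_biUnion, List.append_nil]
      · have : ∀ s, ∑ x ∈ (B s).image (List.cons s), M.dr (w ++ x) = -F M n (w ++ [s]) := by
          intro s
          rw [Finset.sum_image fun a _ b _ hab => (List.cons.inj hab).2, hF, neg_neg]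
          exact Finset.sum_congr rfl fun x _ => by simp
        simp only [this, Finset.sum_neg_distrib]
        ring
      · intro s _ t _ hst
        refine Finset.disjoint_left.2 fun x h1 h2 => hst ?_
        obtain ⟨y, -, rfl⟩ := Finset.mem_image.1 h1
        obtain ⟨z, -, e⟩ := Finset.mem_image.1 h2
        exact (List.cons.inj e).1.symm

lemma sum_eq (φ : List M.D → ℝ) (w : List M.D) :
    ∑ s, M.pr (w ++ [s]) * (M.L (M.vec s) - φ (w ++ [s]) + φ w) =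
      M.dr w - ∑ s, M.pr (w ++ [s]) * φ (w ++ [s]) + M.pr w * φ w := by
  rw [← Mod.sum_pr w, Mod.dr, Finset.sum_mul, ← Finset.sum_sub_distrib, ← Finset.sum_add_distrib]
  exact Finset.sum_congr rfl fun s _ => by ring

lemma pot1 (N : ℕ) (hN : ∀ w : List M.D, N ≤ w.length → 0 ≤ M.dr w)
    (hB : ∀ B : Finset (List M.D), (∀ w s, w ++ [s] ∈ B → w ∈ B) → 0 ≤ ∑ w ∈ B, M.dr w) :
    M.Pot (fun w => F M (N - w.length) w / M.pr w) N := by
  refine ⟨?_, fun w => ⟨div_nonneg (F_nonneg _ _) (Mod.pr_pos w).le, ?_⟩, fun w => ?_⟩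
  · obtain ⟨B, h1, h2⟩ := F_eq (M := M) N []
    have h3 := hB B h1
    have h4 := F_nonneg (M := M) N []
    simp only [List.nil_append] at h2
    have h5 : F M N [] = 0 := by linarith
    simp [h5]
  · rw [div_le_iff₀ (Mod.pr_pos w)]
    refine (F_le _ _).trans (mul_le_mul_of_nonneg_right ?_ (Mod.pr_pos w).le)
    exact_mod_cast Nat.sub_le _ _
  · have e : ∀ (x : ℝ) (w : List M.D), M.pr w * (x / M.pr w) = x :=
      fun x w => mul_div_cancel₀ x (Mod.pr_pos w).ne'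
    refine le_of_le_of_eq ?_ (sum_eq (fun w => F M (N - w.length) w / M.pr w) w).symm
    simp only [e, List.length_append, List.length_singleton]
    rcases Nat.lt_or_ge w.length N with h | h
    · rw [show N - w.length = N - (w.length + 1) + 1 by omega, F]
      have := le_max_right 0 (∑ s, F M (N - (w.length + 1)) (w ++ [s]) - M.dr w)
      linarith
    · rw [show N - w.length = 0 by omega, show N - (w.length + 1) = 0 by omega]
      simpa [F] using hN w h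

lemma pot2 (h : ∀ w, 0 ≤ M.dr w) (w0 : List M.D) :
    M.Pot (fun w => if w0 <+: w ∧ w0 ≠ w then M.dr w0 / M.pr w0 else 0) (M.dr w0 / M.pr w0) := by
  have h0 : 0 ≤ M.dr w0 / M.pr w0 := div_nonneg (h w0) (Mod.pr_pos w0).le
  refine ⟨if_neg fun H => H.2 (List.prefix_nil.1 H.1), fun w => ?_, fun w => ?_⟩
  · dsimp only
    split_ifs
    · exact ⟨h0, le_rfl⟩
    · exact ⟨le_rfl, h0⟩
  refine le_of_le_of_eq ?_
    (sum_eq (fun w => if w0 <+: w ∧ w0 ≠ w then M.dr w0 / M.pr w0 else 0) w).symm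
  have e : ∀ s, (w0 <+: w ++ [s] ∧ w0 ≠ w ++ [s]) ↔ w0 <+: w := fun s => by
    rw [List.prefix_concat_iff]
    refine ⟨fun H => H.1.resolve_left H.2, fun H => ⟨Or.inr H, fun e => ?_⟩⟩
    have := H.length_le
    rw [e, List.length_append, List.length_singleton] at this
    omega
  simp only [e]
  rw [← Finset.sum_mul, Mod.sum_pr]
  by_cases h1 : w0 = w
  · subst h1
    rw [if_pos List.prefix_rfl, if_neg fun H => H.2 rfl, mul_div_cancel₀ _ (Mod.pr_pos w0).ne']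
    simp
  · simp only [ne_eq, h1, not_false_eq_true, and_true]
    linarith [h w]

end OptAuxH

theorem opt_pot (M : Mod) (N : ℕ) (hN : ∀ w : List M.D, N ≤ w.length → 0 ≤ M.dr w)
    (hB : ∀ B : Finset (List M.D), (∀ w s, w ++ [s] ∈ B → w ∈ B) → 0 ≤ ∑ w ∈ B, M.dr w) :
    ∃ (φ : List M.D → ℝ) (C : ℝ), M.Pot φ C ∧ ((∃ w, M.dr w ≠ 0) → ∃ w, 0 < φ w) := by
  have h1 := OptAuxH.pot1 N hN hB
  generalize (fun w => OptAuxH.F M (N - w.length) w / M.pr w) = φ at h1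
  by_cases h2 : (∃ w, M.dr w ≠ 0) → ∃ w, 0 < φ w
  · exact ⟨φ, N, h1, h2⟩
  obtain ⟨⟨w0, h3⟩, h4⟩ := Classical.not_imp.1 h2
  have h5 : ∀ w, φ w = 0 := fun w => le_antisymm (not_lt.1 fun h => h4 ⟨w, h⟩) (h1.2.1 w).1
  have h6 : ∀ w, 0 ≤ M.dr w := fun w => by
    have := h1.2.2 w
    rw [OptAuxH.sum_eq] at this
    simpa [h5] using this
  refine ⟨_, _, OptAuxH.pot2 h6 w0, fun _ => ⟨w0 ++ [M.u], ?_⟩⟩
  rw [if_pos ⟨List.prefix_append _ _, by simp⟩]
  exact div_pos (lt_of_le_of_ne (h6 w0) h3.symm) (Mod.pr_pos w0)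

end Pool.Agent.MP_db8016_pr.BZ

end

section

/-! The level minus the potential grows at least like a martingale. -/

namespace Pool.Agent.MP_db8016_pr.BZ
open MeasureTheory ProbabilityTheory Filter Topology
open scoped ENNReal Classical

namespace OscAuxH

variable {M : Mod} {S : Measure (ℕ → M.D)} [IsProbabilityMeasure S] {φ : List M.D → ℝ} {C : ℝ}

lemma sup_of (hS : ∀ γ, S (cyl γ) = M.w γ) (V : List M.D → ℝ) (γ : List M.D)
    (h : ∑ s, M.pr (M.hist γ ++ [s]) * V (γ ++ [s]) ≤ M.pr (M.hist γ) * V γ) :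
    ∑ s, S.real (cyl (γ ++ [s])) * V (γ ++ [s]) ≤ S.real (cyl γ) * V γ := by
  obtain ⟨c, h0, hc⟩ := Mod.step_law hS γ
  rw [← Mod.sum_cyl S γ]
  simp only [hc, mul_assoc, ← Finset.mul_sum, Mod.sum_pr]
  exact mul_le_mul_of_nonneg_left h h0

lemma var (h : M.Pot φ C) : ∃ (c : ℝ) (ψ : List M.D → ℝ), 0 < c ∧ ψ [] = 0 ∧ (∀ w, ψ w ≤ 0) ∧
    ∀ l, c * M.pr l ≤ ∑ s, M.pr (l ++ [s]) *
      ((M.L (M.vec s) - φ (l ++ [s]) + φ l) ^ 2 + ψ (l ++ [s]) - ψ l) := by
  have hk := Step0Aux.κ_pos M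
  have hk1 : M.κ.toReal ≤ 1 :=
    ENNReal.toReal_le_of_le_ofReal zero_le_one (by simpa using M.κ_le_one)
  obtain ⟨k, hk2⟩ : ∃ k, k = M.κ.toReal := ⟨_, rfl⟩
  rw [← hk2] at hk hk1
  obtain ⟨lam, hl⟩ : ∃ lam, lam = Real.log (2 / k) := ⟨_, rfl⟩
  have l0 : 0 ≤ lam := hl ▸ Real.log_nonneg (by rw [le_div_iff₀ hk]; linarith)
  have l1 : k * Real.exp lam = 2 := by
    rw [hl, Real.exp_log (by positivity)]
    field_simp
  have E1 : ∀ w, Real.exp (-(2 * lam * φ w)) ≤ 1 := fun w =>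
    Real.exp_le_one_iff.2 (neg_nonpos.2 (mul_nonneg (by linarith) (h.2.1 w).1))
  refine ⟨k / 8 * Real.exp (-(2 * lam * C)), fun w => k / 8 * (Real.exp (-(2 * lam * φ w)) - 1),
    by positivity, by simp [h.1], fun w => mul_nonpos_of_nonneg_of_nonpos (by positivity)
      (by linarith [E1 w]), fun l => ?_⟩
  have E2 : Real.exp (-(2 * lam * C)) ≤ Real.exp (-(2 * lam * φ l)) :=
    Real.exp_le_exp.2 (neg_le_neg (mul_le_mul_of_nonneg_left (h.2.1 l).2 (by linarith)))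
  have h1 : ∑ s, M.pr (l ++ [s]) * ((M.L (M.vec s) - φ (l ++ [s]) + φ l) ^ 2 +
      k / 8 * (Real.exp (-(2 * lam * φ (l ++ [s]))) - 1) -
      k / 8 * (Real.exp (-(2 * lam * φ l)) - 1)) =
      ∑ s, M.pr (l ++ [s]) * ((M.L (M.vec s) - φ (l ++ [s]) + φ l) ^ 2 +
      k / 8 * Real.exp (-(2 * lam * φ (l ++ [s])))) -
        M.pr l * (k / 8 * Real.exp (-(2 * lam * φ l))) := by
    rw [← Mod.sum_pr l, Finset.sum_mul, ← Finset.sum_sub_distrib]
    exact Finset.sum_congr rfl fun s _ => by ring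
  have h2 := Finset.single_le_sum (f := fun s => M.pr (l ++ [s]) *
      ((M.L (M.vec s) - φ (l ++ [s]) + φ l) ^ 2 + k / 8 * Real.exp (-(2 * lam * φ (l ++ [s])))))
    (fun s _ => mul_nonneg (Mod.pr_pos _).le (by positivity)) (Finset.mem_univ M.v)
  have h3 := mul_le_mul_of_nonneg_right (hk2 ▸ Mod.pr_ge l M.v)
    (show 0 ≤ (M.L (M.vec M.v) - φ (l ++ [M.v]) + φ l) ^ 2 +
      k / 8 * Real.exp (-(2 * lam * φ (l ++ [M.v]))) by positivity)
  have h4 : k / 8 * Real.exp (-(2 * lam * C)) + k / 8 * Real.exp (-(2 * lam * φ l)) ≤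
      k * ((M.L (M.vec M.v) - φ (l ++ [M.v]) + φ l) ^ 2 +
        k / 8 * Real.exp (-(2 * lam * φ (l ++ [M.v])))) := by
    rw [M.L_v]
    rcases le_total (-1 - φ (l ++ [M.v]) + φ l) (-1 / 2) with h5 | h5
    · have h6 : 1 / 4 ≤ (-1 - φ (l ++ [M.v]) + φ l) ^ 2 := by nlinarith
      have h7 : 0 ≤ k / 8 * Real.exp (-(2 * lam * φ (l ++ [M.v]))) := by positivity
      nlinarith [E1 l]
    · have h6 : Real.exp lam * Real.exp (-(2 * lam * φ l)) ≤
          Real.exp (-(2 * lam * φ (l ++ [M.v]))) := by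
        rw [← Real.exp_add, Real.exp_le_exp]
        nlinarith
      have h7 := mul_le_mul_of_nonneg_left h6 hk.le
      rw [← mul_assoc, l1] at h7
      nlinarith [sq_nonneg (-1 - φ (l ++ [M.v]) + φ l)]
  rw [h1]
  nlinarith [mul_le_mul_of_nonneg_left h4 (Mod.pr_pos l).le]

lemma est (hS : ∀ γ, S (cyl γ) = M.w γ) (h : M.Pot φ C) : ∃ c : ℝ, 0 < c ∧
    ∀ (r L : ℝ) (n : ℕ), 0 < r → 0 < L → 0 < n →
      S.real {a | ∀ k ≤ n, M.lv (pre a k) - M.Ph φ (pre a k) < r} ≤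
        (r + (1 + C)) / (L + r + (1 + C)) + (L + r + (1 + C)) ^ 2 / (c * n) := by
  obtain ⟨c, ψ, hc, p0, p1, p2⟩ := var h
  refine ⟨c, hc, fun r L n hr hL hn => ?_⟩
  have hC : 0 ≤ C := (h.2.1 []).1.trans (h.2.1 []).2
  obtain ⟨Z, hZ⟩ : ∃ Z : List M.D → ℝ, Z = fun γ => M.lv γ - M.Ph φ γ := ⟨_, rfl⟩
  have Z0 : Z [] = 0 := by simp [hZ]
  have Z1 : ∀ γ s, Z (γ ++ [s]) =
      Z γ + (M.L (M.vec s) - φ (M.hist γ ++ [s]) + φ (M.hist γ)) := fun γ s => by
    simp only [hZ, Mod.Ph_snoc h.1, Mod.lv_append, Mod.lv_cons, Mod.lv_nil]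
    ring
  have Z2 : ∀ γ s, Z γ - (1 + C) ≤ Z (γ ++ [s]) ∧ Z (γ ++ [s]) ≤ Z γ + (1 + C) := fun γ s => by
    have a1 := abs_le.1 (M.hL s)
    have a2 := h.2.1 (M.hist γ ++ [s])
    have a3 := h.2.1 (M.hist γ)
    rw [Z1]
    constructor <;> linarith [a1.1, a1.2, a2.1, a2.2, a3.1, a3.2]
  have n0 : (0 : ℝ) < n := by exact_mod_cast hn
  have h1 := ville S (fun γ => r + (1 + C) - Z γ) (fun γ => -L < Z γ ∧ Z γ < r)
    (fun γ hγ => ⟨fun s => by linarith [(Z2 γ s).2, hγ.2],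
      sup_of hS (fun γ => r + (1 + C) - Z γ) γ (by
      have a1 := h.2.2 (M.hist γ)
      rw [← Mod.sum_pr (M.hist γ), Finset.sum_mul, ← sub_nonneg, ← Finset.sum_sub_distrib]
      refine a1.trans (le_of_eq (Finset.sum_congr rfl fun s _ => ?_))
      rw [Z1]
      ring)⟩) (A := L + r + (1 + C)) (by linarith) n [] (by rw [Z0]; linarith)
  have h2 := ville S (fun γ => (L + r + (1 + C)) ^ 2 - (Z γ + L) ^ 2 - M.Ph ψ γ + c * γ.length)
    (fun γ => -L < Z γ ∧ Z γ < r) (fun γ hγ => ⟨fun s => by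
      have a1 : (Z (γ ++ [s]) + L) ^ 2 ≤ (L + r + (1 + C)) ^ 2 :=
        sq_le_sq' (by linarith [(Z2 γ s).1, hγ.1]) (by linarith [(Z2 γ s).2, hγ.2])
      have a2 : M.Ph ψ (γ ++ [s]) ≤ 0 := Finset.sum_nonpos fun _ _ => p1 _
      have a3 : 0 ≤ c * ((γ ++ [s]).length : ℝ) := by positivity
      linarith, sup_of hS
        (fun γ => (L + r + (1 + C)) ^ 2 - (Z γ + L) ^ 2 - M.Ph ψ γ + c * γ.length) γ (by
      have a1 := mul_nonneg (show 0 ≤ 2 * (Z γ + L) by linarith [hγ.1]) (h.2.2 (M.hist γ))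
      have a2 := p2 (M.hist γ)
      rw [← Mod.sum_pr (M.hist γ), Finset.mul_sum, ← sub_nonneg, ← Finset.sum_sub_distrib] at a2
      rw [Finset.mul_sum] at a1
      rw [← Mod.sum_pr (M.hist γ), Finset.sum_mul, ← sub_nonneg, ← Finset.sum_sub_distrib]
      refine (add_nonneg a1 a2).trans (le_of_eq ?_)
      rw [← Finset.sum_add_distrib]
      refine Finset.sum_congr rfl fun s _ => ?_
      rw [Z1, Mod.Ph_snoc p0, List.length_append, List.length_singleton]
      push_cast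
      ring)⟩) (A := c * n) (by positivity) n [] (by
      rw [Z0]
      simp only [Mod.Ph_nil, List.length_nil, Nat.cast_zero]
      nlinarith)
  simp only [cyl_nil, Set.univ_inter, List.length_nil, zero_le, forall_const, zero_add, true_and,
    probReal_univ, one_mul, Z0, Mod.Ph_nil, Nat.cast_zero, mul_zero, add_zero, sub_zero] at h1 h2
  rw [← le_div_iff₀ (by positivity)] at h1 h2
  refine le_trans (measureReal_mono ?_) ((measureReal_union_le _ _).trans (add_le_add h1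
    (h2.trans (div_le_div_of_nonneg_right (by nlinarith) (by positivity)))))
  intro a ha
  have ha' : ∀ k ≤ n, Z (pre a k) < r := by
    rw [hZ]
    exact ha
  by_cases hx : ∃ k, k ≤ n ∧ Z (pre a k) ≤ -L
  · have b1 := Nat.find_spec hx
    refine Or.inl ⟨Nat.find hx, b1.1, fun j hj => ⟨?_, ha' j (hj.le.trans b1.1)⟩, by linarith [b1.2]⟩
    exact not_le.1 fun b2 => Nat.find_min hx hj ⟨hj.le.trans b1.1, b2⟩
  · push Not at hx
    refine Or.inr ⟨n, le_rfl, fun j hj => ⟨hx j hj.le, ha' j hj.le⟩, ?_⟩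
    have a1 : (Z (pre a n) + L) ^ 2 ≤ (L + r + (1 + C)) ^ 2 :=
      sq_le_sq' (by linarith [hx n le_rfl]) (by linarith [ha' n le_rfl])
    have a2 : M.Ph ψ (pre a n) ≤ 0 := Finset.sum_nonpos fun _ _ => p1 _
    rw [pre_length]
    linarith

end OscAuxH

open OscAuxH

theorem pot_mod (M : Mod) (S : Measure (ℕ → M.D)) [IsProbabilityMeasure S]
    (hS : ∀ γ, S (cyl γ) = M.w γ) (φ : List M.D → ℝ) (C : ℝ) (h : M.Pot φ C) :
    ∀ᵐ a ∂S, ∀ᶠ j : ℕ in atTop, ∃ k ≤ (2 ^ 40) ^ j,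
      ((2 : ℝ) ^ 18) ^ j ≤ M.lv (pre a k) - M.Ph φ (pre a k) := by
  obtain ⟨c, hc, h1⟩ := est hS h
  have hC : 0 ≤ C := (h.2.1 []).1.trans (h.2.1 []).2
  have h2 : Summable fun j : ℕ => S.real {a | ∀ k ≤ (2 ^ 40) ^ j,
      M.lv (pre a k) - M.Ph φ (pre a k) < ((2 : ℝ) ^ 18) ^ j} := by
    refine Summable.of_nonneg_of_le (fun _ => measureReal_nonneg) (fun j => ?_)
      (summable_geometric_two.mul_left (2 + C + (3 + C) ^ 2 / c))
    obtain ⟨t, ht⟩ : ∃ t, t = (2 : ℝ) ^ j := ⟨_, rfl⟩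
    have t1 : 1 ≤ t := ht ▸ one_le_pow₀ one_le_two
    have e1 : ((2 : ℝ) ^ 18) ^ j = t ^ 18 := by rw [ht, ← pow_mul, ← pow_mul, mul_comm]
    have e2 : (((2 ^ 40) ^ j : ℕ) : ℝ) = t ^ 40 := by
      rw [ht, ← pow_mul, ← pow_mul, mul_comm]
      push_cast
      rfl
    have e3 : (1 / 2 : ℝ) ^ j = t⁻¹ := by rw [ht, one_div, inv_pow]
    refine (h1 _ (t ^ 19) _ (by positivity) (by positivity) (by positivity)).trans ?_
    rw [e1, e2, e3, add_mul]
    have p1 : 1 ≤ t ^ 18 := one_le_pow₀ t1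
    have p2 : t ^ 18 ≤ t ^ 19 := pow_le_pow_right₀ t1 (by norm_num)
    refine add_le_add ?_ ?_
    · rw [← div_eq_mul_inv, div_le_div_iff₀ (by positivity) (by positivity)]
      have : t ^ 19 = t ^ 18 * t := by ring
      nlinarith [mul_le_mul_of_nonneg_left p1 (show 0 ≤ (1 + C) * t by positivity),
        mul_nonneg (show 0 ≤ 2 + C by linarith) (show 0 ≤ t ^ 18 + (1 + C) by positivity)]
    · have p3 : t ^ 19 + t ^ 18 + (1 + C) ≤ (3 + C) * t ^ 19 := by nlinarith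
      have p4 : t ^ 39 ≤ t ^ 40 := pow_le_pow_right₀ t1 (by norm_num)
      rw [← div_eq_mul_inv, div_div, div_le_div_iff₀ (by positivity) (by positivity)]
      calc _ ≤ ((3 + C) * t ^ 19) ^ 2 * (c * t) := by gcongr
        _ = (3 + C) ^ 2 * (c * t ^ 39) := by ring
        _ ≤ _ := by gcongr
  have h3 : ∑' j : ℕ, S {a | ∀ k ≤ (2 ^ 40) ^ j,
      M.lv (pre a k) - M.Ph φ (pre a k) < ((2 : ℝ) ^ 18) ^ j} ≠ ⊤ := by
    have := ENNReal.ofReal_tsum_of_nonneg (fun n => measureReal_nonneg) h2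
    simp only [Measure.real, ENNReal.ofReal_toReal (measure_ne_top S _)] at this
    rw [← this]
    exact ENNReal.ofReal_ne_top
  filter_upwards [ae_eventually_notMem h3] with a ha
  refine ha.mono fun n hn => ?_
  simpa only [Set.mem_ofPred_eq, not_forall, not_lt, exists_prop] using hn

end Pool.Agent.MP_db8016_pr.BZ

end

section

/-! A functional that beats a potential has a positive slope. -/

namespace Pool.Agent.MP_db8016_pr.BZ
open MeasureTheory ProbabilityTheory Filter Topology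
open scoped ENNReal Classical

namespace StrAuxH

lemma det {M : Mod} {a : ℕ → M.D} {v r β : ℝ} {e : M.Pt →+ ℝ} {φ : List M.D → ℝ}
    (hφ : ∀ w, 0 ≤ φ w) (hG : M.Gd a) (hv : 0 < v) (hr : 0 < r)
    (h : Tendsto (fun n : ℕ => (∑ i ∈ Finset.range n, M.lv (M.pc (M.Tn^[i] a))) / n) atTop
      (𝓝 v))
    (h' : Tendsto (fun n : ℕ => (∑ i ∈ Finset.range n, min (M.Ph φ (M.pc (M.Tn^[i] a))) 1) / n)
      atTop (𝓝 r))
    (hβ : Tendsto (fun k => e (M.ds (pre a k)) / M.lv (pre a k)) atTop (𝓝 β)) (hβ0 : β ≤ 0) :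
    ∃ K, ∀ k, K ≤ k → e (M.ds (pre a k)) - M.Ph φ (pre a k) ≤ 0 := by
  obtain ⟨h1, hm, h3⟩ := a_cat M a hG
  obtain ⟨N, hN⟩ := eventually_atTop.1 ((h'.eventually_const_le (half_lt_self hr)).and
    (h.eventually_le_const (lt_add_of_pos_right v hv)))
  have hE : Tendsto (fun n => M.lv (pre a n)) atTop atTop := (hG 0).1.2
  obtain ⟨K, hK⟩ := eventually_atTop.1 ((hβ.eventually_le_const
    (hβ0.trans_lt (by positivity : 0 < r / (8 * v)))).and (hE.eventually_gt_atTop 0))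
  have hV : ∀ n, ∑ i ∈ Finset.range n, M.lv (M.pc (M.Tn^[i] a)) = M.lv (pre a (M.tt a n)) :=
    fun n => by simp only [Mod.lv, (h1 n).2.2.2, map_sum]
  have hP : ∀ n, ∑ i ∈ Finset.range n, min (M.Ph φ (M.pc (M.Tn^[i] a))) 1 ≤
      M.Ph φ (pre a (M.tt a n)) := fun n => by
    induction n with
    | zero => simpa using Mod.Ph_nonneg hφ _
    | succ n ih =>
      rw [Finset.sum_range_succ, (h1 n).2.2.1, Mod.Ph_append (h1 n).2.1.2 (hG n).2.1.1]
      exact add_le_add ih (min_le_left _ _)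
  refine ⟨max K (M.tt a (N + 1)), fun k hk => ?_⟩
  obtain ⟨n, δ, b1, -, -, b4, b5⟩ := h3 k
  have hn : N + 1 ≤ n :=
    Nat.lt_succ_iff.1 (hm.lt_iff_lt.1 (((le_max_right _ _).trans hk).trans_lt b4))
  have n1 : (1 : ℝ) ≤ n := by exact_mod_cast (show 1 ≤ n by omega)
  have c1 := (hN n (by omega)).1
  have c2 := (hN (n + 1) (by omega)).2
  rw [le_div_iff₀ (by linarith)] at c1
  rw [hV, div_le_iff₀ (by positivity)] at c2
  push_cast at c2
  have c3 : M.lv (pre a k) ≤ M.lv (pre a (M.tt a (n + 1))) := by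
    have h4 := CatAuxA.pre_pf a b4.le
    by_cases e : pre a k = pre a (M.tt a (n + 1))
    · exact le_of_eq (congrArg M.lv e)
    · exact ((h1 (n + 1)).2.1.2 _ h4 e).le
  have c4 : M.Ph φ (pre a (M.tt a n)) ≤ M.Ph φ (pre a k) := by
    rw [b5, Mod.Ph_append (h1 n).2.1.2 ((hG n).2.1.1.of_pf b1)]
    linarith [Mod.Ph_nonneg hφ δ]
  obtain ⟨c5, c6⟩ := hK k ((le_max_left _ _).trans hk)
  rw [div_le_iff₀ c6] at c5
  have c7 : M.lv (pre a k) ≤ 4 * v * n := by nlinarith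
  have c8 : r / (8 * v) * M.lv (pre a k) ≤ r / (8 * v) * (4 * v * n) :=
    mul_le_mul_of_nonneg_left c7 (by positivity)
  have c9 : r / (8 * v) * (4 * v * n) = r / 2 * n := by field_simp; ring
  linarith [hP n]

end StrAuxH

theorem str_mod (M : Mod) (S : Measure (ℕ → M.D)) [IsProbabilityMeasure S]
    (hS : ∀ γ, S (cyl γ) = M.w γ) (h0 : S M.Esc ≠ 0) (e : M.Pt →+ ℝ) (φ : List M.D → ℝ)
    (hφ : ∀ w, 0 ≤ φ w) (hπ : ∃ π, M.Irr π ∧ 0 < M.Ph φ π)
    (hsup : ∀ᵐ a ∂S, ∀ R : ℝ, ∃ k, R ≤ e (M.ds (pre a k)) - M.Ph φ (pre a k)) (β : ℝ)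
    (hβ : ∀ᵐ a ∂S, a ∈ M.Esc →
      Tendsto (fun k => e (M.ds (pre a k)) / M.lv (pre a k)) atTop (𝓝 β)) : 0 < β := by
  obtain ⟨hS', -, -⟩ := a_law M S hS h0
  have hP := a_reg a_i1 a_i2 M S hS'
  have := hP.1
  have f2 : M.EP (fun π => |M.lv π|) ≠ ⊤ := ne_top_of_le_ne_top (range_fin M S hS h0 M.L M.hL)
    (DetAuxA.EP_mono M fun π => Mod.abs_le_Rg M.L List.prefix_rfl)
  have hpos : ∀ᵐ a ∂(S[|M.Nn]), 0 < M.lv (M.pc a) := hP.2.2.1.mono fun a ha => by
    have := (ha 0).2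
    simpa using this.1.2 [] List.nil_prefix this.2.1.symm
  have hi : Integrable (fun a => M.lv (M.pc a)) (S[|M.Nn]) := by
    refine ⟨(Mod.measurable_pc M.lv).aestronglyMeasurable, ?_⟩
    rw [hasFiniteIntegral_iff_norm, a_int M _ hP fun π => ENNReal.ofReal ‖M.lv π‖]
    exact f2.lt_top
  have hnn : 0 ≤ᵐ[S[|M.Nn]] fun a => M.lv (M.pc a) := hpos.mono fun a ha => ha.le
  have hv : 0 < ∫ a, M.lv (M.pc a) ∂(S[|M.Nn]) := by
    refine (integral_nonneg_of_ae hnn).lt_of_ne' fun h0 => ?_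
    obtain ⟨a, a1, a2⟩ := (hpos.and ((integral_eq_zero_iff_of_nonneg_ae hnn hi).1 h0)).exists
    exact a1.ne' a2
  obtain ⟨f, hf⟩ : ∃ f : List M.D → ℝ, f = fun π => min (M.Ph φ π) 1 := ⟨_, rfl⟩
  have g0 : ∀ π, 0 ≤ f π := fun π => by rw [hf]; exact le_min (Mod.Ph_nonneg hφ _) zero_le_one
  have g1 : ∀ π, |f π| ≤ 1 := fun π => by rw [abs_of_nonneg (g0 π), hf]; exact min_le_right _ _
  have gi : Integrable (fun a => f (M.pc a)) (S[|M.Nn]) :=
    Integrable.of_bound (Mod.measurable_pc f).aestronglyMeasurable 1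
      (Eventually.of_forall fun a => g1 _)
  have g2 : M.EP (fun π => |f π|) ≠ ⊤ := by
    have h1 := gi.2
    rw [hasFiniteIntegral_iff_norm, a_int M _ hP fun π => ENNReal.ofReal ‖f π‖] at h1
    exact h1.ne
  have hr : 0 < ∫ a, f (M.pc a) ∂(S[|M.Nn]) := by
    refine (integral_nonneg fun a => g0 _).lt_of_ne' fun h1 => ?_
    obtain ⟨π, p1, p2⟩ := hπ
    have h2 := ofReal_integral_eq_lintegral_ofReal gi (Eventually.of_forall fun a => g0 _)
    rw [h1, ENNReal.ofReal_zero, a_int M _ hP fun π => ENNReal.ofReal (f π), eq_comm,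
      ENNReal.tsum_eq_zero] at h2
    have h3 := h2 π
    rw [if_pos p1, mul_eq_zero, ENNReal.ofReal_eq_zero] at h3
    rcases h3 with h3 | h3
    · have h4 := M.w_append_ge [] π
      rw [List.nil_append, h3, Mod.w_nil, mul_one, nonpos_iff_eq_zero] at h4
      exact pow_ne_zero _ M.hκ h4
    · rw [hf] at h3
      exact absurd h3 (not_le.2 (lt_min p2 one_pos))
  have hac : S[|M.Nn] ≪ S := cond_absolutelyContinuous
  obtain ⟨a, ⟨⟨a0, a1⟩, a2⟩, a3, a4⟩ := (((hP.2.2.1.and (a_slln a_int M _ M.lv hP f2)).and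
    (a_slln a_int M _ f hP g2)).and ((hsup.and hβ).filter_mono hac.ae_le)).exists
  by_contra hb
  rw [hf] at a2
  obtain ⟨K, hK⟩ := StrAuxH.det hφ a0 hv (hf ▸ hr) a1 a2 (a4 (a0 0).1.2) (not_lt.1 hb)
  obtain ⟨k, hk⟩ := a3 (1 + ∑ k ∈ Finset.range K, |e (M.ds (pre a k)) - M.Ph φ (pre a k)|)
  have h5 : 0 ≤ ∑ k ∈ Finset.range K, |e (M.ds (pre a k)) - M.Ph φ (pre a k)| :=
    Finset.sum_nonneg fun _ _ => abs_nonneg _
  rcases le_or_gt K k with h | h
  · linarith [hK k h]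
  · have h6 := Finset.single_le_sum (f := fun k => |e (M.ds (pre a k)) - M.Ph φ (pre a k)|)
      (fun _ _ => abs_nonneg _) (Finset.mem_range.2 h)
    linarith [le_abs_self (e (M.ds (pre a k)) - M.Ph φ (pre a k))]

end Pool.Agent.MP_db8016_pr.BZ

end

section

/-! Every history occurs on a path from a lowest point to a record. -/

namespace Pool.Agent.MP_db8016_pr.BZ
open MeasureTheory ProbabilityTheory Filter Topology
open scoped ENNReal Classical

namespace UpAuxH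

lemma pf_two {α : Type} {β : List α} {s t : α} (h : β <+: [s, t]) :
    β = [] ∨ β = [s] ∨ β = [s, t] := by
  simp only [List.prefix_cons_iff, List.prefix_nil] at h
  rcases h with rfl | ⟨_, rfl, rfl | ⟨_, rfl, rfl⟩⟩ <;> simp

lemma loop (M : Mod) (h1 : ∀ s, ∃ t, M.vec t = -M.vec s) (h2 : ∀ s, M.vec s ≠ 0) (w : List M.D) :
    ∃ α, M.ds α = M.vec M.u + M.vec M.u ∧ exits M.vec 0 α (M.vec M.u + M.vec M.u) = w ∧
      ∀ β, β <+: α → 0 ≤ M.lv β ∧ M.lv β ≤ 3 := by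
  induction w using List.reverseRecOn with
  | nil =>
    have e : (0 : M.Pt) ≠ M.vec M.u + M.vec M.u := fun e => by
      have := congrArg M.L e
      rw [map_zero, map_add, M.hu] at this
      norm_num at this
    refine ⟨[M.u, M.u], by simp, by simp [exits_cons, e, h2], fun β hβ => ?_⟩
    rcases pf_two hβ with rfl | rfl | rfl <;> simp [M.hu] <;> norm_num
  | append_singleton w s ih =>
    obtain ⟨α, a1, a2, a3⟩ := ih
    obtain ⟨t, ht⟩ := h1 s
    have a4 : disp M.vec α = M.vec M.u + M.vec M.u := a1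
    have a5 : M.lv α = 2 := by
      rw [Mod.lv, a1, map_add, M.hu]
      norm_num
    refine ⟨α ++ [s, t], by simp [a1, ht], ?_, fun β hβ => ?_⟩
    · rw [exits_append, a2, a4]
      simp [exits_cons, h2]
    · rcases Mod.pf_append_cases hβ with ⟨h, -⟩ | ⟨δ, h, rfl⟩
      · exact a3 β h
      · have := abs_le.1 (M.hL s)
        rcases pf_two h with rfl | rfl | rfl <;>
          simp only [Mod.lv_append, Mod.lv_cons, Mod.lv_nil, a5, ht, map_neg] <;>
          constructor <;> linarith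

end UpAuxH

theorem up_hist (M : Mod) (h1 : ∀ s, ∃ t, M.vec t = -M.vec s) (h2 : ∀ s, M.vec s ≠ 0)
    (h3 : ∀ s, ∃ t, ∀ j : ℕ, M.vec s + M.vec t + j • M.vec M.u ≠ 0) (w : List M.D) :
    ∃ γ z, M.Up γ ∧ exits M.vec 0 γ z = w := by
  rcases List.eq_nil_or_concat' w with rfl | ⟨w, s, rfl⟩
  · exact ⟨[], 0, Mod.up_nil, rfl⟩
  obtain ⟨α, a1, a2, a3⟩ := UpAuxH.loop M h1 h2 w
  obtain ⟨t, ht⟩ := h3 s
  have a4 : disp M.vec α = M.vec M.u + M.vec M.u := a1
  have a5 : M.lv α = 2 := by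
    rw [Mod.lv, a1, map_add, M.hu]
    norm_num
  have b1 := abs_le.1 (M.hL s)
  have b2 := abs_le.1 (M.hL t)
  have key : ∀ β, β <+: α ++ [s, t, M.u, M.u, M.u, M.u] → 0 ≤ M.lv β ∧
      (β ≠ α ++ [s, t, M.u, M.u, M.u, M.u] → M.lv β < M.lv (α ++ [s, t, M.u, M.u, M.u, M.u])) := by
    intro β hβ
    have e : M.lv (α ++ [s, t, M.u, M.u, M.u, M.u]) = 6 + M.L (M.vec s) + M.L (M.vec t) := by
      simp only [Mod.lv_append, Mod.lv_cons, Mod.lv_nil, a5, M.hu]
      ring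
    rw [e]
    rcases Mod.pf_append_cases hβ with ⟨h, -⟩ | ⟨δ, h, rfl⟩
    · exact ⟨(a3 β h).1, fun _ => by linarith [(a3 β h).2]⟩
    · simp only [List.prefix_cons_iff, List.prefix_nil] at h
      rcases h with rfl | ⟨_, rfl, rfl | ⟨_, rfl, rfl | ⟨_, rfl, rfl | ⟨_, rfl, rfl |
        ⟨_, rfl, rfl | ⟨_, rfl, rfl⟩⟩⟩⟩⟩⟩ <;>
      simp only [Mod.lv_append, Mod.lv_cons, Mod.lv_nil, a5, M.hu] <;>
      refine ⟨by linarith, fun h => ?_⟩ <;> first | exact absurd rfl h | linarith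
  refine ⟨α ++ [s, t, M.u, M.u, M.u, M.u], M.vec M.u + M.vec M.u,
    ⟨fun β h => (key β h).1, fun β h => (key β h).2⟩, ?_⟩
  have c : ∀ (j : ℕ) (x : M.Pt), x = M.vec M.u + M.vec M.u + (M.vec s + M.vec t + j • M.vec M.u) →
      x ≠ M.vec M.u + M.vec M.u := fun j x e e' => ht j (add_eq_left.1 (e.symm.trans e'))
  rw [exits_append, a2, a4, zero_add]
  simp only [exits_cons, exits_nil, if_true]
  rw [if_neg fun e => h2 s (add_eq_left.1 e), if_neg (c 0 _ (by simp only [zero_smul]; abel)),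
    if_neg (c 1 _ (by simp only [one_smul]; abel)), if_neg (c 2 _ (by abel)),
    if_neg (c 3 _ (by abel))]
  rfl

theorem irr_pos (M : Mod) (h1 : ∀ s, ∃ t, M.vec t = -M.vec s) (h2 : ∀ s, M.vec s ≠ 0)
    (h3 : ∀ s, ∃ t, ∀ j : ℕ, M.vec s + M.vec t + j • M.vec M.u ≠ 0) (φ : List M.D → ℝ)
    (h0 : φ [] = 0) (hφ : ∀ w, 0 ≤ φ w) (hw : ∃ w, 0 < φ w) :
    ∃ π, M.Irr π ∧ 0 < M.Ph φ π := by
  have key : ∀ (n : ℕ) (γ : List M.D), γ.length < n → M.Up γ → 0 < M.Ph φ γ →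
      ∃ π, M.Irr π ∧ 0 < M.Ph φ π := by
    intro n
    induction n with
    | zero => exact fun γ h => absurd h (Nat.not_lt_zero _)
    | succ n ih =>
      intro γ hl hu hp
      by_cases hi : M.Irr γ
      · exact ⟨γ, hi, hp⟩
      have hne : γ ≠ [] := by
        rintro rfl
        simp at hp
      obtain ⟨α, β, rfl, ha, hb, hab⟩ : ∃ α β, γ = α ++ β ∧ M.Up α ∧ M.Up β ∧
          ¬ (α = [] ∨ β = []) := by
        by_contra hc
        exact hi ⟨hu, hne, fun α β e ha hb => by_contra fun h => hc ⟨α, β, e, ha, hb, h⟩⟩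
      have l1 := List.length_pos_iff.2 fun e => hab (Or.inl e)
      have l2 := List.length_pos_iff.2 fun e => hab (Or.inr e)
      rw [List.length_append] at hl
      rw [Mod.Ph_append ha.2 hb.1] at hp
      by_cases hq : 0 < M.Ph φ α
      · exact ih α (by omega) ha hq
      · exact ih β (by omega) hb (by linarith)
  obtain ⟨w, hw⟩ := hw
  obtain ⟨γ, z, hu, rfl⟩ := up_hist M h1 h2 h3 w
  have hz : z ∈ pts M.vec 0 γ := by_contra fun h => by
    rw [(exits_eq_nil_iff M.vec).2 h, h0] at hw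
    exact lt_irrefl _ hw
  exact key _ γ (Nat.lt_succ_self _) hu (hw.trans_le
    (Finset.single_le_sum (f := fun z => φ (exits M.vec 0 γ z)) (fun _ _ => hφ _) hz))

theorem side_lattice (d : ℕ) (hd : 2 ≤ d) (u : Fin d × Bool) :
    (∀ s : Fin d × Bool, ∃ t, HD.step t = -HD.step s) ∧ (∀ s : Fin d × Bool, HD.step s ≠ 0) ∧
    ∀ s : Fin d × Bool, ∃ t, ∀ j : ℕ, HD.step s + HD.step t + j • HD.step u ≠ 0 := by
  refine ⟨fun s => ⟨(s.1, !s.2), ?_⟩, fun s e => ?_, fun s => ?_⟩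
  · rw [HD.step, HD.step, ← Pi.single_neg]
    rcases s with ⟨i, _ | _⟩ <;> simp
  · have := congrFun e s.1
    rcases s with ⟨i, _ | _⟩ <;> simp [HD.step] at this
  · by_cases h : s.1 = u.1
    · have : Nontrivial (Fin d) := Fin.nontrivial_iff_two_le.2 hd
      obtain ⟨k, hk⟩ := exists_ne u.1
      refine ⟨(k, true), fun j e => ?_⟩
      have := congrFun e k
      simp [HD.step, h, hk] at this
    · refine ⟨s, fun j e => ?_⟩
      have := congrFun e s.1
      rcases s with ⟨i, _ | _⟩ <;> simp [HD.step, show i ≠ u.1 from h] at this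

end Pool.Agent.MP_db8016_pr.BZ

end

section

/-! The zero-one law when the accumulated drifts of a site lie in a half-space. -/

namespace Pool.Agent.MP_db8016_pr.BZ
open MeasureTheory ProbabilityTheory Filter Topology
open scoped ENNReal Classical

lemma AllAuxH.grow {f : ℕ → ℝ}
    (h : ∀ᶠ j : ℕ in atTop, ∃ k ≤ (2 ^ 40) ^ j, ((2 : ℝ) ^ 18) ^ j ≤ f k) :
    ∀ᶠ n : ℕ in atTop, ∃ k ≤ n, (2 ^ 18)⁻¹ * (n : ℝ) ^ (9 / 20 : ℝ) ≤ f k := by
  obtain ⟨J, hJ⟩ := eventually_atTop.1 h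
  filter_upwards [eventually_ge_atTop ((2 ^ 40) ^ J)] with n hn
  have n0 : n ≠ 0 := (lt_of_lt_of_le (by positivity) hn).ne'
  obtain ⟨k, h1, h2⟩ := hJ (Nat.log (2 ^ 40) n) (Nat.le_log_of_pow_le (by norm_num) hn)
  refine ⟨k, h1.trans (Nat.pow_log_le_self _ n0), le_trans ?_ h2⟩
  have h3 : (n : ℝ) ≤ ((2 : ℝ) ^ (Nat.log (2 ^ 40) n + 1)) ^ (40 : ℝ) := by
    have := (Nat.lt_pow_succ_log_self (b := 2 ^ 40) (by norm_num) n).le
    rw [show (40 : ℝ) = (40 : ℕ) by norm_num, Real.rpow_natCast, ← pow_mul, mul_comm, pow_mul]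
    exact_mod_cast this
  have h4 := Real.rpow_le_rpow (Nat.cast_nonneg n) h3 (show (0 : ℝ) ≤ 9 / 20 by norm_num)
  rw [← Real.rpow_mul (by positivity), show (40 : ℝ) * (9 / 20) = (18 : ℕ) by norm_num,
    Real.rpow_natCast, ← pow_mul, mul_comm, pow_mul, pow_succ] at h4
  rw [inv_mul_le_iff₀ (by positivity), mul_comm]
  exact h4

open NuAux in
theorem hs_all (d : ℕ) (hd : 2 ≤ d)
    (μ : Measure ((Fin d → ℤ) → Fin d × Bool → ℕ → ℝ)) [IsProbabilityMeasure μ]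
    (hind : iIndepFun (fun (z : Fin d → ℤ) (ω : (Fin d → ℤ) → Fin d × Bool → ℕ → ℝ) => ω z) μ)
    (hid : ∀ z : Fin d → ℤ,
      IdentDistrib (fun ω : (Fin d → ℤ) → Fin d × Bool → ℕ → ℝ => ω z) (fun ω => ω 0) μ μ)
    (hsum : ∀ᵐ ω ∂μ, ∀ z i, ∑ e, ω z e i = 1)
    (κ : ℝ) (hκ : 0 < κ) (hell : ∀ᵐ ω ∂μ, ∀ z e i, κ ≤ ω z e i)
    (P₀ : Measure (ℕ → Fin d → ℤ)) [IsProbabilityMeasure P₀]
    (hP₀ : ∀ (e : ℕ → Fin d × Bool) (n : ℕ), P₀ {X | ∀ i ≤ n, X i = HD.pos e i} =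
      ∫⁻ ω, ENNReal.ofReal (∏ i ∈ Finset.range n, ω (HD.pos e i) (e i) (HD.visits e i)) ∂μ)
    (m : Fin d → ℝ) (hm : m ≠ 0) (a : List (Fin d × Bool) → ℝ)
    (ha : ∀ w, a w = ∫ ω, (∏ j : Fin w.length, ω 0 (w.get j) j) *
      ∑ s, ω 0 s w.length * ∑ k, (HD.step s k : ℝ) * m k ∂μ)
    (N : ℕ) (hN : ∀ w, N ≤ w.length → 0 ≤ a w)
    (hB : ∀ B : Finset (List (Fin d × Bool)), (∀ w s, w ++ [s] ∈ B → w ∈ B) → 0 ≤ ∑ w ∈ B, a w)
    (h8 : 8 ≤ d ∨ ∃ w, a w ≠ 0)
    (l : Fin d → ℝ) : P₀ (Tr l) = 0 ∨ P₀ (Tr l) = 1 := by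
  have hd0 : 0 < d := by omega
  let _ : Inhabited (Fin d × Bool) := ⟨(⟨0, hd0⟩, true)⟩
  have h0 : ∀ᵐ ω ∂μ, ∀ z e i, 0 ≤ ω z e i := hell.mono fun ω h z e i => hκ.le.trans (h z e i)
  obtain ⟨ν, hν, hcyl⟩ := exists_nu μ (fun ω => ω 0) (measurable_pi_apply 0)
    (hsum.mono fun ω h => h 0) (h0.mono fun ω h => h 0)
  have uel : ∀ γ e, ENNReal.ofReal κ * ν (cyl γ) ≤ ν (cyl (γ ++ [e])) := fun γ e => by
    rw [hcyl, hcyl, ← lintegral_const_mul' _ _ ENNReal.ofReal_ne_top]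
    refine lintegral_mono_ae ?_
    filter_upwards [hell] with ω h
    rw [cw_snoc, mul_comm]
    gcongr
    exact h _ _ _
  have hwt : ∀ e n, wt HD.step ν 0 (pre e n) = ∫⁻ ω, ENNReal.ofReal
      (∏ i ∈ Finset.range n, ω (HD.pos e i) (e i) (HD.visits e i)) ∂μ := fun e n => by
    have h1 : ∫⁻ ω, ENNReal.ofReal
        (∏ i ∈ Finset.range n, ω (HD.pos e i) (e i) (HD.visits e i)) ∂μ =
        ∫⁻ ω, ∏ z ∈ pts HD.step 0 (pre e n), cw (ω z) (exits HD.step 0 (pre e n) z) ∂μ := by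
      refine lintegral_congr_ae ?_
      filter_upwards [h0] with ω h
      rw [ENNReal.ofReal_prod_of_nonneg fun i _ => h _ _ _, prod_eq ω e n _ subset_rfl]
    rw [h1, lintegral_prod_eq_prod_lintegral_of_indepFun _
      (fun (z : Fin d → ℤ) (ω : (Fin d → ℤ) → Fin d × Bool → ℕ → ℝ) =>
        cw (ω z) (exits HD.step 0 (pre e n) z))
      (hind.comp (fun z b => cw b (exits HD.step 0 (pre e n) z)) fun z => measurable_cw _)
      fun z => (measurable_cw _).comp (measurable_pi_apply z)]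
    refine Finset.prod_congr rfl fun z _ => ?_
    rw [hcyl]
    exact ((hid z).comp (measurable_cw _)).lintegral_eq.symm
  obtain ⟨S, hS1, hS, hA⟩ := s_law d ν P₀ hd0 fun e n => by rw [hP₀, hwt]
  obtain ⟨c, L, hL1, u, hu, v, hv, hc, hz, -⟩ :=
    s_pcs d ν _ (ENNReal.ofReal_pos.2 hκ).ne' uel m hm
  let M : Mod := ⟨Fin d × Bool, Fin d → ℤ, HD.step, ν, _, (ENNReal.ofReal_pos.2 hκ).ne', uel, L,
    hL1, u, hu, v, hv⟩
  have hst : ∀ γ : List (Fin d × Bool), a γ = c * M.dr γ := fun γ => by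
    let g : Fin d × Bool → ((Fin d → ℤ) → Fin d × Bool → ℕ → ℝ) → ℝ := fun s ω =>
      (∏ j ∈ Finset.range γ.length, ω 0 (γ.getD j default) j) * ω 0 s γ.length
    have g0 : ∀ s, 0 ≤ᵐ[μ] g s := fun s => h0.mono fun ω h =>
      mul_nonneg (Finset.prod_nonneg fun j _ => h _ _ _) (h _ _ _)
    have gm : ∀ s, Measurable (g s) := fun s => by
      refine (Finset.measurable_prod _ fun j _ => ?_).mul ?_ <;> fun_prop
    have g1 : ∀ s, ∫⁻ ω, ENNReal.ofReal (g s ω) ∂μ = ν (cyl (γ ++ [s])) := fun s => by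
      rw [hcyl]
      refine lintegral_congr_ae ?_
      filter_upwards [h0] with ω h
      rw [cw_snoc, cw, ← ENNReal.ofReal_prod_of_nonneg fun i _ => h _ _ _,
        ← ENNReal.ofReal_mul (Finset.prod_nonneg fun j _ => h _ _ _)]
    have gi : ∀ s, Integrable (g s) μ := fun s => ⟨(gm s).aestronglyMeasurable,
      (hasFiniteIntegral_iff_ofReal (g0 s)).2 (g1 s ▸ measure_lt_top _ _)⟩
    have h2 : ∫ ω, ∑ s, g s ω * (c * L (HD.step s)) ∂μ =
        c * ∑ s, (ν (cyl (γ ++ [s]))).toReal * L (HD.step s) := by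
      rw [integral_finsetSum _ fun s _ => (gi s).mul_const _, Finset.mul_sum]
      refine Finset.sum_congr rfl fun s _ => ?_
      rw [integral_mul_const, integral_eq_lintegral_of_nonneg_ae (g0 s)
        (gm s).aestronglyMeasurable, g1]
      ring
    refine (ha γ).trans (Eq.trans (integral_congr_ae (ae_of_all _ fun ω => ?_)) h2)
    simp only [hz, g, Finset.mul_sum Finset.univ, ← mul_assoc _ (_ : ℝ) (c * _),
      ← Fin.prod_univ_eq_prod_range (fun j => ω 0 (γ.getD j default) j)]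
    refine Finset.sum_congr rfl fun s _ => ?_
    congr 2
    exact Finset.prod_congr rfl fun j _ => by simp
  obtain ⟨φ, C, hφ, hpos⟩ := opt_pot M N
    (fun w hw => nonneg_of_mul_nonneg_right (hst w ▸ hN w hw) hc) fun B h =>
      nonneg_of_mul_nonneg_right (by simpa only [hst, ← Finset.mul_sum] using hB B h) hc
  have h1 := pot_mod M S hS φ C hφ
  have hφ0 : ∀ w, 0 ≤ φ w := fun w => (hφ.2.1 w).1
  rcases h8 with h8 | ⟨w, hw⟩
  · have hB : 0 < ∑ j, |m j| := by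
      obtain ⟨j, hj⟩ := Function.ne_iff.1 hm
      exact Finset.sum_pos' (fun _ _ => abs_nonneg _) ⟨j, Finset.mem_univ _, abs_pos.2 hj⟩
    refine rad_all d (by omega) μ hind hid hsum κ hκ hell P₀ hP₀ (9 / 20) (Or.inr ?_)
      (fun h2 => ?_) l
    · have : (8 : ℝ) ≤ d := by exact_mod_cast h8
      rw [div_lt_iff₀ (by positivity)]
      linarith
    have hE : MeasurableSet {X : ℕ → Fin d → ℤ | ∃ N, ∀ n : ℕ, N ≤ n → ∃ k, k ≤ n ∧ ∃ j,
        c * (2 ^ 18)⁻¹ / (∑ j, |m j|) * (n : ℝ) ^ (9 / 20 : ℝ) ≤ |(X k j : ℝ)|} :=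
      measurableSet_setOfPred.2 (Measurable.exists fun N => Measurable.forall fun n =>
        measurable_const.imp (Measurable.exists fun k => measurable_const.and
          (Measurable.exists fun j => (Measurable.of_discrete (f := fun z : Fin d → ℤ =>
            c * (2 ^ 18)⁻¹ / (∑ j, |m j|) * (n : ℝ) ^ (9 / 20 : ℝ) ≤ |(z j : ℝ)|)).comp
              (measurable_pi_apply k))))
    have h3 : P₀ {X : ℕ → Fin d → ℤ | ∃ N, ∀ n : ℕ, N ≤ n → ∃ k, k ≤ n ∧ ∃ j,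
        c * (2 ^ 18)⁻¹ / (∑ j, |m j|) * (n : ℝ) ^ (9 / 20 : ℝ) ≤ |(X k j : ℝ)|} = 0 := by
      refine measure_mono_null (fun X hX => ?_) h2
      exact ⟨c * (2 ^ 18)⁻¹ / ∑ j, |m j|, by positivity, eventually_atTop.2 hX⟩
    rw [hA _ hE] at h3
    obtain ⟨b, a1, a2⟩ := (h1.and (measure_eq_zero_iff_ae_notMem.1 h3)).exists
    refine a2 (eventually_atTop.1 ((AllAuxH.grow a1).mono fun n hn => ?_))
    obtain ⟨k, b1, b2⟩ := hn
    refine ⟨k, b1, ?_⟩
    obtain ⟨j, -, hj⟩ := Finset.exists_max_image Finset.univ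
      (fun j => |((disp HD.step (pre b k) j : ℤ) : ℝ)|) ⟨⟨0, hd0⟩, Finset.mem_univ _⟩
    refine ⟨j, ?_⟩
    rw [div_mul_eq_mul_div, div_le_iff₀ hB, Finset.mul_sum, mul_assoc]
    refine (mul_le_mul_of_nonneg_left (b2.trans (sub_le_self _ (Mod.Ph_nonneg hφ0 _))) hc.le).trans ?_
    refine le_trans (le_of_eq (hz _).symm) (Finset.sum_le_sum fun i _ => (le_abs_self _).trans ?_)
    rw [abs_mul]
    exact mul_le_mul_of_nonneg_right (hj i (Finset.mem_univ _)) (abs_nonneg _)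
  replace hpos := hpos ⟨w, fun h => hw (by rw [hst, h, mul_zero])⟩
  have hsup : ∀ᵐ b ∂S, ∀ R : ℝ, ∃ k, R ≤ L (M.ds (pre b k)) - M.Ph φ (pre b k) := by
    filter_upwards [h1] with b hb R
    obtain ⟨j, ⟨k, -, b1⟩, b2⟩ := (hb.and ((tendsto_pow_atTop_atTop_of_one_lt
      (show (1 : ℝ) < 2 ^ 18 by norm_num)).eventually_ge_atTop R)).exists
    exact ⟨k, b2.trans b1⟩
  have hX : Measurable fun (e : ℕ → Fin d × Bool) n => disp HD.step (pre e n) :=
    measurable_pi_lambda _ fun n A _ => Mod.meas_pre (M := M) (fun γ => disp HD.step γ ∈ A) n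
  have hmap : P₀ = S.map fun e n => disp HD.step (pre e n) :=
    Measure.ext fun A h => by rw [hA A h, Measure.map_apply hX h]; rfl
  have key : ∀ (l v : Fin d → ℝ), P₀ (Tr l) ≠ 0 → (∀ᵐ X ∂P₀,
      ∀ j, Tendsto (fun n => (X n j : ℝ) / ∑ i, (X n i : ℝ) * l i) atTop (𝓝 (v j))) →
      0 < ∑ j, v j * m j := fun l v hl hv => by
    obtain ⟨c', L', hL', u', hu', v', hv', hc', hz', -⟩ := s_pcs d ν _
      (ENNReal.ofReal_pos.2 hκ).ne' uel l (lim_one d μ hind hid hsum κ hκ hell P₀ hP₀ l hl).1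
    let M' : Mod := ⟨Fin d × Bool, Fin d → ℤ, HD.step, ν, _, (ENNReal.ofReal_pos.2 hκ).ne', uel,
      L', hL', u', hu', v', hv'⟩
    have e1 : ∀ e : ℕ → Fin d × Bool,
        (fun n => disp HD.step (pre e n)) ∈ Tr l ↔ e ∈ M'.Esc := fun e => by
      simp only [Tr, Set.mem_ofPred_eq, hz']
      exact tendsto_const_mul_atTop_of_pos hc'
    have h2 : S M'.Esc ≠ 0 := by
      rw [hA _ (meas_Tr l)] at hl
      simpa only [e1, Set.ofPred_mem_eq] using hl
    obtain ⟨s1, s2, s3⟩ := side_lattice d hd u'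
    have h3 := str_mod M' S hS h2 L φ hφ0 (irr_pos M' s1 s2 s3 φ hφ.1 hφ0 hpos) hsup
      (c' / c * ∑ j, v j * m j) ?_
    · exact (mul_pos_iff_of_pos_left (by positivity)).1 h3
    rw [hmap] at hv
    filter_upwards [ae_of_ae_map hX.aemeasurable hv] with b hb _
    refine ((DirAuxA.dot_lim hb m).const_mul (c' / c)).congr fun n => ?_
    rw [hz, hz']
    change _ = L (disp HD.step (pre b n)) / L' (disp HD.step (pre b n))
    field_simp
  by_contra hne
  push Not at hne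
  obtain ⟨v, -, hv⟩ := dir_thm d μ hind hid hsum κ hκ hell P₀ hP₀ l hne.1
  have h2 : P₀ (Tr (-l)) ≠ 0 := fun h => hne.2 ((prob_compl_eq_zero_iff (meas_Tr l)).1 (by
    refine measure_eq_zero_iff_ae_notMem.2 ?_
    filter_upwards [hv, measure_eq_zero_iff_ae_notMem.1 h] with X a1 a2 a3
    exact a1.1.elim a3 a2))
  have h3 := key l v hne.1 (hv.mono fun X h => h.2)
  have h4 := key (-l) (-v) h2 (hv.mono fun X h => DirAuxA.flip h.2)
  simp only [Pi.neg_apply, neg_mul, Finset.sum_neg_distrib] at h4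
  linarith

end Pool.Agent.MP_db8016_pr.BZ

end
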