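import Pool.Agent.Mg.Fdb8016p.G5d3c7d

section

/-! The bound for the truncated mean range of the pieces that begin below a given level. -/

namespace Pool.Agent.MP_db8016_pr.BZ
open scoped ENNReal Classical

namespace FAuxA
variable (M : Mod)

/-- A record below `h - s` and a piece of height at most `s`. -/
def Zp (s h : ℝ) (a π : List M.D) : Prop :=
  (M.Up a ∧ M.lv a < h - s) ∧ M.Irr π ∧ M.lv π ≤ s

/-- The weighted sum over such pairs. -/
noncomputable def Ph (s h : ℝ) (f : List M.D → List M.D → ℝ≥0∞) : ℝ≥0∞ :=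
  ∑' a, ∑' π, if Zp M s h a π then M.w (a ++ π) * f a π else 0

/-- The piece lies astride of `b`. -/
noncomputable def As (b a π : List M.D) : ℝ≥0∞ :=
  if a <+: b ∧ b <+: a ++ π ∧ b ≠ a ++ π then 1 else 0

variable {M} {s h : ℝ} {p : ℝ≥0∞}

lemma ph_mono {f g : List M.D → List M.D → ℝ≥0∞} (H : ∀ a π, Zp M s h a π → f a π ≤ g a π) :
    Ph M s h f ≤ Ph M s h g := by
  refine ENNReal.tsum_le_tsum fun a => ENNReal.tsum_le_tsum fun π => ?_
  split_ifs with hz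
  · exact mul_le_mul_right (H a π hz) _
  · exact le_rfl

lemma ph_tsum {J : Type} (f : J → List M.D → List M.D → ℝ≥0∞) :
    Ph M s h (fun a π => ∑' j, f j a π) = ∑' j, Ph M s h (f j) := by
  unfold Ph
  rw [ENNReal.tsum_comm (f := fun j a => ∑' π,
    if Zp M s h a π then M.w (a ++ π) * f j a π else 0)]
  refine tsum_congr fun a => ?_
  rw [ENNReal.tsum_comm (f := fun j π => if Zp M s h a π then M.w (a ++ π) * f j a π else 0)]
  refine tsum_congr fun π => ?_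
  split_ifs
  · exact ENNReal.tsum_mul_left.symm
  · simp

lemma ph_add (f g : List M.D → List M.D → ℝ≥0∞) :
    Ph M s h (fun a π => f a π + g a π) = Ph M s h f + Ph M s h g := by
  unfold Ph
  rw [← ENNReal.tsum_add]
  refine tsum_congr fun a => ?_
  rw [← ENNReal.tsum_add]
  refine tsum_congr fun π => ?_
  split_ifs
  · exact mul_add _ _ _
  · simp

lemma ph_mul (c : ℝ≥0∞) (f : List M.D → List M.D → ℝ≥0∞) :
    Ph M s h (fun a π => c * f a π) = c * Ph M s h f := by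
  unfold Ph
  rw [← ENNReal.tsum_mul_left]
  refine tsum_congr fun a => ?_
  rw [← ENNReal.tsum_mul_left]
  refine tsum_congr fun π => ?_
  split_ifs
  · exact mul_left_comm _ _ _
  · simp

lemma ph_zero : Ph M s h (fun _ _ => 0) = 0 := by simp [Ph]

lemma b_as (hG3 : A_G3) (hp : M.Cr p) (b : List M.D) : p * Ph M s h (As M b) ≤ M.w b := by
  refine le_trans (mul_le_mul_right ?_ _) (hG3 M p b hp)
  refine ENNReal.tsum_le_tsum fun a => ENNReal.tsum_le_tsum fun π => ?_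
  unfold As
  by_cases hz : Zp M s h a π
  · rw [if_pos hz]
    by_cases hb : a <+: b ∧ b <+: a ++ π ∧ b ≠ a ++ π
    · rw [if_pos hb, if_pos ⟨hz.1.1, hz.2.1, hb⟩, mul_one]
    · rw [if_neg hb, mul_zero]
      exact zero_le
  · rw [if_neg hz]
    exact zero_le

lemma b_tsum {J : Type} {f : J → List M.D → List M.D → ℝ≥0∞} {y : J → ℝ≥0∞}
    (H : ∀ j, p * Ph M s h (f j) ≤ y j) :
    p * Ph M s h (fun a π => ∑' j, f j a π) ≤ ∑' j, y j := by
  rw [ph_tsum, ← ENNReal.tsum_mul_left]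
  exact ENNReal.tsum_le_tsum H

lemma b_add {f g : List M.D → List M.D → ℝ≥0∞} {y z : ℝ≥0∞} (H : p * Ph M s h f ≤ y)
    (H' : p * Ph M s h g ≤ z) : p * Ph M s h (fun a π => f a π + g a π) ≤ y + z := by
  rw [ph_add, mul_add]
  exact add_le_add H H'

lemma b_mul (c : ℝ≥0∞) {f : List M.D → List M.D → ℝ≥0∞} {y : ℝ≥0∞} (H : p * Ph M s h f ≤ y) :
    p * Ph M s h (fun a π => c * f a π) ≤ c * y := by
  rw [ph_mul, mul_left_comm]
  exact mul_le_mul_right H _

lemma b_ite (P : Prop) [Decidable P] {f : List M.D → List M.D → ℝ≥0∞} {y : ℝ≥0∞} (H : p * Ph M s h f ≤ y) :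
    p * Ph M s h (fun a π => if P then f a π else 0) ≤ if P then y else 0 := by
  by_cases hP : P
  · simpa only [if_pos hP] using H
  · simp only [if_neg hP, ph_zero, mul_zero, le_refl]

lemma b_sum (T : Finset ℕ) {f : ℕ → List M.D → List M.D → ℝ≥0∞} {y : ℕ → ℝ≥0∞}
    (H : ∀ j ∈ T, p * Ph M s h (f j) ≤ y j) :
    p * Ph M s h (fun a π => ∑ j ∈ T, f j a π) ≤ ∑ j ∈ T, y j := by
  induction T using Finset.induction_on with
  | empty => simp only [Finset.sum_empty, ph_zero, mul_zero, le_refl]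
  | insert j T hj ih =>
    simp only [Finset.sum_insert hj]
    exact b_add (H j (Finset.mem_insert_self _ _))
      (ih fun k hk => H k (Finset.mem_insert_of_mem hk))

/-- The left side as a sum over pairs. -/
lemma lhs_eq (f : List M.D → ℝ) :
    (M.sm {α | M.Up α ∧ M.lv α < h - s} * M.EP fun π => if M.lv π ≤ s then f π else 0) =
      Ph M s h fun _ π => ENNReal.ofReal (f π) := by
  unfold Mod.sm Mod.EP Ph
  rw [← ENNReal.tsum_mul_right]
  refine tsum_congr fun a => ?_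
  rw [← ENNReal.tsum_mul_left]
  refine tsum_congr fun π => ?_
  beta_reduce
  by_cases ha : M.Up a ∧ M.lv a < h - s
  · rw [Set.indicator_of_mem (show a ∈ {α | M.Up α ∧ M.lv α < h - s} from ha)]
    by_cases hπ : M.Irr π
    · rw [if_pos hπ]
      by_cases hs : M.lv π ≤ s
      · rw [if_pos hs, if_pos ⟨ha, hπ, hs⟩, Mod.w_append ha.1.2 hπ.1.1, mul_assoc]
      · rw [if_neg hs, if_neg fun hz : Zp M s h a π => hs hz.2.2]
        simp
    · rw [if_neg hπ, if_neg fun hz : Zp M s h a π => hπ hz.2.1, mul_zero]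
  · rw [Set.indicator_of_notMem (show a ∉ {α | M.Up α ∧ M.lv α < h - s} from ha),
      if_neg fun hz : Zp M s h a π => ha hz.1, zero_mul]

/-- An initial segment of the pair without its last step. -/
lemma astride {a t α b : List M.D} {d : M.D} (hz : Zp M s h a (t ++ [d])) (h1 : a <+: α)
    (h2 : α <+: b) (h3 : b <+: a ++ t) : As M b a (t ++ [d]) = 1 ∧ M.lv α < h := by
  have h4 : ∀ β, β <+: a ++ t → β <+: a ++ (t ++ [d]) ∧ β ≠ a ++ (t ++ [d]) := by
    intro β hβ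
    refine ⟨hβ.trans ⟨[d], List.append_assoc _ _ _⟩, fun e => ?_⟩
    have := hβ.length_le
    rw [e] at this
    simp at this
  refine ⟨if_pos ⟨h1.trans h2, h4 b h3⟩, ?_⟩
  have h5 := h4 α (h2.trans h3)
  have h6 := (hz.1.1.append hz.2.1.1).2 α h5.1 h5.2
  rw [Mod.lv_append] at h6
  linarith [hz.1.2, hz.2.2]

lemma uw_le {a t : List M.D} {d : M.D} (hz : Zp M s h a (t ++ [d])) (i : ℕ) :
    M.Uw i a (a ++ t) ≤ ∑' α, ∑' ζ, if M.Up α ∧ M.lv α < h ∧ M.St i α ζ then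
      As M (α ++ ζ) a (t ++ [d]) else 0 := by
  refine ENNReal.tsum_le_tsum fun α => ENNReal.tsum_le_tsum fun ζ => ?_
  by_cases hc : M.Up α ∧ a <+: α ∧ M.St i α ζ ∧ α ++ ζ <+: a ++ t
  · obtain ⟨e1, e2⟩ := astride hz hc.2.1 ⟨ζ, rfl⟩ hc.2.2.2
    rw [if_pos hc, if_pos ⟨hc.1, e2, hc.2.2.1⟩, e1]
  · rw [if_neg hc]
    exact zero_le

lemma tw_le (e : M.Pt →+ ℝ) (lam : ℕ → ℝ) (I : ℕ) {a t : List M.D} {d : M.D}
    (hz : Zp M s h a (t ++ [d])) :
    M.Tw e lam I a (a ++ t) ≤ ∑ i ∈ Finset.range (I + 1), ∑' α, ∑' ζ,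
      if M.Up α ∧ M.lv α < h ∧ M.St i α ζ then
        ENNReal.ofReal (6 * lam i * 2 ^ i) * (3 * As M (α ++ ζ) a (t ++ [d]) + ∑' ρ,
          if M.Ex e (lam i) (6 * lam i * 2 ^ i) (2 ^ i) (M.lv α) (α ++ ζ) ρ then
            As M (α ++ ζ ++ ρ) a (t ++ [d]) else 0) else 0 := by
  refine Finset.sum_le_sum fun i _ =>
    ENNReal.tsum_le_tsum fun α => ENNReal.tsum_le_tsum fun ζ => ?_
  by_cases hc : M.Up α ∧ a <+: α ∧ M.St i α ζ ∧ α ++ ζ <+: a ++ t
  · obtain ⟨e1, e2⟩ := astride hz hc.2.1 ⟨ζ, rfl⟩ hc.2.2.2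
    rw [if_pos hc, if_pos ⟨hc.1, e2, hc.2.2.1⟩, e1, mul_one]
    refine mul_le_mul_right (add_le_add_right (ENNReal.tsum_le_tsum fun ρ => ?_) _) _
    by_cases hr : α ++ ζ ++ ρ <+: a ++ t ∧
        M.Ex e (lam i) (6 * lam i * 2 ^ i) (2 ^ i) (M.lv α) (α ++ ζ) ρ
    · rw [if_pos hr, if_pos hr.2,
        (astride hz hc.2.1 ⟨ζ ++ ρ, (List.append_assoc _ _ _).symm⟩ hr.1).1]
    · rw [if_neg hr]
      exact zero_le
  · rw [if_neg hc]
    exact zero_le

/-- The exposed passages of one stage. -/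
lemma ex_le (hExp : A_Exp) {e : M.Pt →+ ℝ} (he : M.Lip e) {c : ℝ≥0∞} (hc : c ≠ 0) {lam y : ℝ}
    (h1 : 1 ≤ lam) (h2 : 1 ≤ y) (h3 : c ≤ M.cn e lam (y + 1)) (H : ℝ) (ξ : List M.D) :
    (∑' ρ, if M.Ex e lam (6 * lam * y) y H ξ ρ then M.w (ξ ++ ρ) else 0) ≤ c⁻¹ * M.w ξ := by
  have h4 := hExp M e lam (6 * lam * y) y H ξ ξ he (by linarith) (by linarith)
    (by nlinarith [mul_nonneg (sub_nonneg.2 h1) (sub_nonneg.2 h2)])
  have h5 : M.cn e lam (y + 1) ≤ 1 :=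
    Mod.sm_le_one ((M.pf_cross (y + 1)).mono fun _ hγ => hγ.1)
  have h6 : c ≠ ⊤ := ((h3.trans h5).trans_lt ENNReal.one_lt_top).ne
  have h7 : (∑' ρ, if M.Ex e lam (6 * lam * y) y H ξ ρ ∧ ξ <+: ξ ++ ρ then M.w (ξ ++ ρ) else 0) =
      ∑' ρ, if M.Ex e lam (6 * lam * y) y H ξ ρ then M.w (ξ ++ ρ) else 0 :=
    tsum_congr fun ρ => if_congr (and_iff_left ⟨ρ, rfl⟩) rfl rfl
  rw [h7] at h4
  have h8 := mul_le_mul_right ((mul_le_mul_left h3 _).trans h4) c⁻¹
  rwa [← mul_assoc, ENNReal.inv_mul_cancel hc h6, one_mul] at h8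

end FAuxA

open FAuxA in
theorem a_f (hG2 : A_G2) (hG3 : A_G3) (hExp : A_Exp) : A_F := by
  intro M e p c lam I x s h he hp hc hlam hcn
  rw [lhs_eq]
  have key : p * Ph M s h (fun a π => (∑ i ∈ Finset.range (I + 1), ∑' α, ∑' ζ,
      if M.Up α ∧ M.lv α < h ∧ M.St i α ζ then
        ENNReal.ofReal (6 * lam i * 2 ^ i) * (3 * As M (α ++ ζ) a π + ∑' ρ,
          if M.Ex e (lam i) (6 * lam i * 2 ^ i) (2 ^ i) (M.lv α) (α ++ ζ) ρ then
            As M (α ++ ζ ++ ρ) a π else 0) else 0) + ENNReal.ofReal x *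
        ∑' α, ∑' ζ, if M.Up α ∧ M.lv α < h ∧ M.St (I + 1) α ζ then As M (α ++ ζ) a π else 0) ≤
      ∑ i ∈ Finset.range (I + 1), ENNReal.ofReal (6 * lam i * 2 ^ i) * (3 + c⁻¹) * M.Qs h i +
        ENNReal.ofReal x * M.Qs h (I + 1) := by
    refine b_add (b_sum _ fun i hi => ?_)
      (b_mul _ (b_tsum fun α => b_tsum fun ζ => b_ite _ (b_as hG3 hp _)))
    refine (b_tsum fun α => b_tsum fun ζ => b_ite _ (b_mul _ (b_add (b_mul 3 (b_as hG3 hp _))
      (b_tsum fun ρ => b_ite _ (b_as hG3 hp _))))).trans ?_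
    unfold Mod.Qs
    rw [← ENNReal.tsum_mul_left]
    refine ENNReal.tsum_le_tsum fun α => ?_
    rw [← ENNReal.tsum_mul_left]
    refine ENNReal.tsum_le_tsum fun ζ => ?_
    split_ifs
    · rw [mul_assoc _ (3 + c⁻¹), add_mul]
      exact mul_le_mul_right (add_le_add_right (ex_le hExp he hc (hlam i)
        (one_le_pow₀ one_le_two) (hcn i (Nat.lt_succ_iff.1 (Finset.mem_range.1 hi))) _ _) _) _
    · exact zero_le
  refine le_trans (mul_le_mul_right (ph_mono fun a π hz => ?_) _) key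
  obtain ⟨t, d, rfl⟩ : ∃ t d, π = t ++ [d] :=
    ⟨π.dropLast, π.getLast hz.2.1.2.1, (List.dropLast_append_getLast _).symm⟩
  have h1 : min (M.rg e (t ++ [d]) - 1) x ≤ min (M.rg e t) x :=
    min_le_min_right _ (by linarith [Mod.rg_snoc he t d])
  refine (ENNReal.ofReal_le_ofReal h1).trans
    ((hG2 M e lam I x a t he hlam hz.1.1 (hz.2.1.1.1.of_pf ⟨[d], rfl⟩)).trans ?_)
  exact add_le_add (tw_le e lam I hz) (mul_le_mul_right (uw_le hz _) _)

end Pool.Agent.MP_db8016_pr.BZ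

end

section

/-! The bound for the truncated mean range. -/

namespace Pool.Agent.MP_db8016_pr.BZ
open Filter
open scoped ENNReal Classical

namespace F2AuxA

lemma ofReal_max0 (u : ℝ) : ENNReal.ofReal (max 0 u) = ENNReal.ofReal u := by
  rcases le_total u 0 with h | h
  · rw [max_eq_left h, ENNReal.ofReal_zero, ENNReal.ofReal_of_nonpos h]
  · rw [max_eq_right h]

lemma pt (a b x : ℝ) : ENNReal.ofReal (min (a + b) x) ≤
    ENNReal.ofReal (min (a - 1) x) + ENNReal.ofReal (min (b - 1) x) + 2 := by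
  have h : min (a + b) x ≤ max 0 (min (a - 1) x) + max 0 (min (b - 1) x) + 2 := by
    have h1 := le_max_left 0 (min (a - 1) x)
    have h2 := le_max_right 0 (min (a - 1) x)
    have h3 := le_max_left 0 (min (b - 1) x)
    have h4 := le_max_right 0 (min (b - 1) x)
    have h5 := min_le_left (a + b) x
    have h6 := min_le_right (a + b) x
    rcases min_choice (a - 1) x with e | e <;> rcases min_choice (b - 1) x with e' | e' <;>
      linarith
  refine (ENNReal.ofReal_le_ofReal h).trans (ENNReal.ofReal_add_le.trans ?_)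
  rw [ENNReal.ofReal_ofNat, ← ofReal_max0 (min (a - 1) x), ← ofReal_max0 (min (b - 1) x)]
  exact add_le_add_left ENNReal.ofReal_add_le _

lemma split (M : Mod) (e : M.Pt →+ ℝ) (x : ℝ) (h : M.sm {γ | M.Irr γ} ≤ 1) :
    M.EP (fun π => min (M.Rg e π) x) ≤ M.EP (fun π => min (M.rg e π - 1) x) +
      M.EP (fun π => min (M.rg (-e) π - 1) x) + 2 := by
  refine le_trans ?_ (add_le_add_right (mul_le_of_le_one_left' (a := 2) h) _)
  unfold Mod.EP Mod.sm
  rw [← ENNReal.tsum_mul_right, ← ENNReal.tsum_add, ← ENNReal.tsum_add]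
  refine ENNReal.tsum_le_tsum fun π => ?_
  rw [Set.indicator_apply]
  simp only [Set.mem_ofPred_eq]
  split_ifs
  · rw [← mul_add, ← mul_add]
    exact mul_le_mul_right (pt _ _ _) _
  · exact zero_le

lemma exh (M : Mod) (f : List M.D → ℝ) (a R : ℝ≥0∞)
    (h : ∀ s : ℝ, a * M.EP (fun π => if M.lv π ≤ s then f π else 0) ≤ R) : a * M.EP f ≤ R := by
  rw [Mod.EP, ENNReal.tsum_eq_iSup_sum, ENNReal.mul_iSup]
  refine iSup_le fun J => le_trans (mul_le_mul_right ?_ _) (h (∑ π ∈ J, |M.lv π|))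
  refine le_trans (le_of_eq (Finset.sum_congr rfl fun π hπ => ?_)) (ENNReal.sum_le_tsum J)
  have h1 : M.lv π ≤ ∑ π ∈ J, |M.lv π| :=
    (le_abs_self _).trans (Finset.single_le_sum (fun π _ => abs_nonneg (M.lv π)) hπ)
  simp only [if_pos h1]

end F2AuxA

open F2AuxA

theorem a_f2 (hF : A_F) (hQ : A_Q) (hLow : A_Low) (hUlt : A_Ult) : A_F2 := by
  intro M e p c he hp hc
  have p1 : p ≤ 1 := (hp.2 0).trans (Mod.sm_le_one (M.pf_cross 0))
  have pt' : p ≠ ⊤ := ne_top_of_le_ne_top ENNReal.one_ne_top p1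
  have hB : 3 * (8 * (M.κ⁻¹ + p⁻¹)) ≠ ⊤ :=
    ENNReal.mul_ne_top (by simp) (ENNReal.mul_ne_top (by simp)
      (ENNReal.add_ne_top.2 ⟨ENNReal.inv_ne_top.2 M.hκ, ENNReal.inv_ne_top.2 hp.1⟩))
  obtain ⟨q, q1, q2⟩ := hUlt (fun n i => 2 ^ i * M.Qs (2 * n) i / n) (3 * (8 * (M.κ⁻¹ + p⁻¹))) (by
    filter_upwards [eventually_ge_atTop 1] with n hn
    have n1 : (1 : ℝ) ≤ n := by exact_mod_cast hn
    simp only [div_eq_mul_inv]
    rw [ENNReal.tsum_mul_right, ← div_eq_mul_inv]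
    refine ENNReal.div_le_of_le_mul ((hQ M p _ hp (by positivity)).trans ?_)
    rw [mul_right_comm]
    refine mul_le_mul_left ?_ _
    refine (ENNReal.ofReal_le_ofReal (show 2 * (n : ℝ) + 1 ≤ 3 * n by linarith)).trans_eq ?_
    rw [ENNReal.ofReal_mul (by norm_num), ENNReal.ofReal_ofNat, ENNReal.ofReal_natCast])
  have q3 : ∑' i, q i ≠ ⊤ := ne_top_of_le_ne_top hB q1
  have q4 : ∀ i, q i = ENNReal.ofReal (q i).toReal := fun i =>
    (ENNReal.ofReal_toReal (ENNReal.ne_top_of_tsum_ne_top q3 i)).symm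
  have pr : 0 < p.toReal := ENNReal.toReal_pos hp.1 pt'
  have c0 : 0 ≤ (c⁻¹).toReal := ENNReal.toReal_nonneg
  have c1 : 3 + c⁻¹ = ENNReal.ofReal (3 + (c⁻¹).toReal) := by
    rw [ENNReal.ofReal_add (by norm_num) c0, ENNReal.ofReal_ofNat,
      ENNReal.ofReal_toReal (ENNReal.inv_ne_top.2 hc)]
  generalize (c⁻¹).toReal = ci at c0 c1
  refine ⟨fun i => (q i).toReal, 2 + 2 / p.toReal ^ 2 * (6 * (3 + ci)),
    fun i => ENNReal.toReal_nonneg, ENNReal.summable_toReal q3, by positivity,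
    fun I lam x hl hcn hx => ?_⟩
  have l0 : ∀ i, 0 ≤ lam i := fun i => by linarith [hl i]
  set cc : ℕ → ℝ≥0∞ := fun i => if i ≤ I then ENNReal.ofReal (6 * lam i) * (3 + c⁻¹)
    else ENNReal.ofReal (x / 2 ^ (I + 1)) with hcc
  have cct : ∀ i, cc i ≠ ⊤ := fun i => by
    simp only [hcc, c1]
    split_ifs
    · exact ENNReal.mul_ne_top ENNReal.ofReal_ne_top ENNReal.ofReal_ne_top
    · exact ENNReal.ofReal_ne_top
  have ccs : ∀ u : ℕ → ℝ≥0∞, ∑ i ∈ Finset.range (I + 2), cc i * u i =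
      ∑ i ∈ Finset.range (I + 1), ENNReal.ofReal (6 * lam i) * (3 + c⁻¹) * u i +
        ENNReal.ofReal (x / 2 ^ (I + 1)) * u (I + 1) := fun u => by
    rw [Finset.sum_range_succ]
    simp only [hcc, if_neg (Nat.not_succ_le_self I)]
    congr 1
    exact Finset.sum_congr rfl fun i hi => by
      rw [if_pos (Nat.lt_succ_iff.1 (Finset.mem_range.1 hi))]
  have claim : ∀ e' : M.Pt →+ ℝ, M.Lip e' → (∀ l h, M.cn e' l h = M.cn e l h) →
      p * p * M.EP (fun π => min (M.rg e' π - 1) x) ≤ ∑ i ∈ Finset.range (I + 2), cc i * q i := by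
    intro e' he' hce
    refine exh M _ _ _ fun s => q2 _ _ _ cct ?_
    filter_upwards [eventually_ge_atTop 1, tendsto_natCast_atTop_atTop.eventually_ge_atTop s]
      with n hn hs
    have h1 := hF M e' p c lam I x s (2 * n) he' hp hc (fun i => by linarith [hl i])
      fun i hi => (hce _ _).symm ▸ hcn i hi
    have h2 := hLow M p n (2 * n - s) hp (by linarith)
    simp only [← mul_div_assoc]
    simp only [div_eq_mul_inv]
    rw [← Finset.sum_mul, ← div_eq_mul_inv,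
      ENNReal.le_div_iff_mul_le (Or.inl (by exact_mod_cast (by omega : n ≠ 0)))
        (Or.inl (ENNReal.natCast_ne_top n)), ccs fun i => 2 ^ i * M.Qs (2 * n) i]
    refine le_trans ?_ (h1.trans_eq ?_)
    · refine le_trans (le_of_eq (by ring)) (mul_le_mul_right (mul_le_mul_left h2 _) p)
    · have e2 : ∀ i : ℕ, (2 : ℝ≥0∞) ^ i = ENNReal.ofReal (2 ^ i) := fun i => by
        rw [ENNReal.ofReal_pow (by norm_num), ENNReal.ofReal_ofNat]
      congr 1
      · refine Finset.sum_congr rfl fun i _ => ?_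
        rw [ENNReal.ofReal_mul (mul_nonneg (by norm_num) (l0 i)), ← e2]
        ring
      · rw [← mul_assoc, e2, ← ENNReal.ofReal_mul (by positivity), div_mul_cancel₀ _ (by positivity)]
  set S := ∑ i ∈ Finset.range (I + 1), lam i * (q i).toReal with hS
  set T := x / 2 ^ I * (q (I + 1)).toReal with hT
  have S0 : 0 ≤ S := Finset.sum_nonneg fun i _ => mul_nonneg (l0 i) ENNReal.toReal_nonneg
  have T0 : 0 ≤ T := mul_nonneg (by positivity) ENNReal.toReal_nonneg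
  have hR : ∑ i ∈ Finset.range (I + 2), cc i * q i ≤ ENNReal.ofReal (6 * (3 + ci) * (S + T)) := by
    rw [ccs, mul_add, ENNReal.ofReal_add (by positivity) (by positivity), hS, Finset.mul_sum,
      ENNReal.ofReal_sum_of_nonneg fun i _ =>
        mul_nonneg (by positivity) (mul_nonneg (l0 i) ENNReal.toReal_nonneg)]
    refine add_le_add (le_of_eq (Finset.sum_congr rfl fun i _ => ?_)) ?_
    · have := l0 i
      rw [c1, ← ENNReal.ofReal_mul (by positivity)]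
      nth_rewrite 1 [q4 i]
      rw [← ENNReal.ofReal_mul (by positivity)]
      congr 1
      ring
    · rw [q4 (I + 1), ← ENNReal.ofReal_mul (by positivity)]
      refine ENNReal.ofReal_le_ofReal ?_
      have : x / 2 ^ (I + 1) * (q (I + 1)).toReal = T / 2 := by
        rw [hT]
        ring
      rw [this]
      nlinarith [mul_nonneg c0 T0]
  have fin : ∀ E : ℝ≥0∞, p * p * E ≤ ENNReal.ofReal (6 * (3 + ci) * (S + T)) →
      E ≤ ENNReal.ofReal (6 * (3 + ci) * (S + T) / p.toReal ^ 2) := fun E hE => by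
    rw [ENNReal.ofReal_div_of_pos (by positivity), ENNReal.ofReal_pow pr.le,
      ENNReal.ofReal_toReal pt', ENNReal.le_div_iff_mul_le (Or.inl (pow_ne_zero 2 hp.1))
        (Or.inl (ENNReal.pow_ne_top pt'))]
    exact le_trans (le_of_eq (by ring)) hE
  have e1 := fin _ ((claim e he fun _ _ => rfl).trans hR)
  have e2 := fin _ ((claim (-e) he.neg (Mod.cn_neg e)).trans hR)
  refine (split M e x (s_w M p hp.1 hp.2)).trans ((add_le_add_left (add_le_add e1 e2) 2).trans ?_)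
  rw [← ENNReal.ofReal_add (by positivity) (by positivity), ← ENNReal.ofReal_ofNat 2,
    ← ENNReal.ofReal_add (by positivity) (by positivity)]
  refine ENNReal.ofReal_le_ofReal ?_
  have e3 : 0 ≤ 2 / p.toReal ^ 2 * (6 * (3 + ci)) := by positivity
  have e4 : 6 * (3 + ci) * (S + T) / p.toReal ^ 2 + 6 * (3 + ci) * (S + T) / p.toReal ^ 2 =
      2 / p.toReal ^ 2 * (6 * (3 + ci)) * (S + T) := by ring
  rw [e4]
  nlinarith

end Pool.Agent.MP_db8016_pr.BZ

end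

section

/-! The range of a path is at most the reward of its stages. -/

namespace Pool.Agent.MP_db8016_pr.BZ
open scoped ENNReal Classical

namespace G2AuxA

lemma tsum_gain {ι : Type} {f g : ι → ℝ≥0∞} (h : ∀ i, f i ≤ g i) (j : ι) {c : ℝ≥0∞}
    (hj : f j + c ≤ g j) : ∑' i, f i + c ≤ ∑' i, g i := by
  rw [ENNReal.tsum_eq_add_tsum_ite (f := f) j, ENNReal.tsum_eq_add_tsum_ite (f := g) j,
    add_right_comm]
  refine add_le_add hj (ENNReal.tsum_le_tsum fun i => ?_)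
  split_ifs
  · exact le_rfl
  · exact h i

lemma sum_gain {s : Finset ℕ} {f g : ℕ → ℝ≥0∞} (h : ∀ i, f i ≤ g i) {j : ℕ} (hs : j ∈ s)
    {c : ℝ≥0∞} (hj : f j + c ≤ g j) : ∑ i ∈ s, f i + c ≤ ∑ i ∈ s, g i := by
  rw [← Finset.add_sum_erase _ f hs, ← Finset.add_sum_erase _ g hs, add_right_comm]
  exact add_le_add hj (Finset.sum_le_sum fun i _ => h i)

variable {M : Mod} (e : M.Pt →+ ℝ) (lam : ℕ → ℝ) (α₀ : List M.D)

/-- One term of the reward. -/
noncomputable def tm (i : ℕ) (α ζ b : List M.D) : ℝ≥0∞ :=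
  if M.Up α ∧ α₀ <+: α ∧ M.St i α ζ ∧ α ++ ζ <+: b then
    ENNReal.ofReal (6 * lam i * 2 ^ i) * (3 + ∑' ρ, if α ++ ζ ++ ρ <+: b ∧
      M.Ex e (lam i) (6 * lam i * 2 ^ i) (2 ^ i) (M.lv α) (α ++ ζ) ρ then 1 else 0)
  else 0

lemma Tw_eq (I : ℕ) (b : List M.D) : M.Tw e lam I α₀ b =
    ∑ i ∈ Finset.range (I + 1), ∑' α, ∑' ζ, tm e lam α₀ i α ζ b := rfl

lemma tm_mono (i : ℕ) (α ζ : List M.D) {b b' : List M.D} (h : b <+: b') :
    tm e lam α₀ i α ζ b ≤ tm e lam α₀ i α ζ b' := by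
  unfold tm
  by_cases h1 : M.Up α ∧ α₀ <+: α ∧ M.St i α ζ ∧ α ++ ζ <+: b
  · rw [if_pos h1, if_pos ⟨h1.1, h1.2.1, h1.2.2.1, h1.2.2.2.trans h⟩]
    refine mul_le_mul_right (add_le_add_right (ENNReal.tsum_le_tsum fun ρ => ?_) _) _
    by_cases h2 : α ++ ζ ++ ρ <+: b ∧
      M.Ex e (lam i) (6 * lam i * 2 ^ i) (2 ^ i) (M.lv α) (α ++ ζ) ρ
    · rw [if_pos h2, if_pos ⟨h2.1.trans h, h2.2⟩]
    · rw [if_neg h2]
      exact zero_le
  · rw [if_neg h1]
    exact zero_le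

lemma Tw_mono (I : ℕ) {b b' : List M.D} (h : b <+: b') :
    M.Tw e lam I α₀ b ≤ M.Tw e lam I α₀ b' := by
  rw [Tw_eq, Tw_eq]
  exact Finset.sum_le_sum fun i _ => ENNReal.tsum_le_tsum fun α => ENNReal.tsum_le_tsum fun ζ =>
    tm_mono e lam α₀ i α ζ h

lemma tm_le {I i : ℕ} (hi : i ≤ I) (α ζ b : List M.D) :
    tm e lam α₀ i α ζ b ≤ M.Tw e lam I α₀ b := by
  rw [Tw_eq]
  refine le_trans ?_ (Finset.single_le_sum (f := fun i => ∑' α, ∑' ζ, tm e lam α₀ i α ζ b)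
    (fun _ _ => zero_le) (Finset.mem_range.2 (Nat.lt_succ_of_le hi)))
  exact (ENNReal.le_tsum (f := fun ζ => tm e lam α₀ i α ζ b) ζ).trans
    (ENNReal.le_tsum (f := fun α => ∑' ζ, tm e lam α₀ i α ζ b) α)

lemma Tw_gain {I i : ℕ} (hi : i ≤ I) {α ζ b b' : List M.D} (h : b <+: b') (hn : ¬ α ++ ζ <+: b) :
    M.Tw e lam I α₀ b + tm e lam α₀ i α ζ b' ≤ M.Tw e lam I α₀ b' := by
  rw [Tw_eq, Tw_eq]
  refine sum_gain (fun i => ENNReal.tsum_le_tsum fun α => ENNReal.tsum_le_tsum fun ζ =>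
    tm_mono e lam α₀ i α ζ h) (Finset.mem_range.2 (Nat.lt_succ_of_le hi)) ?_
  refine tsum_gain (fun α => ENNReal.tsum_le_tsum fun ζ => tm_mono e lam α₀ i α ζ h) α ?_
  refine tsum_gain (fun ζ => tm_mono e lam α₀ i α ζ h) ζ ?_
  rw [show tm e lam α₀ i α ζ b = 0 from if_neg fun h1 => hn h1.2.2.2, zero_add]

variable {e lam α₀}

/-- The growth in the present stage. -/
lemma stage (hG1 : A_G1) (he : M.Lip e) (hl : ∀ i, 1 ≤ lam i) (h0 : M.Up α₀) {i : ℕ}
    {σ ζ ρ : List M.D} (hnn : M.NN (σ ++ ζ ++ ρ)) (hα : M.Up (α₀ ++ σ))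
    (hst : M.St i (α₀ ++ σ) ζ) (hb : ∀ β, β <+: ζ ++ ρ → -(2 : ℝ) ^ i ≤ M.lv β ∧ M.lv β ≤ 0) :
    ENNReal.ofReal (e (M.ds (σ ++ ζ ++ ρ)) - M.rg e (σ ++ ζ)) + 1 ≤
      tm e lam α₀ i (α₀ ++ σ) ζ (α₀ ++ σ ++ ζ ++ ρ) := by
  have h1 := hl i
  have h2 : (1 : ℝ) ≤ 2 ^ i := one_le_pow₀ one_le_two
  have h3 : lam i ≤ lam i * 2 ^ i := le_mul_of_one_le_right (by linarith) h2
  have h4 := hG1 M e (lam i) (6 * lam i * 2 ^ i) (2 ^ i) (M.lv (α₀ ++ σ)) (M.lv α₀)
    (e (M.ds α₀) + M.rg e (σ ++ ζ)) (α₀ ++ σ ++ ζ) ρ he (by linarith) (by linarith)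
    (by linarith) (by linarith) (fun b hb' => ⟨?_, fun h5 => ?_⟩) fun ρ' hρ => ?_
  · rw [tm, if_pos ⟨hα, List.prefix_append _ _, hst, List.prefix_append _ _⟩]
    simp only [List.prefix_append_right_inj]
    rw [show e (M.ds (α₀ ++ σ ++ ζ ++ ρ)) - (e (M.ds α₀) + M.rg e (σ ++ ζ)) =
      e (M.ds (σ ++ ζ ++ ρ)) - M.rg e (σ ++ ζ) by
        simp only [Mod.ds_append, map_add]
        ring] at h4
    rw [show (3 : ℝ≥0∞) = 1 + 2 by norm_num, add_assoc, mul_add, mul_one, add_comm]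
    exact add_le_add (ENNReal.one_le_ofReal.2 (by linarith)) h4
  · rcases Mod.pf_append_cases hb' with ⟨h5, h6⟩ | ⟨β, h5, rfl⟩
    · exact (hα.2 b h5 h6).le
    · rw [Mod.lv_append]
      linarith [(hb β (h5.trans (List.prefix_append _ _))).2]
  · rw [List.append_assoc] at hb'
    rcases Mod.pf_append_cases hb' with ⟨h6, h7⟩ | ⟨β, h6, rfl⟩
    · exact absurd (h0.2 b h6 h7) (not_lt.2 h5)
    · rw [Mod.ds_append, map_add]
      linarith [Mod.le_rg e h6]
  · have h5 := hb (ζ ++ ρ') ((List.prefix_append_right_inj _).2 hρ)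
    have h6 := hnn (σ ++ ζ ++ ρ') ((List.prefix_append_right_inj _).2 hρ)
    simp only [Mod.lv_append] at h5 h6 ⊢
    exact ⟨by linarith [h5.1], by linarith [h5.2], by linarith⟩

lemma main (hG1 : A_G1) (hStg : A_Stg) (he : M.Lip e) (hl : ∀ i, 1 ≤ lam i) (h0 : M.Up α₀)
    {I : ℕ} {τ : List M.D} (hτ : M.NN τ)
    (hno : ∀ α ζ, ¬ (M.Up α ∧ α₀ <+: α ∧ M.St (I + 1) α ζ ∧ α ++ ζ <+: α₀ ++ τ)) (n : ℕ) :
    ∀ t, t.length = n → t <+: τ → ENNReal.ofReal (M.rg e t) ≤ M.Tw e lam I α₀ (α₀ ++ t) := by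
  induction n using Nat.strong_induction_on with
  | _ n ih =>
  intro t hn ht
  obtain ⟨β, h1, h2⟩ := Mod.exists_rg e t
  by_cases h3 : β = t
  swap
  · have h4 : β.length < n := hn ▸ lt_of_le_of_ne h1.length_le fun h => h3 (h1.eq_of_length h)
    refine le_trans (ENNReal.ofReal_le_ofReal (h2.trans_le (Mod.le_rg e List.prefix_rfl))) ?_
    exact (ih _ h4 β rfl (h1.trans ht)).trans
      (Tw_mono e lam α₀ I ((List.prefix_append_right_inj _).2 h1))
  subst h3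
  obtain ⟨α, ζ, ρ, i, e1, hα, ⟨σ, rfl⟩, hst, hb, hj⟩ := hStg M α₀ β h0 (hτ.of_pf ht)
  have hi : i ≤ I := by
    by_contra hi
    obtain ⟨ζ', h4, h5⟩ := hj (I + 1) (by omega)
    refine hno _ ζ' ⟨hα, List.prefix_append _ _, h4, ?_⟩
    refine List.IsPrefix.trans ?_ ((List.prefix_append_right_inj α₀).2 ht)
    rw [e1]
    exact ((List.prefix_append_right_inj _).2 h5).trans (List.prefix_append _ _)
  have e2 : β = σ ++ ζ ++ ρ := by
    apply List.append_cancel_left (as := α₀)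
    rw [e1]
    simp only [List.append_assoc]
  have h4 := stage hG1 he hl h0 (e2 ▸ hτ.of_pf ht) hα hst hb
  rw [← e1, ← e2, ← h2] at h4
  rcases List.eq_nil_or_concat' (σ ++ ζ) with h5 | ⟨t0, d, h5⟩
  · rw [h5, Mod.rg, sub_zero] at h4
    exact (le_self_add.trans h4).trans (tm_le e lam α₀ hi _ _ _)
  · have h6 : t0 <+: β := by
      rw [e2, h5]
      exact (List.prefix_append _ _).trans (List.prefix_append _ _)
    have h7 : t0.length < n := by
      rw [← hn, e2, h5]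
      simp
    have h8 : ¬ α₀ ++ σ ++ ζ <+: α₀ ++ t0 := fun h => by
      have h9 := h.length_le
      rw [List.append_assoc, h5] at h9
      simp at h9
    refine le_trans ?_ (Tw_gain e lam α₀ hi ((List.prefix_append_right_inj α₀).2 h6) h8)
    refine le_trans ?_ (add_le_add (ih _ h7 t0 rfl (h6.trans ht)) h4)
    have h9 := Mod.rg_snoc he t0 d
    rw [← h5] at h9
    calc ENNReal.ofReal (M.rg e β)
        ≤ ENNReal.ofReal (M.rg e t0 + (M.rg e β - M.rg e (σ ++ ζ) + 1)) :=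
          ENNReal.ofReal_le_ofReal (by linarith)
      _ ≤ _ := ENNReal.ofReal_add_le.trans (add_le_add_right
          (ENNReal.ofReal_add_le.trans (by rw [ENNReal.ofReal_one])) _)

end G2AuxA

theorem a_g2 (hG1 : A_G1) (hStg : A_Stg) : A_G2 := by
  intro M e lam I x α₀ τ he hl h0 hτ
  by_cases h : ∃ α ζ, M.Up α ∧ α₀ <+: α ∧ M.St (I + 1) α ζ ∧ α ++ ζ <+: α₀ ++ τ
  · obtain ⟨α, ζ, h⟩ := h
    have h1 : 1 ≤ M.Uw (I + 1) α₀ (α₀ ++ τ) := by
      refine le_trans ?_ (ENNReal.le_tsum α)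
      refine le_trans ?_ (ENNReal.le_tsum ζ)
      rw [if_pos h]
    exact ((ENNReal.ofReal_le_ofReal (min_le_right _ _)).trans
      (le_mul_of_one_le_right zero_le h1)).trans le_add_self
  · exact ((ENNReal.ofReal_le_ofReal (min_le_left _ _)).trans
      (G2AuxA.main hG1 hStg he hl h0 hτ (fun α ζ h1 => h ⟨α, ζ, h1⟩) _ τ rfl
        List.prefix_rfl)).trans le_self_add

end Pool.Agent.MP_db8016_pr.BZ

end

section

/-! The weight of the beginnings of the stages. -/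

namespace Pool.Agent.MP_db8016_pr.BZ
open scoped ENNReal Classical

namespace QAuxA

lemma first {α : Type} (P : List α → Prop) : ∀ (n : ℕ) (ζ : List α), ζ.length < n → P ζ →
    ∃ ζ', ζ' <+: ζ ∧ P ζ' ∧ ∀ β, β <+: ζ' → β ≠ ζ' → ¬ P β
  | 0, _, h, _ => absurd h (Nat.not_lt_zero _)
  | n + 1, ζ, h, hP => by
    by_cases e : ∃ β, β <+: ζ ∧ β ≠ ζ ∧ P β
    · obtain ⟨β, h1, h2, h3⟩ := e
      have h4 : β.length < ζ.length :=
        lt_of_le_of_ne h1.length_le fun e => h2 (h1.eq_of_length e)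
      obtain ⟨ζ', a1, a2, a3⟩ := first P n β (by omega) h3
      exact ⟨ζ', a1.trans h1, a2, a3⟩
    · exact ⟨ζ, List.prefix_rfl, hP, fun β h1 h2 h3 => e ⟨β, h1, h2, h3⟩⟩

variable {M : Mod}

/-- The weight of the descents of depth `y` after `α`. -/
noncomputable def D (α : List M.D) (y : ℝ) : ℝ≥0∞ :=
  ∑' ζ, if M.Dp y ζ then M.w (α ++ ζ) else 0

lemma ext_le (α ζ' : List M.D) (y : ℝ) :
    ∑' ζ, (if ζ' <+: ζ ∧ M.Dp y ζ then M.w (α ++ ζ) else 0) ≤ M.w (α ++ ζ') := by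
  have h := Mod.tsum_ext (fun ζ : {ζ | ζ' <+: ζ ∧ M.Dp y ζ} => α ++ ζ.1) (α ++ ζ')
    (fun ζ => (List.prefix_append_right_inj α).2 ζ.2.1) fun i j hij => by
      by_contra e
      exact absurd (j.2.2.1 i ((List.prefix_append_right_inj α).1 hij)
        fun e' => e (Subtype.ext e')).1 (not_le.2 i.2.2.2)
  rw [tsum_subtype {ζ | ζ' <+: ζ ∧ M.Dp y ζ} fun ζ => M.w (α ++ ζ)] at h
  simpa only [Set.indicator_apply, Set.mem_ofPred_eq] using h

lemma D_anti (α : List M.D) {y y' : ℝ} (h : y' ≤ y) : D α y ≤ D α y' := by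
  have h1 : ∀ ζ, (if M.Dp y ζ then M.w (α ++ ζ) else 0) ≤
      ∑' ζ', if M.Dp y' ζ' then (if ζ' <+: ζ ∧ M.Dp y ζ then M.w (α ++ ζ) else 0) else 0 := by
    intro ζ
    split_ifs with hζ
    · obtain ⟨ζ', a1, a2, a3⟩ := first (fun β => M.lv β < -y') _ ζ (Nat.lt_succ_self _)
        (by linarith [hζ.2])
      refine le_trans ?_ (ENNReal.le_tsum ζ')
      have a4 : M.Dp y' ζ' := ⟨fun β b1 b2 => ⟨not_lt.1 (a3 β b1 b2),
        (hζ.1 β (b1.trans a1) fun e =>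
          b2 (b1.eq_of_length_le (e ▸ a1.length_le))).2⟩, a2⟩
      rw [if_pos a4, if_pos ⟨a1, hζ⟩]
    · exact zero_le
  refine (ENNReal.tsum_le_tsum h1).trans ?_
  rw [ENNReal.tsum_comm]
  refine ENNReal.tsum_le_tsum fun ζ' => ?_
  split_ifs
  · exact ext_le α ζ' y
  · simp

lemma sum_D (α : List M.D) (y : ℝ) (A : Prop) (B : List M.D → Prop) {_ : Decidable A}
    {_ : ∀ ζ, Decidable (B ζ)} (h : ∀ ζ, B ζ ↔ A ∧ M.Dp y ζ) :
    ∑' ζ, (if B ζ then M.w (α ++ ζ) else 0) = if A then D α y else 0 := by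
  split_ifs with hA
  · exact tsum_congr fun ζ => if_congr (by rw [h, and_iff_right hA]) rfl rfl
  · simp [h, hA]

lemma Qd_eq (h y : ℝ) :
    M.Qd h y = ∑' α, if M.Up α ∧ y < M.lv α ∧ M.lv α < h then D α y else 0 :=
  tsum_congr fun α => sum_D α y _ _ fun ζ => by simp only [and_assoc]

lemma Qd_anti (h : ℝ) {y y' : ℝ} (hy : y' ≤ y) : M.Qd h y ≤ M.Qd h y' := by
  rw [Qd_eq, Qd_eq]
  refine ENNReal.tsum_le_tsum fun α => ?_
  split_ifs with h1 h2
  · exact D_anti α hy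
  · exact absurd ⟨h1.1, hy.trans_lt h1.2.1, h1.2.2⟩ h2
  · exact zero_le
  · exact le_rfl

lemma one (h : ℝ) (α : List M.D) :
    ∑' k : ℕ, (if k = 0 then 0 else
      if M.Up α ∧ (k : ℝ) < M.lv α ∧ M.lv α < h then D α k else 0) ≤
    ∑ m ∈ Finset.Icc 1 ⌊h⌋₊,
      if M.Up α ∧ ((m : ℕ) : ℝ) ≤ M.lv α then D α (M.lv α - m) else 0 := by
  by_cases hα : M.Up α ∧ M.lv α < h
  swap
  · refine le_trans (le_of_eq (ENNReal.tsum_eq_zero.2 fun k => ?_)) zero_le
    rw [if_neg fun h1 : M.Up α ∧ (k : ℝ) < M.lv α ∧ M.lv α < h => hα ⟨h1.1, h1.2.2⟩, ite_self]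
  have h0 : 0 ≤ M.lv α := hα.1.1 α List.prefix_rfl
  obtain ⟨n, hn⟩ : ∃ n, n = ⌊M.lv α⌋₊ := ⟨_, rfl⟩
  have h1 : (n : ℝ) ≤ M.lv α := hn ▸ Nat.floor_le h0
  have h2 : M.lv α < n + 1 := hn ▸ Nat.lt_floor_add_one _
  have h3 : n ≤ ⌊h⌋₊ := hn ▸ Nat.floor_mono hα.2.le
  rw [tsum_eq_sum (s := Finset.Icc 1 n) fun k hk => ?_]
  · refine le_trans ?_ (Finset.sum_le_sum_of_subset (Finset.Icc_subset_Icc_right h3))
    rw [Finset.sum_nbij' (t := Finset.Icc 1 n) (g := fun m => if n + 1 - m = 0 then 0 else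
      if M.Up α ∧ ((n + 1 - m : ℕ) : ℝ) < M.lv α ∧ M.lv α < h then D α (n + 1 - m : ℕ) else 0)
      (fun k => n + 1 - k) (fun k => n + 1 - k) (fun k hk => ?_) (fun k hk => ?_)
      (fun k hk => ?_) (fun k hk => ?_) fun k hk => ?_]
    · refine Finset.sum_le_sum fun m hm => ?_
      rw [Finset.mem_Icc] at hm
      have h4 : (m : ℝ) ≤ n := by exact_mod_cast hm.2
      rw [if_pos (⟨hα.1, h4.trans h1⟩ : M.Up α ∧ (m : ℝ) ≤ M.lv α)]
      split_ifs
      · exact zero_le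
      · refine D_anti α ?_
        rw [Nat.cast_sub (by omega)]
        push_cast
        linarith
      · exact zero_le
    all_goals rw [Finset.mem_Icc] at hk
    · rw [Finset.mem_Icc]
      omega
    · rw [Finset.mem_Icc]
      omega
    · omega
    · omega
    · rw [show n + 1 - (n + 1 - k) = k by omega]
  · rw [Finset.mem_Icc] at hk
    split_ifs with a b
    · rfl
    · have h5 : (k : ℝ) < (n + 1 : ℕ) := by
        push_cast
        linarith [b.2.1]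
      have h6 : k < n + 1 := by exact_mod_cast h5
      omega
    · rfl

lemma total (hV : A_Viol) {p : ℝ≥0∞} (hp : M.Cr p) {h : ℝ} (h0 : 0 ≤ h) :
    ∑' k : ℕ, (if k = 0 then 0 else M.Qd h k) ≤ ENNReal.ofReal (h + 1) * p⁻¹ := by
  have h1 : ∀ k : ℕ, (if k = 0 then 0 else M.Qd h k) = ∑' α, (if k = 0 then 0 else
      if M.Up α ∧ (k : ℝ) < M.lv α ∧ M.lv α < h then D α k else 0) := by
    intro k
    split_ifs
    · simp
    · exact Qd_eq h k
  rw [tsum_congr h1, ENNReal.tsum_comm]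
  refine (ENNReal.tsum_le_tsum (one h)).trans ?_
  rw [Summable.tsum_finsetSum fun _ _ => ENNReal.summable]
  refine (Finset.sum_le_card_nsmul _ _ p⁻¹ fun m hm => ?_).trans ?_
  · have h2 := hV M p m hp (by exact_mod_cast (Finset.mem_Icc.1 hm).1)
    rw [mul_comm] at h2
    refine le_trans (le_of_eq (tsum_congr fun α => ?_)) (ENNReal.le_inv_iff_mul_le.2 h2)
    exact (sum_D α (M.lv α - m) _ _ fun ζ => by simp only [and_assoc]).symm
  · rw [nsmul_eq_mul, Nat.card_Icc, Nat.add_sub_cancel, ← ENNReal.ofReal_natCast]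
    exact mul_le_mul_left (ENNReal.ofReal_le_ofReal (by linarith [Nat.floor_le h0])) _

end QAuxA

open QAuxA in
theorem a_q (hV : A_Viol) : A_Q := by
  intro M p h hp h0
  obtain ⟨g, hg⟩ : ∃ g : ℕ → ℝ≥0∞, g = fun k : ℕ => if k = 0 then 0 else M.Qd h k :=
    ⟨_, rfl⟩
  have h1 : ∑' k, g k ≤ ENNReal.ofReal (h + 1) * p⁻¹ := by
    rw [hg]
    exact total hV hp h0
  have h2 := ENNReal.tsum_condensed_le (f := g) fun m n hm hmn => by
    rw [hg]
    beta_reduce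
    rw [if_neg (by omega), if_neg (by omega)]
    exact Qd_anti h (by exact_mod_cast hmn)
  have h3 : ∀ i : ℕ, 2 ^ (i + 1) * M.Qs h (i + 1) = 2 * (2 ^ i * g (2 ^ i)) := by
    intro i
    rw [Mod.Qs_succ, hg]
    beta_reduce
    rw [if_neg (by positivity)]
    push_cast
    ring
  have h4 : g 1 ≤ ∑' k, g k := ENNReal.le_tsum 1
  have h5 : ∑' i : ℕ, 2 ^ i * M.Qs h i =
      2 ^ 0 * M.Qs h 0 + ∑' i : ℕ, 2 ^ (i + 1) * M.Qs h (i + 1) :=
    tsum_eq_zero_add' (f := fun i : ℕ => 2 ^ i * M.Qs h i) ENNReal.summable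
  have h6 := Mod.up_lt (M := M) h0
  rw [h5, tsum_congr h3, ENNReal.tsum_mul_left, pow_zero, one_mul, Mod.Qs_zero]
  refine (add_le_add h6 (mul_le_mul_right (h2.trans
    (add_le_add (h4.trans h1) (mul_le_mul_right h1 _))) _)).trans ?_
  generalize ENNReal.ofReal (h + 1) = A
  generalize M.κ⁻¹ = K
  generalize p⁻¹ = P
  refine (le_self_add (b := 7 * (A * K) + 2 * (A * P))).trans (le_of_eq ?_)
  ring

theorem a_low : A_Low := by
  intro M p n t hp ht
  have h1 := Mod.tsum_le_sm (M := M) (G := {α | M.Up α ∧ M.lv α < t})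
    (fun x : Σ k : Fin n, {γ | M.Cross (k : ℕ) γ} => x.2.1) ?_ fun x => ?_
  · rw [ENNReal.tsum_sigma', tsum_fintype] at h1
    refine le_trans ?_ h1
    have h2 := Finset.card_nsmul_le_sum Finset.univ
      (fun k : Fin n => ∑' γ : {γ | M.Cross (k : ℕ) γ}, M.w γ) p fun k _ => by
        rw [← Mod.sm_eq_tsum]
        exact hp.2 _
    simpa using h2
  · rintro ⟨k, γ, hγ⟩ ⟨k', γ', hγ'⟩ e
    obtain rfl : γ = γ' := e
    have a1 : ((k : ℕ) : ℝ) < ((k' : ℕ) + 1 : ℕ) := by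
      push_cast
      exact hγ.2.1.trans_lt (hγ'.lv_lt (Nat.cast_nonneg _))
    have a2 : ((k' : ℕ) : ℝ) < ((k : ℕ) + 1 : ℕ) := by
      push_cast
      exact hγ'.2.1.trans_lt (hγ.lv_lt (Nat.cast_nonneg _))
    rw [Nat.cast_lt] at a1 a2
    obtain rfl : k = k' := Fin.ext (by omega)
    rfl
  · have a1 : ((x.1 : ℕ) : ℝ) + 1 ≤ n := by exact_mod_cast x.1.2
    exact ⟨x.2.2.up, by linarith [x.2.2.lv_lt (Nat.cast_nonneg _)]⟩

end Pool.Agent.MP_db8016_pr.BZ

end
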