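import Pool.Agent.Mg.Fdb8016p.G5d3c7d
import Pool.Agent.Mg.Fdb8016p.Gd35c6e
import Pool.Agent.Mg.Fdb8016p.Ged04e7
import Pool.Agent.Mg.Fdb8016p.G8da84f

section

/-! The path is the concatenation of its pieces, and the deterministic part of the cone lemma. -/

namespace Pool.Agent.MP_db8016_pr.BZ
open MeasureTheory ProbabilityTheory Filter Topology
open scoped ENNReal Classical
open HD (sh)

namespace CatAuxA
variable {M : Mod} {a : ℕ → M.D}

lemma tt_zero (a : ℕ → M.D) : M.tt a 0 = 0 := by simp [Mod.tt]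

lemma tt_succ (a : ℕ → M.D) (n : ℕ) : M.tt a (n + 1) = M.tt a n + M.tau (M.Tn^[n] a) := by
  simp [Mod.tt, Finset.sum_range_succ]

lemma it_eq (a : ℕ → M.D) (n : ℕ) : M.Tn^[n] a = sh (M.tt a n) a := by
  induction n with
  | zero => simp [tt_zero]
  | succ n ih =>
    rw [Function.iterate_succ_apply', tt_succ, Mod.Tn, ← HD.sh_sh, ← ih]

lemma pre_tt (a : ℕ → M.D) (n k : ℕ) :
    pre a (M.tt a n + k) = pre a (M.tt a n) ++ pre (M.Tn^[n] a) k := by
  rw [Step0Aux.pre_add', ← it_eq]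

lemma pre_succ_tt (a : ℕ → M.D) (n : ℕ) :
    pre a (M.tt a (n + 1)) = pre a (M.tt a n) ++ M.pc (M.Tn^[n] a) := by
  rw [tt_succ, pre_tt, Mod.pc]

lemma up_tt (ha : M.Gd a) (n : ℕ) : M.Up (pre a (M.tt a n)) := by
  induction n with
  | zero => rw [tt_zero, pre_zero]; exact Mod.up_nil
  | succ n ih => rw [pre_succ_tt]; exact ih.append (ha n).2.1

lemma ds_tt (a : ℕ → M.D) (n : ℕ) :
    M.ds (pre a (M.tt a n)) = ∑ j ∈ Finset.range n, M.ds (M.pc (M.Tn^[j] a)) := by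
  induction n with
  | zero => simp [tt_zero]
  | succ n ih => rw [pre_succ_tt, Mod.ds_append, ih, Finset.sum_range_succ]

lemma tau_pos (ha : M.Gd a) (n : ℕ) : 0 < M.tau (M.Tn^[n] a) := by
  refine Nat.pos_of_ne_zero fun h => (ha n).2.2.1 ?_
  rw [Mod.pc, h, pre_zero]

lemma mono_tt (ha : M.Gd a) : StrictMono (M.tt a) :=
  strictMono_nat_of_lt_succ fun n => by
    rw [tt_succ]
    exact Nat.lt_add_of_pos_right (tau_pos ha n)

lemma pre_pf {D : Type} (a : ℕ → D) {m n : ℕ} (h : m ≤ n) : pre a m <+: pre a n := by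
  obtain ⟨k, rfl⟩ := Nat.exists_eq_add_of_le h
  rw [Step0Aux.pre_add']
  exact List.prefix_append _ _

lemma lv_step (a : ℕ → M.D) (j : ℕ) : M.lv (pre a (j + 1)) ≤ M.lv (pre a j) + 1 := by
  rw [pre_succ]
  simp only [Mod.lv_append, Mod.lv_cons, Mod.lv_nil]
  linarith [(abs_le.1 (M.hL (a j))).2]

end CatAuxA

open CatAuxA

theorem a_cat : A_Cat := by
  intro M a ha
  refine ⟨fun n => ⟨it_eq a n, up_tt ha n, pre_succ_tt a n, ds_tt a n⟩, mono_tt ha, fun k => ?_⟩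
  have hex : ∃ n, k < M.tt a (n + 1) :=
    ⟨k, lt_of_lt_of_le (Nat.lt_succ_self k) ((mono_tt ha).id_le (k + 1))⟩
  have h1 := Nat.find_spec hex
  have h2 : M.tt a (Nat.find hex) ≤ k := by
    rcases h : Nat.find hex with _ | m
    · simp [tt_zero]
    · exact not_lt.1 (Nat.find_min hex (m := m) (by omega))
  generalize Nat.find hex = n at h1 h2
  obtain ⟨r, rfl⟩ := Nat.exists_eq_add_of_le h2
  have h3 : r < M.tau (M.Tn^[n] a) := by
    rw [tt_succ] at h1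
    omega
  refine ⟨n, pre (M.Tn^[n] a) r, pre_pf _ h3.le, fun e => ?_, h2, h1, pre_tt a n r⟩
  have := congrArg List.length e
  rw [Mod.pc, pre_length, pre_length] at this
  omega

theorem a_con2 (hCat : A_Cat) : A_Con2 := by
  intro M e lam h a he hlam ha H
  obtain ⟨c1, -, c3⟩ := hCat M a ha
  rcases le_or_gt h 0 with h0 | h0
  · refine ⟨[], List.nil_prefix, ⟨Mod.up_nil.1, by simpa using h0,
      fun α h1 h2 => absurd (List.prefix_nil.1 h1) h2⟩, fun α h1 => ?_⟩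
    rw [List.prefix_nil.1 h1]
    simp
  have hN : a ∈ M.Nn := (ha 0).1
  have hex : ∃ k, h ≤ 1 + M.lv (pre a k) := by
    obtain ⟨k, hk⟩ := ((tendsto_atTop.1 hN.2) h).exists
    exact ⟨k, by linarith⟩
  have hk1 := Nat.find_spec hex
  have hk2 : ∀ j < Nat.find hex, 1 + M.lv (pre a j) < h := fun j hj =>
    not_le.1 (Nat.find_min hex hj)
  generalize Nat.find hex = k at hk1 hk2
  have hlt : ∀ j ≤ k, M.lv (pre a j) < h := by
    intro j hj
    rcases j with _ | j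
    · simpa using h0
    · linarith [lv_step a j, hk2 j (by omega)]
  have hpf : ∀ α, α <+: M.u :: pre a k → α = [] ∨ ∃ j ≤ k, α = M.u :: pre a j := by
    intro α h1
    rcases List.prefix_cons_iff.1 h1 with rfl | ⟨τ, rfl, h2⟩
    · exact Or.inl rfl
    · exact Or.inr ⟨τ.length, (Step0Aux.pf_pre h2).1, by rw [← (Step0Aux.pf_pre h2).2]⟩
  have hlv : ∀ j, M.lv (M.u :: pre a j) = 1 + M.lv (pre a j) := fun j => by
    rw [Mod.lv_cons, M.hu]
  refine ⟨M.u :: pre a k, ?_, ⟨fun α h1 => ?_, by rwa [hlv], fun α h1 h2 => ?_⟩, fun α h1 => ?_⟩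
  · exact (List.prefix_cons_inj _).2 (pre_pf a (by simp))
  · rcases hpf α h1 with rfl | ⟨j, -, rfl⟩
    · simp
    · rw [hlv]
      linarith [hN.1 j]
  · rcases hpf α h1 with rfl | ⟨j, hj, rfl⟩
    · simpa using h0
    · rw [hlv]
      exact hk2 j (lt_of_le_of_ne hj fun e' => h2 (by rw [e']))
  · rcases hpf α h1 with rfl | ⟨j, hj, rfl⟩
    · simp
    obtain ⟨n, β, b1, -, -, -, b5⟩ := c3 j
    have hβ : 0 ≤ M.lv β := (ha n).2.1.1 β b1
    have hj2 : M.lv (pre a j) = M.lv (pre a (M.tt a n)) + M.lv β := by rw [b5, Mod.lv_append]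
    have H1 := H n (by linarith [hlt j hj])
    have hsum : M.lv (pre a (M.tt a n)) =
        ∑ i ∈ Finset.range n, M.lv (M.pc (M.Tn^[i] a)) := by
      unfold Mod.lv
      rw [(c1 n).2.2.2, map_sum]
    have hE : |e (M.ds (pre a (M.tt a n)))| ≤
        ∑ i ∈ Finset.range n, M.Rg e (M.pc (M.Tn^[i] a)) := by
      rw [(c1 n).2.2.2, map_sum]
      exact (Finset.abs_sum_le_sum_abs _ _).trans
        (Finset.sum_le_sum fun i _ => Mod.abs_le_Rg e List.prefix_rfl)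
    have hB := Mod.abs_le_Rg e b1
    rw [Finset.sum_range_succ, ← hsum] at H1
    rw [hlv, hj2, Mod.ds_cons, b5, Mod.ds_append, map_add, map_add]
    have t1 := abs_add_le (e (M.vec M.u)) (e (M.ds (pre a (M.tt a n))) + e (M.ds β))
    have t2 := abs_add_le (e (M.ds (pre a (M.tt a n)))) (e (M.ds β))
    have t3 := he M.u
    have t4 : 0 ≤ lam * M.lv β := mul_nonneg (by linarith) hβ
    nlinarith

end Pool.Agent.MP_db8016_pr.BZ

end

section

/-! The cone lemma. -/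

namespace Pool.Agent.MP_db8016_pr.BZ
open MeasureTheory ProbabilityTheory Filter Topology
open scoped ENNReal Classical
open HD (sh)

namespace ConeAuxA

lemma cancel {a b t : ℝ} {q : ℝ≥0∞} (ha : 0 < a) (h : ENNReal.ofReal a * q ≤ ENNReal.ofReal b)
    (hb : b ≤ a * t) : q ≤ ENNReal.ofReal t := by
  have h1 := h.trans (ENNReal.ofReal_le_ofReal hb)
  rw [ENNReal.ofReal_mul ha.le] at h1
  exact (ENNReal.mul_le_mul_iff_right (by simpa using ha) ENNReal.ofReal_ne_top).1 h1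

variable {M : Mod}

/-- The paths that cross in the cone after one step up. -/
def GG (M : Mod) (e : M.Pt →+ ℝ) (lam h : ℝ) : Set (ℕ → M.D) :=
  {a | a ∈ M.Nn ∧ ∃ γ, γ <+: M.u :: pre a γ.length ∧ M.Cross h γ ∧ M.Con e lam γ}

lemma meas_GG (e : M.Pt →+ ℝ) (lam h : ℝ) : MeasurableSet (GG M e lam h) := by
  have : GG M e lam h = M.Nn ∩ ⋃ γ : List M.D,
      {a | γ <+: M.u :: pre a γ.length ∧ M.Cross h γ ∧ M.Con e lam γ} := by
    ext a
    simp [GG]
  rw [this]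
  exact Mod.meas_Nn.inter (MeasurableSet.iUnion fun γ =>
    Mod.meas_pre (fun δ => γ <+: M.u :: δ ∧ M.Cross h γ ∧ M.Con e lam γ) γ.length)

lemma det (hCat : A_Cat) (hCon2 : A_Con2) {e : M.Pt →+ ℝ} (he : M.Lip e) {lam x h : ℝ}
    (hl : 1 ≤ lam) {a : ℕ → M.D} (ha : M.Gd a)
    (h1 : ∀ n, ∑ i ∈ Finset.range n, min (M.Rg e (M.pc (M.Tn^[i + 1] a))) x ≤
      lam * ∑ i ∈ Finset.range n, M.lv (M.pc (M.Tn^[i] a)))
    (h2 : min (M.Rg e (M.pc a)) x ≤ lam - 1)
    (h3 : ∀ n, M.lv (pre a (M.tt a n)) < h → M.Rg e (M.pc (M.Tn^[n] a)) ≤ x) :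
    a ∈ GG M e lam h := by
  refine ⟨(ha 0).1, hCon2 M e lam h a he hl ha fun n hn => ?_⟩
  have hm : Monotone fun n => M.lv (pre a (M.tt a n)) := monotone_nat_of_le_succ fun n => by
    rw [((hCat M a ha).1 n).2.2.1, Mod.lv_append]
    linarith [(ha n).2.1.1 _ List.prefix_rfl]
  have h4 : ∀ j ≤ n, min (M.Rg e (M.pc (M.Tn^[j] a))) x = M.Rg e (M.pc (M.Tn^[j] a)) :=
    fun j hj => min_eq_left (h3 j ((hm hj).trans_lt hn))
  have h5 := h1 n
  rw [Finset.sum_congr rfl fun i hi => h4 (i + 1) (Finset.mem_range.1 hi)] at h5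
  have h6 := h4 0 n.zero_le
  rw [Finset.sum_range_succ']
  simp only [Function.iterate_zero, id] at h6 ⊢
  linarith

lemma fin (hI1 : A_I1) {S : Measure (ℕ → M.D)} (hL : M.Law S) (e : M.Pt →+ ℝ) (lam h : ℝ) :
    M.κ * S (GG M e lam h) ≤ M.cn e lam h := by
  obtain ⟨hS, hw, -⟩ := hL
  have h1 : M.Rc [M.u] := fun α hα hne => by
    rcases List.prefix_cons_iff.1 hα with rfl | ⟨τ, rfl, h2⟩
    · simp [M.hu]
    · exact absurd (by rw [List.prefix_nil.1 h2]) hne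
  have h2 : M.κ ≤ M.w [M.u] := by simpa using M.w_append_ge [] [M.u]
  refine (mul_le_mul_left h2 _).trans ?_
  rw [← hI1 M S hw [M.u] _ h1 (meas_GG e lam h) fun a ha => ha.1.1]
  refine Step0Aux.le_sm hw ?_
  rintro b ⟨b1, -, γ, b2, b3⟩
  have b4 : pre b 1 = [M.u] := b1
  have b5 : γ <+: pre b (1 + γ.length) := by
    rw [Step0Aux.pre_add', b4]
    exact b2
  exact ⟨γ.length, by rw [← (Step0Aux.pf_pre b5).2]; exact b3⟩

end ConeAuxA

theorem a_cone (hReg : A_Reg) (hInt : A_Int) (hCat : A_Cat) (hMax : A_Max) (hBig : A_Big)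
    (hCon2 : A_Con2) (hI1 : A_I1) : A_Cone := by
  intro M S e hL he
  have hR := hReg M S hL
  have hS := hL.1
  have hN := hL.2.2
  obtain ⟨P, hP⟩ : ∃ P, P = S[|M.Nn] := ⟨_, rfl⟩
  rw [← hP] at hR
  have hP1 := hR.1
  obtain ⟨C₀, hC₀, hM⟩ := hMax _ P M.Tn (fun a => M.lv (M.pc a)) hR.2.1 (Mod.measurable_pc M.lv)
    (hR.2.2.1.mono fun a ha => by
      simpa using (ha 0).2.1.2 [] List.nil_prefix (ha 0).2.2.1.symm)
  obtain ⟨K, hK0, hK⟩ : ∃ K : ℝ, 0 ≤ K ∧ M.κ⁻¹ = ENNReal.ofReal K :=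
    ⟨_, ENNReal.toReal_nonneg, (ENNReal.ofReal_toReal (ENNReal.inv_ne_top.2 M.hκ)).symm⟩
  have hC : 0 < C₀ + 16 + 8 * K := by positivity
  refine ⟨M.κ * (S M.Nn * ENNReal.ofReal (1 / 4)), C₀ + 16 + 8 * K,
    mul_ne_zero M.hκ (mul_ne_zero hN (by simp)), hC, fun lam x h hl hx hh h1 h2 => ?_⟩
  have hr : Measurable fun a => min (M.Rg e (M.pc a)) x :=
    Mod.measurable_pc fun π => min (M.Rg e π) x
  have hI : ∫⁻ a, ENNReal.ofReal (min (M.Rg e (M.pc a)) x) ∂P =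
      M.EP fun π => min (M.Rg e π) x := hInt M P hR fun π => ENNReal.ofReal (min (M.Rg e π) x)
  have b1 := hM _ x lam hr (fun a => ⟨le_min (Mod.Rg_nonneg _ _) hx.le, min_le_right _ _⟩)
    (by linarith) (hI.trans_le (h1.trans (ENNReal.ofReal_le_ofReal
      (div_le_div_of_nonneg_left (by linarith) hC₀ (by linarith)))))
  have b2 := ConeAuxA.cancel (t := 1 / 8) (show 0 < lam - 1 by linarith)
    ((mul_meas_ge_le_lintegral hr.ennreal_ofReal _).trans (hI.trans_le h1))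
    (by rw [div_le_iff₀ hC]; nlinarith)
  have b3 := hBig M S e x h hL hx hh
  rw [← hP, mul_right_comm, hK] at b3
  replace b3 := b3.trans (mul_le_mul_left h2 _)
  rw [← ENNReal.ofReal_mul (by positivity)] at b3
  replace b3 := ConeAuxA.cancel (t := 1 / 8) hx b3
    (by rw [div_mul_eq_mul_div, div_le_iff₀ hC]; nlinarith)
  have b4 : (2⁻¹ : ℝ≥0∞) = ENNReal.ofReal (1 / 2) := by
    rw [one_div, ENNReal.ofReal_inv_of_pos two_pos, ENNReal.ofReal_ofNat]
  rw [b4] at b1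
  have b5 : ENNReal.ofReal (1 / 4) ≤ P (ConeAuxA.GG M e lam h) := by
    have b6 := (measure_union_le _ _).trans (add_le_add_right ((measure_union_le _ _).trans
      (add_le_add b1 ((measure_union_le _ _).trans (add_le_add b2 b3))))
      (P (ConeAuxA.GG M e lam h)))
    rw [← ENNReal.ofReal_add (by norm_num) (by norm_num),
      ← ENNReal.ofReal_add (by norm_num) (by norm_num)] at b6
    have b7 := (measure_mono_ae (s := Set.univ) (hR.2.2.1.mono fun a ha _ => ?_)).trans b6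
    · rw [measure_univ, ← ENNReal.ofReal_one, ← tsub_le_iff_right,
        ← ENNReal.ofReal_sub _ (by norm_num)] at b7
      exact le_trans (ENNReal.ofReal_le_ofReal (by norm_num)) b7
    · by_contra h0
      have h3 : ¬ (_ ∨ _ ∨ _ ∨ _) := h0
      simp only [not_or] at h3
      refine h3.1 (ConeAuxA.det hCat hCon2 he (x := x) (by linarith) ha
        (fun n => not_lt.1 fun z => h3.2.1 ⟨n, z⟩)
        (not_lt.1 fun z => h3.2.2.1 (ENNReal.ofReal_le_ofReal z.le))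
        fun n hn => not_lt.1 fun z => h3.2.2.2 ⟨ha, n, hn, z⟩)
  refine le_trans (mul_le_mul_right ?_ _) (ConeAuxA.fin hI1 hL e lam h)
  rw [hP, cond_apply Mod.meas_Nn] at b5
  refine (mul_le_mul_right b5 _).trans ?_
  rw [ENNReal.mul_inv_cancel_left hN (measure_ne_top _ _)]
  exact measure_mono Set.inter_subset_right

end Pool.Agent.MP_db8016_pr.BZ

end

section

namespace Pool.Agent.MP_db8016_pr.BZ
open scoped ENNReal Classical

namespace G1AuxA

lemma first {α : Type} (P : List α → Prop) (n : ℕ) : ∀ ρ : List α, ρ.length ≤ n → P ρ →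
    ∃ r, r <+: ρ ∧ P r ∧ ∀ r', r' <+: r → r' ≠ r → ¬ P r' := by
  induction n with
  | zero =>
    intro ρ h hP
    refine ⟨ρ, List.prefix_rfl, hP, fun r' h1 h2 => absurd (h1.eq_of_length ?_) h2⟩
    have := h1.length_le
    omega
  | succ n ih =>
    intro ρ h hP
    by_cases h1 : ∃ r', r' <+: ρ ∧ r' ≠ ρ ∧ P r'
    · obtain ⟨r', a1, a2, a3⟩ := h1
      have a4 : r'.length ≠ ρ.length := fun e => a2 (a1.eq_of_length e)
      have a5 := a1.length_le
      obtain ⟨r, b1, b2, b3⟩ := ih r' (by omega) a3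
      exact ⟨r, b1.trans a1, b2, b3⟩
    · exact ⟨ρ, List.prefix_rfl, hP, fun r' a1 a2 a3 => h1 ⟨r', a1, a2, a3⟩⟩

lemma step {M : Mod} {e : M.Pt →+ ℝ} (he : M.Lip e) {lam : ℝ} (hl : 0 ≤ lam) (γ : List M.D)
    (d : M.D) : M.th e lam (γ ++ [d]) ≤ M.th e lam γ + (lam + 1) := by
  have h1 := (abs_le.1 (he d)).2
  have h2 := mul_le_mul_of_nonneg_left (abs_le.1 (M.hL d)).2 hl
  simp only [Mod.th, Mod.ds_append, Mod.ds_cons, Mod.ds_nil, add_zero, map_add, Mod.lv_append,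
    Mod.lv_cons, Mod.lv_nil]
  linarith

end G1AuxA

open G1AuxA in
theorem a_g1 : A_G1 := by
  intro M e lam Δ y H l₀ m₀ ξ ρ he hl hy h1 h2 hξ hρ
  have hΔ : 0 < Δ := by linarith
  have c1 : ∀ b, b <+: ξ → l₀ ≤ M.lv b → M.th e lam b ≤ m₀ + lam * H := fun b hb hb' =>
    add_le_add ((hξ b hb).2 hb') (mul_le_mul_of_nonneg_left (hξ b hb).1 hl)
  obtain ⟨a0, c2, c3⟩ : ∃ a0 : ℤ, (a0 - 1) * Δ ≤ m₀ + lam * H ∧ m₀ + lam * H < a0 * Δ := by
    refine ⟨⌊(m₀ + lam * H) / Δ⌋ + 1, ?_, ?_⟩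
    · push_cast
      rw [add_sub_cancel_right, ← le_div_iff₀ hΔ]
      exact Int.floor_le _
    · push_cast
      rw [← div_lt_iff₀ hΔ]
      exact Int.lt_floor_add_one _
  obtain ⟨a1, c4, c5⟩ : ∃ a1 : ℤ, a1 * Δ ≤ M.th e lam (ξ ++ ρ) ∧
      M.th e lam (ξ ++ ρ) < (a1 + 1) * Δ :=
    ⟨⌊M.th e lam (ξ ++ ρ) / Δ⌋, (le_div_iff₀ hΔ).1 (Int.floor_le _),
      (div_lt_iff₀ hΔ).1 (Int.lt_floor_add_one _)⟩
  have mono : ∀ {a b : ℤ}, a ≤ b → (a : ℝ) * Δ ≤ b * Δ := fun h =>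
    mul_le_mul_of_nonneg_right (by exact_mod_cast h) hΔ.le
  have c6 : ∀ a : Finset.Icc a0 a1, ∃ r, r <+: ρ ∧ (a : ℤ) * Δ ≤ M.th e lam (ξ ++ r) ∧
      ∀ r', r' <+: r → r' ≠ r → ¬ (a : ℤ) * Δ ≤ M.th e lam (ξ ++ r') := fun a =>
    first (fun r => (a : ℤ) * Δ ≤ M.th e lam (ξ ++ r)) _ ρ le_rfl
      ((mono (Finset.mem_Icc.1 a.2).2).trans c4)
  choose r r1 r2 r3 using c6
  have r4 : ∀ a : Finset.Icc a0 a1, m₀ + lam * H < (a : ℤ) * Δ := fun a =>
    c3.trans_le (mono (Finset.mem_Icc.1 a.2).1)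
  have r5 : ∀ a, r a ≠ [] := fun a h => by
    have h3 := r2 a
    have h4 := (hρ [] List.nil_prefix).2.2
    rw [h] at h3
    rw [List.append_nil] at h3 h4
    linarith [c1 ξ List.prefix_rfl h4, r4 a]
  have r6 : ∀ a, M.Ex e lam Δ y H ξ (r a) := fun a => by
    refine ⟨r5 a, fun ρ' h => ⟨(hρ _ (h.trans (r1 a))).1, (hρ _ (h.trans (r1 a))).2.1⟩,
      ⟨a, r2 a, fun ρ' h h' => not_le.1 (r3 a ρ' h h')⟩, fun b hb hb' h => ?_⟩
    rcases Mod.pf_append_cases hb with ⟨h3, -⟩ | ⟨β, h3, rfl⟩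
    · linarith [c1 b h3 ((hρ _ (r1 a)).2.2.trans h), r4 a, r2 a]
    · exact (not_le.1 (r3 a β h3 fun h4 => hb' (by rw [h4]))).trans_le (r2 a)
  have r7 : ∀ a b, r a = r b → (b : ℤ) ≤ a := fun a b h => by
    obtain ⟨r0, d, h3⟩ := (List.eq_nil_or_concat' (r a)).resolve_left (r5 a)
    have h4 := not_le.1 (r3 a r0 (h3 ▸ List.prefix_append _ _) (by rw [h3]; simp))
    have h5 := step he hl (ξ ++ r0) d
    have h6 := r2 b
    rw [← h, h3, ← List.append_assoc] at h6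
    by_contra h7
    have h8 := mono (show (a : ℤ) + 1 ≤ b by omega)
    push_cast at h8
    linarith
  have r8 := ENNReal.tsum_comp_le_tsum_of_injective (f := r)
    (fun a b h => Subtype.ext (le_antisymm (r7 b a h.symm) (r7 a b h)))
    fun ρ' => if ρ' <+: ρ ∧ M.Ex e lam Δ y H ξ ρ' then 1 else 0
  simp only [r1, r6, and_self, if_true, tsum_fintype, Finset.sum_const, Finset.card_univ,
    Fintype.card_coe, nsmul_eq_mul, mul_one, Int.card_Icc] at r8
  refine le_trans ?_ (mul_le_mul_right (add_le_add_right r8 2) _)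
  rw [← ENNReal.ofReal_natCast, ← ENNReal.ofReal_ofNat, ← ENNReal.ofReal_add (by norm_num)
    (Nat.cast_nonneg _), ← ENNReal.ofReal_mul hΔ.le]
  refine ENNReal.ofReal_le_ofReal ?_
  have h3 := mono (Int.self_le_toNat (a1 + 1 - a0))
  have h4 := mul_le_mul_of_nonneg_left (hρ ρ List.prefix_rfl).1 hl
  push_cast at h3
  unfold Mod.th at c5
  linarith

end Pool.Agent.MP_db8016_pr.BZ

end

section

/-! Two lemmas of analysis: limits along an ultrafilter and a discrete Gronwall argument. -/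

namespace Pool.Agent.MP_db8016_pr.BZ

open Filter Topology
open scoped ENNReal Classical

theorem a_ult : A_Ult := by
  intro Q B hB
  have hU : (hyperfilter ℕ : Filter ℕ) ≤ atTop := Nat.cofinite_eq_atTop ▸ hyperfilter_le_cofinite
  have hq : ∀ i, ∃ q : ℝ≥0∞, Tendsto (fun h => Q h i) (hyperfilter ℕ) (𝓝 q) := fun i => by
    obtain ⟨q, -, h⟩ := isCompact_univ.ultrafilter_le_nhds ((hyperfilter ℕ).map fun h => Q h i)
      (by simp)
    exact ⟨q, h⟩
  choose q hq using hq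
  refine ⟨q, ?_, fun n c a hc ha => ?_⟩
  · rw [ENNReal.tsum_eq_iSup_sum]
    refine iSup_le fun s => le_of_tendsto (tendsto_finset_sum s fun i _ => hq i) ?_
    exact (hB.filter_mono hU).mono fun h hh => (ENNReal.sum_le_tsum s).trans hh
  · exact ge_of_tendsto (tendsto_finset_sum _ fun i _ =>
      ENNReal.Tendsto.const_mul (hq i) (Or.inr (hc i))) (ha.filter_mono hU)

namespace GronAuxA

theorem step {F : ℝ → ℝ} {η : ℕ → ℝ} {K C : ℝ} {Good : ℝ → ℕ → Prop} (hF : Monotone F)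
    (hη : ∀ i, 0 ≤ η i) (hK : 0 < K) (hC : 0 < C)
    (hG : ∀ (lam x : ℝ) (i : ℕ), 2 ≤ lam → 0 < x → F x ≤ lam / C → (2 ^ i + 2) * F x ≤ x / C →
      Good lam i)
    (hB : ∀ (I : ℕ) (lam : ℕ → ℝ) (x : ℝ), (∀ i, 2 ≤ lam i) → (∀ i ≤ I, Good (lam i) i) → 0 < x →
      F x ≤ K * (1 + ∑ i ∈ Finset.range (I + 1), lam i * η i + x / 2 ^ I * η (I + 1)))
    (I : ℕ) (lam : ℕ → ℝ) (h2 : ∀ i, 2 ≤ lam i) (hg : ∀ i ≤ I, Good (lam i) i)
    (hI : 8 * C * K * η (I + 1) ≤ 1) :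
    F (2 ^ (I + 1)) ≤ (2 + 2 * C * K) * (1 + ∑ i ∈ Finset.range (I + 1), lam i * η i) / C ∧
      ∃ lam' : ℕ → ℝ, (∀ i, 2 ≤ lam' i) ∧ (∀ i ≤ I + 1, Good (lam' i) i) ∧
        1 + ∑ i ∈ Finset.range (I + 1 + 1), lam' i * η i ≤
          (1 + ∑ i ∈ Finset.range (I + 1), lam i * η i) *
            Real.exp ((2 + 2 * C * K) * η (I + 1)) := by
  have hb := fun x => hB I lam x h2 hg
  have hA : 1 ≤ 1 + ∑ i ∈ Finset.range (I + 1), lam i * η i :=
    le_add_of_nonneg_right (Finset.sum_nonneg fun i _ => mul_nonneg (by linarith [h2 i]) (hη i))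
  obtain ⟨A, eA⟩ : ∃ A, A = 1 + ∑ i ∈ Finset.range (I + 1), lam i * η i := ⟨_, rfl⟩
  rw [← eA] at hb hA ⊢
  obtain ⟨L, eL⟩ : ∃ L, L = max 2 (2 * C * K * A) := ⟨_, rfl⟩
  have L1 : 2 ≤ L := eL ▸ le_max_left _ _
  have L2 : 2 * C * K * A ≤ L := eL ▸ le_max_right _ _
  have hCK : 0 < C * K := mul_pos hC hK
  have L3 : L ≤ (2 + 2 * C * K) * A := eL ▸ max_le (by nlinarith) (by nlinarith)
  have p1 : (1 : ℝ) ≤ 2 ^ I := one_le_pow₀ (by norm_num)
  have e2 : (2 : ℝ) ^ (I + 1) = 2 * 2 ^ I := by ring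
  have x0 : 0 < L * (2 ^ (I + 1) + 2) := by positivity
  have x1 : L * (2 ^ (I + 1) + 2) / 2 ^ I ≤ 4 * L := by
    rw [div_le_iff₀ (by positivity), e2]
    nlinarith
  have x2 : F (L * (2 ^ (I + 1) + 2)) ≤ L / C := by
    have a1 := mul_le_mul_of_nonneg_right x1 (hη (I + 1))
    have a2 : K * (A + L * (2 ^ (I + 1) + 2) / 2 ^ I * η (I + 1)) ≤ K * (A + 4 * L * η (I + 1)) :=
      mul_le_mul_of_nonneg_left (by linarith) hK.le
    refine ((hb _ x0).trans a2).trans ?_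
    rw [le_div_iff₀ hC]
    have a3 := mul_le_mul_of_nonneg_left hI (by linarith : 0 ≤ L)
    nlinarith
  have x3 : Good L (I + 1) := by
    refine hG L _ (I + 1) L1 x0 x2 ?_
    have := mul_le_mul_of_nonneg_left x2 (by positivity : (0 : ℝ) ≤ 2 ^ (I + 1) + 2)
    rwa [← mul_div_assoc, mul_comm _ L] at this
  refine ⟨((hF (by rw [e2]; nlinarith)).trans x2).trans (div_le_div_of_nonneg_right L3 hC.le),
    Function.update lam (I + 1) L, fun i => ?_, fun i hi => ?_, ?_⟩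
  · rcases eq_or_ne i (I + 1) with rfl | h
    · rwa [Function.update_self]
    · rw [Function.update_of_ne h]
      exact h2 i
  · rcases eq_or_ne i (I + 1) with rfl | h
    · rwa [Function.update_self]
    · rw [Function.update_of_ne h]
      exact hg i (by omega)
  · rw [Finset.sum_range_succ, Function.update_self, Finset.sum_congr rfl fun i hi => by
      rw [Function.update_of_ne (Finset.mem_range.1 hi).ne], ← add_assoc, ← eA]
    have a1 := Real.add_one_le_exp ((2 + 2 * C * K) * η (I + 1))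
    have a2 := mul_le_mul_of_nonneg_left a1 (by linarith : 0 ≤ A)
    have a3 := mul_le_mul_of_nonneg_right L3 (hη (I + 1))
    nlinarith

end GronAuxA

theorem a_gron : A_Gron := by
  intro F η K C Good hF hη hs hK hC h0 hG hB
  have hCK : 0 < C * K := mul_pos hC hK
  have h1 : ∀ i : ℕ, ∃ lam : ℝ, 2 ≤ lam ∧ Good lam i := fun i => by
    have hp : (0 : ℝ) < 2 ^ i + 2 := by positivity
    obtain ⟨x₀, hx⟩ := h0 (C * (2 ^ i + 2))⁻¹ (by positivity)
    have a1 := mul_le_mul_of_nonneg_left (hx (max x₀ 1) (le_max_left _ _)) hp.le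
    refine ⟨max 2 (F (max x₀ 1) * C), le_max_left _ _, hG _ (max x₀ 1) i (le_max_left _ _)
      (lt_max_of_lt_right one_pos) ((le_div_iff₀ hC).2 (le_max_right _ _)) (a1.trans_eq ?_)⟩
    field_simp
  choose l0 hl0 hl1 using h1
  obtain ⟨I₀, hI⟩ := eventually_atTop.1 (hs.tendsto_atTop_zero.eventually
    (ge_mem_nhds (show (0 : ℝ) < (8 * C * K)⁻¹ by positivity)))
  have hI' : ∀ n, 8 * C * K * η (I₀ + n + 1) ≤ 1 := fun n => by
    have := mul_le_mul_of_nonneg_left (hI (I₀ + n + 1) (by omega))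
      (by positivity : (0 : ℝ) ≤ 8 * C * K)
    rwa [mul_inv_cancel₀ (by positivity)] at this
  obtain ⟨A₀, eA⟩ : ∃ A, A = 1 + ∑ i ∈ Finset.range (I₀ + 1), l0 i * η i := ⟨_, rfl⟩
  have hA : 0 ≤ A₀ := eA ▸ add_nonneg zero_le_one
    (Finset.sum_nonneg fun i _ => mul_nonneg (by linarith [hl0 i]) (hη i))
  have hc : 0 ≤ 2 + 2 * C * K := by positivity
  have key : ∀ n, ∃ lam : ℕ → ℝ, (∀ i, 2 ≤ lam i) ∧ (∀ i ≤ I₀ + n, Good (lam i) i) ∧
      1 + ∑ i ∈ Finset.range (I₀ + n + 1), lam i * η i ≤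
        A₀ * Real.exp ((2 + 2 * C * K) * ∑ i ∈ Finset.range (I₀ + n + 1), η i) := by
    intro n
    induction n with
    | zero =>
      refine ⟨l0, hl0, fun i _ => hl1 i, ?_⟩
      rw [add_zero, ← eA]
      exact le_mul_of_one_le_right hA (Real.one_le_exp
        (mul_nonneg hc (Finset.sum_nonneg fun i _ => hη i)))
    | succ n ih =>
      obtain ⟨lam, a1, a2, a3⟩ := ih
      obtain ⟨-, lam', b1, b2, b3⟩ := GronAuxA.step hF hη hK hC hG hB (I₀ + n) lam a1 a2 (hI' n)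
      refine ⟨lam', b1, b2, b3.trans ?_⟩
      rw [← add_assoc, Finset.sum_range_succ η (I₀ + n + 1), mul_add, Real.exp_add, ← mul_assoc]
      exact mul_le_mul_of_nonneg_right a3 (Real.exp_nonneg _)
  refine ⟨(2 + 2 * C * K) * (A₀ * Real.exp ((2 + 2 * C * K) * ∑' i, η i)) / C, fun x => ?_⟩
  obtain ⟨n, hn⟩ := pow_unbounded_of_one_lt x (one_lt_two (α := ℝ))
  obtain ⟨lam, a1, a2, a3⟩ := key n
  have b := (GronAuxA.step hF hη hK hC hG hB (I₀ + n) lam a1 a2 (hI' n)).1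
  refine ((hF (hn.le.trans (pow_le_pow_right₀ one_le_two (by omega)))).trans b).trans ?_
  refine div_le_div_of_nonneg_right (mul_le_mul_of_nonneg_left (a3.trans ?_) hc) hC.le
  exact mul_le_mul_of_nonneg_left (Real.exp_le_exp.2 (mul_le_mul_of_nonneg_left
    (hs.sum_le_tsum _ fun i _ => hη i) hc)) hA

end Pool.Agent.MP_db8016_pr.BZ

end

section

namespace Pool.Agent.MP_db8016_pr.BZ
open MeasureTheory ProbabilityTheory Filter
open scoped ENNReal Classical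
open HD HD.Model HD.ZOneAux Step0Aux

namespace I1AuxA

variable {M : Mod} {S : Measure (ℕ → M.D)} [IsProbabilityMeasure S]

lemma upper (hS : ∀ γ, S (cyl γ) = M.w γ) (e : ℕ → M.D) (m : ℕ)
    (h5 : ∀ i < m, M.L (ps M.vec e i) < M.L (ps M.vec e m)) :
    S.real (Cy e m ∩ sh m ⁻¹' {a | ∀ n, 0 ≤ M.L (ps M.vec a n)}) ≤
      S.real (Cy e m) * S.real {a | ∀ n, 0 ≤ M.L (ps M.vec a n)} := by
  let S₁ : Measure (ℕ → M.D) := (S.restrict (Cy e m)).map (sh m)
  have e1 : ∀ B, MeasurableSet B → S₁.real B = S.real (Cy e m ∩ sh m ⁻¹' B) := fun B hB => by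
    rw [map_measureReal_apply (measurable_sh m) hB,
      measureReal_restrict_apply (measurable_sh m hB), Set.inter_comm]
  let A : ℕ → Set (ℕ → M.D) := fun j => {a | ∀ i ≤ j, 0 ≤ M.L (ps M.vec a i)}
  have hA : ∀ j, Det j (A j) := fun j a a' h1 h2 i hi => by
    rw [ps_congr M.vec h1 hi]; exact h2 i hi
  have h7 : {a | ∀ n, 0 ≤ M.L (ps M.vec a n)} = ⋂ j, A j := by
    ext a
    simp only [A, Set.mem_ofPred_eq, Set.mem_iInter]
    exact ⟨fun h _ i _ => h i, fun h i => h i i le_rfl⟩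
  have h1 : ∀ j, S₁.real (A j) ≤ S.real (Cy e m) * S.real (A j) := fun j => by
    have h2 := stop_thm M.D S S₁ (fun a k => k = j ∧ a ∈ A j)
      (fun a a' k h1 h2 => ⟨h2.1, hA j a a' (h2.1 ▸ h1) h2.2⟩) Set.univ Set.univ
      MeasurableSet.univ MeasurableSet.univ (S.real (Cy e m)) 1 (fun a k hk => by
        obtain ⟨⟨rfl, h3⟩, -⟩ := hk
        rw [Set.inter_univ, one_mul, e1 _ (measurableSet_Cy _ _), ← Cy_cat,
          hF hS (cat e m a) m k fun i hi i' hi' h8 => ?_, sh_cat, Cy_congr (cat_mem e m a)]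
        have h9 := congrArg M.L h8
        rw [lv_add, sh_cat, ps_congr M.vec (cat_mem e m a) hi.le,
          ps_congr M.vec (cat_mem e m a) le_rfl] at h9
        linarith [h3 i' hi'.le, h5 i hi])
    simpa using h2
  rw [h7, ← e1 _ (MeasurableSet.iInter fun j => (hA j).measurableSet)]
  have h3 := (ENNReal.tendsto_toReal (measure_ne_top S _)).comp
    (tendsto_measure_iInter_atTop (μ := S) (fun j => (hA j).measurableSet.nullMeasurableSet)
      (fun j j' hj a ha i hi => ha i (hi.trans hj)) ⟨0, measure_ne_top _ _⟩)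
  exact ge_of_tendsto' (h3.const_mul (S.real (Cy e m))) fun j =>
    (measureReal_mono (Set.iInter_subset _ j)).trans (h1 j)

lemma pf_le {D : Type} (e : ℕ → D) {i m : ℕ} (h : i ≤ m) : pre e i <+: pre e m := by
  obtain ⟨k, rfl⟩ := Nat.exists_eq_add_of_le h
  rw [pre_add']
  exact List.prefix_append _ _

end I1AuxA

open I1AuxA

theorem a_i1 : A_I1 := by
  intro M S _ hS α B hα hB h0
  obtain ⟨e, he⟩ : ∃ e : ℕ → M.D, pre e α.length = α :=
    ⟨fun i => α.getD i M.u, List.ext_getElem (by simp) fun i h1 h2 => by simp [pre, h2]⟩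
  generalize α.length = m at he ⊢
  subst he
  simp only [lv_eq] at h0
  have h5 : ∀ i < m, M.L (ps M.vec e i) < M.L (ps M.vec e m) := fun i hi => by
    rw [← lv_eq, ← lv_eq]
    exact hα _ (pf_le e hi.le) fun h => hi.ne (by simpa using congrArg List.length h)
  have hN : MeasurableSet {a | ∀ n, 0 ≤ M.L (ps M.vec a n)} :=
    measurableSet_setOfPred.2 (Measurable.forall fun n => meas_lv (fun x => 0 ≤ x) n)
  have h1 := fresh hS e m h5 hB h0
  have h2 := fresh hS e m h5 (hN.diff hB) fun a ha => ha.1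
  have h3 := upper hS e m h5
  have h4 := measureReal_inter_add_sdiff (μ := S) (s := {a | ∀ n, 0 ≤ M.L (ps M.vec a n)}) hB
  have h6 := measureReal_inter_add_sdiff (μ := S)
    (s := Cy e m ∩ sh m ⁻¹' {a | ∀ n, 0 ≤ M.L (ps M.vec a n)}) (measurable_sh m hB)
  have h8 : {a | ∀ n, 0 ≤ M.L (ps M.vec a n)} ∩ B = B := Set.inter_eq_right.2 h0
  rw [h8] at h4
  rw [Set.inter_assoc, ← Set.preimage_inter, h8, Set.inter_sdiff_assoc,
    ← Set.preimage_sdiff] at h6
  have h7 : S.real (Cy e m ∩ sh m ⁻¹' B) = S.real (Cy e m) * S.real B := by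
    rw [← h4, mul_add] at h3
    linarith
  rw [← hS, ← Cy_eq, ← ENNReal.toReal_eq_toReal_iff' (measure_ne_top _ _)
    (ENNReal.mul_ne_top (measure_ne_top _ _) (measure_ne_top _ _)), ENNReal.toReal_mul]
  exact h7

theorem a_i2 : A_I2 := by
  intro M S ⟨_, hS, h0⟩
  have hp : 0 < S.real M.Nn := ENNReal.toReal_pos h0 (measure_ne_top _ _)
  refine zero_of stop_thm (Mod.meas_Esc.inter (measurableSet_setOfPred.2 (Measurable.forall fun n =>
    (measurableSet_setOfPred.1 (Mod.meas_Cut n)).not)))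
    (θ := 1 - S.real M.Nn) (sub_nonneg.2 measureReal_le_one) (by linarith) fun e he n => ?_
  have h1 : ∃ m, (n : ℝ) < M.L (ps M.vec e m) := by
    simpa only [lv_eq] using (Tendsto.eventually_gt_atTop he.1 (n : ℝ)).exists
  have h2 := Nat.find_spec h1
  have h3 := h2.trans_le ((le_abs_self _).trans (abs_lv M.hL _ _))
  have h4 : n < Nat.find h1 := by exact_mod_cast h3
  have h5 : ∀ i < Nat.find h1, M.L (ps M.vec e i) < M.L (ps M.vec e (Nat.find h1)) := fun i hi =>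
    (not_lt.1 (Nat.find_min h1 hi)).trans_lt h2
  generalize Nat.find h1 = m at h4 h5
  refine ⟨m, h4.le, dens (B := sh m ⁻¹' M.Nn) (measurable_sh m Mod.meas_Nn) ?_
    fun a h8 h9 h10 => h9.2 m ⟨by omega, fun β b1 b2 => ?_, h10⟩⟩
  · rw [mul_comm]
    exact fresh hS e m h5 Mod.meas_Nn fun a ha k => by rw [← lv_eq]; exact ha.1 k
  · have h6 := pf_pre' b1 b2
    rw [(pf_pre b1).2, lv_eq, lv_eq, ps_congr M.vec h8 h6.le, ps_congr M.vec h8 le_rfl]
    exact h5 _ h6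

theorem a_law : A_Law := by
  intro M S hP hS h0
  have e1 : M.Esc = {e | Tendsto (fun n => M.L (ps M.vec e n)) atTop atTop} := by
    simp only [Mod.Esc, lv_eq]
  have e2 : M.neg.Esc = {e : ℕ → M.D | Tendsto (fun n => (-M.L) (ps M.vec e n)) atTop atTop} := by
    simp only [Mod.Esc, lv_eq]
    rfl
  have hp := esc stop_thm M.hL M.hu (κ_pos M) (hU hS) (h3 hS) (e1 ▸ h0)
  have p3 := trans_or stop_thm M.hL M.hu (κ_pos M) (hU hS) (hF hS) hp
  have h1 : S M.Nn ≠ 0 := by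
    intro h
    refine (ENNReal.toReal_pos_iff.1 hp).1.ne' ?_
    rw [← measure_inter_conull p3]
    refine measure_mono_null (fun e he => ?_) h
    obtain ⟨h2, h3 | h3⟩ := he
    · exact ⟨fun n => by rw [lv_eq]; exact h2 n, e1 ▸ h3⟩
    · obtain ⟨n, hn⟩ := (Tendsto.eventually_gt_atTop h3 0).exists
      rw [AddMonoidHom.neg_apply] at hn
      linarith [h2 n]
  refine ⟨⟨hP, hS, h1⟩, ⟨h1, fun t => le_sm hS fun e he => cross_of M he.1 he.2 t⟩, ?_⟩
  rw [e1, e2]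
  exact p3

end Pool.Agent.MP_db8016_pr.BZ

end

section

/-! From the paths that never go below the start to all the paths that escape. -/

namespace Pool.Agent.MP_db8016_pr.BZ
open MeasureTheory ProbabilityTheory Filter Topology
open scoped ENNReal Classical
open HD (sh)

namespace Lim1AuxA

lemma ratio {E L : ℕ → ℝ} {v : ℝ} (c₁ c₂ : ℝ) (hL : Tendsto L atTop atTop)
    (h : Tendsto (fun k => E k / L k) atTop (𝓝 v)) :
    Tendsto (fun k => (c₁ + E k) / (c₂ + L k)) atTop (𝓝 v) := by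
  have h1 : Tendsto (fun k => c₁ / L k) atTop (𝓝 0) := tendsto_const_nhds.div_atTop hL
  have h2 : Tendsto (fun k => c₂ / L k) atTop (𝓝 0) := tendsto_const_nhds.div_atTop hL
  have h3 := (h1.add h).div (h2.add_const 1) (by norm_num)
  rw [zero_add, zero_add, div_one] at h3
  refine h3.congr' ?_
  filter_upwards [hL.eventually_gt_atTop 0] with k hk
  have hk' : L k ≠ 0 := hk.ne'
  rw [Pi.div_apply, ← add_div, div_add_one hk', div_div_div_cancel_right₀ hk']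

lemma shift {M : Mod} {e : M.Pt →+ ℝ} {v : ℝ} {a : ℕ → M.D} {n : ℕ} (h1 : sh n a ∈ M.Esc)
    (h2 : Tendsto (fun k => e (M.ds (pre (sh n a) k)) / M.lv (pre (sh n a) k)) atTop (𝓝 v)) :
    Tendsto (fun k => e (M.ds (pre a k)) / M.lv (pre a k)) atTop (𝓝 v) := by
  rw [← tendsto_add_atTop_iff_nat n]
  refine (ratio (e (M.ds (pre a n))) (M.lv (pre a n)) h1 h2).congr fun k => ?_
  rw [add_comm k n, Step0Aux.pre_add', Mod.ds_append, Mod.lv_append, map_add]

lemma meas_G (M : Mod) (e : M.Pt →+ ℝ) (v : ℝ) : MeasurableSet {a : ℕ → M.D |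
    Tendsto (fun k => e (M.ds (pre a k)) / M.lv (pre a k)) atTop (𝓝 v)} :=
  measurableSet_tendsto (𝓝 v) fun n => measurable_of_Iic fun t =>
    Mod.meas_pre (fun γ => e (M.ds γ) / M.lv γ ≤ t) n

end Lim1AuxA

theorem a_lim1 (hI1 : A_I1) (hI2 : A_I2) : A_Lim1 := by
  intro M S e v hS h
  have hP := hS.1
  set G : Set (ℕ → M.D) := {a |
    Tendsto (fun k => e (M.ds (pre a k)) / M.lv (pre a k)) atTop (𝓝 v)} with hG
  have hm : MeasurableSet G := Lim1AuxA.meas_G M e v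
  have h0 : S (M.Nn ∩ Gᶜ) = 0 := by
    have h1 : (S[|M.Nn]) Gᶜ = 0 := ae_iff.1 h
    rw [cond_apply Mod.meas_Nn, mul_eq_zero] at h1
    exact h1.resolve_left (ENNReal.inv_ne_zero.2 (measure_ne_top _ _))
  have h2 : S (⋃ α : {α : List M.D // M.Rc α},
      cyl α.1 ∩ sh α.1.length ⁻¹' (M.Nn ∩ Gᶜ)) = 0 := by
    refine measure_iUnion_null fun α => ?_
    rw [hI1 M S hS.2.1 α.1 _ α.2 (Mod.meas_Nn.inter hm.compl) fun a ha => ha.1.1, h0, mul_zero]
  refine ae_iff.2 (measure_mono_null ?_ (measure_union_null (hI2 M S hS) h2))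
  intro a ha
  rw [Set.mem_ofPred_eq, Classical.not_imp] at ha
  by_cases hc : ∀ n, ¬ M.Cut a n
  · exact Or.inl ⟨ha.1, hc⟩
  · push Not at hc
    obtain ⟨n, -, h3, h4⟩ := hc
    refine Or.inr (Set.mem_iUnion.2 ⟨⟨pre a n, h3⟩, mem_cyl_pre a n, ?_⟩)
    rw [Set.mem_preimage, pre_length]
    exact ⟨h4, fun h5 => ha.2 (Lim1AuxA.shift h4.2 h5)⟩

end Pool.Agent.MP_db8016_pr.BZ

end

section

/-! The renewal structure under the conditioned law. -/

namespace Pool.Agent.MP_db8016_pr.BZ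
open MeasureTheory ProbabilityTheory Filter Topology
open scoped ENNReal Classical
open HD (sh)

namespace RegAuxA
variable {M : Mod} {a : ℕ → M.D}

lemma lv_add (a : ℕ → M.D) (n k : ℕ) :
    M.lv (pre a (n + k)) = M.lv (pre a n) + M.lv (pre (sh n a) k) := by
  rw [Step0Aux.pre_add', Mod.lv_append]

lemma nn_pre (h : a ∈ M.Nn) (n : ℕ) : M.NN (pre a n) := fun α hα => by
  rw [(Step0Aux.pf_pre hα).2]
  exact h.1 _

lemma nn_of {n : ℕ} (h : M.NN (pre a n)) (h' : sh n a ∈ M.Nn) : a ∈ M.Nn := by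
  refine ⟨fun k => ?_, (tendsto_add_atTop_iff_nat n).1 ?_⟩
  · refine (h.append (nn_pre h' k)) _ ?_
    rw [← Step0Aux.pre_add', add_comm, Step0Aux.pre_add']
    exact List.prefix_append _ _
  · simp only [add_comm _ n, lv_add]
    exact tendsto_atTop_add_const_left _ _ h'.2

lemma cut_of {α β : List M.D} {n : ℕ} (e : pre a n = α ++ β) (h : sh n a ∈ M.Nn) (h1 : M.Rc α)
    (h2 : M.NN β) (h0 : α ≠ []) : M.Cut a α.length := by
  have e1 : n = α.length + β.length := by simpa using congrArg List.length e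
  rw [e1, Step0Aux.pre_add'] at e
  obtain ⟨e2, e3⟩ := List.append_inj e (by simp)
  refine ⟨List.length_pos_iff.2 h0, e2.symm ▸ h1, nn_of (n := β.length) (e3.symm ▸ h2) ?_⟩
  rwa [HD.sh_sh, ← e1]

lemma irr_pc (h : a ∈ M.Nn) (hc : ¬ ∀ n, ¬ M.Cut a n) : M.Irr (M.pc a) := by
  have h0 : 0 < M.tau a := Nat.pos_of_ne_zero fun e => hc (Mod.tau_eq_zero.1 e)
  obtain ⟨c1, c2⟩ := (Mod.tau_eq_iff h0).1 rfl
  refine ⟨⟨nn_pre h _, c1.2.1⟩, List.length_pos_iff.1 (by simpa [Mod.pc] using h0),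
    fun α β e h1 h2 => ?_⟩
  by_contra hn
  obtain ⟨n1, n2⟩ := not_or.1 hn
  refine c2 _ ?_ (cut_of e c1.2.2 h1.2 h2.1 n1)
  have e1 : M.tau a = α.length + β.length := by simpa [Mod.pc] using congrArg List.length e
  have := List.length_pos_iff.2 n2
  omega

lemma tau_of {π : List M.D} (hπ : M.Irr π) (h : a ∈ cyl π) (h' : sh π.length a ∈ M.Nn) :
    M.tau a = π.length := by
  have e : pre a π.length = π := h
  have h0 := List.length_pos_iff.2 hπ.2.1
  refine (Mod.tau_eq_iff h0).2 ⟨⟨h0, e.symm ▸ hπ.1.2, h'⟩, fun k hk c => ?_⟩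
  obtain ⟨j, hj⟩ : ∃ j, π.length = k + (j + 1) := ⟨π.length - k - 1, by omega⟩
  rw [hj, Step0Aux.pre_add'] at e
  rcases hπ.2.2 _ _ e.symm ⟨hπ.1.1.of_pf ⟨_, e⟩, c.2.1⟩
    ⟨nn_pre c.2.2 _, Mod.Rc.of_append (e.symm ▸ hπ.1.2)⟩ with h1 | h1
  · exact c.1.ne' (by simpa using congrArg List.length h1)
  · simpa using congrArg List.length h1

lemma set_eq {π : List M.D} (hπ : M.Irr π) (B : Set (ℕ → M.D)) :
    M.Nn ∩ ({a | M.pc a = π} ∩ M.Tn ⁻¹' B) = cyl π ∩ sh π.length ⁻¹' (M.Nn ∩ B) := by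
  ext a
  constructor
  · rintro ⟨-, h2, h3⟩
    have e : M.tau a = π.length := by simpa [Mod.pc] using congrArg List.length h2
    refine ⟨?_, ((Mod.tau_eq_iff (List.length_pos_iff.2 hπ.2.1)).1 e).1.2.2, ?_⟩
    · change pre a π.length = π
      rw [← e]
      exact h2
    · rw [← e]
      exact h3
  · rintro ⟨h1, h2, h3⟩
    have e := tau_of hπ h1 h2
    have e' : pre a π.length = π := h1
    refine ⟨nn_of (e'.symm ▸ hπ.1.1) h2, ?_, ?_⟩
    · change pre a (M.tau a) = π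
      rw [e, e']
    · change sh (M.tau a) a ∈ B
      rwa [e]

end RegAuxA

open RegAuxA in
theorem a_reg (hI1 : A_I1) (hI2 : A_I2) : A_Reg := by
  intro M S hS
  have h2 := hI2 M S hS
  obtain ⟨s1, s2, s3⟩ := hS
  have hP : IsProbabilityMeasure S[|M.Nn] := cond_isProbabilityMeasure s3
  have key : ∀ π B, MeasurableSet B → S[|M.Nn] ({a | M.pc a = π} ∩ M.Tn ⁻¹' B) =
      (if M.Irr π then M.w π else 0) * S[|M.Nn] B := by
    intro π B hB
    rw [cond_apply Mod.meas_Nn, cond_apply Mod.meas_Nn]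
    split_ifs with h
    · rw [set_eq h, hI1 M S s2 π _ h.1.2 (Mod.meas_Nn.inter hB) fun a ha => ha.1.1, mul_left_comm]
    · rw [zero_mul, measure_mono_null (s := M.Nn ∩ _) (fun a ha => ?_) h2, mul_zero]
      refine ⟨ha.1.2, ?_⟩
      by_contra hc
      exact h ((show M.pc a = π from ha.2.1) ▸ irr_pc ha.1 hc)
  have tot : ∀ B, MeasurableSet B → S[|M.Nn] (M.Tn ⁻¹' B) =
      (∑' π, if M.Irr π then M.w π else 0) * S[|M.Nn] B := by
    intro B hB
    have e : M.Tn ⁻¹' B = ⋃ π, {a | M.pc a = π} ∩ M.Tn ⁻¹' B := by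
      ext a
      simp
    rw [e, measure_iUnion _ fun π => (Mod.meas_pc π).inter (Mod.measurable_Tn hB),
      ← ENNReal.tsum_mul_right]
    · exact tsum_congr fun π => key π B hB
    · exact fun π π' h => Set.disjoint_left.2 fun a h1 h3 => h (h1.1.symm.trans h3.1)
  have h1 := tot _ MeasurableSet.univ
  rw [Set.preimage_univ, measure_univ, mul_one] at h1
  have hT : MeasurePreserving M.Tn S[|M.Nn] S[|M.Nn] := ⟨Mod.measurable_Tn, Measure.ext fun B hB => by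
    rw [Measure.map_apply Mod.measurable_Tn hB, tot B hB, ← h1, one_mul]⟩
  have hae : ∀ᵐ a ∂S[|M.Nn], a ∈ M.Nn ∧ M.Irr (M.pc a) := by
    filter_upwards [ae_cond_mem (μ := S) Mod.meas_Nn,
      measure_eq_zero_iff_ae_notMem.1 (cond_absolutelyContinuous (s := M.Nn) h2)] with a a1 a2
    exact ⟨a1, irr_pc a1 fun hc => a2 ⟨a1.2, hc⟩⟩
  exact ⟨hP, hT, ae_all_iff.2 fun j => (hT.iterate j).quasiMeasurePreserving.ae hae, key⟩

theorem a_int : A_Int := by
  intro M P hP f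
  let _ : MeasurableSpace (List M.D) := ⊤
  have _ : MeasurableSingletonClass (List M.D) := ⟨fun _ => trivial⟩
  have _ := hP.1
  have h : Measurable M.pc := measurable_to_countable' Mod.meas_pc
  rw [← lintegral_map (measurable_from_top (f := f)) h, lintegral_countable']
  refine tsum_congr fun π => ?_
  have h1 := hP.2.2.2 π _ MeasurableSet.univ
  rw [Set.preimage_univ, Set.inter_univ, measure_univ, mul_one] at h1
  rw [Measure.map_apply h (measurableSet_singleton π), show M.pc ⁻¹' {π} = {a | M.pc a = π} from rfl,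
    h1, mul_comm, ite_mul, zero_mul]

end Pool.Agent.MP_db8016_pr.BZ

end

section

/-! The strong law of large numbers for the pieces. -/

namespace Pool.Agent.MP_db8016_pr.BZ
open MeasureTheory ProbabilityTheory Filter Topology
open scoped ENNReal Classical

namespace SLLNAuxA
variable {M : Mod} {P : Measure (ℕ → M.D)}

lemma split (h : M.Reg P) (A : Set (List M.D)) {B : Set (ℕ → M.D)} (hB : MeasurableSet B) :
    P (M.pc ⁻¹' A ∩ M.Tn ⁻¹' B) = (∑' π : A, if M.Irr π then M.w π else 0) * P B := by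
  have e : M.pc ⁻¹' A ∩ M.Tn ⁻¹' B = ⋃ π ∈ A, {a | M.pc a = π} ∩ M.Tn ⁻¹' B := by
    ext a
    simp
  rw [e, measure_biUnion A.to_countable (fun π _ π' _ hne => Set.disjoint_left.2
    fun a h1 h2 => hne (h1.1.symm.trans h2.1))
    fun π _ => (Mod.meas_pc π).inter (Mod.measurable_Tn hB), ← ENNReal.tsum_mul_right]
  exact tsum_congr fun π => h.2.2.2 π B hB

lemma ind (h : M.Reg P) (A : Set (List M.D)) {B : Set (ℕ → M.D)} (hB : MeasurableSet B) :
    P (M.pc ⁻¹' A ∩ M.Tn ⁻¹' B) = P (M.pc ⁻¹' A) * P (M.Tn ⁻¹' B) := by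
  have := h.1
  have h1 := split h A MeasurableSet.univ
  rw [Set.preimage_univ, Set.inter_univ, measure_univ, mul_one] at h1
  rw [split h A hB, h1, h.2.1.measure_preimage hB.nullMeasurableSet]

lemma indep (h : M.Reg P) (f : List M.D → ℝ) (i k : ℕ) :
    IndepFun (fun a => f (M.pc (M.Tn^[i] a))) (fun a => f (M.pc (M.Tn^[k + 1 + i] a))) P := by
  refine indepFun_iff_measure_inter_preimage_eq_mul.2 fun s t hs ht => ?_
  have m1 : MeasurableSet (M.pc ⁻¹' (f ⁻¹' s)) := Mod.measurable_pc f hs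
  have m2 : MeasurableSet ((fun a => f (M.pc (M.Tn^[k] a))) ⁻¹' t) :=
    ((Mod.measurable_pc f).comp (Mod.measurable_Tn.iterate k)) ht
  have m3 := Mod.measurable_Tn m2
  have e1 : (fun a => f (M.pc (M.Tn^[i] a))) ⁻¹' s = M.Tn^[i] ⁻¹' (M.pc ⁻¹' (f ⁻¹' s)) := rfl
  have e2 : (fun a => f (M.pc (M.Tn^[k + 1 + i] a))) ⁻¹' t =
      M.Tn^[i] ⁻¹' (M.Tn ⁻¹' ((fun a => f (M.pc (M.Tn^[k] a))) ⁻¹' t)) := by
    ext a
    simp only [Set.mem_preimage, Function.iterate_add_apply, Function.iterate_one]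
  rw [e1, e2, ← Set.preimage_inter,
    (h.2.1.iterate i).measure_preimage (m1.inter m3).nullMeasurableSet,
    (h.2.1.iterate i).measure_preimage m1.nullMeasurableSet,
    (h.2.1.iterate i).measure_preimage m3.nullMeasurableSet, ind h _ m2]

end SLLNAuxA

theorem a_slln (hInt : A_Int) : A_SLLN := by
  intro M P f h hf
  have hm := Mod.measurable_pc (M := M) f
  refine strong_law_ae_real (fun i a => f (M.pc (M.Tn^[i] a))) ⟨hm.aestronglyMeasurable, ?_⟩
    (fun i j hij => ?_) fun i => ?_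
  · rw [hasFiniteIntegral_iff_norm]
    exact (hInt M P h fun π => ENNReal.ofReal |f π|).trans_lt hf.lt_top
  · rcases lt_or_gt_of_ne hij with h1 | h1
    · obtain ⟨k, rfl⟩ : ∃ k, j = k + 1 + i := ⟨j - i - 1, by omega⟩
      exact SLLNAuxA.indep h f i k
    · obtain ⟨k, rfl⟩ : ∃ k, i = k + 1 + j := ⟨i - j - 1, by omega⟩
      exact (SLLNAuxA.indep h f j k).symm
  · refine ⟨(hm.comp (Mod.measurable_Tn.iterate i)).aemeasurable, hm.aemeasurable, ?_⟩
    have := Measure.map_map (μ := P) hm (Mod.measurable_Tn.iterate i)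
    rw [(h.2.1.iterate i).map_eq] at this
    exact this.symm

end Pool.Agent.MP_db8016_pr.BZ

end

section

/-! From one direction of almost sure transience to the zero-one law in all directions. -/

namespace Pool.Agent.MP_db8016_pr.BZ
open MeasureTheory ProbabilityTheory Filter Topology
open scoped ENNReal

theorem all_dirs (d : ℕ) (hd : 0 < d)
    (μ : Measure ((Fin d → ℤ) → Fin d × Bool → ℕ → ℝ)) [IsProbabilityMeasure μ]
    (hind : iIndepFun (fun (z : Fin d → ℤ) (ω : (Fin d → ℤ) → Fin d × Bool → ℕ → ℝ) => ω z) μ)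
    (hid : ∀ z : Fin d → ℤ,
      IdentDistrib (fun ω : (Fin d → ℤ) → Fin d × Bool → ℕ → ℝ => ω z) (fun ω => ω 0) μ μ)
    (hsum : ∀ᵐ ω ∂μ, ∀ z i, ∑ e, ω z e i = 1)
    (κ : ℝ) (hκ : 0 < κ) (hell : ∀ᵐ ω ∂μ, ∀ z e i, κ ≤ ω z e i)
    (P₀ : Measure (ℕ → Fin d → ℤ)) [IsProbabilityMeasure P₀]
    (hP₀ : ∀ (e : ℕ → Fin d × Bool) (n : ℕ), P₀ {X | ∀ i ≤ n, X i = HD.pos e i} =
      ∫⁻ ω, ENNReal.ofReal (∏ i ∈ Finset.range n, ω (HD.pos e i) (e i) (HD.visits e i)) ∂μ)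
    (l₀ : Fin d → ℝ) (hl : l₀ ≠ 0)
    (h1 : P₀ {X | Tendsto (fun n => ∑ j, (X n j : ℝ) * l₀ j) atTop atTop} = 1) (l : Fin d → ℝ) :
    P₀ {X | Tendsto (fun n => ∑ j, (X n j : ℝ) * l j) atTop atTop} = 0 ∨
    P₀ {X | Tendsto (fun n => ∑ j, (X n j : ℝ) * l j) atTop atTop} = 1 := by
  obtain ⟨ν, hν, uel, hwt⟩ := s_nu d μ hd hind hid hsum κ hκ hell
  obtain ⟨S, hS1, hS, hA⟩ := s_law d ν P₀ hd fun e n => by rw [hP₀, hwt]
  obtain ⟨c, L, hL1, u, hu, v, hv, hc, hz, -⟩ :=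
    s_pcs d ν _ (ENNReal.ofReal_pos.2 hκ).ne' uel l₀ hl
  have hm : ∀ (l : Fin d → ℝ) n, Measurable fun X : ℕ → Fin d → ℤ => ∑ j, (X n j : ℝ) * l j :=
    fun l n => (Measurable.of_discrete (f := fun z : Fin d → ℤ => ∑ j, (z j : ℝ) * l j)).comp
      (measurable_pi_apply n)
  rw [hA _ (measurableSet_tendsto atTop (hm _))] at h1 ⊢
  let M : Mod := ⟨Fin d × Bool, Fin d → ℤ, HD.step, ν, _, (ENNReal.ofReal_pos.2 hκ).ne', uel, L,
    hL1, u, hu, v, hv⟩
  have hps : ∀ (e : ℕ → Fin d × Bool) n, disp HD.step (pre e n) = HD.ps HD.step e n :=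
    fun e n => (Step0Aux.ps_eq M e n).symm
  refine inv_triv (M := M) hS ?_ ?_ fun e n => ?_
  · rw [← h1]
    congr 1
    ext e
    simp only [Set.mem_ofPred_eq, hz]
    exact (tendsto_const_mul_atTop_of_pos hc).symm
  · refine measurableSet_tendsto atTop fun n => ?_
    simp only [hps]
    exact measurable_of_Iic fun t => HD.Det.measurableSet (n := n) fun a a' h2 h3 => by
      rw [Set.mem_preimage, HD.ps_congr _ h2 le_rfl]
      exact h3
  · have key : ∀ e : ℕ → Fin d × Bool,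
        Tendsto (fun k => ∑ j, (HD.ps HD.step (HD.sh n e) k j : ℝ) * l j) atTop atTop ↔
        Tendsto (fun k => ∑ j, (HD.ps HD.step e k j : ℝ) * l j) atTop atTop := fun e => by
      rw [← tendsto_add_atTop_iff_nat (f := fun k => ∑ j, (HD.ps HD.step e k j : ℝ) * l j) n]
      simp only [add_comm _ n, HD.ps_add, Pi.add_apply, Int.cast_add, add_mul,
        Finset.sum_add_distrib]
      exact ⟨tendsto_atTop_add_const_left _ _, fun h => by
        simpa using tendsto_atTop_add_const_left _ (-∑ j, (HD.ps HD.step e n j : ℝ) * l j) h⟩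
    simp only [Set.mem_ofPred_eq, hps]
    exact key e

end Pool.Agent.MP_db8016_pr.BZ

end

section

/-! The asymptotic direction of the walk on the event of escape. -/

namespace Pool.Agent.MP_db8016_pr.BZ
open MeasureTheory ProbabilityTheory Filter Topology
open scoped ENNReal

theorem a_cone' : A_Cone :=
  a_cone (a_reg a_i1 a_i2) a_int a_cat (a_max a_gar) (a_big a_i1 a_cat) (a_con2 a_cat) a_i1

theorem a_fin' : A_Fin :=
  a_fin (a_f2 (a_f (a_g2 a_g1 a_stg) (a_g3 a_dis) a_exp) (a_q (a_viol a_dis)) a_low a_ult) a_gron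

/-- The range of a piece has a finite mean. -/
theorem range_fin (M : Mod) (S : Measure (ℕ → M.D)) [IsProbabilityMeasure S]
    (hS : ∀ γ, S (cyl γ) = M.w γ) (h0 : S M.Esc ≠ 0) (e : M.Pt →+ ℝ) (he : M.Lip e) :
    M.EP (M.Rg e) ≠ ⊤ := by
  obtain ⟨h1, h2, -⟩ := a_law M S hS h0
  obtain ⟨c, C, h4, h5, h6⟩ := a_cone' M S e h1 he
  exact a_fin' M e _ c C he h2 h4 h5 h6

theorem a_lim : A_Lim := by
  intro M S _ e hS h0 he
  obtain ⟨h1, -, h3⟩ := a_law M S hS h0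
  obtain ⟨v, hv⟩ := a_lim0 (a_slln a_int) (a_det a_cat) a_int M _ e (a_reg a_i1 a_i2 M S h1)
    (range_fin M S hS h0 e he) (range_fin M S hS h0 M.L M.hL)
  exact ⟨h3, v, a_lim1 a_i1 a_i2 M S e v h1 hv⟩

/-- Escape in the direction `l`. -/
def Tr {d : ℕ} (l : Fin d → ℝ) : Set (ℕ → Fin d → ℤ) :=
  {X | Tendsto (fun n => ∑ j, (X n j : ℝ) * l j) atTop atTop}

lemma meas_dot {d : ℕ} (l : Fin d → ℝ) (n : ℕ) :
    Measurable fun X : ℕ → Fin d → ℤ => ∑ j, (X n j : ℝ) * l j :=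
  (Measurable.of_discrete (f := fun z : Fin d → ℤ => ∑ j, (z j : ℝ) * l j)).comp
    (measurable_pi_apply n)

lemma meas_Tr {d : ℕ} (l : Fin d → ℝ) : MeasurableSet (Tr l) :=
  measurableSet_tendsto atTop (meas_dot l)

theorem lim_one (d : ℕ)
    (μ : Measure ((Fin d → ℤ) → Fin d × Bool → ℕ → ℝ)) [IsProbabilityMeasure μ]
    (hind : iIndepFun (fun (z : Fin d → ℤ) (ω : (Fin d → ℤ) → Fin d × Bool → ℕ → ℝ) => ω z) μ)
    (hid : ∀ z : Fin d → ℤ,
      IdentDistrib (fun ω : (Fin d → ℤ) → Fin d × Bool → ℕ → ℝ => ω z) (fun ω => ω 0) μ μ)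
    (hsum : ∀ᵐ ω ∂μ, ∀ z i, ∑ e, ω z e i = 1)
    (κ : ℝ) (hκ : 0 < κ) (hell : ∀ᵐ ω ∂μ, ∀ z e i, κ ≤ ω z e i)
    (P₀ : Measure (ℕ → Fin d → ℤ)) [IsProbabilityMeasure P₀]
    (hP₀ : ∀ (e : ℕ → Fin d × Bool) (n : ℕ), P₀ {X | ∀ i ≤ n, X i = HD.pos e i} =
      ∫⁻ ω, ENNReal.ofReal (∏ i ∈ Finset.range n, ω (HD.pos e i) (e i) (HD.visits e i)) ∂μ)
    (l : Fin d → ℝ) (h0 : P₀ (Tr l) ≠ 0) :
    l ≠ 0 ∧ P₀ (Tr l ∪ Tr (-l))ᶜ = 0 ∧ ∃ v : Fin d → ℝ, ∀ᵐ X ∂P₀, X ∈ Tr l →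
      ∀ j, Tendsto (fun n => (X n j : ℝ) / ∑ i, (X n i : ℝ) * l i) atTop (𝓝 (v j)) := by
  have hl : l ≠ 0 := by
    rintro rfl
    refine h0 (measure_mono_null (fun X hX => ?_) measure_empty)
    obtain ⟨n, h⟩ := (Tendsto.eventually_gt_atTop hX 0).exists
    simp at h
  have hd : 0 < d := Nat.pos_of_ne_zero (by
    rintro rfl
    exact hl (Subsingleton.elim _ _))
  obtain ⟨ν, hν, uel, hwt⟩ := s_nu d μ hd hind hid hsum κ hκ hell
  obtain ⟨S, hS1, hS, hA⟩ := s_law d ν P₀ hd fun e n => by rw [hP₀, hwt]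
  obtain ⟨c, L, hL1, u, hu, v, hv, hc, hz, -⟩ :=
    s_pcs d ν _ (ENNReal.ofReal_pos.2 hκ).ne' uel l hl
  let M : Mod := ⟨Fin d × Bool, Fin d → ℤ, HD.step, ν, _, (ENNReal.ofReal_pos.2 hκ).ne', uel, L,
    hL1, u, hu, v, hv⟩
  have e1 : ∀ e : ℕ → Fin d × Bool,
      (fun n => disp HD.step (pre e n)) ∈ Tr l ↔ e ∈ M.Esc := fun e => by
    simp only [Tr, Set.mem_ofPred_eq, hz]
    exact tendsto_const_mul_atTop_of_pos hc
  have e2 : ∀ e : ℕ → Fin d × Bool,
      (fun n => disp HD.step (pre e n)) ∈ Tr (-l) ↔ e ∈ M.neg.Esc := fun e => by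
    simp only [Tr, Set.mem_ofPred_eq, Pi.neg_apply, mul_neg, Finset.sum_neg_distrib, hz]
    simp only [← mul_neg]
    exact tendsto_const_mul_atTop_of_pos hc
  have h1 : S M.Esc ≠ 0 := by
    rw [hA _ (meas_Tr l)] at h0
    simpa only [e1, Set.ofPred_mem_eq] using h0
  let ej : Fin d → (Fin d → ℤ) →+ ℝ := fun j =>
    (Int.castAddHom ℝ).comp (Pi.evalAddMonoidHom (fun _ : Fin d => ℤ) j)
  have hej : ∀ j, M.Lip (ej j) := fun j s => by
    change |((HD.step s j : ℤ) : ℝ)| ≤ 1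
    unfold HD.step
    rw [Pi.single_apply]
    split_ifs <;> simp
  choose hT w hw using fun j => a_lim M S (ej j) hS h1 (hej j)
  refine ⟨hl, ?_, fun j => c⁻¹ * w j, ?_⟩
  · rw [hA _ ((meas_Tr l).union (meas_Tr _)).compl, ← hT ⟨0, hd⟩]
    congr 1
    ext e
    simp only [Set.mem_ofPred_eq, Set.mem_compl_iff, Set.mem_union, e1, e2]
    rfl
  · have hm : MeasurableSet {X : ℕ → Fin d → ℤ | ¬ (X ∈ Tr l → ∀ j,
        Tendsto (fun n => (X n j : ℝ) / ∑ i, (X n i : ℝ) * l i) atTop (𝓝 (c⁻¹ * w j)))} :=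
      measurableSet_setOfPred.2 ((measurableSet_setOfPred.1 (meas_Tr l)).imp
        (Measurable.forall fun j => measurableSet_setOfPred.1 (measurableSet_tendsto _ fun n =>
          (Measurable.of_discrete
            (f := fun z : Fin d → ℤ => (z j : ℝ) / ∑ i, (z i : ℝ) * l i)).comp
            (measurable_pi_apply n)))).not
    rw [ae_iff, hA _ hm]
    refine measure_mono_null (fun e he => ?_) (ae_iff.1 (ae_all_iff.2 hw))
    refine fun h => he fun h2 j => ?_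
    refine ((h j ((e1 e).1 h2)).const_mul c⁻¹).congr fun n => ?_
    rw [hz, mul_comm c, ← div_div, div_eq_inv_mul _ c]
    rfl

end Pool.Agent.MP_db8016_pr.BZ

end

section

/-! The asymptotic line of the walk, and the probability of escape in the other directions. -/

namespace Pool.Agent.MP_db8016_pr.BZ
open MeasureTheory ProbabilityTheory Filter Topology

namespace DirAuxA

section
variable {d : ℕ} {X : ℕ → Fin d → ℤ} {l v : Fin d → ℝ}

lemma dot_lim
    (h : ∀ j, Tendsto (fun n => (X n j : ℝ) / ∑ i, (X n i : ℝ) * l i) atTop (𝓝 (v j)))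
    (l' : Fin d → ℝ) : Tendsto (fun n => (∑ j, (X n j : ℝ) * l' j) / ∑ i, (X n i : ℝ) * l i) atTop
      (𝓝 (∑ j, v j * l' j)) := by
  refine (tendsto_finset_sum _ fun j _ => (h j).mul_const (l' j)).congr fun n => ?_
  rw [Finset.sum_div]
  exact Finset.sum_congr rfl fun j _ => by ring

lemma dot_one (hX : X ∈ Tr l)
    (h : ∀ j, Tendsto (fun n => (X n j : ℝ) / ∑ i, (X n i : ℝ) * l i) atTop (𝓝 (v j))) :
    ∑ j, v j * l j = 1 := by
  refine tendsto_nhds_unique (dot_lim h l) (tendsto_const_nhds.congr' ?_)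
  filter_upwards [Tendsto.eventually_gt_atTop hX 0] with n hn
  exact (div_self hn.ne').symm

lemma mem_of_pos (hX : X ∈ Tr l)
    (h : ∀ j, Tendsto (fun n => (X n j : ℝ) / ∑ i, (X n i : ℝ) * l i) atTop (𝓝 (v j)))
    {l' : Fin d → ℝ} (hl : 0 < ∑ j, v j * l' j) : X ∈ Tr l' := by
  refine (Tendsto.pos_mul_atTop hl (dot_lim h l') hX).congr' ?_
  filter_upwards [Tendsto.eventually_gt_atTop hX 0] with n hn
  exact div_mul_cancel₀ _ hn.ne'

lemma flip
    (h : ∀ j, Tendsto (fun n => (X n j : ℝ) / ∑ i, (X n i : ℝ) * l i) atTop (𝓝 (v j))) :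
    ∀ j, Tendsto (fun n => (X n j : ℝ) / ∑ i, (X n i : ℝ) * (-l) i) atTop (𝓝 ((-v) j)) :=
  fun j => (h j).neg.congr fun n => by simp [div_neg]

lemma not_both (h : X ∈ Tr l) (h' : X ∈ Tr (-l)) : False := by
  obtain ⟨n, h1, h2⟩ :=
    ((Tendsto.eventually_gt_atTop h 0).and (Tendsto.eventually_gt_atTop h' 0)).exists
  simp only [Pi.neg_apply, mul_neg, Finset.sum_neg_distrib] at h2
  linarith

end

end DirAuxA

open DirAuxA

theorem dir_thm (d : ℕ)
    (μ : Measure ((Fin d → ℤ) → Fin d × Bool → ℕ → ℝ)) [IsProbabilityMeasure μ]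
    (hind : iIndepFun (fun (z : Fin d → ℤ) (ω : (Fin d → ℤ) → Fin d × Bool → ℕ → ℝ) => ω z) μ)
    (hid : ∀ z : Fin d → ℤ,
      IdentDistrib (fun ω : (Fin d → ℤ) → Fin d × Bool → ℕ → ℝ => ω z) (fun ω => ω 0) μ μ)
    (hsum : ∀ᵐ ω ∂μ, ∀ z i, ∑ e, ω z e i = 1)
    (κ : ℝ) (hκ : 0 < κ) (hell : ∀ᵐ ω ∂μ, ∀ z e i, κ ≤ ω z e i)
    (P₀ : Measure (ℕ → Fin d → ℤ)) [IsProbabilityMeasure P₀]
    (hP₀ : ∀ (e : ℕ → Fin d × Bool) (n : ℕ), P₀ {X | ∀ i ≤ n, X i = HD.pos e i} =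
      ∫⁻ ω, ENNReal.ofReal (∏ i ∈ Finset.range n, ω (HD.pos e i) (e i) (HD.visits e i)) ∂μ)
    (l : Fin d → ℝ) (hl : P₀ (Tr l) ≠ 0) : ∃ v : Fin d → ℝ, ∑ j, v j * l j = 1 ∧
      ∀ᵐ X ∂P₀, X ∈ Tr l ∪ Tr (-l) ∧
        ∀ j, Tendsto (fun n => (X n j : ℝ) / ∑ i, (X n i : ℝ) * l i) atTop (𝓝 (v j)) := by
  obtain ⟨h0, h1, v, hv⟩ := lim_one d μ hind hid hsum κ hκ hell P₀ hP₀ l hl
  have one : ∀ l v : Fin d → ℝ, P₀ (Tr l) ≠ 0 → (∀ᵐ X ∂P₀, X ∈ Tr l → ∀ j,
      Tendsto (fun n => (X n j : ℝ) / ∑ i, (X n i : ℝ) * l i) atTop (𝓝 (v j))) →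
      ∑ j, v j * l j = 1 := fun l v hl hv => by
    obtain ⟨X, h2, h3⟩ := (frequently_ae_iff.2 hl).and_eventually hv |>.exists
    exact dot_one h2 (h3 h2)
  have h1' : ∀ᵐ X ∂P₀, X ∈ Tr l ∪ Tr (-l) := h1
  refine ⟨v, one l v hl hv, ?_⟩
  by_cases hn : P₀ (Tr (-l)) = 0
  · filter_upwards [h1', hv, measure_eq_zero_iff_ae_notMem.1 hn] with X h2 h3 h4
    exact ⟨h2, h3 (h2.resolve_right h4)⟩
  obtain ⟨-, -, w, hw⟩ := lim_one d μ hind hid hsum κ hκ hell P₀ hP₀ (-l) hn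
  have e1 := one l v hl hv
  have e2 := one _ w hn hw
  simp only [Pi.neg_apply, mul_neg, Finset.sum_neg_distrib] at e2
  by_cases hu : v + w = 0
  · filter_upwards [h1', hv, hw] with X h2 h3 h4
    refine ⟨h2, h2.elim h3 fun h5 => ?_⟩
    have h6 := flip (h4 h5)
    rwa [neg_neg, neg_eq_of_add_eq_zero_left hu] at h6
  exfalso
  have hpos : 0 < ∑ j, (v + w) j * (v + w) j := by
    obtain ⟨j, hj⟩ := Function.ne_iff.1 hu
    exact Finset.sum_pos' (fun i _ => mul_self_nonneg _)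
      ⟨j, Finset.mem_univ _, mul_self_pos.2 hj⟩
  let t : ℝ := (∑ j, w j * (v + w) j - ∑ j, v j * (v + w) j) / 2
  have hs : ∑ j, (v + w) j * (v + w) j = ∑ j, v j * (v + w) j + ∑ j, w j * (v + w) j := by
    rw [← Finset.sum_add_distrib]
    exact Finset.sum_congr rfl fun j _ => by rw [Pi.add_apply, add_mul]
  have hx : ∀ x : Fin d → ℝ, ∑ j, x j * (v + w + t • l) j =
      ∑ j, x j * (v + w) j + t * ∑ j, x j * l j := fun x => by
    rw [Finset.mul_sum, ← Finset.sum_add_distrib]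
    exact Finset.sum_congr rfl fun j _ => by
      rw [Pi.add_apply (v + w), Pi.smul_apply, smul_eq_mul]
      ring
  have p1 : 0 < ∑ j, v j * (v + w + t • l) j := by
    rw [hx, e1]
    simp only [t]
    linarith
  have p2 : 0 < ∑ j, w j * (v + w + t • l) j := by
    rw [hx, show ∑ j, w j * l j = -1 by linarith]
    simp only [t]
    linarith
  have h2 : P₀ (Tr (v + w + t • l)) = 1 := by
    refine (prob_compl_eq_zero_iff (meas_Tr _)).1 ?_
    refine measure_eq_zero_iff_ae_notMem.2 ?_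
    filter_upwards [h1', hv, hw] with X h2 h3 h4 h5
    exact h5 (h2.elim (fun h => mem_of_pos h (h3 h) p1) fun h => mem_of_pos h (h4 h) p2)
  have hd : 0 < d := Nat.pos_of_ne_zero (by
    rintro rfl
    exact h0 (Subsingleton.elim _ _))
  have h3 : v + w + t • l ≠ 0 := fun h => by
    rw [h] at p1
    simp at p1
  rcases all_dirs d hd μ hind hid hsum κ hκ hell P₀ hP₀ _ h3 h2 l with h4 | h4
  · exact hl h4
  · exact hn (measure_mono_null (fun X h5 h6 => not_both h6 h5)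
      ((prob_compl_eq_zero_iff (meas_Tr l)).2 h4))

/-- The probability of escape in the direction `l'` depends only on the sign of `v · l'`. -/
theorem cls_thm (d : ℕ)
    (μ : Measure ((Fin d → ℤ) → Fin d × Bool → ℕ → ℝ)) [IsProbabilityMeasure μ]
    (hind : iIndepFun (fun (z : Fin d → ℤ) (ω : (Fin d → ℤ) → Fin d × Bool → ℕ → ℝ) => ω z) μ)
    (hid : ∀ z : Fin d → ℤ,
      IdentDistrib (fun ω : (Fin d → ℤ) → Fin d × Bool → ℕ → ℝ => ω z) (fun ω => ω 0) μ μ)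
    (hsum : ∀ᵐ ω ∂μ, ∀ z i, ∑ e, ω z e i = 1)
    (κ : ℝ) (hκ : 0 < κ) (hell : ∀ᵐ ω ∂μ, ∀ z e i, κ ≤ ω z e i)
    (P₀ : Measure (ℕ → Fin d → ℤ)) [IsProbabilityMeasure P₀]
    (hP₀ : ∀ (e : ℕ → Fin d × Bool) (n : ℕ), P₀ {X | ∀ i ≤ n, X i = HD.pos e i} =
      ∫⁻ ω, ENNReal.ofReal (∏ i ∈ Finset.range n, ω (HD.pos e i) (e i) (HD.visits e i)) ∂μ)
    (l : Fin d → ℝ) (hl : P₀ (Tr l) ≠ 0) : ∃ v : Fin d → ℝ, ∑ j, v j * l j = 1 ∧
      ∀ l' : Fin d → ℝ, P₀ (Tr l') = if 0 < ∑ j, v j * l' j then P₀ (Tr l)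
        else if ∑ j, v j * l' j < 0 then 1 - P₀ (Tr l) else 0 := by
  have main := dir_thm d μ hind hid hsum κ hκ hell P₀ hP₀
  obtain ⟨v, h1, h2⟩ := main l hl
  refine ⟨v, h1, fun l' => ?_⟩
  split_ifs with c1 c2
  · refine measure_congr ?_
    filter_upwards [h2] with X h3
    refine propext ⟨fun h => h3.1.resolve_right fun h4 => not_both h ?_,
      fun h => mem_of_pos h h3.2 c1⟩
    exact mem_of_pos h4 (flip h3.2) (by simpa using c1)
  · rw [← prob_compl_eq_one_sub (meas_Tr l)]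
    refine measure_congr ?_
    filter_upwards [h2] with X h3
    refine propext ⟨fun h h4 => not_both h (mem_of_pos h4 h3.2 (by simpa using c2)), fun h => ?_⟩
    exact mem_of_pos (h3.1.resolve_left h) (flip h3.2) (by simpa using c2)
  · by_contra h
    obtain ⟨w, -, h4⟩ := main l' h
    obtain ⟨X, h5, h6, h7⟩ := (frequently_ae_iff.2 h).and_eventually (h2.and h4) |>.exists
    have h8 := (dot_lim h6.2 l').mul (dot_lim h7.2 l)
    rw [le_antisymm (not_lt.1 c1) (not_lt.1 c2), zero_mul] at h8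
    refine zero_ne_one (tendsto_nhds_unique h8 (tendsto_const_nhds.congr' ?_))
    have h9 : ∀ᶠ n in atTop, ∑ j, (X n j : ℝ) * l j ≠ 0 := h6.1.elim
      (fun h => (Tendsto.eventually_gt_atTop h 0).mono fun n hn => hn.ne') fun h =>
      (Tendsto.eventually_gt_atTop h 0).mono fun n hn e => by
        simp only [Pi.neg_apply, mul_neg, Finset.sum_neg_distrib, e] at hn
        simp at hn
    filter_upwards [h9, Tendsto.eventually_gt_atTop h5 0] with n a1 a2
    field_simp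

end Pool.Agent.MP_db8016_pr.BZ

end
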